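import Pool.Agent.LCA.Stmts1

/-!
# Part A: ATR, the transition of `At`
-/

namespace LCA

open Set Filter
open scoped ContDiff Topology

namespace ATR

theorem good_mono {J J' : Set ℝ} {A : Set E5} (h : J' ⊆ J) (hA : Good J A) : Good J' A where
  closed q hq hs := hA.closed q hq (h hs)
  bounded K hK hc := hA.bounded K (hK.trans h) hc
  chart q hq hs := hA.chart q hq (h hs)
  inj q hq q' hq' hs := hA.inj q hq q' hq' (h hs)

theorem down_mono {J J' : Set ℝ} {A : Set E5} (h : J' ⊆ J) (hA : Down J A) : Down J' A :=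
  fun q hq hs c hc hcs => hA q hq (h hs) c (h hc) hcs

end ATR

theorem t_ATR (hGLU : Stmt_GLU) (_hCNG : Stmt_CNG) : Stmt_ATR := by
  intro m n m' n' K sh c w Q V t c' w' Q' V' t' ε B htt hε hAt hB hBd hag hag'
  obtain ⟨ht, ε₁, hε₁, hε₁t, A, e₀, he₀, he₀t, hA, hAd, hAK, hAs⟩ := hAt
  set ε₂ : ℝ := min ε ε₁ with hε₂def
  have hε₂ : 0 < ε₂ := lt_min hε hε₁
  have h2ε : ε₂ ≤ ε := min_le_left _ _
  have h2ε₁ : ε₂ ≤ ε₁ := min_le_right _ _
  have hsubA : Ioo 0 (t + ε₂) ⊆ Ioo 0 (t + ε₁) := Ioo_subset_Ioo le_rfl (by linarith)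
  have hsubB : Ioo (t - ε₂) (t' + ε) ⊆ Ioo (t - ε) (t' + ε) :=
    Ioo_subset_Ioo (by linarith) le_rfl
  have hagAB : Agree (Ioo (t - ε₂) (t + ε₂)) A B := by
    intro q hq
    have h1 := hAs q ⟨by linarith [hq.1], by linarith [hq.2]⟩
    have h2 := hag q ⟨by linarith [hq.1], by linarith [hq.2]⟩
    exact h1.trans h2.symm
  obtain ⟨B', hG, hD, hA1, hA2⟩ := hGLU 0 (t + ε₂) (t - ε₂) (t' + ε) A B (by linarith)
    (by linarith) (by linarith) (ATR.good_mono hsubA hA) (ATR.down_mono hsubA hAd)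
    (ATR.good_mono hsubB hB) (ATR.down_mono hsubB hBd) hagAB
  have hsub : Ioo 0 (t' + ε₂) ⊆ Ioo 0 (t' + ε) := Ioo_subset_Ioo le_rfl (by linarith)
  refine ⟨by linarith, ε₂, hε₂, by linarith, B', e₀, he₀, by linarith,
    ATR.good_mono hsub hG, ATR.down_mono hsub hD, ?_, ?_⟩
  · intro q hq
    exact (hA1 q ⟨hq.1, by linarith [hq.2]⟩).trans (hAK q hq)
  · intro q hq
    exact (hA2 q ⟨by linarith [hq.1], by linarith [hq.2]⟩).trans
      (hag' q ⟨by linarith [hq.1], by linarith [hq.2]⟩)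

end LCA
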