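import Pool.Agent.LCA.Stmts2

/-!
# Part A, BXC: the pieces do not meet the box around a critical point
-/

namespace LCA

open Set Filter
open scoped ContDiff Topology

namespace BXC

variable {m n : ℕ}

/-- (I2) at the left end. -/
theorem i2_lf (c : Comb m n) (q v : St n) (e : Fin m) :
    v.2 (c.lf e) = c.dpe q v e * q.1 (c.lf e) + c.pe q e * v.1 (c.lf e) + c.dae q v e := by
  unfold Comb.dae
  ring

/-- (I2) at the right end. -/
theorem i2_rt (c : Comb m n) (q v : St n) (e : Fin m) (h : q.1 (c.lf e) < q.1 (c.rt e)) :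
    v.2 (c.rt e) = c.dpe q v e * q.1 (c.rt e) + c.pe q e * v.1 (c.rt e) + c.dae q v e := by
  have h0 : q.1 (c.rt e) - q.1 (c.lf e) ≠ 0 := by
    have := sub_pos.mpr h
    exact this.ne'
  have h1 : c.dpe q v e * (q.1 (c.rt e) - q.1 (c.lf e)) =
      v.2 (c.rt e) - v.2 (c.lf e) - c.pe q e * (v.1 (c.rt e) - v.1 (c.lf e)) := by
    unfold Comb.dpe
    exact div_mul_cancel₀ _ h0
  have h2 := i2_lf c q v e
  linarith [h1, h2]

/-- (I2) for the first edge of a vertex. -/
theorem i2_ea (c : Comb m n) (hv : c.Valid) (q v : St n)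
    (h : ∀ e, q.1 (c.lf e) < q.1 (c.rt e)) (i : Fin n) :
    v.2 i = c.dpe q v (c.ea i) * q.1 i + c.pe q (c.ea i) * v.1 i + c.dae q v (c.ea i) := by
  have hi := hv.oka i
  unfold Comb.OKa at hi
  rcases ht : c.ty i with _ | _ | _
  · rw [ht] at hi
    have := i2_rt c q v (c.ea i) (h _)
    rw [hi] at this
    exact this
  · rw [ht] at hi
    have := i2_rt c q v (c.ea i) (h _)
    rw [hi] at this
    exact this
  · rw [ht] at hi
    have := i2_lf c q v (c.ea i)
    rw [hi] at this
    exact this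

/-- The bound for the `x`-coordinate of a profile. -/
theorem X_bd {t : Ty} {s : ℝ} {π : Prof} (h : ProfBd t s π) {u : ℝ} (hu : |u| ≤ 2) :
    |π.X s u| ≤ 2 := by
  rcases le_or_gt |u| 1 with h1 | h1
  · exact (h.X_bd u h1).trans (by norm_num)
  · rcases lt_abs.mp h1 with h2 | h2
    · rw [(h.high u h2.le).1]
      cases t
      · exact hu
      · show |-u| ≤ 2
        rw [abs_neg]
        exact hu
      · exact hu
    · rw [(h.low u (by linarith)).1]
      cases t
      · exact hu
      · exact hu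
      · show |-u| ≤ 2
        rw [abs_neg]
        exact hu

/-- An affine function which is larger than `K` at both ends of an interval is larger than `K`
on the interval. -/
theorem aff {A B K l r p : ℝ} (h1 : l ≤ p) (h2 : p ≤ r) (hl : K < A - l * B)
    (hr : K < A - r * B) : K < A - p * B := by
  rcases le_total 0 B with hB | hB
  · have : p * B ≤ r * B := mul_le_mul_of_nonneg_right h2 hB
    linarith
  · have : p * B ≤ l * B := mul_le_mul_of_nonpos_right h1 hB
    linarith

/-- The height of a point of the piece of a vertex. -/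
theorem p_mem (c : Comb m n) (q : St n) (i : Fin n) {P : ℝ} (h0 : 0 ≤ P) (h1 : P ≤ 1) :
    c.plo q i ≤ c.pe q (c.ea i) + c.dl q i * P ∧ c.pe q (c.ea i) + c.dl q i * P ≤ c.phi q i := by
  unfold Comb.plo Comb.phi Comb.dl
  rcases le_total (c.pe q (c.ea i)) (c.pe q (c.eb i)) with h | h
  · rw [min_eq_left h, max_eq_right h]
    have hd : 0 ≤ c.pe q (c.eb i) - c.pe q (c.ea i) := sub_nonneg.mpr h
    have := mul_nonneg hd h0
    have := mul_le_mul_of_nonneg_left h1 hd
    constructor <;> linarith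
  · rw [min_eq_right h, max_eq_left h]
    have hd : 0 ≤ c.pe q (c.ea i) - c.pe q (c.eb i) := sub_nonneg.mpr h
    have := mul_nonneg hd h0
    have := mul_le_mul_of_nonneg_left h1 hd
    constructor <;> linarith

/-- The error term. -/
theorem err_bd {w a b d X Θ Y : ℝ} (hw : 0 < w) (hX : |X| ≤ 2) (hΘ : |Θ| ≤ 2) (hY : |Y| ≤ CY) :
    |w * (a * X + b * Θ + d * Y)| ≤ w * (2 * |a| + 2 * |b| + CY * |d|) := by
  rw [abs_mul, abs_of_pos hw]
  apply mul_le_mul_of_nonneg_left _ hw.le
  have h1 : |a * X| ≤ 2 * |a| := by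
    rw [abs_mul, mul_comm]
    exact mul_le_mul_of_nonneg_right hX (abs_nonneg _)
  have h2 : |b * Θ| ≤ 2 * |b| := by
    rw [abs_mul, mul_comm]
    exact mul_le_mul_of_nonneg_right hΘ (abs_nonneg _)
  have h3 : |d * Y| ≤ CY * |d| := by
    rw [abs_mul, mul_comm]
    exact mul_le_mul_of_nonneg_right hY (abs_nonneg _)
  have h4 := abs_add_three (a * X) (b * Θ) (d * Y)
  linarith

/-- (I4) with the bound of the error. -/
theorem z_bd (c : Comb m n) (hv : c.Valid) (w : Fin n → ℝ) (hw : ∀ i, 0 < w i)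
    (π : Fin n → Prof) (s : ℝ) (q v : St n) (hπ : ∀ i, ProfBd (c.ty i) s (π i))
    (h : ∀ e, q.1 (c.lf e) < q.1 (c.rt e)) (i : Fin n) (u : ℝ) (hu : |u| ≤ 2) :
    |(c.vp w π s q v i u).2.2.1 - (v.2 i - (c.vp w π s q v i u).2.1 * v.1 i)| ≤
      c.err w q v i := by
  have e1 : (c.vp w π s q v i u).2.2.1 - (v.2 i - (c.vp w π s q v i u).2.1 * v.1 i) =
      w i * (c.dpe q v (c.ea i) * (π i).X s u
        + (c.dpe q v (c.eb i) - c.dpe q v (c.ea i)) * (π i).Θ s u
        + c.dl q i * (π i).Y s u) := by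
    have := i2_ea c hv q v h i
    simp only [Comb.vp, Comb.vpt]
    rw [this]
    ring
  rw [e1]
  exact err_bd (hw i) (X_bd (hπ i) hu) ((hπ i).Θ_bd u hu) ((hπ i).Y_bd u hu)

theorem x_bd (c : Comb m n) (w : Fin n → ℝ) (hw : ∀ i, 0 < w i)
    (π : Fin n → Prof) (s : ℝ) (q v : St n) (hπ : ∀ i, ProfBd (c.ty i) s (π i))
    (i : Fin n) (u : ℝ) (hu : |u| ≤ 2) :
    |(c.vp w π s q v i u).1 - q.1 i| ≤ 2 * w i := by
  have e1 : (c.vp w π s q v i u).1 - q.1 i = w i * (π i).X s u := by
    simp only [Comb.vp, Comb.vpt]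
    ring
  rw [e1, abs_mul, abs_of_pos (hw i), mul_comm]
  exact mul_le_mul_of_nonneg_right (X_bd (hπ i) hu) (hw i).le

end BXC

/-- BXC: the pieces do not meet the box. -/
theorem t_BXC : Stmt_BXC := by
  intro m n c w π s E ρ q v hv hw hπ hlr
  constructor
  · intro e he x hx hxρ hp1 hp2
    have hx1 := abs_le.mp hxρ
    unfold Comb.rg at hx
    rcases he with h | h | h | h | h
    · exact absurd hx.2 (by linarith [hx1.1])
    · exact absurd hx.1 (by linarith [hx1.2])
    · exact absurd hp1 (by linarith)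
    · exact absurd hp2 (by linarith)
    · show E.ζ < |c.dpe q v e * x + c.dae q v e - E.z₀|
      have e1 : c.dpe q v e * E.x₀ + c.dae q v e - E.z₀ =
          (c.dpe q v e * x + c.dae q v e - E.z₀) - c.dpe q v e * (x - E.x₀) := by ring
      have e2 := abs_sub (c.dpe q v e * x + c.dae q v e - E.z₀) (c.dpe q v e * (x - E.x₀))
      rw [← e1, abs_mul] at e2
      have e3 : |c.dpe q v e| * |x - E.x₀| ≤ |c.dpe q v e| * ρ :=
        mul_le_mul_of_nonneg_left hxρ (abs_nonneg _)
      linarith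
  · intro i hi u hu hxρ hp1 hp2
    have hx1 := abs_le.mp hxρ
    have hx2 := abs_le.mp (BXC.x_bd c w hw π s q v hπ i u hu)
    have hz := BXC.z_bd c hv w hw π s q v hπ hlr i u hu
    have hp := BXC.p_mem c q i ((hπ i).P_mem u).1 ((hπ i).P_mem u).2
    have hpe : (c.vp w π s q v i u).2.1 = c.pe q (c.ea i) + c.dl q i * (π i).P s u := rfl
    rw [← hpe] at hp
    rcases hi with h | h | h | h | ⟨σ, hσ, h1, h2⟩
    · exact absurd hx1.1 (by linarith [hx2.2])
    · exact absurd hx1.2 (by linarith [hx2.1])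
    · exact absurd hp1 (by linarith [hp.2])
    · exact absurd hp2 (by linarith [hp.1])
    · set p := (c.vp w π s q v i u).2.1 with hpdef
      set z := (c.vp w π s q v i u).2.2.1 with hzdef
      have hl : max (c.plo q i) (min E.P₁ E.P₂ - E.g / 2) ≤ p := max_le hp.1 hp1
      have hr : p ≤ min (c.phi q i) (max E.P₁ E.P₂ + E.g / 2) := le_min hp.2 hp2
      have k1 : E.ζ + c.err w q v i < σ * (v.2 i - E.z₀) -
          max (c.plo q i) (min E.P₁ E.P₂ - E.g / 2) * (σ * v.1 i) := by
        linarith [h1]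
      have k2 : E.ζ + c.err w q v i < σ * (v.2 i - E.z₀) -
          min (c.phi q i) (max E.P₁ E.P₂ + E.g / 2) * (σ * v.1 i) := by
        linarith [h2]
      have k3 := BXC.aff hl hr k1 k2
      have k4 : |σ * (z - (v.2 i - p * v.1 i))| ≤ c.err w q v i := by
        rw [abs_mul, hσ, one_mul]
        exact hz
      have k5 := (abs_le.mp k4).1
      have k6 : E.ζ < σ * (z - E.z₀) := by
        have e1 : σ * (z - E.z₀) = (σ * (v.2 i - E.z₀) - p * (σ * v.1 i))
          + σ * (z - (v.2 i - p * v.1 i)) := by ring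
        rw [e1]
        linarith
      calc E.ζ < σ * (z - E.z₀) := k6
        _ ≤ |σ * (z - E.z₀)| := le_abs_self _
        _ = |z - E.z₀| := by rw [abs_mul, hσ, one_mul]

end LCA
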