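import Pool.Agent.LCA.Stmts5

/-!
# BXI: the conditions of the checker for the box
-/

namespace LCA

open Set Filter
open scoped ContDiff Topology

namespace BXI

theorem iadd (a b : ℤ) : Int.add a b = a + b := rfl
theorem isub (a b : ℤ) : Int.sub a b = a - b := rfl
theorem imul (a b : ℤ) : Int.mul a b = a * b := rfl
theorem ineg (a : ℤ) : Int.neg a = -a := rfl

theorem lo (hCBL : Stmt_CBL) (E : ED) (s₀ : ℝ) :
    min (E.ev s₀).P₁ (E.ev s₀).P₂ - (E.ev s₀).g / 2 = ((E.lo : ℤ) : ℝ) := by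
  obtain ⟨-, -, -, -, -, hmin, -⟩ := hCBL
  have e : E.lo = min E.P₁ E.P₂ - E.h := by
    unfold ED.lo
    rw [hmin]
    rfl
  rw [e]
  push_cast
  simp only [ED.ev]
  ring

theorem hi (hCBL : Stmt_CBL) (E : ED) (s₀ : ℝ) :
    max (E.ev s₀).P₁ (E.ev s₀).P₂ + (E.ev s₀).g / 2 = ((E.hi : ℤ) : ℝ) := by
  obtain ⟨-, -, -, -, hmax, -, -⟩ := hCBL
  have e : E.hi = max E.P₁ E.P₂ + E.h := by
    unfold ED.hi
    rw [hmax]
    rfl
  rw [e]
  push_cast
  simp only [ED.ev]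
  ring

theorem ze (E : ED) (s₀ : ℝ) : (E.ev s₀).ζ = ((E.ζ : ℤ) : ℝ) := by
  have e : E.ζ = E.h * E.v := rfl
  rw [e]
  push_cast
  simp only [ED.ev, Evt.ζ]
  ring

theorem x0 (E : ED) (s₀ : ℝ) : (E.ev s₀).x₀ = (E.x : ℝ) := rfl
theorem z0 (E : ED) (s₀ : ℝ) : (E.ev s₀).z₀ = (E.z : ℝ) := rfl

theorem edge (hCBL : Stmt_CBL) (m n : ℕ) (E : ED) (s₀ : ℝ) (A B : SD) (hA : A.Vals m n)
    (hB : B.Vals m n) (hcb : A.cb m n = B.cb m n) (hw : A.W n = B.W n) (e : Fin (m + 1))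
    (h : bxE E (A.e e) (B.e e) = true) :
    (A.cb m n).LBE (A.W n) (E.ev s₀) E.ρ (A.Q n) (B.Q n) (B.V n) e := by
  have hlo := lo hCBL E s₀
  have hhi := hi hCBL E s₀
  obtain ⟨hb, ho, hlt, -, -, -, habs, -⟩ := hCBL
  have a1 := hA.ir e
  have a2 := hA.il e
  have a3 := hA.pe e
  have b1 := hB.ir e
  have b2 := hB.il e
  have b3 := hB.pe e
  have b4 := hB.dpe e
  have b5 := hB.dae e
  rw [← hcb, ← hw] at b1 b2
  rw [← hcb] at b3 b4 b5
  unfold Comb.LBE
  rw [a1, a2, a3, b1, b2, b3, b4, b5, hlo, hhi, ze, x0, z0]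
  unfold bxE at h
  simp only [hb, ho, hlt, habs, iadd, isub, imul] at h
  rcases h with h | h | h | h | h
  · left
    exact_mod_cast h
  · right; left
    exact_mod_cast h
  · right; right; left
    exact_mod_cast h
  · right; right; right; left
    exact_mod_cast h
  · right; right; right; right
    exact_mod_cast h

theorem ers (m n : ℕ) (A B : SD) (hA : A.Vals m n) (hB : B.Vals m n)
    (hcb : A.cb m n = B.cb m n) (hw : A.W n = B.W n) (i : Fin (n + 1)) :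
    (A.cb m n).erS (A.W n) (A.Q n) (B.Q n) (B.V n) i =
      (((B.v i).w * ((B.v i).er + 1000 * max ((A.v i).hi - (A.v i).lo)
        ((B.v i).hi - (B.v i).lo)) : ℤ) : ℝ) := by
  have a1 := hA.dl i
  have b1 := hB.dl i
  have b2 := hB.er i
  rw [← hcb] at b1 b2
  have hwi : A.W n i = ((B.v i).w : ℝ) := congrFun hw i
  unfold Comb.erS
  rw [a1, b1, b2, hwi]
  push_cast
  unfold CY
  ring

theorem vert (hCBL : Stmt_CBL) (m n : ℕ) (E : ED) (s₀ : ℝ) (A B : SD) (hA : A.Vals m n)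
    (hB : B.Vals m n) (hcb : A.cb m n = B.cb m n) (hw : A.W n = B.W n) (i : Fin (n + 1))
    (h : bxV E (A.v i) (B.v i) = true) :
    (A.cb m n).LBV (A.W n) (E.ev s₀) E.ρ (A.Q n) (B.Q n) (B.V n) i := by
  have hlo := lo hCBL E s₀
  have hhi := hi hCBL E s₀
  obtain ⟨hb, ho, hlt, -, hmax, hmin, habs, -⟩ := hCBL
  have a1 := hA.jl i
  have a2 := hA.jr i
  have a3 := hA.plo i
  have a4 := hA.phi i
  have b1 := hB.jl i
  have b2 := hB.jr i
  have b3 := hB.plo i
  have b4 := hB.phi i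
  rw [← hw] at b1 b2
  rw [← hcb] at b3 b4
  have v1 : (B.V n).1 i = ((B.v i).dx : ℝ) := rfl
  have v2 : (B.V n).2 i = ((B.v i).dF : ℝ) := rfl
  unfold Comb.LBV
  rw [a1, a2, a3, a4, b1, b2, b3, b4, hlo, hhi, ze, x0, z0, ers m n A B hA hB hcb hw i, v1, v2]
  unfold bxV sgn3 erV dBV at h
  simp only [hb, ho, hlt, habs, hmax, hmin, iadd, isub, imul, ineg, and_true] at h
  rcases h with h | h | h | h | ⟨h1, h2⟩ | ⟨h1, h2⟩
  · left
    exact_mod_cast h
  · right; left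
    exact_mod_cast h
  · right; right; left
    exact_mod_cast h
  · right; right; right; left
    exact_mod_cast h
  · right; right; right; right
    refine ⟨1, by simp, ?_, ?_⟩
    · rw [one_mul]
      exact_mod_cast h1
    · rw [one_mul]
      exact_mod_cast h2
  · right; right; right; right
    refine ⟨-1, by simp, ?_, ?_⟩
    · rw [neg_one_mul, lt_neg]
      exact_mod_cast h1
    · rw [neg_one_mul, lt_neg]
      exact_mod_cast h2

end BXI

theorem t_BXI (hCBL : Stmt_CBL) : Stmt_BXI := fun m n E s₀ A B hA hB hcb hw =>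
  ⟨fun e h => BXI.edge hCBL m n E s₀ A B hA hB hcb hw e h,
    fun i h => BXI.vert hCBL m n E s₀ A B hA hB hcb hw i h⟩

end LCA
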