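import Pool.Agent.LCA.Stmts4

/-!
# Part A: a vertex and an edge during a linear motion
-/

namespace LCA

open Set Filter
open scoped ContDiff Topology

namespace SVE

variable {m n : ℕ}

/-- The positions during the motion are convex combinations. -/
theorem pos1 {c : Comb m n} {T : ℝ} {Q Q' V' : St n} (h : c.Lin T Q Q' V') (s : ℝ) (i : Fin n) :
    (Q + s • V').1 i = (1 - s / T) * Q.1 i + s / T * Q'.1 i := by
  have hT := h.pos.ne'
  rw [h.move]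
  simp only [Prod.fst_add, Prod.smul_fst, Pi.add_apply, Pi.smul_apply, smul_eq_mul]
  field_simp
  ring

theorem len {c : Comb m n} {T : ℝ} {Q Q' V' : St n} (h : c.Lin T Q Q' V') {s : ℝ}
    (hs : s ∈ Icc (0 : ℝ) T) (e : Fin m) :
    (Q + s • V').1 (c.lf e) < (Q + s • V').1 (c.rt e) := by
  rw [pos1 h, pos1 h]
  have h0 : 0 ≤ s / T := div_nonneg hs.1 h.pos.le
  have h1 : s / T ≤ 1 := (div_le_one h.pos).2 hs.2
  have a := h.len e
  have b := h.len' e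
  rcases eq_or_lt_of_le h0 with h2 | h2
  · rw [← h2]; linarith
  · nlinarith [mul_pos h2 (sub_pos.2 b), mul_nonneg (sub_nonneg.2 h1) (sub_pos.2 a).le]

/-- Strict inequalities at both ends give the strict inequality between. -/
theorem mix {l a b a' b' : ℝ} (h0 : 0 ≤ l) (h1 : l ≤ 1) (h : a < b) (h' : a' < b') :
    (1 - l) * a + l * a' < (1 - l) * b + l * b' := by
  rcases eq_or_lt_of_le h0 with h2 | h2
  · rw [← h2]; linarith
  · nlinarith [mul_pos h2 (sub_pos.2 h'), mul_nonneg (sub_nonneg.2 h1) (sub_pos.2 h).le]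

theorem mixle {l a b a' b' : ℝ} (h0 : 0 ≤ l) (h1 : l ≤ 1) (h : a ≤ b) (h' : a' ≤ b') :
    (1 - l) * a + l * a' ≤ (1 - l) * b + l * b' := by
  nlinarith [mul_nonneg h0 (sub_nonneg.2 h'), mul_nonneg (sub_nonneg.2 h1) (sub_nonneg.2 h)]

theorem slope (hLNP : Stmt_LNP) {c : Comb m n} {T : ℝ} {Q Q' V' : St n} (h : c.Lin T Q Q' V')
    {s : ℝ} (hs : s ∈ Icc (0 : ℝ) T) (e : Fin m) :
    c.pe (Q + s • V') e = (1 - s / T) * c.pe Q e + s / T * c.pe Q' e := by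
  have hT := h.pos.ne'
  have a := (hLNP c T Q Q' V' h e s (len h hs e)).1
  have b := (hLNP c T Q Q' V' h e 0 (len h ⟨le_rfl, h.pos.le⟩ e)).1
  rw [zero_smul, add_zero] at b
  rw [a, b]
  field_simp
  ring

theorem dpe0 (hLNP : Stmt_LNP) {c : Comb m n} {T : ℝ} {Q Q' V' : St n} (h : c.Lin T Q Q' V')
    {s : ℝ} (hs : s ∈ Icc (0 : ℝ) T) (e : Fin m) :
    c.dpe (Q + s • V') V' e = c.dpe Q' V' e := (hLNP c T Q Q' V' h e s (len h hs e)).2.1

theorem dae0 (hLNP : Stmt_LNP) {c : Comb m n} {T : ℝ} {Q Q' V' : St n} (h : c.Lin T Q Q' V')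
    {s : ℝ} (hs : s ∈ Icc (0 : ℝ) T) (e : Fin m) :
    c.dae (Q + s • V') V' e = c.dae Q' V' e := (hLNP c T Q Q' V' h e s (len h hs e)).2.2

theorem plo_ge (hLNP : Stmt_LNP) {c : Comb m n} {T : ℝ} {Q Q' V' : St n} (h : c.Lin T Q Q' V')
    {s : ℝ} (hs : s ∈ Icc (0 : ℝ) T) (i : Fin n) :
    (1 - s / T) * c.plo Q i + s / T * c.plo Q' i ≤ c.plo (Q + s • V') i := by
  have h0 : 0 ≤ s / T := div_nonneg hs.1 h.pos.le
  have h1 : s / T ≤ 1 := (div_le_one h.pos).2 hs.2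
  unfold Comb.plo
  rw [slope hLNP h hs, slope hLNP h hs]
  refine le_min ?_ ?_
  · exact mixle h0 h1 (min_le_left _ _) (min_le_left _ _)
  · exact mixle h0 h1 (min_le_right _ _) (min_le_right _ _)

theorem phi_le (hLNP : Stmt_LNP) {c : Comb m n} {T : ℝ} {Q Q' V' : St n} (h : c.Lin T Q Q' V')
    {s : ℝ} (hs : s ∈ Icc (0 : ℝ) T) (i : Fin n) :
    c.phi (Q + s • V') i ≤ (1 - s / T) * c.phi Q i + s / T * c.phi Q' i := by
  have h0 : 0 ≤ s / T := div_nonneg hs.1 h.pos.le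
  have h1 : s / T ≤ 1 := (div_le_one h.pos).2 hs.2
  unfold Comb.phi
  rw [slope hLNP h hs, slope hLNP h hs]
  refine max_le ?_ ?_
  · exact mixle h0 h1 (le_max_left _ _) (le_max_left _ _)
  · exact mixle h0 h1 (le_max_right _ _) (le_max_right _ _)

theorem dl_le (hLNP : Stmt_LNP) {c : Comb m n} {T : ℝ} {Q Q' V' : St n} (h : c.Lin T Q Q' V')
    {s : ℝ} (hs : s ∈ Icc (0 : ℝ) T) (i : Fin n) :
    |c.dl (Q + s • V') i| ≤ max |c.dl Q i| |c.dl Q' i| := by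
  have h0 : 0 ≤ s / T := div_nonneg hs.1 h.pos.le
  have h1 : s / T ≤ 1 := (div_le_one h.pos).2 hs.2
  have e1 : c.dl (Q + s • V') i = (1 - s / T) * c.dl Q i + s / T * c.dl Q' i := by
    unfold Comb.dl
    rw [slope hLNP h hs, slope hLNP h hs]
    ring
  rw [e1]
  calc |(1 - s / T) * c.dl Q i + s / T * c.dl Q' i|
      ≤ |(1 - s / T) * c.dl Q i| + |s / T * c.dl Q' i| := abs_add_le _ _
    _ = (1 - s / T) * |c.dl Q i| + s / T * |c.dl Q' i| := by
        rw [abs_mul, abs_mul, abs_of_nonneg (sub_nonneg.2 h1), abs_of_nonneg h0]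
    _ ≤ (1 - s / T) * max |c.dl Q i| |c.dl Q' i| + s / T * max |c.dl Q i| |c.dl Q' i| :=
        mixle h0 h1 (le_max_left _ _) (le_max_right _ _)
    _ = max |c.dl Q i| |c.dl Q' i| := by ring

theorem err_le (hLNP : Stmt_LNP) {c : Comb m n} {w : Fin n → ℝ} (hw : ∀ i, 0 < w i) {T : ℝ}
    {Q Q' V' : St n} (h : c.Lin T Q Q' V') {s : ℝ} (hs : s ∈ Icc (0 : ℝ) T) (i : Fin n) :
    c.err w (Q + s • V') V' i ≤ c.erS w Q Q' V' i := by
  unfold Comb.err Comb.erS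
  rw [dpe0 hLNP h hs, dpe0 hLNP h hs]
  refine mul_le_mul_of_nonneg_left ?_ (hw i).le
  have hC : (0 : ℝ) ≤ CY := by unfold CY; norm_num
  have := mul_le_mul_of_nonneg_left (dl_le hLNP h hs i) hC
  linarith

theorem dpe_lin (c : Comb m n) (Q V V' : St n) (l : ℝ) (e : Fin m) :
    c.dpe Q ((1 - l) • V + l • V') e = (1 - l) * c.dpe Q V e + l * c.dpe Q V' e := by
  unfold Comb.dpe
  simp only [Prod.fst_add, Prod.snd_add, Prod.smul_fst, Prod.smul_snd, Pi.add_apply,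
    Pi.smul_apply, smul_eq_mul]
  ring

theorem dae_lin (c : Comb m n) (Q V V' : St n) (l : ℝ) (e : Fin m) :
    c.dae Q ((1 - l) • V + l • V') e = (1 - l) * c.dae Q V e + l * c.dae Q V' e := by
  unfold Comb.dae
  rw [dpe_lin]
  simp only [Prod.fst_add, Prod.snd_add, Prod.smul_fst, Prod.smul_snd, Pi.add_apply,
    Pi.smul_apply, smul_eq_mul]
  ring

theorem Dve_lin (c : Comb m n) (Q V V' : St n) (l : ℝ) (i : Fin n) (e : Fin m) :
    c.Dve Q ((1 - l) • V + l • V') i e = (1 - l) * c.Dve Q V i e + l * c.Dve Q V' i e := by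
  unfold Comb.Dve
  rw [dpe_lin, dae_lin]
  simp only [Prod.fst_add, Prod.snd_add, Prod.smul_fst, Prod.smul_snd, Pi.add_apply,
    Pi.smul_apply, smul_eq_mul]
  ring

theorem abs_mix {l : ℝ} (h0 : 0 ≤ l) (h1 : l ≤ 1) (a b : ℝ) :
    |(1 - l) * a + l * b| ≤ (1 - l) * |a| + l * |b| := by
  calc |(1 - l) * a + l * b| ≤ |(1 - l) * a| + |l * b| := abs_add_le _ _
    _ = (1 - l) * |a| + l * |b| := by
        rw [abs_mul, abs_mul, abs_of_nonneg (sub_nonneg.2 h1), abs_of_nonneg h0]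

theorem err_mix {c : Comb m n} {w : Fin n → ℝ} (hw : ∀ i, 0 < w i) (Q V V' : St n) {l : ℝ}
    (h0 : 0 ≤ l) (h1 : l ≤ 1) (i : Fin n) :
    c.err w Q ((1 - l) • V + l • V') i ≤ (1 - l) * c.err w Q V i + l * c.err w Q V' i := by
  unfold Comb.err
  rw [dpe_lin, dpe_lin]
  have a := abs_mix h0 h1 (c.dpe Q V (c.ea i)) (c.dpe Q V' (c.ea i))
  have b := abs_mix h0 h1 (c.dpe Q V (c.eb i) - c.dpe Q V (c.ea i))
    (c.dpe Q V' (c.eb i) - c.dpe Q V' (c.ea i))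
  have e1 : (1 - l) * c.dpe Q V (c.eb i) + l * c.dpe Q V' (c.eb i) -
      ((1 - l) * c.dpe Q V (c.ea i) + l * c.dpe Q V' (c.ea i)) =
      (1 - l) * (c.dpe Q V (c.eb i) - c.dpe Q V (c.ea i)) +
        l * (c.dpe Q V' (c.eb i) - c.dpe Q V' (c.ea i)) := by ring
  rw [e1]
  have key := mul_le_mul_of_nonneg_left (add_le_add a b) (hw i).le
  nlinarith [key]

end SVE

open SVE

theorem t_SVE (hLNP : Stmt_LNP) : Stmt_SVE := by
  intro m n c w T Q V Q' V' i e hw _ hL h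
  -- the last case during the motion
  have mot : ∀ σ : ℝ, c.erS w Q Q' V' i + 2 * w i * |c.dpe Q' V' e| <
      σ * ((V'.2 i - c.pe Q e * V'.1 i) - (c.dpe Q' V' e * Q.1 i + c.dae Q' V' e)) →
      c.erS w Q Q' V' i + 2 * w i * |c.dpe Q' V' e| <
      σ * ((V'.2 i - c.pe Q' e * V'.1 i) - (c.dpe Q' V' e * Q'.1 i + c.dae Q' V' e)) →
      ∀ s ∈ Icc (0 : ℝ) T, c.Zve w (Q + s • V') V' i e σ := by
    intro σ h1 h2 s hs
    have h0 : 0 ≤ s / T := div_nonneg hs.1 hL.pos.le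
    have h1' : s / T ≤ 1 := (div_le_one hL.pos).2 hs.2
    unfold Comb.Zve Comb.Dve
    rw [dpe0 hLNP hL hs, dae0 hLNP hL hs, slope hLNP hL hs, pos1 hL]
    have k := mix h0 h1' h1 h2
    have k' := err_le hLNP hw hL hs i
    nlinarith [k, k']
  rcases h with h | h | h | h | ⟨σ, hσ, h1, h2, h3⟩
  · refine ⟨fun s hs => Or.inl (Or.inl ?_), fun l _ => Or.inl (Or.inl h.1)⟩
    have h0 : 0 ≤ s / T := div_nonneg hs.1 hL.pos.le
    have h1 : s / T ≤ 1 := (div_le_one hL.pos).2 hs.2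
    rw [pos1 hL, pos1 hL]
    have := mix h0 h1 h.1 h.2
    linarith
  · refine ⟨fun s hs => Or.inl (Or.inr (Or.inl ?_)), fun l _ => Or.inl (Or.inr (Or.inl h.1))⟩
    have h0 : 0 ≤ s / T := div_nonneg hs.1 hL.pos.le
    have h1 : s / T ≤ 1 := (div_le_one hL.pos).2 hs.2
    rw [pos1 hL, pos1 hL]
    have := mix h0 h1 h.1 h.2
    linarith
  · refine ⟨fun s hs => Or.inl (Or.inr (Or.inr (Or.inl ?_))),
      fun l _ => Or.inl (Or.inr (Or.inr (Or.inl h.1)))⟩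
    have h0 : 0 ≤ s / T := div_nonneg hs.1 hL.pos.le
    have h1 : s / T ≤ 1 := (div_le_one hL.pos).2 hs.2
    rw [slope hLNP hL hs]
    exact lt_of_lt_of_le (mix h0 h1 h.1 h.2) (plo_ge hLNP hL hs i)
  · refine ⟨fun s hs => Or.inl (Or.inr (Or.inr (Or.inr ?_))),
      fun l _ => Or.inl (Or.inr (Or.inr (Or.inr h.1)))⟩
    have h0 : 0 ≤ s / T := div_nonneg hs.1 hL.pos.le
    have h1 : s / T ≤ 1 := (div_le_one hL.pos).2 hs.2
    rw [slope hLNP hL hs]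
    exact lt_of_le_of_lt (phi_le hLNP hL hs i) (mix h0 h1 h.1 h.2)
  · refine ⟨fun s hs => Or.inr ⟨σ, hσ, mot σ h1 h2 s hs⟩, fun l hl => ?_⟩
    rcases h3 with h3 | h3
    · exact Or.inl h3
    · refine Or.inr ⟨σ, hσ, ?_⟩
      have h4 := mot σ h1 h2 0 ⟨le_rfl, hL.pos.le⟩
      rw [zero_smul, add_zero] at h4
      unfold Comb.Zve at h3 h4 ⊢
      rw [Dve_lin, dpe_lin]
      have k := mix hl.1 hl.2 h3 h4
      have a := err_mix (c := c) hw Q V V' hl.1 hl.2 i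
      have b := abs_mix hl.1 hl.2 (c.dpe Q V e) (c.dpe Q V' e)
      have b' := mul_le_mul_of_nonneg_left b (mul_nonneg zero_le_two (hw i).le)
      nlinarith [k, a, b']

end LCA
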