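import Pool.Agent.LCA.Stmts5
import Pool.Agent.LCA.SVE

/-!
# Part A, BXL: the box around a critical point during a linear motion
-/

namespace LCA

open Set Filter
open scoped ContDiff Topology

namespace BXL

variable {m n : ℕ}

/-- An affine function which is larger than `K` at both ends of an interval is larger than `K`
on the interval. -/
theorem aff {σ A B z K l r p : ℝ} (h1 : l ≤ p) (h2 : p ≤ r) (hl : K < σ * (A - l * B - z))
    (hr : K < σ * (A - r * B - z)) : K < σ * (A - p * B - z) := by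
  have e : ∀ x, σ * (A - x * B - z) = σ * (A - z) - x * (σ * B) := by
    intro x
    ring
  rw [e] at hl hr ⊢
  rcases le_total 0 (σ * B) with hB | hB
  · have : p * (σ * B) ≤ r * (σ * B) := mul_le_mul_of_nonneg_right h2 hB
    linarith
  · have : p * (σ * B) ≤ l * (σ * B) := mul_le_mul_of_nonpos_right h1 hB
    linarith

theorem plo_le_phi (c : Comb m n) (q : St n) (i : Fin n) : c.plo q i ≤ c.phi q i :=
  (min_le_left _ _).trans (le_max_left _ _)

theorem min_le_mix {l a b : ℝ} (h0 : 0 ≤ l) (h1 : l ≤ 1) : min a b ≤ (1 - l) * a + l * b := by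
  have h2 : 0 ≤ 1 - l := sub_nonneg.2 h1
  have a1 := mul_le_mul_of_nonneg_left (min_le_left a b) h2
  have a2 := mul_le_mul_of_nonneg_left (min_le_right a b) h0
  linarith

theorem mix_le_max {l a b : ℝ} (h0 : 0 ≤ l) (h1 : l ≤ 1) : (1 - l) * a + l * b ≤ max a b := by
  have h2 : 0 ≤ 1 - l := sub_nonneg.2 h1
  have a1 := mul_le_mul_of_nonneg_left (le_max_left a b) h2
  have a2 := mul_le_mul_of_nonneg_left (le_max_right a b) h0
  linarith

/-- A convex combination stays below a bound. -/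
theorem mixR {l a a' b : ℝ} (h0 : 0 ≤ l) (h1 : l ≤ 1) (h : a < b) (h' : a' < b) :
    (1 - l) * a + l * a' < b := by
  have := SVE.mix h0 h1 h h'
  linarith

/-- A convex combination stays above a bound. -/
theorem mixL {l a a' b : ℝ} (h0 : 0 ≤ l) (h1 : l ≤ 1) (h : b < a) (h' : b < a') :
    b < (1 - l) * a + l * a' := by
  have := SVE.mix h0 h1 h h'
  linarith

end BXL

/-- BXL: the box during a linear motion. -/
theorem t_BXL (hLNP : Stmt_LNP) : Stmt_BXL := by
  intro m n c w T E ρ Q Q' V' hw _ hL hE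
  constructor
  · intro e he s hs
    have h0 : 0 ≤ s / T := div_nonneg hs.1 hL.pos.le
    have h1 : s / T ≤ 1 := (div_le_one hL.pos).2 hs.2
    unfold Comb.BoxE
    rcases he with h | h | h | h | h
    · refine Or.inl ?_
      rw [SVE.pos1 hL]
      have := BXL.mixR h0 h1 h.1 h.2
      linarith
    · refine Or.inr (Or.inl ?_)
      rw [SVE.pos1 hL]
      have := BXL.mixL h0 h1 h.1 h.2
      linarith
    · refine Or.inr (Or.inr (Or.inl ?_))
      rw [SVE.slope hLNP hL hs]
      exact BXL.mixR h0 h1 h.1 h.2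
    · refine Or.inr (Or.inr (Or.inr (Or.inl ?_)))
      rw [SVE.slope hLNP hL hs]
      exact BXL.mixL h0 h1 h.1 h.2
    · refine Or.inr (Or.inr (Or.inr (Or.inr ?_)))
      rw [SVE.dpe0 hLNP hL hs, SVE.dae0 hLNP hL hs]
      exact h
  · intro i hi s hs
    have h0 : 0 ≤ s / T := div_nonneg hs.1 hL.pos.le
    have h1 : s / T ≤ 1 := (div_le_one hL.pos).2 hs.2
    have plo := SVE.plo_ge hLNP hL hs i
    have phi := SVE.phi_le hLNP hL hs i
    unfold Comb.BoxV
    rcases hi with h | h | h | h | ⟨σ, hσ, ha, hb⟩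
    · refine Or.inl ?_
      rw [SVE.pos1 hL]
      have := BXL.mixR h0 h1 h.1 h.2
      linarith
    · refine Or.inr (Or.inl ?_)
      rw [SVE.pos1 hL]
      have := BXL.mixL h0 h1 h.1 h.2
      linarith
    · exact Or.inr (Or.inr (Or.inl (phi.trans_lt (BXL.mixR h0 h1 h.1 h.2))))
    · exact Or.inr (Or.inr (Or.inr (Or.inl ((BXL.mixL h0 h1 h.1 h.2).trans_le plo))))
    · rcases lt_or_ge (c.phi (Q + s • V') i) (min E.P₁ E.P₂ - E.g / 2) with h2 | h2
      · exact Or.inr (Or.inr (Or.inl h2))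
      rcases lt_or_ge (max E.P₁ E.P₂ + E.g / 2) (c.plo (Q + s • V') i) with h3 | h3
      · exact Or.inr (Or.inr (Or.inr (Or.inl h3)))
      have hPP : min E.P₁ E.P₂ - E.g / 2 ≤ max E.P₁ E.P₂ + E.g / 2 := by
        have k1 : min E.P₁ E.P₂ ≤ max E.P₁ E.P₂ := (min_le_left _ _).trans (le_max_left _ _)
        have k2 := hE.g
        linarith
      have hm : max (c.plo (Q + s • V') i) (min E.P₁ E.P₂ - E.g / 2) ≤
          min (c.phi (Q + s • V') i) (max E.P₁ E.P₂ + E.g / 2) :=
        max_le (le_min (BXL.plo_le_phi c _ i) h3) (le_min h2 hPP)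
      have l1 : max (min (c.plo Q i) (c.plo Q' i)) (min E.P₁ E.P₂ - E.g / 2) ≤
          max (c.plo (Q + s • V') i) (min E.P₁ E.P₂ - E.g / 2) :=
        max_le_max ((BXL.min_le_mix h0 h1).trans plo) le_rfl
      have l2 : min (c.phi (Q + s • V') i) (max E.P₁ E.P₂ + E.g / 2) ≤
          min (max (c.phi Q i) (c.phi Q' i)) (max E.P₁ E.P₂ + E.g / 2) :=
        min_le_min (phi.trans (BXL.mix_le_max h0 h1)) le_rfl
      have ke := SVE.err_le hLNP hw hL hs i
      refine Or.inr (Or.inr (Or.inr (Or.inr ⟨σ, hσ, ?_, ?_⟩)))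
      · have := BXL.aff l1 (hm.trans l2) ha hb
        linarith
      · have := BXL.aff (l1.trans hm) l2 ha hb
        linarith

end LCA
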