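import Pool.Agent.LCA.Stmts5

/-!
# CB2: the basic functions of the second part of the checker
-/

set_option autoImplicit false

namespace LCA

open Set Filter
open scoped ContDiff Topology

namespace CB2

theorem nlt_iff (i j : ℕ) : nlt i j = true ↔ i < j := by
  unfold nlt
  rw [Nat.ble_eq]
  exact Nat.succ_le_iff

theorem beq_iff (i j : ℕ) : Nat.beq i j = true ↔ i = j := by
  rw [Nat.beq_eq]

theorem nne_iff (i j : ℕ) : nne i j = true ↔ i ≠ j := by
  unfold nne
  have h := beq_iff i j
  cases hb : Nat.beq i j with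
  | false =>
    rw [hb] at h
    simp only [true_iff]
    intro e
    exact Bool.false_ne_true (h.2 e)
  | true =>
    rw [hb] at h
    simp only [Bool.false_eq_true, false_iff, not_not]
    exact h.1 rfl

end CB2

open CB2

theorem t_CB2 (hCBL : Stmt_CBL) : Stmt_CB2 := by
  obtain ⟨hand, hor, -, -, -, -, -, -, hallI, -⟩ := hCBL
  refine ⟨nlt_iff, nne_iff, ?_, ?_, ?_⟩
  · intro b i j
    cases b <;> rfl
  · intro b
    cases b <;> simp [bnt]
  · intro a b ι κ e h
    unfold embB at h
    simp only [hand, beq_iff, nlt_iff] at h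
    obtain ⟨hι, hκ, he, h1, h2⟩ := h
    rw [hallI ℕ 0] at h1 h2
    have g1 : ∀ d < a + 1, lkp 0 ι d < b + 1 ∧ lkp 0 ι d ≠ e ∧ lkp 0 κ (lkp 0 ι d) = d := by
      intro d hd
      have := h1 d (by rw [hι]; exact hd)
      simp only [hand, beq_iff, nlt_iff, nne_iff] at this
      exact this
    have g2 : ∀ d < b + 1, d = e ∨ (lkp 0 κ d < a + 1 ∧ lkp 0 ι (lkp 0 κ d) = d) := by
      intro d hd
      have := h2 d (by rw [hκ]; exact hd)
      simp only [hand, hor, beq_iff, nlt_iff] at this
      exact this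
    have hv : ∀ d : Fin (a + 1), ((ixf a b ι d : Fin (b + 1)) : ℕ) = lkp 0 ι d := by
      intro d
      unfold ixf
      rw [Fin.val_ofNat]
      exact Nat.mod_eq_of_lt (g1 d d.2).1
    have hve : ((Fin.ofNat (b + 1) e : Fin (b + 1)) : ℕ) = e := by
      rw [Fin.val_ofNat]
      exact Nat.mod_eq_of_lt he
    refine ⟨he, ?_, ?_, ?_, hv⟩
    · intro d d' hdd
      have h3 : lkp 0 ι d = lkp 0 ι d' := by
        rw [← hv d, ← hv d', hdd]
      apply Fin.ext
      rw [← (g1 d d.2).2.2, ← (g1 d' d'.2).2.2, h3]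
    · intro d hd
      apply (g1 d d.2).2.1
      rw [← hv d, hd, hve]
    · intro d'
      rcases g2 d' d'.2 with h3 | ⟨h3, h4⟩
      · left
        apply Fin.ext
        rw [hve, h3]
      · right
        refine ⟨⟨lkp 0 κ d', h3⟩, ?_⟩
        apply Fin.ext
        rw [hv]
        exact h4

end LCA
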