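import Pool.Agent.LCA.Stmts4

/-!
# CBL: the basic functions of the checker
-/

namespace LCA

open Set Filter
open scoped ContDiff Topology

namespace CBL

theorem bnd_iff (a b : Bool) : bnd a b = true ↔ a = true ∧ b = true := by
  cases a <;> cases b <;> simp [bnd]

theorem bor_iff (a b : Bool) : bor a b = true ↔ a = true ∨ b = true := by
  cases a <;> cases b <;> simp [bor]

theorem ilt_iff (a b : ℤ) : ilt a b = true ↔ a < b := by
  cases a with
  | ofNat i =>
    cases b with
    | ofNat j =>
      change Nat.ble (Nat.succ i) j = true ↔ _
      rw [Nat.ble_eq]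
      simp only [Int.ofNat_eq_natCast]
      omega
    | negSucc j =>
      change false = true ↔ _
      simp only [Bool.false_eq_true, false_iff, Int.ofNat_eq_natCast]
      omega
  | negSucc i =>
    cases b with
    | ofNat j =>
      change true = true ↔ _
      simp only [Int.ofNat_eq_natCast, true_iff]
      omega
    | negSucc j =>
      change Nat.ble (Nat.succ j) i = true ↔ _
      rw [Nat.ble_eq]
      omega

theorem ieq_iff (a b : ℤ) : ieq a b = true ↔ a = b := by
  cases a with
  | ofNat i =>
    cases b with
    | ofNat j =>
      change Nat.beq i j = true ↔ _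
      rw [Nat.beq_eq]
      simp only [Int.ofNat_eq_natCast]
      omega
    | negSucc j =>
      change false = true ↔ _
      simp only [Bool.false_eq_true, false_iff, Int.ofNat_eq_natCast]
      omega
  | negSucc i =>
    cases b with
    | ofNat j =>
      change false = true ↔ _
      simp only [Bool.false_eq_true, false_iff, Int.ofNat_eq_natCast]
      omega
    | negSucc j =>
      change Nat.beq i j = true ↔ _
      rw [Nat.beq_eq]
      omega

theorem imax_eq (a b : ℤ) : imax a b = max a b := by
  unfold imax
  cases h : ilt a b with
  | false =>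
    change a = _
    have h1 : ¬ a < b := fun hc => by
      rw [← ilt_iff, h] at hc
      exact Bool.false_ne_true hc
    exact (max_eq_left (not_lt.mp h1)).symm
  | true =>
    change b = _
    exact (max_eq_right ((ilt_iff a b).mp h).le).symm

theorem imin_eq (a b : ℤ) : imin a b = min a b := by
  unfold imin
  cases h : ilt a b with
  | false =>
    change b = _
    have h1 : ¬ a < b := fun hc => by
      rw [← ilt_iff, h] at hc
      exact Bool.false_ne_true hc
    exact (min_eq_right (not_lt.mp h1)).symm
  | true =>
    change a = _
    exact (min_eq_left ((ilt_iff a b).mp h).le).symm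

theorem iabs_eq (a : ℤ) : iabs a = |a| := by
  cases a with
  | ofNat i =>
    change Int.ofNat i = _
    exact (abs_of_nonneg (Int.natCast_nonneg i)).symm
  | negSucc i =>
    change Int.ofNat (Nat.succ i) = _
    rw [abs_of_neg (Int.negSucc_lt_zero i), Int.neg_negSucc]
    rfl

theorem lkp_zero {α : Type} (d a : α) (t : List α) : lkp d (a :: t) 0 = a := rfl

theorem lkp_succ {α : Type} (d a : α) (t : List α) (i : ℕ) :
    lkp d (a :: t) (i + 1) = lkp d t i := rfl

theorem len_cons {α : Type} (a : α) (t : List α) : len (a :: t) = len t + 1 := rfl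

theorem allL_iff {α : Type} (d : α) (p : α → Bool) (l : List α) :
    allL p l = true ↔ ∀ i < len l, p (lkp d l i) = true := by
  induction l with
  | nil =>
    constructor
    · intro _ i hi
      exact absurd hi (Nat.not_lt_zero i)
    · intro _
      rfl
  | cons a t ih =>
    change bnd (p a) (allL p t) = true ↔ _
    rw [bnd_iff, ih]
    constructor
    · rintro ⟨h1, h2⟩ i hi
      cases i with
      | zero => exact h1
      | succ i => exact h2 i (Nat.lt_of_succ_lt_succ hi)
    · intro h
      exact ⟨h 0 (Nat.succ_pos _), fun i hi => h (i + 1) (Nat.succ_lt_succ hi)⟩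

theorem allI_iff {α : Type} (d : α) (p : ℕ → α → Bool) (l : List α) : ∀ k : ℕ,
    allI p l k = true ↔ ∀ i < len l, p (k + i) (lkp d l i) = true := by
  induction l with
  | nil =>
    intro k
    constructor
    · intro _ i hi
      exact absurd hi (Nat.not_lt_zero i)
    · intro _
      rfl
  | cons a t ih =>
    intro k
    change bnd (p k a) (allI p t (k + 1)) = true ↔ _
    rw [bnd_iff, ih]
    constructor
    · rintro ⟨h1, h2⟩ i hi
      cases i with
      | zero => exact h1
      | succ i =>
        have h3 := h2 i (Nat.lt_of_succ_lt_succ hi)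
        rw [show k + 1 + i = k + (i + 1) by omega] at h3
        exact h3
    · intro h
      refine ⟨h 0 (Nat.succ_pos _), fun i hi => ?_⟩
      rw [show k + 1 + i = k + (i + 1) by omega]
      exact h (i + 1) (Nat.succ_lt_succ hi)

theorem all2_iff {α β : Type} (d : α) (d' : β) (p : α → β → Bool) (l : List α) :
    ∀ l' : List β, all2 p l l' = true ↔
      ∀ i < len l, i < len l' → p (lkp d l i) (lkp d' l' i) = true := by
  induction l with
  | nil =>
    intro l'
    constructor
    · intro _ i hi
      exact absurd hi (Nat.not_lt_zero i)
    · intro _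
      rfl
  | cons a t ih =>
    intro l'
    cases l' with
    | nil =>
      constructor
      · intro _ i _ hi
        exact absurd hi (Nat.not_lt_zero i)
      · intro _
        rfl
    | cons b t' =>
      change bnd (p a b) (all2 p t t') = true ↔ _
      rw [bnd_iff, ih]
      constructor
      · rintro ⟨h1, h2⟩ i hi hi'
        cases i with
        | zero => exact h1
        | succ i => exact h2 i (Nat.lt_of_succ_lt_succ hi) (Nat.lt_of_succ_lt_succ hi')
      · intro h
        exact ⟨h 0 (Nat.succ_pos _) (Nat.succ_pos _),
          fun i hi hi' => h (i + 1) (Nat.succ_lt_succ hi) (Nat.succ_lt_succ hi')⟩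

theorem all2I_iff {α β : Type} (d : α) (d' : β) (p : ℕ → α → β → Bool) (l : List α) :
    ∀ (l' : List β) (k : ℕ), all2I p l l' k = true ↔
      ∀ i < len l, i < len l' → p (k + i) (lkp d l i) (lkp d' l' i) = true := by
  induction l with
  | nil =>
    intro l' k
    constructor
    · intro _ i hi
      exact absurd hi (Nat.not_lt_zero i)
    · intro _
      rfl
  | cons a t ih =>
    intro l' k
    cases l' with
    | nil =>
      constructor
      · intro _ i _ hi
        exact absurd hi (Nat.not_lt_zero i)
      · intro _
        rfl
    | cons b t' =>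
      change bnd (p k a b) (all2I p t t' (k + 1)) = true ↔ _
      rw [bnd_iff, ih]
      constructor
      · rintro ⟨h1, h2⟩ i hi hi'
        cases i with
        | zero => exact h1
        | succ i =>
          have h3 := h2 i (Nat.lt_of_succ_lt_succ hi) (Nat.lt_of_succ_lt_succ hi')
          rw [show k + 1 + i = k + (i + 1) by omega] at h3
          exact h3
      · intro h
        refine ⟨h 0 (Nat.succ_pos _) (Nat.succ_pos _), fun i hi hi' => ?_⟩
        rw [show k + 1 + i = k + (i + 1) by omega]
        exact h (i + 1) (Nat.succ_lt_succ hi) (Nat.succ_lt_succ hi')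

theorem prs2_iff {α β : Type} (d : α) (d' : β) (p : α → β → α → β → Bool) (l : List α) :
    ∀ l' : List β, prs2 p l l' = true ↔ ∀ i j, i < j → j < len l → j < len l' →
      p (lkp d l i) (lkp d' l' i) (lkp d l j) (lkp d' l' j) = true := by
  induction l with
  | nil =>
    intro l'
    constructor
    · intro _ i j _ hj
      exact absurd hj (Nat.not_lt_zero j)
    · intro _
      rfl
  | cons a t ih =>
    intro l'
    cases l' with
    | nil =>
      constructor
      · intro _ i j _ _ hj
        exact absurd hj (Nat.not_lt_zero j)
      · intro _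
        rfl
    | cons b t' =>
      change bnd (all2 (p a b) t t') (prs2 p t t') = true ↔ _
      rw [bnd_iff, ih, all2_iff d d']
      constructor
      · rintro ⟨h1, h2⟩ i j hij hj hj'
        cases j with
        | zero => exact absurd hij (Nat.not_lt_zero i)
        | succ j =>
          cases i with
          | zero => exact h1 j (Nat.lt_of_succ_lt_succ hj) (Nat.lt_of_succ_lt_succ hj')
          | succ i =>
            exact h2 i j (Nat.lt_of_succ_lt_succ hij) (Nat.lt_of_succ_lt_succ hj)
              (Nat.lt_of_succ_lt_succ hj')
      · intro h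
        exact ⟨fun i hi hi' => h 0 (i + 1) (Nat.succ_pos _) (Nat.succ_lt_succ hi)
            (Nat.succ_lt_succ hi'),
          fun i j hij hj hj' => h (i + 1) (j + 1) (Nat.succ_lt_succ hij) (Nat.succ_lt_succ hj)
            (Nat.succ_lt_succ hj')⟩

end CBL

theorem t_CBL : Stmt_CBL := by
  refine ⟨CBL.bnd_iff, CBL.bor_iff, CBL.ilt_iff, CBL.ieq_iff, CBL.imax_eq, CBL.imin_eq,
    CBL.iabs_eq, fun α d p l => CBL.allL_iff d p l, fun α d p l => ?_,
    fun α β d d' p l l' => CBL.all2_iff d d' p l l', fun α β d d' p l l' => ?_,
    fun α β d d' p l l' => CBL.prs2_iff d d' p l l'⟩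
  · rw [CBL.allI_iff d p l 0]
    simp only [Nat.zero_add]
  · rw [CBL.all2I_iff d d' p l l' 0]
    simp only [Nat.zero_add]

end LCA
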