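import Pool.Agent.LCA.Stmts1

/-!
# CEE: separation of two edges
-/

namespace LCA

open Set Filter
open scoped ContDiff Topology

namespace CEE

/-- An affine function which is positive at the two ends of an interval does not vanish in it. -/
theorem affine_ne {A B M m x : ℝ} (h1 : M ≤ x) (h2 : x ≤ m) (hM : 0 < A * M + B)
    (hm : 0 < A * m + B) (hx : A * x + B = 0) : False := by
  have e : (x - M) * (A * m + B) + (m - x) * (A * M + B) = (m - M) * (A * x + B) := by ring
  rw [hx, mul_zero] at e
  have a1 : 0 ≤ (x - M) * (A * m + B) := mul_nonneg (by linarith) hm.le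
  have a2 : 0 ≤ (m - x) * (A * M + B) := mul_nonneg (by linarith) hM.le
  have a3 : (x - M) * (A * m + B) = 0 := by linarith
  rcases mul_eq_zero.1 a3 with h | h
  · have : x = M := by linarith
    rw [this] at hx
    linarith
  · linarith

end CEE

theorem t_CEE : Stmt_CEE := by
  intro m n c w q v hw hc e e' hne x hx x' hx' hM
  obtain ⟨hx1, hp, hz⟩ := hM
  have hxx : x = x' := hx1
  subst hxx
  have hp' : c.pe q e = c.pe q e' := hp
  have hz' : c.dpe q v e * x + c.dae q v e = c.dpe q v e' * x + c.dae q v e' := hz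
  have r1 : q.1 (c.lf e) + 2 * w (c.lf e) ≤ x := hx.1
  have r2 : x ≤ q.1 (c.rt e) - 2 * w (c.rt e) := hx.2
  have r3 : q.1 (c.lf e') + 2 * w (c.lf e') ≤ x := hx'.1
  have r4 : x ≤ q.1 (c.rt e') - 2 * w (c.rt e') := hx'.2
  have w1 := hw (c.lf e)
  have w2 := hw (c.rt e)
  have w3 := hw (c.lf e')
  have w4 := hw (c.rt e')
  rcases hc.ee e e' hne with h | ⟨σ, hσ, h1, h2⟩
  · rcases h with h | h | h
    · linarith
    · linarith
    · exact h hp'
  · have l1 : max (q.1 (c.lf e)) (q.1 (c.lf e')) ≤ x := max_le (by linarith) (by linarith)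
    have l2 : x ≤ min (q.1 (c.rt e)) (q.1 (c.rt e')) := le_min (by linarith) (by linarith)
    unfold Comb.Dee at h1 h2
    refine CEE.affine_ne (A := σ * (c.dpe q v e - c.dpe q v e'))
      (B := σ * (c.dae q v e - c.dae q v e')) l1 l2 ?_ ?_ ?_
    · calc (0 : ℝ) < _ := h1
        _ = _ := by ring
    · calc (0 : ℝ) < _ := h2
        _ = _ := by ring
    · have : σ * (c.dpe q v e - c.dpe q v e') * x + σ * (c.dae q v e - c.dae q v e')
          = σ * ((c.dpe q v e * x + c.dae q v e) - (c.dpe q v e' * x + c.dae q v e')) := by ring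
      rw [this, hz', sub_self, mul_zero]

end LCA
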