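import Pool.Agent.LCA.Stmts1

/-!
# CER: certificates are sufficient
-/

namespace LCA

open Set Filter
open scoped ContDiff Topology

theorem t_CER (hCEE : Stmt_CEE) (hCVV : Stmt_CVV) (hCVE : Stmt_CVE) : Stmt_CER := by
  intro m n c w π s q v hv hw hπ hc
  exact
    { len := hc.len
      tip := hc.tip
      ee := hCEE c w q v hw hc
      vv := hCVV c w π s q v hv hw hπ hc
      ve := hCVE c w π s q v hv hw hπ hc }

end LCA
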