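import Pool.Agent.LCA.Stmts1

/-!
# CNG: the properties are local in time
-/

namespace LCA

open Set Filter
open scoped ContDiff Topology

namespace CNG

lemma isOpen_times {J : Set ℝ} (hJ : IsOpen J) : IsOpen {q : E5 | q.1 ∈ J} :=
  hJ.preimage continuous_fst

lemma symm {J : Set ℝ} {A A' : Set E5} (h : Agree J A A') : Agree J A' A :=
  fun q hq => (h q hq).symm

lemma inter_eq {J : Set ℝ} {A A' : Set E5} (h : Agree J A A') :
    A' ∩ {q : E5 | q.1 ∈ J} = A ∩ {q : E5 | q.1 ∈ J} := by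
  ext q
  constructor
  · rintro ⟨h1, h2⟩
    exact ⟨(h q h2).2 h1, h2⟩
  · rintro ⟨h1, h2⟩
    exact ⟨(h q h2).1 h1, h2⟩

lemma nhdsWithin_eq {J : Set ℝ} {A A' : Set E5} (hJ : IsOpen J) (h : Agree J A A') {q : E5}
    (hq : q.1 ∈ J) : 𝓝[A] q = 𝓝[A'] q := by
  have hO := isOpen_times hJ
  rw [nhdsWithin_restrict A hq hO, nhdsWithin_restrict A' hq hO]
  rw [inter_eq h]

lemma chart {J : Set ℝ} {A A' : Set E5} (hJ : IsOpen J) (h : Agree J A A') {q : E5}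
    (hq : q.1 ∈ J) (hc : ChartAt A q) : ChartAt A' q := by
  obtain ⟨f, a, he, hfa, hm, hn⟩ := hc
  refine ⟨f, a, he, hfa, ?_, ?_⟩
  · have hcont : ContinuousAt f a := (he.smooth.self_of_nhds).continuousAt
    have hO : {q : E5 | q.1 ∈ J} ∈ 𝓝 (f a) := (isOpen_times hJ).mem_nhds (by rw [hfa]; exact hq)
    have h2 : ∀ᶠ b in 𝓝 a, f b ∈ {q : E5 | q.1 ∈ J} := hcont hO
    filter_upwards [hm, h2] with b h3 h4
    exact (h _ h4).1 h3
  · intro N hN
    rw [← nhdsWithin_eq hJ h hq]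
    exact hn N hN

lemma good {J : Set ℝ} {A A' : Set E5} (hJ : IsOpen J) (h : Agree J A A') (hG : Good J A) :
    Good J A' where
  closed := by
    intro q hq hqJ
    apply (h q hqJ).1
    apply hG.closed q _ hqJ
    have hO := isOpen_times hJ
    have h1 : q ∈ closure (A' ∩ {q : E5 | q.1 ∈ J}) := by
      rw [mem_closure_iff]
      intro o ho hqo
      obtain ⟨r, hr1, hr2⟩ := (mem_closure_iff.1 hq) (o ∩ {q : E5 | q.1 ∈ J}) (ho.inter hO)
        ⟨hqo, hqJ⟩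
      exact ⟨r, hr1.1, hr2, hr1.2⟩
    rw [inter_eq h] at h1
    exact closure_mono inter_subset_left h1
  bounded := by
    intro K hK hKc
    obtain ⟨M, hM⟩ := hG.bounded K hK hKc
    exact ⟨M, fun q hq hqK => hM q ((h q (hK hqK)).2 hq) hqK⟩
  chart := by
    intro q hq hqJ
    exact chart hJ h hqJ (hG.chart q ((h q hqJ).2 hq) hqJ)
  inj := by
    intro q hq q' hq' hqJ h1 h2 h3 h4
    exact hG.inj q ((h q hqJ).2 hq) q' ((h q' (h1 ▸ hqJ)).2 hq') hqJ h1 h2 h3 h4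

lemma down {J : Set ℝ} {A A' : Set E5} (hc : J.OrdConnected) (h : Agree J A A') (hD : Down J A) :
    Down J A' := by
  intro q hq hqJ c hcJ hcq
  obtain ⟨q', h1, h2, h3⟩ := hD q ((h q hqJ).2 hq) hqJ c hcJ hcq
  have hsub : Icc c q.1 ⊆ J := hc.out hcJ hqJ
  refine ⟨q', (h q' (h2 ▸ hcJ)).1 h1, h2, h3.mono ?_⟩
  rintro r ⟨hr1, hr2⟩
  exact ⟨(h r (hsub hr2)).1 hr1, hr2⟩

lemma up {J : Set ℝ} {A A' : Set E5} (hc : J.OrdConnected) (h : Agree J A A') (hD : Up J A) :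
    Up J A' := by
  intro q hq hqJ c hcJ hcq
  obtain ⟨q', h1, h2, h3⟩ := hD q ((h q hqJ).2 hq) hqJ c hcJ hcq
  have hsub : Icc q.1 c ⊆ J := hc.out hqJ hcJ
  refine ⟨q', (h q' (h2 ▸ hcJ)).1 h1, h2, h3.mono ?_⟩
  rintro r ⟨hr1, hr2⟩
  exact ⟨(h r (hsub hr2)).1 hr1, hr2⟩

end CNG

/-- the properties are local in time -/
theorem t_CNG : Stmt_CNG := by
  intro J A A' hJ hc h
  exact ⟨CNG.good hJ h, CNG.down hc h, CNG.up hc h⟩

end LCA
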