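import Pool.Agent.LCA.Stmts1

/-!
# CVE: separation of a vertex piece and an edge
-/

namespace LCA

open Set Filter
open scoped ContDiff Topology

namespace CVE

variable {m n : ℕ}

/-- (I2) for the left end -/
theorem i2_lf (c : Comb m n) (q v : St n) (e : Fin m) :
    v.2 (c.lf e) = c.dpe q v e * q.1 (c.lf e) + c.pe q e * v.1 (c.lf e) + c.dae q v e := by
  unfold Comb.dae
  ring

/-- (I2) for the right end -/
theorem i2_rt (c : Comb m n) (q v : St n) (e : Fin m) (h : q.1 (c.rt e) - q.1 (c.lf e) ≠ 0) :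
    v.2 (c.rt e) = c.dpe q v e * q.1 (c.rt e) + c.pe q e * v.1 (c.rt e) + c.dae q v e := by
  have h1 : c.dpe q v e * (q.1 (c.rt e) - q.1 (c.lf e)) =
      v.2 (c.rt e) - v.2 (c.lf e) - c.pe q e * (v.1 (c.rt e) - v.1 (c.lf e)) := by
    unfold Comb.dpe
    exact div_mul_cancel₀ _ h
  unfold Comb.dae
  linarith

/-- (I2) for the edge `ea i` -/
theorem i2_a (c : Comb m n) (q v : St n) (hv : c.Valid)
    (hlen : ∀ e, q.1 (c.rt e) - q.1 (c.lf e) ≠ 0) (i : Fin n) :
    v.2 i = c.dpe q v (c.ea i) * q.1 i + c.pe q (c.ea i) * v.1 i + c.dae q v (c.ea i) := by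
  have h1 := hv.oka i
  unfold Comb.OKa at h1
  have h2 := i2_lf c q v (c.ea i)
  have h3 := i2_rt c q v (c.ea i) (hlen _)
  cases ht : c.ty i <;> rw [ht] at h1 <;> simp only at h1
  · rw [h1] at h3
    exact h3
  · rw [h1] at h3
    exact h3
  · rw [h1] at h2
    exact h2

/-- the bound for the `x`-coordinate of a profile -/
theorem X_le {t : Ty} {s : ℝ} {π : Prof} (h : ProfBd t s π) (u : ℝ) (hu : |u| ≤ 2) :
    |π.X s u| ≤ 2 := by
  rcases le_or_gt u (-1) with h1 | h1
  · rw [(h.low u h1).1]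
    cases t <;> simp only [Ty.inX]
    · exact hu
    · exact hu
    · rw [abs_neg]
      exact hu
  · rcases le_or_gt 1 u with h2 | h2
    · rw [(h.high u h2).1]
      cases t <;> simp only [Ty.outX]
      · exact hu
      · rw [abs_neg]
        exact hu
      · exact hu
    · have h3 := h.X_bd u (abs_le.2 ⟨h1.le, h2.le⟩)
      linarith

/-- the three bounds for a point of a vertex piece -/
theorem bounds (c : Comb m n) (w : Fin n → ℝ) (π : Fin n → Prof) (s : ℝ) (q v : St n)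
    (hv : c.Valid) (hw : ∀ i, 0 < w i) (hπ : ∀ i, ProfBd (c.ty i) s (π i))
    (hlen : ∀ e, q.1 (c.rt e) - q.1 (c.lf e) ≠ 0) (i : Fin n) (u : ℝ) (hu : |u| ≤ 2) :
    |(c.vp w π s q v i u).1 - q.1 i| ≤ 2 * w i ∧ c.plo q i ≤ (c.vp w π s q v i u).2.1 ∧
      (c.vp w π s q v i u).2.1 ≤ c.phi q i ∧
      |(c.vp w π s q v i u).2.2.1 - (v.2 i - (c.vp w π s q v i u).2.1 * v.1 i)| ≤
        c.err w q v i := by
  have hX := X_le (hπ i) u hu
  have hP := (hπ i).P_mem u
  have hΘ := (hπ i).Θ_bd u hu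
  have hY := (hπ i).Y_bd u hu
  have hwi := hw i
  have i2 := i2_a c q v hv hlen i
  simp only [Comb.vp, Comb.vpt]
  set X := (π i).X s u with hX'
  set P := (π i).P s u with hP'
  set Θ := (π i).Θ s u with hΘ'
  set Y := (π i).Y s u with hY'
  refine ⟨?_, ?_, ?_, ?_⟩
  · have h1 : q.1 i + w i * X - q.1 i = w i * X := by ring
    rw [h1, abs_mul, abs_of_pos hwi]
    calc w i * |X| ≤ w i * 2 := mul_le_mul_of_nonneg_left hX hwi.le
      _ = 2 * w i := by ring
  · unfold Comb.plo Comb.dl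
    rcases le_total (c.pe q (c.ea i)) (c.pe q (c.eb i)) with h | h
    · rw [min_eq_left h]
      have : 0 ≤ (c.pe q (c.eb i) - c.pe q (c.ea i)) * P := mul_nonneg (by linarith) hP.1
      linarith
    · rw [min_eq_right h]
      have : 0 ≤ (c.pe q (c.ea i) - c.pe q (c.eb i)) * (1 - P) :=
        mul_nonneg (by linarith) (by linarith [hP.2])
      nlinarith
  · unfold Comb.phi Comb.dl
    rcases le_total (c.pe q (c.ea i)) (c.pe q (c.eb i)) with h | h
    · rw [max_eq_right h]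
      have : 0 ≤ (c.pe q (c.eb i) - c.pe q (c.ea i)) * (1 - P) :=
        mul_nonneg (by linarith) (by linarith [hP.2])
      nlinarith
    · rw [max_eq_left h]
      have : 0 ≤ (c.pe q (c.ea i) - c.pe q (c.eb i)) * P := mul_nonneg (by linarith) hP.1
      nlinarith
  · have h1 : c.dpe q v (c.ea i) * (q.1 i + w i * X) + c.dae q v (c.ea i)
        + w i * ((c.dpe q v (c.eb i) - c.dpe q v (c.ea i)) * Θ + c.dl q i * Y)
        - c.dl q i * P * v.1 i - (v.2 i - (c.pe q (c.ea i) + c.dl q i * P) * v.1 i) =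
        w i * (c.dpe q v (c.ea i) * X + (c.dpe q v (c.eb i) - c.dpe q v (c.ea i)) * Θ +
          c.dl q i * Y) := by
      rw [i2]
      ring
    rw [h1, abs_mul, abs_of_pos hwi]
    unfold Comb.err
    refine mul_le_mul_of_nonneg_left ?_ hwi.le
    refine (abs_add_three _ _ _).trans ?_
    rw [abs_mul, abs_mul, abs_mul]
    have a1 : |c.dpe q v (c.ea i)| * |X| ≤ 2 * |c.dpe q v (c.ea i)| := by
      rw [mul_comm]
      exact mul_le_mul_of_nonneg_right hX (abs_nonneg _)
    have a2 : |c.dpe q v (c.eb i) - c.dpe q v (c.ea i)| * |Θ| ≤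
        2 * |c.dpe q v (c.eb i) - c.dpe q v (c.ea i)| := by
      rw [mul_comm]
      exact mul_le_mul_of_nonneg_right hΘ (abs_nonneg _)
    have a3 : |c.dl q i| * |Y| ≤ CY * |c.dl q i| := by
      rw [mul_comm]
      exact mul_le_mul_of_nonneg_right hY (abs_nonneg _)
    linarith

end CVE

theorem t_CVE : Stmt_CVE := by
  intro m n c w π s q v hv hw hπ hc i e hae hbe u hu x hx hM
  have hlen : ∀ e, q.1 (c.rt e) - q.1 (c.lf e) ≠ 0 := by
    intro e
    have h1 := hc.len e
    have h2 := hw (c.lf e)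
    have h3 := hw (c.rt e)
    intro h4
    linarith
  obtain ⟨b1, b2, b3, b4⟩ := CVE.bounds c w π s q v hv hw hπ hlen i u hu
  obtain ⟨m1, m2, m3⟩ := hM
  have m1' : (c.vp w π s q v i u).1 = x := m1
  have m2' : (c.vp w π s q v i u).2.1 = c.pe q e := m2
  have m3' : (c.vp w π s q v i u).2.2.1 = c.dpe q v e * x + c.dae q v e := m3
  rw [m1'] at b1
  rw [m2'] at b2 b3 b4
  rw [m3'] at b4
  have b1' := abs_le.1 b1
  have b4' := abs_le.1 b4
  have r1 : q.1 (c.lf e) + 2 * w (c.lf e) ≤ x := hx.1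
  have r2 : x ≤ q.1 (c.rt e) - 2 * w (c.rt e) := hx.2
  rcases hc.ve i e hae hbe with h | ⟨σ, hσ, h1⟩
  · rcases h with h | h | h | h
    · linarith [b1'.1, b1'.2]
    · linarith [b1'.1, b1'.2]
    · linarith
    · linarith
  · unfold Comb.Zve Comb.Dve at h1
    have h2 : |c.dpe q v e * (x - q.1 i)| ≤ 2 * w i * |c.dpe q v e| := by
      rw [abs_mul, mul_comm]
      exact mul_le_mul_of_nonneg_right b1 (abs_nonneg _)
    have h2' := abs_le.1 h2
    have h3 : |σ * ((v.2 i - c.pe q e * v.1 i) - (c.dpe q v e * q.1 i + c.dae q v e))| ≤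
        c.err w q v i + 2 * w i * |c.dpe q v e| := by
      rw [abs_mul, hσ, one_mul, abs_le]
      constructor <;> nlinarith [b4'.1, b4'.2, h2'.1, h2'.2]
    have h4 := le_abs_self
      (σ * ((v.2 i - c.pe q e * v.1 i) - (c.dpe q v e * q.1 i + c.dae q v e)))
    linarith

end LCA
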