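import Pool.Agent.LCA.Stmts3

/-!
# CYL: the initial cylinder
-/

namespace LCA

open Set Filter
open scoped ContDiff Topology

namespace CYL

variable {m n : ℕ} (c : Comb m n) (Q : St n)

/-- the positions at the time `s` -/
def sc (s : ℝ) : St n := (Q.1, s • Q.2)

theorem lin_eq (s : ℝ) : lin Q ((0, Q.2) : St n) 1 s = sc Q s := by
  unfold lin sc
  apply Prod.ext
  · simp
  · funext i
    simp
    ring

theorem sc_one : sc Q 1 = Q := by
  unfold sc
  rw [one_smul]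

theorem pe_sc (s : ℝ) (e : Fin m) : c.pe (sc Q s) e = s * c.pe Q e := by
  simp only [Comb.pe, sc, Pi.smul_apply, smul_eq_mul]
  ring

theorem ae_sc (s : ℝ) (e : Fin m) : c.ae (sc Q s) e = s * c.ae Q e := by
  simp only [Comb.ae, pe_sc]
  simp only [sc, Pi.smul_apply, smul_eq_mul]
  ring

theorem dpe_sc (s : ℝ) (e : Fin m) : c.dpe (sc Q s) ((0, Q.2) : St n) e = c.pe Q e := by
  simp only [Comb.dpe, Comb.pe, sc, Pi.zero_apply, sub_zero, mul_zero]

theorem dae_sc (s : ℝ) (e : Fin m) : c.dae (sc Q s) ((0, Q.2) : St n) e = c.ae Q e := by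
  simp only [Comb.dae, dpe_sc]
  simp only [Comb.ae, sc, Pi.zero_apply, sub_zero, mul_zero]

theorem dl_sc (s : ℝ) (i : Fin n) : c.dl (sc Q s) i = s * c.dl Q i := by
  simp only [Comb.dl, pe_sc]
  ring

/-- the points `(x, y, z)` of the knot -/
def S1 (sh : Shape) (w : Fin n → ℝ) : Set LC.R3 :=
  {t | (∃ e, ∃ x ∈ c.rg w Q e, t = (x, c.pe Q e, c.pe Q e * x + c.ae Q e)) ∨
    ∃ i, ∃ u, |u| ≤ 2 ∧ t = (Q.1 i + w i * ((c.sp sh) i).X 0 u,
      c.pe Q (c.ea i) + c.dl Q i * ((c.sp sh) i).P 0 u,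
      c.pe Q (c.ea i) * (Q.1 i + w i * ((c.sp sh) i).X 0 u) + c.ae Q (c.ea i) +
        w i * c.dl Q i * ((c.sp sh) i).Θ 0 u)}

theorem ept_sc (s x : ℝ) (e : Fin m) : c.ept (sc Q s) ((0, Q.2) : St n) e x =
    (x, s * c.pe Q e, c.pe Q e * x + c.ae Q e, s * (c.pe Q e * x + c.ae Q e)) := by
  simp only [Comb.ept, pe_sc, ae_sc, dpe_sc, dae_sc, Prod.mk.injEq, true_and]
  ring

theorem vp_sc (sh : Shape) (w : Fin n → ℝ) (s τ u : ℝ) (i : Fin n) :
    c.vp w (c.sp sh) τ (sc Q s) ((0, Q.2) : St n) i u =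
      (Q.1 i + w i * ((c.sp sh) i).X 0 u,
        s * (c.pe Q (c.ea i) + c.dl Q i * ((c.sp sh) i).P 0 u),
        c.pe Q (c.ea i) * (Q.1 i + w i * ((c.sp sh) i).X 0 u) + c.ae Q (c.ea i) +
          w i * c.dl Q i * ((c.sp sh) i).Θ 0 u,
        s * (c.pe Q (c.ea i) * (Q.1 i + w i * ((c.sp sh) i).X 0 u) + c.ae Q (c.ea i) +
          w i * c.dl Q i * ((c.sp sh) i).Θ 0 u)) := by
  have hX : ((c.sp sh) i).X τ u = ((c.sp sh) i).X 0 u := rfl
  have hP : ((c.sp sh) i).P τ u = ((c.sp sh) i).P 0 u := rfl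
  have hT : ((c.sp sh) i).Θ τ u = ((c.sp sh) i).Θ 0 u := rfl
  have hY : ((c.sp sh) i).Y τ u = 0 := rfl
  have hd : c.pe Q (c.eb i) - c.pe Q (c.ea i) = c.dl Q i := rfl
  simp only [Comb.vp, Comb.vpt, hX, hP, hT, hY, pe_sc, ae_sc, dpe_sc, dae_sc, dl_sc, hd]
  have h1 : (sc Q s).1 i = Q.1 i := rfl
  rw [h1, Pi.zero_apply]
  refine Prod.ext rfl (Prod.ext ?_ (Prod.ext ?_ ?_))
  · show s * c.pe Q (c.ea i) + s * c.dl Q i * _ = _
    ring
  · show c.pe Q (c.ea i) * _ + c.ae Q (c.ea i) + w i * (c.dl Q i * _ + s * c.dl Q i * 0)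
      - s * c.dl Q i * _ * 0 = _
    ring
  · show s * c.pe Q (c.ea i) * _ + s * c.ae Q (c.ea i) + w i * (s * c.dl Q i) * _ = _
    ring

theorem slice_sc (sh : Shape) (w : Fin n → ℝ) (s τ : ℝ) (r : ℝ × ℝ × ℝ × ℝ) :
    r ∈ c.slice w (c.sp sh) τ (sc Q s) ((0, Q.2) : St n) ↔
      ∃ t ∈ S1 c Q sh w, r = (t.1, s * t.2.1, t.2.2, s * t.2.2) := by
  have hrg : ∀ e, c.rg w (sc Q s) e = c.rg w Q e := fun e => rfl
  constructor
  · rintro (⟨e, x, hx, h⟩ | ⟨i, u, hu, h⟩)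
    · refine ⟨_, Or.inl ⟨e, x, hx, rfl⟩, ?_⟩
      rw [h, ept_sc]
    · refine ⟨_, Or.inr ⟨i, u, hu, rfl⟩, ?_⟩
      rw [h, vp_sc]
  · rintro ⟨t, ⟨e, x, hx, rfl⟩ | ⟨i, u, hu, rfl⟩, h⟩
    · refine Or.inl ⟨e, x, hx, ?_⟩
      rw [h, ept_sc]
    · refine Or.inr ⟨i, u, hu, ?_⟩
      rw [h, vp_sc]

theorem knot_eq (sh : Shape) (w : Fin n → ℝ) : c.knot sh w Q = S1 c Q sh w := by
  ext r
  have h := slice_sc c Q sh w 1 0 (r.1, r.2.1, r.2.2, r.2.2)
  rw [sc_one] at h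
  constructor
  · intro hr
    obtain ⟨t, ht, he⟩ := h.1 hr
    simp only [one_mul, Prod.mk.injEq] at he
    have : r = t := Prod.ext he.1 (Prod.ext he.2.1 he.2.2.1)
    rw [this]
    exact ht
  · intro hr
    refine h.2 ⟨r, hr, ?_⟩
    simp only [one_mul]

theorem plo_sc {s : ℝ} (hs : 0 < s) (i : Fin n) : c.plo (sc Q s) i = s * c.plo Q i := by
  simp only [Comb.plo, pe_sc]
  rw [mul_min_of_nonneg _ _ hs.le]

theorem phi_sc {s : ℝ} (hs : 0 < s) (i : Fin n) : c.phi (sc Q s) i = s * c.phi Q i := by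
  simp only [Comb.phi, pe_sc]
  rw [mul_max_of_nonneg _ _ hs.le]

theorem dpe_one (e : Fin m) : c.dpe Q ((0, Q.2) : St n) e = c.pe Q e := by
  have := dpe_sc c Q 1 e
  rwa [sc_one] at this

theorem dae_one (e : Fin m) : c.dae Q ((0, Q.2) : St n) e = c.ae Q e := by
  have := dae_sc c Q 1 e
  rwa [sc_one] at this

theorem err_sc (w : Fin n → ℝ) (hw : ∀ i, 0 < w i) {s : ℝ} (hs : 0 < s) (hs1 : s ≤ 1)
    (i : Fin n) : c.err w (sc Q s) ((0, Q.2) : St n) i ≤ c.err w Q ((0, Q.2) : St n) i := by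
  simp only [Comb.err, dpe_sc, dl_sc, dpe_one]
  apply mul_le_mul_of_nonneg_left _ (hw i).le
  have h1 : |s * c.dl Q i| ≤ |c.dl Q i| := by
    rw [abs_mul, abs_of_pos hs]
    exact mul_le_of_le_one_left (abs_nonneg _) hs1
  have h2 : (0 : ℝ) ≤ CY := by
    unfold CY
    norm_num
  have := mul_le_mul_of_nonneg_left h1 h2
  linarith

theorem Dvv_eq (i j : Fin n) (p : ℝ) : Dvv ((0, Q.2) : St n) i j p = Q.2 i - Q.2 j := by
  simp only [Dvv, Pi.zero_apply, mul_zero, sub_zero]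

theorem cert_sc (w : Fin n → ℝ) (hw : ∀ i, 0 < w i) (h : c.Cert w Q ((0, Q.2) : St n)) {s : ℝ}
    (hs : 0 < s) (hs1 : s ≤ 1) : c.Cert w (sc Q s) ((0, Q.2) : St n) := by
  have hp : ∀ e, c.pe (sc Q s) e = s * c.pe Q e := pe_sc c Q s
  refine ⟨h.len, ?_, ?_, ?_, ?_⟩
  · intro i hi
    rw [dl_sc]
    exact mul_ne_zero hs.ne' (h.tip i hi)
  · intro e e' hee
    rcases h.ee e e' hee with h1 | ⟨σ, hσ, h1, h2⟩
    · left
      rcases h1 with h1 | h1 | h1
      · exact Or.inl h1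
      · exact Or.inr (Or.inl h1)
      · refine Or.inr (Or.inr ?_)
        rw [hp, hp]
        exact fun h2 => h1 (mul_left_cancel₀ hs.ne' h2)
    · right
      refine ⟨σ, hσ, ?_, ?_⟩
      · simp only [Comb.Dee, dpe_sc, dae_sc]
        simp only [Comb.Dee, dpe_one, dae_one] at h1
        exact h1
      · simp only [Comb.Dee, dpe_sc, dae_sc]
        simp only [Comb.Dee, dpe_one, dae_one] at h2
        exact h2
  · intro i j hij
    rcases h.vv i j hij with h1 | ⟨σ, hσ, h1, h2⟩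
    · left
      rcases h1 with h1 | h1 | h1 | h1
      · exact Or.inl h1
      · exact Or.inr (Or.inl h1)
      · refine Or.inr (Or.inr (Or.inl ?_))
        rw [phi_sc c Q hs, plo_sc c Q hs]
        exact mul_lt_mul_of_pos_left h1 hs
      · refine Or.inr (Or.inr (Or.inr ?_))
        rw [phi_sc c Q hs, plo_sc c Q hs]
        exact mul_lt_mul_of_pos_left h1 hs
    · right
      refine ⟨σ, hσ, ?_, ?_⟩
      · rw [Dvv_eq] at h1 ⊢
        have := err_sc c Q w hw hs hs1 i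
        have := err_sc c Q w hw hs hs1 j
        linarith
      · rw [Dvv_eq] at h2 ⊢
        have := err_sc c Q w hw hs hs1 i
        have := err_sc c Q w hw hs hs1 j
        linarith
  · intro i e h1 h2
    rcases h.ve i e h1 h2 with h3 | ⟨σ, hσ, h3⟩
    · left
      rcases h3 with h3 | h3 | h3 | h3
      · exact Or.inl h3
      · exact Or.inr (Or.inl h3)
      · refine Or.inr (Or.inr (Or.inl ?_))
        rw [plo_sc c Q hs, hp]
        exact mul_lt_mul_of_pos_left h3 hs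
      · refine Or.inr (Or.inr (Or.inr ?_))
        rw [phi_sc c Q hs, hp]
        exact mul_lt_mul_of_pos_left h3 hs
    · right
      refine ⟨σ, hσ, ?_⟩
      have h4 := err_sc c Q w hw hs hs1 i
      have e1 : c.Dve (sc Q s) ((0, Q.2) : St n) i e = c.Dve Q ((0, Q.2) : St n) i e := by
        simp only [Comb.Dve, dpe_sc, dae_sc, dpe_one, dae_one, Pi.zero_apply, mul_zero]
        rfl
      unfold Comb.Zve at h3 ⊢
      rw [e1, dpe_sc]
      rw [dpe_one] at h3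
      linarith

theorem deriv_lin (Q V : St n) (t s : ℝ) : deriv (lin Q V t) s = V := by
  have h : HasDerivAt (lin Q V t) ((1 : ℝ) • V) s := by
    have h1 : HasDerivAt (fun s : ℝ => s - t) 1 s := (hasDerivAt_id s).sub_const t
    exact (h1.smul_const V).const_add Q
  rw [h.deriv, one_smul]

theorem lin_smooth (Q V : St n) (t : ℝ) : ContDiff ℝ ∞ (lin Q V t) := by
  unfold lin
  exact contDiff_const.add ((contDiff_id.sub contDiff_const).smul contDiff_const)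

end CYL

open CYL in
theorem t_CYL (hOPC : Stmt_OPC) (hCER : Stmt_CER) (hPHG : Stmt_PHG) (hPST : Stmt_PST)
    (hCNG : Stmt_CNG) : Stmt_CYL := by
  intro m n sh c w Q hc hw hcert
  set V : St n := (0, Q.2) with hV
  -- the certificate near the time `1`
  have hev : ∀ᶠ s in 𝓝 (1 : ℝ), c.Cert w (lin Q V 1 s) V := by
    have h1 : IsOpen {a : St n × St n | c.Cert w a.1 a.2} := hOPC c w hw
    have h2 : Continuous fun s : ℝ => ((lin Q V 1 s, V) : St n × St n) :=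
      (lin_smooth Q V 1).continuous.prodMk continuous_const
    have h3 : ((lin Q V 1 1, V) : St n × St n) ∈ {a : St n × St n | c.Cert w a.1 a.2} := by
      show c.Cert w (lin Q V 1 1) V
      rw [hV, lin_eq, sc_one]
      exact hcert
    exact (h2.tendsto 1).eventually (h1.mem_nhds h3)
  obtain ⟨δ, hδ, hδ1⟩ := Metric.eventually_nhds_iff.1 hev
  set ε : ℝ := min δ (1 / 2) with hε
  have hε0 : 0 < ε := lt_min hδ (by norm_num)
  have hεδ : ε ≤ δ := min_le_left _ _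
  have hε2 : ε ≤ 1 / 2 := min_le_right _ _
  have hC : ∀ s ∈ Ioo 0 (1 + ε), c.Cert w (lin Q V 1 s) V := by
    intro s hs
    rcases le_or_gt s 1 with h1 | h1
    · rw [hV, lin_eq]
      exact cert_sc c Q w hw hcert hs.1 h1
    · apply hδ1
      rw [Real.dist_eq, abs_of_pos (by linarith)]
      linarith [hs.2]
  have hph : IsPhase c w (Ioo 0 (1 + ε)) (c.sp sh) (lin Q V 1) := by
    have hprof : ∀ i, ProfOK (Ioo 0 (1 + ε)) (c.ty i) (fun s => c.dl (lin Q V 1 s) i)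
        (c.sp sh i) := by
      intro i
      exact hPST sh (Ioo 0 (1 + ε)) (c.ty i) _ fun s hs hi => (hC s hs).tip i hi
    refine ⟨hc, hw, isOpen_Ioo, ordConnected_Ioo, (lin_smooth Q V 1).contDiffOn, hprof, ?_⟩
    intro s hs
    rw [deriv_lin]
    exact hCER c w (c.sp sh) s _ _ hc hw (fun i => (hprof i).bd s hs) (hC s hs)
  obtain ⟨hG, hD, -⟩ := hPHG c w _ _ _ hph
  refine ⟨one_pos, ε, hε0, by linarith, c.surf w (c.sp sh) (lin Q V 1), 1 / 2, by norm_num,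
    by norm_num, hG, hD, ?_, fun q _ => Iff.rfl⟩
  intro q _
  rw [knot_eq]
  have h1 : q ∈ c.surf w (c.sp sh) (lin Q V 1) ↔
      q.2 ∈ c.slice w (c.sp sh) q.1 (sc Q q.1) ((0, Q.2) : St n) := by
    have h2 : q ∈ c.surf w (c.sp sh) (lin Q V 1) ↔
      q.2 ∈ c.slice w (c.sp sh) q.1 (lin Q V 1 q.1) (deriv (lin Q V 1) q.1) := Iff.rfl
    rw [h2, deriv_lin, hV, lin_eq]
  rw [h1, slice_sc]
  rfl

end LCA
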