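import Pool.Agent.LCA.Stmts2

/-!
# DTA: before the maximum, the surface is the moving polygon
-/

namespace LCA

open Set Filter
open scoped ContDiff Topology

namespace DTA

variable {sh : Shape} {c : Comb 4 4} {w : Fin 4 → ℝ} {lt rt pa pb : Fin 4} {H₁ H₂ H₃ H₄ : Fin 4}
  {E : Evt} {Q V : St 4}

theorem lfH1 (h : Death c w lt rt pa pb H₁ H₂ H₃ H₄ E Q V) : c.lf H₁ = lt := by
  have := h.valid.oka lt
  simpa only [Comb.OKa, h.tyl, h.al] using this

theorem lfH3 (h : Death c w lt rt pa pb H₁ H₂ H₃ H₄ E Q V) : c.lf H₃ = lt := by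
  have := h.valid.okb lt
  simpa only [Comb.OKb, h.tyl, h.bl] using this

theorem rtH4 (h : Death c w lt rt pa pb H₁ H₂ H₃ H₄ E Q V) : c.rt H₄ = rt := by
  have := h.valid.oka rt
  simpa only [Comb.OKa, h.tyr, h.ar] using this

theorem rtH2 (h : Death c w lt rt pa pb H₁ H₂ H₃ H₄ E Q V) : c.rt H₂ = rt := by
  have := h.valid.okb rt
  simpa only [Comb.OKb, h.tyr, h.br] using this

theorem rtH1 (h : Death c w lt rt pa pb H₁ H₂ H₃ H₄ E Q V) : c.rt H₁ = pa := by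
  have := h.valid.oka pa
  simpa only [Comb.OKa, h.tya, h.aa] using this

theorem lfH4 (h : Death c w lt rt pa pb H₁ H₂ H₃ H₄ E Q V) : c.lf H₄ = pa := by
  have := h.valid.okb pa
  simpa only [Comb.OKb, h.tya, h.ab] using this

theorem rtH3 (h : Death c w lt rt pa pb H₁ H₂ H₃ H₄ E Q V) : c.rt H₃ = pb := by
  have := h.valid.oka pb
  simpa only [Comb.OKa, h.tyb, h.ba] using this

theorem lfH2 (h : Death c w lt rt pa pb H₁ H₂ H₃ H₄ E Q V) : c.lf H₂ = pb := by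
  have := h.valid.okb pb
  simpa only [Comb.OKb, h.tyb, h.bb] using this

theorem lin1 {n : ℕ} (Q V : St n) (t s : ℝ) (i : Fin n) :
    (lin Q V t s).1 i = Q.1 i + (s - t) * V.1 i := by
  simp [lin]

theorem lin2 {n : ℕ} (Q V : St n) (t s : ℝ) (i : Fin n) :
    (lin Q V t s).2 i = Q.2 i + (s - t) * V.2 i := by
  simp [lin]

theorem deriv_lin {n : ℕ} (Q V : St n) (t s : ℝ) : deriv (lin Q V t) s = V := by
  have h1 : HasDerivAt (fun r : ℝ => (r - t) • V) V s := by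
    simpa using ((hasDerivAt_id s).sub_const t).smul_const V
  exact (h1.const_add Q).deriv

/-- The four edges: slope, derivative of the slope, derivative of the constant, constant. -/
theorem edge1 (h : Death c w lt rt pa pb H₁ H₂ H₃ H₄ E Q V) {s : ℝ} (hs : s < E.s₀) :
    c.pe (lin Q V E.s₀ s) H₁ = E.P₁ + E.g / 2 ∧ c.dpe (lin Q V E.s₀ s) V H₁ = 0 ∧
    c.dae (lin Q V E.s₀ s) V H₁ = E.z₀ - E.ζ ∧
    c.ae (lin Q V E.s₀ s) H₁ = E.F₀ + (s - E.s₀) * (E.z₀ - E.ζ) - (E.P₁ + E.g / 2) * E.x₀ := by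
  have hv := h.pos.v
  have hne : (s - E.s₀) * E.v ≠ 0 := mul_ne_zero (by linarith) hv.ne'
  have hpe : c.pe (lin Q V E.s₀ s) H₁ = E.P₁ + E.g / 2 := by
    unfold Comb.pe
    rw [rtH1 h, lfH1 h]
    simp only [lin1, lin2, h.hx, h.hF, h.vxl, h.vxa, h.vFl, h.vFa]
    rw [div_eq_iff (by intro h0; apply hne; linarith)]
    ring
  have hdpe : c.dpe (lin Q V E.s₀ s) V H₁ = 0 := by
    unfold Comb.dpe
    rw [hpe, rtH1 h, lfH1 h]
    simp only [h.vxl, h.vxa, h.vFl, h.vFa]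
    rw [div_eq_zero_iff]
    left
    ring
  refine ⟨hpe, hdpe, ?_, ?_⟩
  · unfold Comb.dae
    rw [hdpe, hpe, lfH1 h]
    simp only [h.vxl, h.vFl]
    ring
  · unfold Comb.ae
    rw [hpe, lfH1 h]
    simp only [lin1, lin2, h.hx, h.hF, h.vxl, h.vFl]
    ring

theorem edge3 (h : Death c w lt rt pa pb H₁ H₂ H₃ H₄ E Q V) {s : ℝ} (hs : s < E.s₀) :
    c.pe (lin Q V E.s₀ s) H₃ = E.P₁ - E.g / 2 ∧ c.dpe (lin Q V E.s₀ s) V H₃ = 0 ∧
    c.dae (lin Q V E.s₀ s) V H₃ = E.z₀ + E.ζ ∧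
    c.ae (lin Q V E.s₀ s) H₃ = E.F₀ + (s - E.s₀) * (E.z₀ + E.ζ) - (E.P₁ - E.g / 2) * E.x₀ := by
  have hv := h.pos.v
  have hne : (s - E.s₀) * E.v ≠ 0 := mul_ne_zero (by linarith) hv.ne'
  have hpe : c.pe (lin Q V E.s₀ s) H₃ = E.P₁ - E.g / 2 := by
    unfold Comb.pe
    rw [rtH3 h, lfH3 h]
    simp only [lin1, lin2, h.hx, h.hF, h.vxl, h.vxb, h.vFl, h.vFb]
    rw [div_eq_iff (by intro h0; apply hne; linarith)]
    unfold Evt.ζ
    ring
  have hdpe : c.dpe (lin Q V E.s₀ s) V H₃ = 0 := by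
    unfold Comb.dpe
    rw [hpe, rtH3 h, lfH3 h]
    simp only [h.vxl, h.vxb, h.vFl, h.vFb]
    rw [div_eq_zero_iff]
    left
    unfold Evt.ζ
    ring
  refine ⟨hpe, hdpe, ?_, ?_⟩
  · unfold Comb.dae
    rw [hdpe, hpe, lfH3 h]
    simp only [h.vxl, h.vFl]
    unfold Evt.ζ
    ring
  · unfold Comb.ae
    rw [hpe, lfH3 h]
    simp only [lin1, lin2, h.hx, h.hF, h.vxl, h.vFl]
    unfold Evt.ζ
    ring

theorem edge4 (h : Death c w lt rt pa pb H₁ H₂ H₃ H₄ E Q V) {s : ℝ} (hs : s < E.s₀) :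
    c.pe (lin Q V E.s₀ s) H₄ = E.P₂ - E.g / 2 ∧ c.dpe (lin Q V E.s₀ s) V H₄ = 0 ∧
    c.dae (lin Q V E.s₀ s) V H₄ = E.z₀ - E.ζ ∧
    c.ae (lin Q V E.s₀ s) H₄ = E.F₀ + (s - E.s₀) * (E.z₀ - E.ζ) - (E.P₂ - E.g / 2) * E.x₀ := by
  have hv := h.pos.v
  have hne : (s - E.s₀) * E.v ≠ 0 := mul_ne_zero (by linarith) hv.ne'
  have hpe : c.pe (lin Q V E.s₀ s) H₄ = E.P₂ - E.g / 2 := by
    unfold Comb.pe
    rw [rtH4 h, lfH4 h]
    simp only [lin1, lin2, h.hx, h.hF, h.vxr, h.vxa, h.vFr, h.vFa]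
    rw [div_eq_iff (by intro h0; apply hne; linarith)]
    unfold Evt.ζ
    ring
  have hdpe : c.dpe (lin Q V E.s₀ s) V H₄ = 0 := by
    unfold Comb.dpe
    rw [hpe, rtH4 h, lfH4 h]
    simp only [h.vxr, h.vxa, h.vFr, h.vFa]
    rw [div_eq_zero_iff]
    left
    unfold Evt.ζ
    ring
  refine ⟨hpe, hdpe, ?_, ?_⟩
  · unfold Comb.dae
    rw [hdpe, hpe, lfH4 h]
    simp only [h.vxa, h.vFa]
    ring
  · unfold Comb.ae
    rw [hpe, lfH4 h]
    simp only [lin1, lin2, h.hx, h.hF, h.vxa, h.vFa]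
    ring

theorem edge2 (h : Death c w lt rt pa pb H₁ H₂ H₃ H₄ E Q V) {s : ℝ} (hs : s < E.s₀) :
    c.pe (lin Q V E.s₀ s) H₂ = E.P₂ + E.g / 2 ∧ c.dpe (lin Q V E.s₀ s) V H₂ = 0 ∧
    c.dae (lin Q V E.s₀ s) V H₂ = E.z₀ + E.ζ ∧
    c.ae (lin Q V E.s₀ s) H₂ = E.F₀ + (s - E.s₀) * (E.z₀ + E.ζ) - (E.P₂ + E.g / 2) * E.x₀ := by
  have hv := h.pos.v
  have hne : (s - E.s₀) * E.v ≠ 0 := mul_ne_zero (by linarith) hv.ne'
  have hpe : c.pe (lin Q V E.s₀ s) H₂ = E.P₂ + E.g / 2 := by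
    unfold Comb.pe
    rw [rtH2 h, lfH2 h]
    simp only [lin1, lin2, h.hx, h.hF, h.vxr, h.vxb, h.vFr, h.vFb]
    rw [div_eq_iff (by intro h0; apply hne; linarith)]
    ring
  have hdpe : c.dpe (lin Q V E.s₀ s) V H₂ = 0 := by
    unfold Comb.dpe
    rw [hpe, rtH2 h, lfH2 h]
    simp only [h.vxr, h.vxb, h.vFr, h.vFb]
    rw [div_eq_zero_iff]
    left
    ring
  refine ⟨hpe, hdpe, ?_, ?_⟩
  · unfold Comb.dae
    rw [hdpe, hpe, lfH2 h]
    simp only [h.vxb, h.vFb]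
    ring
  · unfold Comb.ae
    rw [hpe, lfH2 h]
    simp only [lin1, lin2, h.hx, h.hF, h.vxb, h.vFb]
    ring

/-! ### the points of the polygon -/

theorem ept1 (h : Death c w lt rt pa pb H₁ H₂ H₃ H₄ E Q V) {s : ℝ} (hs : s < E.s₀) (x : ℝ) :
    c.ept (lin Q V E.s₀ s) V H₁ x = (x, E.P₁ + E.g / 2, E.z₀ - E.ζ,
      E.F₀ + (s - E.s₀) * (E.z₀ - E.ζ) + (E.P₁ + E.g / 2) * (x - E.x₀)) := by
  obtain ⟨h1, h2, h3, h4⟩ := edge1 h hs
  unfold Comb.ept
  rw [h1, h2, h3, h4]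
  refine Prod.ext rfl (Prod.ext rfl (Prod.ext ?_ ?_)) <;> simp only <;> ring

theorem ept3 (h : Death c w lt rt pa pb H₁ H₂ H₃ H₄ E Q V) {s : ℝ} (hs : s < E.s₀) (x : ℝ) :
    c.ept (lin Q V E.s₀ s) V H₃ x = (x, E.P₁ - E.g / 2, E.z₀ + E.ζ,
      E.F₀ + (s - E.s₀) * (E.z₀ + E.ζ) + (E.P₁ - E.g / 2) * (x - E.x₀)) := by
  obtain ⟨h1, h2, h3, h4⟩ := edge3 h hs
  unfold Comb.ept
  rw [h1, h2, h3, h4]
  refine Prod.ext rfl (Prod.ext rfl (Prod.ext ?_ ?_)) <;> simp only <;> ring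

theorem ept4 (h : Death c w lt rt pa pb H₁ H₂ H₃ H₄ E Q V) {s : ℝ} (hs : s < E.s₀) (x : ℝ) :
    c.ept (lin Q V E.s₀ s) V H₄ x = (x, E.P₂ - E.g / 2, E.z₀ - E.ζ,
      E.F₀ + (s - E.s₀) * (E.z₀ - E.ζ) + (E.P₂ - E.g / 2) * (x - E.x₀)) := by
  obtain ⟨h1, h2, h3, h4⟩ := edge4 h hs
  unfold Comb.ept
  rw [h1, h2, h3, h4]
  refine Prod.ext rfl (Prod.ext rfl (Prod.ext ?_ ?_)) <;> simp only <;> ring

theorem ept2 (h : Death c w lt rt pa pb H₁ H₂ H₃ H₄ E Q V) {s : ℝ} (hs : s < E.s₀) (x : ℝ) :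
    c.ept (lin Q V E.s₀ s) V H₂ x = (x, E.P₂ + E.g / 2, E.z₀ + E.ζ,
      E.F₀ + (s - E.s₀) * (E.z₀ + E.ζ) + (E.P₂ + E.g / 2) * (x - E.x₀)) := by
  obtain ⟨h1, h2, h3, h4⟩ := edge2 h hs
  unfold Comb.ept
  rw [h1, h2, h3, h4]
  refine Prod.ext rfl (Prod.ext rfl (Prod.ext ?_ ?_)) <;> simp only <;> ring

theorem vpl (h : Death c w lt rt pa pb H₁ H₂ H₃ H₄ E Q V) {s : ℝ} (hs : s < E.s₀) (u : ℝ) :
    c.vp w (c.sp sh) s (lin Q V E.s₀ s) V lt u =
      (E.x₀ + (s - E.s₀) * E.v - E.r * sh.ξ u, E.P₁ + E.g / 2 - E.g * sh.τ u,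
        E.z₀ + E.ζ * (2 * sh.τ u - 1),
        E.F₀ + (s - E.s₀) * (E.z₀ - E.ζ)
          + (E.P₁ + E.g / 2) * ((s - E.s₀) * E.v - E.r * sh.ξ u) + E.r * E.g * sh.ΘR u) := by
  obtain ⟨h1, h2, h3, h4⟩ := edge1 h hs
  obtain ⟨k1, k2, k3, k4⟩ := edge3 h hs
  unfold Comb.vp Comb.vpt Comb.dl
  simp only [Comb.sp, Shape.st, h.tyl, h.al, h.bl, h1, h2, h3, h4, k1, k2, lin1, h.hx, h.vxl, h.hw]
  refine Prod.ext ?_ (Prod.ext ?_ (Prod.ext ?_ ?_)) <;> simp only [Evt.ζ] <;> ring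

theorem vpr (h : Death c w lt rt pa pb H₁ H₂ H₃ H₄ E Q V) {s : ℝ} (hs : s < E.s₀) (u : ℝ) :
    c.vp w (c.sp sh) s (lin Q V E.s₀ s) V rt u =
      (E.x₀ - (s - E.s₀) * E.v + E.r * sh.ξ u, E.P₂ - E.g / 2 + E.g * sh.τ u,
        E.z₀ + E.ζ * (2 * sh.τ u - 1),
        E.F₀ + (s - E.s₀) * (E.z₀ - E.ζ)
          + (E.P₂ - E.g / 2) * (-(s - E.s₀) * E.v + E.r * sh.ξ u) + E.r * E.g * sh.ΘR u) := by
  obtain ⟨h1, h2, h3, h4⟩ := edge4 h hs
  obtain ⟨k1, k2, k3, k4⟩ := edge2 h hs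
  unfold Comb.vp Comb.vpt Comb.dl
  simp only [Comb.sp, Shape.st, h.tyr, h.ar, h.br, h1, h2, h3, h4, k1, k2, lin1, h.hx, h.vxr, h.hw]
  refine Prod.ext ?_ (Prod.ext ?_ (Prod.ext ?_ ?_)) <;> simp only [Evt.ζ] <;> ring

theorem vpa (h : Death c w lt rt pa pb H₁ H₂ H₃ H₄ E Q V) {s : ℝ} (hs : s < E.s₀) (u : ℝ) :
    c.vp w (c.sp sh) s (lin Q V E.s₀ s) V pa u =
      (E.x₀ + E.r * u, E.P₁ + E.g / 2 + (E.P₂ - E.P₁ - E.g) * sh.τ u, E.z₀ - E.ζ,
        E.F₀ + (s - E.s₀) * (E.z₀ - E.ζ) + (E.P₁ + E.g / 2) * (E.r * u)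
          + E.r * (E.P₂ - E.P₁ - E.g) * sh.ΘP u) := by
  obtain ⟨h1, h2, h3, h4⟩ := edge1 h hs
  obtain ⟨k1, k2, k3, k4⟩ := edge4 h hs
  unfold Comb.vp Comb.vpt Comb.dl
  simp only [Comb.sp, Shape.st, h.tya, h.aa, h.ab, h1, h2, h3, h4, k1, k2, lin1, h.hx, h.vxa, h.hw]
  refine Prod.ext ?_ (Prod.ext ?_ (Prod.ext ?_ ?_)) <;> simp only <;> ring

theorem vpb (h : Death c w lt rt pa pb H₁ H₂ H₃ H₄ E Q V) {s : ℝ} (hs : s < E.s₀) (u : ℝ) :
    c.vp w (c.sp sh) s (lin Q V E.s₀ s) V pb u =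
      (E.x₀ + E.r * u, E.P₁ - E.g / 2 + (E.P₂ - E.P₁ + E.g) * sh.τ u, E.z₀ + E.ζ,
        E.F₀ + (s - E.s₀) * (E.z₀ + E.ζ) + (E.P₁ - E.g / 2) * (E.r * u)
          + E.r * (E.P₂ - E.P₁ + E.g) * sh.ΘP u) := by
  obtain ⟨h1, h2, h3, h4⟩ := edge3 h hs
  obtain ⟨k1, k2, k3, k4⟩ := edge2 h hs
  unfold Comb.vp Comb.vpt Comb.dl
  simp only [Comb.sp, Shape.st, h.tyb, h.ba, h.bb, h1, h2, h3, h4, k1, k2, lin1, h.hx, h.vxb, h.hw]
  refine Prod.ext ?_ (Prod.ext ?_ (Prod.ext ?_ ?_)) <;> simp only <;> ring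

/-! ### the points of the surface near the maximum -/

theorem psi_low {U : ℝ} (hU : U ≤ -1) : sh.Psi U = -U := by
  unfold Shape.Psi
  rw [sh.ΘP_low U hU]
  ring

theorem psi_high {U : ℝ} (hU : 1 ≤ U) : sh.Psi U = U := by
  unfold Shape.Psi
  rw [sh.ΘP_high U hU]
  ring

/-- `U ≤ -1`: the piece of the left tip. -/
theorem ptl (hp : E.Pos) {u x : ℝ} (hU : (x - E.x₀) / E.r ≤ -1) :
    let s := (E.pt sh (-1) (-1) (u, x)).1
    x = E.x₀ + (s - E.s₀) * E.v - E.r * sh.ξ u ∧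
    E.pt sh (-1) (-1) (u, x) = (s, x, E.P₁ + E.g / 2 - E.g * sh.τ u,
        E.z₀ + E.ζ * (2 * sh.τ u - 1),
        E.F₀ + (s - E.s₀) * (E.z₀ - E.ζ)
          + (E.P₁ + E.g / 2) * ((s - E.s₀) * E.v - E.r * sh.ξ u) + E.r * E.g * sh.ΘR u) := by
  intro s
  have hr := hp.r.ne'
  have hv := hp.v.ne'
  have h1 := sh.τ_low _ hU
  have h2 := sh.ΘP_low _ hU
  have h3 := psi_low (sh := sh) hU
  have hs : s = E.s₀ + (E.r / E.v) * sh.ξ u + (E.r / E.v) * ((x - E.x₀) / E.r) := by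
    show E.s₀ + -1 * (-(E.r / E.v) * sh.ξ u - -1 * (E.r / E.v) * sh.Psi ((x - E.x₀) / E.r)) = _
    rw [h3]
    ring
  have hx : x = E.x₀ + (s - E.s₀) * E.v - E.r * sh.ξ u := by
    rw [hs]
    field_simp
    ring
  refine ⟨hx, ?_⟩
  show (s, x, -1 * -1 * (E.ζ * (2 * sh.τ u - 1)) * ((2 * sh.τ ((x - E.x₀) / E.r) - 1) / E.v)
      + E.P₁ + (E.P₂ - E.P₁) * sh.τ ((x - E.x₀) / E.r), E.z₀ + E.ζ * (2 * sh.τ u - 1),
      E.F₀ - -1 * (E.ζ * E.r / E.v) * (2 * sh.ΘR u - sh.ξ u) + E.P₁ * (x - E.x₀)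
      + (E.P₂ - E.P₁) * E.r * sh.ΘP ((x - E.x₀) / E.r) + E.z₀ * (s - E.s₀)) = _
  rw [h1, h2]
  refine Prod.ext rfl (Prod.ext rfl (Prod.ext ?_ (Prod.ext rfl ?_)))
  · simp only [Evt.ζ]
    field_simp
    ring
  · simp only [Evt.ζ]
    have : x - E.x₀ = (s - E.s₀) * E.v - E.r * sh.ξ u := by linarith
    rw [this]
    field_simp
    ring

/-- `1 ≤ U`: the piece of the right tip. -/
theorem ptr (hp : E.Pos) {u x : ℝ} (hU : 1 ≤ (x - E.x₀) / E.r) :
    let s := (E.pt sh (-1) (-1) (u, x)).1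
    x = E.x₀ - (s - E.s₀) * E.v + E.r * sh.ξ u ∧
    E.pt sh (-1) (-1) (u, x) = (s, x, E.P₂ - E.g / 2 + E.g * sh.τ u,
        E.z₀ + E.ζ * (2 * sh.τ u - 1),
        E.F₀ + (s - E.s₀) * (E.z₀ - E.ζ)
          + (E.P₂ - E.g / 2) * (-(s - E.s₀) * E.v + E.r * sh.ξ u) + E.r * E.g * sh.ΘR u) := by
  intro s
  have hr := hp.r.ne'
  have hv := hp.v.ne'
  have h1 := sh.τ_high _ hU
  have h2 := sh.ΘP_high _ hU
  have h3 := psi_high (sh := sh) hU
  have hs : s = E.s₀ + (E.r / E.v) * sh.ξ u - (E.r / E.v) * ((x - E.x₀) / E.r) := by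
    show E.s₀ + -1 * (-(E.r / E.v) * sh.ξ u - -1 * (E.r / E.v) * sh.Psi ((x - E.x₀) / E.r)) = _
    rw [h3]
    ring
  have hx : x = E.x₀ - (s - E.s₀) * E.v + E.r * sh.ξ u := by
    rw [hs]
    field_simp
    ring
  refine ⟨hx, ?_⟩
  show (s, x, -1 * -1 * (E.ζ * (2 * sh.τ u - 1)) * ((2 * sh.τ ((x - E.x₀) / E.r) - 1) / E.v)
      + E.P₁ + (E.P₂ - E.P₁) * sh.τ ((x - E.x₀) / E.r), E.z₀ + E.ζ * (2 * sh.τ u - 1),
      E.F₀ - -1 * (E.ζ * E.r / E.v) * (2 * sh.ΘR u - sh.ξ u) + E.P₁ * (x - E.x₀)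
      + (E.P₂ - E.P₁) * E.r * sh.ΘP ((x - E.x₀) / E.r) + E.z₀ * (s - E.s₀)) = _
  rw [h1, h2]
  refine Prod.ext rfl (Prod.ext rfl (Prod.ext ?_ (Prod.ext rfl ?_)))
  · simp only [Evt.ζ]
    field_simp
    ring
  · simp only [Evt.ζ]
    have h5 : (E.P₂ - E.P₁) * E.r * ((x - E.x₀) / E.r) = (E.P₂ - E.P₁) * (x - E.x₀) := by
      field_simp
    have : x - E.x₀ = -(s - E.s₀) * E.v + E.r * sh.ξ u := by linarith
    rw [h5, this]
    field_simp
    ring

/-- `u ≤ -1`: the piece of the first pass. -/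
theorem pta (hp : E.Pos) {u x : ℝ} (hu : u ≤ -1) :
    let s := (E.pt sh (-1) (-1) (u, x)).1
    E.pt sh (-1) (-1) (u, x) = (s, E.x₀ + E.r * ((x - E.x₀) / E.r),
        E.P₁ + E.g / 2 + (E.P₂ - E.P₁ - E.g) * sh.τ ((x - E.x₀) / E.r), E.z₀ - E.ζ,
        E.F₀ + (s - E.s₀) * (E.z₀ - E.ζ) + (E.P₁ + E.g / 2) * (E.r * ((x - E.x₀) / E.r))
          + E.r * (E.P₂ - E.P₁ - E.g) * sh.ΘP ((x - E.x₀) / E.r)) := by
  intro s
  have hr := hp.r.ne'
  have hv := hp.v.ne'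
  have h1 := sh.τ_low _ hu
  have h2 := sh.ΘR_low _ hu
  have h3 : sh.ξ u = u := by
    rw [sh.ξ_out u (by rw [abs_of_nonpos (by linarith)]; linarith),
      abs_of_nonpos (by linarith)]
    ring
  have hs : (s - E.s₀) = (E.r / E.v) * u -
      (E.r / E.v) * (2 * sh.ΘP ((x - E.x₀) / E.r) - (x - E.x₀) / E.r) := by
    show E.s₀ + -1 * (-(E.r / E.v) * sh.ξ u - -1 * (E.r / E.v) * sh.Psi ((x - E.x₀) / E.r))
      - E.s₀ = _
    rw [h3]
    unfold Shape.Psi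
    ring
  show (s, x, -1 * -1 * (E.ζ * (2 * sh.τ u - 1)) * ((2 * sh.τ ((x - E.x₀) / E.r) - 1) / E.v)
      + E.P₁ + (E.P₂ - E.P₁) * sh.τ ((x - E.x₀) / E.r), E.z₀ + E.ζ * (2 * sh.τ u - 1),
      E.F₀ - -1 * (E.ζ * E.r / E.v) * (2 * sh.ΘR u - sh.ξ u) + E.P₁ * (x - E.x₀)
      + (E.P₂ - E.P₁) * E.r * sh.ΘP ((x - E.x₀) / E.r) + E.z₀ * (s - E.s₀)) = _
  rw [h1, h2, h3]
  have hx : E.r * ((x - E.x₀) / E.r) = x - E.x₀ := by field_simp
  refine Prod.ext rfl (Prod.ext ?_ (Prod.ext ?_ (Prod.ext ?_ ?_)))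
  · simp only [hx]
    ring
  · simp only [Evt.ζ]
    field_simp
    ring
  · simp only
    ring
  · simp only [Evt.ζ, hx, hs]
    generalize sh.ΘP ((x - E.x₀) / E.r) = A
    field_simp
    ring

/-- `1 ≤ u`: the piece of the second pass. -/
theorem ptb (hp : E.Pos) {u x : ℝ} (hu : 1 ≤ u) :
    let s := (E.pt sh (-1) (-1) (u, x)).1
    E.pt sh (-1) (-1) (u, x) = (s, E.x₀ + E.r * ((x - E.x₀) / E.r),
        E.P₁ - E.g / 2 + (E.P₂ - E.P₁ + E.g) * sh.τ ((x - E.x₀) / E.r), E.z₀ + E.ζ,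
        E.F₀ + (s - E.s₀) * (E.z₀ + E.ζ) + (E.P₁ - E.g / 2) * (E.r * ((x - E.x₀) / E.r))
          + E.r * (E.P₂ - E.P₁ + E.g) * sh.ΘP ((x - E.x₀) / E.r)) := by
  intro s
  have hr := hp.r.ne'
  have hv := hp.v.ne'
  have h1 := sh.τ_high _ hu
  have h2 := sh.ΘR_high _ hu
  have h3 : sh.ξ u = -u := by
    rw [sh.ξ_out u (by rw [abs_of_nonneg (by linarith)]; linarith),
      abs_of_nonneg (by linarith)]
  have hs : (s - E.s₀) = -(E.r / E.v) * u -
      (E.r / E.v) * (2 * sh.ΘP ((x - E.x₀) / E.r) - (x - E.x₀) / E.r) := by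
    show E.s₀ + -1 * (-(E.r / E.v) * sh.ξ u - -1 * (E.r / E.v) * sh.Psi ((x - E.x₀) / E.r))
      - E.s₀ = _
    rw [h3]
    unfold Shape.Psi
    ring
  show (s, x, -1 * -1 * (E.ζ * (2 * sh.τ u - 1)) * ((2 * sh.τ ((x - E.x₀) / E.r) - 1) / E.v)
      + E.P₁ + (E.P₂ - E.P₁) * sh.τ ((x - E.x₀) / E.r), E.z₀ + E.ζ * (2 * sh.τ u - 1),
      E.F₀ - -1 * (E.ζ * E.r / E.v) * (2 * sh.ΘR u - sh.ξ u) + E.P₁ * (x - E.x₀)
      + (E.P₂ - E.P₁) * E.r * sh.ΘP ((x - E.x₀) / E.r) + E.z₀ * (s - E.s₀)) = _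
  rw [h1, h2, h3]
  have hx : E.r * ((x - E.x₀) / E.r) = x - E.x₀ := by field_simp
  refine Prod.ext rfl (Prod.ext ?_ (Prod.ext ?_ (Prod.ext ?_ ?_)))
  · simp only [hx]
    ring
  · simp only [Evt.ζ]
    field_simp
    ring
  · simp only
    ring
  · simp only [Evt.ζ, hx, hs]
    generalize sh.ΘP ((x - E.x₀) / E.r) = A
    field_simp
    ring

theorem time (E : Evt) (sh : Shape) (u x : ℝ) : (E.pt sh (-1) (-1) (u, x)).1 =
    E.s₀ + (E.r / E.v) * (sh.ξ u - sh.Psi ((x - E.x₀) / E.r)) := by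
  show E.s₀ + -1 * (-(E.r / E.v) * sh.ξ u - -1 * (E.r / E.v) * sh.Psi ((x - E.x₀) / E.r)) = _
  ring

theorem xi_bd (sh : Shape) {u : ℝ} (hu : |u| ≤ 2) : |sh.ξ u| ≤ 2 := by
  by_cases h : |u| ≤ 1
  · exact (sh.ξ_in u h).trans (by norm_num)
  · rw [sh.ξ_out u (not_le.1 h).le, abs_neg, abs_abs]
    exact hu

theorem xi_low (sh : Shape) {u : ℝ} (hu : u ≤ -1) : sh.ξ u = u := by
  rw [sh.ξ_out u (by rw [abs_of_nonpos (by linarith)]; linarith), abs_of_nonpos (by linarith)]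
  ring

theorem xi_high (sh : Shape) {u : ℝ} (hu : 1 ≤ u) : sh.ξ u = -u := by
  rw [sh.ξ_out u (by rw [abs_of_nonneg (by linarith)]; linarith), abs_of_nonneg (by linarith)]

theorem psi_bd (sh : Shape) {U : ℝ} (hU : |U| ≤ 2) : sh.Psi U ≤ 6 := by
  have h1 := (abs_le.1 (sh.ΘP_bd U hU)).2
  have h2 := (abs_le.1 hU).1
  unfold Shape.Psi
  linarith

/-- From the surface to the polygon. -/
theorem fwd (h : Death c w lt rt pa pb H₁ H₂ H₃ H₄ E Q V) {u x : ℝ}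
    (hs8 : (E.pt sh (-1) (-1) (u, x)).1 < E.s₀ - 8 * E.r / E.v) :
    (E.pt sh (-1) (-1) (u, x)).2 ∈ c.slice w (c.sp sh) (E.pt sh (-1) (-1) (u, x)).1
      (lin Q V E.s₀ (E.pt sh (-1) (-1) (u, x)).1) V := by
  have hr := h.pos.r
  have hv := h.pos.v
  have hpos : 0 < 8 * E.r / E.v := by positivity
  have htime := time E sh u x
  have hs : (E.pt sh (-1) (-1) (u, x)).1 < E.s₀ := by linarith
  have h8 : 8 < sh.Psi ((x - E.x₀) / E.r) - sh.ξ u := by
    have h1 : (E.r / E.v) * 8 < (E.r / E.v) * (sh.Psi ((x - E.x₀) / E.r) - sh.ξ u) := by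
      have h2 : (E.r / E.v) * 8 = 8 * E.r / E.v := by ring
      rw [h2]
      linarith
    exact lt_of_mul_lt_mul_left h1 (by positivity)
  have hxU : x = E.x₀ + E.r * ((x - E.x₀) / E.r) := by field_simp; ring
  by_cases hU2 : |(x - E.x₀) / E.r| ≤ 2
  · have h6 := psi_bd sh hU2
    have hu1 : ¬ |u| ≤ 1 := by
      intro h1
      have := (abs_le.1 (sh.ξ_in u h1)).1
      linarith
    rcases le_or_gt 0 u with hu | hu
    · rw [abs_of_nonneg hu] at hu1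
      have h1u : 1 ≤ u := (not_le.1 hu1).le
      refine Or.inr ⟨pb, (x - E.x₀) / E.r, hU2, ?_⟩
      rw [vpb h hs]
      exact congrArg Prod.snd (ptb h.pos (sh := sh) (x := x) h1u)
    · rw [abs_of_neg hu] at hu1
      have h1u : u ≤ -1 := by linarith
      refine Or.inr ⟨pa, (x - E.x₀) / E.r, hU2, ?_⟩
      rw [vpa h hs]
      exact congrArg Prod.snd (pta h.pos (sh := sh) (x := x) h1u)
  · rcases le_or_gt 0 ((x - E.x₀) / E.r) with hU | hU
    · rw [abs_of_nonneg hU] at hU2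
      have h2U : 2 < (x - E.x₀) / E.r := not_le.1 hU2
      have hx2 : E.x₀ + 2 * E.r ≤ x := by
        rw [lt_div_iff₀ hr] at h2U
        linarith
      obtain ⟨hx, hpt⟩ := ptr h.pos (sh := sh) (u := u) (x := x) (by linarith)
      have hpt2 := congrArg Prod.snd hpt
      by_cases hu2 : |u| ≤ 2
      · refine Or.inr ⟨rt, u, hu2, ?_⟩
        rw [vpr h hs, hpt2, ← hx]
      · rcases le_or_gt 0 u with hu | hu
        · rw [abs_of_nonneg hu] at hu2
          have h1u : 1 ≤ u := by linarith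
          have e1 := xi_high sh h1u
          have e2 := sh.τ_high u h1u
          have e3 := sh.ΘR_high u h1u
          rw [e1] at hx
          refine Or.inl ⟨H₂, x, ?_, ?_⟩
          · unfold Comb.rg
            rw [lfH2 h, rtH2 h, lin1, lin1, h.hx, h.hx, h.vxb, h.vxr, h.hw, h.hw]
            constructor
            · linarith
            · nlinarith
          · rw [ept2 h hs, hpt2]
            refine Prod.ext rfl (Prod.ext ?_ (Prod.ext ?_ ?_))
            · simp only [e2]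
              ring
            · simp only [e2]
              ring
            · simp only [e1, e3]
              have h7 : x - E.x₀ = -((E.pt sh (-1) (-1) (u, x)).1 - E.s₀) * E.v - E.r * u := by
                linarith
              rw [h7]
              unfold Evt.ζ
              ring
        · rw [abs_of_neg hu] at hu2
          have h1u : u ≤ -1 := by linarith
          have e1 := xi_low sh h1u
          have e2 := sh.τ_low u h1u
          have e3 := sh.ΘR_low u h1u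
          rw [e1] at hx
          refine Or.inl ⟨H₄, x, ?_, ?_⟩
          · unfold Comb.rg
            rw [lfH4 h, rtH4 h, lin1, lin1, h.hx, h.hx, h.vxa, h.vxr, h.hw, h.hw]
            constructor
            · linarith
            · nlinarith
          · rw [ept4 h hs, hpt2]
            refine Prod.ext rfl (Prod.ext ?_ (Prod.ext ?_ ?_))
            · simp only [e2]
              ring
            · simp only [e2]
              ring
            · simp only [e1, e3]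
              have h7 : x - E.x₀ = -((E.pt sh (-1) (-1) (u, x)).1 - E.s₀) * E.v + E.r * u := by
                linarith
              rw [h7]
              ring
    · rw [abs_of_neg hU] at hU2
      have h2U : (x - E.x₀) / E.r < -2 := by linarith
      have hx2 : x ≤ E.x₀ - 2 * E.r := by
        rw [div_lt_iff₀ hr] at h2U
        linarith
      obtain ⟨hx, hpt⟩ := ptl h.pos (sh := sh) (u := u) (x := x) (by linarith)
      have hpt2 := congrArg Prod.snd hpt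
      by_cases hu2 : |u| ≤ 2
      · refine Or.inr ⟨lt, u, hu2, ?_⟩
        rw [vpl h hs, hpt2, ← hx]
      · rcases le_or_gt 0 u with hu | hu
        · rw [abs_of_nonneg hu] at hu2
          have h1u : 1 ≤ u := by linarith
          have e1 := xi_high sh h1u
          have e2 := sh.τ_high u h1u
          have e3 := sh.ΘR_high u h1u
          rw [e1] at hx
          refine Or.inl ⟨H₃, x, ?_, ?_⟩
          · unfold Comb.rg
            rw [lfH3 h, rtH3 h, lin1, lin1, h.hx, h.hx, h.vxb, h.vxl, h.hw, h.hw]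
            constructor
            · nlinarith
            · linarith
          · rw [ept3 h hs, hpt2]
            refine Prod.ext rfl (Prod.ext ?_ (Prod.ext ?_ ?_))
            · simp only [e2]
              ring
            · simp only [e2]
              ring
            · simp only [e1, e3]
              have h7 : x - E.x₀ = ((E.pt sh (-1) (-1) (u, x)).1 - E.s₀) * E.v + E.r * u := by
                linarith
              rw [h7]
              unfold Evt.ζ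
              ring
        · rw [abs_of_neg hu] at hu2
          have h1u : u ≤ -1 := by linarith
          have e1 := xi_low sh h1u
          have e2 := sh.τ_low u h1u
          have e3 := sh.ΘR_low u h1u
          rw [e1] at hx
          refine Or.inl ⟨H₁, x, ?_, ?_⟩
          · unfold Comb.rg
            rw [lfH1 h, rtH1 h, lin1, lin1, h.hx, h.hx, h.vxa, h.vxl, h.hw, h.hw]
            constructor
            · nlinarith
            · linarith
          · rw [ept1 h hs, hpt2]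
            refine Prod.ext rfl (Prod.ext ?_ (Prod.ext ?_ ?_))
            · simp only [e2]
              ring
            · simp only [e2]
              ring
            · simp only [e1, e3]
              have h7 : x - E.x₀ = ((E.pt sh (-1) (-1) (u, x)).1 - E.s₀) * E.v - E.r * u := by
                linarith
              rw [h7]
              ring

/-- The point of the surface on the piece of the left tip. -/
theorem bwdl (h : Death c w lt rt pa pb H₁ H₂ H₃ H₄ E Q V) {s u : ℝ}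
    (hU : (s - E.s₀) * E.v - E.r * sh.ξ u ≤ -E.r) :
    E.pt sh (-1) (-1) (u, E.x₀ + (s - E.s₀) * E.v - E.r * sh.ξ u) =
      (s, E.x₀ + (s - E.s₀) * E.v - E.r * sh.ξ u, E.P₁ + E.g / 2 - E.g * sh.τ u,
        E.z₀ + E.ζ * (2 * sh.τ u - 1),
        E.F₀ + (s - E.s₀) * (E.z₀ - E.ζ)
          + (E.P₁ + E.g / 2) * ((s - E.s₀) * E.v - E.r * sh.ξ u) + E.r * E.g * sh.ΘR u) := by
  have hr := h.pos.r
  have hv := h.pos.v
  have hU' : (E.x₀ + (s - E.s₀) * E.v - E.r * sh.ξ u - E.x₀) / E.r ≤ -1 := by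
    rw [div_le_iff₀ hr]
    linarith
  obtain ⟨hx, hpt⟩ := ptl h.pos (sh := sh) (u := u) hU'
  have hst : (E.pt sh (-1) (-1) (u, E.x₀ + (s - E.s₀) * E.v - E.r * sh.ξ u)).1 = s := by
    have h1 : ((E.pt sh (-1) (-1) (u, E.x₀ + (s - E.s₀) * E.v - E.r * sh.ξ u)).1 - s) * E.v = 0 := by
      linarith
    rcases mul_eq_zero.1 h1 with h2 | h2
    · linarith
    · exact absurd h2 hv.ne'
  rw [hst] at hpt
  exact hpt

/-- The point of the surface on the piece of the right tip. -/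
theorem bwdr (h : Death c w lt rt pa pb H₁ H₂ H₃ H₄ E Q V) {s u : ℝ}
    (hU : E.r ≤ -(s - E.s₀) * E.v + E.r * sh.ξ u) :
    E.pt sh (-1) (-1) (u, E.x₀ - (s - E.s₀) * E.v + E.r * sh.ξ u) =
      (s, E.x₀ - (s - E.s₀) * E.v + E.r * sh.ξ u, E.P₂ - E.g / 2 + E.g * sh.τ u,
        E.z₀ + E.ζ * (2 * sh.τ u - 1),
        E.F₀ + (s - E.s₀) * (E.z₀ - E.ζ)
          + (E.P₂ - E.g / 2) * (-(s - E.s₀) * E.v + E.r * sh.ξ u) + E.r * E.g * sh.ΘR u) := by
  have hr := h.pos.r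
  have hv := h.pos.v
  have hU' : 1 ≤ (E.x₀ - (s - E.s₀) * E.v + E.r * sh.ξ u - E.x₀) / E.r := by
    rw [le_div_iff₀ hr]
    linarith
  obtain ⟨hx, hpt⟩ := ptr h.pos (sh := sh) (u := u) hU'
  have hst : (E.pt sh (-1) (-1) (u, E.x₀ - (s - E.s₀) * E.v + E.r * sh.ξ u)).1 = s := by
    have h1 : ((E.pt sh (-1) (-1) (u, E.x₀ - (s - E.s₀) * E.v + E.r * sh.ξ u)).1 - s) * E.v = 0 := by
      linarith
    rcases mul_eq_zero.1 h1 with h2 | h2
    · linarith
    · exact absurd h2 hv.ne'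
  rw [hst] at hpt
  exact hpt

/-- From the polygon to the surface. -/
theorem bwd (h : Death c w lt rt pa pb H₁ H₂ H₃ H₄ E Q V) {s : ℝ}
    (hs8 : s < E.s₀ - 8 * E.r / E.v) {y : ℝ × ℝ × ℝ × ℝ}
    (hy : y ∈ c.slice w (c.sp sh) s (lin Q V E.s₀ s) V) :
    (s, y) ∈ E.set sh (-1) (-1) := by
  have hr := h.pos.r
  have hv := h.pos.v
  have hpos : 0 < 8 * E.r / E.v := by positivity
  have hs : s < E.s₀ := by linarith
  have h8 : (s - E.s₀) * E.v < -(8 * E.r) := by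
    have h1 : s - E.s₀ < -(8 * E.r) / E.v := by
      rw [neg_div]
      linarith
    rwa [lt_div_iff₀ hv] at h1
  rcases hy with ⟨e, x, hx, rfl⟩ | ⟨i, u, hu, rfl⟩
  · rcases h.edge e with rfl | rfl | rfl | rfl
    · unfold Comb.rg at hx
      rw [lfH1 h, rtH1 h, lin1, lin1, h.hx, h.hx, h.vxa, h.vxl, h.hw, h.hw] at hx
      obtain ⟨hx1, hx2⟩ := hx
      have hru : E.r * ((E.x₀ + (s - E.s₀) * E.v - x) / E.r) = E.x₀ + (s - E.s₀) * E.v - x := by
        field_simp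
      have hu1 : (E.x₀ + (s - E.s₀) * E.v - x) / E.r ≤ -1 := by
        rw [div_le_iff₀ hr]
        linarith
      have e1 := xi_low sh hu1
      have e2 := sh.τ_low _ hu1
      have e3 := sh.ΘR_low _ hu1
      have hb := bwdl h (sh := sh) (s := s) (u := (E.x₀ + (s - E.s₀) * E.v - x) / E.r)
        (by rw [e1, hru]; linarith)
      rw [ept1 h hs]
      refine ⟨_, hb.trans ?_⟩
      rw [e1, e2, e3, hru]
      refine Prod.ext rfl (Prod.ext ?_ (Prod.ext ?_ (Prod.ext ?_ ?_))) <;> simp only <;> ring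
    · unfold Comb.rg at hx
      rw [lfH2 h, rtH2 h, lin1, lin1, h.hx, h.hx, h.vxb, h.vxr, h.hw, h.hw] at hx
      obtain ⟨hx1, hx2⟩ := hx
      have hru : E.r * ((E.x₀ - (s - E.s₀) * E.v - x) / E.r) = E.x₀ - (s - E.s₀) * E.v - x := by
        field_simp
      have hu1 : 1 ≤ (E.x₀ - (s - E.s₀) * E.v - x) / E.r := by
        rw [le_div_iff₀ hr]
        linarith
      have e1 := xi_high sh hu1
      have e2 := sh.τ_high _ hu1
      have e3 := sh.ΘR_high _ hu1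
      have hb := bwdr h (sh := sh) (s := s) (u := (E.x₀ - (s - E.s₀) * E.v - x) / E.r)
        (by rw [e1, mul_neg, hru]; linarith)
      rw [ept2 h hs]
      refine ⟨_, hb.trans ?_⟩
      rw [e1, e2, e3]
      refine Prod.ext rfl (Prod.ext ?_ (Prod.ext ?_ (Prod.ext ?_ ?_)))
      · simp only [mul_neg, hru]
        ring
      · simp only
        ring
      · simp only
        ring
      · simp only [mul_neg, hru]
        have h9 : E.r * E.g * ((E.x₀ - (s - E.s₀) * E.v - x) / E.r) =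
            E.g * (E.x₀ - (s - E.s₀) * E.v - x) := by
          field_simp
        rw [h9]
        unfold Evt.ζ
        ring
    · unfold Comb.rg at hx
      rw [lfH3 h, rtH3 h, lin1, lin1, h.hx, h.hx, h.vxb, h.vxl, h.hw, h.hw] at hx
      obtain ⟨hx1, hx2⟩ := hx
      have hru : E.r * ((x - (E.x₀ + (s - E.s₀) * E.v)) / E.r) =
          x - (E.x₀ + (s - E.s₀) * E.v) := by
        field_simp
      have hu1 : 1 ≤ (x - (E.x₀ + (s - E.s₀) * E.v)) / E.r := by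
        rw [le_div_iff₀ hr]
        linarith
      have e1 := xi_high sh hu1
      have e2 := sh.τ_high _ hu1
      have e3 := sh.ΘR_high _ hu1
      have hb := bwdl h (sh := sh) (s := s) (u := (x - (E.x₀ + (s - E.s₀) * E.v)) / E.r)
        (by rw [e1, mul_neg, hru]; linarith)
      rw [ept3 h hs]
      refine ⟨_, hb.trans ?_⟩
      rw [e1, e2, e3]
      refine Prod.ext rfl (Prod.ext ?_ (Prod.ext ?_ (Prod.ext ?_ ?_)))
      · simp only [mul_neg, hru]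
        ring
      · simp only
        ring
      · simp only
        ring
      · simp only [mul_neg, hru]
        have h9 : E.r * E.g * ((x - (E.x₀ + (s - E.s₀) * E.v)) / E.r) =
            E.g * (x - (E.x₀ + (s - E.s₀) * E.v)) := by
          field_simp
        rw [h9]
        unfold Evt.ζ
        ring
    · unfold Comb.rg at hx
      rw [lfH4 h, rtH4 h, lin1, lin1, h.hx, h.hx, h.vxa, h.vxr, h.hw, h.hw] at hx
      obtain ⟨hx1, hx2⟩ := hx
      have hru : E.r * ((x - (E.x₀ - (s - E.s₀) * E.v)) / E.r) =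
          x - (E.x₀ - (s - E.s₀) * E.v) := by
        field_simp
      have hu1 : (x - (E.x₀ - (s - E.s₀) * E.v)) / E.r ≤ -1 := by
        rw [div_le_iff₀ hr]
        linarith
      have e1 := xi_low sh hu1
      have e2 := sh.τ_low _ hu1
      have e3 := sh.ΘR_low _ hu1
      have hb := bwdr h (sh := sh) (s := s) (u := (x - (E.x₀ - (s - E.s₀) * E.v)) / E.r)
        (by rw [e1, hru]; linarith)
      rw [ept4 h hs]
      refine ⟨_, hb.trans ?_⟩
      rw [e1, e2, e3, hru]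
      refine Prod.ext rfl (Prod.ext ?_ (Prod.ext ?_ (Prod.ext ?_ ?_))) <;> simp only <;> ring
  · rcases h.vert i with rfl | rfl | rfl | rfl
    · have hxi := abs_le.1 (xi_bd sh hu)
      rw [vpl h hs]
      exact ⟨_, bwdl h (by nlinarith [hxi.1])⟩
    · have hxi := abs_le.1 (xi_bd sh hu)
      rw [vpr h hs]
      exact ⟨_, bwdr h (by nlinarith [hxi.1])⟩
    · have h6 := psi_bd sh hu
      have hu1 : (s - E.s₀) * E.v / E.r + sh.Psi u ≤ -1 := by
        have : (s - E.s₀) * E.v / E.r < -8 := by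
          rw [div_lt_iff₀ hr]
          linarith
        linarith
      have hU : (E.x₀ + E.r * u - E.x₀) / E.r = u := by field_simp; ring
      have hpt := pta h.pos (sh := sh) (x := E.x₀ + E.r * u) hu1
      have hst : (E.pt sh (-1) (-1) ((s - E.s₀) * E.v / E.r + sh.Psi u, E.x₀ + E.r * u)).1 = s := by
        rw [time, xi_low sh hu1, hU]
        field_simp
        ring
      rw [hst, hU] at hpt
      rw [vpa h hs]
      exact ⟨_, hpt⟩
    · have h6 := psi_bd sh hu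
      have hu1 : 1 ≤ -((s - E.s₀) * E.v / E.r) - sh.Psi u := by
        have : (s - E.s₀) * E.v / E.r < -8 := by
          rw [div_lt_iff₀ hr]
          linarith
        linarith
      have hU : (E.x₀ + E.r * u - E.x₀) / E.r = u := by field_simp; ring
      have hpt := ptb h.pos (sh := sh) (x := E.x₀ + E.r * u) hu1
      have hst : (E.pt sh (-1) (-1) (-((s - E.s₀) * E.v / E.r) - sh.Psi u,
          E.x₀ + E.r * u)).1 = s := by
        rw [time, xi_high sh hu1, hU]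
        field_simp
        ring
      rw [hst, hU] at hpt
      rw [vpb h hs]
      exact ⟨_, hpt⟩

end DTA

set_option linter.unusedVariables false in
/-- DTA: before the maximum. -/
theorem t_DTA (hVLN : Stmt_VLN) : Stmt_DTA := by
  intro sh c w lt rt pa pb H₁ H₂ H₃ H₄ E Q V h q hq
  constructor
  · rintro ⟨⟨u, x⟩, rfl⟩
    show (E.pt sh (-1) (-1) (u, x)).2 ∈ c.slice w (c.sp sh) (E.pt sh (-1) (-1) (u, x)).1
      (lin Q V E.s₀ (E.pt sh (-1) (-1) (u, x)).1)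
      (deriv (lin Q V E.s₀) (E.pt sh (-1) (-1) (u, x)).1)
    rw [DTA.deriv_lin]
    exact DTA.fwd h hq
  · intro hy
    have hy' : q.2 ∈ c.slice w (c.sp sh) q.1 (lin Q V E.s₀ q.1) (deriv (lin Q V E.s₀) q.1) := hy
    rw [DTA.deriv_lin] at hy'
    exact DTA.bwd h hq hy'

end LCA
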