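import Pool.Agent.LCA.Stmts2

/-!
# The surface near a maximum is good
-/

namespace LCA

open Set Filter
open scoped ContDiff Topology

namespace DTG

theorem ThP_nonneg (sh : Shape) (U : ℝ) : 0 ≤ sh.ΘP U := by
  have hmono : Monotone sh.ΘP := by
    apply monotone_of_deriv_nonneg
    · exact fun x => (sh.ΘP_deriv x).differentiableAt
    · intro x
      rw [(sh.ΘP_deriv x).deriv]
      exact (sh.τ_mem x).1
  rcases le_total U (-1) with h | h
  · rw [sh.ΘP_low U h]
  · have := hmono h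
    rw [sh.ΘP_low (-1) le_rfl] at this
    exact this

theorem ThP_symm (sh : Shape) (U : ℝ) : sh.ΘP U - sh.ΘP (-U) - U = 0 := by
  have hd : ∀ x, HasDerivAt (fun y : ℝ => sh.ΘP y - sh.ΘP (-y) - y) 0 x := by
    intro x
    have h1 := sh.ΘP_deriv x
    have h2 : HasDerivAt (fun y : ℝ => sh.ΘP (-y)) (sh.τ (-x) * (-1)) x :=
      (sh.ΘP_deriv (-x)).comp x (hasDerivAt_neg x)
    have h3 := (h1.sub h2).sub (hasDerivAt_id x)
    have e : sh.τ x - sh.τ (-x) * (-1) - 1 = 0 := by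
      rw [sh.τ_symm x]; ring
    rw [e] at h3
    exact h3
  have hc : ∀ x y : ℝ, (fun y : ℝ => sh.ΘP y - sh.ΘP (-y) - y) x =
      (fun y : ℝ => sh.ΘP y - sh.ΘP (-y) - y) y := by
    apply is_const_of_deriv_eq_zero
    · exact fun x => (hd x).differentiableAt
    · exact fun x => (hd x).deriv
  have h := hc U 1
  simp only at h
  rw [h, sh.ΘP_high 1 le_rfl, sh.ΘP_low (-1) le_rfl]
  ring

theorem Psi_eq (sh : Shape) (U : ℝ) : sh.Psi U = sh.ΘP U + sh.ΘP (-U) := by
  have := ThP_symm sh U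
  unfold Shape.Psi
  linarith

theorem Psi_nonneg (sh : Shape) (U : ℝ) : 0 ≤ sh.Psi U := by
  rw [Psi_eq]
  exact add_nonneg (ThP_nonneg sh _) (ThP_nonneg sh _)

theorem Psi_out (sh : Shape) (U : ℝ) (h : 1 ≤ |U|) : sh.Psi U = |U| := by
  rw [Psi_eq]
  rcases le_or_gt 0 U with h0 | h0
  · rw [abs_of_nonneg h0] at h ⊢
    rw [sh.ΘP_high U h, sh.ΘP_low (-U) (by linarith)]
    ring
  · rw [abs_of_neg h0] at h ⊢
    rw [sh.ΘP_low U (by linarith), sh.ΘP_high (-U) h]
    ring

theorem abs_le_Psi (sh : Shape) (U : ℝ) : |U| ≤ max 1 (sh.Psi U) := by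
  rcases le_total |U| 1 with h | h
  · exact le_max_of_le_left h
  · rw [Psi_out sh U h]
    exact le_max_right _ _

theorem xi_le (sh : Shape) (u : ℝ) : sh.ξ u ≤ 1 := by
  rcases le_total |u| 1 with h | h
  · exact (abs_le.1 (sh.ξ_in u h)).2
  · rw [sh.ξ_out u h]
    linarith

theorem xi_abs (sh : Shape) (u : ℝ) : sh.ξ |u| = sh.ξ u := by
  rcases abs_choice u with h | h
  · rw [h]
  · rw [h, sh.ξ_even]

theorem xi_anti (sh : Shape) {u w : ℝ} (h : |u| ≤ |w|) : sh.ξ w ≤ sh.ξ u := by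
  rw [← xi_abs sh u, ← xi_abs sh w]
  exact sh.ξ_anti.antitoneOn (abs_nonneg u) (abs_nonneg w) h

/-- The time of the point with the parameters `(u, x)`. -/
theorem pt_time (E : Evt) (sh : Shape) (a : ℝ × ℝ) :
    (E.pt sh (-1) (-1) a).1 =
      E.s₀ + (E.r / E.v) * sh.ξ a.1 - (E.r / E.v) * sh.Psi ((a.2 - E.x₀) / E.r) := by
  simp only [Evt.pt]
  ring

theorem pt_x (E : Evt) (sh : Shape) (ε₁ ε₂ : ℝ) (a : ℝ × ℝ) :
    (E.pt sh ε₁ ε₂ a).2.1 = a.2 := rfl

theorem pt_cont {E : Evt} {sh : Shape} {ε₁ ε₂ : ℝ}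
    (h : ∀ a, ExactChart (E.pt sh ε₁ ε₂) a) : Continuous (E.pt sh ε₁ ε₂) := by
  rw [continuous_iff_continuousAt]
  intro a
  exact ((h a).smooth.self_of_nhds).continuousAt

theorem down (E : Evt) (sh : Shape) (J : Set ℝ) (hE : E.Pos) (hJ : J.OrdConnected)
    (hc : Continuous (E.pt sh (-1) (-1))) : Down J (E.set sh (-1) (-1)) := by
  intro q hq hqJ c hcJ hcq
  obtain ⟨⟨u, x⟩, rfl⟩ := hq
  have hk : 0 < E.r / E.v := div_pos hE.r hE.v
  set k := E.r / E.v with hkdef
  set B := k * sh.Psi ((x - E.x₀) / E.r) with hB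
  have htime : ∀ w : ℝ, (E.pt sh (-1) (-1) (w, x)).1 = E.s₀ + k * sh.ξ w - B := by
    intro w
    rw [pt_time]
  rw [htime] at hcq hqJ
  -- the end of the path
  obtain ⟨w, hw1, hw2⟩ : ∃ w, |u| ≤ w ∧ E.s₀ + k * sh.ξ w - B = c := by
    set W := max (max |u| 1) ((E.s₀ - B - c) / k) with hW
    have hWu : |u| ≤ W := (le_max_left _ _).trans (le_max_left _ _)
    have hW1 : 1 ≤ W := (le_max_right _ _).trans (le_max_left _ _)
    have hWc : (E.s₀ - B - c) / k ≤ W := le_max_right _ _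
    have hxiW : sh.ξ W = -W := by
      rw [sh.ξ_out W (by rw [abs_of_nonneg (by linarith)]; exact hW1),
        abs_of_nonneg (by linarith)]
    have hfc : ContinuousOn (fun w => E.s₀ + k * sh.ξ w - B) (Icc |u| W) := by
      apply Continuous.continuousOn
      have := sh.ξ_smooth.continuous
      fun_prop
    have hmem : c ∈ Icc ((fun w => E.s₀ + k * sh.ξ w - B) W)
        ((fun w => E.s₀ + k * sh.ξ w - B) |u|) := by
      constructor
      · simp only
        rw [hxiW]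
        rw [div_le_iff₀ hk] at hWc
        nlinarith
      · simp only
        rw [xi_abs]
        exact hcq
    obtain ⟨w, hw, hw'⟩ := intermediate_value_Icc' hWu hfc hmem
    exact ⟨w, hw.1, hw'⟩
  obtain ⟨u', hu'1, hu'2⟩ : ∃ u', (∀ y ∈ segment ℝ u u', |u| ≤ |y| ∧ |y| ≤ w) ∧ |u'| = w := by
    have hw0 : 0 ≤ w := (abs_nonneg u).trans hw1
    rcases le_or_gt 0 u with h0 | h0
    · refine ⟨w, ?_, abs_of_nonneg hw0⟩
      intro y hy
      rw [abs_of_nonneg h0] at hw1 ⊢
      rw [segment_eq_Icc hw1] at hy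
      rw [abs_of_nonneg (h0.trans hy.1)]
      exact hy
    · refine ⟨-w, ?_, by rw [abs_neg]; exact abs_of_nonneg hw0⟩
      intro y hy
      rw [abs_of_neg h0] at hw1 ⊢
      rw [segment_symm, segment_eq_Icc (by linarith : -w ≤ u)] at hy
      have hy1 := hy.1
      have hy2 := hy.2
      rw [abs_of_neg (by linarith : y < 0)]
      constructor <;> linarith
  have hu'c : E.s₀ + k * sh.ξ u' - B = c := by
    rw [← xi_abs sh u', hu'2]
    exact hw2
  refine ⟨E.pt sh (-1) (-1) (u', x), mem_range_self _, ?_, ?_⟩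
  · rw [htime]
    exact hu'c
  · have hpc : IsPathConnected ((fun y : ℝ => E.pt sh (-1) (-1) (y, x)) '' segment ℝ u u') := by
      apply IsPathConnected.image
      · exact (convex_segment u u').isPathConnected ⟨u, left_mem_segment ℝ u u'⟩
      · exact hc.comp (by fun_prop)
    have hj := hpc.joinedIn (E.pt sh (-1) (-1) (u, x)) ⟨u, left_mem_segment ℝ u u', rfl⟩
      (E.pt sh (-1) (-1) (u', x)) ⟨u', right_mem_segment ℝ u u', rfl⟩
    apply hj.mono
    rintro _ ⟨y, hy, rfl⟩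
    refine ⟨mem_range_self _, ?_⟩
    obtain ⟨hy1, hy2⟩ := hu'1 y hy
    show (E.pt sh (-1) (-1) (y, x)).1 ∈ Icc c (E.pt sh (-1) (-1) (u, x)).1
    rw [htime, htime]
    constructor
    · rw [← hu'c]
      have := xi_anti sh (u := y) (w := u') (by rw [hu'2]; exact hy2)
      nlinarith
    · have := xi_anti sh (u := u) (w := y) hy1
      nlinarith

end DTG

theorem t_DTG (hECH : Stmt_ECH) : Stmt_DTG := by
  intro sh E J hE hJo hJc
  obtain ⟨h1, h2, h3, h4, h5⟩ := hECH E sh (-1) (-1) hE (by norm_num) (by norm_num)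
  have hk : 0 < E.r / E.v := div_pos hE.r hE.v
  refine ⟨?_, DTG.down E sh J hE hJc (DTG.pt_cont h1), ?_⟩
  · constructor
    · intro q hq _
      rwa [h2.closure_eq] at hq
    · intro K hK hKc
      obtain ⟨M₁, hM₁⟩ := hKc.isBounded.exists_norm_le
      set B := (E.s₀ + M₁ + E.r / E.v) / (E.r / E.v) with hB
      set X := |E.x₀| + E.r * max 1 B with hX
      obtain ⟨M', hM'⟩ := h5 (max M₁ X)
      refine ⟨M', ?_⟩
      intro q hq hqK
      have hs : |q.1| ≤ M₁ := by
        have := hM₁ q.1 hqK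
        rwa [Real.norm_eq_abs] at this
      refine hM' q hq (hs.trans (le_max_left _ _)) ?_
      refine le_trans ?_ (le_max_right _ _)
      obtain ⟨⟨u, x⟩, rfl⟩ := hq
      rw [DTG.pt_time] at hs
      rw [DTG.pt_x]
      have hxi := DTG.xi_le sh u
      have hxi2 : E.r / E.v * sh.ξ u ≤ E.r / E.v := by nlinarith
      have hP : sh.Psi ((x - E.x₀) / E.r) ≤ B := by
        rw [hB, le_div_iff₀ hk]
        have := (abs_le.1 hs).1
        simp only at this
        nlinarith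
      have hU := DTG.abs_le_Psi sh ((x - E.x₀) / E.r)
      have hU2 : |(x - E.x₀) / E.r| ≤ max 1 B := hU.trans (max_le_max le_rfl hP)
      rw [abs_div, abs_of_pos hE.r, div_le_iff₀ hE.r] at hU2
      have hx : |x| ≤ |x - E.x₀| + |E.x₀| := by
        have := abs_add_le (x - E.x₀) E.x₀
        simpa using this
      simp only
      rw [hX]
      nlinarith
    · intro q hq _
      exact h3 q hq
    · intro q hq q' hq' _ e1 e2 e3 e4
      obtain ⟨a, rfl⟩ := hq
      obtain ⟨b, rfl⟩ := hq'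
      have := h4 a b (by
        unfold pr4
        rw [e1, e2, e3, e4])
      rw [this]
  · intro q hq
    obtain ⟨⟨u, x⟩, rfl⟩ := hq
    rw [DTG.pt_time]
    have hxi := DTG.xi_le sh u
    have hP := DTG.Psi_nonneg sh ((x - E.x₀) / E.r)
    have h6 : E.r / E.v * sh.ξ u ≤ E.r / E.v := by nlinarith
    have h7 : 0 ≤ E.r / E.v * sh.Psi ((x - E.x₀) / E.r) := by positivity
    simp only
    linarith

end LCA
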