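import Pool.Agent.LCA.Stmts1

/-!
# Part A: critical points
-/

namespace LCA

open Set Filter
open scoped ContDiff Topology

variable {m n : ℕ}

/-! ### the events -/

/-- The data of a critical point: time, position, value of `F`, value of `z`, mean slopes on the
left and on the right, gap, speed of the tips, width. -/
structure Evt where
  s₀ : ℝ
  x₀ : ℝ
  F₀ : ℝ
  z₀ : ℝ
  P₁ : ℝ
  P₂ : ℝ
  g : ℝ
  v : ℝ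
  r : ℝ

/-- The constants are positive. -/
structure Evt.Pos (E : Evt) : Prop where
  g : 0 < E.g
  v : 0 < E.v
  r : 0 < E.r

/-- Half of the difference of the values of `z` on the two strands. -/
noncomputable def Evt.ζ (E : Evt) : ℝ := E.g * E.v / 2

/-- The function `Ψ(U) = 2 ΘP(U) - U`, which is `|U|` for `|U| ≥ 1`. -/
def Shape.Psi (sh : Shape) (U : ℝ) : ℝ := 2 * sh.ΘP U - U

/-- The point of the surface near a critical point, with the parameters `(u, x)`; `(ε₁, ε₂)` is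
`(1, 1)` and `(-1, 1)` for the two saddles and `(-1, -1)` for a maximum. -/
noncomputable def Evt.pt (E : Evt) (sh : Shape) (ε₁ ε₂ : ℝ) (a : ℝ × ℝ) : E5 :=
  let U := (a.2 - E.x₀) / E.r
  let s := E.s₀ + ε₁ * (-(E.r / E.v) * sh.ξ a.1 - ε₂ * (E.r / E.v) * sh.Psi U)
  let zb := E.ζ * (2 * sh.τ a.1 - 1)
  (s, a.2, ε₁ * ε₂ * zb * ((2 * sh.τ U - 1) / E.v) + E.P₁ + (E.P₂ - E.P₁) * sh.τ U, E.z₀ + zb,
    E.F₀ - ε₁ * (E.ζ * E.r / E.v) * (2 * sh.ΘR a.1 - sh.ξ a.1) + E.P₁ * (a.2 - E.x₀)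
      + (E.P₂ - E.P₁) * E.r * sh.ΘP U + E.z₀ * (s - E.s₀))

/-- The surface near a critical point. -/
def Evt.set (E : Evt) (sh : Shape) (ε₁ ε₂ : ℝ) : Set E5 := range (E.pt sh ε₁ ε₂)

/-- ECH: the surface near a critical point is properly embedded and exact. -/
def Stmt_ECH : Prop :=
  ∀ (E : Evt) (sh : Shape) (ε₁ ε₂ : ℝ), E.Pos → |ε₁| = 1 → |ε₂| = 1 →
    (∀ a, ExactChart (E.pt sh ε₁ ε₂) a) ∧ IsClosed (E.set sh ε₁ ε₂) ∧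
    (∀ q ∈ E.set sh ε₁ ε₂, ChartAt (E.set sh ε₁ ε₂) q) ∧
    (∀ a b, pr4 (E.pt sh ε₁ ε₂ a) = pr4 (E.pt sh ε₁ ε₂ b) → a = b) ∧
    ∀ M : ℝ, ∃ M' : ℝ, ∀ q ∈ E.set sh ε₁ ε₂, |q.1| ≤ M → |q.2.1| ≤ M → ‖q.2‖ ≤ M'

/-- The combinatorics of a saddle: before, the edges `H₁` (left, upper) and `H₃` (left, lower) meet
at the right tip `L`, the edges `H₂` (right, upper) and `H₄` (right, lower) meet at the left tip
`R`; after, `H₁` and `H₄` meet at the pass `L`, `H₃` and `H₂` meet at the pass `R`. -/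
structure SadComb (c c' : Comb m n) (L R : Fin n) (H₁ H₂ H₃ H₄ : Fin m) : Prop where
  valid : c.Valid
  valid' : c'.Valid
  LR : L ≠ R
  h12 : H₁ ≠ H₂
  h13 : H₁ ≠ H₃
  h14 : H₁ ≠ H₄
  h23 : H₂ ≠ H₃
  h24 : H₂ ≠ H₄
  h34 : H₃ ≠ H₄
  tyL : c.ty L = .R
  tyR : c.ty R = .L
  aL : c.ea L = H₁
  bL : c.eb L = H₃
  aR : c.ea R = H₄
  bR : c.eb R = H₂
  tyL' : c'.ty L = .P
  tyR' : c'.ty R = .P
  aL' : c'.ea L = H₁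
  bL' : c'.eb L = H₄
  aR' : c'.ea R = H₃
  bR' : c'.eb R = H₂
  ty : ∀ i, i ≠ L → i ≠ R → c.ty i = c'.ty i
  ea : ∀ i, i ≠ L → i ≠ R → c.ea i = c'.ea i
  eb : ∀ i, i ≠ L → i ≠ R → c.eb i = c'.eb i
  lf : ∀ e, e ≠ H₄ → c.lf e = c'.lf e
  rt : ∀ e, e ≠ H₃ → c.rt e = c'.rt e

/-- The edge `e` does not meet the box around a critical point. -/
def Comb.BoxE (c : Comb m n) (w : Fin n → ℝ) (E : Evt) (ρ : ℝ) (q v : St n) (e : Fin m) : Prop :=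
  q.1 (c.rt e) - 2 * w (c.rt e) < E.x₀ - ρ ∨ E.x₀ + ρ < q.1 (c.lf e) + 2 * w (c.lf e) ∨
    c.pe q e < min E.P₁ E.P₂ - E.g / 2 ∨ max E.P₁ E.P₂ + E.g / 2 < c.pe q e ∨
    E.ζ + |c.dpe q v e| * ρ < |c.dpe q v e * E.x₀ + c.dae q v e - E.z₀|

/-- The vertical of `i` does not meet the box around a critical point. -/
def Comb.BoxV (c : Comb m n) (w : Fin n → ℝ) (E : Evt) (ρ : ℝ) (q v : St n) (i : Fin n) : Prop :=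
  q.1 i + 2 * w i < E.x₀ - ρ ∨ E.x₀ + ρ < q.1 i - 2 * w i ∨
    c.phi q i < min E.P₁ E.P₂ - E.g / 2 ∨ max E.P₁ E.P₂ + E.g / 2 < c.plo q i ∨
    ∃ σ : ℝ, |σ| = 1 ∧
      E.ζ + c.err w q v i <
        σ * (v.2 i - max (c.plo q i) (min E.P₁ E.P₂ - E.g / 2) * v.1 i - E.z₀) ∧
      E.ζ + c.err w q v i <
        σ * (v.2 i - min (c.phi q i) (max E.P₁ E.P₂ + E.g / 2) * v.1 i - E.z₀)

/-- BXC: the pieces do not meet the box. -/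
def Stmt_BXC : Prop :=
  ∀ {m n : ℕ} (c : Comb m n) (w : Fin n → ℝ) (π : Fin n → Prof) (s : ℝ) (E : Evt) (ρ : ℝ)
    (q v : St n), c.Valid → (∀ i, 0 < w i) → (∀ i, ProfBd (c.ty i) s (π i)) →
    (∀ e, q.1 (c.lf e) < q.1 (c.rt e)) →
    (∀ e, c.BoxE w E ρ q v e → ∀ x ∈ c.rg w q e, |x - E.x₀| ≤ ρ →
      min E.P₁ E.P₂ - E.g / 2 ≤ c.pe q e → c.pe q e ≤ max E.P₁ E.P₂ + E.g / 2 →
      E.ζ < |(c.ept q v e x).2.2.1 - E.z₀|) ∧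
    (∀ i, c.BoxV w E ρ q v i → ∀ u, |u| ≤ 2 → |(c.vp w π s q v i u).1 - E.x₀| ≤ ρ →
      min E.P₁ E.P₂ - E.g / 2 ≤ (c.vp w π s q v i u).2.1 →
      (c.vp w π s q v i u).2.1 ≤ max E.P₁ E.P₂ + E.g / 2 →
      E.ζ < |(c.vp w π s q v i u).2.2.1 - E.z₀|)

/-- A saddle: `c` with the path `Q + (s - s₀) V` (two tips, for `s < s₀`) and `c'` with the path
`Q + (s - s₀) V'` (two passes, for `s > s₀`). The half length of the time interval is `η`. -/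
structure Saddle (c c' : Comb m n) (w : Fin n → ℝ) (L R : Fin n)
    (H₁ H₂ H₃ H₄ : Fin m) (E : Evt) (Q V V' : St n) (η : ℝ) : Prop where
  comb : SadComb c c' L R H₁ H₂ H₃ H₄
  pos : E.Pos
  wpos : ∀ i, 0 < w i
  wL : w L = E.r
  wR : w R = E.r
  xL : Q.1 L = E.x₀
  xR : Q.1 R = E.x₀
  FL : Q.2 L = E.F₀
  FR : Q.2 R = E.F₀
  p1 : c'.pe Q H₁ = E.P₁ + E.g / 2
  p3 : c'.pe Q H₃ = E.P₁ - E.g / 2
  p2 : c'.pe Q H₂ = E.P₂ + E.g / 2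
  p4 : c'.pe Q H₄ = E.P₂ - E.g / 2
  ovl : |E.P₂ - E.P₁| < E.g
  d1 : c'.dpe Q V' H₁ = 0
  d2 : c'.dpe Q V' H₂ = 0
  d3 : c'.dpe Q V' H₃ = 0
  d4 : c'.dpe Q V' H₄ = 0
  xL' : V'.1 L = 0
  xR' : V'.1 R = 0
  FL' : V'.2 L = E.z₀ - E.ζ
  FR' : V'.2 R = E.z₀ + E.ζ
  vxL : V.1 L = E.v
  vxR : V.1 R = -E.v
  vFL : V.2 L = E.z₀ - E.ζ + (E.P₁ + E.g / 2) * E.v
  vFR : V.2 R = E.z₀ + E.ζ - (E.P₂ + E.g / 2) * E.v
  vx : ∀ i, i ≠ L → i ≠ R → V.1 i = V'.1 i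
  vF : ∀ i, i ≠ L → i ≠ R → V.2 i = V'.2 i
  small : 16 * E.r < E.v * η
  len1 : ∀ t ∈ Icc (-η) η, (Q + t • V').1 (c'.lf H₁) + 2 * w (c'.lf H₁) <
    E.x₀ - (E.v * η + 4 * E.r)
  len3 : ∀ t ∈ Icc (-η) η, (Q + t • V').1 (c'.lf H₃) + 2 * w (c'.lf H₃) <
    E.x₀ - (E.v * η + 4 * E.r)
  len2 : ∀ t ∈ Icc (-η) η, E.x₀ + (E.v * η + 4 * E.r) <
    (Q + t • V').1 (c'.rt H₂) - 2 * w (c'.rt H₂)
  len4 : ∀ t ∈ Icc (-η) η, E.x₀ + (E.v * η + 4 * E.r) <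
    (Q + t • V').1 (c'.rt H₄) - 2 * w (c'.rt H₄)
  cert : ∀ t ∈ Icc (-η) η, c'.Cert w (Q + t • V') V'
  boxe : ∀ t ∈ Icc (-η) η, ∀ e, e ≠ H₁ → e ≠ H₂ → e ≠ H₃ → e ≠ H₄ →
    c'.BoxE w E (E.v * η + 4 * E.r) (Q + t • V') V' e
  boxv : ∀ t ∈ Icc (-η) η, ∀ i, i ≠ L → i ≠ R →
    c'.BoxV w E (E.v * η + 4 * E.r) (Q + t • V') V' i

/-- The surface over a time interval around a saddle. -/
def Comb.sad (c : Comb m n) (w : Fin n → ℝ) (π : Fin n → Prof) (q : ℝ → St n) (L R : Fin n)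
    (H₁ H₂ H₃ H₄ : Fin m) (E : Evt) (sh : Shape) (ρ : ℝ) : Set E5 :=
  {r | (∃ e, e ≠ H₁ ∧ e ≠ H₂ ∧ e ≠ H₃ ∧ e ≠ H₄ ∧ ∃ x ∈ c.rg w (q r.1) e,
      r.2 = c.ept (q r.1) (deriv q r.1) e x) ∨
    (∃ i, i ≠ L ∧ i ≠ R ∧ ∃ u, |u| ≤ 2 ∧ r.2 = c.vp w π r.1 (q r.1) (deriv q r.1) i u) ∨
    (∃ e, (e = H₁ ∨ e = H₂ ∨ e = H₃ ∨ e = H₄) ∧ ∃ x ∈ c.rg w (q r.1) e, ρ ≤ |x - E.x₀| ∧
      r.2 = c.ept (q r.1) (deriv q r.1) e x) ∨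
    (r ∈ E.set sh 1 1 ∧ |r.2.1 - E.x₀| < ρ)}

/-- SDG: the surface near a saddle is good. -/
def Stmt_SDG : Prop :=
  ∀ {m n : ℕ} (sh : Shape) (c c' : Comb m n) (w : Fin n → ℝ) (L R : Fin n) (H₁ H₂ H₃ H₄ : Fin m)
    (E : Evt) (Q V V' : St n) (η : ℝ), Saddle c c' w L R H₁ H₂ H₃ H₄ E Q V V' η →
    Good (Ioo (E.s₀ - η) (E.s₀ + η)) (c'.sad w (c'.sp sh) (lin Q V' E.s₀) L R
      H₁ H₂ H₃ H₄ E sh (E.v * η + 2 * E.r))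

/-- SDU: paths in the surface near a saddle. -/
def Stmt_SDU : Prop :=
  ∀ {m n : ℕ} (sh : Shape) (c c' : Comb m n) (w : Fin n → ℝ) (L R : Fin n) (H₁ H₂ H₃ H₄ : Fin m)
    (E : Evt) (Q V V' : St n) (η : ℝ), Saddle c c' w L R H₁ H₂ H₃ H₄ E Q V V' η →
    let A := c'.sad w (c'.sp sh) (lin Q V' E.s₀) L R
      H₁ H₂ H₃ H₄ E sh (E.v * η + 2 * E.r)
    Down (Ioo (E.s₀ - η) (E.s₀ + η)) A ∧ Up (Ioo (E.s₀ - η) (E.s₀ + η)) A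

/-- SDA: after the saddle. -/
def Stmt_SDA : Prop :=
  ∀ {m n : ℕ} (sh : Shape) (c c' : Comb m n) (w : Fin n → ℝ) (L R : Fin n) (H₁ H₂ H₃ H₄ : Fin m)
    (E : Evt) (Q V V' : St n) (η : ℝ), Saddle c c' w L R H₁ H₂ H₃ H₄ E Q V V' η →
    Agree (Ioo (E.s₀ + 8 * E.r / E.v) (E.s₀ + η))
      (c'.sad w (c'.sp sh) (lin Q V' E.s₀) L R H₁ H₂ H₃ H₄ E sh
        (E.v * η + 2 * E.r))
      (c'.surf w (c'.sp sh) (lin Q V' E.s₀))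

/-- SDB: before the saddle. -/
def Stmt_SDB : Prop :=
  ∀ {m n : ℕ} (sh : Shape) (c c' : Comb m n) (w : Fin n → ℝ) (L R : Fin n) (H₁ H₂ H₃ H₄ : Fin m)
    (E : Evt) (Q V V' : St n) (η : ℝ), Saddle c c' w L R H₁ H₂ H₃ H₄ E Q V V' η →
    Agree (Ioo (E.s₀ - η) (E.s₀ - 8 * E.r / E.v))
      (c'.sad w (c'.sp sh) (lin Q V' E.s₀) L R H₁ H₂ H₃ H₄ E sh
        (E.v * η + 2 * E.r))
      (c.surf w (c.sp sh) (lin Q V E.s₀))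

/-- SDP: two tips become two passes. The times are `s₀ - η < t < s₀ - 8 r / v` and
`s₀ + 8 r / v < t' < s₀ + η`. -/
def Stmt_SDP : Prop :=
  ∀ {m n : ℕ} (K : Set LC.R3) (sh : Shape) (c c' : Comb m n) (w : Fin n → ℝ) (L R : Fin n)
    (H₁ H₂ H₃ H₄ : Fin m) (E : Evt) (Q V V' : St n) (η t t' : ℝ),
    Saddle c c' w L R H₁ H₂ H₃ H₄ E Q V V' η → E.s₀ - η < t → t < E.s₀ - 8 * E.r / E.v →
    E.s₀ + 8 * E.r / E.v < t' → t' < E.s₀ + η → 0 < E.s₀ - η →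
    At K sh c w (lin Q V E.s₀ t) V t → At K sh c' w (lin Q V' E.s₀ t') V' t'

/-- SDM: two passes become two tips (the time reversal of the former). -/
def Stmt_SDM : Prop :=
  ∀ {m n : ℕ} (K : Set LC.R3) (sh : Shape) (c c' : Comb m n) (w : Fin n → ℝ) (L R : Fin n)
    (H₁ H₂ H₃ H₄ : Fin m) (E : Evt) (Q V V' : St n) (η t t' : ℝ),
    Saddle c c' w L R H₁ H₂ H₃ H₄ E Q V V' η → E.s₀ - η < t → t < E.s₀ - 8 * E.r / E.v →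
    E.s₀ + 8 * E.r / E.v < t' → t' < E.s₀ + η → 0 < E.s₀ - η →
    At K sh c' w (lin Q (-V') E.s₀ t) (-V') t → At K sh c w (lin Q (-V) E.s₀ t') (-V) t'

/-- The end of a component: two tips and two passes; the path is `Q + (s - s₀) V` for `s < s₀`. -/
structure Death (c : Comb 4 4) (w : Fin 4 → ℝ) (lt rt pa pb : Fin 4) (H₁ H₂ H₃ H₄ : Fin 4)
    (E : Evt) (Q V : St 4) : Prop where
  valid : c.Valid
  pos : E.Pos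
  vert : ∀ i, i = lt ∨ i = rt ∨ i = pa ∨ i = pb
  edge : ∀ e, e = H₁ ∨ e = H₂ ∨ e = H₃ ∨ e = H₄
  tyl : c.ty lt = .L
  tyr : c.ty rt = .R
  tya : c.ty pa = .P
  tyb : c.ty pb = .P
  al : c.ea lt = H₁
  bl : c.eb lt = H₃
  ar : c.ea rt = H₄
  br : c.eb rt = H₂
  aa : c.ea pa = H₁
  ab : c.eb pa = H₄
  ba : c.ea pb = H₃
  bb : c.eb pb = H₂
  hw : ∀ i, w i = E.r
  hx : ∀ i, Q.1 i = E.x₀
  hF : ∀ i, Q.2 i = E.F₀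
  ovl : |E.P₂ - E.P₁| < E.g
  vxl : V.1 lt = E.v
  vxr : V.1 rt = -E.v
  vxa : V.1 pa = 0
  vxb : V.1 pb = 0
  vFl : V.2 lt = E.z₀ - E.ζ + (E.P₁ + E.g / 2) * E.v
  vFr : V.2 rt = E.z₀ + E.ζ - (E.P₂ + E.g / 2) * E.v
  vFa : V.2 pa = E.z₀ - E.ζ
  vFb : V.2 pb = E.z₀ + E.ζ

/-- DTA: before the maximum. -/
def Stmt_DTA : Prop :=
  ∀ (sh : Shape) (c : Comb 4 4) (w : Fin 4 → ℝ) (lt rt pa pb : Fin 4) (H₁ H₂ H₃ H₄ : Fin 4)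
    (E : Evt) (Q V : St 4), Death c w lt rt pa pb H₁ H₂ H₃ H₄ E Q V →
    Agree (Iio (E.s₀ - 8 * E.r / E.v)) (E.set sh (-1) (-1))
      (c.surf w (c.sp sh) (lin Q V E.s₀))

/-- DTG: the surface near a maximum is good. -/
def Stmt_DTG : Prop :=
  ∀ (sh : Shape) (E : Evt) (J : Set ℝ), E.Pos → IsOpen J → J.OrdConnected →
    Good J (E.set sh (-1) (-1)) ∧ Down J (E.set sh (-1) (-1)) ∧
    ∀ q ∈ E.set sh (-1) (-1), q.1 ≤ E.s₀ + E.r / E.v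

/-- DTH: the maximum completes the cap. -/
def Stmt_DTH : Prop :=
  ∀ (K : Set LC.R3) (sh : Shape) (c : Comb 4 4) (w : Fin 4 → ℝ) (lt rt pa pb : Fin 4)
    (H₁ H₂ H₃ H₄ : Fin 4) (E : Evt) (Q V : St 4) (t : ℝ),
    Death c w lt rt pa pb H₁ H₂ H₃ H₄ E Q V → t < E.s₀ - 8 * E.r / E.v →
    At K sh c w (lin Q V E.s₀ t) V t → Capped K

end LCA
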