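import Mathlib
import Pool.Agent.LCA.Stmts2

/-!
# Part A, module DTH: the maximum completes the cap
-/

namespace LCA

open Set Filter
open scoped ContDiff Topology

namespace DTH

theorem down_mono {J J' : Set ℝ} {A : Set E5} (h : Down J A) (hJ : J' ⊆ J) : Down J' A :=
  fun q hq hqJ c hc hcq => h q hq (hJ hqJ) c (hJ hc) hcq

theorem lin_lin {n : ℕ} (Q V : St n) (s₀ t : ℝ) : lin (lin Q V s₀ t) V t = lin Q V s₀ := by
  funext s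
  unfold lin
  rw [add_assoc, ← add_smul]
  congr 2
  ring

/-- A surface over `(0, d)` which is empty for times larger than `M < d` may be cut at `d`. -/
theorem cut {B : Set E5} {d M : ℝ} (hM : M < d) (hG : Good (Ioo 0 d) B)
    (hD : Down (Ioo 0 d) B) (hB : ∀ q ∈ B, q.1 ∈ Ioo 0 d → q.1 ≤ M)
    (hCNG : Stmt_CNG) :
    Good (Ioi 0) {q ∈ B | q.1 < d} ∧ Down (Ioi 0) {q ∈ B | q.1 < d} ∧
      ∀ q ∈ {q ∈ B | q.1 < d}, 0 < q.1 → q.1 ≤ M := by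
  have hAg : Agree (Ioo 0 d) B {q ∈ B | q.1 < d} := fun q hq =>
    ⟨fun h => ⟨h, hq.2⟩, fun h => h.1⟩
  obtain ⟨h1, h2, -⟩ := hCNG (Ioo 0 d) B {q ∈ B | q.1 < d} isOpen_Ioo ordConnected_Ioo hAg
  have hG' := h1 hG
  have hD' := h2 hD
  have hle : ∀ q ∈ {q ∈ B | q.1 < d}, 0 < q.1 → q.1 ≤ M := fun q hq h0 =>
    hB q hq.1 ⟨h0, hq.2⟩
  have hI : ∀ q ∈ {q ∈ B | q.1 < d}, q.1 ∈ Ioi (0 : ℝ) → q.1 ∈ Ioo 0 d := fun q hq h0 =>
    ⟨h0, hq.2⟩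
  refine ⟨⟨?_, ?_, ?_, ?_⟩, ?_, hle⟩
  · intro q hq h0
    have h3 : q.1 ≤ M := by
      by_contra hlt
      push Not at hlt
      have ho : IsOpen {r : E5 | 0 < r.1 ∧ M < r.1} :=
        (isOpen_lt continuous_const continuous_fst).inter
          (isOpen_lt continuous_const continuous_fst)
      obtain ⟨r, hr, hrA⟩ := mem_closure_iff.1 hq _ ho ⟨h0, hlt⟩
      exact absurd (hle r hrA hr.1) (not_le.2 hr.2)
    exact hG'.closed q hq ⟨h0, lt_of_le_of_lt h3 hM⟩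
  · intro K hK hKc
    have hKc' : IsCompact (K ∩ Iic M) := hKc.inter_right isClosed_Iic
    obtain ⟨C, hC⟩ := hG'.bounded (K ∩ Iic M)
      (fun x hx => ⟨hK hx.1, lt_of_le_of_lt hx.2 hM⟩) hKc'
    exact ⟨C, fun q hq hqK => hC q hq ⟨hqK, hle q hq (hK hqK)⟩⟩
  · intro q hq h0
    exact hG'.chart q hq (hI q hq h0)
  · intro q hq q' hq' h0
    exact hG'.inj q hq q' hq' (hI q hq h0)
  · intro q hq h0 c hc hcq
    exact hD' q hq (hI q hq h0) c ⟨hc, lt_of_le_of_lt hcq hq.2⟩ hcq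

end DTH

theorem t_DTH (hDTA : Stmt_DTA) (hDTG : Stmt_DTG) (hGLU : Stmt_GLU) (hCNG : Stmt_CNG)
    (hRST : Stmt_RST) : Stmt_DTH := by
  intro K sh c w lt rt pa pb H₁ H₂ H₃ H₄ E Q V t hDe ht hAt
  obtain ⟨ht0, ε, hε, hεt, A, e₀, he₀, he₀t, hG, hD, hAg0, hAgt⟩ := hAt
  rw [DTH.lin_lin] at hAgt
  have hAN := hDTA sh c w lt rt pa pb H₁ H₂ H₃ H₄ E Q V hDe
  have hv := hDe.pos.v
  have hr := hDe.pos.r
  have hrv : 0 < E.r / E.v := div_pos hr hv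
  have h8 : 8 * E.r / E.v = 8 * (E.r / E.v) := by ring
  obtain ⟨t₁, ht₁⟩ : ∃ t₁, t₁ = E.s₀ - 8 * E.r / E.v := ⟨_, rfl⟩
  rw [← ht₁] at ht hAN
  obtain ⟨δ, hδ⟩ : ∃ δ, δ = min ε ((t₁ - t) / 2) := ⟨_, rfl⟩
  have hδ0 : 0 < δ := by
    rw [hδ]
    exact lt_min hε (by linarith)
  have hδε : δ ≤ ε := hδ ▸ min_le_left _ _
  have hδt : δ ≤ (t₁ - t) / 2 := hδ ▸ min_le_right _ _
  have hAg : Agree (Ioo (t - δ) (t + δ)) A (E.set sh (-1) (-1)) := by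
    intro q hq
    have h1 : q.1 ∈ Ioo (t - ε) (t + ε) := ⟨by linarith [hq.1], by linarith [hq.2]⟩
    have h2 : q.1 ∈ Iio t₁ := by
      change q.1 < t₁
      linarith [hq.2]
    exact (hAgt q h1).trans (hAN q h2).symm
  have hJ : Ioo 0 (t + δ) ⊆ Ioo 0 (t + ε) := Ioo_subset_Ioo le_rfl (by linarith)
  obtain ⟨M, hM⟩ : ∃ M, M = E.s₀ + E.r / E.v := ⟨_, rfl⟩
  have htM : t + δ < M := by linarith
  obtain ⟨hNG, hND, hNle⟩ := hDTG sh E (Ioo (t - δ) (M + 1)) hDe.pos isOpen_Ioo ordConnected_Ioo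
  rw [← hM] at hNle
  obtain ⟨B, hBG, hBD, hBA, hBN⟩ := hGLU 0 (t + δ) (t - δ) (M + 1) A (E.set sh (-1) (-1))
    (by linarith) (by linarith) (by linarith)
    (hRST _ _ A isOpen_Ioo hJ hG) (DTH.down_mono hD hJ) hNG hND hAg
  have hBle : ∀ q ∈ B, q.1 ∈ Ioo 0 (M + 1) → q.1 ≤ M := by
    intro q hq hqI
    by_contra hlt
    push Not at hlt
    exact absurd (hNle q ((hBN q ⟨by linarith, hqI.2⟩).1 hq)) (not_le.2 hlt)
  obtain ⟨hFG, hFD, hFle⟩ := DTH.cut (M := M) (d := M + 1) (by linarith) hBG hBD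
    hBle hCNG
  refine ⟨{q ∈ B | q.1 < M + 1}, hFG, hFD, ⟨e₀, he₀, ?_⟩, M, hFle⟩
  intro q hq
  have h1 : q.1 ∈ Ioo 0 (t + δ) := ⟨hq.1, by linarith [hq.2]⟩
  have h2 : q.1 < M + 1 := by linarith [hq.2]
  rw [← hAg0 q hq, ← hBA q h1]
  exact ⟨fun h => h.1, fun h => ⟨h, h2⟩⟩

end LCA
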