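import Pool.Agent.LCA.Stmts2

/-!
# Part A: ECH, the surface near a critical point
-/

namespace LCA

open Set Filter
open scoped ContDiff Topology

namespace ECH

/-! ### the derivative of `ξ` outside `(-1, 1)`, strict monotonicity of `τ` -/

theorem xi_deriv_ge (sh : Shape) {u : ℝ} (hu : 1 ≤ u) : deriv sh.ξ u = -1 := by
  have h1 : HasDerivWithinAt sh.ξ (deriv sh.ξ u) (Ici u) u :=
    ((sh.ξ_smooth.differentiable (by simp)) u).hasDerivAt.hasDerivWithinAt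
  have h2 : HasDerivWithinAt (fun y : ℝ => -y) (-1) (Ici u) u := (hasDerivAt_neg u).hasDerivWithinAt
  have h3 : HasDerivWithinAt sh.ξ (-1) (Ici u) u := by
    refine h2.congr (fun y hy => ?_) ?_
    · have hy1 : (1 : ℝ) ≤ y := le_trans hu hy
      rw [sh.ξ_out y (by rw [abs_of_nonneg (by linarith)]; exact hy1),
        abs_of_nonneg (by linarith)]
    · rw [sh.ξ_out u (by rw [abs_of_nonneg (by linarith)]; exact hu),
        abs_of_nonneg (by linarith)]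
  exact (uniqueDiffOn_Ici u u (mem_Ici.2 le_rfl)).eq_deriv _ h1 h3

theorem xi_deriv_le (sh : Shape) {u : ℝ} (hu : u ≤ -1) : deriv sh.ξ u = 1 := by
  have h1 : HasDerivWithinAt sh.ξ (deriv sh.ξ u) (Iic u) u :=
    ((sh.ξ_smooth.differentiable (by simp)) u).hasDerivAt.hasDerivWithinAt
  have h2 : HasDerivWithinAt (fun y : ℝ => y) 1 (Iic u) u := (hasDerivAt_id u).hasDerivWithinAt
  have h3 : HasDerivWithinAt sh.ξ 1 (Iic u) u := by
    refine h2.congr (fun y hy => ?_) ?_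
    · have hy1 : y ≤ -1 := le_trans hy hu
      rw [sh.ξ_out y (by rw [abs_of_nonpos (by linarith)]; linarith),
        abs_of_nonpos (by linarith)]
      ring
    · rw [sh.ξ_out u (by rw [abs_of_nonpos (by linarith)]; linarith),
        abs_of_nonpos (by linarith)]
      ring
  exact (uniqueDiffOn_Iic u u (mem_Iic.2 le_rfl)).eq_deriv _ h1 h3

theorem tau_strictMonoOn (sh : Shape) : StrictMonoOn sh.τ (Icc (-1) 1) := by
  refine strictMonoOn_of_deriv_pos (convex_Icc _ _) sh.τ_smooth.continuous.continuousOn ?_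
  intro x hx
  rw [interior_Icc] at hx
  exact sh.τ_deriv x hx.1 hx.2

theorem tau_pos (sh : Shape) {u : ℝ} (hu : -1 < u) : 0 < sh.τ u := by
  rcases le_or_gt u 1 with h | h
  · have := tau_strictMonoOn sh (left_mem_Icc.2 (by norm_num)) ⟨hu.le, h⟩ hu
    rwa [sh.τ_low (-1) le_rfl] at this
  · rw [sh.τ_high u h.le]; norm_num

theorem tau_lt_one (sh : Shape) {u : ℝ} (hu : u < 1) : sh.τ u < 1 := by
  rcases le_or_gt (-1) u with h | h
  · have := tau_strictMonoOn sh ⟨h, hu.le⟩ (right_mem_Icc.2 (by norm_num)) hu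
    rwa [sh.τ_high 1 le_rfl] at this
  · rw [sh.τ_low u h.le]; norm_num

/-- `(τ, ξ)` is injective. -/
theorem tau_xi_inj (sh : Shape) {u u' : ℝ} (h1 : sh.τ u = sh.τ u') (h2 : sh.ξ u = sh.ξ u') :
    u = u' := by
  have hlow : ∀ y : ℝ, y ≤ -1 → sh.ξ y = y := by
    intro y hy
    rw [sh.ξ_out y (by rw [abs_of_nonpos (by linarith)]; linarith), abs_of_nonpos (by linarith)]
    ring
  have hhigh : ∀ y : ℝ, 1 ≤ y → sh.ξ y = -y := by
    intro y hy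
    rw [sh.ξ_out y (by rw [abs_of_nonneg (by linarith)]; exact hy), abs_of_nonneg (by linarith)]
  rcases le_or_gt u (-1) with hu | hu
  · have hu' : u' ≤ -1 := by
      by_contra hc
      have := tau_pos sh (not_le.1 hc)
      rw [← h1, sh.τ_low u hu] at this
      exact lt_irrefl _ this
    rw [hlow u hu, hlow u' hu'] at h2
    exact h2
  · rcases le_or_gt 1 u with hu1 | hu1
    · have hu' : 1 ≤ u' := by
        by_contra hc
        have := tau_lt_one sh (not_le.1 hc)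
        rw [← h1, sh.τ_high u hu1] at this
        exact lt_irrefl _ this
      rw [hhigh u hu1, hhigh u' hu'] at h2
      linarith
    · have hp := tau_pos sh hu
      have hl := tau_lt_one sh hu1
      have ha : -1 < u' := by
        by_contra hc
        rw [h1, sh.τ_low u' (not_lt.1 hc)] at hp
        exact lt_irrefl _ hp
      have hb : u' < 1 := by
        by_contra hc
        rw [h1, sh.τ_high u' (not_lt.1 hc)] at hl
        exact lt_irrefl _ hl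
      exact (tau_strictMonoOn sh).injOn ⟨hu.le, hu1.le⟩ ⟨ha.le, hb.le⟩ h1

theorem Psi_bd (sh : Shape) (U : ℝ) : |sh.Psi U| ≤ |U| + 6 := by
  rcases le_or_gt |U| 2 with h | h
  · have h1 := sh.ΘP_bd U h
    unfold Shape.Psi
    rw [abs_le] at h1 h ⊢
    have := abs_nonneg U
    constructor <;> linarith [h1.1, h1.2, h.1, h.2]
  · rcases le_or_gt 0 U with h0 | h0
    · rw [abs_of_nonneg h0] at h
      have : sh.Psi U = U := by
        unfold Shape.Psi; rw [sh.ΘP_high U (by linarith)]; ring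
      rw [this]; linarith
    · rw [abs_of_neg h0] at h
      have : sh.Psi U = -U := by
        unfold Shape.Psi; rw [sh.ΘP_low U (by linarith)]; ring
      rw [this, abs_neg]; linarith

theorem xi_bd (sh : Shape) (u : ℝ) : |u| ≤ |sh.ξ u| + 1 := by
  rcases le_or_gt 1 |u| with h | h
  · rw [sh.ξ_out u h, abs_neg, abs_abs]; linarith
  · have := abs_nonneg (sh.ξ u); linarith

theorem Psi_hasDerivAt (sh : Shape) (U : ℝ) : HasDerivAt sh.Psi (2 * sh.τ U - 1) U := by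
  have h := ((sh.ΘP_deriv U).const_mul 2).sub (hasDerivAt_id U)
  exact h

theorem Psi_contDiff (sh : Shape) : ContDiff ℝ ∞ sh.Psi := by
  have h : ContDiff ℝ ∞ (fun U : ℝ => 2 * sh.ΘP U - U) :=
    (contDiff_const.mul sh.ΘP_smooth).sub contDiff_id
  exact h

/-! ### smoothness and the derivative -/

theorem pt_contDiff (E : Evt) (sh : Shape) (ε₁ ε₂ : ℝ) : ContDiff ℝ ∞ (E.pt sh ε₁ ε₂) := by
  have hU : ContDiff ℝ ∞ (fun a : ℝ × ℝ => (a.2 - E.x₀) / E.r) :=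
    (contDiff_snd.sub contDiff_const).div_const _
  have hξ : ContDiff ℝ ∞ (fun a : ℝ × ℝ => sh.ξ a.1) := sh.ξ_smooth.comp contDiff_fst
  have hτ : ContDiff ℝ ∞ (fun a : ℝ × ℝ => sh.τ a.1) := sh.τ_smooth.comp contDiff_fst
  have hR : ContDiff ℝ ∞ (fun a : ℝ × ℝ => sh.ΘR a.1) := sh.ΘR_smooth.comp contDiff_fst
  have hτU : ContDiff ℝ ∞ (fun a : ℝ × ℝ => sh.τ ((a.2 - E.x₀) / E.r)) := sh.τ_smooth.comp hU
  have hPU : ContDiff ℝ ∞ (fun a : ℝ × ℝ => sh.ΘP ((a.2 - E.x₀) / E.r)) := sh.ΘP_smooth.comp hU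
  have hΨ : ContDiff ℝ ∞ (fun a : ℝ × ℝ => sh.Psi ((a.2 - E.x₀) / E.r)) :=
    (Psi_contDiff sh).comp hU
  have hs : ContDiff ℝ ∞ (fun a : ℝ × ℝ => E.s₀ + ε₁ * (-(E.r / E.v) * sh.ξ a.1 -
      ε₂ * (E.r / E.v) * sh.Psi ((a.2 - E.x₀) / E.r))) := by
    exact contDiff_const.add (contDiff_const.mul ((contDiff_const.mul hξ).sub
      (contDiff_const.mul hΨ)))
  have hzb : ContDiff ℝ ∞ (fun a : ℝ × ℝ => E.ζ * (2 * sh.τ a.1 - 1)) :=
    contDiff_const.mul ((contDiff_const.mul hτ).sub contDiff_const)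
  refine hs.prodMk (contDiff_snd.prodMk (ContDiff.prodMk ?_ (ContDiff.prodMk ?_ ?_)))
  · exact (((contDiff_const.mul hzb).mul (((contDiff_const.mul hτU).sub contDiff_const).div_const
      _)).add contDiff_const).add (contDiff_const.mul hτU)
  · exact contDiff_const.add hzb
  · exact (((contDiff_const.sub (contDiff_const.mul ((contDiff_const.mul hR).sub hξ))).add
      (contDiff_const.mul (contDiff_snd.sub contDiff_const))).add (contDiff_const.mul hPU)).add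
      (contDiff_const.mul (hs.sub contDiff_const))

/-- The derivative of the time. -/
theorem s_deriv (E : Evt) (sh : Shape) (ε₁ ε₂ : ℝ) (hr : E.r ≠ 0) (a : ℝ × ℝ) :
    HasFDerivAt (fun a : ℝ × ℝ => E.s₀ + ε₁ * (-(E.r / E.v) * sh.ξ a.1 -
      ε₂ * (E.r / E.v) * sh.Psi ((a.2 - E.x₀) / E.r)))
      ((ε₁ * (-(E.r / E.v) * deriv sh.ξ a.1)) • ContinuousLinearMap.fst ℝ ℝ ℝ -
        (ε₁ * (ε₂ * ((2 * sh.τ ((a.2 - E.x₀) / E.r) - 1) / E.v))) •
          ContinuousLinearMap.snd ℝ ℝ ℝ) a := by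
  have hξ : HasFDerivAt (fun a : ℝ × ℝ => sh.ξ a.1)
      (deriv sh.ξ a.1 • ContinuousLinearMap.fst ℝ ℝ ℝ) a :=
    ((sh.ξ_smooth.differentiable (by simp)) a.1).hasDerivAt.comp_hasFDerivAt a hasFDerivAt_fst
  have hU : HasFDerivAt (fun a : ℝ × ℝ => (a.2 - E.x₀) / E.r)
      ((1 / E.r) • ContinuousLinearMap.snd ℝ ℝ ℝ) a := by
    have h := ((hasFDerivAt_snd (𝕜 := ℝ) (E := ℝ) (F := ℝ) (p := a)).sub_const E.x₀).mul_const
      (1 / E.r)
    have e : (fun a : ℝ × ℝ => (a.2 - E.x₀) / E.r) = fun a : ℝ × ℝ => (a.2 - E.x₀) * (1 / E.r) := by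
      funext a; ring
    rw [e]; exact h
  have hΨ : HasFDerivAt (fun a : ℝ × ℝ => sh.Psi ((a.2 - E.x₀) / E.r))
      ((2 * sh.τ ((a.2 - E.x₀) / E.r) - 1) • ((1 / E.r) • ContinuousLinearMap.snd ℝ ℝ ℝ)) a :=
    (Psi_hasDerivAt sh _).comp_hasFDerivAt a hU
  have h := (((hξ.const_mul (-(E.r / E.v))).sub (hΨ.const_mul (ε₂ * (E.r / E.v)))).const_mul
    ε₁).const_add E.s₀
  refine h.congr_fderiv ?_
  refine ContinuousLinearMap.ext fun w => ?_
  simp only [ContinuousLinearMap.smul_apply, ContinuousLinearMap.sub_apply,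
    ContinuousLinearMap.coe_fst', ContinuousLinearMap.coe_snd', smul_eq_mul]
  field_simp

/-- The derivative of the value of `F`. -/
theorem F_deriv (E : Evt) (sh : Shape) (ε₁ ε₂ : ℝ) (hr : E.r ≠ 0) (a : ℝ × ℝ)
    {S : ℝ × ℝ → ℝ} {S' : ℝ × ℝ →L[ℝ] ℝ} (hS : HasFDerivAt S S' a) :
    HasFDerivAt (fun a : ℝ × ℝ => E.F₀ - ε₁ * (E.ζ * E.r / E.v) * (2 * sh.ΘR a.1 - sh.ξ a.1)
      + E.P₁ * (a.2 - E.x₀) + (E.P₂ - E.P₁) * E.r * sh.ΘP ((a.2 - E.x₀) / E.r)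
      + E.z₀ * (S a - E.s₀))
      ((-(ε₁ * (E.ζ * E.r / E.v) * (2 * sh.τ a.1 - 1) * deriv sh.ξ a.1)) •
        ContinuousLinearMap.fst ℝ ℝ ℝ +
        (E.P₁ + (E.P₂ - E.P₁) * sh.τ ((a.2 - E.x₀) / E.r)) • ContinuousLinearMap.snd ℝ ℝ ℝ +
        E.z₀ • S') a := by
  have hξ : HasFDerivAt (fun a : ℝ × ℝ => sh.ξ a.1)
      (deriv sh.ξ a.1 • ContinuousLinearMap.fst ℝ ℝ ℝ) a :=
    ((sh.ξ_smooth.differentiable (by simp)) a.1).hasDerivAt.comp_hasFDerivAt a hasFDerivAt_fst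
  have hR : HasFDerivAt (fun a : ℝ × ℝ => sh.ΘR a.1)
      ((sh.τ a.1 * deriv sh.ξ a.1) • ContinuousLinearMap.fst ℝ ℝ ℝ) a :=
    (sh.ΘR_deriv a.1).comp_hasFDerivAt a hasFDerivAt_fst
  have hU : HasFDerivAt (fun a : ℝ × ℝ => (a.2 - E.x₀) / E.r)
      ((1 / E.r) • ContinuousLinearMap.snd ℝ ℝ ℝ) a := by
    have h := ((hasFDerivAt_snd (𝕜 := ℝ) (E := ℝ) (F := ℝ) (p := a)).sub_const E.x₀).mul_const
      (1 / E.r)
    have e : (fun a : ℝ × ℝ => (a.2 - E.x₀) / E.r) = fun a : ℝ × ℝ => (a.2 - E.x₀) * (1 / E.r) := by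
      funext a; ring
    rw [e]; exact h
  have hP : HasFDerivAt (fun a : ℝ × ℝ => sh.ΘP ((a.2 - E.x₀) / E.r))
      (sh.τ ((a.2 - E.x₀) / E.r) • ((1 / E.r) • ContinuousLinearMap.snd ℝ ℝ ℝ)) a :=
    (sh.ΘP_deriv _).comp_hasFDerivAt a hU
  have hx : HasFDerivAt (fun a : ℝ × ℝ => a.2 - E.x₀) (ContinuousLinearMap.snd ℝ ℝ ℝ) a :=
    (hasFDerivAt_snd (𝕜 := ℝ) (E := ℝ) (F := ℝ) (p := a)).sub_const E.x₀
  have h := ((((((hR.const_mul 2).sub hξ).const_mul (ε₁ * (E.ζ * E.r / E.v))).const_sub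
    E.F₀).add (hx.const_mul E.P₁)).add (hP.const_mul ((E.P₂ - E.P₁) * E.r))).add
    ((hS.sub_const E.s₀).const_mul E.z₀)
  refine h.congr_fderiv ?_
  refine ContinuousLinearMap.ext fun w => ?_
  simp only [ContinuousLinearMap.smul_apply, ContinuousLinearMap.sub_apply,
    ContinuousLinearMap.add_apply, ContinuousLinearMap.neg_apply,
    ContinuousLinearMap.coe_fst', ContinuousLinearMap.coe_snd', smul_eq_mul]
  field_simp
  ring

/-- The derivative of the value of `z`. -/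
theorem z_deriv (E : Evt) (sh : Shape) (a : ℝ × ℝ) :
    HasFDerivAt (fun a : ℝ × ℝ => E.z₀ + E.ζ * (2 * sh.τ a.1 - 1))
      ((E.ζ * 2 * deriv sh.τ a.1) • ContinuousLinearMap.fst ℝ ℝ ℝ) a := by
  have hτ : HasFDerivAt (fun a : ℝ × ℝ => sh.τ a.1)
      (deriv sh.τ a.1 • ContinuousLinearMap.fst ℝ ℝ ℝ) a :=
    ((sh.τ_smooth.differentiable (by simp)) a.1).hasDerivAt.comp_hasFDerivAt a hasFDerivAt_fst
  have h := (((hτ.const_mul 2).sub_const 1).const_mul E.ζ).const_add E.z₀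
  refine h.congr_fderiv ?_
  refine ContinuousLinearMap.ext fun w => ?_
  simp only [ContinuousLinearMap.smul_apply, ContinuousLinearMap.coe_fst', smul_eq_mul]
  ring

/-- The derivative of the point, in components (`P'` is the derivative of the value of `p`). -/
theorem pt_deriv (E : Evt) (sh : Shape) (ε₁ ε₂ : ℝ) (hr : E.r ≠ 0) (a : ℝ × ℝ) (w : ℝ × ℝ) :
    (fderiv ℝ (E.pt sh ε₁ ε₂) a w).1 = ε₁ * (-(E.r / E.v) * deriv sh.ξ a.1) * w.1 -
        (ε₁ * (ε₂ * ((2 * sh.τ ((a.2 - E.x₀) / E.r) - 1) / E.v))) * w.2 ∧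
    (fderiv ℝ (E.pt sh ε₁ ε₂) a w).2.1 = w.2 ∧
    (fderiv ℝ (E.pt sh ε₁ ε₂) a w).2.2.2.1 = E.ζ * 2 * deriv sh.τ a.1 * w.1 ∧
    (fderiv ℝ (E.pt sh ε₁ ε₂) a w).2.2.2.2 =
      -(ε₁ * (E.ζ * E.r / E.v) * (2 * sh.τ a.1 - 1) * deriv sh.ξ a.1) * w.1 +
        (E.P₁ + (E.P₂ - E.P₁) * sh.τ ((a.2 - E.x₀) / E.r)) * w.2 +
        E.z₀ * (fderiv ℝ (E.pt sh ε₁ ε₂) a w).1 := by
  have hf : HasFDerivAt (E.pt sh ε₁ ε₂) (fderiv ℝ (E.pt sh ε₁ ε₂) a) a :=
    ((pt_contDiff E sh ε₁ ε₂).differentiable (by simp) a).hasFDerivAt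
  have h1 := hf.fst
  have h2 := hf.snd.fst
  have h4 := hf.snd.snd.snd.fst
  have h5 := hf.snd.snd.snd.snd
  have e1 := h1.unique (s_deriv E sh ε₁ ε₂ hr a)
  have e2 := h2.unique (hasFDerivAt_snd (𝕜 := ℝ) (E := ℝ) (F := ℝ) (p := a))
  have e4 := h4.unique (z_deriv E sh a)
  have e5 := h5.unique (F_deriv E sh ε₁ ε₂ hr a h1)
  have g1 := congrArg (fun l : ℝ × ℝ →L[ℝ] ℝ => l w) e1
  have g2 := congrArg (fun l : ℝ × ℝ →L[ℝ] ℝ => l w) e2
  have g4 := congrArg (fun l : ℝ × ℝ →L[ℝ] ℝ => l w) e4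
  have g5 := congrArg (fun l : ℝ × ℝ →L[ℝ] ℝ => l w) e5
  simp only [ContinuousLinearMap.smul_apply, ContinuousLinearMap.sub_apply,
    ContinuousLinearMap.add_apply, ContinuousLinearMap.coe_comp', Function.comp_apply,
    ContinuousLinearMap.coe_fst', ContinuousLinearMap.coe_snd', smul_eq_mul] at g1 g2 g4 g5
  exact ⟨g1, g2, g4, g5⟩

theorem pt_exact (E : Evt) (sh : Shape) (ε₁ ε₂ : ℝ) (hE : E.Pos) (h1 : |ε₁| = 1)
    (a : ℝ × ℝ) : ExactChart (E.pt sh ε₁ ε₂) a := by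
  have hr : E.r ≠ 0 := hE.r.ne'
  have hv : E.v ≠ 0 := hE.v.ne'
  have hζ : E.ζ ≠ 0 := by
    have := mul_pos hE.g hE.v
    unfold Evt.ζ; positivity
  have hε : ε₁ ≠ 0 := by
    intro h; rw [h, abs_zero] at h1; exact zero_ne_one h1
  refine ⟨Eventually.of_forall fun b => (pt_contDiff E sh ε₁ ε₂).contDiffAt,
    Eventually.of_forall fun b w => ?_, fun w w1 w2 _ w4 => ?_⟩
  · obtain ⟨g1, g2, g4, g5⟩ := pt_deriv E sh ε₁ ε₂ hr b w
    rw [g5, g1, g2]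
    simp only [Evt.pt]
    ring
  · obtain ⟨g1, g2, g4, g5⟩ := pt_deriv E sh ε₁ ε₂ hr a w
    rw [w2] at g2
    rw [w1, ← g2, mul_zero, sub_zero] at g1
    rw [w4] at g4
    have hw1 : w.1 = 0 := by
      rcases le_or_gt 1 |a.1| with h | h
      · have hd : deriv sh.ξ a.1 ≠ 0 := by
          rcases le_or_gt 0 a.1 with h0 | h0
          · rw [abs_of_nonneg h0] at h
            rw [xi_deriv_ge sh h]; norm_num
          · rw [abs_of_neg h0] at h
            rw [xi_deriv_le sh (by linarith)]; norm_num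
        have hc : ε₁ * (-(E.r / E.v) * deriv sh.ξ a.1) ≠ 0 :=
          mul_ne_zero hε (mul_ne_zero (neg_ne_zero.2 (div_ne_zero hr hv)) hd)
        rcases mul_eq_zero.1 g1.symm with h' | h'
        · exact absurd h' hc
        · exact h'
      · rw [abs_lt] at h
        have hd : deriv sh.τ a.1 ≠ 0 := (sh.τ_deriv a.1 h.1 h.2).ne'
        rcases mul_eq_zero.1 g4.symm with h' | h'
        · exact absurd h' (mul_ne_zero (mul_ne_zero hζ (by norm_num)) hd)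
        · exact h'
    exact Prod.ext hw1 g2.symm

/-! ### injectivity and properness -/

theorem pt_inj (E : Evt) (sh : Shape) (ε₁ ε₂ : ℝ) (hE : E.Pos) (h1 : |ε₁| = 1) (a b : ℝ × ℝ)
    (h : pr4 (E.pt sh ε₁ ε₂ a) = pr4 (E.pt sh ε₁ ε₂ b)) : a = b := by
  have hr : E.r ≠ 0 := hE.r.ne'
  have hv : E.v ≠ 0 := hE.v.ne'
  have hζ : E.ζ ≠ 0 := by
    have := mul_pos hE.g hE.v
    unfold Evt.ζ; positivity
  have hε : ε₁ ≠ 0 := by
    intro h; rw [h, abs_zero] at h1; exact zero_ne_one h1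
  simp only [pr4, Evt.pt, Prod.mk.injEq] at h
  obtain ⟨hs, hx, -, hz⟩ := h
  rw [hx] at hs
  have hξ : sh.ξ a.1 = sh.ξ b.1 := by
    have h2 := mul_left_cancel₀ hε (add_left_cancel hs)
    have h3 : -(E.r / E.v) * sh.ξ a.1 = -(E.r / E.v) * sh.ξ b.1 := by linarith
    exact mul_left_cancel₀ (neg_ne_zero.2 (div_ne_zero hr hv)) h3
  have hτ : sh.τ a.1 = sh.τ b.1 := by
    have h2 := mul_left_cancel₀ hζ (add_left_cancel hz)
    linarith
  exact Prod.ext (tau_xi_inj sh hτ hξ) hx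

theorem pt_proper (E : Evt) (sh : Shape) (ε₁ ε₂ : ℝ) (hE : E.Pos) (h1 : |ε₁| = 1)
    (h2 : |ε₂| = 1) (M : ℝ) : ∃ R : ℝ, ∀ a : ℝ × ℝ, |(E.pt sh ε₁ ε₂ a).1| ≤ M →
      |(E.pt sh ε₁ ε₂ a).2.1| ≤ M → ‖a‖ ≤ R := by
  have hr := hE.r
  have hv := hE.v
  refine ⟨max M (E.v / E.r * (M + |E.s₀|) + ((M + |E.x₀|) / E.r + 6) + 1), fun a ha1 ha2 => ?_⟩
  have hx : |a.2| ≤ M := ha2
  have hs : |E.s₀ + ε₁ * (-(E.r / E.v) * sh.ξ a.1 -
      ε₂ * (E.r / E.v) * sh.Psi ((a.2 - E.x₀) / E.r))| ≤ M := ha1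
  have hk : 0 < E.r / E.v := div_pos hr hv
  set U := (a.2 - E.x₀) / E.r with hU
  have hUb : |U| ≤ (M + |E.x₀|) / E.r := by
    rw [hU, abs_div, abs_of_pos hr]
    have := abs_sub a.2 E.x₀
    gcongr
    linarith
  have hP := Psi_bd sh U
  have hb : E.r / E.v * |sh.ξ a.1| ≤ (M + |E.s₀|) + E.r / E.v * |sh.Psi U| := by
    have e : -(E.r / E.v) * sh.ξ a.1 - ε₂ * (E.r / E.v) * sh.Psi U =
        -((E.r / E.v) * (sh.ξ a.1 + ε₂ * sh.Psi U)) := by ring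
    have h3 : |E.r / E.v * (sh.ξ a.1 + ε₂ * sh.Psi U)| ≤ M + |E.s₀| := by
      rw [e] at hs
      have h4 : |ε₁ * -((E.r / E.v) * (sh.ξ a.1 + ε₂ * sh.Psi U))| =
          |E.r / E.v * (sh.ξ a.1 + ε₂ * sh.Psi U)| := by
        rw [abs_mul, h1, one_mul, abs_neg]
      rw [← h4]
      have h5 := abs_sub_le (ε₁ * -((E.r / E.v) * (sh.ξ a.1 + ε₂ * sh.Psi U))) (-E.s₀) 0
      have h6 : ε₁ * -((E.r / E.v) * (sh.ξ a.1 + ε₂ * sh.Psi U)) - -E.s₀ =
        E.s₀ + ε₁ * -((E.r / E.v) * (sh.ξ a.1 + ε₂ * sh.Psi U)) := by ring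
      rw [h6, sub_zero, sub_zero, abs_neg] at h5
      linarith
    rw [abs_mul, abs_of_pos hk] at h3
    have h7 : |sh.ξ a.1| ≤ |sh.ξ a.1 + ε₂ * sh.Psi U| + |sh.Psi U| := by
      have h8 := abs_sub (sh.ξ a.1 + ε₂ * sh.Psi U) (ε₂ * sh.Psi U)
      rw [add_sub_cancel_right, abs_mul ε₂, h2, one_mul] at h8
      exact h8
    have h9 := mul_le_mul_of_nonneg_left h7 hk.le
    linarith
  have hξ : |sh.ξ a.1| ≤ E.v / E.r * (M + |E.s₀|) + |sh.Psi U| := by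
    have h3 := mul_le_mul_of_nonneg_left hb (div_pos hv hr).le
    have e1 : E.v / E.r * (E.r / E.v * |sh.ξ a.1|) = |sh.ξ a.1| := by
      field_simp
    have e2 : E.v / E.r * ((M + |E.s₀|) + E.r / E.v * |sh.Psi U|) =
        E.v / E.r * (M + |E.s₀|) + |sh.Psi U| := by
      field_simp
    rwa [e1, e2] at h3
  have hu := xi_bd sh a.1
  rw [Prod.norm_def, Real.norm_eq_abs, Real.norm_eq_abs]
  exact max_le (le_max_of_le_right (by linarith)) (le_max_of_le_left hx)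

theorem pt_tendsto (E : Evt) (sh : Shape) (ε₁ ε₂ : ℝ) (hE : E.Pos) (h1 : |ε₁| = 1)
    (h2 : |ε₂| = 1) : Tendsto (E.pt sh ε₁ ε₂) (cocompact (ℝ × ℝ)) (cocompact E5) := by
  rw [(hasBasis_cocompact).tendsto_right_iff]
  intro K hK
  obtain ⟨M, hM⟩ := hK.isBounded.exists_norm_le
  obtain ⟨R, hR⟩ := pt_proper E sh ε₁ ε₂ hE h1 h2 M
  refine Filter.mem_of_superset (isCompact_closedBall (0 : ℝ × ℝ) R).compl_mem_cocompact ?_
  intro a ha hc
  apply ha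
  rw [mem_closedBall_zero_iff]
  have h3 := hM _ hc
  have h4 := norm_fst_le (E.pt sh ε₁ ε₂ a)
  have h5 := norm_snd_le (E.pt sh ε₁ ε₂ a)
  have h6 := norm_fst_le (E.pt sh ε₁ ε₂ a).2
  rw [Real.norm_eq_abs] at h4 h6
  exact hR a (h4.trans h3) (h6.trans (h5.trans h3))

end ECH

theorem t_ECH : Stmt_ECH := by
  intro E sh ε₁ ε₂ hE h1 h2
  have hcont : Continuous (E.pt sh ε₁ ε₂) := (ECH.pt_contDiff E sh ε₁ ε₂).continuous
  have hprop : IsProperMap (E.pt sh ε₁ ε₂) :=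
    isProperMap_iff_tendsto_cocompact.2 ⟨hcont, ECH.pt_tendsto E sh ε₁ ε₂ hE h1 h2⟩
  have hinj : ∀ a b, pr4 (E.pt sh ε₁ ε₂ a) = pr4 (E.pt sh ε₁ ε₂ b) → a = b :=
    ECH.pt_inj E sh ε₁ ε₂ hE h1
  have hInj : Function.Injective (E.pt sh ε₁ ε₂) := fun a b hab => hinj a b (by rw [hab])
  have hemb : Topology.IsClosedEmbedding (E.pt sh ε₁ ε₂) :=
    Topology.IsClosedEmbedding.of_continuous_injective_isClosedMap hcont hInj hprop.isClosedMap
  refine ⟨fun a => ECH.pt_exact E sh ε₁ ε₂ hE h1 a, hemb.isClosed_range, ?_, hinj, ?_⟩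
  · rintro q ⟨a, rfl⟩
    refine ⟨E.pt sh ε₁ ε₂, a, ECH.pt_exact E sh ε₁ ε₂ hE h1 a, rfl,
      Eventually.of_forall fun b => mem_range_self b, fun N hN => ?_⟩
    have := image_mem_map (m := E.pt sh ε₁ ε₂) hN
    rwa [hemb.isEmbedding.map_nhds_eq] at this
  · intro M
    obtain ⟨R, hR⟩ := ECH.pt_proper E sh ε₁ ε₂ hE h1 h2 M
    obtain ⟨M', hM'⟩ := ((isCompact_closedBall (0 : ℝ × ℝ) R).image hcont).isBounded.exists_norm_le
    refine ⟨M', ?_⟩
    rintro q ⟨a, rfl⟩ hq1 hq2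
    have ha : a ∈ Metric.closedBall (0 : ℝ × ℝ) R := mem_closedBall_zero_iff.2 (hR a hq1 hq2)
    exact (norm_snd_le _).trans (hM' _ (mem_image_of_mem _ ha))

end LCA
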