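import Pool.Agent.LCA.Stmts1

/-!
# EEX: an edge is an exact chart
-/

namespace LCA

open Set Filter
open scoped ContDiff Topology

namespace EEX

variable {m n : ℕ}

/-- The coordinate functions of the positions, first factor. -/
noncomputable def L1 (n : ℕ) (i : Fin n) : St n →L[ℝ] ℝ :=
  (ContinuousLinearMap.proj i).comp (ContinuousLinearMap.fst ℝ (Fin n → ℝ) (Fin n → ℝ))

/-- The coordinate functions of the positions, second factor. -/
noncomputable def L2 (n : ℕ) (i : Fin n) : St n →L[ℝ] ℝ :=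
  (ContinuousLinearMap.proj i).comp (ContinuousLinearMap.snd ℝ (Fin n → ℝ) (Fin n → ℝ))

lemma L1_apply (i : Fin n) (q : St n) : L1 n i q = q.1 i := rfl

lemma L2_apply (i : Fin n) (q : St n) : L2 n i q = q.2 i := rfl

lemma smooth1 {J : Set ℝ} {q : ℝ → St n} (hq : ContDiffOn ℝ ∞ q J) (i : Fin n) :
    ContDiffOn ℝ ∞ (fun s => (q s).1 i) J :=
  (L1 n i).contDiff.comp_contDiffOn hq

lemma smooth2 {J : Set ℝ} {q : ℝ → St n} (hq : ContDiffOn ℝ ∞ q J) (i : Fin n) :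
    ContDiffOn ℝ ∞ (fun s => (q s).2 i) J :=
  (L2 n i).contDiff.comp_contDiffOn hq

lemma deriv1 {q : ℝ → St n} {s : ℝ} (hq : DifferentiableAt ℝ q s) (i : Fin n) :
    HasDerivAt (fun s => (q s).1 i) ((deriv q s).1 i) s :=
  (L1 n i).hasFDerivAt.comp_hasDerivAt s hq.hasDerivAt

lemma deriv2 {q : ℝ → St n} {s : ℝ} (hq : DifferentiableAt ℝ q s) (i : Fin n) :
    HasDerivAt (fun s => (q s).2 i) ((deriv q s).2 i) s :=
  (L2 n i).hasFDerivAt.comp_hasDerivAt s hq.hasDerivAt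

lemma smooth_pe (c : Comb m n) {J : Set ℝ} {q : ℝ → St n} (hq : ContDiffOn ℝ ∞ q J) (e : Fin m)
    (hne : ∀ s ∈ J, (q s).1 (c.rt e) - (q s).1 (c.lf e) ≠ 0) :
    ContDiffOn ℝ ∞ (fun s => c.pe (q s) e) J :=
  ((smooth2 hq _).sub (smooth2 hq _)).div ((smooth1 hq _).sub (smooth1 hq _)) hne

lemma smooth_ae (c : Comb m n) {J : Set ℝ} {q : ℝ → St n} (hq : ContDiffOn ℝ ∞ q J) (e : Fin m)
    (hne : ∀ s ∈ J, (q s).1 (c.rt e) - (q s).1 (c.lf e) ≠ 0) :
    ContDiffOn ℝ ∞ (fun s => c.ae (q s) e) J :=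
  (smooth2 hq _).sub ((smooth_pe c hq e hne).mul (smooth1 hq _))

lemma deriv_pe (c : Comb m n) {q : ℝ → St n} {s : ℝ} (hq : DifferentiableAt ℝ q s) (e : Fin m)
    (hne : (q s).1 (c.rt e) - (q s).1 (c.lf e) ≠ 0) :
    HasDerivAt (fun s => c.pe (q s) e) (c.dpe (q s) (deriv q s) e) s := by
  have h := ((deriv2 hq (c.rt e)).sub (deriv2 hq (c.lf e))).div
    ((deriv1 hq (c.rt e)).sub (deriv1 hq (c.lf e))) hne
  refine HasDerivAt.congr_deriv h ?_
  simp only [Comb.dpe, Comb.pe, Pi.sub_apply]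
  field_simp

lemma deriv_ae (c : Comb m n) {q : ℝ → St n} {s : ℝ} (hq : DifferentiableAt ℝ q s) (e : Fin m)
    (hne : (q s).1 (c.rt e) - (q s).1 (c.lf e) ≠ 0) :
    HasDerivAt (fun s => c.ae (q s) e) (c.dae (q s) (deriv q s) e) s := by
  have h := (deriv2 hq (c.lf e)).sub ((deriv_pe c hq e hne).mul (deriv1 hq (c.lf e)))
  refine HasDerivAt.congr_deriv h ?_
  simp only [Comb.dae]
  ring

/-- The abstract form: `P`, `A` smooth with the derivatives `dP`, `dA`. -/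
lemma exact_of {J : Set ℝ} (hJ : IsOpen J) {P A dP dA : ℝ → ℝ} (hP : ContDiffOn ℝ ∞ P J)
    (hA : ContDiffOn ℝ ∞ A J) (hdP : ∀ s ∈ J, HasDerivAt P (dP s) s)
    (hdA : ∀ s ∈ J, HasDerivAt A (dA s) s) (s x : ℝ) (hs : s ∈ J) :
    ExactChart (fun b : ℝ × ℝ =>
      ((b.1, b.2, P b.1, dP b.1 * b.2 + dA b.1, P b.1 * b.2 + A b.1) : E5)) (s, x) := by
  have hdPs : ContDiffOn ℝ ∞ dP J := by
    refine (hP.deriv_of_isOpen hJ (m := ∞) (by simp)).congr ?_
    intro r hr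
    exact (hdP r hr).deriv.symm
  have hdAs : ContDiffOn ℝ ∞ dA J := by
    refine (hA.deriv_of_isOpen hJ (m := ∞) (by simp)).congr ?_
    intro r hr
    exact (hdA r hr).deriv.symm
  have hev : ∀ᶠ b : ℝ × ℝ in 𝓝 (s, x), b.1 ∈ J :=
    continuousAt_fst.eventually (hJ.mem_nhds hs)
  have key : ∀ b : ℝ × ℝ, b.1 ∈ J → ContDiffAt ℝ ∞ (fun b : ℝ × ℝ =>
      ((b.1, b.2, P b.1, dP b.1 * b.2 + dA b.1, P b.1 * b.2 + A b.1) : E5)) b := by
    intro b hb
    have c1 : ∀ {g : ℝ → ℝ}, ContDiffOn ℝ ∞ g J → ContDiffAt ℝ ∞ (fun b : ℝ × ℝ => g b.1) b := by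
      intro g hg
      exact ContDiffAt.comp b (hg.contDiffAt (hJ.mem_nhds hb)) contDiffAt_fst
    exact contDiffAt_fst.prodMk (contDiffAt_snd.prodMk ((c1 hP).prodMk
      ((((c1 hdPs).mul contDiffAt_snd).add (c1 hdAs)).prodMk
        (((c1 hP).mul contDiffAt_snd).add (c1 hA)))))
  have fd : ∀ b : ℝ × ℝ, b.1 ∈ J → ∀ w : ℝ × ℝ,
      (fderiv ℝ (fun b : ℝ × ℝ =>
        ((b.1, b.2, P b.1, dP b.1 * b.2 + dA b.1, P b.1 * b.2 + A b.1) : E5)) b w).1 = w.1 ∧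
      (fderiv ℝ (fun b : ℝ × ℝ =>
        ((b.1, b.2, P b.1, dP b.1 * b.2 + dA b.1, P b.1 * b.2 + A b.1) : E5)) b w).2.1 = w.2 ∧
      (fderiv ℝ (fun b : ℝ × ℝ =>
        ((b.1, b.2, P b.1, dP b.1 * b.2 + dA b.1, P b.1 * b.2 + A b.1) : E5)) b w).2.2.2.2 =
        (dP b.1 * b.2 + dA b.1) * w.1 + P b.1 * w.2 := by
    intro b hb w
    have hd := (key b hb).differentiableAt (by simp)
    have h1 : HasFDerivAt (fun b : ℝ × ℝ =>
        ((b.1, b.2, P b.1, dP b.1 * b.2 + dA b.1, P b.1 * b.2 + A b.1) : E5)) _ b := hd.hasFDerivAt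
    have hfst : HasFDerivAt (fun b : ℝ × ℝ => b.1) (ContinuousLinearMap.fst ℝ ℝ ℝ) b :=
      hasFDerivAt_fst
    have hsnd : HasFDerivAt (fun b : ℝ × ℝ => b.2) (ContinuousLinearMap.snd ℝ ℝ ℝ) b :=
      hasFDerivAt_snd
    have hPb : HasFDerivAt (fun b : ℝ × ℝ => P b.1)
        (dP b.1 • ContinuousLinearMap.fst ℝ ℝ ℝ) b :=
      (hdP b.1 hb).comp_hasFDerivAt b hfst
    have hAb : HasFDerivAt (fun b : ℝ × ℝ => A b.1)
        (dA b.1 • ContinuousLinearMap.fst ℝ ℝ ℝ) b :=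
      (hdA b.1 hb).comp_hasFDerivAt b hfst
    have hFb := (hPb.mul hsnd).add hAb
    refine ⟨?_, ?_, ?_⟩
    · have h2 := h1.fst
      have h3 := h2.unique hfst
      have h4 := congrArg (fun l => l w) h3
      simpa using h4
    · have h2 := h1.snd.fst
      have h3 := h2.unique hsnd
      have h4 := congrArg (fun l => l w) h3
      simpa using h4
    · have h2 := h1.snd.snd.snd.snd
      have h3 := h2.unique hFb
      have h4 := congrArg (fun l => l w) h3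
      have h5 : (fderiv ℝ (fun b : ℝ × ℝ =>
          ((b.1, b.2, P b.1, dP b.1 * b.2 + dA b.1, P b.1 * b.2 + A b.1) : E5)) b w).2.2.2.2 =
          P b.1 * w.2 + b.2 * (dP b.1 * w.1) + dA b.1 * w.1 := by
        simpa using h4
      rw [h5]
      ring
  refine ⟨?_, ?_, ?_⟩
  · exact hev.mono fun b hb => key b hb
  · refine hev.mono fun b hb w => ?_
    obtain ⟨h1, h2, h3⟩ := fd b hb w
    rw [h1, h2, h3]
  · intro w h1 h2 _ _
    obtain ⟨k1, k2, _⟩ := fd (s, x) hs w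
    exact Prod.ext (k1.symm.trans h1) (k2.symm.trans h2)

end EEX

theorem t_EEX : Stmt_EEX := by
  intro m n c w J π q hph e s hs x
  have hne : ∀ r ∈ J, (q r).1 (c.rt e) - (q r).1 (c.lf e) ≠ 0 := by
    intro r hr
    have h := (hph.adm r hr).len e
    have h1 := hph.wpos (c.lf e)
    have h2 := hph.wpos (c.rt e)
    intro h0
    rw [h0] at h
    linarith
  have hdq : ∀ r ∈ J, DifferentiableAt ℝ q r := fun r hr =>
    (hph.smooth.contDiffAt (hph.openJ.mem_nhds hr)).differentiableAt (by simp)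
  exact EEX.exact_of hph.openJ (EEX.smooth_pe c hph.smooth e hne)
    (EEX.smooth_ae c hph.smooth e hne)
    (fun r hr => EEX.deriv_pe c (hdq r hr) e (hne r hr))
    (fun r hr => EEX.deriv_ae c (hdq r hr) e (hne r hr)) s x hs

end LCA
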