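import Pool.Agent.LCA.Stmts1

/-!
# EQA: a different description of the same surface near the time `t`
-/

namespace LCA

open Set Filter
open scoped ContDiff Topology

namespace EQA

theorem deriv_lin {n : ℕ} (Q V : St n) (t s : ℝ) : deriv (lin Q V t) s = V := by
  have h : HasDerivAt (fun s : ℝ => Q + (s - t) • V) ((1 : ℝ) • V) s :=
    (((hasDerivAt_id s).sub_const t).smul_const V).const_add Q
  have := h.deriv
  rw [one_smul] at this
  exact this

theorem slice_static {m n : ℕ} (sh : Shape) (c : Comb m n) (w : Fin n → ℝ) (s : ℝ) (q v : St n) :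
    c.slice w (c.sp sh) s q v = c.slice w (c.sp sh) 0 q v := rfl

theorem mem_surf {m n : ℕ} (sh : Shape) (c : Comb m n) (w : Fin n → ℝ) (Q V : St n) (t : ℝ)
    (r : E5) : r ∈ c.surf w (c.sp sh) (lin Q V t) ↔
      r.2 ∈ c.slice w (c.sp sh) 0 (lin Q V t r.1) V := by
  change r.2 ∈ c.slice w (c.sp sh) r.1 (lin Q V t r.1) (deriv (lin Q V t) r.1) ↔ _
  rw [deriv_lin, slice_static]

theorem down_mono {J J' : Set ℝ} {A : Set E5} (h : J' ⊆ J) (hA : Down J A) : Down J' A :=
  fun q hq hJ c hc hcq => hA q hq (h hJ) c (h hc) hcq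

theorem good_mono {J J' : Set ℝ} {A : Set E5} (h : J' ⊆ J) (hA : Good J A) :
    Good J' A where
  closed q hq hJ := hA.closed q hq (h hJ)
  bounded K hK hc := hA.bounded K (hK.trans h) hc
  chart q hq hJ := hA.chart q hq (h hJ)
  inj q hq q' hq' hJ := hA.inj q hq q' hq' (h hJ)

end EQA

open EQA in
theorem t_EQA : Stmt_EQA := by
  intro m n m' n' K sh c w Q V c' w' Q' V' t η hη hs hAt
  obtain ⟨ht, ε, hε, hεt, A, e₀, he₀, he₀t, hG, hD, hA0, hA1⟩ := hAt
  have hm : min ε η ≤ ε := min_le_left _ _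
  have hm' : min ε η ≤ η := min_le_right _ _
  have hsub : Ioo 0 (t + min ε η) ⊆ Ioo 0 (t + ε) := Ioo_subset_Ioo_right (by linarith)
  refine ⟨ht, min ε η, lt_min hε hη, lt_of_le_of_lt hm hεt, A, e₀, he₀, he₀t,
    good_mono hsub hG, down_mono hsub hD, hA0, ?_⟩
  intro q hq
  have h1 : q.1 ∈ Ioo (t - ε) (t + ε) := ⟨by linarith [hq.1], by linarith [hq.2]⟩
  have h2 : q.1 ∈ Ioo (t - η) (t + η) := ⟨by linarith [hq.1], by linarith [hq.2]⟩
  rw [hA1 q h1, mem_surf, mem_surf, hs q.1 h2]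

end LCA
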