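import Pool.Agent.LCA.Stmts5

/-!
# FDC: folds, the checker
-/

namespace LCA

open Set Filter
open scoped ContDiff Topology

namespace FDC

theorem val_ofNat (b a : ℕ) (h : a < b + 1) : ((Fin.ofNat (b + 1) a : Fin (b + 1)) : ℕ) = a := by
  rw [Fin.val_ofNat]
  exact Nat.mod_eq_of_lt h

theorem w8 {b a : ℤ} (h : Int.mul 8 b = a) : (b : ℝ) = (a : ℝ) / 8 := by
  have h' : 8 * b = a := h
  have : (8 : ℝ) * b = a := by exact_mod_cast h'
  linarith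

theorem p2 {b a c d : ℤ} (h : Int.mul 2 b = Int.add (Int.mul 2 a) (Int.mul c d)) :
    (b : ℝ) = (a : ℝ) + c * ((d : ℝ) / 2) := by
  have h' : 2 * b = 2 * a + c * d := h
  have : (2 : ℝ) * b = 2 * a + c * d := by exact_mod_cast h'
  linarith

theorem m2 {b a c d : ℤ} (h : Int.mul 2 b = Int.sub (Int.mul 2 a) (Int.mul c d)) :
    (b : ℝ) = (a : ℝ) - c * ((d : ℝ) / 2) := by
  have h' : 2 * b = 2 * a - c * d := h
  have : (2 : ℝ) * b = 2 * a - c * d := by exact_mod_cast h'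
  linarith

theorem px2 {b a d : ℤ} (h : Int.mul 2 b = Int.add (Int.mul 2 a) d) :
    (b : ℝ) = (a : ℝ) + (d : ℝ) / 2 := by
  have h' : 2 * b = 2 * a + d := h
  have : (2 : ℝ) * b = 2 * a + d := by exact_mod_cast h'
  linarith

theorem mx2 {b a d : ℤ} (h : Int.mul 2 b = Int.sub (Int.mul 2 a) d) :
    (b : ℝ) = (a : ℝ) - (d : ℝ) / 2 := by
  have h' : 2 * b = 2 * a - d := h
  have : (2 : ℝ) * b = 2 * a - d := by exact_mod_cast h'
  linarith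

end FDC

open FDC in
theorem t_FDC (hCBL : Stmt_CBL) (hCB2 : Stmt_CB2) : Stmt_FDC := by
  intro m n m' n' ιE κE ιV κV i e j A B hA hB vA vB h
  obtain ⟨hbnd, hbor, hilt, hieq, -, -, -, -, hallI, -, -, -⟩ := hCBL
  obtain ⟨hnlt, hnne, hnif, -, hemb⟩ := hCB2
  have hbeq : ∀ i k : ℕ, Nat.beq i k = true ↔ i = k := fun i k => by
    rw [Nat.beq_eq]
  unfold fdOK at h
  simp only [hbnd] at h
  obtain ⟨h1, h2, h3, h4, h5, h6, h7, h8⟩ := h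
  rw [hnlt] at h1
  obtain ⟨he, injE, newE, covE, valE⟩ := hemb _ _ _ _ _ h2
  obtain ⟨hj, injV, newV, covV, valV⟩ := hemb _ _ _ _ _ h3
  rw [hallI VS vs0] at h4
  rw [hallI ES es0] at h5
  rw [hbeq] at h6 h7
  rw [hA.lenV] at h4
  rw [hA.lenE] at h5
  unfold fdJ at h8
  simp only [hbnd, hbeq, hieq] at h8
  obtain ⟨j1, j2, j3, j4, j5, j6, j7, j8⟩ := h8
  set I : Fin (n + 1) := Fin.ofNat (n + 1) i with hI
  set J : Fin (n' + 1) := Fin.ofNat (n' + 1) j with hJ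
  set EE : Fin (m' + 1) := Fin.ofNat (m' + 1) e with hEE
  have vI : (I : ℕ) = i := val_ofNat n i h1
  have vJ : (J : ℕ) = j := val_ofNat n' j hj
  have vEE : (EE : ℕ) = e := val_ofNat m' e he
  -- the vertices
  have h4' : ∀ k : Fin (n + 1), ((k : ℕ) ≠ i ∧ (A.v k).ty = (B.v (lkp 0 ιV k)).ty ∧
      (A.v k).w = (B.v (lkp 0 ιV k)).w ∧ (A.v k).x = (B.v (lkp 0 ιV k)).x ∧
      (A.v k).F = (B.v (lkp 0 ιV k)).F ∧ (A.v k).dx = (B.v (lkp 0 ιV k)).dx ∧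
      (A.v k).dF = (B.v (lkp 0 ιV k)).dF ∧
      (B.v (lkp 0 ιV k)).ea = lkp 0 ιE (A.v k).ea ∧
      (B.v (lkp 0 ιV k)).eb = lkp 0 ιE (A.v k).eb) ∨
      ((k : ℕ) = i ∧ (A.v k).ty = 0 ∧ (B.v (lkp 0 ιV k)).ty = 1 ∧
      (B.v (lkp 0 ιV k)).ea = lkp 0 ιE (A.v k).ea ∧ (B.v (lkp 0 ιV k)).eb = e ∧
      Int.mul 8 (B.v (lkp 0 ιV k)).w = (A.v k).w ∧
      Int.mul 2 (B.v (lkp 0 ιV k)).x = Int.add (Int.mul 2 (A.v k).x) (A.v k).w ∧
      Int.mul 2 (B.v (lkp 0 ιV k)).F =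
        Int.add (Int.mul 2 (A.v k).F) (Int.mul (A.v k).pa (A.v k).w) ∧
      (B.v (lkp 0 ιV k)).dx = (A.v k).dx ∧
      Int.mul 2 (B.v (lkp 0 ιV k)).dF =
        Int.add (Int.mul 2 (A.v k).dF) (Int.mul (A.e (A.v k).ea).dp (A.v k).w)) := by
    intro k
    have h := h4 k k.2
    have h' : fdV ιE i e k (A.v k) (B.v (lkp 0 ιV k)) (A.e (A.v k).ea).dp = true := h
    unfold fdV at h'
    simp only [hbor, hbnd, hbeq, hieq, hnne] at h'
    exact h'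
  have h4n : ∀ k : Fin (n + 1), k ≠ I → (A.v k).ty = (B.v (lkp 0 ιV k)).ty ∧
      (A.v k).w = (B.v (lkp 0 ιV k)).w ∧ (A.v k).x = (B.v (lkp 0 ιV k)).x ∧
      (A.v k).F = (B.v (lkp 0 ιV k)).F ∧ (A.v k).dx = (B.v (lkp 0 ιV k)).dx ∧
      (A.v k).dF = (B.v (lkp 0 ιV k)).dF ∧
      (B.v (lkp 0 ιV k)).ea = lkp 0 ιE (A.v k).ea ∧
      (B.v (lkp 0 ιV k)).eb = lkp 0 ιE (A.v k).eb := by
    intro k hk
    rcases h4' k with ⟨-, h⟩ | ⟨h, -⟩
    · exact h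
    · exact absurd (Fin.ext (by rw [h, vI])) hk
  have h4i := h4' I
  rw [vI] at h4i
  have h4i' := h4i.resolve_left (fun h => h.1 rfl)
  obtain ⟨-, i1, i2, i3, i4, i5, i6, i7, i8, i9⟩ := h4i'
  have h5' : ∀ d : Fin (m + 1), (B.e (lkp 0 ιE d)).rt = lkp 0 ιV (A.e d).rt ∧
      (B.e (lkp 0 ιE d)).lf = (if (d : ℕ) = (A.v i).eb then j else lkp 0 ιV (A.e d).lf) := by
    intro d
    have h := h5 d d.2
    have h' : bnd (Nat.beq (B.e (lkp 0 ιE d)).rt (lkp 0 ιV (A.e d).rt))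
      (Nat.beq (B.e (lkp 0 ιE d)).lf (nif (Nat.beq d (A.v i).eb) j (lkp 0 ιV (A.e d).lf)))
        = true := h
    simp only [hbnd, hbeq, hnif] at h'
    exact h'
  have vebI : (((A.cb m n).eb I : Fin (m + 1)) : ℕ) = (A.v i).eb := by rw [vA.ebv, vI]
  have veaI : (((A.cb m n).ea I : Fin (m + 1)) : ℕ) = (A.v i).ea := by rw [vA.eav, vI]
  -- real numbers
  have wA : A.W n I = ((A.v i).w : ℝ) := by
    have : A.W n I = ((A.v I).w : ℝ) := rfl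
    rw [this, vI]
  have xA : (A.Q n).1 I = ((A.v i).x : ℝ) := by
    have : (A.Q n).1 I = ((A.v I).x : ℝ) := rfl
    rw [this, vI]
  have FA : (A.Q n).2 I = ((A.v i).F : ℝ) := by
    have : (A.Q n).2 I = ((A.v I).F : ℝ) := rfl
    rw [this, vI]
  have dxA : (A.V n).1 I = ((A.v i).dx : ℝ) := by
    have : (A.V n).1 I = ((A.v I).dx : ℝ) := rfl
    rw [this, vI]
  have dFA : (A.V n).2 I = ((A.v i).dF : ℝ) := by
    have : (A.V n).2 I = ((A.v I).dF : ℝ) := rfl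
    rw [this, vI]
  have wJ : B.W n' J = ((B.v j).w : ℝ) := by
    have : B.W n' J = ((B.v J).w : ℝ) := rfl
    rw [this, vJ]
  have xJ : (B.Q n').1 J = ((B.v j).x : ℝ) := by
    have : (B.Q n').1 J = ((B.v J).x : ℝ) := rfl
    rw [this, vJ]
  have FJ : (B.Q n').2 J = ((B.v j).F : ℝ) := by
    have : (B.Q n').2 J = ((B.v J).F : ℝ) := rfl
    rw [this, vJ]
  have dxJ : (B.V n').1 J = ((B.v j).dx : ℝ) := by
    have : (B.V n').1 J = ((B.v J).dx : ℝ) := rfl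
    rw [this, vJ]
  have dFJ : (B.V n').2 J = ((B.v j).dF : ℝ) := by
    have : (B.V n').2 J = ((B.v J).dF : ℝ) := rfl
    rw [this, vJ]
  have wB : ∀ k, B.W n' (ixf n n' ιV k) = ((B.v (lkp 0 ιV k)).w : ℝ) := by
    intro k
    have : B.W n' (ixf n n' ιV k) = ((B.v (ixf n n' ιV k)).w : ℝ) := rfl
    rw [this, valV]
  have xB : ∀ k, (B.Q n').1 (ixf n n' ιV k) = ((B.v (lkp 0 ιV k)).x : ℝ) := by
    intro k
    have : (B.Q n').1 (ixf n n' ιV k) = ((B.v (ixf n n' ιV k)).x : ℝ) := rfl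
    rw [this, valV]
  have FB : ∀ k, (B.Q n').2 (ixf n n' ιV k) = ((B.v (lkp 0 ιV k)).F : ℝ) := by
    intro k
    have : (B.Q n').2 (ixf n n' ιV k) = ((B.v (ixf n n' ιV k)).F : ℝ) := rfl
    rw [this, valV]
  have dxB : ∀ k, (B.V n').1 (ixf n n' ιV k) = ((B.v (lkp 0 ιV k)).dx : ℝ) := by
    intro k
    have : (B.V n').1 (ixf n n' ιV k) = ((B.v (ixf n n' ιV k)).dx : ℝ) := rfl
    rw [this, valV]
  have dFB : ∀ k, (B.V n').2 (ixf n n' ιV k) = ((B.v (lkp 0 ιV k)).dF : ℝ) := by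
    intro k
    have : (B.V n').2 (ixf n n' ιV k) = ((B.v (ixf n n' ιV k)).dF : ℝ) := rfl
    rw [this, valV]
  refine ⟨h1, ⟨vA.valid, injE, injV, newE, newV, covE, covV, ?_, ?_, ?_, ?_, ?_, ?_, ?_, ?_, ?_, ?_,
    ?_, ?_, ?_, ?_, ?_⟩, ⟨vA.len, ?_, ?_, ?_, ?_, ?_, ?_, ?_, ?_, ?_, ?_, ?_, ?_, ?_, ?_, ?_⟩⟩
  · -- tyi
    have h' : (A.cb m n).ty I = tyOf (A.v I).ty := rfl
    rw [h', vI, i1]
    rfl
  · -- tyi'
    have h' : (B.cb m' n').ty (ixf n n' ιV I) = tyOf (B.v (ixf n n' ιV I)).ty := rfl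
    rw [h', valV, vI, i2]
    rfl
  · -- tyj
    have h' : (B.cb m' n').ty J = tyOf (B.v J).ty := rfl
    rw [h', vJ, j1]
    rfl
  · -- eai
    apply Fin.ext
    rw [vB.eav, valV, valE, vI, i3, veaI]
  · -- ebi
    apply Fin.ext
    rw [vB.ebv, valV, vI, i4, vEE]
  · -- eaj
    apply Fin.ext
    rw [vB.eav, vJ, j2, vEE]
  · -- ebj
    apply Fin.ext
    rw [vB.ebv, valE, vJ, j3, vebI]
  · -- lfe
    apply Fin.ext
    rw [vB.lfv, vEE, h6, vJ]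
  · -- rte
    apply Fin.ext
    rw [vB.rtv, vEE, h7, valV, vI]
  · -- lf₀
    apply Fin.ext
    rw [vB.lfv, valE, (h5' _).2, if_pos vebI, vJ]
  · -- lf
    intro d hd
    apply Fin.ext
    rw [vB.lfv, valE, valV, vA.lfv, (h5' d).2, if_neg]
    intro h
    exact hd (Fin.ext (by rw [h, vebI]))
  · -- rt
    intro d
    apply Fin.ext
    rw [vB.rtv, valE, valV, vA.rtv]
    exact (h5' d).1
  · -- ty
    intro k hk
    have h' : (B.cb m' n').ty (ixf n n' ιV k) = tyOf (B.v (ixf n n' ιV k)).ty := rfl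
    rw [h', valV, ← (h4n k hk).1]
    rfl
  · -- ea
    intro k hk
    apply Fin.ext
    rw [vB.eav, valV, (h4n k hk).2.2.2.2.2.2.1, valE, vA.eav]
  · -- eb
    intro k hk
    apply Fin.ext
    rw [vB.ebv, valV, (h4n k hk).2.2.2.2.2.2.2, valE, vA.ebv]
  · -- hw
    intro k hk
    rw [wB, ← (h4n k hk).2.1]
    rfl
  · -- wi
    rw [wB, vI, wA]
    exact w8 i5
  · -- wj
    rw [wJ, wA]
    exact w8 j4
  · intro k hk
    rw [xB, ← (h4n k hk).2.2.1]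
    rfl
  · intro k hk
    rw [FB, ← (h4n k hk).2.2.2.1]
    rfl
  · intro k hk
    rw [dxB, ← (h4n k hk).2.2.2.2.1]
    rfl
  · intro k hk
    rw [dFB, ← (h4n k hk).2.2.2.2.2.1]
    rfl
  · -- xi
    rw [xB, vI, xA, wA]
    exact px2 i6
  · -- xj
    rw [xJ, xA, wA]
    exact mx2 j5
  · -- Fi
    rw [FB, vI, FA, wA, vA.pea, vI]
    exact p2 i7
  · -- Fj
    rw [FJ, FA, wA, vA.peb, vI]
    exact m2 j6
  · -- vxi
    rw [dxB, vI, dxA, i8]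
  · -- vxj
    rw [dxJ, dxA, j7]
  · -- vFi
    rw [dFB, vI, dFA, wA, vA.dpe, veaI]
    exact p2 i9
  · -- vFj
    rw [dFJ, dFA, wA, vA.dpe, vebI]
    exact m2 j8

end LCA
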