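import Pool.Agent.LCA.Stmts5

/-!
# FDR: the relation of a fold at all times
-/

namespace LCA

open Set Filter
open scoped ContDiff Topology

namespace FDR

variable {m n m' n' : ℕ}

theorem slopes (c : Comb m n) (q v : St n) (s : ℝ) (d : Fin m)
    (hl : 0 < q.1 (c.rt d) - q.1 (c.lf d))
    (hl' : 0 < (q + s • v).1 (c.rt d) - (q + s • v).1 (c.lf d))
    (h1 : c.dpe q v d * v.1 (c.lf d) = 0) (h2 : c.dpe q v d * v.1 (c.rt d) = 0) :
    c.pe (q + s • v) d = c.pe q d + s * c.dpe q v d ∧ c.dpe (q + s • v) v d = c.dpe q v d := by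
  have ex : ∀ k, (q + s • v).1 k = q.1 k + s * v.1 k := fun k => rfl
  have eF : ∀ k, (q + s • v).2 k = q.2 k + s * v.2 k := fun k => rfl
  rw [ex, ex] at hl'
  have hp : q.2 (c.rt d) - q.2 (c.lf d) = c.pe q d * (q.1 (c.rt d) - q.1 (c.lf d)) := by
    unfold Comb.pe
    rw [div_mul_cancel₀ _ hl.ne']
  have hd : v.2 (c.rt d) - v.2 (c.lf d) - c.pe q d * (v.1 (c.rt d) - v.1 (c.lf d)) =
      c.dpe q v d * (q.1 (c.rt d) - q.1 (c.lf d)) := by
    unfold Comb.dpe
    rw [div_mul_cancel₀ _ hl.ne']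
  have e1 : c.pe (q + s • v) d = c.pe q d + s * c.dpe q v d := by
    have : c.pe (q + s • v) d = (q.2 (c.rt d) + s * v.2 (c.rt d) - (q.2 (c.lf d) +
        s * v.2 (c.lf d))) / (q.1 (c.rt d) + s * v.1 (c.rt d) - (q.1 (c.lf d) +
        s * v.1 (c.lf d))) := rfl
    rw [this, div_eq_iff hl'.ne']
    linear_combination hp + s * hd + s ^ 2 * h1 - s ^ 2 * h2
  refine ⟨e1, ?_⟩
  have : c.dpe (q + s • v) v d = (v.2 (c.rt d) - v.2 (c.lf d) - c.pe (q + s • v) d *
      (v.1 (c.rt d) - v.1 (c.lf d))) / (q.1 (c.rt d) + s * v.1 (c.rt d) - (q.1 (c.lf d) +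
        s * v.1 (c.lf d))) := rfl
  rw [this, e1, div_eq_iff hl'.ne']
  linear_combination hd + 2 * s * h1 - 2 * s * h2

end FDR

theorem t_FDR (hLNP : Stmt_LNP) : Stmt_FDR := by
  intro m n m' n' c c' ιE ιV i e j w w' q v q' v' s hc hs h1 h2 hw hl
  have key : ∀ d, c.pe (q + s • v) d = c.pe q d + s * c.dpe q v d ∧
      c.dpe (q + s • v) v d = c.dpe q v d := by
    intro d
    refine FDR.slopes c q v s d ?_ ?_ (h1 d) (h2 d)
    · have := hs.len d
      have a := hw (c.lf d)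
      have b := hw (c.rt d)
      linarith
    · have := hl d
      have a := hw (c.lf d)
      have b := hw (c.rt d)
      linarith
  have ex : ∀ k, (q + s • v).1 k = q.1 k + s * v.1 k := fun k => rfl
  have eF : ∀ k, (q + s • v).2 k = q.2 k + s * v.2 k := fun k => rfl
  have ex' : ∀ k, (q' + s • v').1 k = q'.1 k + s * v'.1 k := fun k => rfl
  have eF' : ∀ k, (q' + s • v').2 k = q'.2 k + s * v'.2 k := fun k => rfl
  constructor
  · exact hl
  · exact hs.hw
  · exact hs.wi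
  · exact hs.wj
  · intro k hk
    rw [ex, ex', hs.qx k hk, hs.vx k hk]
  · intro k hk
    rw [eF, eF', hs.qF k hk, hs.vF k hk]
  · exact hs.vx
  · exact hs.vF
  · rw [ex, ex', hs.xi, hs.vxi]
    ring
  · rw [ex, ex', hs.xj, hs.vxj]
    ring
  · rw [eF, eF', hs.Fi, hs.vFi, (key _).1]
    ring
  · rw [eF, eF', hs.Fj, hs.vFj, (key _).1]
    ring
  · exact hs.vxi
  · exact hs.vxj
  · rw [hs.vFi, (key _).2]
  · rw [hs.vFj, (key _).2]

end LCA
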