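import Pool.Agent.LCA.Stmts1

/-!
# Part A: a complete cap is an exact Lagrangian cap
-/

namespace LCA

open Set Filter
open scoped ContDiff Topology

namespace FIN

/-- The surface in the symplectization over the cylindrical part. -/
theorem mem_end {K : Set LC.R3} {A : Set E5} {e₀ : ℝ} (hA : Agree (Ioo 0 e₀) A (cyl K))
    {q : LC.R4} (hq : Real.exp q.1 < e₀) {F : ℝ}
    (h : (Real.exp q.1, q.2.1, Real.exp q.1 * q.2.2.1, q.2.2.2, F) ∈ A) :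
    q.2 ∈ K ∧ F = Real.exp q.1 * q.2.2.2 := by
  have h1 := (hA (Real.exp q.1, q.2.1, Real.exp q.1 * q.2.2.1, q.2.2.2, F)
    ⟨Real.exp_pos _, hq⟩).1 h
  obtain ⟨r, hr, e⟩ := h1
  simp only [Prod.mk.injEq] at e
  obtain ⟨e1, e2, e3, e4⟩ := e
  have e5 : q.2.2.1 = r.2.1 := mul_left_cancel₀ (Real.exp_pos q.1).ne' e2
  have e6 : q.2 = r := Prod.ext e1 (Prod.ext e5 e3)
  refine ⟨by rw [e6]; exact hr, ?_⟩
  rw [e4, e3]

theorem end_mem {K : Set LC.R3} {A : Set E5} {e₀ : ℝ} (hA : Agree (Ioo 0 e₀) A (cyl K))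
    {q : LC.R4} (hq : Real.exp q.1 < e₀) (h : q.2 ∈ K) :
    (Real.exp q.1, q.2.1, Real.exp q.1 * q.2.2.1, q.2.2.2, Real.exp q.1 * q.2.2.2) ∈ A :=
  (hA _ ⟨Real.exp_pos _, hq⟩).2 ⟨q.2, h, rfl⟩

end FIN

open FIN in
/-- FIN: a complete cap is an exact Lagrangian cap. -/
theorem t_FIN (hTCH : Stmt_TCH) (hTEX : Stmt_TEX) (hLAG : Stmt_LAG) (hTTO : Stmt_TTO) :
    Stmt_FIN := by
  intro Λ hC
  obtain ⟨A, hG, hD, ⟨e₀, he₀, hA⟩, S, hS⟩ := hC
  obtain ⟨hcl, hco, hcp⟩ := hTTO Λ A e₀ S hG hD he₀ hA hS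
  obtain ⟨f, hf, hch⟩ := hTEX A hG
  refine ⟨surfL A, hcl, hco, hTCH A hG, ?_, ?_⟩
  · intro U V φ hφ
    obtain ⟨h1, h2⟩ := hch U V φ hφ
    exact hLAG U φ _ hφ.openU hφ.smooth h1 h2
  · obtain ⟨T₁, hT₁⟩ : ∃ T₁ : ℝ, Real.exp (-T₁) = e₀ :=
      ⟨-Real.log e₀, by rw [neg_neg, Real.exp_log he₀]⟩
    have hS1 : S < Real.exp (|S| + 1) := by
      have h1 := Real.add_one_le_exp (|S| + 1)
      linarith [le_abs_self S]
    have hlt : ∀ q : LC.R4, q.1 < -(max T₁ (|S| + 1)) → Real.exp q.1 < e₀ := by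
      intro q hq
      rw [← hT₁, Real.exp_lt_exp]
      linarith [le_max_left T₁ (|S| + 1)]
    refine ⟨max T₁ (|S| + 1), lt_of_lt_of_le (by positivity) (le_max_right _ _), ?_, ?_,
      hcp _, f, 0, ?_, ?_⟩
    · intro q hq
      constructor
      · rintro ⟨F, hF⟩
        exact (mem_end hA (hlt q hq) hF).1
      · intro h
        exact ⟨_, end_mem hA (hlt q hq) h⟩
    · rintro q ⟨F, hF⟩
      have h1 : Real.exp q.1 ≤ S := hS _ hF (Real.exp_pos _)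
      have h2 : Real.exp q.1 < Real.exp (|S| + 1) := lt_of_le_of_lt h1 hS1
      exact ((Real.exp_lt_exp.1 h2).le).trans (le_max_right _ _)
    · rintro q ⟨F, hF⟩ hq
      rw [hf q F hF, (mem_end hA (hlt q hq) hF).2, sub_self]
    · intro U V φ hφ u hu
      obtain ⟨h1, h2⟩ := hch U V φ hφ
      exact ⟨(h1.contDiffAt (hφ.openU.mem_nhds hu)).differentiableAt (by norm_num), h2 u hu⟩

end LCA
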