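import Pool.Agent.LCA.Stmts2

/-!
# Part A: the initial cylinder and knot, widths, trivial vertices, folds
-/

namespace LCA

open Set Filter
open scoped ContDiff Topology

variable {m n m' n' : ℕ}

/-! ### the beginning -/

/-- The subset of `ℝ³` given by a slice at the time `1` of a cylinder. -/
def Comb.knot (c : Comb m n) (sh : Shape) (w : Fin n → ℝ) (Q : St n) : Set LC.R3 :=
  {r | (r.1, r.2.1, r.2.2, r.2.2) ∈ c.slice w (c.sp sh) 0 Q (0, Q.2)}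

/-- CYL: the cylinder. -/
def Stmt_CYL : Prop :=
  ∀ {m n : ℕ} (sh : Shape) (c : Comb m n) (w : Fin n → ℝ) (Q : St n), c.Valid →
    (∀ i, 0 < w i) → c.Cert w Q (0, Q.2) → At (c.knot sh w Q) sh c w Q (0, Q.2) 1

/-- The polygon has one component; the vertex `i + 1` follows the vertex `i`, the edge `i` joins
them. -/
structure Comb.Cyc [NeZero n] (c : Comb n n) : Prop where
  edge : ∀ i, (c.lf i = i ∧ c.rt i = i + 1) ∨ (c.lf i = i + 1 ∧ c.rt i = i)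
  vert : ∀ i, (c.ea (i + 1) = i ∧ c.eb (i + 1) = i + 1) ∨ (c.ea (i + 1) = i + 1 ∧ c.eb (i + 1) = i)

/-- KNT: the slice is a Legendrian knot. -/
def Stmt_KNT : Prop :=
  ∀ {n : ℕ} [NeZero n] (sh : Shape) (c : Comb n n) (w : Fin n → ℝ) (Q : St n), c.Valid → c.Cyc →
    (∀ i, 0 < w i) → c.Cert w Q (0, Q.2) →
    (∀ e, 6 * (w (c.lf e) + w (c.rt e)) < Q.1 (c.rt e) - Q.1 (c.lf e)) →
    ∃ Λ : LC.LegKnot, Λ.carrier = c.knot sh w Q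

/-! ### changes of the description -/

/-- The edges `ea` and `eb` of a tip are exchanged. -/
structure SwpComb (c c' : Comb m n) (i : Fin n) : Prop where
  valid : c.Valid
  tip : c.ty i ≠ .P
  lf : c'.lf = c.lf
  rt : c'.rt = c.rt
  ty : c'.ty = c.ty
  ea : c'.ea i = c.eb i
  eb : c'.eb i = c.ea i
  ea' : ∀ j, j ≠ i → c'.ea j = c.ea j
  eb' : ∀ j, j ≠ i → c'.eb j = c.eb j

/-- SWP: exchange of `ea` and `eb` at a tip. -/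
def Stmt_SWP : Prop :=
  ∀ {m n : ℕ} (sh : Shape) (c c' : Comb m n) (w : Fin n → ℝ) (i : Fin n) (q v : St n),
    SwpComb c c' i → (∀ e, q.1 (c.lf e) < q.1 (c.rt e)) →
    c'.Valid ∧ c.slice w (c.sp sh) 0 q v = c'.slice w (c'.sp sh) 0 q v

/-- The polygon `c'` is obtained from `c` by a trivial vertex `j` on the edge `e₀`. The edge
`ιE e₀` is the left part, `e` is the right part. -/
structure InsComb (c : Comb m n) (c' : Comb m' n') (ιE : Fin m → Fin m') (ιV : Fin n → Fin n')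
    (e₀ : Fin m) (e : Fin m') (j : Fin n') : Prop where
  valid : c.Valid
  injE : Function.Injective ιE
  injV : Function.Injective ιV
  newE : ∀ d, ιE d ≠ e
  newV : ∀ k, ιV k ≠ j
  covE : ∀ d', d' = e ∨ ∃ d, ιE d = d'
  covV : ∀ k', k' = j ∨ ∃ k, ιV k = k'
  ty : ∀ k, c'.ty (ιV k) = c.ty k
  tyj : c'.ty j = .P
  eaj : c'.ea j = ιE e₀
  ebj : c'.eb j = e
  lf : ∀ d, c'.lf (ιE d) = ιV (c.lf d)
  rt : ∀ d, d ≠ e₀ → c'.rt (ιE d) = ιV (c.rt d)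
  rt₀ : c'.rt (ιE e₀) = j
  lfe : c'.lf e = j
  rte : c'.rt e = ιV (c.rt e₀)
  ea : ∀ k, ¬ (k = c.rt e₀ ∧ c.ea k = e₀) → c'.ea (ιV k) = ιE (c.ea k)
  eb : ∀ k, ¬ (k = c.rt e₀ ∧ c.eb k = e₀) → c'.eb (ιV k) = ιE (c.eb k)
  ea₀ : c.ea (c.rt e₀) = e₀ → c'.ea (ιV (c.rt e₀)) = e
  eb₀ : c.eb (c.rt e₀) = e₀ → c'.eb (ιV (c.rt e₀)) = e

/-- The positions and velocities after the insertion of a trivial vertex. -/
structure InsSt (c : Comb m n) (c' : Comb m' n') (ιV : Fin n → Fin n') (e₀ : Fin m) (j : Fin n')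
    (w : Fin n → ℝ) (w' : Fin n' → ℝ) (q v : St n) (q' v' : St n') : Prop where
  len : ∀ d, q.1 (c.lf d) < q.1 (c.rt d)
  hw : ∀ k, w' (ιV k) = w k
  wj : 0 < w' j
  qx : ∀ k, q'.1 (ιV k) = q.1 k
  qF : ∀ k, q'.2 (ιV k) = q.2 k
  vx : ∀ k, v'.1 (ιV k) = v.1 k
  vF : ∀ k, v'.2 (ιV k) = v.2 k
  left : q.1 (c.lf e₀) + 2 * w (c.lf e₀) ≤ q'.1 j - 2 * w' j
  right : q'.1 j + 2 * w' j ≤ q.1 (c.rt e₀) - 2 * w (c.rt e₀)
  Fj : q'.2 j = c.pe q e₀ * q'.1 j + c.ae q e₀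
  vj : v'.2 j = c.dpe q v e₀ * q'.1 j + c.dae q v e₀ + c.pe q e₀ * v'.1 j

/-- INS: insertion of a trivial vertex. -/
def Stmt_INS : Prop :=
  ∀ {m n m' n' : ℕ} (sh : Shape) (c : Comb m n) (c' : Comb m' n') (ιE : Fin m → Fin m')
    (ιV : Fin n → Fin n') (e₀ : Fin m) (e : Fin m') (j : Fin n') (w : Fin n → ℝ)
    (w' : Fin n' → ℝ) (q v : St n) (q' v' : St n'), InsComb c c' ιE ιV e₀ e j →
    (∀ i, 0 < w i) → InsSt c c' ιV e₀ j w w' q v q' v' →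
    c'.Valid ∧ c.slice w (c.sp sh) 0 q v = c'.slice w' (c'.sp sh) 0 q' v'

/-! ### moving profiles -/

/-- WPR: profiles with decreasing widths. -/
def Stmt_WPR : Prop :=
  ∀ (sh : Shape) (ty : Ty) (l : ℝ), 0 < l → l ≤ 1 → ∃ π : Prof,
    (∀ (J : Set ℝ) (D : ℝ → ℝ), IsOpen J → (∀ s ∈ J, ty ≠ .P → D s ≠ 0) → ProfOK J ty D π) ∧
    (∀ s ≤ -(1 / 4 : ℝ), ∀ u, π.X s u = (sh.st ty).X 0 u ∧ π.P s u = sh.τ u ∧
      π.Θ s u = (sh.st ty).Θ 0 u) ∧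
    ∀ s ≥ (1 / 4 : ℝ), ∀ u, π.X s u = l * (sh.st ty).X 0 (u / l) ∧ π.P s u = sh.τ (u / l) ∧
      π.Θ s u = l * (sh.st ty).Θ 0 (u / l)

/-- WEQ: a profile of width `l w` is a profile of width `w`. -/
def Stmt_WEQ : Prop :=
  ∀ {m n : ℕ} (sh : Shape) (c : Comb m n) (w w' l : Fin n → ℝ) (q v : St n) (π : Fin n → Prof)
    (s : ℝ), c.Valid → (∀ i, 0 < w i) → (∀ i, 0 < l i) → (∀ i, l i ≤ 1) →
    (∀ i, w' i = l i * w i) → (∀ e, 2 * (w (c.lf e) + w (c.rt e)) < q.1 (c.rt e) - q.1 (c.lf e)) →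
    (∀ i, ∀ u, (π i).X s u = l i * (sh.st (c.ty i)).X 0 (u / l i) ∧
      (π i).P s u = sh.τ (u / l i) ∧ (π i).Θ s u = l i * (sh.st (c.ty i)).Θ 0 (u / l i) ∧
      (π i).Y s u = 0) →
    c.slice w π s q v = c.slice w' (c.sp sh) 0 q v

/-- WID: the widths may be decreased or increased. -/
def Stmt_WID : Prop :=
  ∀ {m n : ℕ} (K : Set LC.R3) (sh : Shape) (c : Comb m n) (w w' : Fin n → ℝ) (Q V : St n) (t : ℝ),
    c.Valid → (∀ i, 0 < w' i) → (∀ i, w' i ≤ w i) →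
    (∀ s ∈ Icc t (t + 1), c.Cert w (lin Q V t s) V) →
    (At K sh c w Q V t → At K sh c w' (lin Q V t (t + 1)) V (t + 1)) ∧
    (At K sh c w' Q V t → At K sh c w (lin Q V t (t + 1)) V (t + 1))

/-- The polygon `c'` is obtained from `c` by a fold at the pass `i`: the pass is replaced by the
right tip `ιV i`, the edge `e` and the left tip `j`. -/
structure FoldComb (c : Comb m n) (c' : Comb m' n') (ιE : Fin m → Fin m') (ιV : Fin n → Fin n')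
    (i : Fin n) (e : Fin m') (j : Fin n') : Prop where
  valid : c.Valid
  injE : Function.Injective ιE
  injV : Function.Injective ιV
  newE : ∀ d, ιE d ≠ e
  newV : ∀ k, ιV k ≠ j
  covE : ∀ d', d' = e ∨ ∃ d, ιE d = d'
  covV : ∀ k', k' = j ∨ ∃ k, ιV k = k'
  tyi : c.ty i = .P
  tyi' : c'.ty (ιV i) = .R
  tyj : c'.ty j = .L
  eai : c'.ea (ιV i) = ιE (c.ea i)
  ebi : c'.eb (ιV i) = e
  eaj : c'.ea j = e
  ebj : c'.eb j = ιE (c.eb i)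
  lfe : c'.lf e = j
  rte : c'.rt e = ιV i
  lf₀ : c'.lf (ιE (c.eb i)) = j
  lf : ∀ d, d ≠ c.eb i → c'.lf (ιE d) = ιV (c.lf d)
  rt : ∀ d, c'.rt (ιE d) = ιV (c.rt d)
  ty : ∀ k, k ≠ i → c'.ty (ιV k) = c.ty k
  ea : ∀ k, k ≠ i → c'.ea (ιV k) = ιE (c.ea k)
  eb : ∀ k, k ≠ i → c'.eb (ιV k) = ιE (c.eb k)

/-- The positions, velocities and widths after a fold. -/
structure FoldSt (c : Comb m n) (c' : Comb m' n') (ιV : Fin n → Fin n') (i : Fin n) (j : Fin n')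
    (w : Fin n → ℝ) (w' : Fin n' → ℝ) (q v : St n) (q' v' : St n') : Prop where
  len : ∀ d, 2 * (w (c.lf d) + w (c.rt d)) < q.1 (c.rt d) - q.1 (c.lf d)
  hw : ∀ k, k ≠ i → w' (ιV k) = w k
  wi : w' (ιV i) = w i / 8
  wj : w' j = w i / 8
  qx : ∀ k, k ≠ i → q'.1 (ιV k) = q.1 k
  qF : ∀ k, k ≠ i → q'.2 (ιV k) = q.2 k
  vx : ∀ k, k ≠ i → v'.1 (ιV k) = v.1 k
  vF : ∀ k, k ≠ i → v'.2 (ιV k) = v.2 k
  xi : q'.1 (ιV i) = q.1 i + w i / 2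
  xj : q'.1 j = q.1 i - w i / 2
  Fi : q'.2 (ιV i) = q.2 i + c.pe q (c.ea i) * (w i / 2)
  Fj : q'.2 j = q.2 i - c.pe q (c.eb i) * (w i / 2)
  vxi : v'.1 (ιV i) = v.1 i
  vxj : v'.1 j = v.1 i
  vFi : v'.2 (ιV i) = v.2 i + c.dpe q v (c.ea i) * (w i / 2)
  vFj : v'.2 j = v.2 i - c.dpe q v (c.eb i) * (w i / 2)

/-- The folded profile. -/
def FoldSet (sh : Shape) (x p θ : ℝ) : Prop :=
  (-2 ≤ x ∧ x ≤ 1 / 4 ∧ p = 0 ∧ θ = 0) ∨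
  (∃ u, |u| ≤ 2 ∧ x = 1 / 2 + sh.ξ u / 8 ∧ p = sh.τ u / 2 ∧ θ = sh.ΘR u / 16) ∨
  (-(1 / 4) ≤ x ∧ x ≤ 1 / 4 ∧ p = 1 / 2 ∧ θ = (x - 1 / 2) / 2) ∨
  (∃ u, |u| ≤ 2 ∧ x = -(1 / 2) - sh.ξ u / 8 ∧ p = 1 / 2 + sh.τ u / 2 ∧
    θ = (x - 1 / 2) / 2 - sh.ΘR u / 16) ∨
  (-(1 / 4) ≤ x ∧ x ≤ 2 ∧ p = 1 ∧ θ = x)

/-- A profile which folds. -/
structure FoldProf (sh : Shape) (π : Prof) : Prop where
  ok : ∀ (J : Set ℝ) (D : ℝ → ℝ), IsOpen J → (∀ s ∈ J, D s ≠ 0) → ProfOK J .P D π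
  early : ∀ s ≤ -(1 / 4 : ℝ), ∀ u, π.X s u = u ∧ π.P s u = sh.τ u ∧ π.Θ s u = sh.ΘP u
  const : ∀ s ≥ (1 / 4 : ℝ), ∀ u, π.X s u = π.X 1 u ∧ π.P s u = π.P 1 u ∧ π.Θ s u = π.Θ 1 u
  late : ∀ x p θ, (∃ u, |u| ≤ 2 ∧ π.X 1 u = x ∧ π.P 1 u = p ∧ π.Θ 1 u = θ) ↔ FoldSet sh x p θ

/-- FPR: a folding profile exists. -/
def Stmt_FPR : Prop := ∀ sh : Shape, ∃ π : Prof, FoldProf sh π

/-- FEQ: the folded slice. -/
def Stmt_FEQ : Prop :=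
  ∀ {m n m' n' : ℕ} (sh : Shape) (c : Comb m n) (c' : Comb m' n') (ιE : Fin m → Fin m')
    (ιV : Fin n → Fin n') (i : Fin n) (e : Fin m') (j : Fin n') (w : Fin n → ℝ)
    (w' : Fin n' → ℝ) (q v : St n) (q' v' : St n') (π : Fin n → Prof) (s : ℝ),
    FoldComb c c' ιE ιV i e j → (∀ i, 0 < w i) → FoldSt c c' ιV i j w w' q v q' v' →
    FoldProf sh (π i) → 1 / 4 ≤ s → (∀ u, (π i).Y s u = 0) →
    (∀ k, k ≠ i → π k = sh.st (c.ty k)) →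
    c'.Valid ∧ c.slice w π s q v = c'.slice w' (c'.sp sh) 0 q' v'

/-- FLD: a fold. -/
def Stmt_FLD : Prop :=
  ∀ {m n m' n' : ℕ} (K : Set LC.R3) (sh : Shape) (c : Comb m n) (c' : Comb m' n')
    (ιE : Fin m → Fin m') (ιV : Fin n → Fin n') (i : Fin n) (e : Fin m') (j : Fin n')
    (w : Fin n → ℝ) (w' : Fin n' → ℝ) (Q V : St n) (Q' V' : St n') (t : ℝ),
    FoldComb c c' ιE ιV i e j → (∀ i, 0 < w i) →
    (∀ s ∈ Icc t (t + 1), c.Cert w (lin Q V t s) V) →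
    (∀ s ∈ Icc t (t + 1), c.dl (lin Q V t s) i ≠ 0) →
    (∀ s : ℝ, (∀ d, 2 * (w (c.lf d) + w (c.rt d)) <
        (lin Q V t s).1 (c.rt d) - (lin Q V t s).1 (c.lf d)) →
      FoldSt c c' ιV i j w w' (lin Q V t s) V (lin Q' V' t s) V') →
    (At K sh c w Q V t → At K sh c' w' (lin Q' V' t (t + 1)) V' (t + 1)) ∧
    (At K sh c' w' Q' V' t → At K sh c w (lin Q V t (t + 1)) V (t + 1))

end LCA
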