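import Mathlib
import Pool.Agent.LCA.Stmts3

/-!
# Module FLD: the fold transition
-/

namespace LCA

open Set Filter
open scoped ContDiff Topology

namespace FLD

/-! ### linear paths -/

lemma lin_fst {n : ℕ} (Q V : St n) (t s : ℝ) (k : Fin n) :
    (lin Q V t s).1 k = Q.1 k + (s - t) * V.1 k := by
  simp [lin]

lemma lin_snd {n : ℕ} (Q V : St n) (t s : ℝ) (k : Fin n) :
    (lin Q V t s).2 k = Q.2 k + (s - t) * V.2 k := by
  simp [lin]

lemma lin_lin {n : ℕ} (Q V : St n) (t t' s : ℝ) : lin (lin Q V t t') V t' s = lin Q V t s := by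
  unfold lin
  rw [add_assoc, ← add_smul]
  congr 2
  ring

lemma deriv_lin {n : ℕ} (Q V : St n) (t s : ℝ) : deriv (lin Q V t) s = V := by
  have h : HasDerivAt (fun r : ℝ => Q + (r - t) • V) ((1 : ℝ) • V) s :=
    (((hasDerivAt_id s).sub_const t).smul_const V).const_add Q
  have h' := h.deriv
  rw [one_smul] at h'
  exact h'

/-! ### slices -/

lemma slice_congr {m n : ℕ} (c : Comb m n) (w : Fin n → ℝ) (π π' : Fin n → Prof) (s s' : ℝ)
    (q v : St n) (h : ∀ k u, (π k).X s u = (π' k).X s' u ∧ (π k).P s u = (π' k).P s' u ∧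
      (π k).Θ s u = (π' k).Θ s' u ∧ (π k).Y s u = (π' k).Y s' u) :
    c.slice w π s q v = c.slice w π' s' q v := by
  have hv : ∀ k u, c.vp w π s q v k u = c.vp w π' s' q v k u := by
    intro k u
    obtain ⟨h1, h2, h3, h4⟩ := h k u
    unfold Comb.vp
    rw [h1, h2, h3, h4]
  unfold Comb.slice
  ext r
  simp only [mem_ofPred_eq]
  simp only [hv]

/-! ### reparametrized profiles -/

/-- The profile with the time `a s + b`. -/
def tp (π : Prof) (a b : ℝ) : Prof where
  X s u := π.X (a * s + b) u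
  P s u := π.P (a * s + b) u
  Θ s u := π.Θ (a * s + b) u
  Y s u := a * π.Y (a * s + b) u

lemma smooth_comp (f : ℝ → ℝ → ℝ) (a b : ℝ)
    (h : ContDiff ℝ ∞ (fun p : ℝ × ℝ => f p.1 p.2)) :
    ContDiff ℝ ∞ (fun p : ℝ × ℝ => f (a * p.1 + b) p.2) := by
  have hg : ContDiff ℝ ∞ (fun p : ℝ × ℝ => (a * p.1 + b, p.2)) :=
    ((contDiff_const.mul contDiff_fst).add contDiff_const).prodMk contDiff_snd
  exact h.comp hg

lemma deriv_time (f : ℝ → ℝ → ℝ) (a b : ℝ)
    (h : ContDiff ℝ ∞ (fun p : ℝ × ℝ => f p.1 p.2)) (s u : ℝ) :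
    deriv (fun r => f (a * r + b) u) s = a * deriv (fun r => f r u) (a * s + b) := by
  have hf : Differentiable ℝ (fun r => f r u) := by
    have h1 : ContDiff ℝ ∞ (fun r : ℝ => (r, u)) := contDiff_id.prodMk contDiff_const
    have h2 : ContDiff ℝ ∞ (fun r : ℝ => f r u) := h.comp h1
    exact h2.differentiable (by simp)
  have h1 : HasDerivAt (fun r : ℝ => a * r + b) a s := by
    simpa using ((hasDerivAt_id s).const_mul a).add_const b
  have h2 : HasDerivAt (fun r => f r u) (deriv (fun r => f r u) (a * s + b)) (a * s + b) :=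
    (hf _).hasDerivAt
  have h3 := (HasDerivAt.comp s h2 h1).deriv
  rw [mul_comm] at h3
  exact h3

section prof

variable {sh : Shape} {π : Prof}

lemma okU (hπ : FoldProf sh π) : ProfOK univ .P (fun _ => 1) π :=
  hπ.ok univ (fun _ => 1) isOpen_univ (fun _ _ => one_ne_zero)

lemma smU {f : ℝ × ℝ → ℝ} (h : ContDiffOn ℝ ∞ f ((univ : Set ℝ) ×ˢ (univ : Set ℝ))) :
    ContDiff ℝ ∞ f := by
  rw [univ_prod_univ, contDiffOn_univ] at h
  exact h

lemma tp_ok (hπ : FoldProf sh π) (a b : ℝ) (ha : |a| = 1) (J : Set ℝ) (D : ℝ → ℝ)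
    (hD : ∀ s ∈ J, D s ≠ 0) : ProfOK J .P D (tp π a b) := by
  have H := okU hπ
  have sX := smU H.X_smooth
  have sP := smU H.P_smooth
  have sΘ := smU H.Θ_smooth
  refine ⟨(smooth_comp π.X a b sX).contDiffOn, (smooth_comp π.P a b sP).contDiffOn,
    (smooth_comp π.Θ a b sΘ).contDiffOn, ?_, ?_, ?_, ?_, ?_⟩
  · intro s _ u
    exact H.dΘ (a * s + b) (mem_univ _) u
  · intro s _ u
    change a * π.Y (a * s + b) u = deriv (fun r => π.Θ (a * r + b) u) s
      - π.P (a * s + b) u * deriv (fun r => π.X (a * r + b) u) s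
    rw [deriv_time π.Θ a b sΘ, deriv_time π.X a b sX, H.Y_eq (a * s + b) (mem_univ _) u]
    ring
  · intro s _
    have B := H.bd (a * s + b) (mem_univ _)
    refine ⟨B.low, B.high, B.X_bd, B.P_mem, B.Θ_bd, ?_⟩
    intro u hu
    change |a * π.Y (a * s + b) u| ≤ CY
    rw [abs_mul, ha, one_mul]
    exact B.Y_bd u hu
  · intro s hs u hu
    rcases H.imm (a * s + b) (mem_univ _) u hu with h | h
    · exact Or.inl h
    · right
      rw [one_mul] at h
      exact mul_ne_zero (hD s hs) h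
  · intro s hs u u' hu hu' hX hP
    apply H.inj (a * s + b) (mem_univ _) u u' hu hu' hX
    have := mul_left_cancel₀ (hD s hs) hP
    change π.P (a * s + b) u = π.P (a * s + b) u' at this
    change (1 : ℝ) * π.P (a * s + b) u = 1 * π.P (a * s + b) u'
    rw [this]

lemma Y_early (hπ : FoldProf sh π) (s : ℝ) (hs : s < -(1 / 4 : ℝ)) (u : ℝ) : π.Y s u = 0 := by
  have H := okU hπ
  rw [H.Y_eq s (mem_univ _) u]
  have e1 : (fun r => π.Θ r u) =ᶠ[𝓝 s] fun _ => sh.ΘP u := by
    filter_upwards [Iio_mem_nhds hs] with r hr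
    exact (hπ.early r (le_of_lt hr) u).2.2
  have e2 : (fun r => π.X r u) =ᶠ[𝓝 s] fun _ => u := by
    filter_upwards [Iio_mem_nhds hs] with r hr
    exact (hπ.early r (le_of_lt hr) u).1
  rw [e1.deriv_eq, e2.deriv_eq]
  simp

lemma Y_late (hπ : FoldProf sh π) (s : ℝ) (hs : (1 / 4 : ℝ) < s) (u : ℝ) : π.Y s u = 0 := by
  have H := okU hπ
  rw [H.Y_eq s (mem_univ _) u]
  have e1 : (fun r => π.Θ r u) =ᶠ[𝓝 s] fun _ => π.Θ 1 u := by
    filter_upwards [Ioi_mem_nhds hs] with r hr
    exact (hπ.const r (le_of_lt hr) u).2.2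
  have e2 : (fun r => π.X r u) =ᶠ[𝓝 s] fun _ => π.X 1 u := by
    filter_upwards [Ioi_mem_nhds hs] with r hr
    exact (hπ.const r (le_of_lt hr) u).1
  rw [e1.deriv_eq, e2.deriv_eq]
  simp

end prof

/-! ### a neighbourhood of the time interval -/

lemma contAt_pe {m n : ℕ} (c : Comb m n) (Q V : St n) (t s : ℝ) (e : Fin m)
    (h : (lin Q V t s).1 (c.rt e) - (lin Q V t s).1 (c.lf e) ≠ 0) :
    ContinuousAt (fun r => c.pe (lin Q V t r) e) s := by
  unfold Comb.pe
  simp only [lin_fst, lin_snd] at h ⊢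
  apply ContinuousAt.div
  · fun_prop
  · fun_prop
  · exact h

lemma contAt_dl {m n : ℕ} (c : Comb m n) (Q V : St n) (t s : ℝ) (k : Fin n)
    (h : ∀ e, (lin Q V t s).1 (c.rt e) - (lin Q V t s).1 (c.lf e) ≠ 0) :
    ContinuousAt (fun r => c.dl (lin Q V t r) k) s := by
  unfold Comb.dl
  exact (contAt_pe c Q V t s _ (h _)).sub (contAt_pe c Q V t s _ (h _))

/-- The conditions which are needed near the time interval. -/
def US {m n : ℕ} (c : Comb m n) (w : Fin n → ℝ) (i : Fin n) (Q V : St n) (t : ℝ) : Set ℝ :=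
  {s | (∀ d, 2 * (w (c.lf d) + w (c.rt d)) <
        (lin Q V t s).1 (c.rt d) - (lin Q V t s).1 (c.lf d)) ∧
      (∀ k, c.ty k ≠ .P → c.dl (lin Q V t s) k ≠ 0) ∧ c.dl (lin Q V t s) i ≠ 0}

lemma US_nhds {m n : ℕ} (c : Comb m n) (w : Fin n → ℝ) (i : Fin n) (Q V : St n) (t s : ℝ)
    (hw : ∀ i, 0 < w i) (hs : s ∈ US c w i Q V t) : US c w i Q V t ∈ 𝓝 s := by
  obtain ⟨h1, h2, h3⟩ := hs
  have hne : ∀ e, (lin Q V t s).1 (c.rt e) - (lin Q V t s).1 (c.lf e) ≠ 0 := by
    intro e
    have := h1 e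
    have h4 := hw (c.lf e)
    have h5 := hw (c.rt e)
    have : 0 < (lin Q V t s).1 (c.rt e) - (lin Q V t s).1 (c.lf e) := by linarith
    exact ne_of_gt this
  have g1 : ∀ᶠ r in 𝓝 s, ∀ d, 2 * (w (c.lf d) + w (c.rt d)) <
        (lin Q V t r).1 (c.rt d) - (lin Q V t r).1 (c.lf d) := by
    rw [eventually_all]
    intro d
    have hc : ContinuousAt (fun r => (lin Q V t r).1 (c.rt d) - (lin Q V t r).1 (c.lf d)) s := by
      simp only [lin_fst]
      fun_prop
    exact hc.eventually (lt_mem_nhds (h1 d))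
  have g2 : ∀ᶠ r in 𝓝 s, ∀ k, c.ty k ≠ .P → c.dl (lin Q V t r) k ≠ 0 := by
    rw [eventually_all]
    intro k
    by_cases hk : c.ty k = .P
    · exact Eventually.of_forall fun r h => absurd hk h
    · have := (contAt_dl c Q V t s k hne).eventually_ne (h2 k hk)
      filter_upwards [this] with r hr _
      exact hr
  have g3 : ∀ᶠ r in 𝓝 s, c.dl (lin Q V t r) i ≠ 0 :=
    (contAt_dl c Q V t s i hne).eventually_ne h3
  filter_upwards [g1, g2, g3] with r r1 r2 r3
  exact ⟨r1, r2, r3⟩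

lemma exists_eps (U : Set ℝ) (t : ℝ) (h : ∀ s ∈ Icc t (t + 1), U ∈ 𝓝 s) :
    ∃ ε > 0, ε ≤ 1 / 4 ∧ Ioo (t - ε) (t + 1 + ε) ⊆ U := by
  have hsub : Icc t (t + 1) ⊆ interior U := fun s hs => mem_interior_iff_mem_nhds.2 (h s hs)
  obtain ⟨δ, hδ, hth⟩ := isCompact_Icc.exists_thickening_subset_open isOpen_interior hsub
  refine ⟨min δ (1 / 4), by positivity, min_le_right _ _, ?_⟩
  intro s hs
  apply interior_subset
  apply hth
  have hd : min δ (1 / 4) ≤ δ := min_le_left _ _
  have hs1 : t - δ < s := by linarith [hs.1]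
  have hs2 : s < t + 1 + δ := by linarith [hs.2]
  rw [Metric.mem_thickening_iff]
  rcases le_total s t with c1 | c1
  · refine ⟨t, ⟨le_rfl, by linarith⟩, ?_⟩
    rw [Real.dist_eq, abs_lt]
    constructor <;> linarith
  · rcases le_total s (t + 1) with c2 | c2
    · refine ⟨s, ⟨c1, c2⟩, ?_⟩
      rw [dist_self]
      exact hδ
    · refine ⟨t + 1, ⟨by linarith, le_rfl⟩, ?_⟩
      rw [Real.dist_eq, abs_lt]
      constructor <;> linarith

end FLD

open FLD in
theorem t_FLD (hFPR : Stmt_FPR) (hFEQ : Stmt_FEQ) (hMVP : Stmt_MVP) (hATR : Stmt_ATR)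
    (hPST : Stmt_PST) : Stmt_FLD := by
  intro m n m' n' K sh c c' ιE ιV i e j w w' Q V Q' V' t hC hw hcert hdl hst
  obtain ⟨π₀, hπ⟩ := hFPR sh
  -- the neighbourhood
  obtain ⟨ε, hε, hε4, hU⟩ := exists_eps (US c w i Q V t) t (fun s hs =>
    US_nhds c w i Q V t s hw ⟨(hcert s hs).len, (hcert s hs).tip, hdl s hs⟩)
  -- the moving profiles
  have hprof : ∀ a b : ℝ, |a| = 1 → ∀ k, ProfOK (Ioo (t - ε) (t + 1 + ε)) (c.ty k)
      (fun s => c.dl (lin Q V t s) k) (if k = i then tp π₀ a b else sh.st (c.ty k)) := by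
    intro a b ha k
    by_cases hk : k = i
    · rw [if_pos hk, hk, hC.tyi]
      exact tp_ok hπ a b ha _ _ (fun s hs => (hU hs).2.2)
    · rw [if_neg hk]
      exact hPST sh _ _ _ (fun s hs h => (hU hs).2.1 k h)
  -- the slices of the static polygon
  have hstat : ∀ a b s : ℝ, a * s + b < -(1 / 4 : ℝ) → ∀ q v : St n,
      c.slice w (fun k => if k = i then tp π₀ a b else sh.st (c.ty k)) s q v
        = c.slice w (c.sp sh) s q v := by
    intro a b s hs q v
    apply slice_congr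
    intro k u
    by_cases hk : k = i
    · subst hk
      simp only [if_true, Comb.sp, hC.tyi]
      obtain ⟨h1, h2, h3⟩ := hπ.early (a * s + b) hs.le u
      refine ⟨h1, h2, h3, ?_⟩
      change a * π₀.Y (a * s + b) u = 0
      rw [Y_early hπ _ hs, mul_zero]
    · have e1 : (if k = i then tp π₀ a b else sh.st (c.ty k)) = sh.st (c.ty k) := if_neg hk
      refine ⟨?_, ?_, ?_, ?_⟩ <;> simp only [e1, Comb.sp]
  -- the slices of the folded polygon
  have hfold : ∀ a b s : ℝ, (1 / 4 : ℝ) < a * s + b → s ∈ Ioo (t - ε) (t + 1 + ε) →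
      c'.Valid ∧ c.slice w (fun k => if k = i then tp π₀ a b else sh.st (c.ty k)) s
        (lin Q V t s) V = c'.slice w' (c'.sp sh) 0 (lin Q' V' t s) V' := by
    intro a b s hs hs'
    have hS := hst s (hU hs').1
    have hF := hFEQ sh c c' ιE ιV i e j w w' (lin Q V t s) V (lin Q' V' t s) V'
      (fun k => if k = i then π₀ else sh.st (c.ty k)) (a * s + b) hC hw hS
      (by simpa using hπ) hs.le
      (by
        intro u
        simp only [if_true]
        exact Y_late hπ _ hs u)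
      (by
        intro k hk
        simp only [if_neg hk])
    refine ⟨hF.1, ?_⟩
    rw [← hF.2]
    apply slice_congr
    intro k u
    by_cases hk : k = i
    · subst hk
      simp only [if_true]
      refine ⟨rfl, rfl, rfl, ?_⟩
      change a * π₀.Y (a * s + b) u = π₀.Y (a * s + b) u
      rw [Y_late hπ _ hs, mul_zero]
    · have e1 : (if k = i then tp π₀ a b else sh.st (c.ty k)) = sh.st (c.ty k) := if_neg hk
      have e2 : (if k = i then π₀ else sh.st (c.ty k)) = sh.st (c.ty k) := if_neg hk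
      simp only [e1, e2]
      exact ⟨rfl, rfl, rfl, rfl⟩
  have hstat0' : ∀ s : ℝ, ∀ q v : St n',
      c'.slice w' (c'.sp sh) s q v = c'.slice w' (c'.sp sh) 0 q v :=
    fun s q v => slice_congr c' w' _ _ _ _ q v (fun k u => ⟨rfl, rfl, rfl, rfl⟩)
  constructor
  · intro hAt
    obtain ⟨ε', hε', hle, hG, hD⟩ := hMVP c w Q V t ε
      (fun k => if k = i then tp π₀ 1 (-(t + 1 / 2)) else sh.st (c.ty k))
      hC.valid hw hε hcert (hprof 1 _ (by simp))
    refine hATR K sh c w Q V t c' w' _ V' (t + 1) ε' _ (by linarith) hε' hAt hG hD ?_ ?_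
    · intro r hr
      unfold Comb.surf
      simp only [mem_ofPred_eq]
      rw [hstat 1 (-(t + 1 / 2)) r.1 (by linarith [hr.2])]
    · intro r hr
      unfold Comb.surf
      simp only [mem_ofPred_eq]
      have hh := (hfold 1 (-(t + 1 / 2)) r.1 (by linarith [hr.1])
        ⟨by linarith [hr.1], by linarith [hr.2]⟩).2
      have hl : lin (lin Q' V' t (t + 1)) V' (t + 1) = lin Q' V' t := by
        funext s
        exact lin_lin Q' V' t (t + 1) s
      rw [hl, deriv_lin, deriv_lin, hh, hstat0' r.1]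
  · intro hAt
    obtain ⟨ε', hε', hle, hG, hD⟩ := hMVP c w Q V t ε
      (fun k => if k = i then tp π₀ (-1) (t + 1 / 2) else sh.st (c.ty k))
      hC.valid hw hε hcert (hprof (-1) _ (by simp))
    refine hATR K sh c' w' Q' V' t c w _ V (t + 1) ε' _ (by linarith) hε' hAt hG hD ?_ ?_
    · intro r hr
      unfold Comb.surf
      simp only [mem_ofPred_eq]
      have hh := (hfold (-1) (t + 1 / 2) r.1 (by linarith [hr.2])
        ⟨by linarith [hr.1], by linarith [hr.2]⟩).2
      rw [deriv_lin, deriv_lin, hh, hstat0' r.1]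
    · intro r hr
      unfold Comb.surf
      simp only [mem_ofPred_eq]
      have hl : lin (lin Q V t (t + 1)) V (t + 1) = lin Q V t := by
        funext s
        exact lin_lin Q V t (t + 1) s
      rw [hl, hstat (-1) (t + 1 / 2) r.1 (by linarith [hr.1])]

end LCA
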