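import Pool.Agent.LCA.Stmts3

/-!
# FPR: a folding profile exists
-/

namespace LCA

open Set Filter
open scoped ContDiff Topology

namespace FPR

/-! ### the derivative of the smooth transition -/

lemma glue_deriv (x : ℝ) : HasDerivAt expNegInvGlue (x⁻¹ ^ 2 * expNegInvGlue x) x := by
  have h := expNegInvGlue.hasDerivAt_polynomial_eval_inv_mul (1 : Polynomial ℝ) x
  simpa using h

lemma glue_deriv_bd (x : ℝ) : 0 ≤ x⁻¹ ^ 2 * expNegInvGlue x ∧ x⁻¹ ^ 2 * expNegInvGlue x ≤ 2 := by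
  refine ⟨mul_nonneg (by positivity) (expNegInvGlue.nonneg x), ?_⟩
  rcases le_or_gt x 0 with hx | hx
  · rw [expNegInvGlue.zero_of_nonpos hx]
    norm_num
  · have h1 : expNegInvGlue x = Real.exp (-x⁻¹) := by
      simp [expNegInvGlue, not_le.2 hx]
    rw [h1, Real.exp_neg]
    have hy : 0 ≤ x⁻¹ := (inv_pos.2 hx).le
    have h2 := Real.quadratic_le_exp_of_nonneg hy
    have h3 : 0 < Real.exp x⁻¹ := Real.exp_pos _
    rw [← div_eq_mul_inv, div_le_iff₀ h3]
    nlinarith

lemma glue_sum (x : ℝ) : 1 / 8 ≤ expNegInvGlue x + expNegInvGlue (1 - x) := by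
  have h2 : (1 : ℝ) / 8 ≤ expNegInvGlue (1 / 2) := by
    have h1 : expNegInvGlue (1 / 2) = Real.exp (-(2 : ℝ)) := by
      norm_num [expNegInvGlue]
    rw [h1, Real.exp_neg]
    have h3 : Real.exp 2 ≤ 8 := by
      have h4 : Real.exp 2 = Real.exp 1 * Real.exp 1 := by
        rw [← Real.exp_add]; norm_num
      rw [h4]
      have h5 := Real.exp_one_lt_d9
      have h6 := Real.exp_pos 1
      nlinarith
    have h7 : 0 < Real.exp 2 := Real.exp_pos _
    rw [one_div]
    exact inv_anti₀ h7 h3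
  rcases le_total x (1 / 2) with hx | hx
  · have h3 : expNegInvGlue (1 / 2) ≤ expNegInvGlue (1 - x) :=
      expNegInvGlue.monotone (by linarith)
    have h4 := expNegInvGlue.nonneg x
    linarith
  · have h3 : expNegInvGlue (1 / 2) ≤ expNegInvGlue x := expNegInvGlue.monotone hx
    have h4 := expNegInvGlue.nonneg (1 - x)
    linarith

lemma st_deriv (x : ℝ) : ∃ d, HasDerivAt Real.smoothTransition d x ∧ |d| ≤ 16 := by
  have h1 := glue_deriv x
  have h2 : HasDerivAt (fun y => expNegInvGlue (1 - y))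
      (-((1 - x)⁻¹ ^ 2 * expNegInvGlue (1 - x))) x := by
    have h3 : HasDerivAt (fun y : ℝ => 1 - y) (-1) x := by
      simpa using (hasDerivAt_id x).const_sub 1
    have h4 := (glue_deriv (1 - x)).comp x h3
    rw [mul_neg_one] at h4
    exact h4
  have h5 := h1.div (h1.add h2) (Real.smoothTransition.pos_denom x).ne'
  obtain ⟨b1, b2⟩ := glue_deriv_bd x
  obtain ⟨b3, b4⟩ := glue_deriv_bd (1 - x)
  have b5 := glue_sum x
  have b6 := expNegInvGlue.nonneg x
  have b7 := expNegInvGlue.nonneg (1 - x)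
  refine ⟨_, h5, ?_⟩
  simp only [Pi.add_apply]
  set f := expNegInvGlue x
  set g := expNegInvGlue (1 - x)
  set f' := x⁻¹ ^ 2 * f
  set g' := (1 - x)⁻¹ ^ 2 * g
  have h6 : f' * (f + g) - f * (f' + -g') = f' * g + f * g' := by ring
  rw [h6]
  have h7 : 0 < f + g := by linarith
  have h8 : 0 < (f + g) ^ 2 := by positivity
  have h9 : 0 ≤ f' * g + f * g' := by positivity
  rw [abs_of_nonneg (by positivity), div_le_iff₀ h8]
  nlinarith [mul_le_mul_of_nonneg_right b2 b7, mul_le_mul_of_nonneg_left b4 b6,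
    mul_le_mul_of_nonneg_left b5 h7.le]

/-! ### the derivatives of the shape -/

variable (sh : Shape)

lemma xi_low {u : ℝ} (hu : u ≤ -1) : sh.ξ u = u := by
  have h3 : (1 : ℝ) ≤ |u| := by rw [abs_of_neg (by linarith)]; linarith
  rw [sh.ξ_out u h3, abs_of_neg (by linarith)]
  ring

lemma xi_high {u : ℝ} (hu : 1 ≤ u) : sh.ξ u = -u := by
  have h3 : (1 : ℝ) ≤ |u| := by rw [abs_of_pos (by linarith)]; linarith
  rw [sh.ξ_out u h3, abs_of_pos (by linarith)]

lemma dxi_low {u : ℝ} (hu : u ≤ -1) : deriv sh.ξ u = 1 := by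
  have hc : Continuous (deriv sh.ξ) := sh.ξ_smooth.continuous_deriv (by simp)
  have hcl : IsClosed {u | deriv sh.ξ u = 1} := isClosed_eq hc continuous_const
  have h1 : Iio (-1 : ℝ) ⊆ {u | deriv sh.ξ u = 1} := by
    intro v hv
    have h2 : sh.ξ =ᶠ[𝓝 v] id := by
      filter_upwards [Iio_mem_nhds hv] with y hy
      exact xi_low sh (le_of_lt hy)
    show deriv sh.ξ v = 1
    rw [h2.deriv_eq]
    simp
  have h3 := closure_minimal h1 hcl
  rw [closure_Iio] at h3
  exact h3 hu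

lemma dxi_high {u : ℝ} (hu : 1 ≤ u) : deriv sh.ξ u = -1 := by
  have hc : Continuous (deriv sh.ξ) := sh.ξ_smooth.continuous_deriv (by simp)
  have hcl : IsClosed {u | deriv sh.ξ u = -1} := isClosed_eq hc continuous_const
  have h1 : Ioi (1 : ℝ) ⊆ {u | deriv sh.ξ u = -1} := by
    intro v hv
    have h2 : sh.ξ =ᶠ[𝓝 v] fun y => -y := by
      filter_upwards [Ioi_mem_nhds hv] with y hy
      exact xi_high sh (le_of_lt hy)
    show deriv sh.ξ v = -1
    rw [h2.deriv_eq]
    simp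
  have h3 := closure_minimal h1 hcl
  rw [closure_Ioi] at h3
  exact h3 hu

lemma dtau_nonneg (u : ℝ) : 0 ≤ deriv sh.τ u := by
  have hc : Continuous (deriv sh.τ) := sh.τ_smooth.continuous_deriv (by simp)
  rcases lt_or_ge (-1) u with h | h
  · rcases lt_or_ge u 1 with h' | h'
    · exact (sh.τ_deriv u h h').le
    · have hm : IsLocalMax sh.τ u := by
        refine Filter.Eventually.of_forall fun y => ?_
        rw [sh.τ_high u h']
        exact (sh.τ_mem y).2
      exact hm.deriv_eq_zero.ge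
  · have hm : IsLocalMin sh.τ u := by
      refine Filter.Eventually.of_forall fun y => ?_
      rw [sh.τ_low u h]
      exact (sh.τ_mem y).1
    exact hm.deriv_eq_zero.ge

lemma tau_hasDeriv (u : ℝ) : HasDerivAt sh.τ (deriv sh.τ u) u :=
  (sh.τ_smooth.differentiable (by simp) u).hasDerivAt

lemma xi_hasDeriv (u : ℝ) : HasDerivAt sh.ξ (deriv sh.ξ u) u :=
  (sh.ξ_smooth.differentiable (by simp) u).hasDerivAt

lemma tau_strictMono : StrictMonoOn sh.τ (Icc (-1) 1) := by
  refine strictMonoOn_of_deriv_pos (convex_Icc _ _) sh.τ_smooth.continuous.continuousOn ?_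
  intro x hx
  rw [interior_Icc] at hx
  exact sh.τ_deriv x hx.1 hx.2

lemma comp16 {f : ℝ → ℝ} {d c u : ℝ} (h : HasDerivAt f d (16 * u + c)) :
    HasDerivAt (fun u => f (16 * u + c)) (d * 16) u := by
  have h1 : HasDerivAt (fun u : ℝ => 16 * u + c) 16 u := by
    simpa using ((hasDerivAt_id u).const_mul 16).add_const c
  exact h.comp u h1

/-! ### the folded profile -/

/-- The `x`-coordinate of the folded profile. -/
noncomputable def X1 (u : ℝ) : ℝ :=
  u + 13 / 64 * sh.ΘP (16 * u + 15) - 9 / 64 * sh.ΘP (16 * u + 11)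
    + (sh.ξ (16 * u + 8) - (16 * u + 8)) / 8
    + 1 / 10 * sh.ΘP (16 * u + 5) - 1 / 10 * sh.ΘP (16 * u + -5)
    + ((16 * u + -8) - sh.ξ (16 * u + -8)) / 8
    + 9 / 64 * sh.ΘP (16 * u + -11) - 13 / 64 * sh.ΘP (16 * u + -15)

/-- The derivative of `X1`. -/
noncomputable def dX1 (u : ℝ) : ℝ :=
  1 + 13 / 4 * sh.τ (16 * u + 15) - 9 / 4 * sh.τ (16 * u + 11)
    + (2 * deriv sh.ξ (16 * u + 8) - 2)
    + 8 / 5 * sh.τ (16 * u + 5) - 8 / 5 * sh.τ (16 * u + -5)
    + (2 - 2 * deriv sh.ξ (16 * u + -8))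
    + 9 / 4 * sh.τ (16 * u + -11) - 13 / 4 * sh.τ (16 * u + -15)

/-- The slope of the folded profile. -/
noncomputable def P1 (u : ℝ) : ℝ := (sh.τ (16 * u + 8) + sh.τ (16 * u + -8)) / 2

/-- The primitive of the folded profile. -/
noncomputable def T2 (u : ℝ) : ℝ :=
  sh.ΘR (16 * u + 8) / 16
    + (1 / 10 * sh.ΘP (16 * u + 5) - 1 / 10 * sh.ΘP (16 * u + -5)
      + ((16 * u + -8) - sh.ξ (16 * u + -8)) / 8
      + 9 / 64 * sh.ΘP (16 * u + -11) - 13 / 64 * sh.ΘP (16 * u + -15)) / 2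
    - sh.ΘR (16 * u + -8) / 16
    + (9 / 64 * sh.ΘP (16 * u + -11) - 13 / 64 * sh.ΘP (16 * u + -15)) / 2

lemma X1_hasDeriv (u : ℝ) : HasDerivAt (X1 sh) (dX1 sh u) u := by
  have hid := hasDerivAt_id u
  have h1 := (comp16 (sh.ΘP_deriv (16 * u + 15))).const_mul (13 / 64)
  have h2 := (comp16 (sh.ΘP_deriv (16 * u + 11))).const_mul (9 / 64)
  have h3 := comp16 (xi_hasDeriv sh (16 * u + 8))
  have h4 := (comp16 (sh.ΘP_deriv (16 * u + 5))).const_mul (1 / 10)
  have h5 := (comp16 (sh.ΘP_deriv (16 * u + -5))).const_mul (1 / 10)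
  have h6 := comp16 (xi_hasDeriv sh (16 * u + -8))
  have h7 := (comp16 (sh.ΘP_deriv (16 * u + -11))).const_mul (9 / 64)
  have h8 := (comp16 (sh.ΘP_deriv (16 * u + -15))).const_mul (13 / 64)
  have h9 := comp16 (hasDerivAt_id (16 * u + 8))
  have h10 := comp16 (hasDerivAt_id (16 * u + -8))
  have h := ((((((((hid.add h1).sub h2).add ((h3.sub h9).div_const 8)).add h4).sub h5).add
    ((h10.sub h6).div_const 8)).add h7).sub h8)
  have e : dX1 sh u = 1 + 13 / 64 * (sh.τ (16 * u + 15) * 16) - 9 / 64 * (sh.τ (16 * u + 11) * 16)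
      + (deriv sh.ξ (16 * u + 8) * 16 - 1 * 16) / 8 + 1 / 10 * (sh.τ (16 * u + 5) * 16)
      - 1 / 10 * (sh.τ (16 * u + -5) * 16) + (1 * 16 - deriv sh.ξ (16 * u + -8) * 16) / 8
      + 9 / 64 * (sh.τ (16 * u + -11) * 16) - 13 / 64 * (sh.τ (16 * u + -15) * 16) := by
    unfold dX1
    ring
  rw [e]
  exact h

lemma P1_hasDeriv (u : ℝ) : HasDerivAt (P1 sh)
    (8 * deriv sh.τ (16 * u + 8) + 8 * deriv sh.τ (16 * u + -8)) u := by
  have h := ((comp16 (tau_hasDeriv sh (16 * u + 8))).add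
    (comp16 (tau_hasDeriv sh (16 * u + -8)))).div_const 2
  have e : 8 * deriv sh.τ (16 * u + 8) + 8 * deriv sh.τ (16 * u + -8) =
      (deriv sh.τ (16 * u + 8) * 16 + deriv sh.τ (16 * u + -8) * 16) / 2 := by ring
  rw [e]
  exact h

/-- The derivative of `T2`. -/
noncomputable def dT2 (u : ℝ) : ℝ :=
  sh.τ (16 * u + 8) * deriv sh.ξ (16 * u + 8)
    + (8 / 5 * sh.τ (16 * u + 5) - 8 / 5 * sh.τ (16 * u + -5)
      + (2 - 2 * deriv sh.ξ (16 * u + -8))
      + 9 / 4 * sh.τ (16 * u + -11) - 13 / 4 * sh.τ (16 * u + -15)) / 2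
    - sh.τ (16 * u + -8) * deriv sh.ξ (16 * u + -8)
    + (9 / 4 * sh.τ (16 * u + -11) - 13 / 4 * sh.τ (16 * u + -15)) / 2

lemma T2_hasDeriv' (u : ℝ) : HasDerivAt (T2 sh) (dT2 sh u) u := by
  have h4 := (comp16 (sh.ΘP_deriv (16 * u + 5))).const_mul (1 / 10)
  have h5 := (comp16 (sh.ΘP_deriv (16 * u + -5))).const_mul (1 / 10)
  have h6 := comp16 (xi_hasDeriv sh (16 * u + -8))
  have h7 := (comp16 (sh.ΘP_deriv (16 * u + -11))).const_mul (9 / 64)
  have h8 := (comp16 (sh.ΘP_deriv (16 * u + -15))).const_mul (13 / 64)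
  have h10 := comp16 (hasDerivAt_id (16 * u + -8))
  have h11 := comp16 (sh.ΘR_deriv (16 * u + 8))
  have h12 := comp16 (sh.ΘR_deriv (16 * u + -8))
  have h := ((((h11.div_const 16).add (((((h4.sub h5).add
    ((h10.sub h6).div_const 8)).add h7).sub h8).div_const 2)).sub (h12.div_const 16)).add
    ((h7.sub h8).div_const 2))
  have e : dT2 sh u = sh.τ (16 * u + 8) * deriv sh.ξ (16 * u + 8) * 16 / 16
      + (1 / 10 * (sh.τ (16 * u + 5) * 16)
      - 1 / 10 * (sh.τ (16 * u + -5) * 16) + (1 * 16 - deriv sh.ξ (16 * u + -8) * 16) / 8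
      + 9 / 64 * (sh.τ (16 * u + -11) * 16) - 13 / 64 * (sh.τ (16 * u + -15) * 16)) / 2
      - sh.τ (16 * u + -8) * deriv sh.ξ (16 * u + -8) * 16 / 16
      + (9 / 64 * (sh.τ (16 * u + -11) * 16) - 13 / 64 * (sh.τ (16 * u + -15) * 16)) / 2 := by
    unfold dT2
    ring
  rw [e]
  exact h

/-! ### the five regions -/

lemma regA {u : ℝ} (hu : u ≤ -(5 / 8)) :
    X1 sh u = u + 13 / 64 * sh.ΘP (16 * u + 15) - 9 / 64 * sh.ΘP (16 * u + 11) ∧
    P1 sh u = 0 ∧ T2 sh u = 0 ∧ dT2 sh u = 0 := by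
  unfold X1 P1 T2 dT2
  rw [sh.τ_low (16 * u + 8) (by linarith), sh.τ_low (16 * u + -8) (by linarith),
    sh.τ_low (16 * u + 5) (by linarith), sh.τ_low (16 * u + -5) (by linarith),
    sh.τ_low (16 * u + -11) (by linarith), sh.τ_low (16 * u + -15) (by linarith),
    sh.ΘP_low (16 * u + 5) (by linarith), sh.ΘP_low (16 * u + -5) (by linarith),
    sh.ΘP_low (16 * u + -11) (by linarith), sh.ΘP_low (16 * u + -15) (by linarith),
    sh.ΘR_low (16 * u + 8) (by linarith), sh.ΘR_low (16 * u + -8) (by linarith),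
    xi_low sh (u := 16 * u + 8) (by linarith), xi_low sh (u := 16 * u + -8) (by linarith),
    dxi_low sh (u := 16 * u + 8) (by linarith), dxi_low sh (u := 16 * u + -8) (by linarith)]
  refine ⟨by ring, by ring, by ring, by ring⟩

lemma regB {u : ℝ} (hu : -(5 / 8) ≤ u) (hu' : u ≤ -(3 / 8)) :
    X1 sh u = 1 / 2 + sh.ξ (16 * u + 8) / 8 ∧ dX1 sh u = 2 * deriv sh.ξ (16 * u + 8) ∧
    P1 sh u = sh.τ (16 * u + 8) / 2 ∧ T2 sh u = sh.ΘR (16 * u + 8) / 16 ∧
    dT2 sh u = sh.τ (16 * u + 8) * deriv sh.ξ (16 * u + 8) := by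
  unfold X1 P1 T2 dT2 dX1
  rw [sh.τ_low (16 * u + -8) (by linarith), sh.τ_high (16 * u + 15) (by linarith),
    sh.τ_high (16 * u + 11) (by linarith),
    sh.τ_low (16 * u + 5) (by linarith), sh.τ_low (16 * u + -5) (by linarith),
    sh.τ_low (16 * u + -11) (by linarith), sh.τ_low (16 * u + -15) (by linarith),
    sh.ΘP_high (16 * u + 15) (by linarith), sh.ΘP_high (16 * u + 11) (by linarith),
    sh.ΘP_low (16 * u + 5) (by linarith), sh.ΘP_low (16 * u + -5) (by linarith),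
    sh.ΘP_low (16 * u + -11) (by linarith), sh.ΘP_low (16 * u + -15) (by linarith),
    sh.ΘR_low (16 * u + -8) (by linarith),
    xi_low sh (u := 16 * u + -8) (by linarith),
    dxi_low sh (u := 16 * u + -8) (by linarith)]
  refine ⟨by ring, by ring, by ring, by ring, by ring⟩

lemma regC {u : ℝ} (hu : -(3 / 8) ≤ u) (hu' : u ≤ 3 / 8) :
    X1 sh u = -2 * u - 1 / 2 + 1 / 10 * sh.ΘP (16 * u + 5) - 1 / 10 * sh.ΘP (16 * u + -5) ∧
    P1 sh u = 1 / 2 ∧ T2 sh u = (X1 sh u - 1 / 2) / 2 ∧ dT2 sh u = dX1 sh u / 2 := by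
  unfold P1 T2 dT2 dX1 X1
  rw [sh.τ_low (16 * u + -8) (by linarith), sh.τ_high (16 * u + 15) (by linarith),
    sh.τ_high (16 * u + 11) (by linarith), sh.τ_high (16 * u + 8) (by linarith),
    sh.τ_low (16 * u + -11) (by linarith), sh.τ_low (16 * u + -15) (by linarith),
    sh.ΘP_high (16 * u + 15) (by linarith), sh.ΘP_high (16 * u + 11) (by linarith),
    sh.ΘP_low (16 * u + -11) (by linarith), sh.ΘP_low (16 * u + -15) (by linarith),
    sh.ΘR_low (16 * u + -8) (by linarith), sh.ΘR_high (16 * u + 8) (by linarith),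
    xi_low sh (u := 16 * u + -8) (by linarith), xi_high sh (u := 16 * u + 8) (by linarith),
    dxi_low sh (u := 16 * u + -8) (by linarith), dxi_high sh (u := 16 * u + 8) (by linarith)]
  refine ⟨by ring, by ring, by ring, by ring⟩

lemma regD {u : ℝ} (hu : 3 / 8 ≤ u) (hu' : u ≤ 5 / 8) :
    X1 sh u = -(1 / 2) - sh.ξ (16 * u + -8) / 8 ∧ dX1 sh u = -2 * deriv sh.ξ (16 * u + -8) ∧
    P1 sh u = 1 / 2 + sh.τ (16 * u + -8) / 2 ∧
    T2 sh u = (X1 sh u - 1 / 2) / 2 - sh.ΘR (16 * u + -8) / 16 ∧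
    dT2 sh u = -(1 + sh.τ (16 * u + -8)) * deriv sh.ξ (16 * u + -8) := by
  unfold P1 T2 dT2 dX1 X1
  rw [sh.τ_high (16 * u + 8) (by linarith), sh.τ_high (16 * u + 15) (by linarith),
    sh.τ_high (16 * u + 11) (by linarith),
    sh.τ_high (16 * u + 5) (by linarith), sh.τ_high (16 * u + -5) (by linarith),
    sh.τ_low (16 * u + -11) (by linarith), sh.τ_low (16 * u + -15) (by linarith),
    sh.ΘP_high (16 * u + 15) (by linarith), sh.ΘP_high (16 * u + 11) (by linarith),
    sh.ΘP_high (16 * u + 5) (by linarith), sh.ΘP_high (16 * u + -5) (by linarith),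
    sh.ΘP_low (16 * u + -11) (by linarith), sh.ΘP_low (16 * u + -15) (by linarith),
    sh.ΘR_high (16 * u + 8) (by linarith),
    xi_high sh (u := 16 * u + 8) (by linarith),
    dxi_high sh (u := 16 * u + 8) (by linarith)]
  refine ⟨by ring, by ring, by ring, by ring, by ring⟩

lemma regE {u : ℝ} (hu : 5 / 8 ≤ u) :
    X1 sh u = 2 * u - 3 / 2 + 9 / 64 * sh.ΘP (16 * u + -11) - 13 / 64 * sh.ΘP (16 * u + -15) ∧
    P1 sh u = 1 ∧ T2 sh u = X1 sh u ∧ dT2 sh u = dX1 sh u := by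
  unfold P1 T2 dT2 dX1 X1
  rw [sh.τ_high (16 * u + 8) (by linarith), sh.τ_high (16 * u + -8) (by linarith),
    sh.τ_high (16 * u + 15) (by linarith), sh.τ_high (16 * u + 11) (by linarith),
    sh.τ_high (16 * u + 5) (by linarith), sh.τ_high (16 * u + -5) (by linarith),
    sh.ΘP_high (16 * u + 15) (by linarith), sh.ΘP_high (16 * u + 11) (by linarith),
    sh.ΘP_high (16 * u + 5) (by linarith), sh.ΘP_high (16 * u + -5) (by linarith),
    sh.ΘR_high (16 * u + 8) (by linarith), sh.ΘR_high (16 * u + -8) (by linarith),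
    xi_high sh (u := 16 * u + 8) (by linarith), xi_high sh (u := 16 * u + -8) (by linarith),
    dxi_high sh (u := 16 * u + 8) (by linarith), dxi_high sh (u := 16 * u + -8) (by linarith)]
  refine ⟨by ring, by ring, by ring, by ring⟩

lemma T2_hasDeriv (u : ℝ) : HasDerivAt (T2 sh) (P1 sh u * dX1 sh u) u := by
  have h := T2_hasDeriv' sh u
  have e : dT2 sh u = P1 sh u * dX1 sh u := by
    rcases le_total u (-(5 / 8)) with h1 | h1
    · obtain ⟨-, h2, -, h3⟩ := regA sh h1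
      rw [h2, h3, zero_mul]
    rcases le_total u (-(3 / 8)) with h2 | h2
    · obtain ⟨-, h3, h4, -, h5⟩ := regB sh h1 h2
      rw [h3, h4, h5]; ring
    rcases le_total u (3 / 8) with h3 | h3
    · obtain ⟨-, h4, -, h5⟩ := regC sh h2 h3
      rw [h4, h5]; ring
    rcases le_total u (5 / 8) with h4 | h4
    · obtain ⟨-, h5, h6, -, h7⟩ := regD sh h3 h4
      rw [h5, h6, h7]; ring
    · obtain ⟨-, h5, -, h6⟩ := regE sh h4
      rw [h5, h6]; ring
  rw [← e]
  exact h

/-! ### monotonicity -/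

lemma dX1_low {u : ℝ} (hu : u ≤ -(9 / 16)) : 0 < dX1 sh u := by
  unfold dX1
  rw [sh.τ_low (16 * u + 5) (by linarith), sh.τ_low (16 * u + -5) (by linarith),
    sh.τ_low (16 * u + -11) (by linarith), sh.τ_low (16 * u + -15) (by linarith),
    dxi_low sh (u := 16 * u + 8) (by linarith), dxi_low sh (u := 16 * u + -8) (by linarith)]
  rcases le_total u (-(3 / 4)) with h | h
  · rw [sh.τ_low (16 * u + 11) (by linarith)]
    have := (sh.τ_mem (16 * u + 15)).1
    linarith
  · rw [sh.τ_high (16 * u + 15) (by linarith)]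
    have := (sh.τ_mem (16 * u + 11)).2
    linarith

lemma dX1_mid {u : ℝ} (hu : -(7 / 16) ≤ u) (hu' : u ≤ 7 / 16) : dX1 sh u < 0 := by
  unfold dX1
  rw [sh.τ_high (16 * u + 15) (by linarith), sh.τ_high (16 * u + 11) (by linarith),
    sh.τ_low (16 * u + -11) (by linarith), sh.τ_low (16 * u + -15) (by linarith),
    dxi_high sh (u := 16 * u + 8) (by linarith), dxi_low sh (u := 16 * u + -8) (by linarith)]
  have := (sh.τ_mem (16 * u + 5)).2
  have := (sh.τ_mem (16 * u + -5)).1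
  linarith

lemma dX1_high {u : ℝ} (hu : 9 / 16 ≤ u) : 0 < dX1 sh u := by
  unfold dX1
  rw [sh.τ_high (16 * u + 15) (by linarith), sh.τ_high (16 * u + 11) (by linarith),
    sh.τ_high (16 * u + 5) (by linarith), sh.τ_high (16 * u + -5) (by linarith),
    dxi_high sh (u := 16 * u + 8) (by linarith), dxi_high sh (u := 16 * u + -8) (by linarith)]
  rcases le_total u (7 / 8) with h | h
  · rw [sh.τ_low (16 * u + -15) (by linarith)]
    have := (sh.τ_mem (16 * u + -11)).1
    linarith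
  · rw [sh.τ_high (16 * u + -11) (by linarith)]
    have := (sh.τ_mem (16 * u + -15)).2
    linarith

lemma X1_diff : Differentiable ℝ (X1 sh) := fun u => (X1_hasDeriv sh u).differentiableAt

lemma X1_deriv (u : ℝ) : deriv (X1 sh) u = dX1 sh u := (X1_hasDeriv sh u).deriv

lemma X1_monoA : StrictMonoOn (X1 sh) (Iic (-(9 / 16))) := by
  refine strictMonoOn_of_deriv_pos (convex_Iic _) (X1_diff sh).continuous.continuousOn ?_
  intro x hx
  rw [interior_Iic] at hx
  rw [X1_deriv]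
  exact dX1_low sh (le_of_lt hx)

lemma X1_antiC : StrictAntiOn (X1 sh) (Icc (-(7 / 16)) (7 / 16)) := by
  refine strictAntiOn_of_deriv_neg (convex_Icc _ _) (X1_diff sh).continuous.continuousOn ?_
  intro x hx
  rw [interior_Icc] at hx
  rw [X1_deriv]
  exact dX1_mid sh hx.1.le hx.2.le

lemma X1_monoE : StrictMonoOn (X1 sh) (Ici (9 / 16)) := by
  refine strictMonoOn_of_deriv_pos (convex_Ici _) (X1_diff sh).continuous.continuousOn ?_
  intro x hx
  rw [interior_Ici] at hx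
  rw [X1_deriv]
  exact dX1_high sh (le_of_lt hx)

lemma X1_low {u : ℝ} (hu : u ≤ -1) : X1 sh u = u := by
  rw [(regA sh (by linarith : u ≤ -(5 / 8))).1, sh.ΘP_low _ (by linarith),
    sh.ΘP_low _ (by linarith)]
  ring

lemma X1_high {u : ℝ} (hu : 1 ≤ u) : X1 sh u = u := by
  rw [(regE sh (by linarith : 5 / 8 ≤ u)).1, sh.ΘP_high _ (by linarith),
    sh.ΘP_high _ (by linarith)]
  ring

lemma X1_a : X1 sh (-(5 / 8)) = 1 / 4 := by
  rw [(regA sh le_rfl).1, sh.ΘP_high _ (by norm_num), sh.ΘP_high _ (by norm_num)]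
  norm_num

lemma X1_b : X1 sh (-(3 / 8)) = 1 / 4 := by
  rw [(regC sh le_rfl (by norm_num)).1, sh.ΘP_low _ (by norm_num), sh.ΘP_low _ (by norm_num)]
  norm_num

lemma X1_c : X1 sh (3 / 8) = -(1 / 4) := by
  rw [(regC sh (by norm_num) le_rfl).1, sh.ΘP_high _ (by norm_num), sh.ΘP_high _ (by norm_num)]
  norm_num

lemma X1_d : X1 sh (5 / 8) = -(1 / 4) := by
  rw [(regE sh le_rfl).1, sh.ΘP_low _ (by norm_num), sh.ΘP_low _ (by norm_num)]
  norm_num

lemma xi_bd {u : ℝ} (hu : |u| ≤ 2) : -2 ≤ sh.ξ u ∧ sh.ξ u ≤ 1 := by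
  rcases le_total |u| 1 with h | h
  · have := sh.ξ_in u h
    rw [abs_le] at this
    exact ⟨by linarith [this.1], this.2⟩
  · rw [sh.ξ_out u h]
    exact ⟨by linarith, by linarith⟩

lemma X1_bd {u : ℝ} (hu : |u| ≤ 1) : |X1 sh u| ≤ 1 := by
  rw [abs_le] at hu ⊢
  obtain ⟨hl, hr⟩ := hu
  have e1 := X1_low sh (le_refl (-1))
  have e2 := X1_high sh (le_refl 1)
  rcases le_total u (-(5 / 8)) with h1 | h1
  · have h2 : X1 sh (-1) ≤ X1 sh u :=
      (X1_monoA sh).monotoneOn (by norm_num) (by simp only [mem_Iic]; linarith) hl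
    have h3 : X1 sh u ≤ X1 sh (-(5 / 8)) :=
      (X1_monoA sh).monotoneOn (by simp only [mem_Iic]; linarith) (by norm_num) h1
    rw [X1_a] at h3
    rw [e1] at h2
    exact ⟨h2, by linarith⟩
  rcases le_total u (-(3 / 8)) with h2 | h2
  · rw [(regB sh h1 h2).1]
    have h3 : |16 * u + 8| ≤ 2 := by rw [abs_le]; constructor <;> linarith
    have := xi_bd sh h3
    constructor <;> linarith
  rcases le_total u (3 / 8) with h3 | h3
  · have h4 : X1 sh u ≤ X1 sh (-(3 / 8)) :=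
      (X1_antiC sh).antitoneOn (by norm_num) (by constructor <;> linarith) h2
    have h5 : X1 sh (3 / 8) ≤ X1 sh u :=
      (X1_antiC sh).antitoneOn (by constructor <;> linarith) (by norm_num) h3
    rw [X1_b] at h4
    rw [X1_c] at h5
    constructor <;> linarith
  rcases le_total u (5 / 8) with h4 | h4
  · rw [(regD sh h3 h4).1]
    have h5 : |16 * u + -8| ≤ 2 := by rw [abs_le]; constructor <;> linarith
    have := xi_bd sh h5
    constructor <;> linarith
  · have h5 : X1 sh (5 / 8) ≤ X1 sh u :=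
      (X1_monoE sh).monotoneOn (by norm_num) (by simp only [mem_Ici]; linarith) h4
    have h6 : X1 sh u ≤ X1 sh 1 :=
      (X1_monoE sh).monotoneOn (by simp only [mem_Ici]; linarith) (by norm_num) hr
    rw [X1_d] at h5
    rw [e2] at h6
    exact ⟨by linarith, h6⟩

/-! ### symmetry -/

lemma const_zero {K : ℝ → ℝ} (hK : ∀ u, HasDerivAt K 0 u) (h0 : K 0 = 0) (u : ℝ) : K u = 0 := by
  have h1 := is_const_of_deriv_eq_zero (fun u => (hK u).differentiableAt)
    (fun u => (hK u).deriv) u 0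
  rw [h1, h0]

lemma neg_deriv {f : ℝ → ℝ} {d u : ℝ} (h : HasDerivAt f d (-u)) :
    HasDerivAt (fun u => f (-u)) (-d) u := by
  have h1 : HasDerivAt (fun u : ℝ => -u) (-1) u := hasDerivAt_neg' u
  have h2 := h.comp u h1
  rw [mul_neg_one] at h2
  exact h2

lemma ThP_neg (u : ℝ) : sh.ΘP (-u) = sh.ΘP u - u := by
  have h := const_zero (K := fun u => sh.ΘP u - sh.ΘP (-u) - u) (fun u => by
    have h1 := ((sh.ΘP_deriv u).sub (neg_deriv (sh.ΘP_deriv (-u)))).sub (hasDerivAt_id u)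
    have h2 : sh.τ u - -sh.τ (-u) - 1 = 0 := by rw [sh.τ_symm]; ring
    rw [h2] at h1
    exact h1) (by simp) u
  linarith

lemma X1_neg (u : ℝ) : X1 sh (-u) = -X1 sh u := by
  unfold X1
  have a1 : 16 * -u + 15 = -(16 * u + -15) := by ring
  have a2 : 16 * -u + 11 = -(16 * u + -11) := by ring
  have a3 : 16 * -u + 8 = -(16 * u + -8) := by ring
  have a4 : 16 * -u + 5 = -(16 * u + -5) := by ring
  have a5 : 16 * -u + -5 = -(16 * u + 5) := by ring
  have a6 : 16 * -u + -8 = -(16 * u + 8) := by ring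
  have a7 : 16 * -u + -11 = -(16 * u + 11) := by ring
  have a8 : 16 * -u + -15 = -(16 * u + 15) := by ring
  rw [a1, a2, a3, a4, a5, a6, a7, a8, ThP_neg, ThP_neg, ThP_neg, ThP_neg, ThP_neg, ThP_neg,
    sh.ξ_even, sh.ξ_even]
  ring

lemma dX1_neg (u : ℝ) : dX1 sh (-u) = dX1 sh u := by
  have h1 := (neg_deriv (X1_hasDeriv sh (-u))).neg
  have h2 : (fun u => -X1 sh (-u)) = X1 sh := by
    funext v
    rw [X1_neg, neg_neg]
  have h3 : HasDerivAt (X1 sh) (dX1 sh (-u)) u := by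
    have h4 : HasDerivAt (fun u => -X1 sh (-u)) (- -dX1 sh (-u)) u := h1
    rwa [h2, neg_neg] at h4
  exact h3.unique (X1_hasDeriv sh u)

/-! ### smoothness -/

lemma smooth16 {f : ℝ → ℝ} (hf : ContDiff ℝ ∞ f) (c : ℝ) :
    ContDiff ℝ ∞ (fun u => f (16 * u + c)) :=
  hf.comp ((contDiff_const.mul contDiff_id).add contDiff_const)

lemma X1_smooth : ContDiff ℝ ∞ (X1 sh) := by
  have hP := sh.ΘP_smooth
  have hx := sh.ξ_smooth
  have hl : ∀ c : ℝ, ContDiff ℝ ∞ (fun u : ℝ => 16 * u + c) := fun c =>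
    (contDiff_const.mul contDiff_id).add contDiff_const
  have h := (((((((contDiff_id (𝕜 := ℝ) (n := ∞) (E := ℝ)).add
    ((contDiff_const (c := (13 / 64 : ℝ))).mul (smooth16 hP 15))).sub
    ((contDiff_const (c := (9 / 64 : ℝ))).mul (smooth16 hP 11))).add
    (((smooth16 hx 8).sub (hl 8)).div_const 8)).add
    ((contDiff_const (c := (1 / 10 : ℝ))).mul (smooth16 hP 5))).sub
    ((contDiff_const (c := (1 / 10 : ℝ))).mul (smooth16 hP (-5)))).add
    (((hl (-8)).sub (smooth16 hx (-8))).div_const 8)).add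
    ((contDiff_const (c := (9 / 64 : ℝ))).mul (smooth16 hP (-11)))
  exact h.sub ((contDiff_const (c := (13 / 64 : ℝ))).mul (smooth16 hP (-15)))

lemma P1_smooth : ContDiff ℝ ∞ (P1 sh) :=
  ((smooth16 sh.τ_smooth 8).add (smooth16 sh.τ_smooth (-8))).div_const 2

lemma T2_smooth : ContDiff ℝ ∞ (T2 sh) := by
  have hP := sh.ΘP_smooth
  have hR := sh.ΘR_smooth
  have hx := sh.ξ_smooth
  have hl : ContDiff ℝ ∞ (fun u : ℝ => 16 * u + -8) :=
    (contDiff_const.mul contDiff_id).add contDiff_const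
  have h1 := ((((((contDiff_const (c := (1 / 10 : ℝ))).mul (smooth16 hP 5)).sub
    ((contDiff_const (c := (1 / 10 : ℝ))).mul (smooth16 hP (-5)))).add
    ((hl.sub (smooth16 hx (-8))).div_const 8)).add
    ((contDiff_const (c := (9 / 64 : ℝ))).mul (smooth16 hP (-11)))).sub
    ((contDiff_const (c := (13 / 64 : ℝ))).mul (smooth16 hP (-15)))).div_const 2
  have h2 := ((((contDiff_const (c := (9 / 64 : ℝ))).mul (smooth16 hP (-11)))).sub
    ((contDiff_const (c := (13 / 64 : ℝ))).mul (smooth16 hP (-15)))).div_const 2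
  exact ((((smooth16 hR 8).div_const 16).add h1).sub ((smooth16 hR (-8)).div_const 16)).add h2

lemma dX1_smooth : ContDiff ℝ ∞ (dX1 sh) := by
  have h := (contDiff_infty_iff_deriv.1 (X1_smooth sh)).2
  have e : deriv (X1 sh) = dX1 sh := funext fun u => X1_deriv sh u
  rwa [e] at h

/-! ### the primitive of the first stage -/

/-- The primitive of `τ X1'`. -/
noncomputable def T1 (u : ℝ) : ℝ := ∫ t in (-1 : ℝ)..u, sh.τ t * dX1 sh t

lemma T1_hasDeriv (u : ℝ) : HasDerivAt (T1 sh) (sh.τ u * dX1 sh u) u := by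
  have hc : Continuous (fun t => sh.τ t * dX1 sh t) :=
    sh.τ_smooth.continuous.mul (dX1_smooth sh).continuous
  exact (hc.integral_hasStrictDerivAt (-1) u).hasDerivAt

lemma T1_smooth : ContDiff ℝ ∞ (T1 sh) := by
  rw [contDiff_infty_iff_deriv]
  refine ⟨fun u => (T1_hasDeriv sh u).differentiableAt, ?_⟩
  have e : deriv (T1 sh) = fun u => sh.τ u * dX1 sh u := funext fun u => (T1_hasDeriv sh u).deriv
  rw [e]
  exact sh.τ_smooth.mul (dX1_smooth sh)

lemma T1_low {u : ℝ} (hu : u ≤ -1) : T1 sh u = 0 := by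
  unfold T1
  have h : ∀ t ∈ uIcc (-1 : ℝ) u, sh.τ t * dX1 sh t = (fun _ => (0 : ℝ)) t := by
    intro t ht
    rw [uIcc_of_ge hu] at ht
    rw [sh.τ_low t ht.2, zero_mul]
  rw [intervalIntegral.integral_congr h]
  simp

lemma T1_high {u : ℝ} (hu : 1 ≤ u) : T1 sh u = u := by
  have h := const_zero (K := fun u => T1 sh u - T1 sh (-u) - X1 sh u) (fun u => by
    have h1 := ((T1_hasDeriv sh u).sub (neg_deriv (T1_hasDeriv sh (-u)))).sub
      (X1_hasDeriv sh u)
    have h2 : sh.τ u * dX1 sh u - -(sh.τ (-u) * dX1 sh (-u)) - dX1 sh u = 0 := by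
      rw [sh.τ_symm, dX1_neg]; ring
    rw [h2] at h1
    exact h1) (by
      have h3 := X1_neg sh 0
      rw [neg_zero] at h3
      have h4 : X1 sh 0 = 0 := by linarith
      simp [h4]) u
  rw [T1_low sh (by linarith : -u ≤ -1), X1_high sh hu] at h
  linarith

/-- The bound for the primitives. -/
lemma prim_bd {X P T X' P' : ℝ → ℝ} (hX : ∀ u, HasDerivAt X (X' u) u)
    (hP : ∀ u, HasDerivAt P (P' u) u) (hT : ∀ u, HasDerivAt T (P u * X' u) u)
    (hP' : ∀ u, 0 ≤ P' u) (hXb : ∀ u, |u| ≤ 1 → |X u| ≤ 1) (hPb : ∀ u, 0 ≤ P u ∧ P u ≤ 1)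
    (hP0 : P (-1) = 0) (hT0 : T (-1) = 0) {u : ℝ} (hu : |u| ≤ 1) : |T u| ≤ 2 := by
  have d1 : ∀ u, HasDerivAt (fun u => T u - P u * X u + P u) (P' u * (1 - X u)) u := by
    intro u
    have h := ((hT u).sub ((hP u).mul (hX u))).add (hP u)
    have e : P u * X' u - (P' u * X u + P u * X' u) + P' u = P' u * (1 - X u) := by ring
    rw [e] at h
    exact h
  have d2 : ∀ u, HasDerivAt (fun u => P u - (T u - P u * X u)) (P' u * (1 + X u)) u := by
    intro u
    have h := (hP u).sub ((hT u).sub ((hP u).mul (hX u)))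
    have e : P' u - (P u * X' u - (P' u * X u + P u * X' u)) = P' u * (1 + X u) := by ring
    rw [e] at h
    exact h
  have m1 : MonotoneOn (fun u => T u - P u * X u + P u) (Icc (-1) 1) := by
    refine monotoneOn_of_deriv_nonneg (convex_Icc _ _)
      (fun x _ => (d1 x).continuousAt.continuousWithinAt)
      (fun x _ => (d1 x).differentiableAt.differentiableWithinAt) ?_
    intro x hx
    rw [interior_Icc] at hx
    rw [(d1 x).deriv]
    have := abs_le.1 (hXb x (abs_le.2 ⟨hx.1.le, hx.2.le⟩))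
    exact mul_nonneg (hP' x) (by linarith [this.2])
  have m2 : MonotoneOn (fun u => P u - (T u - P u * X u)) (Icc (-1) 1) := by
    refine monotoneOn_of_deriv_nonneg (convex_Icc _ _)
      (fun x _ => (d2 x).continuousAt.continuousWithinAt)
      (fun x _ => (d2 x).differentiableAt.differentiableWithinAt) ?_
    intro x hx
    rw [interior_Icc] at hx
    rw [(d2 x).deriv]
    have := abs_le.1 (hXb x (abs_le.2 ⟨hx.1.le, hx.2.le⟩))
    exact mul_nonneg (hP' x) (by linarith [this.1])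
  have hu' := abs_le.1 hu
  have k1 := m1 (left_mem_Icc.2 (by norm_num)) ⟨hu'.1, hu'.2⟩ hu'.1
  have k2 := m2 (left_mem_Icc.2 (by norm_num)) ⟨hu'.1, hu'.2⟩ hu'.1
  simp only [hP0, hT0] at k1 k2
  have b1 := abs_le.1 (hXb u hu)
  have b2 := hPb u
  have b3 : |P u * X u| ≤ 1 := by
    rw [abs_mul]
    have h3 : |P u| ≤ 1 := abs_le.2 ⟨by linarith, b2.2⟩
    have h4 := hXb u hu
    have h5 := abs_nonneg (X u)
    have h6 := abs_nonneg (P u)
    nlinarith
  have b4 := abs_le.1 b3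
  rw [abs_le]
  constructor <;> linarith

lemma P1_mem (u : ℝ) : 0 ≤ P1 sh u ∧ P1 sh u ≤ 1 := by
  unfold P1
  have h1 := sh.τ_mem (16 * u + 8)
  have h2 := sh.τ_mem (16 * u + -8)
  constructor <;> linarith

lemma T1_bd {u : ℝ} (hu : |u| ≤ 2) : |T1 sh u| ≤ 2 := by
  rcases le_total |u| 1 with h | h
  · exact prim_bd (X1_hasDeriv sh) (tau_hasDeriv sh) (T1_hasDeriv sh) (dtau_nonneg sh)
      (fun u hu => X1_bd sh hu) sh.τ_mem (sh.τ_low _ le_rfl) (T1_low sh le_rfl) h
  · rcases le_abs.1 h with h1 | h1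
    · rw [T1_high sh h1]
      exact hu
    · rw [T1_low sh (by linarith)]
      simp

lemma T2_bd {u : ℝ} (hu : |u| ≤ 2) : |T2 sh u| ≤ 2 := by
  rcases le_total |u| 1 with h | h
  · exact prim_bd (X1_hasDeriv sh) (P1_hasDeriv sh) (T2_hasDeriv sh)
      (fun u => by
        have h1 := dtau_nonneg sh (16 * u + 8)
        have h2 := dtau_nonneg sh (16 * u + -8)
        positivity)
      (fun u hu => X1_bd sh hu) (P1_mem sh) (regA sh (by norm_num)).2.1
      (regA sh (by norm_num)).2.2.1 h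
  · rcases le_abs.1 h with h1 | h1
    · rw [(regE sh (by linarith)).2.2.1, X1_high sh h1]
      exact hu
    · rw [(regA sh (by linarith)).2.2.1]
      simp

/-! ### the two stages -/

/-- The parameter of the first stage. -/
noncomputable def gg (s : ℝ) : ℝ := Real.smoothTransition (4 * s + 1)

/-- The parameter of the second stage. -/
noncomputable def ll (s : ℝ) : ℝ := Real.smoothTransition (4 * s)

lemma gg_mem (s : ℝ) : 0 ≤ gg s ∧ gg s ≤ 1 :=
  ⟨Real.smoothTransition.nonneg _, Real.smoothTransition.le_one _⟩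

lemma ll_mem (s : ℝ) : 0 ≤ ll s ∧ ll s ≤ 1 :=
  ⟨Real.smoothTransition.nonneg _, Real.smoothTransition.le_one _⟩

lemma ll_le (s : ℝ) : ll s ≤ gg s := Real.smoothTransition.monotone (by linarith)

lemma stages (s : ℝ) : ll s * (1 - gg s) = 0 := by
  rcases le_total s 0 with h | h
  · have : ll s = 0 := Real.smoothTransition.zero_of_nonpos (by linarith)
    rw [this, zero_mul]
  · have : gg s = 1 := Real.smoothTransition.one_of_one_le (by linarith)
    rw [this]; ring

lemma gg_smooth : ContDiff ℝ ∞ gg :=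
  Real.smoothTransition.contDiff.comp ((contDiff_const.mul contDiff_id).add contDiff_const)

lemma ll_smooth : ContDiff ℝ ∞ ll :=
  Real.smoothTransition.contDiff.comp (contDiff_const.mul contDiff_id)

lemma gg_deriv (s : ℝ) : ∃ d, HasDerivAt gg d s ∧ |d| ≤ 64 := by
  obtain ⟨d, h1, h2⟩ := st_deriv (4 * s + 1)
  have h3 : HasDerivAt (fun s : ℝ => 4 * s + 1) 4 s := by
    simpa using ((hasDerivAt_id s).const_mul 4).add_const 1
  refine ⟨d * 4, h1.comp s h3, ?_⟩
  rw [abs_mul, abs_of_pos (by norm_num : (0 : ℝ) < 4)]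
  linarith

lemma ll_deriv (s : ℝ) : ∃ d, HasDerivAt ll d s ∧ |d| ≤ 64 := by
  obtain ⟨d, h1, h2⟩ := st_deriv (4 * s)
  have h3 : HasDerivAt (fun s : ℝ => 4 * s) 4 s := by
    simpa using (hasDerivAt_id s).const_mul 4
  refine ⟨d * 4, h1.comp s h3, ?_⟩
  rw [abs_mul, abs_of_pos (by norm_num : (0 : ℝ) < 4)]
  linarith

/-- The `x`-coordinate. -/
noncomputable def XX (s u : ℝ) : ℝ := (1 - gg s) * u + gg s * X1 sh u

/-- The slope. -/
noncomputable def PP (s u : ℝ) : ℝ := (1 - ll s) * sh.τ u + ll s * P1 sh u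

/-- The primitive. -/
noncomputable def TT (s u : ℝ) : ℝ :=
  (1 - gg s) * sh.ΘP u + (gg s - ll s) * T1 sh u + ll s * T2 sh u

/-- The folding profile. -/
noncomputable def prof : Prof where
  X := XX sh
  P := PP sh
  Θ := TT sh
  Y s u := deriv (fun r => TT sh r u) s - PP sh s u * deriv (fun r => XX sh r u) s

lemma XX_du (s u : ℝ) : HasDerivAt (XX sh s) ((1 - gg s) + gg s * dX1 sh u) u := by
  have h := ((hasDerivAt_id u).const_mul (1 - gg s)).add ((X1_hasDeriv sh u).const_mul (gg s))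
  rw [mul_one] at h
  exact h

lemma PP_du (s u : ℝ) : HasDerivAt (PP sh s) ((1 - ll s) * deriv sh.τ u +
    ll s * (8 * deriv sh.τ (16 * u + 8) + 8 * deriv sh.τ (16 * u + -8))) u :=
  ((tau_hasDeriv sh u).const_mul (1 - ll s)).add ((P1_hasDeriv sh u).const_mul (ll s))

lemma TT_du (s u : ℝ) : HasDerivAt (TT sh s)
    (PP sh s u * ((1 - gg s) + gg s * dX1 sh u)) u := by
  have h := (((sh.ΘP_deriv u).const_mul (1 - gg s)).add
    ((T1_hasDeriv sh u).const_mul (gg s - ll s))).add ((T2_hasDeriv sh u).const_mul (ll s))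
  have h1 := stages s
  have e : (1 - gg s) * sh.τ u + (gg s - ll s) * (sh.τ u * dX1 sh u)
      + ll s * (P1 sh u * dX1 sh u) = PP sh s u * ((1 - gg s) + gg s * dX1 sh u) := by
    unfold PP
    linear_combination (sh.τ u - sh.τ u * dX1 sh u - P1 sh u + P1 sh u * dX1 sh u) * h1
  rw [e] at h
  exact h

lemma cvx {a x y B : ℝ} (ha : 0 ≤ a) (ha' : a ≤ 1) (hx : |x| ≤ B) (hy : |y| ≤ B) :
    |(1 - a) * x + a * y| ≤ B := by
  rw [abs_le] at *
  constructor <;> nlinarith

lemma XX_low (s : ℝ) {u : ℝ} (hu : u ≤ -1) : XX sh s u = u := by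
  unfold XX
  rw [X1_low sh hu]
  ring

lemma XX_high (s : ℝ) {u : ℝ} (hu : 1 ≤ u) : XX sh s u = u := by
  unfold XX
  rw [X1_high sh hu]
  ring

lemma PP_low (s : ℝ) {u : ℝ} (hu : u ≤ -1) : PP sh s u = 0 := by
  unfold PP
  rw [sh.τ_low u hu, (regA sh (by linarith)).2.1]
  ring

lemma PP_high (s : ℝ) {u : ℝ} (hu : 1 ≤ u) : PP sh s u = 1 := by
  unfold PP
  rw [sh.τ_high u hu, (regE sh (by linarith)).2.1]
  ring

lemma PP_mem (s u : ℝ) : 0 ≤ PP sh s u ∧ PP sh s u ≤ 1 := by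
  unfold PP
  have h1 := ll_mem s
  have h2 := sh.τ_mem u
  have h3 := P1_mem sh u
  constructor <;> nlinarith

lemma TT_bd (s : ℝ) {u : ℝ} (hu : |u| ≤ 2) : |TT sh s u| ≤ 2 := by
  unfold TT
  have h1 := abs_le.1 (sh.ΘP_bd u hu)
  have h2 := abs_le.1 (T1_bd sh hu)
  have h3 := abs_le.1 (T2_bd sh hu)
  have h4 := gg_mem s
  have h5 := ll_mem s
  have h6 := ll_le s
  rw [abs_le]
  constructor <;> nlinarith [mul_nonneg (sub_nonneg.2 h4.2) (sub_nonneg.2 h1.2),
    mul_nonneg (sub_nonneg.2 h6) (sub_nonneg.2 h2.2), mul_nonneg h5.1 (sub_nonneg.2 h3.2),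
    mul_nonneg (sub_nonneg.2 h4.2) (sub_nonneg.2 h1.1),
    mul_nonneg (sub_nonneg.2 h6) (sub_nonneg.2 h2.1), mul_nonneg h5.1 (sub_nonneg.2 h3.1)]

lemma X1_sub_bd (u : ℝ) : |X1 sh u - u| ≤ 2 := by
  rcases le_total |u| 1 with h | h
  · have h1 := abs_le.1 (X1_bd sh h)
    have h2 := abs_le.1 h
    rw [abs_le]
    constructor <;> linarith
  · rcases le_abs.1 h with h1 | h1
    · rw [X1_high sh h1]
      simp
    · rw [X1_low sh (by linarith)]
      simp

lemma YY_bd (s : ℝ) {u : ℝ} (hu : |u| ≤ 2) :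
    |deriv (fun r => TT sh r u) s - PP sh s u * deriv (fun r => XX sh r u) s| ≤ CY := by
  obtain ⟨d, hd, hd'⟩ := gg_deriv s
  obtain ⟨e, he, he'⟩ := ll_deriv s
  have h1 : HasDerivAt (fun r => TT sh r u) (d * (T1 sh u - sh.ΘP u) + e * (T2 sh u - T1 sh u))
      s := by
    have h := (((hd.const_sub 1).mul_const (sh.ΘP u)).add ((hd.sub he).mul_const (T1 sh u))).add
      (he.mul_const (T2 sh u))
    have e1 : -d * sh.ΘP u + (d - e) * T1 sh u + e * T2 sh u =
      d * (T1 sh u - sh.ΘP u) + e * (T2 sh u - T1 sh u) := by ring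
    rw [e1] at h
    exact h
  have h2 : HasDerivAt (fun r => XX sh r u) (d * (X1 sh u - u)) s := by
    have h := ((hd.const_sub 1).mul_const u).add (hd.mul_const (X1 sh u))
    have e1 : -d * u + d * X1 sh u = d * (X1 sh u - u) := by ring
    rw [e1] at h
    exact h
  rw [h1.deriv, h2.deriv]
  have a1 := sh.ΘP_bd u hu
  have a2 := T1_bd sh hu
  have a3 := T2_bd sh hu
  have a4 := X1_sub_bd sh u
  have a5 := PP_mem sh s u
  have b1 : |T1 sh u - sh.ΘP u| ≤ 4 := (abs_sub _ _).trans (by linarith)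
  have b2 : |T2 sh u - T1 sh u| ≤ 4 := (abs_sub _ _).trans (by linarith)
  have c1 : |d * (T1 sh u - sh.ΘP u)| ≤ 64 * 4 := by
    rw [abs_mul]
    exact mul_le_mul hd' b1 (abs_nonneg _) (by norm_num)
  have c2 : |e * (T2 sh u - T1 sh u)| ≤ 64 * 4 := by
    rw [abs_mul]
    exact mul_le_mul he' b2 (abs_nonneg _) (by norm_num)
  have c3 : |d * (X1 sh u - u)| ≤ 64 * 2 := by
    rw [abs_mul]
    exact mul_le_mul hd' a4 (abs_nonneg _) (by norm_num)
  have c4 : |PP sh s u * (d * (X1 sh u - u))| ≤ 1 * (64 * 2) := by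
    rw [abs_mul]
    exact mul_le_mul (by rw [abs_of_nonneg a5.1]; exact a5.2) c3 (abs_nonneg _) (by norm_num)
  unfold CY
  rw [abs_le] at *
  constructor <;> linarith [c1.1, c1.2, c2.1, c2.2, c4.1, c4.2]

/-! ### immersion and injectivity -/

lemma mono_inj {P : ℝ → ℝ} {a b : ℝ} (hm : StrictMonoOn P (Icc a b)) (hlow : ∀ u ≤ a, P u = P a)
    (hhigh : ∀ u, b ≤ u → P u = P b) {u v : ℝ} (huv : u < v) (h : P u = P v)
    (hab : a < b) : v ≤ a ∨ b ≤ u := by
  by_contra hcon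
  push Not at hcon
  obtain ⟨h1, h2⟩ := hcon
  have k1 : P u = P (max u a) := by
    rcases le_total u a with h3 | h3
    · rw [max_eq_right h3, hlow u h3]
    · rw [max_eq_left h3]
  have k2 : P v = P (min v b) := by
    rcases le_total v b with h3 | h3
    · rw [min_eq_left h3]
    · rw [min_eq_right h3, hhigh v h3]
  have k3 : max u a < min v b := by
    rw [max_lt_iff, lt_min_iff, lt_min_iff]
    exact ⟨⟨huv, h2⟩, ⟨h1, hab⟩⟩
  have k4 : P (max u a) < P (min v b) :=
    hm ⟨le_max_right _ _, (max_lt_iff.2 ⟨h2, hab⟩).le⟩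
      ⟨(lt_min_iff.2 ⟨h1, hab⟩).le, min_le_right _ _⟩ k3
  rw [← k1, ← k2, h] at k4
  exact lt_irrefl _ k4

lemma PP_strictMono {s : ℝ} (hs : ll s < 1) : StrictMonoOn (PP sh s) (Icc (-1) 1) := by
  refine strictMonoOn_of_deriv_pos (convex_Icc _ _)
    (fun x _ => (PP_du sh s x).continuousAt.continuousWithinAt) ?_
  intro x hx
  rw [interior_Icc] at hx
  rw [(PP_du sh s x).deriv]
  have h1 := sh.τ_deriv x hx.1 hx.2
  have h2 := dtau_nonneg sh (16 * x + 8)
  have h3 := dtau_nonneg sh (16 * x + -8)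
  have h4 := (ll_mem s).1
  have h5 : 0 < (1 - ll s) * deriv sh.τ x := mul_pos (by linarith) h1
  have h6 : 0 ≤ ll s * (8 * deriv sh.τ (16 * x + 8) + 8 * deriv sh.τ (16 * x + -8)) := by
    positivity
  linarith

lemma gg_one {s : ℝ} (hs : ll s = 1) : gg s = 1 := by
  have := stages s
  rw [hs] at this
  linarith

lemma imm (s u : ℝ) (hu : |u| < 1) : deriv (XX sh s) u ≠ 0 ∨ deriv (PP sh s) u ≠ 0 := by
  rw [abs_lt] at hu
  rw [(XX_du sh s u).deriv, (PP_du sh s u).deriv]
  have h2 := dtau_nonneg sh (16 * u + 8)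
  have h3 := dtau_nonneg sh (16 * u + -8)
  have h4 := ll_mem s
  rcases lt_or_eq_of_le h4.2 with h | h
  · right
    have h1 := sh.τ_deriv u hu.1 hu.2
    have h5 : 0 < (1 - ll s) * deriv sh.τ u := mul_pos (by linarith) h1
    have h6 : 0 ≤ ll s * (8 * deriv sh.τ (16 * u + 8) + 8 * deriv sh.τ (16 * u + -8)) :=
      mul_nonneg h4.1 (by positivity)
    exact (by linarith : 0 < (1 - ll s) * deriv sh.τ u +
      ll s * (8 * deriv sh.τ (16 * u + 8) + 8 * deriv sh.τ (16 * u + -8))).ne'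
  · rw [gg_one h, h]
    rcases le_or_gt u (-(9 / 16)) with k1 | k1
    · left
      have := dX1_low sh k1
      linarith
    rcases lt_or_ge u (-(7 / 16)) with k2 | k2
    · right
      have := sh.τ_deriv (16 * u + 8) (by linarith) (by linarith)
      linarith
    rcases le_or_gt u (7 / 16) with k3 | k3
    · left
      have := dX1_mid sh k2 k3
      linarith
    rcases lt_or_ge u (9 / 16) with k4 | k4
    · right
      have := sh.τ_deriv (16 * u + -8) (by linarith) (by linarith)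
      linarith
    · left
      have := dX1_high sh k4
      linarith

lemma P1_monoB : StrictMonoOn (P1 sh) (Icc (-(9 / 16)) (-(7 / 16))) := by
  refine strictMonoOn_of_deriv_pos (convex_Icc _ _)
    (fun x _ => (P1_hasDeriv sh x).continuousAt.continuousWithinAt) ?_
  intro x hx
  rw [interior_Icc] at hx
  rw [(P1_hasDeriv sh x).deriv]
  have h1 := sh.τ_deriv (16 * x + 8) (by linarith [hx.1]) (by linarith [hx.2])
  have h3 := dtau_nonneg sh (16 * x + -8)
  linarith

lemma P1_monoD : StrictMonoOn (P1 sh) (Icc (7 / 16) (9 / 16)) := by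
  refine strictMonoOn_of_deriv_pos (convex_Icc _ _)
    (fun x _ => (P1_hasDeriv sh x).continuousAt.continuousWithinAt) ?_
  intro x hx
  rw [interior_Icc] at hx
  rw [(P1_hasDeriv sh x).deriv]
  have h1 := sh.τ_deriv (16 * x + -8) (by linarith [hx.1]) (by linarith [hx.2])
  have h3 := dtau_nonneg sh (16 * x + 8)
  linarith

lemma P1_flatA {u : ℝ} (hu : u ≤ -(9 / 16)) : P1 sh u = 0 := by
  unfold P1
  rw [sh.τ_low _ (by linarith), sh.τ_low _ (by linarith)]
  norm_num

lemma P1_flatC {u : ℝ} (hu : -(7 / 16) ≤ u) (hu' : u ≤ 7 / 16) : P1 sh u = 1 / 2 := by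
  unfold P1
  rw [sh.τ_high _ (by linarith), sh.τ_low _ (by linarith)]
  norm_num

lemma P1_flatE {u : ℝ} (hu : 9 / 16 ≤ u) : P1 sh u = 1 := by
  unfold P1
  rw [sh.τ_high _ (by linarith), sh.τ_high _ (by linarith)]
  norm_num

lemma P1_mono : Monotone (P1 sh) := by
  refine monotone_of_deriv_nonneg (fun u => (P1_hasDeriv sh u).differentiableAt) fun u => ?_
  rw [(P1_hasDeriv sh u).deriv]
  have h2 := dtau_nonneg sh (16 * u + 8)
  have h3 := dtau_nonneg sh (16 * u + -8)
  positivity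

lemma inj_lt (s u v : ℝ) (huv : u < v) (hX : XX sh s u = XX sh s v)
    (hP : PP sh s u = PP sh s v) : False := by
  have h4 := ll_mem s
  rcases lt_or_eq_of_le h4.2 with h | h
  · rcases mono_inj (PP_strictMono sh h) (fun u hu => by rw [PP_low sh s hu, PP_low sh s le_rfl])
      (fun u hu => by rw [PP_high sh s hu, PP_high sh s le_rfl]) huv hP (by norm_num) with h1 | h1
    · rw [XX_low sh s (by linarith : u ≤ -1), XX_low sh s h1] at hX
      linarith
    · rw [XX_high sh s h1, XX_high sh s (by linarith : 1 ≤ v)] at hX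
      linarith
  · have e1 : XX sh s = X1 sh := by
      funext w
      unfold XX
      rw [gg_one h]
      ring
    have e2 : PP sh s = P1 sh := by
      funext w
      unfold PP
      rw [h]
      ring
    rw [e1] at hX
    rw [e2] at hP
    -- the level of `P1`
    rcases le_or_gt v (-(9 / 16)) with k1 | k1
    · exact ((X1_monoA sh) (by simp only [mem_Iic]; linarith) k1 huv).ne hX
    rcases le_or_gt (9 / 16) u with k2 | k2
    · exact ((X1_monoE sh) k2 (by simp only [mem_Ici]; linarith) huv).ne hX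
    rcases le_or_gt (-(7 / 16)) u with k3 | k3
    · rcases le_or_gt v (7 / 16) with k4 | k4
      · exact ((X1_antiC sh) ⟨k3, by linarith⟩ ⟨by linarith, k4⟩ huv).ne' hX
      · -- `u ∈ [-7/16, 9/16)`, `v > 7/16`
        have a1 : P1 sh (max u (7 / 16)) < P1 sh (min v (9 / 16)) := by
          apply P1_monoD sh
          · exact ⟨le_max_right _ _, (max_lt_iff.2 ⟨k2, by norm_num⟩).le⟩
          · exact ⟨(lt_min_iff.2 ⟨k4, by norm_num⟩).le, min_le_right _ _⟩
          · rw [max_lt_iff, lt_min_iff, lt_min_iff]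
            exact ⟨⟨huv, k2⟩, ⟨k4, by norm_num⟩⟩
        have a2 := P1_mono sh (le_max_left u (7 / 16))
        have a3 := P1_mono sh (min_le_left v (9 / 16))
        linarith
    · -- `u < -7/16`, `v > -9/16`
      have a1 : P1 sh (max u (-(9 / 16))) < P1 sh (min v (-(7 / 16))) := by
        apply P1_monoB sh
        · exact ⟨le_max_right _ _, (max_lt_iff.2 ⟨k3, by norm_num⟩).le⟩
        · exact ⟨(lt_min_iff.2 ⟨k1, by norm_num⟩).le, min_le_right _ _⟩
        · rw [max_lt_iff, lt_min_iff, lt_min_iff]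
          exact ⟨⟨huv, k3⟩, ⟨k1, by norm_num⟩⟩
      have a2 := P1_mono sh (le_max_left u (-(9 / 16)))
      have a3 := P1_mono sh (min_le_left v (-(7 / 16)))
      linarith

lemma inj (s u v : ℝ) (hX : XX sh s u = XX sh s v)
    (hP : PP sh s u = PP sh s v) : u = v := by
  rcases lt_trichotomy u v with h | h | h
  · exact (inj_lt sh s u v h hX hP).elim
  · exact h
  · exact (inj_lt sh s v u h hX.symm hP.symm).elim

/-! ### the fields -/

lemma XX_smooth : ContDiff ℝ ∞ (fun a : ℝ × ℝ => XX sh a.1 a.2) :=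
  ((contDiff_const.sub (gg_smooth.comp contDiff_fst)).mul contDiff_snd).add
    ((gg_smooth.comp contDiff_fst).mul ((X1_smooth sh).comp contDiff_snd))

lemma PP_smooth : ContDiff ℝ ∞ (fun a : ℝ × ℝ => PP sh a.1 a.2) :=
  ((contDiff_const.sub (ll_smooth.comp contDiff_fst)).mul (sh.τ_smooth.comp contDiff_snd)).add
    ((ll_smooth.comp contDiff_fst).mul ((P1_smooth sh).comp contDiff_snd))

lemma TT_smooth : ContDiff ℝ ∞ (fun a : ℝ × ℝ => TT sh a.1 a.2) :=
  (((contDiff_const.sub (gg_smooth.comp contDiff_fst)).mul (sh.ΘP_smooth.comp contDiff_snd)).add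
    (((gg_smooth.comp contDiff_fst).sub (ll_smooth.comp contDiff_fst)).mul
      ((T1_smooth sh).comp contDiff_snd))).add
    ((ll_smooth.comp contDiff_fst).mul ((T2_smooth sh).comp contDiff_snd))

lemma prof_ok (J : Set ℝ) (D : ℝ → ℝ) (hD : ∀ s ∈ J, D s ≠ 0) : ProfOK J .P D (prof sh) where
  X_smooth := (XX_smooth sh).contDiffOn
  P_smooth := (PP_smooth sh).contDiffOn
  Θ_smooth := (TT_smooth sh).contDiffOn
  dΘ := by
    intro s _ u
    show HasDerivAt (TT sh s) (PP sh s u * deriv (XX sh s) u) u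
    rw [(XX_du sh s u).deriv]
    exact TT_du sh s u
  Y_eq := fun s _ u => rfl
  bd := by
    intro s _
    refine ⟨?_, ?_, ?_, ?_, ?_, ?_⟩
    · intro u hu
      refine ⟨XX_low sh s hu, PP_low sh s hu, ?_⟩
      show TT sh s u = 0
      unfold TT
      rw [sh.ΘP_low u hu, T1_low sh hu, (regA sh (by linarith)).2.2.1]
      ring
    · intro u hu
      refine ⟨XX_high sh s hu, PP_high sh s hu, ?_⟩
      show TT sh s u = u
      unfold TT
      rw [sh.ΘP_high u hu, T1_high sh hu, (regE sh (by linarith)).2.2.1, X1_high sh hu]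
      ring
    · intro u hu
      exact cvx (gg_mem s).1 (gg_mem s).2 hu (X1_bd sh hu)
    · exact PP_mem sh s
    · intro u hu
      exact TT_bd sh s hu
    · intro u hu
      exact YY_bd sh s hu
  imm := by
    intro s hs u hu
    rcases imm sh s u hu with h | h
    · exact Or.inl h
    · exact Or.inr (mul_ne_zero (hD s hs) h)
  inj := by
    intro s hs u u' _ _ hX hP
    exact inj sh s u u' hX (mul_left_cancel₀ (hD s hs) hP)

lemma gg_late {s : ℝ} (hs : 1 / 4 ≤ s) : gg s = 1 :=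
  Real.smoothTransition.one_of_one_le (by linarith)

lemma ll_late {s : ℝ} (hs : 1 / 4 ≤ s) : ll s = 1 :=
  Real.smoothTransition.one_of_one_le (by linarith)

lemma late_eq {s : ℝ} (hs : 1 / 4 ≤ s) (u : ℝ) :
    XX sh s u = X1 sh u ∧ PP sh s u = P1 sh u ∧ TT sh s u = T2 sh u := by
  unfold XX PP TT
  rw [gg_late hs, ll_late hs]
  refine ⟨by ring, by ring, by ring⟩

lemma late_set (x p θ : ℝ) :
    (∃ u, |u| ≤ 2 ∧ X1 sh u = x ∧ P1 sh u = p ∧ T2 sh u = θ) ↔ FoldSet sh x p θ := by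
  have hc := (X1_diff sh).continuous
  constructor
  · rintro ⟨u, hu, rfl, rfl, rfl⟩
    rw [abs_le] at hu
    rcases le_total u (-(5 / 8)) with h1 | h1
    · left
      have e1 := X1_low sh (u := -2) (by norm_num)
      have h2 : X1 sh (-2) ≤ X1 sh u :=
        (X1_monoA sh).monotoneOn (by norm_num) (by simp only [mem_Iic]; linarith) hu.1
      have h3 : X1 sh u ≤ X1 sh (-(5 / 8)) :=
        (X1_monoA sh).monotoneOn (by simp only [mem_Iic]; linarith) (by norm_num) h1
      rw [e1] at h2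
      rw [X1_a] at h3
      exact ⟨h2, h3, (regA sh h1).2.1, (regA sh h1).2.2.1⟩
    rcases le_total u (-(3 / 8)) with h2 | h2
    · right; left
      obtain ⟨k1, -, k2, k3, -⟩ := regB sh h1 h2
      refine ⟨16 * u + 8, ?_, k1, k2, k3⟩
      rw [abs_le]; constructor <;> linarith
    rcases le_total u (3 / 8) with h3 | h3
    · right; right; left
      have h4 : X1 sh u ≤ X1 sh (-(3 / 8)) :=
        (X1_antiC sh).antitoneOn (by norm_num) (by constructor <;> linarith) h2
      have h5 : X1 sh (3 / 8) ≤ X1 sh u :=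
        (X1_antiC sh).antitoneOn (by constructor <;> linarith) (by norm_num) h3
      rw [X1_b] at h4
      rw [X1_c] at h5
      obtain ⟨-, k2, k3, -⟩ := regC sh h2 h3
      exact ⟨h5, h4, k2, k3⟩
    rcases le_total u (5 / 8) with h4 | h4
    · right; right; right; left
      obtain ⟨k1, -, k2, k3, -⟩ := regD sh h3 h4
      refine ⟨16 * u + -8, ?_, k1, k2, k3⟩
      rw [abs_le]; constructor <;> linarith
    · right; right; right; right
      have e2 := X1_high sh (u := 2) (by norm_num)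
      have h5 : X1 sh (5 / 8) ≤ X1 sh u :=
        (X1_monoE sh).monotoneOn (by norm_num) (by simp only [mem_Ici]; linarith) h4
      have h6 : X1 sh u ≤ X1 sh 2 :=
        (X1_monoE sh).monotoneOn (by simp only [mem_Ici]; linarith) (by norm_num) hu.2
      rw [X1_d] at h5
      rw [e2] at h6
      obtain ⟨-, k2, k3, -⟩ := regE sh h4
      exact ⟨h5, h6, k2, k3⟩
  · rintro (⟨h1, h2, rfl, rfl⟩ | ⟨u, hu, rfl, rfl, rfl⟩ | ⟨h1, h2, rfl, rfl⟩ |
      ⟨u, hu, h1, rfl, h2⟩ | ⟨h1, h2, rfl, rfl⟩)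
    · have hI := intermediate_value_Icc (by norm_num : (-2 : ℝ) ≤ -(5 / 8)) hc.continuousOn
      rw [X1_a, X1_low sh (u := -2) (by norm_num)] at hI
      obtain ⟨u, hu, rfl⟩ := hI ⟨h1, h2⟩
      obtain ⟨-, k2, k3, -⟩ := regA sh hu.2
      exact ⟨u, by rw [abs_le]; constructor <;> linarith [hu.1, hu.2], rfl, k2, k3⟩
    · rw [abs_le] at hu
      obtain ⟨k1, -, k2, k3, -⟩ := regB sh (u := (u - 8) / 16) (by linarith) (by linarith)
      have e : 16 * ((u - 8) / 16) + 8 = u := by ring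
      rw [e] at k1 k2 k3
      exact ⟨(u - 8) / 16, by rw [abs_le]; constructor <;> linarith, k1, k2, k3⟩
    · have hI := intermediate_value_Icc' (by norm_num : (-(3 / 8) : ℝ) ≤ 3 / 8) hc.continuousOn
      rw [X1_b, X1_c] at hI
      obtain ⟨u, hu, rfl⟩ := hI ⟨h1, h2⟩
      obtain ⟨-, k2, k3, -⟩ := regC sh hu.1 hu.2
      exact ⟨u, by rw [abs_le]; constructor <;> linarith [hu.1, hu.2], rfl, k2, k3⟩
    · rw [abs_le] at hu
      obtain ⟨k1, -, k2, k3, -⟩ := regD sh (u := (u + 8) / 16) (by linarith) (by linarith)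
      have e : 16 * ((u + 8) / 16) + -8 = u := by ring
      rw [e] at k1 k2 k3
      refine ⟨(u + 8) / 16, by rw [abs_le]; constructor <;> linarith, k1.trans h1.symm, k2, ?_⟩
      rw [k3, h2, h1, k1]
    · have hI := intermediate_value_Icc (by norm_num : (5 / 8 : ℝ) ≤ 2) hc.continuousOn
      rw [X1_d, X1_high sh (u := 2) (by norm_num)] at hI
      obtain ⟨u, hu, rfl⟩ := hI ⟨h1, h2⟩
      obtain ⟨-, k2, k3, -⟩ := regE sh hu.1
      exact ⟨u, by rw [abs_le]; constructor <;> linarith [hu.1, hu.2], rfl, k2, k3⟩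

end FPR

/-- FPR: a folding profile exists. -/
theorem t_FPR : Stmt_FPR := by
  intro sh
  refine ⟨FPR.prof sh, ?_, ?_, ?_, ?_⟩
  · intro J D _ hD
    exact FPR.prof_ok sh J D hD
  · intro s hs u
    have h1 : FPR.gg s = 0 := Real.smoothTransition.zero_of_nonpos (by linarith)
    have h2 : FPR.ll s = 0 := Real.smoothTransition.zero_of_nonpos (by linarith)
    show FPR.XX sh s u = u ∧ FPR.PP sh s u = sh.τ u ∧ FPR.TT sh s u = sh.ΘP u
    unfold FPR.XX FPR.PP FPR.TT
    rw [h1, h2]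
    refine ⟨by ring, by ring, by ring⟩
  · intro s hs u
    have h1 := FPR.late_eq sh hs u
    have h2 := FPR.late_eq sh (by norm_num : (1 / 4 : ℝ) ≤ 1) u
    exact ⟨h1.1.trans h2.1.symm, h1.2.1.trans h2.2.1.symm, h1.2.2.trans h2.2.2.symm⟩
  · intro x p θ
    rw [← FPR.late_set sh x p θ]
    refine exists_congr fun u => ?_
    have h2 := FPR.late_eq sh (by norm_num : (1 / 4 : ℝ) ≤ 1) u
    show |u| ≤ 2 ∧ FPR.XX sh 1 u = x ∧ FPR.PP sh 1 u = p ∧ FPR.TT sh 1 u = θ ↔ _
    rw [h2.1, h2.2.1, h2.2.2]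

end LCA
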