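import Pool.Agent.LCA.Stmts4

/-!
# The checker: two edges
-/

namespace LCA

open Set Filter
open scoped ContDiff Topology

namespace GEE

/-- Positional separation, as a proposition. -/
def Pos (f f' : ES) : Prop := f.ir < f'.il ∨ f'.ir < f.il ∨ f.p < f'.p ∨ f'.p < f.p

/-- The difference of the values of `z`. -/
def D (f f' : ES) (x : ℤ) : ℤ := (f.dp - f'.dp) * x + (f.da - f'.da)

/-- The condition of the checker, as a proposition. -/
def P (f g f' g' : ES) : Prop :=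
  (f.ir < f'.il ∧ g.ir < g'.il) ∨ (f'.ir < f.il ∧ g'.ir < g.il) ∨
  (f.p < f'.p ∧ g.p < g'.p) ∨ (f'.p < f.p ∧ g'.p < g.p) ∨
  ((0 < D g g' (max (min f.xl g.xl) (min f'.xl g'.xl)) ∧
      0 < D g g' (min (max f.xr g.xr) (max f'.xr g'.xr)) ∧
      (Pos f f' ∨ (0 < D f f' (max f.xl f'.xl) ∧ 0 < D f f' (min f.xr f'.xr)))) ∨
    (D g g' (max (min f.xl g.xl) (min f'.xl g'.xl)) < 0 ∧
      D g g' (min (max f.xr g.xr) (max f'.xr g'.xr)) < 0 ∧
      (Pos f f' ∨ (D f f' (max f.xl f'.xl) < 0 ∧ D f f' (min f.xr f'.xr) < 0))))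

theorem D_symm (f f' : ES) (x : ℤ) : D f' f x = - D f f' x := by
  unfold D; ring

theorem Pos_symm {f f' : ES} (h : Pos f f') : Pos f' f := by
  unfold Pos at *; tauto

theorem P_symm {f g f' g' : ES} (h : P f g f' g') : P f' g' f g := by
  unfold P at *
  rw [D_symm g g', D_symm g g', D_symm f f', D_symm f f', max_comm (min f'.xl g'.xl),
    min_comm (max f'.xr g'.xr), max_comm f'.xl, min_comm f'.xr]
  have hp : Pos f f' → Pos f' f := Pos_symm
  rcases h with h | h | h | h | h | h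
  · exact Or.inr (Or.inl h)
  · exact Or.inl h
  · exact Or.inr (Or.inr (Or.inr (Or.inl h)))
  · exact Or.inr (Or.inr (Or.inl h))
  · refine Or.inr (Or.inr (Or.inr (Or.inr (Or.inr ⟨by linarith [h.1], by linarith [h.2.1], ?_⟩))))
    rcases h.2.2 with h3 | h3
    · exact Or.inl (hp h3)
    · exact Or.inr ⟨by linarith [h3.1], by linarith [h3.2]⟩
  · refine Or.inr (Or.inr (Or.inr (Or.inr (Or.inl ⟨by linarith [h.1], by linarith [h.2.1], ?_⟩))))
    rcases h.2.2 with h3 | h3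
    · exact Or.inl (hp h3)
    · exact Or.inr ⟨by linarith [h3.1], by linarith [h3.2]⟩

theorem dEE_eq (f f' : ES) (x : ℤ) : dEE f f' x = D f f' x := rfl

theorem chEE_iff (hCBL : Stmt_CBL) (f g f' g' : ES) :
    chEE f g f' g' = true ↔ P f g f' g' := by
  obtain ⟨h1, h2, h3, -, h5, h6, -⟩ := hCBL
  unfold chEE sgn2 posEE P Pos
  simp only [h1, h2, h3, h5, h6, dEE_eq]

/-- The conclusion for one order of the edges. -/
theorem lee {m n : ℕ} {A B : SD} (hA : A.Vals m n) (hB : B.Vals m n)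
    (hcb : A.cb m n = B.cb m n) (hW : A.W n = B.W n) (e e' : Fin (m + 1))
    (h : P (A.e e) (B.e e) (A.e e') (B.e e')) :
    (A.cb m n).LEE (A.W n) (A.Q n) (A.V n) (B.Q n) (B.V n) e e' := by
  have a1 := hA.il; have a2 := hA.ir; have a3 := hA.pe; have a4 := hA.dpe
  have a5 := hA.dae; have a6 := hA.xl; have a7 := hA.xr
  have b1 := hB.il; have b2 := hB.ir; have b3 := hB.pe; have b4 := hB.dpe
  have b5 := hB.dae; have b6 := hB.xl; have b7 := hB.xr
  rw [← hcb] at b1 b2 b3 b4 b5 b6 b7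
  rw [← hW] at b1 b2
  have hDB : ∀ x : ℤ, (A.cb m n).Dee (B.Q n) (B.V n) e e' (x : ℝ) =
      ((D (B.e e) (B.e e') x : ℤ) : ℝ) := by
    intro x
    unfold Comb.Dee D
    rw [b4, b4, b5, b5]
    push_cast
    ring
  have hDA : ∀ x : ℤ, (A.cb m n).Dee (A.Q n) (A.V n) e e' (x : ℝ) =
      ((D (A.e e) (A.e e') x : ℤ) : ℝ) := by
    intro x
    unfold Comb.Dee D
    rw [a4, a4, a5, a5]
    push_cast
    ring
  have hpos : Pos (A.e e) (A.e e') → (A.cb m n).See (A.W n) (A.Q n) e e' := by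
    intro hp
    unfold Comb.See
    rw [a1, a1, a2, a2, a3, a3]
    rcases hp with hp | hp | hp | hp
    · left; exact_mod_cast hp
    · right; left; exact_mod_cast hp
    · right; right; exact ne_of_lt (by exact_mod_cast hp)
    · right; right; exact ne_of_gt (by exact_mod_cast hp)
  unfold Comb.LEE
  rw [a1, a1, a2, a2, a3, a3, b1, b1, b2, b2, b3, b3, a6, a6, a7, a7, b6, b6, b7, b7]
  have c1 : max (min (((A.e e).xl : ℤ) : ℝ) (((B.e e).xl : ℤ) : ℝ))
      (min (((A.e e').xl : ℤ) : ℝ) (((B.e e').xl : ℤ) : ℝ)) =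
      ((max (min (A.e e).xl (B.e e).xl) (min (A.e e').xl (B.e e').xl) : ℤ) : ℝ) := by
    push_cast; rfl
  have c2 : min (max (((A.e e).xr : ℤ) : ℝ) (((B.e e).xr : ℤ) : ℝ))
      (max (((A.e e').xr : ℤ) : ℝ) (((B.e e').xr : ℤ) : ℝ)) =
      ((min (max (A.e e).xr (B.e e).xr) (max (A.e e').xr (B.e e').xr) : ℤ) : ℝ) := by
    push_cast; rfl
  rw [c1, c2, hDB, hDB]
  have hz : ∀ σ : ℝ, (A.cb m n).Zee (A.Q n) (A.V n) e e' σ ↔
      (0 < σ * ((D (A.e e) (A.e e') (max (A.e e).xl (A.e e').xl) : ℤ) : ℝ) ∧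
        0 < σ * ((D (A.e e) (A.e e') (min (A.e e).xr (A.e e').xr) : ℤ) : ℝ)) := by
    intro σ
    unfold Comb.Zee
    rw [a6, a6, a7, a7]
    have d1 : max (((A.e e).xl : ℤ) : ℝ) (((A.e e').xl : ℤ) : ℝ) =
        ((max (A.e e).xl (A.e e').xl : ℤ) : ℝ) := by push_cast; rfl
    have d2 : min (((A.e e).xr : ℤ) : ℝ) (((A.e e').xr : ℤ) : ℝ) =
        ((min (A.e e).xr (A.e e').xr : ℤ) : ℝ) := by push_cast; rfl
    rw [d1, d2, hDA, hDA]
  rcases h with h | h | h | h | h | h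
  · left; exact ⟨by exact_mod_cast h.1, by exact_mod_cast h.2⟩
  · right; left; exact ⟨by exact_mod_cast h.1, by exact_mod_cast h.2⟩
  · right; right; left; exact ⟨by exact_mod_cast h.1, by exact_mod_cast h.2⟩
  · right; right; right; left; exact ⟨by exact_mod_cast h.1, by exact_mod_cast h.2⟩
  · right; right; right; right
    refine ⟨1, abs_one, ?_, ?_, ?_⟩
    · rw [one_mul]; exact_mod_cast h.1
    · rw [one_mul]; exact_mod_cast h.2.1
    · rcases h.2.2 with h3 | h3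
      · exact Or.inl (hpos h3)
      · right
        rw [hz, one_mul, one_mul]
        exact ⟨by exact_mod_cast h3.1, by exact_mod_cast h3.2⟩
  · right; right; right; right
    refine ⟨-1, by rw [abs_neg, abs_one], ?_, ?_, ?_⟩
    · rw [neg_one_mul, neg_pos]; exact_mod_cast h.1
    · rw [neg_one_mul, neg_pos]; exact_mod_cast h.2.1
    · rcases h.2.2 with h3 | h3
      · exact Or.inl (hpos h3)
      · right
        rw [hz, neg_one_mul, neg_pos, neg_one_mul, neg_pos]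
        exact ⟨by exact_mod_cast h3.1, by exact_mod_cast h3.2⟩

end GEE

theorem t_GEE (hCBL : Stmt_CBL) : Stmt_GEE := by
  intro m n A B hA hB hcb hW e e' h
  rw [GEE.chEE_iff hCBL] at h
  exact ⟨GEE.lee hA hB hcb hW e e' h, GEE.lee hA hB hcb hW e' e (GEE.P_symm h)⟩

end LCA
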