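import Pool.Agent.LCA.Stmts1

/-!
# GLU: gluing over overlapping intervals
-/

namespace LCA

open Set Filter
open scoped ContDiff Topology

namespace GLU

/-- The glued set. -/
def glue (b c : ℝ) (A A' : Set E5) : Set E5 := {q | (q ∈ A ∧ q.1 < b) ∨ (q ∈ A' ∧ c < q.1)}

theorem good_glue {a b c d : ℝ} {B : Set E5} (hac : a < c) (hcb : c < b) (hbd : b < d)
    (h1 : Good (Ioo a b) B) (h2 : Good (Ioo c d) B) : Good (Ioo a d) B := by
  refine ⟨?_, ?_, ?_, ?_⟩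
  · intro q hq hJ
    rcases lt_or_ge q.1 b with h | h
    · exact h1.closed q hq ⟨hJ.1, h⟩
    · exact h2.closed q hq ⟨hcb.trans_le h, hJ.2⟩
  · intro K hK hKc
    have hm1 : c < (b + c) / 2 := by linarith
    have hm2 : (b + c) / 2 < b := by linarith
    obtain ⟨M1, hM1⟩ := h1.bounded (K ∩ Iic ((b + c) / 2))
      (fun x hx => ⟨(hK hx.1).1, lt_of_le_of_lt hx.2 hm2⟩) (hKc.inter_right isClosed_Iic)
    obtain ⟨M2, hM2⟩ := h2.bounded (K ∩ Ici ((b + c) / 2))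
      (fun x hx => ⟨lt_of_lt_of_le hm1 hx.2, (hK hx.1).2⟩) (hKc.inter_right isClosed_Ici)
    refine ⟨max M1 M2, fun q hq hqK => ?_⟩
    rcases le_total q.1 ((b + c) / 2) with h | h
    · exact (hM1 q hq ⟨hqK, h⟩).trans (le_max_left _ _)
    · exact (hM2 q hq ⟨hqK, h⟩).trans (le_max_right _ _)
  · intro q hq hJ
    rcases lt_or_ge q.1 b with h | h
    · exact h1.chart q hq ⟨hJ.1, h⟩
    · exact h2.chart q hq ⟨hcb.trans_le h, hJ.2⟩
  · intro q hq q' hq' hJ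
    rcases lt_or_ge q.1 b with h | h
    · exact h1.inj q hq q' hq' ⟨hJ.1, h⟩
    · exact h2.inj q hq q' hq' ⟨hcb.trans_le h, hJ.2⟩

theorem down_glue {a b c d : ℝ} {B : Set E5} (hac : a < c) (hcb : c < b) (hbd : b < d)
    (h1 : Down (Ioo a b) B) (h2 : Down (Ioo c d) B) : Down (Ioo a d) B := by
  intro q hq hJ c0 hc0 hle
  rcases lt_or_ge q.1 b with h | h
  · exact h1 q hq ⟨hJ.1, h⟩ c0 ⟨hc0.1, hle.trans_lt h⟩ hle
  · rcases lt_or_ge c c0 with h' | h'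
    · exact h2 q hq ⟨hcb.trans_le h, hJ.2⟩ c0 ⟨h', hc0.2⟩ hle
    · have hm1 : c < (b + c) / 2 := by linarith
      have hm2 : (b + c) / 2 < b := by linarith
      obtain ⟨q', hq', e, hj⟩ := h2 q hq ⟨hcb.trans_le h, hJ.2⟩ ((b + c) / 2)
        ⟨hm1, hm2.trans hbd⟩ (hm2.le.trans h)
      obtain ⟨q'', hq'', e', hj'⟩ := h1 q' hq' (by rw [e]; exact ⟨hac.trans hm1, hm2⟩) c0
        ⟨hc0.1, h'.trans_lt hcb⟩ (by rw [e]; exact h'.trans hm1.le)
      have s1 : {r ∈ B | r.1 ∈ Icc ((b + c) / 2) q.1} ⊆ {r ∈ B | r.1 ∈ Icc c0 q.1} :=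
        fun r hr => ⟨hr.1, (h'.trans hm1.le).trans hr.2.1, hr.2.2⟩
      have s2 : {r ∈ B | r.1 ∈ Icc c0 q'.1} ⊆ {r ∈ B | r.1 ∈ Icc c0 q.1} :=
        fun r hr => ⟨hr.1, hr.2.1, hr.2.2.trans (by rw [e]; exact hm2.le.trans h)⟩
      exact ⟨q'', hq'', e', (hj.mono s1).trans (hj'.mono s2)⟩

end GLU

open GLU in
theorem t_GLU (hCNG : Stmt_CNG) : Stmt_GLU := by
  intro a b c d A A' hac hcb hbd gA dA gA' dA' hagr
  have e1 : Agree (Ioo a b) A (glue b c A A') := by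
    intro q hq
    constructor
    · intro h
      exact Or.inl ⟨h, hq.2⟩
    · rintro (h | h)
      · exact h.1
      · exact (hagr q ⟨h.2, hq.2⟩).2 h.1
  have e2 : Agree (Ioo c d) A' (glue b c A A') := by
    intro q hq
    constructor
    · intro h
      exact Or.inr ⟨h, hq.1⟩
    · rintro (h | h)
      · exact (hagr q ⟨hq.1, h.2⟩).1 h.1
      · exact h.1
  obtain ⟨g1, d1, -⟩ := hCNG (Ioo a b) A (glue b c A A') isOpen_Ioo ordConnected_Ioo e1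
  obtain ⟨g2, d2, -⟩ := hCNG (Ioo c d) A' (glue b c A A') isOpen_Ioo ordConnected_Ioo e2
  exact ⟨glue b c A A', good_glue hac hcb hbd (g1 gA) (g2 gA'),
    down_glue hac hcb hbd (d1 dA) (d2 dA'), fun q hq => (e1 q hq).symm,
    fun q hq => (e2 q hq).symm⟩

end LCA
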