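import Pool.Agent.LCA.Stmts4

/-!
# Part A: certificates during a linear motion
-/

namespace LCA

open Set Filter
open scoped ContDiff Topology

namespace GOC

/-- An affine function which is larger than `k` at `0` and `T` is larger than `k` in between. -/
theorem aff {a b k T s : ℝ} (_hT : 0 < T) (hs : s ∈ Icc (0 : ℝ) T) (h0 : k < a)
    (h1 : k < a + T * b) : k < a + s * b := by
  obtain ⟨h2, h3⟩ := hs
  by_cases hb : 0 ≤ b
  · have : 0 ≤ s * b := mul_nonneg h2 hb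
    linarith
  · have : T * b ≤ s * b := mul_le_mul_of_nonpos_right h3 (not_le.mp hb).le
    linarith

variable {m n : ℕ} {c : Comb m n} {w : Fin n → ℝ} {T : ℝ} {Q V Q' V' : St n}

theorem len_s (h : c.Go w T Q V Q' V') {s : ℝ} (hs : s ∈ Icc (0 : ℝ) T) (e : Fin m) :
    2 * (w (c.lf e) + w (c.rt e)) < (Q + s • V').1 (c.rt e) - (Q + s • V').1 (c.lf e) := by
  have h0 := h.len e
  have h1 := h.len' e
  rw [h.lin.move] at h1
  simp only [Prod.fst_add, Prod.smul_fst, Pi.add_apply, Pi.smul_apply, smul_eq_mul] at h1 ⊢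
  have := aff (a := Q.1 (c.rt e) - Q.1 (c.lf e)) (b := V'.1 (c.rt e) - V'.1 (c.lf e))
    h.lin.pos hs h0 (by linarith)
  linarith

theorem lt_s (h : c.Go w T Q V Q' V') {s : ℝ} (hs : s ∈ Icc (0 : ℝ) T) (e : Fin m) :
    (Q + s • V').1 (c.lf e) < (Q + s • V').1 (c.rt e) := by
  have h0 := len_s h hs e
  have h1 := h.wpos (c.lf e)
  have h2 := h.wpos (c.rt e)
  linarith

theorem dl_s (hLNP : Stmt_LNP) (h : c.Go w T Q V Q' V') {s : ℝ} (hs : s ∈ Icc (0 : ℝ) T)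
    (i : Fin n) : c.dl (Q + s • V') i = c.dl Q' i +
      (s - T) * (c.dpe Q' V' (c.eb i) - c.dpe Q' V' (c.ea i)) := by
  obtain ⟨ha, -, -⟩ := hLNP c T Q Q' V' h.lin (c.ea i) s (lt_s h hs _)
  obtain ⟨hb, -, -⟩ := hLNP c T Q Q' V' h.lin (c.eb i) s (lt_s h hs _)
  unfold Comb.dl
  rw [ha, hb]
  ring

theorem tip_s (hLNP : Stmt_LNP) (h : c.Go w T Q V Q' V') {s : ℝ} (hs : s ∈ Icc (0 : ℝ) T)
    (i : Fin n) (hi : c.ty i ≠ .P) : c.dl (Q + s • V') i ≠ 0 := by
  have e := dl_s hLNP h hs i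
  have e0 := dl_s hLNP h (s := 0) ⟨le_refl _, h.lin.pos.le⟩ i
  rw [zero_smul, add_zero] at e0
  set d := c.dpe Q' V' (c.eb i) - c.dpe Q' V' (c.ea i) with hd
  have e1 : c.dl (Q + s • V') i = c.dl Q i + s * d := by rw [e, e0]; ring
  have e2 : c.dl Q' i = c.dl Q i + T * d := by rw [e0]; ring
  rw [e1]
  rcases h.tip i hi with ⟨h0, h1⟩ | ⟨h0, h1⟩
  · rw [e2] at h1
    exact (aff h.lin.pos hs h0 h1).ne'
  · rw [e2] at h1
    have := aff (a := -c.dl Q i) (b := -d) (k := 0) h.lin.pos hs (by linarith) (by linarith)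
    intro h2
    linarith

end GOC

open GOC in
theorem t_GOC (hLNP : Stmt_LNP) (hSEE : Stmt_SEE) (hSVV : Stmt_SVV) (hSVE : Stmt_SVE) :
    Stmt_GOC := by
  intro m n c w T Q V Q' V' h
  refine ⟨fun s hs => ⟨fun e => len_s h hs e, fun i hi => tip_s hLNP h hs i hi, ?_, ?_, ?_⟩,
    fun l hl => ⟨h.len, ?_, ?_, ?_, ?_⟩⟩
  · intro e e' he
    exact (hSEE c w T Q V Q' V' e e' h.wpos h.lin he (h.ee e e' he)).1 s hs
  · intro i j hij
    exact (hSVV c w T Q V Q' V' i j h.wpos h.valid h.lin hij (h.vv i j hij)).1 s hs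
  · intro i e ha hb
    exact (hSVE c w T Q V Q' V' i e h.wpos h.valid h.lin (h.ve i e ha hb)).1 s hs
  · intro i hi
    rcases h.tip i hi with ⟨h0, -⟩ | ⟨h0, -⟩
    · exact h0.ne'
    · exact h0.ne
  · intro e e' he
    exact (hSEE c w T Q V Q' V' e e' h.wpos h.lin he (h.ee e e' he)).2 l hl
  · intro i j hij
    exact (hSVV c w T Q V Q' V' i j h.wpos h.valid h.lin hij (h.vv i j hij)).2 l hl
  · intro i e ha hb
    exact (hSVE c w T Q V Q' V' i e h.wpos h.valid h.lin (h.ve i e ha hb)).2 l hl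

end LCA
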