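import Pool.Agent.LCA.Stmts4

/-!
# GOK: assembly of the checker of a motion
-/

namespace LCA

open Set Filter
open scoped ContDiff Topology

theorem t_GOK (hCBL : Stmt_CBL) (hSTF : Stmt_STF) (hSVL : Stmt_SVL) (hSAM : Stmt_SAM)
    (hGEE : Stmt_GEE) (hGVV : Stmt_GVV) (hGVE : Stmt_GVE) : Stmt_GOK := by
  intro m n T A B hA hB hgo
  obtain ⟨hbnd, -, -, -, -, -, -, -, -, hall2, hall2I, hprs2⟩ := hCBL
  have FA := hSTF m n A hA
  have FB := hSTF m n B hB
  have VA := hSVL m n A FA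
  have VB := hSVL m n B FB
  have hS := hSAM m n T A B FA FB VA VB hgo
  unfold goOK at hgo
  simp only [hbnd] at hgo
  obtain ⟨-, -, -, hEE, hVV, hVE⟩ := hgo
  rw [hprs2 ES ES es0 es0] at hEE
  rw [hprs2 VS VS vs0 vs0] at hVV
  rw [hall2 VS VS vs0 vs0] at hVE
  have ee : ∀ e e' : Fin (m + 1), e ≠ e' →
      (A.cb m n).LEE (A.W n) (A.Q n) (A.V n) (B.Q n) (B.V n) e e' := by
    intro e e' hne
    rcases lt_or_gt_of_ne hne with h | h
    · exact (hGEE m n A B VA VB hS.cb hS.w e e' (hEE e e' h (by rw [FA.lenE]; exact e'.2)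
        (by rw [FB.lenE]; exact e'.2))).1
    · exact (hGEE m n A B VA VB hS.cb hS.w e' e (hEE e' e h (by rw [FA.lenE]; exact e.2)
        (by rw [FB.lenE]; exact e.2))).2
  have vv : ∀ i j : Fin (n + 1), i ≠ j →
      (A.cb m n).LVV (A.W n) (A.Q n) (A.V n) (B.Q n) (B.V n) i j := by
    intro i j hne
    rcases lt_or_gt_of_ne hne with h | h
    · exact (hGVV m n A B VA VB hS.cb hS.w i j (hVV i j h (by rw [FA.lenV]; exact j.2)
        (by rw [FB.lenV]; exact j.2))).1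
    · exact (hGVV m n A B VA VB hS.cb hS.w j i (hVV j i h (by rw [FA.lenV]; exact i.2)
        (by rw [FB.lenV]; exact i.2))).2
  have ve : ∀ (i : Fin (n + 1)) (e : Fin (m + 1)), (A.cb m n).ea i ≠ e → (A.cb m n).eb i ≠ e →
      (A.cb m n).LVE (A.W n) (A.Q n) (A.V n) (B.Q n) (B.V n) i e := by
    intro i e h1 h2
    have h3 := hVE i (by rw [FA.lenV]; exact i.2) (by rw [FB.lenV]; exact i.2)
    rw [hall2I ES ES es0 es0] at h3
    exact hGVE m n A B VA VB hS.cb hS.w i e h1 h2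
      (h3 e (by rw [FA.lenE]; exact e.2) (by rw [FB.lenE]; exact e.2))
  have lenB : ∀ e, 2 * (A.W n ((A.cb m n).lf e) + A.W n ((A.cb m n).rt e)) <
      (B.Q n).1 ((A.cb m n).rt e) - (B.Q n).1 ((A.cb m n).lf e) := by
    intro e
    rw [hS.cb, hS.w]
    exact VB.len e
  refine ⟨⟨VA.valid, VA.wpos, ⟨hS.pos, hS.move, fun e => ?_, fun e => ?_, fun e => ?_, fun e => ?_⟩,
    VA.len, lenB, hS.tip, ee, vv, ve⟩, hS.cb, hS.w⟩
  · have h1 := VA.len e
    have h2 := VA.wpos ((A.cb m n).lf e)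
    have h3 := VA.wpos ((A.cb m n).rt e)
    linarith
  · have h1 := lenB e
    have h2 := VA.wpos ((A.cb m n).lf e)
    have h3 := VA.wpos ((A.cb m n).rt e)
    linarith
  · rw [hS.cb]; exact VB.fl e
  · rw [hS.cb]; exact VB.fr e

end LCA
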