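import Pool.Agent.LCA.Stmts4

/-!
# Part A, module GVE: a vertex and an edge
-/

namespace LCA

open Set Filter
open scoped ContDiff Topology

namespace GVE

lemma erV_eq (a : VS) (l : ℤ) : erV a l = a.w * (a.er + 1000 * l) := rfl

lemma dVE_eq (a : VS) (f : ES) (x p : ℤ) :
    dVE a f x p = (a.dF - p * a.dx) - (f.dp * x + f.da) := rfl

lemma iadd (a b : ℤ) : Int.add a b = a + b := rfl

lemma imul (a b : ℤ) : Int.mul a b = a * b := rfl

lemma isub (a b : ℤ) : Int.sub a b = a - b := rfl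

lemma ineg (a : ℤ) : Int.neg a = -a := rfl

end GVE

theorem t_GVE (hCBL : Stmt_CBL) : Stmt_GVE := by
  obtain ⟨hbnd, hbor, hilt, hieq, hmax, hmin, habs, -⟩ := hCBL
  intro m n A B hA hB hcb hW i e hea heb h
  have Ajl := hA.jl i
  have Ajr := hA.jr i
  have Ail := hA.il e
  have Air := hA.ir e
  have Ape := hA.pe e
  have Adpe := hA.dpe e
  have Adae := hA.dae e
  have Aplo := hA.plo i
  have Aphi := hA.phi i
  have Adl := hA.dl i
  have Aer := hA.er i
  have Bjl := hB.jl i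
  have Bjr := hB.jr i
  have Bil := hB.il e
  have Bir := hB.ir e
  have Bpe := hB.pe e
  have Bdpe := hB.dpe e
  have Bdae := hB.dae e
  have Bplo := hB.plo i
  have Bphi := hB.phi i
  have Bdl := hB.dl i
  have Ber := hB.er i
  have Bw : B.W n i = ((B.v i).w : ℝ) := rfl
  rw [← hW] at Bjl Bjr Bw
  rw [← hcb] at Bpe Bdpe Bdae Bplo Bphi Bdl Ber
  rw [← hcb, ← hW] at Bil Bir
  have Aw : A.W n i = ((A.v i).w : ℝ) := rfl
  have AQ : (A.Q n).1 i = ((A.v i).x : ℝ) := rfl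
  have AV1 : (A.V n).1 i = ((A.v i).dx : ℝ) := rfl
  have AV2 : (A.V n).2 i = ((A.v i).dF : ℝ) := rfl
  have BQ : (B.Q n).1 i = ((B.v i).x : ℝ) := rfl
  have BV1 : (B.V n).1 i = ((B.v i).dx : ℝ) := rfl
  have BV2 : (B.V n).2 i = ((B.v i).dF : ℝ) := rfl
  -- the bounds for the errors
  have EB : (A.cb m n).erS (A.W n) (A.Q n) (B.Q n) (B.V n) i +
      2 * A.W n i * |(A.cb m n).dpe (B.Q n) (B.V n) e| =
      ((erV (B.v i) (max ((A.v i).hi - (A.v i).lo) ((B.v i).hi - (B.v i).lo)) +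
        2 * (B.v i).w * |(B.e e).dp| : ℤ) : ℝ) := by
    unfold Comb.erS
    rw [Ber, Adl, Bdl, Bdpe, Bw, GVE.erV_eq]
    unfold CY
    push_cast
    ring
  have EA : (A.cb m n).err (A.W n) (A.Q n) (A.V n) i +
      2 * A.W n i * |(A.cb m n).dpe (A.Q n) (A.V n) e| =
      ((erV (A.v i) ((A.v i).hi - (A.v i).lo) + 2 * (A.v i).w * |(A.e e).dp| : ℤ) : ℝ) := by
    unfold Comb.err
    rw [Aer, Adl, Adpe, Aw, GVE.erV_eq]
    unfold CY
    push_cast
    ring
  -- the values of the difference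
  have D1 : ((B.V n).2 i - (A.cb m n).pe (A.Q n) e * (B.V n).1 i) -
      ((A.cb m n).dpe (B.Q n) (B.V n) e * (A.Q n).1 i + (A.cb m n).dae (B.Q n) (B.V n) e) =
      ((dVE (B.v i) (B.e e) (A.v i).x (A.e e).p : ℤ) : ℝ) := by
    rw [BV1, BV2, Ape, Bdpe, Bdae, AQ, GVE.dVE_eq]
    push_cast
    ring
  have D2 : ((B.V n).2 i - (A.cb m n).pe (B.Q n) e * (B.V n).1 i) -
      ((A.cb m n).dpe (B.Q n) (B.V n) e * (B.Q n).1 i + (A.cb m n).dae (B.Q n) (B.V n) e) =
      ((dVE (B.v i) (B.e e) (B.v i).x (B.e e).p : ℤ) : ℝ) := by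
    rw [BV1, BV2, Bpe, Bdpe, Bdae, BQ, GVE.dVE_eq]
    push_cast
    ring
  have D3 : (A.cb m n).Dve (A.Q n) (A.V n) i e =
      ((dVE (A.v i) (A.e e) (A.v i).x (A.e e).p : ℤ) : ℝ) := by
    unfold Comb.Dve
    rw [AV1, AV2, Ape, Adpe, Adae, AQ, GVE.dVE_eq]
    push_cast
    ring
  -- positional separation
  have PS : ((A.v i).jr < (A.e e).il ∨ (A.e e).ir < (A.v i).jl ∨ (A.e e).p < (A.v i).lo ∨
      (A.v i).hi < (A.e e).p) → (A.cb m n).Sve (A.W n) (A.Q n) i e := by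
    intro h1
    unfold Comb.Sve
    rw [Ajl, Ajr, Ail, Air, Ape, Aplo, Aphi]
    exact_mod_cast h1
  unfold chVE sgn3 posVE at h
  simp only [hbor, hbnd, hilt, hmax, habs, GVE.iadd, GVE.imul, GVE.isub, GVE.ineg] at h
  unfold Comb.LVE
  rcases h with h | h | h | h | h | h | h | h
  · left
    rw [Ajr, Ail, Bjr, Bil]
    exact_mod_cast h
  · right; left
    rw [Ajl, Air, Bjl, Bir]
    exact_mod_cast h
  · right; right; left
    rw [Ape, Aplo, Bpe, Bplo]
    exact_mod_cast h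
  · right; right; right; left
    rw [Ape, Aphi, Bpe, Bphi]
    exact_mod_cast h
  · exfalso
    apply hea
    apply Fin.ext
    rw [hA.eav i]
    exact Nat.eq_of_beq_eq_true h
  · exfalso
    apply heb
    apply Fin.ext
    rw [hA.ebv i]
    exact Nat.eq_of_beq_eq_true h
  · right; right; right; right
    obtain ⟨h1, h2, h3⟩ := h
    refine ⟨1, abs_one, ?_, ?_, ?_⟩
    · rw [EB, D1, one_mul]
      exact_mod_cast h1
    · rw [EB, D2, one_mul]
      exact_mod_cast h2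
    · rcases h3 with h3 | h3
      · exact Or.inl (PS h3)
      · right
        unfold Comb.Zve
        rw [EA, D3, one_mul]
        exact_mod_cast h3
  · right; right; right; right
    obtain ⟨h1, h2, h3⟩ := h
    refine ⟨-1, by rw [abs_neg, abs_one], ?_, ?_, ?_⟩
    · rw [EB, D1]
      have : ((dVE (B.v i) (B.e e) (A.v i).x (A.e e).p : ℤ) : ℝ) <
        ((-(erV (B.v i) (max ((A.v i).hi - (A.v i).lo) ((B.v i).hi - (B.v i).lo)) +
          2 * (B.v i).w * |(B.e e).dp|) : ℤ) : ℝ) := by exact_mod_cast h1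
      rw [Int.cast_neg] at this
      linarith
    · rw [EB, D2]
      have : ((dVE (B.v i) (B.e e) (B.v i).x (B.e e).p : ℤ) : ℝ) <
        ((-(erV (B.v i) (max ((A.v i).hi - (A.v i).lo) ((B.v i).hi - (B.v i).lo)) +
          2 * (B.v i).w * |(B.e e).dp|) : ℤ) : ℝ) := by exact_mod_cast h2
      rw [Int.cast_neg] at this
      linarith
    · rcases h3 with h3 | h3
      · exact Or.inl (PS h3)
      · right
        unfold Comb.Zve
        rw [EA, D3]
        have : ((dVE (A.v i) (A.e e) (A.v i).x (A.e e).p : ℤ) : ℝ) <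
          ((-(erV (A.v i) ((A.v i).hi - (A.v i).lo) + 2 * (A.v i).w * |(A.e e).dp|) : ℤ) : ℝ) := by
          exact_mod_cast h3
        rw [Int.cast_neg] at this
        linarith

end LCA
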