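import Pool.Agent.LCA.Stmts4

namespace LCA

open Set Filter
open scoped ContDiff Topology

namespace GVV

variable {m n : ℕ}

theorem svv_symm (c : Comb m n) (w : Fin n → ℝ) (Q : St n) (i j : Fin n)
    (h : c.Svv w Q i j) : c.Svv w Q j i := by
  unfold Comb.Svv at h ⊢
  rcases h with h | h | h | h
  · right; left; linarith
  · left; linarith
  · right; right; right; exact h
  · right; right; left; exact h

theorem dvv_symm (v : St n) (i j : Fin n) (p : ℝ) : Dvv v j i p = - Dvv v i j p := by
  unfold Dvv; ring

theorem zvv_symm (c : Comb m n) (w : Fin n → ℝ) (Q V : St n) (i j : Fin n) (σ : ℝ)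
    (h : c.Zvv w Q V i j σ) : c.Zvv w Q V j i (-σ) := by
  unfold Comb.Zvv at h ⊢
  rw [dvv_symm V i j, dvv_symm V i j, max_comm (c.plo Q j), min_comm (c.phi Q j)]
  obtain ⟨h1, h2⟩ := h
  constructor <;> linarith

theorem lvv_symm (c : Comb m n) (w : Fin n → ℝ) (Q V Q' V' : St n) (i j : Fin n)
    (h : c.LVV w Q V Q' V' i j) : c.LVV w Q V Q' V' j i := by
  unfold Comb.LVV at h ⊢
  rcases h with h | h | h | h | ⟨σ, hσ, h1, h2, h3⟩
  · right; left
    exact ⟨by linarith [h.1], by linarith [h.2]⟩
  · left
    exact ⟨by linarith [h.1], by linarith [h.2]⟩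
  · right; right; right; left; exact h
  · right; right; left; exact h
  · right; right; right; right
    refine ⟨-σ, by rw [abs_neg]; exact hσ, ?_, ?_, ?_⟩
    · rw [dvv_symm V' i j, max_comm (min (c.plo Q j) (c.plo Q' j))]; linarith
    · rw [dvv_symm V' i j, min_comm (max (c.phi Q j) (c.phi Q' j))]; linarith
    · rcases h3 with h3 | h3
      · left; exact svv_symm c w Q i j h3
      · right; exact zvv_symm c w Q V i j σ h3

end GVV

open GVV in
/-- GVV: two vertices. -/
theorem t_GVV (hCBL : Stmt_CBL) : Stmt_GVV := by
  intro m n A B hA hB hcb hW i j h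
  obtain ⟨hbnd, hbor, hilt, hieq, himax, himin, hiabs, -, -, -, -, -⟩ := hCBL
  have hadd : ∀ x y : ℤ, Int.add x y = x + y := fun _ _ => rfl
  have hsub : ∀ x y : ℤ, Int.sub x y = x - y := fun _ _ => rfl
  have hmul : ∀ x y : ℤ, Int.mul x y = x * y := fun _ _ => rfl
  have hneg : ∀ x : ℤ, Int.neg x = -x := fun _ => rfl
  simp only [chVV, posVV, sgn3, erV, dVV, hbnd, hbor, hilt, himax, himin, hadd, hsub, hmul,
    hneg] at h
  have key : (A.cb m n).LVV (A.W n) (A.Q n) (A.V n) (B.Q n) (B.V n) i j := by
    -- the values
    have wi : A.W n i = ((A.v i).w : ℝ) := rfl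
    have wj : A.W n j = ((A.v j).w : ℝ) := rfl
    have wi' : A.W n i = ((B.v i).w : ℝ) := by rw [hW]; rfl
    have wj' : A.W n j = ((B.v j).w : ℝ) := by rw [hW]; rfl
    have wwi' : B.W n i = ((B.v i).w : ℝ) := rfl
    have wwj' : B.W n j = ((B.v j).w : ℝ) := rfl
    have ejl := hA.jl
    have ejr := hA.jr
    have ejl' := hB.jl
    have ejr' := hB.jr
    have elo := hA.plo
    have ehi := hA.phi
    have edl := hA.dl
    have eer := hA.er
    have elo' := hB.plo
    have ehi' := hB.phi
    have edl' := hB.dl
    have eer' := hB.er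
    rw [← hcb] at elo' ehi' edl' eer'
    have d2 : ∀ k, (A.V n).2 k = ((A.v k).dF : ℝ) := fun _ => rfl
    have d1 : ∀ k, (A.V n).1 k = ((A.v k).dx : ℝ) := fun _ => rfl
    have d2' : ∀ k, (B.V n).2 k = ((B.v k).dF : ℝ) := fun _ => rfl
    have d1' : ∀ k, (B.V n).1 k = ((B.v k).dx : ℝ) := fun _ => rfl
    have eri : ∀ k, (A.cb m n).erS (A.W n) (A.Q n) (B.Q n) (B.V n) k =
        A.W n k * (((B.v k).er : ℝ) + 1000 * max ((A.v k).hi - (A.v k).lo : ℝ)
          ((B.v k).hi - (B.v k).lo : ℝ)) := by
      intro k
      unfold Comb.erS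
      rw [eer' k, edl k, edl' k]
      rfl
    have ezi : ∀ k, (A.cb m n).err (A.W n) (A.Q n) (A.V n) k =
        A.W n k * (((A.v k).er : ℝ) + 1000 * ((A.v k).hi - (A.v k).lo : ℝ)) := by
      intro k
      unfold Comb.err
      rw [eer k, edl k]
      rfl
    have hS : ((A.v i).jr < (A.v j).jl ∨ (A.v j).jr < (A.v i).jl ∨ (A.v i).hi < (A.v j).lo ∨
        (A.v j).hi < (A.v i).lo) → (A.cb m n).Svv (A.W n) (A.Q n) i j := by
      intro hs
      unfold Comb.Svv
      rcases hs with hs | hs | hs | hs
      · left
        have : ((A.v i).jr : ℝ) < ((A.v j).jl : ℝ) := by exact_mod_cast hs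
        rw [← ejr i, ← ejl j] at this
        linarith
      · right; left
        have : ((A.v j).jr : ℝ) < ((A.v i).jl : ℝ) := by exact_mod_cast hs
        rw [← ejr j, ← ejl i] at this
        linarith
      · right; right; left
        rw [ehi, elo]; exact_mod_cast hs
      · right; right; right
        rw [ehi, elo]; exact_mod_cast hs
    unfold Comb.LVV
    rcases h with h | h | h | h | h
    · left
      obtain ⟨h1, h2⟩ := h
      have h1' : ((A.v i).jr : ℝ) < ((A.v j).jl : ℝ) := by exact_mod_cast h1
      have h2' : ((B.v i).jr : ℝ) < ((B.v j).jl : ℝ) := by exact_mod_cast h2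
      rw [← ejr i, ← ejl j] at h1'
      rw [← ejr' i, ← ejl' j, wwi', wwj', ← wi', ← wj'] at h2'
      exact ⟨by linarith, by linarith⟩
    · right; left
      obtain ⟨h1, h2⟩ := h
      have h1' : ((A.v j).jr : ℝ) < ((A.v i).jl : ℝ) := by exact_mod_cast h1
      have h2' : ((B.v j).jr : ℝ) < ((B.v i).jl : ℝ) := by exact_mod_cast h2
      rw [← ejr j, ← ejl i] at h1'
      rw [← ejr' j, ← ejl' i, wwi', wwj', ← wi', ← wj'] at h2'
      exact ⟨by linarith, by linarith⟩
    · right; right; left
      rw [ehi, elo, ehi', elo']
      exact ⟨by exact_mod_cast h.1, by exact_mod_cast h.2⟩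
    · right; right; right; left
      rw [ehi, elo, ehi', elo']
      exact ⟨by exact_mod_cast h.1, by exact_mod_cast h.2⟩
    · right; right; right; right
      rcases h with ⟨h1, h2, h3⟩ | ⟨h1, h2, h3⟩
      · refine ⟨1, by norm_num, ?_, ?_, ?_⟩
        · rw [eri, eri, elo, elo', elo, elo', wi', wj']
          unfold Dvv
          rw [d2', d1', d2', d1']
          have h1' := (Int.cast_lt (R := ℝ)).mpr h1
          push_cast at h1'
          linarith
        · rw [eri, eri, ehi, ehi', ehi, ehi', wi', wj']
          unfold Dvv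
          rw [d2', d1', d2', d1']
          have h1' := (Int.cast_lt (R := ℝ)).mpr h2
          push_cast at h1'
          linarith
        · rcases h3 with h3 | h3
          · left; exact hS h3
          · right
            unfold Comb.Zvv
            obtain ⟨h3, h4⟩ := h3
            constructor
            · rw [ezi, ezi, elo, elo, wi, wj]
              unfold Dvv
              rw [d2, d1, d2, d1]
              have h1' := (Int.cast_lt (R := ℝ)).mpr h3
              push_cast at h1'
              linarith
            · rw [ezi, ezi, ehi, ehi, wi, wj]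
              unfold Dvv
              rw [d2, d1, d2, d1]
              have h1' := (Int.cast_lt (R := ℝ)).mpr h4
              push_cast at h1'
              linarith
      · refine ⟨-1, by norm_num, ?_, ?_, ?_⟩
        · rw [eri, eri, elo, elo', elo, elo', wi', wj']
          unfold Dvv
          rw [d2', d1', d2', d1']
          have h1' := (Int.cast_lt (R := ℝ)).mpr h1
          push_cast at h1'
          linarith
        · rw [eri, eri, ehi, ehi', ehi, ehi', wi', wj']
          unfold Dvv
          rw [d2', d1', d2', d1']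
          have h1' := (Int.cast_lt (R := ℝ)).mpr h2
          push_cast at h1'
          linarith
        · rcases h3 with h3 | h3
          · left; exact hS h3
          · right
            unfold Comb.Zvv
            obtain ⟨h3, h4⟩ := h3
            constructor
            · rw [ezi, ezi, elo, elo, wi, wj]
              unfold Dvv
              rw [d2, d1, d2, d1]
              have h1' := (Int.cast_lt (R := ℝ)).mpr h3
              push_cast at h1'
              linarith
            · rw [ezi, ezi, ehi, ehi, wi, wj]
              unfold Dvv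
              rw [d2, d1, d2, d1]
              have h1' := (Int.cast_lt (R := ℝ)).mpr h4
              push_cast at h1'
              linarith
  exact ⟨key, lvv_symm _ _ _ _ _ _ _ _ key⟩

end LCA
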