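import Pool.Agent.LCA.Stmts5

/-!
# INC: insertion of a trivial vertex, the checker
-/

namespace LCA

open Set Filter
open scoped ContDiff Topology

namespace INC

theorem val_ofNat (b a : ℕ) (h : a < b + 1) : ((Fin.ofNat (b + 1) a : Fin (b + 1)) : ℕ) = a := by
  rw [Fin.val_ofNat]
  exact Nat.mod_eq_of_lt h

end INC

open INC in
theorem t_INC (hCBL : Stmt_CBL) (hCB2 : Stmt_CB2) : Stmt_INC := by
  intro m n m' n' ιE κE ιV κV e₀ e j A B hA hB vA vB h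
  obtain ⟨hbnd, hbor, hilt, hieq, -, -, -, -, hallI, -, -, -⟩ := hCBL
  obtain ⟨hnlt, hnne, hnif, -, hemb⟩ := hCB2
  have hbeq : ∀ i k : ℕ, Nat.beq i k = true ↔ i = k := fun i k => by
    rw [Nat.beq_eq]
  unfold inOK at h
  simp only [hbnd] at h
  obtain ⟨h1, h2, h3, h4, h5, h6, h7, h8, h9, h10, h11, h12, h13, h14, h15⟩ := h
  rw [hnlt] at h1
  obtain ⟨he, injE, newE, covE, valE⟩ := hemb _ _ _ _ _ h2
  obtain ⟨hj, injV, newV, covV, valV⟩ := hemb _ _ _ _ _ h3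
  rw [hallI VS vs0] at h4
  rw [hallI ES es0] at h5
  rw [hbeq] at h6 h7 h8 h9 h10
  rw [hilt] at h11 h12
  rw [hieq] at h13 h14 h15
  rw [hA.lenV] at h4
  rw [hA.lenE] at h5
  set E0 : Fin (m + 1) := Fin.ofNat (m + 1) e₀ with hE0
  set J : Fin (n' + 1) := Fin.ofNat (n' + 1) j with hJ
  set EE : Fin (m' + 1) := Fin.ofNat (m' + 1) e with hEE
  have vE0 : (E0 : ℕ) = e₀ := val_ofNat m e₀ h1
  have vJ : (J : ℕ) = j := val_ofNat n' j hj
  have vEE : (EE : ℕ) = e := val_ofNat m' e he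
  -- the vertices
  have h4' : ∀ k : Fin (n + 1), (A.v k).ty = (B.v (lkp 0 ιV k)).ty ∧
      (A.v k).w = (B.v (lkp 0 ιV k)).w ∧ (A.v k).x = (B.v (lkp 0 ιV k)).x ∧
      (A.v k).F = (B.v (lkp 0 ιV k)).F ∧ (A.v k).dx = (B.v (lkp 0 ιV k)).dx ∧
      (A.v k).dF = (B.v (lkp 0 ιV k)).dF ∧
      (B.v (lkp 0 ιV k)).ea = (if ((k : ℕ) = (A.e e₀).rt ∧ (A.v k).ea = e₀) then e
        else lkp 0 ιE (A.v k).ea) ∧
      (B.v (lkp 0 ιV k)).eb = (if ((k : ℕ) = (A.e e₀).rt ∧ (A.v k).eb = e₀) then e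
        else lkp 0 ιE (A.v k).eb) := by
    intro k
    have h := h4 k k.2
    have h' : inV ιE e₀ e (A.e e₀).rt k (A.v k) (B.v (lkp 0 ιV k)) = true := h
    unfold inV at h'
    simp only [hbnd, hbeq, hieq, hnif] at h'
    exact h'
  have h5' : ∀ d : Fin (m + 1), (B.e (lkp 0 ιE d)).lf = lkp 0 ιV (A.e d).lf ∧
      (B.e (lkp 0 ιE d)).rt = (if (d : ℕ) = e₀ then j else lkp 0 ιV (A.e d).rt) := by
    intro d
    have h := h5 d d.2
    have h' : bnd (Nat.beq (B.e (lkp 0 ιE d)).lf (lkp 0 ιV (A.e d).lf))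
      (Nat.beq (B.e (lkp 0 ιE d)).rt (nif (Nat.beq d e₀) j (lkp 0 ιV (A.e d).rt))) = true := h
    simp only [hbnd, hbeq, hnif] at h'
    exact h'
  have hrt : ∀ k : Fin (n + 1), k = (A.cb m n).rt E0 ↔ (k : ℕ) = (A.e e₀).rt := by
    intro k
    rw [Fin.ext_iff, vA.rtv, vE0]
  have hea : ∀ k : Fin (n + 1), (A.cb m n).ea k = E0 ↔ (A.v k).ea = e₀ := by
    intro k
    rw [Fin.ext_iff, vA.eav, vE0]
  have heb : ∀ k : Fin (n + 1), (A.cb m n).eb k = E0 ↔ (A.v k).eb = e₀ := by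
    intro k
    rw [Fin.ext_iff, vA.ebv, vE0]
  have L1 : (A.Q n).1 ((A.cb m n).lf E0) + 2 * A.W n ((A.cb m n).lf E0) <
      (B.Q n').1 J - 2 * B.W n' J := by
    rw [vA.il, vB.jl, vE0, vJ]
    exact_mod_cast h11
  have L2 : (B.Q n').1 J + 2 * B.W n' J <
      (A.Q n).1 ((A.cb m n).rt E0) - 2 * A.W n ((A.cb m n).rt E0) := by
    rw [vA.ir, vB.jr, vE0, vJ]
    exact_mod_cast h12
  have qJ : (B.Q n').1 J = ((B.v j).x : ℝ) := by
    have : (B.Q n').1 J = ((B.v J).x : ℝ) := rfl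
    rw [this, vJ]
  have FJ : (B.Q n').2 J = ((B.v j).F : ℝ) := by
    have : (B.Q n').2 J = ((B.v J).F : ℝ) := rfl
    rw [this, vJ]
  have dxJ : (B.V n').1 J = ((B.v j).dx : ℝ) := by
    have : (B.V n').1 J = ((B.v J).dx : ℝ) := rfl
    rw [this, vJ]
  have dFJ : (B.V n').2 J = ((B.v j).dF : ℝ) := by
    have : (B.V n').2 J = ((B.v J).dF : ℝ) := rfl
    rw [this, vJ]
  refine ⟨⟨vA.valid, injE, injV, newE, newV, covE, covV, ?_, ?_, ?_, ?_, ?_, ?_, ?_, ?_, ?_, ?_,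
    ?_, ?_, ?_⟩, ⟨?_, ?_, ?_, ?_, ?_, ?_, ?_, L1.le, L2.le, ?_, ?_⟩, L1, L2, ?_⟩
  · -- ty
    intro k
    have h := (h4' k).1
    have h' : (B.cb m' n').ty (ixf n n' ιV k) = tyOf (B.v (ixf n n' ιV k)).ty := rfl
    rw [h', valV, ← h]
    rfl
  · -- tyj
    have h' : (B.cb m' n').ty J = tyOf (B.v J).ty := rfl
    rw [h', vJ, h6]
    rfl
  · -- eaj
    apply Fin.ext
    rw [vB.eav, valE, vJ, h7, vE0]
  · -- ebj
    apply Fin.ext
    rw [vB.ebv, vJ, h8, vEE]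
  · -- lf
    intro d
    apply Fin.ext
    rw [vB.lfv, valE, valV, vA.lfv]
    exact (h5' d).1
  · -- rt
    intro d hd
    apply Fin.ext
    rw [vB.rtv, valE, valV, vA.rtv, (h5' d).2, if_neg]
    intro h
    exact hd (Fin.ext (by rw [h, vE0]))
  · -- rt₀
    apply Fin.ext
    rw [vB.rtv, valE, (h5' E0).2, if_pos vE0, vJ]
  · -- lfe
    apply Fin.ext
    rw [vB.lfv, vEE, h9, vJ]
  · -- rte
    apply Fin.ext
    rw [vB.rtv, vEE, h10, valV, vA.rtv, vE0]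
  · -- ea
    intro k hk
    apply Fin.ext
    rw [hrt, hea] at hk
    rw [vB.eav, valV, (h4' k).2.2.2.2.2.2.1, if_neg hk, valE, vA.eav]
  · -- eb
    intro k hk
    apply Fin.ext
    rw [hrt, heb] at hk
    rw [vB.ebv, valV, (h4' k).2.2.2.2.2.2.2, if_neg hk, valE, vA.ebv]
  · -- ea₀
    intro hk
    apply Fin.ext
    have h1 := (hrt ((A.cb m n).rt E0)).1 rfl
    rw [vB.eav, valV, (h4' ((A.cb m n).rt E0)).2.2.2.2.2.2.1, if_pos ⟨h1, (hea _).1 hk⟩, vEE]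
  · -- eb₀
    intro hk
    apply Fin.ext
    have h1 := (hrt ((A.cb m n).rt E0)).1 rfl
    rw [vB.ebv, valV, (h4' ((A.cb m n).rt E0)).2.2.2.2.2.2.2, if_pos ⟨h1, (heb _).1 hk⟩, vEE]
  · -- len
    intro d
    have h1 := vA.len d
    have h2 := vA.wpos ((A.cb m n).lf d)
    have h3 := vA.wpos ((A.cb m n).rt d)
    linarith
  · -- hw
    intro k
    have h' : B.W n' (ixf n n' ιV k) = ((B.v (ixf n n' ιV k)).w : ℝ) := rfl
    rw [h', valV, ← (h4' k).2.1]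
    rfl
  · exact vB.wpos J
  · intro k
    have h' : (B.Q n').1 (ixf n n' ιV k) = ((B.v (ixf n n' ιV k)).x : ℝ) := rfl
    rw [h', valV, ← (h4' k).2.2.1]
    rfl
  · intro k
    have h' : (B.Q n').2 (ixf n n' ιV k) = ((B.v (ixf n n' ιV k)).F : ℝ) := rfl
    rw [h', valV, ← (h4' k).2.2.2.1]
    rfl
  · intro k
    have h' : (B.V n').1 (ixf n n' ιV k) = ((B.v (ixf n n' ιV k)).dx : ℝ) := rfl
    rw [h', valV, ← (h4' k).2.2.2.2.1]
    rfl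
  · intro k
    have h' : (B.V n').2 (ixf n n' ιV k) = ((B.v (ixf n n' ιV k)).dF : ℝ) := rfl
    rw [h', valV, ← (h4' k).2.2.2.2.2.1]
    rfl
  · -- Fj
    have h1 : (A.Q n).2 ((A.cb m n).lf E0) = ((A.v (A.e e₀).lf).F : ℝ) := by
      have h' : (A.Q n).2 ((A.cb m n).lf E0) = ((A.v ((A.cb m n).lf E0)).F : ℝ) := rfl
      rw [h', vA.lfv, vE0]
    have h2 : (A.cb m n).ae (A.Q n) E0 = (A.Q n).2 ((A.cb m n).lf E0) -
      (A.cb m n).pe (A.Q n) E0 * (A.Q n).1 ((A.cb m n).lf E0) := rfl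
    rw [h2, h1, vA.pe, vA.xl, vE0, qJ, FJ, h13]
    have h3 : ((Int.add (A.v (A.e e₀).lf).F
      (Int.mul (A.e e₀).p (Int.sub (B.v j).x (A.e e₀).xl)) : ℤ) : ℝ) =
        (A.v (A.e e₀).lf).F + (A.e e₀).p * ((B.v j).x - (A.e e₀).xl) := by
      have h4 : Int.add (A.v (A.e e₀).lf).F (Int.mul (A.e e₀).p (Int.sub (B.v j).x (A.e e₀).xl)) =
        (A.v (A.e e₀).lf).F + (A.e e₀).p * ((B.v j).x - (A.e e₀).xl) := rfl
      rw [h4]
      push_cast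
      ring
    rw [h3]
    ring
  · -- vj
    rw [vA.pe, vA.dpe, vA.dae, vE0, qJ, dxJ, dFJ, h14]
    have h4 : Int.add (Int.add (Int.mul (A.e e₀).dp (B.v j).x) (A.e e₀).da)
        (Int.mul (A.e e₀).p (B.v j).dx) =
      (A.e e₀).dp * (B.v j).x + (A.e e₀).da + (A.e e₀).p * (B.v j).dx := rfl
    rw [h4]
    push_cast
    ring
  · rw [vA.dpe, vE0, dxJ]
    have h4 : (A.e e₀).dp * (B.v j).dx = 0 := h15
    exact_mod_cast h4

end LCA
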