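import Pool.Agent.LCA.Stmts5

/-!
# Part A, INR: insertion of a trivial vertex, real numbers
-/

namespace LCA

open Set Filter
open scoped ContDiff Topology

variable {m n m' n' : ℕ}

namespace INR

theorem alg {x y vx vy f g vf vg s : ℝ}
    (h' : 0 < y - x) (hs : 0 < (y + s * vy) - (x + s * vx))
    {p d : ℝ} (hp : p = (g - f) / (y - x))
    (hd : d = (vg - vf - p * (vy - vx)) / (y - x))
    (h1 : d * vx = 0) (h2 : d * vy = 0) :
    ((g + s * vg) - (f + s * vf)) / ((y + s * vy) - (x + s * vx)) = p + s * d ∧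
    (vg - vf - (p + s * d) * (vy - vx)) / ((y + s * vy) - (x + s * vx)) = d ∧
    vf - d * (x + s * vx) - (p + s * d) * vx = vf - d * x - p * vx ∧
    (f + s * vf) - (p + s * d) * (x + s * vx) = (f - p * x) + s * (vf - d * x - p * vx) := by
  have hp' : p * (y - x) = g - f := by
    rw [hp, div_mul_cancel₀ _ h'.ne']
  have hd' : d * (y - x) = vg - vf - p * (vy - vx) := by
    rw [hd, div_mul_cancel₀ _ h'.ne']
  refine ⟨?_, ?_, ?_, ?_⟩
  · rw [div_eq_iff hs.ne']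
    linear_combination (-1 : ℝ) * hp' - s * hd' - s ^ 2 * h2 + s ^ 2 * h1
  · rw [div_eq_iff hs.ne']
    linear_combination (-1 : ℝ) * hd' - 2 * s * h2 + 2 * s * h1
  · linear_combination (-2 : ℝ) * s * h1
  · linear_combination (- s ^ 2) * h1

/-- The slopes at the time `s`. -/
theorem slopes (c : Comb m n) (q v : St n) (e : Fin m) (s : ℝ)
    (h0 : q.1 (c.lf e) < q.1 (c.rt e))
    (h1 : c.dpe q v e * v.1 (c.lf e) = 0) (h2 : c.dpe q v e * v.1 (c.rt e) = 0)
    (hs : (q + s • v).1 (c.lf e) < (q + s • v).1 (c.rt e)) :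
    c.pe (q + s • v) e = c.pe q e + s * c.dpe q v e ∧
    c.dpe (q + s • v) v e = c.dpe q v e ∧ c.dae (q + s • v) v e = c.dae q v e ∧
    c.ae (q + s • v) e = c.ae q e + s * c.dae q v e := by
  have key := alg (x := q.1 (c.lf e)) (y := q.1 (c.rt e)) (vx := v.1 (c.lf e))
    (vy := v.1 (c.rt e)) (f := q.2 (c.lf e)) (g := q.2 (c.rt e)) (vf := v.2 (c.lf e))
    (vg := v.2 (c.rt e)) (s := s) (sub_pos.mpr h0) (sub_pos.mpr hs)
    (p := c.pe q e) (d := c.dpe q v e) rfl rfl h1 h2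
  have k1 : c.pe (q + s • v) e = c.pe q e + s * c.dpe q v e := key.1
  have k2 : c.dpe (q + s • v) v e = c.dpe q v e := by
    have : c.dpe (q + s • v) v e = (v.2 (c.rt e) - v.2 (c.lf e) -
      c.pe (q + s • v) e * (v.1 (c.rt e) - v.1 (c.lf e))) /
      ((q + s • v).1 (c.rt e) - (q + s • v).1 (c.lf e)) := rfl
    rw [this, k1]
    exact key.2.1
  refine ⟨k1, k2, ?_, ?_⟩
  · have : c.dae (q + s • v) v e = v.2 (c.lf e) - c.dpe (q + s • v) v e *
      (q + s • v).1 (c.lf e) - c.pe (q + s • v) e * v.1 (c.lf e) := rfl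
    rw [this, k2, k1]
    exact key.2.2.1
  · have : c.ae (q + s • v) e = (q + s • v).2 (c.lf e) - c.pe (q + s • v) e *
      (q + s • v).1 (c.lf e) := rfl
    rw [this, k1]
    exact key.2.2.2

/-- Strict inequalities between the positions hold near the time `t`. -/
theorem near_lt (a b a' b' t : ℝ) (h : a < b) :
    ∀ᶠ s in 𝓝 t, a + (s - t) * a' < b + (s - t) * b' := by
  have hc : Continuous fun s : ℝ => a + (s - t) * a' := by fun_prop
  have hc' : Continuous fun s : ℝ => b + (s - t) * b' := by fun_prop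
  refine hc.continuousAt.eventually_lt hc'.continuousAt ?_
  simpa using h

theorem insSt_at {c : Comb m n} {c' : Comb m' n'} {ιV : Fin n → Fin n'} {e₀ : Fin m} {j : Fin n'}
    {w : Fin n → ℝ} {w' : Fin n' → ℝ} {q v : St n} {q' v' : St n'}
    (hI : InsSt c c' ιV e₀ j w w' q v q' v') (h1 : c.dpe q v e₀ * v.1 (c.lf e₀) = 0)
    (h2 : c.dpe q v e₀ * v.1 (c.rt e₀) = 0) (h3 : c.dpe q v e₀ * v'.1 j = 0) (u : ℝ)
    (hl : ∀ d, (q + u • v).1 (c.lf d) < (q + u • v).1 (c.rt d))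
    (hL : (q + u • v).1 (c.lf e₀) + 2 * w (c.lf e₀) ≤ (q' + u • v').1 j - 2 * w' j)
    (hR : (q' + u • v').1 j + 2 * w' j ≤ (q + u • v).1 (c.rt e₀) - 2 * w (c.rt e₀)) :
    InsSt c c' ιV e₀ j w w' (q + u • v) v (q' + u • v') v' := by
  obtain ⟨k1, k2, k3, k4⟩ := slopes c q v e₀ u (hI.len e₀) h1 h2 (hl e₀)
  refine ⟨hl, hI.hw, hI.wj, ?_, ?_, hI.vx, hI.vF, hL, hR, ?_, ?_⟩
  · intro k
    change q'.1 (ιV k) + u * v'.1 (ιV k) = q.1 k + u * v.1 k
    rw [hI.qx, hI.vx]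
  · intro k
    change q'.2 (ιV k) + u * v'.2 (ιV k) = q.2 k + u * v.2 k
    rw [hI.qF, hI.vF]
  · rw [k1, k4]
    change q'.2 j + u * v'.2 j = (c.pe q e₀ + u * c.dpe q v e₀) * (q'.1 j + u * v'.1 j) +
      (c.ae q e₀ + u * c.dae q v e₀)
    linear_combination hI.Fj + u * hI.vj - u ^ 2 * h3
  · rw [k1, k2, k3]
    change v'.2 j = c.dpe q v e₀ * (q'.1 j + u * v'.1 j) + c.dae q v e₀ +
      (c.pe q e₀ + u * c.dpe q v e₀) * v'.1 j
    linear_combination hI.vj - 2 * u * h3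

end INR

open INR in
theorem t_INR (hLNP : Stmt_LNP) (hINS : Stmt_INS) (hEQA : Stmt_EQA) : Stmt_INR := by
  intro m n m' n' K sh c c' ιE ιV e₀ e j w w' q v q' v' t hC hw hI hL hR h1 h2 h3
  clear hLNP
  have e1 : ∀ᶠ s in 𝓝 t, ∀ d, q.1 (c.lf d) + (s - t) * v.1 (c.lf d) <
      q.1 (c.rt d) + (s - t) * v.1 (c.rt d) := by
    rw [eventually_all]
    intro d
    exact near_lt _ _ _ _ _ (hI.len d)
  have e2 := near_lt _ _ (v.1 (c.lf e₀)) (v'.1 j) t hL
  have e3 := near_lt _ _ (v'.1 j) (v.1 (c.rt e₀)) t hR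
  obtain ⟨η, hη, hball⟩ := Metric.eventually_nhds_iff_ball.1 (e1.and (e2.and e3))
  have key : ∀ s ∈ Ioo (t - η) (t + η), c.slice w (c.sp sh) 0 (lin q v t s) v =
      c'.slice w' (c'.sp sh) 0 (lin q' v' t s) v' := by
    intro s hs
    have hsb : s ∈ Metric.ball t η := by
      rw [Real.ball_eq_Ioo]
      exact hs
    obtain ⟨f1, f2, f3⟩ := hball s hsb
    refine (hINS sh c c' ιE ιV e₀ e j w w' (q + (s - t) • v) v (q' + (s - t) • v') v' hC hw
      (insSt_at hI h1 h2 h3 (s - t) f1 ?_ ?_)).2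
    · change q.1 (c.lf e₀) + (s - t) * v.1 (c.lf e₀) + 2 * w (c.lf e₀) ≤
        q'.1 j + (s - t) * v'.1 j - 2 * w' j
      linarith
    · change q'.1 j + (s - t) * v'.1 j + 2 * w' j ≤
        q.1 (c.rt e₀) + (s - t) * v.1 (c.rt e₀) - 2 * w (c.rt e₀)
      linarith
  constructor
  · intro h
    exact hEQA K sh c w q v c' w' q' v' t η hη key h
  · intro h
    exact hEQA K sh c' w' q' v' c w q v t η hη (fun s hs => (key s hs).symm) h

end LCA
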