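import Pool.Agent.LCA.Stmts3

/-!
# Part A: insertion of a trivial vertex
-/

namespace LCA

open Set Filter
open scoped ContDiff Topology

namespace INS

variable {m n m' n' : ℕ}

/-- (I1) at the right end. -/
lemma rt_pos (c : Comb m n) (q : St n) (e : Fin m) (h : q.1 (c.lf e) < q.1 (c.rt e)) :
    q.2 (c.rt e) = c.pe q e * q.1 (c.rt e) + c.ae q e := by
  have h' : q.1 (c.rt e) - q.1 (c.lf e) ≠ 0 := by linarith [sub_pos.2 h]
  have h1 : c.pe q e * (q.1 (c.rt e) - q.1 (c.lf e)) = q.2 (c.rt e) - q.2 (c.lf e) := by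
    unfold Comb.pe
    rw [div_mul_cancel₀ _ h']
  unfold Comb.ae
  linarith

/-- (I2) at the right end. -/
lemma rt_vel (c : Comb m n) (q v : St n) (e : Fin m) (h : q.1 (c.lf e) < q.1 (c.rt e)) :
    v.2 (c.rt e) = c.dpe q v e * q.1 (c.rt e) + c.pe q e * v.1 (c.rt e) + c.dae q v e := by
  have h' : q.1 (c.rt e) - q.1 (c.lf e) ≠ 0 := by linarith [sub_pos.2 h]
  have h1 : c.dpe q v e * (q.1 (c.rt e) - q.1 (c.lf e)) =
      v.2 (c.rt e) - v.2 (c.lf e) - c.pe q e * (v.1 (c.rt e) - v.1 (c.lf e)) := by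
    unfold Comb.dpe
    rw [div_mul_cancel₀ _ h']
  unfold Comb.dae
  linarith

/-- An edge whose two ends are on a line is this line. -/
lemma pe_of (c : Comb m n) (q : St n) (e : Fin m) (p a : ℝ) (h : q.1 (c.lf e) < q.1 (c.rt e))
    (hl : q.2 (c.lf e) = p * q.1 (c.lf e) + a) (hr : q.2 (c.rt e) = p * q.1 (c.rt e) + a) :
    c.pe q e = p ∧ c.ae q e = a := by
  have h' : q.1 (c.rt e) - q.1 (c.lf e) ≠ 0 := by linarith [sub_pos.2 h]
  have h1 : c.pe q e = p := by
    unfold Comb.pe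
    rw [div_eq_iff h', hl, hr]
    ring
  refine ⟨h1, ?_⟩
  unfold Comb.ae
  rw [h1, hl]
  ring

/-- The same for the velocities. -/
lemma dpe_of (c : Comb m n) (q v : St n) (e : Fin m) (p d b : ℝ)
    (h : q.1 (c.lf e) < q.1 (c.rt e)) (hp : c.pe q e = p)
    (hl : v.2 (c.lf e) = d * q.1 (c.lf e) + p * v.1 (c.lf e) + b)
    (hr : v.2 (c.rt e) = d * q.1 (c.rt e) + p * v.1 (c.rt e) + b) :
    c.dpe q v e = d ∧ c.dae q v e = b := by
  have h' : q.1 (c.rt e) - q.1 (c.lf e) ≠ 0 := by linarith [sub_pos.2 h]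
  have h1 : c.dpe q v e = d := by
    unfold Comb.dpe
    rw [div_eq_iff h', hp, hl, hr]
    ring
  refine ⟨h1, ?_⟩
  unfold Comb.dae
  rw [h1, hp, hl]
  ring

/-- The data of an edge. -/
def Same (c : Comb m n) (c' : Comb m' n') (q v : St n) (q' v' : St n') (d : Fin m)
    (d' : Fin m') : Prop :=
  c'.pe q' d' = c.pe q d ∧ c'.ae q' d' = c.ae q d ∧ c'.dpe q' v' d' = c.dpe q v d ∧
    c'.dae q' v' d' = c.dae q v d

lemma Same.ept {c : Comb m n} {c' : Comb m' n'} {q v : St n} {q' v' : St n'} {d : Fin m}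
    {d' : Fin m'} (h : Same c c' q v q' v' d d') (x : ℝ) :
    c'.ept q' v' d' x = c.ept q v d x := by
  obtain ⟨h1, h2, h3, h4⟩ := h
  unfold Comb.ept
  rw [h1, h2, h3, h4]

/-- The right end of an edge is not a left tip. -/
lemma ty_rt {c : Comb m n} (hc : c.Valid) (e : Fin m) : c.ty (c.rt e) ≠ .L := by
  rcases hc.rt e with h | h
  · exact h.1
  · rw [h.1]; decide

/-- The new combinatorics is valid. -/
lemma valid {c : Comb m n} {c' : Comb m' n'} {ιE : Fin m → Fin m'} {ιV : Fin n → Fin n'}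
    {e₀ : Fin m} {e : Fin m'} {j : Fin n'} (hI : InsComb c c' ιE ιV e₀ e j) : c'.Valid := by
  have hc := hI.valid
  refine ⟨fun i => ?_, fun i => ?_, fun i => ?_, fun d' => ?_, fun d' => ?_⟩
  · -- oka
    rcases hI.covV i with rfl | ⟨k, rfl⟩
    · unfold Comb.OKa
      rw [hI.tyj]
      show c'.rt (c'.ea i) = i
      rw [hI.eaj, hI.rt₀]
    · have hk := hc.oka k
      unfold Comb.OKa at hk ⊢
      rw [hI.ty k]
      have key : c.rt (c.ea k) = k → c'.rt (c'.ea (ιV k)) = ιV k := by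
        intro h
        by_cases he : c.ea k = e₀
        · have hke : c.rt e₀ = k := by rw [← he, h]
          have h1 : c'.ea (ιV (c.rt e₀)) = e := hI.ea₀ (by rw [hke, he])
          rw [hke] at h1
          rw [h1, hI.rte, hke]
        · rw [hI.ea k (fun h' => he h'.2), hI.rt _ he, h]
      cases hty : c.ty k with
      | P => rw [hty] at hk; exact key hk
      | R => rw [hty] at hk; exact key hk
      | L =>
        rw [hty] at hk
        have hne : ¬ (k = c.rt e₀ ∧ c.ea k = e₀) := by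
          rintro ⟨h1, -⟩
          exact ty_rt hc e₀ (by rw [← h1, hty])
        show c'.lf (c'.ea (ιV k)) = ιV k
        rw [hI.ea k hne, hI.lf, hk]
  · -- okb
    rcases hI.covV i with rfl | ⟨k, rfl⟩
    · unfold Comb.OKb
      rw [hI.tyj]
      show c'.lf (c'.eb i) = i
      rw [hI.ebj, hI.lfe]
    · have hk := hc.okb k
      unfold Comb.OKb at hk ⊢
      rw [hI.ty k]
      cases hty : c.ty k with
      | P =>
        rw [hty] at hk
        have hne : ¬ (k = c.rt e₀ ∧ c.eb k = e₀) := by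
          rintro ⟨h1, h2⟩
          rcases hc.rt e₀ with h | h
          · exact hc.ne k (by rw [h2, h1]; exact h.2)
          · have := h.1
            rw [← h1, hty] at this
            exact absurd this (by decide)
        show c'.lf (c'.eb (ιV k)) = ιV k
        rw [hI.eb k hne, hI.lf, hk]
      | R =>
        rw [hty] at hk
        have hk' : c.rt (c.eb k) = k := hk
        show c'.rt (c'.eb (ιV k)) = ιV k
        by_cases he : c.eb k = e₀
        · have hke : c.rt e₀ = k := by rw [← he, hk']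
          have h1 : c'.eb (ιV (c.rt e₀)) = e := hI.eb₀ (by rw [hke, he])
          rw [hke] at h1
          rw [h1, hI.rte, hke]
        · rw [hI.eb k (fun h' => he h'.2), hI.rt _ he, hk']
      | L =>
        rw [hty] at hk
        have hne : ¬ (k = c.rt e₀ ∧ c.eb k = e₀) := by
          rintro ⟨h1, -⟩
          exact ty_rt hc e₀ (by rw [← h1, hty])
        show c'.lf (c'.eb (ιV k)) = ιV k
        rw [hI.eb k hne, hI.lf, hk]
  · -- ne
    rcases hI.covV i with rfl | ⟨k, rfl⟩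
    · rw [hI.eaj, hI.ebj]
      exact hI.newE _
    · by_cases ha : k = c.rt e₀ ∧ c.ea k = e₀
      · have hb : ¬ (k = c.rt e₀ ∧ c.eb k = e₀) := fun h => hc.ne k (by rw [ha.2, h.2])
        have h1 : c'.ea (ιV (c.rt e₀)) = e := hI.ea₀ (by rw [← ha.1, ha.2])
        rw [← ha.1] at h1
        rw [h1, hI.eb k hb]
        exact fun h => hI.newE _ h.symm
      · rw [hI.ea k ha]
        by_cases hb : k = c.rt e₀ ∧ c.eb k = e₀
        · have h1 : c'.eb (ιV (c.rt e₀)) = e := hI.eb₀ (by rw [← hb.1, hb.2])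
          rw [← hb.1] at h1
          rw [h1]
          exact hI.newE _
        · rw [hI.eb k hb]
          exact fun h => hc.ne k (hI.injE h)
  · -- rt
    rcases hI.covE d' with rfl | ⟨d, rfl⟩
    · rw [hI.rte, hI.ty]
      rcases hc.rt e₀ with h | h
      · exact Or.inl ⟨h.1, hI.ea₀ h.2⟩
      · exact Or.inr ⟨h.1, hI.eb₀ h.2⟩
    · by_cases hd : d = e₀
      · subst hd
        rw [hI.rt₀, hI.tyj, hI.eaj]
        exact Or.inl ⟨by decide, rfl⟩
      · rw [hI.rt d hd, hI.ty]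
        rcases hc.rt d with h | h
        · refine Or.inl ⟨h.1, ?_⟩
          rw [hI.ea _ (fun h' => hd (by rw [← h.2, h'.2])), h.2]
        · refine Or.inr ⟨h.1, ?_⟩
          rw [hI.eb _ (fun h' => hd (by rw [← h.2, h'.2])), h.2]
  · -- lf
    rcases hI.covE d' with rfl | ⟨d, rfl⟩
    · rw [hI.lfe, hI.tyj, hI.ebj]
      exact Or.inr ⟨by decide, rfl⟩
    · rw [hI.lf d, hI.ty]
      rcases hc.lf d with h | h
      · refine Or.inl ⟨h.1, ?_⟩
        rw [hI.ea _ (fun h' => ty_rt hc e₀ (by rw [← h'.1, h.1])), h.2]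
      · refine Or.inr ⟨h.1, ?_⟩
        have hne : ¬ (c.lf d = c.rt e₀ ∧ c.eb (c.lf d) = e₀) := by
          rintro ⟨h1, h2⟩
          rcases hc.rt e₀ with h' | h'
          · exact hc.ne (c.lf d) (by rw [h2, h1]; exact h'.2)
          · exact h.1 (by rw [h1]; exact h'.1)
        rw [hI.eb _ hne, h.2]

end INS

theorem t_INS : Stmt_INS := by
  intro m n m' n' sh c c' ιE ιV e₀ e j w w' q v q' v' hI hw hS
  refine ⟨INS.valid hI, ?_⟩
  have hc := hI.valid
  have hwl := hw (c.lf e₀)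
  have hwr := hw (c.rt e₀)
  have hwj := hS.wj
  have hxl : q.1 (c.lf e₀) < q'.1 j := by linarith [hS.left]
  have hxr : q'.1 j < q.1 (c.rt e₀) := by linarith [hS.right]
  -- the data of the edges
  have hE : ∀ d, INS.Same c c' q v q' v' d (ιE d) := by
    intro d
    by_cases hd : d = e₀
    · subst hd
      have h1 : q'.1 (c'.lf (ιE d)) = q.1 (c.lf d) := by rw [hI.lf, hS.qx]
      have h2 : q'.2 (c'.lf (ιE d)) = q.2 (c.lf d) := by rw [hI.lf, hS.qF]
      have h3 : v'.1 (c'.lf (ιE d)) = v.1 (c.lf d) := by rw [hI.lf, hS.vx]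
      have h4 : v'.2 (c'.lf (ιE d)) = v.2 (c.lf d) := by rw [hI.lf, hS.vF]
      have hlt : q'.1 (c'.lf (ιE d)) < q'.1 (c'.rt (ιE d)) := by rw [h1, hI.rt₀]; exact hxl
      have hp := INS.pe_of c' q' (ιE d) (c.pe q d) (c.ae q d) hlt
        (by rw [h1, h2]; unfold Comb.ae; ring) (by rw [hI.rt₀]; exact hS.Fj)
      have hdp := INS.dpe_of c' q' v' (ιE d) (c.pe q d) (c.dpe q v d) (c.dae q v d) hlt hp.1
        (by rw [h1, h3, h4]; unfold Comb.dae; ring)
        (by rw [hI.rt₀]; linarith [hS.vj])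
      exact ⟨hp.1, hp.2, hdp.1, hdp.2⟩
    · have h1 : q'.1 (c'.lf (ιE d)) = q.1 (c.lf d) := by rw [hI.lf, hS.qx]
      have h2 : q'.2 (c'.lf (ιE d)) = q.2 (c.lf d) := by rw [hI.lf, hS.qF]
      have h3 : v'.1 (c'.lf (ιE d)) = v.1 (c.lf d) := by rw [hI.lf, hS.vx]
      have h4 : v'.2 (c'.lf (ιE d)) = v.2 (c.lf d) := by rw [hI.lf, hS.vF]
      have h1' : q'.1 (c'.rt (ιE d)) = q.1 (c.rt d) := by rw [hI.rt d hd, hS.qx]
      have h2' : q'.2 (c'.rt (ιE d)) = q.2 (c.rt d) := by rw [hI.rt d hd, hS.qF]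
      have h3' : v'.1 (c'.rt (ιE d)) = v.1 (c.rt d) := by rw [hI.rt d hd, hS.vx]
      have h4' : v'.2 (c'.rt (ιE d)) = v.2 (c.rt d) := by rw [hI.rt d hd, hS.vF]
      refine ⟨?_, ?_, ?_, ?_⟩ <;>
        simp only [Comb.pe, Comb.ae, Comb.dpe, Comb.dae, h1, h2, h3, h4, h1', h2', h3', h4']
  have he : INS.Same c c' q v q' v' e₀ e := by
    have h1 : q'.1 (c'.rt e) = q.1 (c.rt e₀) := by rw [hI.rte, hS.qx]
    have h2 : q'.2 (c'.rt e) = q.2 (c.rt e₀) := by rw [hI.rte, hS.qF]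
    have h3 : v'.1 (c'.rt e) = v.1 (c.rt e₀) := by rw [hI.rte, hS.vx]
    have h4 : v'.2 (c'.rt e) = v.2 (c.rt e₀) := by rw [hI.rte, hS.vF]
    have hlt : q'.1 (c'.lf e) < q'.1 (c'.rt e) := by rw [h1, hI.lfe]; exact hxr
    have hp := INS.pe_of c' q' e (c.pe q e₀) (c.ae q e₀) hlt (by rw [hI.lfe]; exact hS.Fj)
      (by rw [h1, h2]; exact INS.rt_pos c q e₀ (hS.len e₀))
    have hdp := INS.dpe_of c' q' v' e (c.pe q e₀) (c.dpe q v e₀) (c.dae q v e₀) hlt hp.1
      (by rw [hI.lfe]; linarith [hS.vj])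
      (by rw [h1, h3, h4]; exact INS.rt_vel c q v e₀ (hS.len e₀))
    exact ⟨hp.1, hp.2, hdp.1, hdp.2⟩
  -- the edges at the old vertices
  have hA : ∀ k, INS.Same c c' q v q' v' (c.ea k) (c'.ea (ιV k)) := by
    intro k
    by_cases ha : k = c.rt e₀ ∧ c.ea k = e₀
    · have h1 : c'.ea (ιV (c.rt e₀)) = e := hI.ea₀ (by rw [← ha.1, ha.2])
      rw [← ha.1] at h1
      rw [h1, ha.2]
      exact he
    · rw [hI.ea k ha]
      exact hE _
  have hB : ∀ k, INS.Same c c' q v q' v' (c.eb k) (c'.eb (ιV k)) := by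
    intro k
    by_cases ha : k = c.rt e₀ ∧ c.eb k = e₀
    · have h1 : c'.eb (ιV (c.rt e₀)) = e := hI.eb₀ (by rw [← ha.1, ha.2])
      rw [← ha.1] at h1
      rw [h1, ha.2]
      exact he
    · rw [hI.eb k ha]
      exact hE _
  have hV : ∀ k u, c'.vp w' (c'.sp sh) 0 q' v' (ιV k) u = c.vp w (c.sp sh) 0 q v k u := by
    intro k u
    obtain ⟨a1, a2, a3, a4⟩ := hA k
    obtain ⟨b1, b2, b3, b4⟩ := hB k
    unfold Comb.vp Comb.vpt Comb.dl Comb.sp
    rw [a1, a2, a3, a4, b1, b3, hI.ty k, hS.hw k, hS.qx k, hS.vx k]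
  have hJ : ∀ u, c'.vp w' (c'.sp sh) 0 q' v' j u = c.ept q v e₀ (q'.1 j + w' j * u) := by
    intro u
    obtain ⟨a1, a2, a3, a4⟩ := hE e₀
    obtain ⟨b1, b2, b3, b4⟩ := he
    have hX : (c'.sp sh j).X 0 u = u := by
      unfold Comb.sp
      rw [hI.tyj]
      rfl
    unfold Comb.vp Comb.vpt Comb.dl Comb.ept
    rw [hI.eaj, hI.ebj, a1, a2, a3, a4, b1, b3, hX]
    refine Prod.ext rfl (Prod.ext ?_ (Prod.ext ?_ ?_)) <;> simp
  -- the ranges
  have hR : ∀ d, d ≠ e₀ → c'.rg w' q' (ιE d) = c.rg w q d := by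
    intro d hd
    unfold Comb.rg
    rw [hI.lf, hI.rt d hd, hS.qx, hS.qx, hS.hw, hS.hw]
  have hR₀ : c'.rg w' q' (ιE e₀) = Icc (q.1 (c.lf e₀) + 2 * w (c.lf e₀)) (q'.1 j - 2 * w' j) := by
    unfold Comb.rg
    rw [hI.lf, hI.rt₀, hS.qx, hS.hw]
  have hRe : c'.rg w' q' e = Icc (q'.1 j + 2 * w' j) (q.1 (c.rt e₀) - 2 * w (c.rt e₀)) := by
    unfold Comb.rg
    rw [hI.lfe, hI.rte, hS.qx, hS.hw]
  ext r
  constructor
  · rintro (⟨d, x, hx, rfl⟩ | ⟨k, u, hu, rfl⟩)
    · by_cases hd : d = e₀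
      · subst hd
        have hx1 : q.1 (c.lf d) + 2 * w (c.lf d) ≤ x := hx.1
        have hx2 : x ≤ q.1 (c.rt d) - 2 * w (c.rt d) := hx.2
        rcases le_total x (q'.1 j - 2 * w' j) with h1 | h1
        · exact Or.inl ⟨ιE d, x, by rw [hR₀]; exact ⟨hx1, h1⟩, ((hE d).ept x).symm⟩
        · rcases le_total (q'.1 j + 2 * w' j) x with h2 | h2
          · exact Or.inl ⟨e, x, by rw [hRe]; exact ⟨h2, hx2⟩, (he.ept x).symm⟩
          · refine Or.inr ⟨j, (x - q'.1 j) / w' j, ?_, ?_⟩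
            · rw [abs_div, abs_of_pos hwj, div_le_iff₀ hwj, abs_le]
              constructor <;> linarith
            · rw [hJ, mul_div_cancel₀ _ hwj.ne']
              congr 1
              ring
      · exact Or.inl ⟨ιE d, x, by rw [hR d hd]; exact hx, ((hE d).ept x).symm⟩
    · exact Or.inr ⟨ιV k, u, hu, (hV k u).symm⟩
  · rintro (⟨d', x, hx, rfl⟩ | ⟨k', u, hu, rfl⟩)
    · rcases hI.covE d' with rfl | ⟨d, rfl⟩
      · rw [hRe] at hx
        refine Or.inl ⟨e₀, x, ⟨?_, hx.2⟩, he.ept x⟩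
        have := hx.1
        linarith [hS.left]
      · by_cases hd : d = e₀
        · subst hd
          rw [hR₀] at hx
          refine Or.inl ⟨d, x, ⟨hx.1, ?_⟩, (hE d).ept x⟩
          have := hx.2
          linarith [hS.right]
        · rw [hR d hd] at hx
          exact Or.inl ⟨d, x, hx, (hE d).ept x⟩
    · rcases hI.covV k' with rfl | ⟨k, rfl⟩
      · refine Or.inl ⟨e₀, _, ⟨?_, ?_⟩, hJ u⟩
        · have h1 := (abs_le.1 hu).1
          nlinarith [hS.left]
        · have h1 := (abs_le.1 hu).2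
          nlinarith [hS.right]
      · exact Or.inr ⟨k, u, hu, hV k u⟩

end LCA
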