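import Pool.Agent.LCA.Stmts3

/-! # KNT: the slice of a cyclic polygon is a Legendrian knot -/

namespace LCA

open Set Filter
open scoped ContDiff Topology

namespace KNT

/-! ### a knot from local parametrizations -/

theorem knot_of_local {n : ℕ} (hn : 0 < n) (G : ℤ → ℝ → LC.R3)
    (hs : ∀ k, ContDiff ℝ ∞ (G k)) (hp : ∀ k, G (k + n) = G k)
    (hov : ∀ k t, 1 / 4 ≤ t → t ≤ 3 / 4 → G k t = G (k + 1) (t - 1))
    (him : ∀ k t, deriv (G k) t ≠ 0) (hleg : ∀ k t, LC.alpha (G k t) (deriv (G k) t) = 0)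
    (hinj : ∀ k t k' t', |t| ≤ 1 / 2 → |t'| ≤ 1 / 2 → G k t = G k' t' →
      ∃ m : ℤ, (k' : ℝ) + t' = k + t + m * n) :
    ∃ Λ : LC.LegKnot, ∀ r, r ∈ Λ.carrier ↔ ∃ (k : ℤ) (t : ℝ), |t| ≤ 1 / 2 ∧ G k t = r := by
  have hn0 : (0 : ℝ) < n := by exact_mod_cast hn
  set g : ℝ → LC.R3 := fun θ => G (round θ) (θ - round θ) with hgdef
  have hg : ∀ (k : ℤ) (θ : ℝ), |θ - k| ≤ 3 / 4 → g θ = G k (θ - k) := by
    intro k θ h
    have h1 := abs_sub_round θ
    rw [abs_le] at h h1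
    have h2 : (round θ : ℝ) - k < 2 := by linarith
    have h3 : (-2 : ℝ) < round θ - k := by linarith
    have h2' : round θ - k < 2 := by exact_mod_cast h2
    have h3' : -2 < round θ - k := by exact_mod_cast h3
    have h4 : round θ = k ∨ round θ = k + 1 ∨ round θ = k - 1 := by omega
    rcases h4 with h4 | h4 | h4
    · simp only [hgdef, h4]
    · have hr : (round θ : ℝ) = k + 1 := by rw [h4]; push_cast; ring
      have := hov k (θ - k) (by linarith) (by linarith)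
      rw [this]
      simp only [hgdef, h4]
      congr 1
      push_cast; ring
    · have hr : (round θ : ℝ) = k - 1 := by rw [h4]; push_cast; ring
      have := hov (k - 1) (θ - (k - 1)) (by linarith) (by linarith)
      simp only [hgdef, h4]
      have e : k - 1 + 1 = k := by ring
      rw [e] at this
      have e2 : θ - ((k - 1 : ℤ) : ℝ) = θ - (k - 1) := by push_cast; ring
      rw [e2, this]
      congr 1
      ring
  set γ : ℝ → LC.R3 := fun u => g (n * u) with hγ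
  have hnear : ∀ u₀ : ℝ, γ =ᶠ[𝓝 u₀] fun u => G (round (n * u₀)) (n * u - round (n * u₀)) := by
    intro u₀
    have hc : ContinuousAt (fun u : ℝ => (n : ℝ) * u) u₀ := by fun_prop
    have h1 := abs_sub_round ((n : ℝ) * u₀)
    have : ∀ᶠ u in 𝓝 u₀, |(n : ℝ) * u - n * u₀| < 1 / 4 := by
      have := (Metric.tendsto_nhds.1 hc.tendsto) (1 / 4) (by norm_num)
      filter_upwards [this] with u hu
      rwa [Real.dist_eq] at hu
    filter_upwards [this] with u hu
    apply hg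
    rw [abs_le] at h1 ⊢
    rw [abs_lt] at hu
    constructor <;> linarith
  have hder : ∀ u₀ : ℝ, deriv γ u₀ =
      (n : ℝ) • deriv (G (round (n * u₀))) (n * u₀ - round (n * u₀)) := by
    intro u₀
    rw [(hnear u₀).deriv_eq]
    have d1 : HasDerivAt (fun u : ℝ => (n : ℝ) * u - round (n * u₀)) (n : ℝ) u₀ := by
      have := ((hasDerivAt_id u₀).const_mul (n : ℝ)).sub_const (round (n * u₀) : ℝ)
      simpa using this
    have d2 : HasDerivAt (G (round (n * u₀)))
        (deriv (G (round (n * u₀))) (n * u₀ - round (n * u₀))) (n * u₀ - round (n * u₀)) :=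
      ((hs _).differentiable (by simp)).differentiableAt.hasDerivAt
    exact (HasDerivAt.scomp u₀ d2 d1).deriv
  have hval : ∀ u₀ : ℝ, γ u₀ = G (round (n * u₀)) (n * u₀ - round (n * u₀)) := fun u₀ => rfl
  refine ⟨⟨γ, ?_, ?_, ?_, ?_, ?_⟩, ?_⟩
  · rw [contDiff_iff_contDiffAt]
    intro u₀
    refine ContDiffAt.congr_of_eventuallyEq ?_ (hnear u₀)
    exact ((hs _).comp (by fun_prop)).contDiffAt
  · intro u
    rw [hval, hval]
    have e : (n : ℝ) * (u + 1) = n * u + (n : ℕ) := by ring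
    have e2 : round ((n : ℝ) * (u + 1)) = round ((n : ℝ) * u) + n := by
      rw [e, round_add_natCast]
    rw [e2, hp]
    congr 1
    rw [e]
    push_cast
    ring
  · intro u
    rw [hder]
    exact smul_ne_zero hn0.ne' (him _ _)
  · intro u v huv
    rw [hval, hval] at huv
    obtain ⟨m, hm⟩ := hinj _ _ _ _ (abs_sub_round _) (abs_sub_round _) huv
    refine ⟨m, ?_⟩
    have : (n : ℝ) * v = n * (u + m) := by linarith
    exact mul_left_cancel₀ hn0.ne' this
  · intro u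
    rw [hder, hval]
    have := hleg (round (n * u)) (n * u - round (n * u))
    simp only [LC.alpha, Prod.smul_snd, Prod.smul_fst, smul_eq_mul] at this ⊢
    linear_combination (n : ℝ) * this
  · intro r
    constructor
    · rintro ⟨u, rfl⟩
      exact ⟨round (n * u), n * u - round (n * u), abs_sub_round _, rfl⟩
    · rintro ⟨k, t, ht, rfl⟩
      refine ⟨(k + t) / n, ?_⟩
      have e : (n : ℝ) * ((k + t) / n) = k + t := by field_simp
      change g (n * ((k + t) / n)) = _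
      rw [e, hg k (k + t) (by simpa using ht.trans (by norm_num))]
      congr 1
      ring

/-! ### indices modulo `n` -/

section idx

variable {n : ℕ} [NeZero n]

/-- The class of the integer `k` modulo `n`. -/
def idx (n : ℕ) [NeZero n] (k : ℤ) : Fin n :=
  ⟨(k % n).toNat, by
    have h0 : (0 : ℤ) < n := by exact_mod_cast Nat.pos_of_ne_zero (NeZero.ne n)
    have h1 := Int.emod_lt_of_pos k h0
    have h2 := Int.emod_nonneg k h0.ne'
    omega⟩

theorem idx_val (k : ℤ) : ((idx n k).val : ℤ) = k % n := by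
  have h0 : (0 : ℤ) < n := by exact_mod_cast Nat.pos_of_ne_zero (NeZero.ne n)
  exact Int.toNat_of_nonneg (Int.emod_nonneg k h0.ne')

theorem idx_succ (k : ℤ) : idx n (k + 1) = idx n k + 1 := by
  apply Fin.ext
  have h1 : (((idx n k + 1 : Fin n)).val : ℤ) = ((idx n (k + 1)).val : ℤ) := by
    rw [Fin.val_add, idx_val]
    push_cast
    rw [idx_val]
    have : (((1 : Fin n)).val : ℤ) = 1 % n := by
      rw [Fin.val_one']; push_cast; rfl
    rw [this, Int.emod_add_emod, Int.add_emod_emod]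
  exact_mod_cast h1.symm

theorem idx_add (k : ℤ) : idx n (k + n) = idx n k := by
  apply Fin.ext
  have h1 : ((idx n (k + n)).val : ℤ) = ((idx n k).val : ℤ) := by
    rw [idx_val, idx_val, Int.add_emod_right]
  exact_mod_cast h1

theorem idx_eq {k l : ℤ} (h : idx n k = idx n l) : ∃ m : ℤ, l = k + m * n := by
  have h1 : k % n = l % n := by rw [← idx_val, ← idx_val, h]
  obtain ⟨m, hm⟩ := Int.ModEq.dvd h1
  exact ⟨m, by linarith⟩

theorem idx_surj (i : Fin n) : ∃ k, idx n k = i := by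
  refine ⟨i.val, ?_⟩
  apply Fin.ext
  have h1 : ((idx n (i.val : ℤ)).val : ℤ) = (i.val : ℤ) := by
    rw [idx_val]
    exact Int.emod_eq_of_lt (by omega) (by exact_mod_cast i.isLt)
  exact_mod_cast h1

end idx

/-! ### the distance function along an edge -/

section dist

/-- The distance from the beginning of an edge of length `L`. -/
def D (sh : Shape) (a b L t : ℝ) : ℝ :=
  (1 - sh.τ (4 * t - 2)) * (8 * a * t) + sh.τ (4 * t - 2) * (L + 8 * b * (t - 1))

/-- The derivative of `D`. -/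
noncomputable def dD (sh : Shape) (a b L t : ℝ) : ℝ :=
  (1 - sh.τ (4 * t - 2)) * (8 * a) + sh.τ (4 * t - 2) * (8 * b) +
    4 * deriv sh.τ (4 * t - 2) * (L + 8 * b * (t - 1) - 8 * a * t)

variable (sh : Shape)

theorem tau_deriv_low {u : ℝ} (hu : u ≤ -1) : deriv sh.τ u = 0 := by
  have : IsLocalMin sh.τ u := by
    filter_upwards with x
    rw [sh.τ_low u hu]
    exact (sh.τ_mem x).1
  exact this.deriv_eq_zero

theorem tau_deriv_high {u : ℝ} (hu : 1 ≤ u) : deriv sh.τ u = 0 := by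
  have : IsLocalMax sh.τ u := by
    filter_upwards with x
    rw [sh.τ_high u hu]
    exact (sh.τ_mem x).2
  exact this.deriv_eq_zero

theorem tau_hasDeriv (u : ℝ) : HasDerivAt sh.τ (deriv sh.τ u) u :=
  ((sh.τ_smooth.differentiable (by simp)).differentiableAt).hasDerivAt

theorem D_smooth (a b L : ℝ) : ContDiff ℝ ∞ (D sh a b L) := by
  have h := sh.τ_smooth
  have h1 : ContDiff ℝ ∞ (fun t : ℝ => sh.τ (4 * t - 2)) := h.comp (by fun_prop)
  unfold D
  exact ((contDiff_const.sub h1).mul (by fun_prop)).add (h1.mul (by fun_prop))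

theorem D_deriv (a b L t : ℝ) : HasDerivAt (D sh a b L) (dD sh a b L t) t := by
  have h1 : HasDerivAt (fun t : ℝ => sh.τ (4 * t - 2)) (4 * deriv sh.τ (4 * t - 2)) t := by
    have h2 : HasDerivAt (fun t : ℝ => 4 * t - 2) 4 t := by
      simpa using ((hasDerivAt_id t).const_mul 4).sub_const 2
    have h3 := (tau_hasDeriv sh (4 * t - 2)).comp t h2
    rw [mul_comm] at h3
    exact h3
  have h4 : HasDerivAt (fun t : ℝ => 8 * a * t) (8 * a) t := by
    simpa using (hasDerivAt_id t).const_mul (8 * a)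
  have h5 : HasDerivAt (fun t : ℝ => L + 8 * b * (t - 1)) (8 * b) t := by
    simpa using (((hasDerivAt_id t).sub_const 1).const_mul (8 * b)).const_add L
  have h6 := ((h1.const_sub 1).mul h4).add (h1.mul h5)
  unfold D dD
  refine h6.congr_deriv ?_
  ring

theorem D_low {a b L t : ℝ} (ht : t ≤ 1 / 4) : D sh a b L t = 8 * a * t := by
  unfold D
  rw [sh.τ_low _ (by linarith)]
  ring

theorem D_high {a b L t : ℝ} (ht : 3 / 4 ≤ t) : D sh a b L t = L + 8 * b * (t - 1) := by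
  unfold D
  rw [sh.τ_high _ (by linarith)]
  ring

theorem dD_low {a b L t : ℝ} (ht : t ≤ 1 / 4) : dD sh a b L t = 8 * a := by
  unfold dD
  rw [sh.τ_low _ (by linarith), tau_deriv_low sh (by linarith)]
  ring

theorem dD_high {a b L t : ℝ} (ht : 3 / 4 ≤ t) : dD sh a b L t = 8 * b := by
  unfold dD
  rw [sh.τ_high _ (by linarith), tau_deriv_high sh (by linarith)]
  ring

theorem dD_pos {a b L : ℝ} (ha : 0 < a) (hb : 0 < b) (hL : 6 * (a + b) < L) (t : ℝ) :
    0 < dD sh a b L t := by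
  rcases le_or_gt t (1 / 4) with h | h
  · rw [dD_low sh h]; positivity
  · rcases le_or_gt (3 / 4) t with h' | h'
    · rw [dD_high sh h']; positivity
    · unfold dD
      have h1 := sh.τ_mem (4 * t - 2)
      have h2 := sh.τ_deriv (4 * t - 2) (by linarith) (by linarith)
      have h3 : 0 < L + 8 * b * (t - 1) - 8 * a * t := by nlinarith
      have h4 : 0 ≤ (1 - sh.τ (4 * t - 2)) * (8 * a) :=
        mul_nonneg (by linarith [h1.2]) (by positivity)
      have h5 : 0 ≤ sh.τ (4 * t - 2) * (8 * b) := mul_nonneg h1.1 (by positivity)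
      have h6 : 0 < 4 * deriv sh.τ (4 * t - 2) * (L + 8 * b * (t - 1) - 8 * a * t) := by
        positivity
      linarith

theorem D_mono {a b L : ℝ} (ha : 0 < a) (hb : 0 < b) (hL : 6 * (a + b) < L) :
    StrictMono (D sh a b L) := by
  apply strictMono_of_deriv_pos
  intro t
  rw [(D_deriv sh a b L t).deriv]
  exact dD_pos sh ha hb hL t

end dist

/-! ### profiles -/

section prof

variable (sh : Shape)

theorem deriv_of_ge {f : ℝ → ℝ} (hf : Differentiable ℝ f) {c : ℝ} {a : ℝ}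
    (h : ∀ u, a ≤ u → f u = c * u) {u : ℝ} (hu : a ≤ u) : deriv f u = c := by
  have h1 : HasDerivWithinAt f (deriv f u) (Ici u) u := (hf u).hasDerivAt.hasDerivWithinAt
  have h2 : HasDerivWithinAt f c (Ici u) u := by
    have h3 : HasDerivWithinAt (fun u => c * u) c (Ici u) u := by
      simpa using ((hasDerivAt_id u).const_mul c).hasDerivWithinAt
    exact h3.congr (fun x hx => h x (hu.trans hx)) (h u hu)
  exact (uniqueDiffWithinAt_Ici u).eq_deriv _ h1 h2

theorem deriv_of_le {f : ℝ → ℝ} (hf : Differentiable ℝ f) {c : ℝ} {a : ℝ}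
    (h : ∀ u, u ≤ a → f u = c * u) {u : ℝ} (hu : u ≤ a) : deriv f u = c := by
  have h1 : HasDerivWithinAt f (deriv f u) (Iic u) u := (hf u).hasDerivAt.hasDerivWithinAt
  have h2 : HasDerivWithinAt f c (Iic u) u := by
    have h3 : HasDerivWithinAt (fun u => c * u) c (Iic u) u := by
      simpa using ((hasDerivAt_id u).const_mul c).hasDerivWithinAt
    exact h3.congr (fun x hx => h x (le_trans hx hu)) (h u hu)
  exact (uniqueDiffWithinAt_Iic u).eq_deriv _ h1 h2

theorem inX_eq (t : Ty) (u : ℝ) : t.inX u = t.inX 1 * u := by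
  cases t <;> simp [Ty.inX]

theorem outX_eq (t : Ty) (u : ℝ) : t.outX u = t.outX 1 * u := by
  cases t <;> simp [Ty.outX]

theorem inX_ne (t : Ty) : t.inX 1 ≠ 0 := by
  cases t <;> simp [Ty.inX]

theorem outX_ne (t : Ty) : t.outX 1 ≠ 0 := by
  cases t <;> simp [Ty.outX]

theorem X_smooth (t : Ty) : ContDiff ℝ ∞ ((sh.st t).X 0) := by
  have h := sh.ξ_smooth
  cases t
  · exact contDiff_id
  · exact h
  · exact h.neg

theorem T_smooth (t : Ty) : ContDiff ℝ ∞ ((sh.st t).Θ 0) := by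
  cases t
  · exact sh.ΘP_smooth
  · exact sh.ΘR_smooth
  · exact sh.ΘR_smooth.neg

end prof

/-! ### the slice -/

/-- The projection of a point of the slice to `ℝ³`. -/
def prj (a : ℝ × ℝ × ℝ × ℝ) : LC.R3 := (a.1, a.2.1, a.2.2.1)

section slice

variable {n : ℕ} (sh : Shape) (c : Comb n n) (w : Fin n → ℝ) (Q : St n)

/-- The curve of the vertex `i`. -/
noncomputable def Vc (i : Fin n) (u : ℝ) : LC.R3 := prj (c.vp w (c.sp sh) 0 Q (0, Q.2) i u)

/-- The line of the edge `e`. -/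
noncomputable def Ec (e : Fin n) (x : ℝ) : LC.R3 := prj (c.ept Q (0, Q.2) e x)

theorem dpe_eq (e : Fin n) : c.dpe Q (0, Q.2) e = c.pe Q e := by
  simp [Comb.dpe, Comb.pe]

theorem dae_eq (e : Fin n) : c.dae Q (0, Q.2) e = c.ae Q e := by
  simp [Comb.dae, Comb.ae, dpe_eq]

theorem st_Y (t : Ty) (s u : ℝ) : (sh.st t).Y s u = 0 := rfl

theorem vp_eq (i : Fin n) (u : ℝ) : c.vp w (c.sp sh) 0 Q (0, Q.2) i u =
    (Q.1 i + w i * (sh.st (c.ty i)).X 0 u, c.pe Q (c.ea i) + c.dl Q i * sh.τ u,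
      c.pe Q (c.ea i) * (Q.1 i + w i * (sh.st (c.ty i)).X 0 u) + c.ae Q (c.ea i) +
        w i * c.dl Q i * (sh.st (c.ty i)).Θ 0 u,
      c.pe Q (c.ea i) * (Q.1 i + w i * (sh.st (c.ty i)).X 0 u) + c.ae Q (c.ea i) +
        w i * c.dl Q i * (sh.st (c.ty i)).Θ 0 u) := by
  have h1 : ∀ e, c.dpe Q (0, Q.2) e = c.pe Q e := dpe_eq c Q
  have h2 : ∀ e, c.dae Q (0, Q.2) e = c.ae Q e := dae_eq c Q
  simp only [Comb.vp, Comb.vpt, Comb.sp, st_Y, h1, h2, Comb.dl, Pi.zero_apply]
  refine Prod.ext rfl (Prod.ext rfl (Prod.ext ?_ rfl))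
  simp only
  ring

theorem ept_eq (e : Fin n) (x : ℝ) : c.ept Q (0, Q.2) e x =
    (x, c.pe Q e, c.pe Q e * x + c.ae Q e, c.pe Q e * x + c.ae Q e) := by
  simp only [Comb.ept, dpe_eq, dae_eq]

theorem mem_knot (r : LC.R3) : r ∈ c.knot sh w Q ↔
    (∃ e, ∃ x ∈ c.rg w Q e, r = Ec c Q e x) ∨ ∃ i, ∃ u, |u| ≤ 2 ∧ r = Vc sh c w Q i u := by
  unfold Comb.knot Comb.slice
  constructor
  · rintro (⟨e, x, hx, h⟩ | ⟨i, u, hu, h⟩)
    · refine Or.inl ⟨e, x, hx, ?_⟩
      rw [Ec, ← h]; rfl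
    · refine Or.inr ⟨i, u, hu, ?_⟩
      rw [Vc, ← h]; rfl
  · rintro (⟨e, x, hx, h⟩ | ⟨i, u, hu, h⟩)
    · refine Or.inl ⟨e, x, hx, ?_⟩
      rw [h, Ec, ept_eq]; rfl
    · refine Or.inr ⟨i, u, hu, ?_⟩
      rw [h, Vc, vp_eq]; rfl

theorem Vc_smooth (i : Fin n) : ContDiff ℝ ∞ (Vc sh c w Q i) := by
  have h1 := X_smooth sh (c.ty i)
  have h2 := T_smooth sh (c.ty i)
  have h3 := sh.τ_smooth
  have : Vc sh c w Q i = fun u => (Q.1 i + w i * (sh.st (c.ty i)).X 0 u,
      c.pe Q (c.ea i) + c.dl Q i * sh.τ u,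
      c.pe Q (c.ea i) * (Q.1 i + w i * (sh.st (c.ty i)).X 0 u) + c.ae Q (c.ea i) +
        w i * c.dl Q i * (sh.st (c.ty i)).Θ 0 u) := by
    funext u
    rw [Vc, vp_eq]; rfl
  rw [this]
  have a1 : ContDiff ℝ ∞ (fun u => Q.1 i + w i * (sh.st (c.ty i)).X 0 u) :=
    contDiff_const.add (contDiff_const.mul h1)
  exact a1.prodMk ((contDiff_const.add (contDiff_const.mul h3)).prodMk
    (((contDiff_const.mul a1).add contDiff_const).add (contDiff_const.mul h2)))

theorem Vc_deriv (i : Fin n) (hP : ProfOK univ (c.ty i) (fun _ => c.dl Q i) (sh.st (c.ty i))) (u : ℝ) :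
    HasDerivAt (Vc sh c w Q i) (w i * deriv ((sh.st (c.ty i)).X 0) u, c.dl Q i * deriv sh.τ u,
      (c.pe Q (c.ea i) + c.dl Q i * sh.τ u) * (w i * deriv ((sh.st (c.ty i)).X 0) u)) u := by
  have h1 : HasDerivAt ((sh.st (c.ty i)).X 0) (deriv ((sh.st (c.ty i)).X 0) u) u :=
    (((X_smooth sh (c.ty i)).differentiable (by simp)).differentiableAt).hasDerivAt
  have h2 := hP.dΘ 0 (mem_univ _) u
  have h3 := tau_hasDeriv sh u
  have : Vc sh c w Q i = fun u => (Q.1 i + w i * (sh.st (c.ty i)).X 0 u,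
      c.pe Q (c.ea i) + c.dl Q i * sh.τ u,
      c.pe Q (c.ea i) * (Q.1 i + w i * (sh.st (c.ty i)).X 0 u) + c.ae Q (c.ea i) +
        w i * c.dl Q i * (sh.st (c.ty i)).Θ 0 u) := by
    funext u
    rw [Vc, vp_eq]; rfl
  rw [this]
  have a1 : HasDerivAt (fun u => Q.1 i + w i * (sh.st (c.ty i)).X 0 u)
      (w i * deriv ((sh.st (c.ty i)).X 0) u) u := (h1.const_mul (w i)).const_add _
  have a2 := (h3.const_mul (c.dl Q i)).const_add (c.pe Q (c.ea i))
  have a3 := ((a1.const_mul (c.pe Q (c.ea i))).add_const (c.ae Q (c.ea i))).add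
    (h2.const_mul (w i * c.dl Q i))
  refine (a1.prodMk (a2.prodMk a3)).congr_deriv ?_
  refine Prod.ext rfl (Prod.ext rfl ?_)
  simp only
  change _ + w i * c.dl Q i * (sh.τ u * _) = _
  ring

theorem Vc_imm (i : Fin n) (hw : 0 < w i)
    (hP : ProfOK univ (c.ty i) (fun _ => c.dl Q i) (sh.st (c.ty i))) (u : ℝ) :
    w i * deriv ((sh.st (c.ty i)).X 0) u ≠ 0 ∨ c.dl Q i * deriv sh.τ u ≠ 0 := by
  have hd : Differentiable ℝ ((sh.st (c.ty i)).X 0) :=
    (X_smooth sh (c.ty i)).differentiable (by simp)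
  have hb := hP.bd 0 (mem_univ _)
  by_cases h : |u| < 1
  · rcases hP.imm 0 (mem_univ _) u h with h | h
    · exact Or.inl (mul_ne_zero hw.ne' h)
    · exact Or.inr h
  · left
    apply mul_ne_zero hw.ne'
    rw [not_lt, le_abs] at h
    rcases h with h | h
    · rw [deriv_of_ge hd (c := (c.ty i).outX 1) (a := 1) _ h]
      · exact outX_ne _
      · intro x hx
        rw [(hb.high x hx).1, outX_eq]
    · rw [deriv_of_le hd (c := (c.ty i).inX 1) (a := -1) _ (by linarith)]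
      · exact inX_ne _
      · intro x hx
        rw [(hb.low x hx).1, inX_eq]

/-- The direction of the edge `e` at its end `i`. -/
noncomputable def sg (e i : Fin n) : ℝ := if c.lf e = i then 1 else -1

theorem sg_mul (e i : Fin n) : sg c e i * sg c e i = 1 := by
  unfold sg; split_ifs <;> norm_num

theorem lf_ne (hlen : ∀ e, Q.1 (c.lf e) < Q.1 (c.rt e)) (e : Fin n) : c.lf e ≠ c.rt e := by
  intro h
  have := hlen e
  rw [h] at this
  exact lt_irrefl _ this

theorem Vc_out (hVLN : Stmt_VLN) (hV : c.Valid) (hB : ∀ i, ProfBd (c.ty i) 0 (c.sp sh i))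
    (hlen : ∀ e, Q.1 (c.lf e) < Q.1 (c.rt e)) (i : Fin n) (u : ℝ) (hu : 1 ≤ u) :
    Vc sh c w Q i u = Ec c Q (c.eb i) (Q.1 i + w i * (sg c (c.eb i) i * u)) := by
  have h := (hVLN c w (c.sp sh) 0 Q (0, Q.2) i hV hB hlen).2 u hu rfl
  rw [Vc, h, Ec]
  have e : (c.ty i).outX u = sg c (c.eb i) i * u := by
    have hok := hV.okb i
    have hne := lf_ne c Q hlen (c.eb i)
    unfold Comb.OKb at hok
    unfold sg Ty.outX
    cases hty : c.ty i
    · simp only [hty] at hok
      simp [hok]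
    · simp only [hty] at hok
      rw [hok] at hne
      simp [hne]
    · simp only [hty] at hok
      simp [hok]
  rw [e]

theorem Vc_in (hVLN : Stmt_VLN) (hV : c.Valid) (hB : ∀ i, ProfBd (c.ty i) 0 (c.sp sh i))
    (hlen : ∀ e, Q.1 (c.lf e) < Q.1 (c.rt e)) (i : Fin n) (u : ℝ) (hu : 1 ≤ u) :
    Vc sh c w Q i (-u) = Ec c Q (c.ea i) (Q.1 i + w i * (sg c (c.ea i) i * u)) := by
  have h := (hVLN c w (c.sp sh) 0 Q (0, Q.2) i hV hB hlen).1 (-u) (by linarith) rfl
  rw [Vc, h, Ec]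
  have e : (c.ty i).inX (-u) = sg c (c.ea i) i * u := by
    have hok := hV.oka i
    have hne := lf_ne c Q hlen (c.ea i)
    unfold Comb.OKa at hok
    unfold sg Ty.inX
    cases hty : c.ty i
    · simp only [hty] at hok
      rw [hok] at hne
      simp [hne]
    · simp only [hty] at hok
      rw [hok] at hne
      simp [hne]
    · simp only [hty] at hok
      simp [hok]
  rw [e]

end slice

/-! ### the curve -/

section curve

variable {n : ℕ} [NeZero n] (sh : Shape) (c : Comb n n) (w : Fin n → ℝ) (Q : St n)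

/-- The length of the edge `k`. -/
def Ln (k : ℤ) : ℝ := Q.1 (c.rt (idx n k)) - Q.1 (c.lf (idx n k))

/-- The position of the vertex `k`. -/
def xk (k : ℤ) : ℝ := Q.1 (idx n k)

/-- The width of the vertex `k`. -/
def wk (k : ℤ) : ℝ := w (idx n k)

/-- The direction of the edge `k`. -/
noncomputable def sk (k : ℤ) : ℝ := sg c (idx n k) (idx n k)

/-- The direction of the parameter at the vertex `k`. -/
noncomputable def ek (k : ℤ) : ℝ := if c.eb (idx n k) = idx n k then 1 else -1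

/-- The curve at the vertex `k`, in the direction of the polygon. -/
noncomputable def Ak (k : ℤ) (u : ℝ) : LC.R3 := Vc sh c w Q (idx n k) (ek c k * u)

/-- The distance along the edge `k`. -/
noncomputable def Dk (k : ℤ) (t : ℝ) : ℝ := D sh (wk w k) (wk w (k + 1)) (Ln c Q k) t

/-- The derivative of `Dk`. -/
noncomputable def dDk (k : ℤ) (t : ℝ) : ℝ := dD sh (wk w k) (wk w (k + 1)) (Ln c Q k) t

/-- The parameter at the vertex `k`. -/
noncomputable def Uk (k : ℤ) (t : ℝ) : ℝ :=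
  (Dk sh c w Q k t + Dk sh c w Q (k - 1) (t + 1) - Ln c Q (k - 1)) / wk w k - 8 * t

/-- The curve near the vertex `k`. -/
noncomputable def Gk (k : ℤ) (t : ℝ) : LC.R3 := Ak sh c w Q k (Uk sh c w Q k t)

theorem wk_pos (hw : ∀ i, 0 < w i) (k : ℤ) : 0 < wk w k := hw _

theorem cyc_edge (hC : c.Cyc) (k : ℤ) : (c.lf (idx n k) = idx n k ∧
    c.rt (idx n k) = idx n (k + 1)) ∨ (c.lf (idx n k) = idx n (k + 1) ∧
    c.rt (idx n k) = idx n k) := by
  rw [idx_succ]
  exact hC.edge (idx n k)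

theorem cyc_vert (hC : c.Cyc) (k : ℤ) : (c.ea (idx n k) = idx n (k - 1) ∧
    c.eb (idx n k) = idx n k) ∨ (c.ea (idx n k) = idx n k ∧ c.eb (idx n k) = idx n (k - 1)) := by
  have h := hC.vert (idx n (k - 1))
  rw [← idx_succ, sub_add_cancel] at h
  exact h

theorem Ln_big (hC : c.Cyc)
    (hL : ∀ e, 6 * (w (c.lf e) + w (c.rt e)) < Q.1 (c.rt e) - Q.1 (c.lf e)) (k : ℤ) :
    6 * (wk w k + wk w (k + 1)) < Ln c Q k := by
  have h := hL (idx n k)
  unfold wk Ln
  rcases cyc_edge c hC k with ⟨h1, h2⟩ | ⟨h1, h2⟩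
  · rw [h1, h2] at h ⊢
    exact h
  · rw [h1, h2] at h ⊢
    linarith

theorem xk_succ (hC : c.Cyc) (hlen : ∀ e, Q.1 (c.lf e) < Q.1 (c.rt e)) (k : ℤ) :
    xk Q (k + 1) = xk Q k + sk c k * Ln c Q k := by
  have hne := lf_ne c Q hlen (idx n k)
  unfold xk sk Ln sg
  rcases cyc_edge c hC k with ⟨h1, h2⟩ | ⟨h1, h2⟩
  · rw [if_pos h1, h1, h2]; ring
  · have h3 : c.lf (idx n k) ≠ idx n k := by rw [h2] at hne; exact hne
    rw [if_neg h3, h1, h2]; ring

theorem sg_succ (hC : c.Cyc) (hlen : ∀ e, Q.1 (c.lf e) < Q.1 (c.rt e)) (k : ℤ) :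
    sg c (idx n k) (idx n (k + 1)) = -sk c k := by
  have hne := lf_ne c Q hlen (idx n k)
  unfold sk sg
  rcases cyc_edge c hC k with ⟨h1, h2⟩ | ⟨h1, h2⟩
  · have h3 : c.lf (idx n k) ≠ idx n (k + 1) := by rw [h2] at hne; exact hne
    rw [if_pos h1, if_neg h3]
  · have h3 : c.lf (idx n k) ≠ idx n k := by rw [h2] at hne; exact hne
    rw [if_neg h3, if_pos h1]; ring

theorem Ak_out (hVLN : Stmt_VLN) (hV : c.Valid) (hB : ∀ i, ProfBd (c.ty i) 0 (c.sp sh i))
    (hC : c.Cyc) (hlen : ∀ e, Q.1 (c.lf e) < Q.1 (c.rt e)) (k : ℤ) (u : ℝ) (hu : 1 ≤ u) :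
    Ak sh c w Q k u = Ec c Q (idx n k) (xk Q k + wk w k * (sk c k * u)) := by
  unfold Ak ek xk wk sk
  have hne := hV.ne (idx n k)
  rcases cyc_vert c hC k with ⟨h1, h2⟩ | ⟨h1, h2⟩
  · rw [if_pos h2, one_mul, Vc_out sh c w Q hVLN hV hB hlen _ _ hu, h2]
  · have h3 : c.eb (idx n k) ≠ idx n k := by rw [h1] at hne; exact hne.symm
    rw [if_neg h3, neg_one_mul, Vc_in sh c w Q hVLN hV hB hlen _ _ hu, h1]

theorem Ak_in (hVLN : Stmt_VLN) (hV : c.Valid) (hB : ∀ i, ProfBd (c.ty i) 0 (c.sp sh i))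
    (hC : c.Cyc) (hlen : ∀ e, Q.1 (c.lf e) < Q.1 (c.rt e)) (k : ℤ) (u : ℝ) (hu : u ≤ -1) :
    Ak sh c w Q k u = Ec c Q (idx n (k - 1)) (xk Q k + wk w k * (sk c (k - 1) * u)) := by
  have hs : sg c (idx n (k - 1)) (idx n k) = -sk c (k - 1) := by
    have := sg_succ c Q hC hlen (k - 1)
    rwa [sub_add_cancel] at this
  unfold Ak ek xk wk
  have hne := hV.ne (idx n k)
  rcases cyc_vert c hC k with ⟨h1, h2⟩ | ⟨h1, h2⟩
  · have h4 := Vc_in sh c w Q hVLN hV hB hlen (idx n k) (-u) (by linarith)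
    rw [if_pos h2, one_mul, ← neg_neg u, h4, h1, hs]
    congr 1
    ring
  · have h3 : c.eb (idx n k) ≠ idx n k := by rw [h1] at hne; exact hne.symm
    have h4 := Vc_out sh c w Q hVLN hV hB hlen (idx n k) (-u) (by linarith)
    rw [if_neg h3, neg_one_mul, h4, h2, hs]
    congr 1
    ring

theorem Uk_ge (hw : ∀ i, 0 < w i) {k : ℤ} {t : ℝ} (ht : -(1 / 4) ≤ t) :
    Uk sh c w Q k t = Dk sh c w Q k t / wk w k := by
  have hwk := wk_pos w hw k
  have h : Dk sh c w Q (k - 1) (t + 1) = Ln c Q (k - 1) + 8 * wk w k * t := by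
    unfold Dk
    rw [D_high sh (by linarith), sub_add_cancel]
    ring
  unfold Uk
  rw [h]
  field_simp
  ring

theorem Uk_le (hw : ∀ i, 0 < w i) {k : ℤ} {t : ℝ} (ht : t ≤ 1 / 4) :
    Uk sh c w Q k t = (Dk sh c w Q (k - 1) (t + 1) - Ln c Q (k - 1)) / wk w k := by
  have hwk := wk_pos w hw k
  have h : Dk sh c w Q k t = 8 * wk w k * t := by
    unfold Dk
    rw [D_low sh (by linarith)]
  unfold Uk
  rw [h]
  field_simp
  ring

theorem Uk_mid (hw : ∀ i, 0 < w i) {k : ℤ} {t : ℝ} (ht : |t| ≤ 1 / 4) :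
    Uk sh c w Q k t = 8 * t := by
  have hwk := wk_pos w hw k
  rw [abs_le] at ht
  rw [Uk_ge sh c w Q hw ht.1]
  unfold Dk
  rw [D_low sh ht.2]
  field_simp

theorem Uk_smooth (k : ℤ) : ContDiff ℝ ∞ (Uk sh c w Q k) := by
  unfold Uk Dk
  have h1 := D_smooth sh (wk w k) (wk w (k + 1)) (Ln c Q k)
  have h2 := D_smooth sh (wk w (k - 1)) (wk w (k - 1 + 1)) (Ln c Q (k - 1))
  have h3 : ContDiff ℝ ∞ (fun t : ℝ => D sh (wk w (k - 1)) (wk w (k - 1 + 1)) (Ln c Q (k - 1))
      (t + 1)) := h2.comp (by fun_prop)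
  exact (((h1.add h3).sub contDiff_const).div_const _).sub (by fun_prop)

theorem Uk_deriv (hC : c.Cyc) (hw : ∀ i, 0 < w i)
    (hL : ∀ e, 6 * (w (c.lf e) + w (c.rt e)) < Q.1 (c.rt e) - Q.1 (c.lf e)) (k : ℤ) (t : ℝ) :
    ∃ d : ℝ, d ≠ 0 ∧ HasDerivAt (Uk sh c w Q k) d t := by
  have hwk := wk_pos w hw k
  have hd : HasDerivAt (Uk sh c w Q k)
      ((dDk sh c w Q k t + dDk sh c w Q (k - 1) (t + 1)) / wk w k - 8) t := by
    have h1 : HasDerivAt (Dk sh c w Q k) (dDk sh c w Q k t) t := D_deriv sh _ _ _ t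
    have h2 : HasDerivAt (Dk sh c w Q (k - 1)) (dDk sh c w Q (k - 1) (t + 1)) (t + 1) :=
      D_deriv sh _ _ _ (t + 1)
    have h3 : HasDerivAt (fun t => Dk sh c w Q (k - 1) (t + 1)) (dDk sh c w Q (k - 1) (t + 1)) t :=
      h2.comp_add_const t 1
    have h4 : HasDerivAt (fun t : ℝ => 8 * t) 8 t := by
      simpa using (hasDerivAt_id t).const_mul 8
    exact (((h1.add h3).sub_const _).div_const _).sub h4
  refine ⟨_, ?_, hd⟩
  rcases le_or_gt t (1 / 4) with h | h
  · have h1 : dDk sh c w Q k t = 8 * wk w k := by unfold dDk; rw [dD_low sh h]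
    have h2 : 0 < dDk sh c w Q (k - 1) (t + 1) :=
      dD_pos sh (wk_pos w hw _) (wk_pos w hw _) (Ln_big c w Q hC hL (k - 1)) _
    rw [h1]
    have : (8 * wk w k + dDk sh c w Q (k - 1) (t + 1)) / wk w k - 8 =
        dDk sh c w Q (k - 1) (t + 1) / wk w k := by field_simp; ring
    rw [this]
    positivity
  · have h1 : dDk sh c w Q (k - 1) (t + 1) = 8 * wk w k := by
      unfold dDk; rw [dD_high sh (by linarith), sub_add_cancel]
    have h2 : 0 < dDk sh c w Q k t :=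
      dD_pos sh (wk_pos w hw _) (wk_pos w hw _) (Ln_big c w Q hC hL k) _
    rw [h1]
    have : (dDk sh c w Q k t + 8 * wk w k) / wk w k - 8 =
        dDk sh c w Q k t / wk w k := by field_simp; ring
    rw [this]
    positivity

theorem Dk_mono (hC : c.Cyc) (hw : ∀ i, 0 < w i)
    (hL : ∀ e, 6 * (w (c.lf e) + w (c.rt e)) < Q.1 (c.rt e) - Q.1 (c.lf e)) (k : ℤ) :
    StrictMono (Dk sh c w Q k) :=
  D_mono sh (wk_pos w hw _) (wk_pos w hw _) (Ln_big c w Q hC hL k)

theorem Dk_quarter (k : ℤ) : Dk sh c w Q k (1 / 4) = 2 * wk w k := by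
  unfold Dk; rw [D_low sh le_rfl]; ring

theorem Dk_three (k : ℤ) : Dk sh c w Q k (3 / 4) = Ln c Q k - 2 * wk w (k + 1) := by
  unfold Dk; rw [D_high sh le_rfl]; ring

theorem sk_sq (k : ℤ) : sk c k = 1 ∨ sk c k = -1 := by
  unfold sk sg; split_ifs <;> simp

theorem ek_sq (k : ℤ) : ek c k = 1 ∨ ek c k = -1 := by
  unfold ek; split_ifs <;> simp

theorem Gk_edge (hVLN : Stmt_VLN) (hV : c.Valid) (hB : ∀ i, ProfBd (c.ty i) 0 (c.sp sh i))
    (hC : c.Cyc) (hw : ∀ i, 0 < w i) (hlen : ∀ e, Q.1 (c.lf e) < Q.1 (c.rt e))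
    (hL : ∀ e, 6 * (w (c.lf e) + w (c.rt e)) < Q.1 (c.rt e) - Q.1 (c.lf e)) (k : ℤ) (t : ℝ)
    (ht : 1 / 4 ≤ t) :
    Gk sh c w Q k t = Ec c Q (idx n k) (xk Q k + sk c k * Dk sh c w Q k t) := by
  have hwk := wk_pos w hw k
  have hU := Uk_ge sh c w Q hw (k := k) (t := t) (by linarith)
  have hD : 2 * wk w k ≤ Dk sh c w Q k t := by
    rw [← Dk_quarter sh c w Q k]
    exact (Dk_mono sh c w Q hC hw hL k).monotone ht
  have h1 : 1 ≤ Dk sh c w Q k t / wk w k := by
    rw [le_div_iff₀ hwk]; linarith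
  unfold Gk
  rw [hU, Ak_out sh c w Q hVLN hV hB hC hlen k _ h1]
  congr 1
  field_simp

theorem Gk_edge' (hVLN : Stmt_VLN) (hV : c.Valid) (hB : ∀ i, ProfBd (c.ty i) 0 (c.sp sh i))
    (hC : c.Cyc) (hw : ∀ i, 0 < w i) (hlen : ∀ e, Q.1 (c.lf e) < Q.1 (c.rt e))
    (hL : ∀ e, 6 * (w (c.lf e) + w (c.rt e)) < Q.1 (c.rt e) - Q.1 (c.lf e)) (k : ℤ) (t : ℝ)
    (ht : t ≤ 3 / 4) :
    Gk sh c w Q (k + 1) (t - 1) = Ec c Q (idx n k) (xk Q k + sk c k * Dk sh c w Q k t) := by
  have hwk := wk_pos w hw (k + 1)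
  have hU := Uk_le sh c w Q hw (k := k + 1) (t := t - 1) (by linarith)
  rw [sub_add_cancel, add_sub_cancel_right] at hU
  have hD : Dk sh c w Q k t ≤ Ln c Q k - 2 * wk w (k + 1) := by
    rw [← Dk_three sh c w Q k]
    exact (Dk_mono sh c w Q hC hw hL k).monotone ht
  have h1 : (Dk sh c w Q k t - Ln c Q k) / wk w (k + 1) ≤ -1 := by
    rw [div_le_iff₀ hwk]; linarith
  unfold Gk
  rw [hU, Ak_in sh c w Q hVLN hV hB hC hlen (k + 1) _ h1, add_sub_cancel_right,
    xk_succ c Q hC hlen k]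
  congr 1
  field_simp
  ring

theorem Gk_mid (hw : ∀ i, 0 < w i) (k : ℤ) (t : ℝ) (ht : |t| ≤ 1 / 4) :
    Gk sh c w Q k t = Vc sh c w Q (idx n k) (ek c k * (8 * t)) := by
  unfold Gk Ak
  rw [Uk_mid sh c w Q hw ht]

theorem rg_iff (hC : c.Cyc) (hlen : ∀ e, Q.1 (c.lf e) < Q.1 (c.rt e)) (k : ℤ) (d : ℝ) :
    xk Q k + sk c k * d ∈ c.rg w Q (idx n k) ↔
      2 * wk w k ≤ d ∧ d ≤ Ln c Q k - 2 * wk w (k + 1) := by
  have hne := lf_ne c Q hlen (idx n k)
  unfold Comb.rg xk sk Ln sg wk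
  rw [mem_Icc]
  rcases cyc_edge c hC k with ⟨h1, h2⟩ | ⟨h1, h2⟩
  · rw [if_pos h1, h1, h2]
    constructor
    · rintro ⟨a, b⟩; constructor <;> linarith
    · rintro ⟨a, b⟩; constructor <;> linarith
  · have h3 : c.lf (idx n k) ≠ idx n k := by rw [h2] at hne; exact hne
    rw [if_neg h3, h1, h2]
    constructor
    · rintro ⟨a, b⟩; constructor <;> linarith
    · rintro ⟨a, b⟩; constructor <;> linarith

omit [NeZero n] in
theorem X_bd2 (hB : ∀ i, ProfBd (c.ty i) 0 (c.sp sh i)) (i : Fin n) (u : ℝ) (hu : |u| ≤ 2) :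
    |(sh.st (c.ty i)).X 0 u| ≤ 2 := by
  have hb := hB i
  rcases le_or_gt |u| 1 with h | h
  · exact (hb.X_bd u h).trans (by norm_num)
  · rw [lt_abs] at h
    rcases h with h | h
    · have h1 : (sh.st (c.ty i)).X 0 u = (c.ty i).outX u := (hb.high u h.le).1
      rw [h1]
      cases c.ty i <;> simpa [Ty.outX] using hu
    · have h1 : (sh.st (c.ty i)).X 0 u = (c.ty i).inX u := (hb.low u (by linarith)).1
      rw [h1]
      cases c.ty i <;> simpa [Ty.inX] using hu

/-- A vertex point is not in the interior of an edge. -/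
theorem no_ve (hC : c.Cyc) (hw : ∀ i, 0 < w i) (hlen : ∀ e, Q.1 (c.lf e) < Q.1 (c.rt e))
    (hB : ∀ i, ProfBd (c.ty i) 0 (c.sp sh i)) (hV : c.Valid)
    (hve : ∀ i e, c.ea i ≠ e → c.eb i ≠ e → ∀ u, |u| ≤ 2 → ∀ x ∈ c.rg w Q e,
      ¬ Meet (c.vp w (c.sp sh) 0 Q (0, Q.2) i u) (c.ept Q (0, Q.2) e x))
    (i : Fin n) (u : ℝ) (hu : |u| ≤ 2) (k : ℤ) (d : ℝ) (h1 : 2 * wk w k < d)
    (h2 : d < Ln c Q k - 2 * wk w (k + 1)) :
    Vc sh c w Q i u ≠ Ec c Q (idx n k) (xk Q k + sk c k * d) := by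
  intro h
  have hm : Meet (c.vp w (c.sp sh) 0 Q (0, Q.2) i u)
      (c.ept Q (0, Q.2) (idx n k) (xk Q k + sk c k * d)) := by
    have e1 := congrArg (fun r : LC.R3 => r.1) h
    have e2 := congrArg (fun r : LC.R3 => r.2.1) h
    have e3 := congrArg (fun r : LC.R3 => r.2.2) h
    exact ⟨e1, e2, e3⟩
  have hinc : c.ea i = idx n k ∨ c.eb i = idx n k := by
    by_contra hcon
    rw [not_or] at hcon
    exact hve i (idx n k) hcon.1 hcon.2 u hu _
      ((rg_iff c w Q hC hlen k d).2 ⟨h1.le, h2.le⟩) hm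
  -- `i` is an end of the edge `k`
  have hend : c.lf (idx n k) = i ∨ c.rt (idx n k) = i := by
    have ha := hV.oka i
    have hb := hV.okb i
    unfold Comb.OKa at ha
    unfold Comb.OKb at hb
    rcases hinc with h | h
    · cases hty : c.ty i <;> simp only [hty] at ha <;> rw [h] at ha <;> simp [ha]
    · cases hty : c.ty i <;> simp only [hty] at hb <;> rw [h] at hb <;> simp [hb]
  have hx : Q.1 i + w i * (sh.st (c.ty i)).X 0 u = xk Q k + sk c k * d := by
    have := hm.1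
    rw [vp_eq] at this
    exact this
  have hX := X_bd2 sh c hB i u hu
  have hwi := hw i
  have hX2 : |w i * (sh.st (c.ty i)).X 0 u| ≤ 2 * w i := by
    rw [abs_mul, abs_of_pos hwi]; nlinarith
  rw [abs_le] at hX2
  have hne := lf_ne c Q hlen (idx n k)
  unfold xk sk sg at hx
  unfold Ln wk at h2
  unfold wk at h1
  rcases cyc_edge c hC k with ⟨g1, g2⟩ | ⟨g1, g2⟩
  · rw [if_pos g1] at hx
    rw [g1, g2] at hend h2
    rcases hend with h | h
    · rw [h] at hx h1; linarith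
    · rw [h] at h2; linarith
  · have h3 : c.lf (idx n k) ≠ idx n k := by rw [g2] at hne; exact hne
    rw [if_neg h3] at hx
    rw [g1, g2] at hend h2
    rcases hend with h | h
    · rw [h] at h2; linarith
    · rw [h] at hx h1; linarith

/-- Every point is a vertex point or an interior point of an edge. -/
theorem classify (hVLN : Stmt_VLN) (hV : c.Valid) (hB : ∀ i, ProfBd (c.ty i) 0 (c.sp sh i))
    (hC : c.Cyc) (hw : ∀ i, 0 < w i) (hlen : ∀ e, Q.1 (c.lf e) < Q.1 (c.rt e))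
    (hL : ∀ e, 6 * (w (c.lf e) + w (c.rt e)) < Q.1 (c.rt e) - Q.1 (c.lf e)) (k : ℤ) (t : ℝ)
    (ht : |t| ≤ 1 / 2) :
    (|t| ≤ 1 / 4 ∧ Gk sh c w Q k t = Vc sh c w Q (idx n k) (ek c k * (8 * t))) ∨
    ∃ (l : ℤ) (r : ℝ), 1 / 4 < r ∧ r < 3 / 4 ∧ (l : ℝ) + r = k + t ∧
      Gk sh c w Q k t = Ec c Q (idx n l) (xk Q l + sk c l * Dk sh c w Q l r) := by
  rw [abs_le] at ht
  rcases le_or_gt |t| (1 / 4) with h | h
  · exact Or.inl ⟨h, Gk_mid sh c w Q hw k t h⟩
  · right
    rw [lt_abs] at h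
    rcases h with h | h
    · exact ⟨k, t, h, by linarith, rfl, Gk_edge sh c w Q hVLN hV hB hC hw hlen hL k t h.le⟩
    · refine ⟨k - 1, t + 1, by linarith, by linarith, by push_cast; ring, ?_⟩
      have := Gk_edge' sh c w Q hVLN hV hB hC hw hlen hL (k - 1) (t + 1) (by linarith)
      rw [sub_add_cancel, add_sub_cancel_right] at this
      exact this

end curve

end KNT

theorem t_KNT (hPST : Stmt_PST) (hCER : Stmt_CER) (hVLN : Stmt_VLN) (hPIN : Stmt_PIN) :
    Stmt_KNT := by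
  intro n _ sh c w Q hV hC hw hCert hL
  have _ := @hPIN
  have hn : 0 < n := Nat.pos_of_ne_zero (NeZero.ne n)
  have hlen : ∀ e, Q.1 (c.lf e) < Q.1 (c.rt e) := by
    intro e
    have h1 := hL e
    have h2 := hw (c.lf e)
    have h3 := hw (c.rt e)
    linarith
  have hP : ∀ i, ProfOK univ (c.ty i) (fun _ => c.dl Q i) (sh.st (c.ty i)) := fun i =>
    hPST sh univ (c.ty i) (fun _ => c.dl Q i) (fun _ _ h => hCert.tip i h)
  have hB : ∀ i, ProfBd (c.ty i) 0 (c.sp sh i) := fun i => (hP i).bd 0 (mem_univ _)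
  have hAdm := hCER c w (c.sp sh) 0 Q (0, Q.2) hV hw hB hCert
  have cls := KNT.classify sh c w Q hVLN hV hB hC hw hlen hL
  have hD := KNT.Dk_mono sh c w Q hC hw hL
  have hDr : ∀ (l : ℤ) (r : ℝ), 1 / 4 < r → r < 3 / 4 → 2 * KNT.wk w l < KNT.Dk sh c w Q l r ∧
      KNT.Dk sh c w Q l r < KNT.Ln c Q l - 2 * KNT.wk w (l + 1) := by
    intro l r h1 h2
    rw [← KNT.Dk_quarter sh c w Q l, ← KNT.Dk_three sh c w Q l]
    exact ⟨hD l h1, hD l h2⟩
  have e8 : ∀ (k : ℤ) (t : ℝ), |t| ≤ 1 / 4 → |KNT.ek c k * (8 * t)| ≤ 2 := by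
    intro k t ht
    rw [abs_le] at ht ⊢
    rcases KNT.ek_sq c k with h | h <;> rw [h] <;> constructor <;> linarith
  have meetV : ∀ i j u v, KNT.Vc sh c w Q i u = KNT.Vc sh c w Q j v →
      Meet (c.vp w (c.sp sh) 0 Q (0, Q.2) i u) (c.vp w (c.sp sh) 0 Q (0, Q.2) j v) := by
    intro i j u v h
    exact ⟨congrArg (fun r : LC.R3 => r.1) h, congrArg (fun r : LC.R3 => r.2.1) h,
      congrArg (fun r : LC.R3 => r.2.2) h⟩
  have meetE : ∀ i j u v, KNT.Ec c Q i u = KNT.Ec c Q j v →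
      Meet (c.ept Q (0, Q.2) i u) (c.ept Q (0, Q.2) j v) := by
    intro i j u v h
    exact ⟨congrArg (fun r : LC.R3 => r.1) h, congrArg (fun r : LC.R3 => r.2.1) h,
      congrArg (fun r : LC.R3 => r.2.2) h⟩
  obtain ⟨Λ, hΛ⟩ := KNT.knot_of_local hn (KNT.Gk sh c w Q)
    (by
      intro k
      have h1 := KNT.Vc_smooth sh c w Q (KNT.idx n k)
      have h2 := KNT.Uk_smooth sh c w Q k
      exact h1.comp (contDiff_const.mul h2))
    (by
      intro k
      have e1 : KNT.idx n (k + n) = KNT.idx n k := KNT.idx_add k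
      have e2 : KNT.idx n (k + n + 1) = KNT.idx n (k + 1) := by
        rw [show k + n + 1 = k + 1 + n by ring]; exact KNT.idx_add (k + 1)
      have e3 : KNT.idx n (k + n - 1) = KNT.idx n (k - 1) := by
        rw [show k + n - 1 = k - 1 + n by ring]; exact KNT.idx_add (k - 1)
      have e4 : KNT.idx n (k + n - 1 + 1) = KNT.idx n (k - 1 + 1) := by
        rw [show k + n - 1 + 1 = k - 1 + 1 + n by ring]; exact KNT.idx_add (k - 1 + 1)
      funext t
      unfold KNT.Gk KNT.Ak KNT.Uk KNT.ek KNT.Dk KNT.wk KNT.Ln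
      rw [e1, e2, e3, e4])
    (by
      intro k t h1 h2
      rw [KNT.Gk_edge sh c w Q hVLN hV hB hC hw hlen hL k t h1,
        KNT.Gk_edge' sh c w Q hVLN hV hB hC hw hlen hL k t h2])
    (by
      intro k t
      obtain ⟨d, hd0, hd⟩ := KNT.Uk_deriv sh c w Q hC hw hL k t
      have h1 := (KNT.Vc_deriv sh c w Q (KNT.idx n k) (hP _)
        (KNT.ek c k * KNT.Uk sh c w Q k t)).scomp t (hd.const_mul (KNT.ek c k))
      have h2 := h1.deriv
      have h3 : KNT.Gk sh c w Q k = (KNT.Vc sh c w Q (KNT.idx n k)) ∘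
        (fun t => KNT.ek c k * KNT.Uk sh c w Q k t) := rfl
      rw [h3, h2]
      apply smul_ne_zero
      · apply mul_ne_zero _ hd0
        rcases KNT.ek_sq c k with h | h <;> rw [h] <;> norm_num
      · intro h0
        rcases KNT.Vc_imm sh c w Q (KNT.idx n k) (hw _) (hP _)
          (KNT.ek c k * KNT.Uk sh c w Q k t) with h | h
        · exact h (congrArg (fun r : LC.R3 => r.1) h0)
        · exact h (congrArg (fun r : LC.R3 => r.2.1) h0))
    (by
      intro k t
      obtain ⟨d, hd0, hd⟩ := KNT.Uk_deriv sh c w Q hC hw hL k t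
      have h1 := (KNT.Vc_deriv sh c w Q (KNT.idx n k) (hP _)
        (KNT.ek c k * KNT.Uk sh c w Q k t)).scomp t (hd.const_mul (KNT.ek c k))
      have h2 := h1.deriv
      have h3 : KNT.Gk sh c w Q k = (KNT.Vc sh c w Q (KNT.idx n k)) ∘
        (fun t => KNT.ek c k * KNT.Uk sh c w Q k t) := rfl
      rw [h3, h2]
      have h4 : (KNT.Vc sh c w Q (KNT.idx n k) (KNT.ek c k * KNT.Uk sh c w Q k t)).2.1 =
          c.pe Q (c.ea (KNT.idx n k)) + c.dl Q (KNT.idx n k) *
            sh.τ (KNT.ek c k * KNT.Uk sh c w Q k t) := by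
        rw [KNT.Vc, KNT.vp_eq]; rfl
      simp only [LC.alpha, Prod.smul_snd, Prod.smul_fst, smul_eq_mul, Function.comp]
      rw [h4]
      ring)
    (by
      intro k t k' t' ht ht' heq
      rcases cls k t ht with ⟨a1, a2⟩ | ⟨l, r, a1, a2, a3, a4⟩
      · rcases cls k' t' ht' with ⟨b1, b2⟩ | ⟨l', r', b1, b2, b3, b4⟩
        · rw [a2, b2] at heq
          have hidx : KNT.idx n k = KNT.idx n k' := by
            by_contra hne
            exact hAdm.vv _ _ hne _ _ (e8 k t a1) (e8 k' t' b1) (meetV _ _ _ _ heq)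
          obtain ⟨m, hm⟩ := KNT.idx_eq hidx
          have hek : KNT.ek c k' = KNT.ek c k := by unfold KNT.ek; rw [hidx]
          rw [← hidx, hek] at heq
          have hu : KNT.ek c k * (8 * t) = KNT.ek c k * (8 * t') := by
            have hwi := hw (KNT.idx n k)
            have hm2 := meetV _ _ _ _ heq
            rw [Meet, KNT.vp_eq, KNT.vp_eq] at hm2
            refine (hP (KNT.idx n k)).inj 0 (mem_univ _) _ _ (e8 k t a1) ?_ ?_ ?_
            · have := e8 k' t' b1; rwa [hek] at this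
            · have h1 := hm2.1
              have h2 : w (KNT.idx n k) * (sh.st (c.ty (KNT.idx n k))).X 0 (KNT.ek c k * (8 * t)) =
                w (KNT.idx n k) * (sh.st (c.ty (KNT.idx n k))).X 0 (KNT.ek c k * (8 * t')) := by
                  linarith
              exact mul_left_cancel₀ hwi.ne' h2
            · have h1 := hm2.2.1
              have h2 : c.dl Q (KNT.idx n k) * sh.τ (KNT.ek c k * (8 * t)) =
                c.dl Q (KNT.idx n k) * sh.τ (KNT.ek c k * (8 * t')) := by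
                  simp only at h1; linarith
              exact h2
          have ht2 : t = t' := by
            rcases KNT.ek_sq c k with h | h <;> rw [h] at hu <;> linarith
          refine ⟨m, ?_⟩
          rw [hm, ht2]; push_cast; ring
        · exfalso
          rw [a2, b4] at heq
          obtain ⟨c1, c2⟩ := hDr l' r' b1 b2
          exact KNT.no_ve sh c w Q hC hw hlen hB hV hAdm.ve _ _ (e8 k t a1) l' _ c1 c2 heq
      · rcases cls k' t' ht' with ⟨b1, b2⟩ | ⟨l', r', b1, b2, b3, b4⟩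
        · exfalso
          rw [b2, a4] at heq
          obtain ⟨c1, c2⟩ := hDr l r a1 a2
          exact KNT.no_ve sh c w Q hC hw hlen hB hV hAdm.ve _ _ (e8 k' t' b1) l _ c1 c2 heq.symm
        · rw [a4, b4] at heq
          obtain ⟨c1, c2⟩ := hDr l r a1 a2
          obtain ⟨d1, d2⟩ := hDr l' r' b1 b2
          have hidx : KNT.idx n l = KNT.idx n l' := by
            by_contra hne
            exact hAdm.ee _ _ hne _ ((KNT.rg_iff c w Q hC hlen l _).2 ⟨c1.le, c2.le⟩) _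
              ((KNT.rg_iff c w Q hC hlen l' _).2 ⟨d1.le, d2.le⟩) (meetE _ _ _ _ heq)
          obtain ⟨m, hm⟩ := KNT.idx_eq hidx
          have hx := (meetE _ _ _ _ heq).1
          simp only [Comb.ept] at hx
          have g1 : KNT.xk Q l' = KNT.xk Q l := by unfold KNT.xk; rw [hidx]
          have g2 : KNT.sk c l' = KNT.sk c l := by unfold KNT.sk; rw [hidx]
          have g3 : KNT.Dk sh c w Q l' = KNT.Dk sh c w Q l := by
            funext t
            unfold KNT.Dk KNT.wk KNT.Ln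
            rw [KNT.idx_succ, KNT.idx_succ, hidx]
          rw [g1, g2, g3] at hx
          have hr : r = r' := by
            apply (hD l).injective
            rcases KNT.sk_sq c l with h | h <;> rw [h] at hx <;> linarith
          refine ⟨m, ?_⟩
          rw [← b3, ← a3, hm, hr]; push_cast; ring)
  refine ⟨Λ, ?_⟩
  ext r
  rw [hΛ r, KNT.mem_knot]
  constructor
  · rintro ⟨k, t, ht, rfl⟩
    rcases cls k t ht with ⟨a1, a2⟩ | ⟨l, r, a1, a2, a3, a4⟩
    · exact Or.inr ⟨_, _, e8 k t a1, a2⟩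
    · obtain ⟨c1, c2⟩ := hDr l r a1 a2
      exact Or.inl ⟨_, _, (KNT.rg_iff c w Q hC hlen l _).2 ⟨c1.le, c2.le⟩, a4⟩
  · rintro (⟨e, x, hx, rfl⟩ | ⟨i, u, hu, rfl⟩)
    · obtain ⟨k, rfl⟩ := KNT.idx_surj e
      -- the distance
      obtain ⟨d, rfl⟩ : ∃ d, x = KNT.xk Q k + KNT.sk c k * d := by
        refine ⟨KNT.sk c k * (x - KNT.xk Q k), ?_⟩
        rcases KNT.sk_sq c k with h | h <;> rw [h] <;> ring
      rw [KNT.rg_iff c w Q hC hlen k d, ← KNT.Dk_quarter sh c w Q k,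
        ← KNT.Dk_three sh c w Q k] at hx
      have hcont : ContinuousOn (KNT.Dk sh c w Q k) (Icc (1 / 4) (3 / 4)) :=
        (KNT.D_smooth sh _ _ _).continuous.continuousOn
      obtain ⟨t, ht, htd⟩ := intermediate_value_Icc (by norm_num) hcont hx
      rcases le_or_gt t (1 / 2) with h | h
      · refine ⟨k, t, by rw [abs_le]; constructor <;> linarith [ht.1], ?_⟩
        rw [KNT.Gk_edge sh c w Q hVLN hV hB hC hw hlen hL k t ht.1, htd]
      · refine ⟨k + 1, t - 1, by rw [abs_le]; constructor <;> linarith [ht.2], ?_⟩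
        rw [KNT.Gk_edge' sh c w Q hVLN hV hB hC hw hlen hL k t ht.2, htd]
    · obtain ⟨k, rfl⟩ := KNT.idx_surj i
      have hek : KNT.ek c k * KNT.ek c k = 1 := by
        rcases KNT.ek_sq c k with h | h <;> rw [h] <;> norm_num
      have h4 : |KNT.ek c k * u / 8| ≤ 1 / 4 := by
        rw [abs_le] at hu ⊢
        rcases KNT.ek_sq c k with h | h <;> rw [h] <;> constructor <;> linarith
      refine ⟨k, KNT.ek c k * u / 8, h4.trans (by norm_num), ?_⟩
      rw [KNT.Gk_mid sh c w Q hw k _ h4]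
      congr 1
      have : KNT.ek c k * (8 * (KNT.ek c k * u / 8)) = (KNT.ek c k * KNT.ek c k) * u := by ring
      rw [this, hek, one_mul]

end LCA
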