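import Pool.Agent.LCA.Stmts1

/-! # LAG: exact surfaces are Lagrangian -/

namespace LCA

open Set Filter
open scoped ContDiff Topology

namespace LAG

/-- The second derivative of a smooth map is symmetric. -/
theorem symm {E : Type} [NormedAddCommGroup E] [NormedSpace ℝ E] {g : ℝ × ℝ → E} {u : ℝ × ℝ}
    (hg : ContDiffAt ℝ ∞ g u) (v w : ℝ × ℝ) :
    fderiv ℝ (fderiv ℝ g) u v w = fderiv ℝ (fderiv ℝ g) u w v :=
  (hg.isSymmSndFDerivAt (by
    rw [minSmoothness_of_isRCLikeNormedField]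
    exact (WithTop.coe_le_coe.2 (le_top : (2 : ℕ∞) ≤ ⊤)))).eq v w

/-- The derivative of a smooth map is differentiable. -/
theorem diff2 {E : Type} [NormedAddCommGroup E] [NormedSpace ℝ E] {g : ℝ × ℝ → E} {u : ℝ × ℝ}
    (hg : ContDiffAt ℝ ∞ g u) : DifferentiableAt ℝ (fderiv ℝ g) u :=
  (hg.fderiv_right (m := 1) (WithTop.coe_le_coe.2 (le_top : (1 + 1 : ℕ∞) ≤ ⊤))).differentiableAt (by simp)

end LAG

theorem t_LAG : Stmt_LAG := by
  intro U φ h hU hφ hh heq u hu v w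
  have hUn : U ∈ 𝓝 u := hU.mem_nhds hu
  have cφ : ContDiffAt ℝ ∞ φ u := hφ.contDiffAt hUn
  have ch : ContDiffAt ℝ ∞ h u := hh.contDiffAt hUn
  have dφ : DifferentiableAt ℝ φ u := cφ.differentiableAt (by simp)
  have hφd : HasFDerivAt φ (fderiv ℝ φ u) u := dφ.hasFDerivAt
  have hφ2 : HasFDerivAt (fderiv ℝ φ) (fderiv ℝ (fderiv ℝ φ) u) u := (LAG.diff2 cφ).hasFDerivAt
  have hh2 : HasFDerivAt (fderiv ℝ h) (fderiv ℝ (fderiv ℝ h) u) u := (LAG.diff2 ch).hasFDerivAt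
  -- the derivative of `x ↦ lam (φ x) (dφ x b)` in the direction `a`
  have key : ∀ a b : ℝ × ℝ, fderiv ℝ (fderiv ℝ h) u a b =
      Real.exp (φ u).1 * (fderiv ℝ φ u a).1 * LC.alpha (φ u).2 (fderiv ℝ φ u b).2 +
      Real.exp (φ u).1 * ((fderiv ℝ (fderiv ℝ φ) u a b).2.2.2 -
        ((fderiv ℝ φ u a).2.2.1 * (fderiv ℝ φ u b).2.1 +
          (φ u).2.2.1 * (fderiv ℝ (fderiv ℝ φ) u a b).2.1)) := by
    intro a b
    have e1 : (fun x => fderiv ℝ h x b) =ᶠ[𝓝 u] fun x => LC.lam (φ x) (fderiv ℝ φ x b) := by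
      filter_upwards [hUn] with x hx using heq x hx b
    have l1 : HasFDerivAt (fun x => fderiv ℝ h x b)
        ((ContinuousLinearMap.apply ℝ ℝ b).comp (fderiv ℝ (fderiv ℝ h) u)) u :=
      (ContinuousLinearMap.apply ℝ ℝ b).hasFDerivAt.comp u hh2
    -- line restriction
    have hline : HasDerivAt (fun t : ℝ => u + t • a) a 0 := by
      have := ((hasDerivAt_id (0 : ℝ)).smul_const a).const_add u
      simpa using this
    have hu0 : u + (0 : ℝ) • a = u := by simp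
    have d1 : HasDerivAt (fun t : ℝ => fderiv ℝ h (u + t • a) b)
        (fderiv ℝ (fderiv ℝ h) u a b) 0 := by
      have l1' : HasFDerivAt (fun x => fderiv ℝ h x b)
        ((ContinuousLinearMap.apply ℝ ℝ b).comp (fderiv ℝ (fderiv ℝ h) u)) (u + (0 : ℝ) • a) := by
        rw [hu0]; exact l1
      exact l1'.comp_hasDerivAt 0 hline
    have dφl : HasDerivAt (fun t : ℝ => φ (u + t • a)) (fderiv ℝ φ u a) 0 := by
      have l1' : HasFDerivAt φ (fderiv ℝ φ u) (u + (0 : ℝ) • a) := by rw [hu0]; exact hφd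
      exact l1'.comp_hasDerivAt 0 hline
    have l2 : HasFDerivAt (fun x => fderiv ℝ φ x b)
        ((ContinuousLinearMap.apply ℝ LC.R4 b).comp (fderiv ℝ (fderiv ℝ φ) u)) u :=
      (ContinuousLinearMap.apply ℝ LC.R4 b).hasFDerivAt.comp u hφ2
    have d2 : HasDerivAt (fun t : ℝ => fderiv ℝ φ (u + t • a) b)
        (fderiv ℝ (fderiv ℝ φ) u a b) 0 := by
      have l2' : HasFDerivAt (fun x => fderiv ℝ φ x b)
        ((ContinuousLinearMap.apply ℝ LC.R4 b).comp (fderiv ℝ (fderiv ℝ φ) u))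
          (u + (0 : ℝ) • a) := by
        rw [hu0]; exact l2
      exact l2'.comp_hasDerivAt 0 hline
    -- coordinates
    have ct : HasDerivAt (fun t : ℝ => (φ (u + t • a)).1) (fderiv ℝ φ u a).1 0 :=
      (ContinuousLinearMap.fst ℝ ℝ LC.R3).hasFDerivAt.comp_hasDerivAt 0 dφl
    have c2 : HasDerivAt (fun t : ℝ => (φ (u + t • a)).2) (fderiv ℝ φ u a).2 0 :=
      (ContinuousLinearMap.snd ℝ ℝ LC.R3).hasFDerivAt.comp_hasDerivAt 0 dφl
    have c22 : HasDerivAt (fun t : ℝ => (φ (u + t • a)).2.2) (fderiv ℝ φ u a).2.2 0 :=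
      (ContinuousLinearMap.snd ℝ ℝ (ℝ × ℝ)).hasFDerivAt.comp_hasDerivAt 0 c2
    have cy : HasDerivAt (fun t : ℝ => (φ (u + t • a)).2.2.1) (fderiv ℝ φ u a).2.2.1 0 :=
      (ContinuousLinearMap.fst ℝ ℝ ℝ).hasFDerivAt.comp_hasDerivAt 0 c22
    have b2 : HasDerivAt (fun t : ℝ => (fderiv ℝ φ (u + t • a) b).2)
        (fderiv ℝ (fderiv ℝ φ) u a b).2 0 :=
      (ContinuousLinearMap.snd ℝ ℝ LC.R3).hasFDerivAt.comp_hasDerivAt 0 d2
    have bx : HasDerivAt (fun t : ℝ => (fderiv ℝ φ (u + t • a) b).2.1)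
        (fderiv ℝ (fderiv ℝ φ) u a b).2.1 0 :=
      (ContinuousLinearMap.fst ℝ ℝ (ℝ × ℝ)).hasFDerivAt.comp_hasDerivAt 0 b2
    have b22 : HasDerivAt (fun t : ℝ => (fderiv ℝ φ (u + t • a) b).2.2)
        (fderiv ℝ (fderiv ℝ φ) u a b).2.2 0 :=
      (ContinuousLinearMap.snd ℝ ℝ (ℝ × ℝ)).hasFDerivAt.comp_hasDerivAt 0 b2
    have bz : HasDerivAt (fun t : ℝ => (fderiv ℝ φ (u + t • a) b).2.2.2)
        (fderiv ℝ (fderiv ℝ φ) u a b).2.2.2 0 :=
      (ContinuousLinearMap.snd ℝ ℝ ℝ).hasFDerivAt.comp_hasDerivAt 0 b22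
    have d3 := (ct.exp).mul (bz.sub (cy.mul bx))
    have e2 : (fun t : ℝ => fderiv ℝ h (u + t • a) b) =ᶠ[𝓝 0]
        fun t : ℝ => Real.exp (φ (u + t • a)).1 * ((fderiv ℝ φ (u + t • a) b).2.2.2 -
          (φ (u + t • a)).2.2.1 * (fderiv ℝ φ (u + t • a) b).2.1) := by
      have hc : Tendsto (fun t : ℝ => u + t • a) (𝓝 0) (𝓝 u) := by
        have := hline.continuousAt.tendsto
        rwa [hu0] at this
      filter_upwards [hc.eventually e1] with t ht
      rw [ht]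
      rfl
    have d4 := d1.congr_of_eventuallyEq e2.symm
    have := d4.unique d3
    rw [this]
    simp only [hu0, Pi.sub_apply, Pi.mul_apply, LC.alpha]
  have k1 := key v w
  have k2 := key w v
  have s1 := LAG.symm ch v w
  have s2 := LAG.symm cφ v w
  rw [k1, k2, s2] at s1
  simp only [LC.omega]
  linarith
end LCA
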