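import Pool.Agent.LCA.Stmts4

/-!
# Part A, LNP: the slopes during a linear motion
-/

namespace LCA

open Set Filter
open scoped ContDiff Topology

namespace LNP

theorem alg {x y vx vy f g vf vg T s : ℝ}
    (h' : 0 < (y + T * vy) - (x + T * vx)) (hs : 0 < (y + s * vy) - (x + s * vx))
    {p d : ℝ} (hp : p = ((g + T * vg) - (f + T * vf)) / ((y + T * vy) - (x + T * vx)))
    (hd : d = (vg - vf - p * (vy - vx)) / ((y + T * vy) - (x + T * vx)))
    (h1 : d * vx = 0) (h2 : d * vy = 0) :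
    ((g + s * vg) - (f + s * vf)) / ((y + s * vy) - (x + s * vx)) = p + (s - T) * d ∧
    (vg - vf - (p + (s - T) * d) * (vy - vx)) / ((y + s * vy) - (x + s * vx)) = d ∧
    vf - d * (x + s * vx) - (p + (s - T) * d) * vx = vf - d * (x + T * vx) - p * vx := by
  have hp' : p * ((y + T * vy) - (x + T * vx)) = (g + T * vg) - (f + T * vf) := by
    rw [hp, div_mul_cancel₀ _ h'.ne']
  have hd' : d * ((y + T * vy) - (x + T * vx)) = vg - vf - p * (vy - vx) := by
    rw [hd, div_mul_cancel₀ _ h'.ne']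
  refine ⟨?_, ?_, ?_⟩
  · rw [div_eq_iff hs.ne']
    linear_combination (-1 : ℝ) * hp' - (s - T) * hd' - (s - T) ^ 2 * h2 + (s - T) ^ 2 * h1
  · rw [div_eq_iff hs.ne']
    linear_combination (-1 : ℝ) * hd' - 2 * (s - T) * h2 + 2 * (s - T) * h1
  · linear_combination (-2 : ℝ) * (s - T) * h1

end LNP

theorem t_LNP : Stmt_LNP := by
  intro m n c T Q Q' V' h e s hs
  have h' := h.len' e
  have h1 := h.fl e
  have h2 := h.fr e
  have hm := h.move
  subst hm
  have key := LNP.alg (x := Q.1 (c.lf e)) (y := Q.1 (c.rt e)) (vx := V'.1 (c.lf e))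
    (vy := V'.1 (c.rt e)) (f := Q.2 (c.lf e)) (g := Q.2 (c.rt e)) (vf := V'.2 (c.lf e))
    (vg := V'.2 (c.rt e)) (T := T) (s := s) (sub_pos.mpr h') (sub_pos.mpr hs)
    (p := c.pe (Q + T • V') e) (d := c.dpe (Q + T • V') V' e) rfl rfl h1 h2
  have k1 : c.pe (Q + s • V') e = c.pe (Q + T • V') e + (s - T) * c.dpe (Q + T • V') V' e := key.1
  have k2 : c.dpe (Q + s • V') V' e = c.dpe (Q + T • V') V' e := by
    have : c.dpe (Q + s • V') V' e = (V'.2 (c.rt e) - V'.2 (c.lf e) -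
      c.pe (Q + s • V') e * (V'.1 (c.rt e) - V'.1 (c.lf e))) /
      ((Q + s • V').1 (c.rt e) - (Q + s • V').1 (c.lf e)) := rfl
    rw [this, k1]
    exact key.2.1
  refine ⟨k1, k2, ?_⟩
  have : c.dae (Q + s • V') V' e = V'.2 (c.lf e) - c.dpe (Q + s • V') V' e *
    (Q + s • V').1 (c.lf e) - c.pe (Q + s • V') e * V'.1 (c.lf e) := rfl
  rw [this, k2, k1]
  exact key.2.2

end LCA
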