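import Pool.Agent.LCA.Stmts1

/-!
# MOV: linear motion
-/

namespace LCA

open Set Filter
open scoped ContDiff Topology

namespace MOV

/-- The linear motion is continuous. -/
theorem continuous_lin {n : ℕ} (Q V : St n) (t : ℝ) : Continuous (lin Q V t) := by
  unfold lin
  fun_prop

/-- The linear motion is smooth. -/
theorem contDiff_lin {n : ℕ} (Q V : St n) (t : ℝ) : ContDiff ℝ ∞ (lin Q V t) := by
  unfold lin
  exact contDiff_const.add ((contDiff_id.sub contDiff_const).smul contDiff_const)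

/-- The velocity of the linear motion. -/
theorem deriv_lin {n : ℕ} (Q V : St n) (t s : ℝ) : deriv (lin Q V t) s = V := by
  have h : HasDerivAt (lin Q V t) ((1 : ℝ) • V) s := by
    unfold lin
    exact (((hasDerivAt_id s).sub_const t).smul_const V).const_add Q
  rw [h.deriv, one_smul]

/-- A different base point of the same motion. -/
theorem lin_lin {n : ℕ} (Q V : St n) (t t' : ℝ) : lin (lin Q V t t') V t' = lin Q V t := by
  funext s
  unfold lin
  rw [add_assoc, ← add_smul]
  congr 2
  ring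

end MOV

open MOV in
theorem t_MOV (hOPC : Stmt_OPC) (hCER : Stmt_CER) (hPHG : Stmt_PHG) (hPST : Stmt_PST)
    (hATR : Stmt_ATR) : Stmt_MOV := by
  intro m n K sh c w Q V t t' hc hw hAt htt hcert
  -- the certificates hold on a larger interval
  have hO : IsOpen {s : ℝ | c.Cert w (lin Q V t s) V} := by
    have h := hOPC c w hw
    exact h.preimage (f := fun s : ℝ => ((lin Q V t s, V) : St n × St n))
      ((continuous_lin Q V t).prodMk continuous_const)
  obtain ⟨e1, he1, h1⟩ := Metric.isOpen_iff.1 hO t (hcert t ⟨le_rfl, htt.le⟩)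
  obtain ⟨e2, he2, h2⟩ := Metric.isOpen_iff.1 hO t' (hcert t' ⟨htt.le, le_rfl⟩)
  obtain ⟨e, he, he1', he2'⟩ : ∃ e : ℝ, 0 < e ∧ e ≤ e1 ∧ e ≤ e2 :=
    ⟨min e1 e2, lt_min he1 he2, min_le_left _ _, min_le_right _ _⟩
  have hJ : ∀ s ∈ Ioo (t - e) (t' + e), c.Cert w (lin Q V t s) V := by
    intro s hs
    rcases lt_or_ge s t with h | h
    · refine h1 ?_
      rw [Metric.mem_ball, Real.dist_eq, abs_lt]
      constructor <;> linarith [hs.1, hs.2]
    · rcases le_or_gt s t' with h' | h'
      · exact hcert s ⟨h, h'⟩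
      · refine h2 ?_
        rw [Metric.mem_ball, Real.dist_eq, abs_lt]
        constructor <;> linarith [hs.1, hs.2]
  have hprof : ∀ i, ProfOK (Ioo (t - e) (t' + e)) (c.ty i)
      (fun s => c.dl (lin Q V t s) i) (c.sp sh i) := by
    intro i
    exact hPST sh _ _ _ fun s hs h => (hJ s hs).tip i h
  have hph : IsPhase c w (Ioo (t - e) (t' + e)) (c.sp sh) (lin Q V t) := by
    refine ⟨hc, hw, isOpen_Ioo, ordConnected_Ioo, (contDiff_lin Q V t).contDiffOn, hprof, ?_⟩
    intro s hs
    rw [deriv_lin]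
    exact hCER c w (c.sp sh) s _ _ hc hw (fun i => (hprof i).bd s hs) (hJ s hs)
  obtain ⟨hg, hd, -⟩ := hPHG c w _ _ _ hph
  refine hATR K sh c w Q V t c w (lin Q V t t') V t' e (c.surf w (c.sp sh) (lin Q V t)) htt he
    hAt hg hd (fun q _ => Iff.rfl) ?_
  rw [lin_lin]
  exact fun q _ => Iff.rfl

end LCA
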