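import Pool.Agent.LCA.Stmts1

/-!
# MVP: motion with moving profiles
-/

namespace LCA

open Set Filter
open scoped ContDiff Topology

theorem MVP.hasDerivAt_lin {n : ℕ} (Q V : St n) (t s : ℝ) : HasDerivAt (lin Q V t) V s := by
  have h1 : HasDerivAt (fun r : ℝ => (r - t) • V) V s := by
    simpa using ((hasDerivAt_id s).sub_const t).smul_const V
  exact h1.const_add Q

theorem MVP.contDiff_lin {n : ℕ} (Q V : St n) (t : ℝ) : ContDiff ℝ ∞ (lin Q V t) := by
  unfold lin
  exact contDiff_const.add ((contDiff_id.sub contDiff_const).smul contDiff_const)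

theorem MVP.profOK_mono {J J' : Set ℝ} {t : Ty} {D : ℝ → ℝ} {π : Prof} (h : J' ⊆ J)
    (hp : ProfOK J t D π) : ProfOK J' t D π where
  X_smooth := hp.X_smooth.mono (prod_mono h Subset.rfl)
  P_smooth := hp.P_smooth.mono (prod_mono h Subset.rfl)
  Θ_smooth := hp.Θ_smooth.mono (prod_mono h Subset.rfl)
  dΘ s hs := hp.dΘ s (h hs)
  Y_eq s hs := hp.Y_eq s (h hs)
  bd s hs := hp.bd s (h hs)
  imm s hs := hp.imm s (h hs)
  inj s hs := hp.inj s (h hs)

theorem MVP.exists_nhd {U : Set ℝ} (hU : IsOpen U) (t : ℝ) (h : Icc t (t + 1) ⊆ U) :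
    ∃ δ > 0, Ioo (t - δ) (t + 1 + δ) ⊆ U := by
  obtain ⟨δ, hδ, hsub⟩ := isCompact_Icc.exists_thickening_subset_open hU h
  refine ⟨δ, hδ, fun s hs => ?_⟩
  by_cases h1 : s < t
  · refine hsub (Metric.mem_thickening_iff.2 ⟨t, ⟨le_rfl, by linarith⟩, ?_⟩)
    rw [Real.dist_eq, abs_lt]
    constructor <;> linarith [hs.1]
  · by_cases h2 : t + 1 < s
    · refine hsub (Metric.mem_thickening_iff.2 ⟨t + 1, ⟨by linarith, le_rfl⟩, ?_⟩)
      rw [Real.dist_eq, abs_lt]
      constructor <;> linarith [hs.2]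
    · exact h ⟨not_lt.1 h1, not_lt.1 h2⟩

/-- MVP. -/
theorem t_MVP (hOPC : Stmt_OPC) (hCER : Stmt_CER) (hPHG : Stmt_PHG) : Stmt_MVP := by
  intro m n c w Q V t ε π hval hw hε hcert hprof
  have hU : IsOpen {s : ℝ | c.Cert w (lin Q V t s) V} := by
    have hcont : Continuous (fun s : ℝ => ((lin Q V t s, V) : St n × St n)) :=
      (MVP.contDiff_lin Q V t).continuous.prodMk continuous_const
    exact (hOPC c w hw).preimage hcont
  obtain ⟨δ, hδ, hsub⟩ := MVP.exists_nhd hU t (fun s hs => hcert s hs)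
  have hε' : 0 < min ε δ := lt_min hε hδ
  have hJ1 : Ioo (t - min ε δ) (t + 1 + min ε δ) ⊆ Ioo (t - ε) (t + 1 + ε) := fun s hs =>
    ⟨by linarith [hs.1, min_le_left ε δ], by linarith [hs.2, min_le_left ε δ]⟩
  have hJ2 : Ioo (t - min ε δ) (t + 1 + min ε δ) ⊆ Ioo (t - δ) (t + 1 + δ) := fun s hs =>
    ⟨by linarith [hs.1, min_le_right ε δ], by linarith [hs.2, min_le_right ε δ]⟩
  have hphase : IsPhase c w (Ioo (t - min ε δ) (t + 1 + min ε δ)) π (lin Q V t) :=
    { valid := hval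
      wpos := hw
      openJ := isOpen_Ioo
      conn := ordConnected_Ioo
      smooth := (MVP.contDiff_lin Q V t).contDiffOn
      prof := fun i => MVP.profOK_mono hJ1 (hprof i)
      adm := by
        intro s hs
        rw [(MVP.hasDerivAt_lin Q V t s).deriv]
        exact hCER c w π s (lin Q V t s) V hval hw (fun i => (hprof i).bd s (hJ1 hs))
          (hsub (hJ2 hs)) }
  obtain ⟨hg, hd, -⟩ := hPHG c w _ π (lin Q V t) hphase
  exact ⟨min ε δ, hε', min_le_left ε δ, hg, hd⟩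

end LCA
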