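import Pool.Agent.LCA.Stmts1

/-!
# OPC: the certificates are open conditions
-/

namespace LCA

open Set Filter
open scoped ContDiff Topology

namespace OPC

variable {m n : ℕ} (c : Comb m n) (a : St n × St n)

theorem cx (i : Fin n) : ContinuousAt (fun b : St n × St n => b.1.1 i) a := by fun_prop

theorem cF (i : Fin n) : ContinuousAt (fun b : St n × St n => b.1.2 i) a := by fun_prop

theorem cvx (i : Fin n) : ContinuousAt (fun b : St n × St n => b.2.1 i) a := by fun_prop

theorem cvF (i : Fin n) : ContinuousAt (fun b : St n × St n => b.2.2 i) a := by fun_prop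

variable (hne : ∀ e, a.1.1 (c.rt e) - a.1.1 (c.lf e) ≠ 0)

include hne

theorem cpe (e : Fin m) : ContinuousAt (fun b : St n × St n => c.pe b.1 e) a :=
  ContinuousAt.div ((cF a _).sub (cF a _)) ((cx a _).sub (cx a _)) (hne e)

theorem cae (e : Fin m) : ContinuousAt (fun b : St n × St n => c.ae b.1 e) a :=
  (cF a _).sub ((cpe c a hne e).mul (cx a _))

theorem cdpe (e : Fin m) : ContinuousAt (fun b : St n × St n => c.dpe b.1 b.2 e) a :=
  ContinuousAt.div (((cvF a _).sub (cvF a _)).sub ((cpe c a hne e).mul ((cvx a _).sub (cvx a _))))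
    ((cx a _).sub (cx a _)) (hne e)

theorem cdae (e : Fin m) : ContinuousAt (fun b : St n × St n => c.dae b.1 b.2 e) a :=
  ((cvF a _).sub ((cdpe c a hne e).mul (cx a _))).sub ((cpe c a hne e).mul (cvx a _))

theorem cdl (i : Fin n) : ContinuousAt (fun b : St n × St n => c.dl b.1 i) a :=
  (cpe c a hne _).sub (cpe c a hne _)

theorem cplo (i : Fin n) : ContinuousAt (fun b : St n × St n => c.plo b.1 i) a :=
  (cpe c a hne _).min (cpe c a hne _)

theorem cphi (i : Fin n) : ContinuousAt (fun b : St n × St n => c.phi b.1 i) a :=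
  (cpe c a hne _).max (cpe c a hne _)

theorem cerr (w : Fin n → ℝ) (i : Fin n) :
    ContinuousAt (fun b : St n × St n => c.err w b.1 b.2 i) a :=
  continuousAt_const.mul (((continuousAt_const.mul (cdpe c a hne _).abs).add
    (continuousAt_const.mul ((cdpe c a hne _).sub (cdpe c a hne _)).abs)).add
    (continuousAt_const.mul (cdl c a hne _).abs))

theorem cDee (e e' : Fin m) (x : St n × St n → ℝ) (hx : ContinuousAt x a) :
    ContinuousAt (fun b : St n × St n => c.Dee b.1 b.2 e e' (x b)) a :=
  (((cdpe c a hne e).mul hx).add (cdae c a hne e)).sub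
    (((cdpe c a hne e').mul hx).add (cdae c a hne e'))

theorem cDve (i : Fin n) (e : Fin m) :
    ContinuousAt (fun b : St n × St n => c.Dve b.1 b.2 i e) a :=
  ((cvF a i).sub ((cpe c a hne e).mul (cvx a i))).sub
    (((cdpe c a hne e).mul (cx a i)).add (cdae c a hne e))

omit hne in
theorem cDvv (i j : Fin n) (p : St n × St n → ℝ) (hp : ContinuousAt p a) :
    ContinuousAt (fun b : St n × St n => Dvv b.2 i j (p b)) a :=
  ((cvF a i).sub (hp.mul (cvx a i))).sub ((cvF a j).sub (hp.mul (cvx a j)))

theorem eZee (e e' : Fin m) (σ : ℝ) (h : c.Zee a.1 a.2 e e' σ) :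
    ∀ᶠ b in 𝓝 a, c.Zee b.1 b.2 e e' σ := by
  have h1 := (continuousAt_const (y := σ)).mul
    (cDee c a hne e e' (fun b => max (b.1.1 (c.lf e)) (b.1.1 (c.lf e'))) ((cx a _).max (cx a _)))
  have h2 := (continuousAt_const (y := σ)).mul
    (cDee c a hne e e' (fun b => min (b.1.1 (c.rt e)) (b.1.1 (c.rt e'))) ((cx a _).min (cx a _)))
  exact ((continuousAt_const (y := (0 : ℝ))).eventually_lt h1 h.1).and
    ((continuousAt_const (y := (0 : ℝ))).eventually_lt h2 h.2)

theorem eSee (w : Fin n → ℝ) (e e' : Fin m) (h : c.See w a.1 e e') :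
    ∀ᶠ b in 𝓝 a, c.See w b.1 e e' := by
  rcases h with h | h | h
  · have := ((cx a (c.rt e)).sub continuousAt_const).eventually_lt
      ((cx a (c.lf e')).add (continuousAt_const (y := 2 * w (c.lf e')))) h
    filter_upwards [this] with b hb
    exact Or.inl hb
  · have := ((cx a (c.rt e')).sub continuousAt_const).eventually_lt
      ((cx a (c.lf e)).add (continuousAt_const (y := 2 * w (c.lf e)))) h
    filter_upwards [this] with b hb
    exact Or.inr (Or.inl hb)
  · have := ((cpe c a hne e).sub (cpe c a hne e')).eventually_ne (sub_ne_zero.mpr h)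
    filter_upwards [this] with b hb
    exact Or.inr (Or.inr (sub_ne_zero.mp hb))

theorem eZvv (w : Fin n → ℝ) (i j : Fin n) (σ : ℝ) (h : c.Zvv w a.1 a.2 i j σ) :
    ∀ᶠ b in 𝓝 a, c.Zvv w b.1 b.2 i j σ := by
  have h0 := (cerr c a hne w i).add (cerr c a hne w j)
  have h1 := (continuousAt_const (y := σ)).mul
    (cDvv a i j (fun b => max (c.plo b.1 i) (c.plo b.1 j)) ((cplo c a hne i).max (cplo c a hne j)))
  have h2 := (continuousAt_const (y := σ)).mul
    (cDvv a i j (fun b => min (c.phi b.1 i) (c.phi b.1 j)) ((cphi c a hne i).min (cphi c a hne j)))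
  exact (h0.eventually_lt h1 h.1).and (h0.eventually_lt h2 h.2)

theorem eSvv (w : Fin n → ℝ) (i j : Fin n) (h : c.Svv w a.1 i j) :
    ∀ᶠ b in 𝓝 a, c.Svv w b.1 i j := by
  rcases h with h | h | h | h
  · have := (continuousAt_const (y := 2 * (w i + w j))).eventually_lt ((cx a j).sub (cx a i)) h
    filter_upwards [this] with b hb
    exact Or.inl hb
  · have := (continuousAt_const (y := 2 * (w i + w j))).eventually_lt ((cx a i).sub (cx a j)) h
    filter_upwards [this] with b hb
    exact Or.inr (Or.inl hb)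
  · have := (cphi c a hne i).eventually_lt (cplo c a hne j) h
    filter_upwards [this] with b hb
    exact Or.inr (Or.inr (Or.inl hb))
  · have := (cphi c a hne j).eventually_lt (cplo c a hne i) h
    filter_upwards [this] with b hb
    exact Or.inr (Or.inr (Or.inr hb))

theorem eZve (w : Fin n → ℝ) (i : Fin n) (e : Fin m) (σ : ℝ) (h : c.Zve w a.1 a.2 i e σ) :
    ∀ᶠ b in 𝓝 a, c.Zve w b.1 b.2 i e σ := by
  have h0 := (cerr c a hne w i).add
    ((continuousAt_const (y := 2 * w i)).mul (cdpe c a hne e).abs)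
  have h1 := (continuousAt_const (y := σ)).mul (cDve c a hne i e)
  exact h0.eventually_lt h1 h

theorem eSve (w : Fin n → ℝ) (i : Fin n) (e : Fin m) (h : c.Sve w a.1 i e) :
    ∀ᶠ b in 𝓝 a, c.Sve w b.1 i e := by
  rcases h with h | h | h | h
  · have := ((cx a i).add (continuousAt_const (y := 2 * w i))).eventually_lt
      ((cx a (c.lf e)).add (continuousAt_const (y := 2 * w (c.lf e)))) h
    filter_upwards [this] with b hb
    exact Or.inl hb
  · have := ((cx a (c.rt e)).sub (continuousAt_const (y := 2 * w (c.rt e)))).eventually_lt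
      ((cx a i).sub (continuousAt_const (y := 2 * w i))) h
    filter_upwards [this] with b hb
    exact Or.inr (Or.inl hb)
  · have := (cpe c a hne e).eventually_lt (cplo c a hne i) h
    filter_upwards [this] with b hb
    exact Or.inr (Or.inr (Or.inl hb))
  · have := (cphi c a hne i).eventually_lt (cpe c a hne e) h
    filter_upwards [this] with b hb
    exact Or.inr (Or.inr (Or.inr hb))

end OPC

theorem t_OPC : Stmt_OPC := by
  intro m n c w hw
  rw [isOpen_iff_mem_nhds]
  intro a ha
  have ha' : c.Cert w a.1 a.2 := ha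
  have hne : ∀ e, a.1.1 (c.rt e) - a.1.1 (c.lf e) ≠ 0 := by
    intro e
    have h1 := ha'.len e
    have h2 := hw (c.lf e)
    have h3 := hw (c.rt e)
    exact ne_of_gt (by linarith)
  have e1 : ∀ᶠ b : St n × St n in 𝓝 a, ∀ e,
      2 * (w (c.lf e) + w (c.rt e)) < b.1.1 (c.rt e) - b.1.1 (c.lf e) := by
    rw [eventually_all]
    intro e
    exact (continuousAt_const (y := 2 * (w (c.lf e) + w (c.rt e)))).eventually_lt
      ((OPC.cx a _).sub (OPC.cx a _)) (ha'.len e)
  have e2 : ∀ᶠ b : St n × St n in 𝓝 a, ∀ i, c.ty i ≠ .P → c.dl b.1 i ≠ 0 := by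
    rw [eventually_all]
    intro i
    by_cases hi : c.ty i ≠ .P
    · filter_upwards [(OPC.cdl c a hne i).eventually_ne (ha'.tip i hi)] with b hb _
      exact hb
    · exact Eventually.of_forall fun b h => absurd h hi
  have e3 : ∀ᶠ b : St n × St n in 𝓝 a, ∀ e e', e ≠ e' →
      c.See w b.1 e e' ∨ ∃ σ : ℝ, |σ| = 1 ∧ c.Zee b.1 b.2 e e' σ := by
    rw [eventually_all]
    intro e
    rw [eventually_all]
    intro e'
    by_cases hi : e ≠ e'
    · rcases ha'.ee e e' hi with h | ⟨σ, hσ, h⟩
      · filter_upwards [OPC.eSee c a hne w e e' h] with b hb _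
        exact Or.inl hb
      · filter_upwards [OPC.eZee c a hne e e' σ h] with b hb _
        exact Or.inr ⟨σ, hσ, hb⟩
    · exact Eventually.of_forall fun b h => absurd h hi
  have e4 : ∀ᶠ b : St n × St n in 𝓝 a, ∀ i j, i ≠ j →
      c.Svv w b.1 i j ∨ ∃ σ : ℝ, |σ| = 1 ∧ c.Zvv w b.1 b.2 i j σ := by
    rw [eventually_all]
    intro i
    rw [eventually_all]
    intro j
    by_cases hi : i ≠ j
    · rcases ha'.vv i j hi with h | ⟨σ, hσ, h⟩
      · filter_upwards [OPC.eSvv c a hne w i j h] with b hb _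
        exact Or.inl hb
      · filter_upwards [OPC.eZvv c a hne w i j σ h] with b hb _
        exact Or.inr ⟨σ, hσ, hb⟩
    · exact Eventually.of_forall fun b h => absurd h hi
  have e5 : ∀ᶠ b : St n × St n in 𝓝 a, ∀ i e, c.ea i ≠ e → c.eb i ≠ e →
      c.Sve w b.1 i e ∨ ∃ σ : ℝ, |σ| = 1 ∧ c.Zve w b.1 b.2 i e σ := by
    rw [eventually_all]
    intro i
    rw [eventually_all]
    intro e
    by_cases hi : c.ea i ≠ e
    · by_cases hj : c.eb i ≠ e
      · rcases ha'.ve i e hi hj with h | ⟨σ, hσ, h⟩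
        · filter_upwards [OPC.eSve c a hne w i e h] with b hb _ _
          exact Or.inl hb
        · filter_upwards [OPC.eZve c a hne w i e σ h] with b hb _ _
          exact Or.inr ⟨σ, hσ, hb⟩
      · exact Eventually.of_forall fun b _ h => absurd h hj
    · exact Eventually.of_forall fun b h => absurd h hi
  filter_upwards [e1, e2, e3, e4, e5] with b h1 h2 h3 h4 h5
  exact ⟨h1, h2, h3, h4, h5⟩

end LCA
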