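import Pool.Agent.LCA.Stmts1

/-!
# Part A: charts of a phase
-/

namespace LCA

open Set Filter
open scoped ContDiff Topology

namespace PCH

variable {m n : ℕ} {c : Comb m n} {w : Fin n → ℝ} {J : Set ℝ} {π : Fin n → Prof} {q : ℝ → St n}

/-- The parametrization of the piece of the vertex `i`. -/
noncomputable def gv (c : Comb m n) (w : Fin n → ℝ) (π : Fin n → Prof) (q : ℝ → St n)
    (i : Fin n) (b : ℝ × ℝ) : E5 := (b.1, c.vp w π b.1 (q b.1) (deriv q b.1) i b.2)

/-- The parametrization of the line of the edge `e`. -/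
noncomputable def ge (c : Comb m n) (q : ℝ → St n) (e : Fin m) (b : ℝ × ℝ) : E5 :=
  (b.1, c.ept (q b.1) (deriv q b.1) e b.2)

/-- The piece of the edge `e`. -/
def InE (c : Comb m n) (w : Fin n → ℝ) (q : ℝ → St n) (e : Fin m) (r : E5) : Prop :=
  ∃ x ∈ c.rg w (q r.1) e, r.2 = c.ept (q r.1) (deriv q r.1) e x

theorem Y_low (h : IsPhase c w J π q) (i : Fin n) {s : ℝ} (hs : s ∈ J) {u : ℝ} (hu : u ≤ -1) :
    (π i).Y s u = 0 := by
  rw [(h.prof i).Y_eq s hs u, (((h.prof i).bd s hs).low u hu).2.1, zero_mul, sub_zero]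
  have e : (fun r => (π i).Θ r u) =ᶠ[𝓝 s] fun _ => 0 := by
    filter_upwards [h.openJ.mem_nhds hs] with r hr
    exact (((h.prof i).bd r hr).low u hu).2.2
  rw [e.deriv_eq, deriv_const]

theorem Y_high (h : IsPhase c w J π q) (i : Fin n) {s : ℝ} (hs : s ∈ J) {u : ℝ} (hu : 1 ≤ u) :
    (π i).Y s u = 0 := by
  rw [(h.prof i).Y_eq s hs u]
  have e : (fun r => (π i).Θ r u) =ᶠ[𝓝 s] fun _ => (c.ty i).outX u := by
    filter_upwards [h.openJ.mem_nhds hs] with r hr
    exact (((h.prof i).bd r hr).high u hu).2.2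
  have e' : (fun r => (π i).X r u) =ᶠ[𝓝 s] fun _ => (c.ty i).outX u := by
    filter_upwards [h.openJ.mem_nhds hs] with r hr
    exact (((h.prof i).bd r hr).high u hu).1
  rw [e.deriv_eq, e'.deriv_eq, deriv_const, mul_zero, sub_zero]

theorem abs_inX (t : Ty) (u : ℝ) : |t.inX u| = |u| := by
  cases t <;> simp [Ty.inX]

theorem abs_outX (t : Ty) (u : ℝ) : |t.outX u| = |u| := by
  cases t <;> simp [Ty.outX]

theorem X_lt (h : IsPhase c w J π q) (i : Fin n) {s : ℝ} (hs : s ∈ J) {u : ℝ} (hu : |u| < 2) :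
    |(π i).X s u| < 2 := by
  have hb := (h.prof i).bd s hs
  rcases le_or_gt |u| 1 with h1 | h1
  · exact (hb.X_bd u h1).trans_lt one_lt_two
  · rcases lt_abs.1 h1 with h2 | h2
    · rw [(hb.high u h2.le).1, abs_outX]; exact hu
    · rw [(hb.low u (by linarith)).1, abs_inX]; exact hu

theorem far_a (h : IsPhase c w J π q) (i : Fin n) {s x : ℝ}
    (hx : x ∈ c.rg w (q s) (c.ea i)) : 2 * w i ≤ |x - (q s).1 i| := by
  have hv := h.valid.oka i
  unfold Comb.OKa at hv
  unfold Comb.rg at hx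
  cases hty : c.ty i <;> rw [hty] at hv <;> simp only at hv <;> rw [hv] at hx
  · rw [abs_sub_comm]
    exact le_trans (by linarith [hx.2]) (le_abs_self _)
  · rw [abs_sub_comm]
    exact le_trans (by linarith [hx.2]) (le_abs_self _)
  · exact le_trans (by linarith [hx.1]) (le_abs_self _)

theorem far_b (h : IsPhase c w J π q) (i : Fin n) {s x : ℝ}
    (hx : x ∈ c.rg w (q s) (c.eb i)) : 2 * w i ≤ |x - (q s).1 i| := by
  have hv := h.valid.okb i
  unfold Comb.OKb at hv
  unfold Comb.rg at hx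
  cases hty : c.ty i <;> rw [hty] at hv <;> simp only at hv <;> rw [hv] at hx
  · exact le_trans (by linarith [hx.1]) (le_abs_self _)
  · rw [abs_sub_comm]
    exact le_trans (by linarith [hx.2]) (le_abs_self _)
  · exact le_trans (by linarith [hx.1]) (le_abs_self _)

theorem meet_of_eq {a b : ℝ × ℝ × ℝ × ℝ} (h : a = b) : Meet a b := by
  subst h; exact ⟨rfl, rfl, rfl⟩

/-- A point of a vertex with `|u| < 2` is not on an edge. -/
theorem not_edge (h : IsPhase c w J π q) (i : Fin n) {s : ℝ} (hs : s ∈ J) {u : ℝ} (hu : |u| < 2)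
    (e : Fin m) {x : ℝ} (hx : x ∈ c.rg w (q s) e) :
    c.vp w π s (q s) (deriv q s) i u ≠ c.ept (q s) (deriv q s) e x := by
  intro heq
  have hd : ¬ 2 * w i ≤ |x - (q s).1 i| := by
    have h1 : (q s).1 i + w i * (π i).X s u = x := congrArg Prod.fst heq
    rw [← h1, add_sub_cancel_left, abs_mul, abs_of_pos (h.wpos i), not_le]
    nlinarith [X_lt h i hs hu, h.wpos i]
  by_cases ha : c.ea i = e
  · subst ha; exact hd (far_a h i hx)
  by_cases hb : c.eb i = e
  · subst hb; exact hd (far_b h i hx)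
  exact (h.adm s hs).ve i e ha hb u hu.le x hx (meet_of_eq heq)

theorem len_pos (h : IsPhase c w J π q) {s : ℝ} (hs : s ∈ J) (e : Fin m) :
    (q s).1 (c.lf e) < (q s).1 (c.rt e) := by
  have h1 := (h.adm s hs).len e
  linarith [h.wpos (c.lf e), h.wpos (c.rt e)]

theorem vlo (hVLN : Stmt_VLN) (h : IsPhase c w J π q) (i : Fin n) {s : ℝ} (hs : s ∈ J) {u : ℝ}
    (hu : u ≤ -1) : c.vp w π s (q s) (deriv q s) i u =
      c.ept (q s) (deriv q s) (c.ea i) ((q s).1 i + w i * (c.ty i).inX u) :=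
  (hVLN c w π s (q s) (deriv q s) i h.valid (fun i => (h.prof i).bd s hs)
    (fun e => len_pos h hs e)).1 u hu (Y_low h i hs hu)

theorem vhi (hVLN : Stmt_VLN) (h : IsPhase c w J π q) (i : Fin n) {s : ℝ} (hs : s ∈ J) {u : ℝ}
    (hu : 1 ≤ u) : c.vp w π s (q s) (deriv q s) i u =
      c.ept (q s) (deriv q s) (c.eb i) ((q s).1 i + w i * (c.ty i).outX u) :=
  (hVLN c w π s (q s) (deriv q s) i h.valid (fun i => (h.prof i).bd s hs)
    (fun e => len_pos h hs e)).2 u hu (Y_high h i hs hu)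

theorem rg_ends (h : IsPhase c w J π q) {s : ℝ} (hs : s ∈ J) (e : Fin m) :
    (q s).1 (c.lf e) + 2 * w (c.lf e) ∈ c.rg w (q s) e ∧
      (q s).1 (c.rt e) - 2 * w (c.rt e) ∈ c.rg w (q s) e := by
  have h1 := (h.adm s hs).len e
  unfold Comb.rg
  exact ⟨⟨le_rfl, by linarith⟩, ⟨by linarith, le_rfl⟩⟩

/-- The junction of the vertex `i` and the edge `ea i`. -/
theorem junc_a (h : IsPhase c w J π q) (i : Fin n) {s : ℝ}
    (hs : s ∈ J) : (q s).1 i + w i * (c.ty i).inX (-2) ∈ c.rg w (q s) (c.ea i) := by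
  have hv := h.valid.oka i
  have he := rg_ends h hs (c.ea i)
  unfold Comb.OKa at hv
  cases hty : c.ty i <;> rw [hty] at hv <;> simp only at hv <;> rw [hv] at he
  · have e1 : (q s).1 i + w i * Ty.P.inX (-2) = (q s).1 i - 2 * w i := by
      simp only [Ty.inX]; ring
    rw [e1]; exact he.2
  · have e1 : (q s).1 i + w i * Ty.R.inX (-2) = (q s).1 i - 2 * w i := by
      simp only [Ty.inX]; ring
    rw [e1]; exact he.2
  · have e1 : (q s).1 i + w i * Ty.L.inX (-2) = (q s).1 i + 2 * w i := by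
      simp only [Ty.inX]; ring
    rw [e1]; exact he.1

/-- The junction of the vertex `i` and the edge `eb i`. -/
theorem junc_b (h : IsPhase c w J π q) (i : Fin n) {s : ℝ}
    (hs : s ∈ J) : (q s).1 i + w i * (c.ty i).outX 2 ∈ c.rg w (q s) (c.eb i) := by
  have hv := h.valid.okb i
  have he := rg_ends h hs (c.eb i)
  unfold Comb.OKb at hv
  cases hty : c.ty i <;> rw [hty] at hv <;> simp only at hv <;> rw [hv] at he
  · have e1 : (q s).1 i + w i * Ty.P.outX 2 = (q s).1 i + 2 * w i := by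
      simp only [Ty.outX]; ring
    rw [e1]; exact he.1
  · have e1 : (q s).1 i + w i * Ty.R.outX 2 = (q s).1 i - 2 * w i := by
      simp only [Ty.outX]; ring
    rw [e1]; exact he.2
  · have e1 : (q s).1 i + w i * Ty.L.outX 2 = (q s).1 i + 2 * w i := by
      simp only [Ty.outX]; ring
    rw [e1]; exact he.1

/-- The line of an edge slightly outside its range, at the left end. -/
theorem edge_left (hVLN : Stmt_VLN) (h : IsPhase c w J π q) {s : ℝ} (hs : s ∈ J) (e : Fin m)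
    {x : ℝ} (h1 : (q s).1 (c.lf e) + w (c.lf e) ≤ x) (h2 : x ≤ (q s).1 (c.lf e) + 2 * w (c.lf e)) :
    ∃ i u, |u| ≤ 2 ∧ c.ept (q s) (deriv q s) e x = c.vp w π s (q s) (deriv q s) i u := by
  have hw := h.wpos (c.lf e)
  set i := c.lf e with hi
  have a1 : 1 ≤ (x - (q s).1 i) / w i := by rw [le_div_iff₀ hw]; linarith
  have a2 : (x - (q s).1 i) / w i ≤ 2 := by rw [div_le_iff₀ hw]; linarith
  have ex : (q s).1 i + w i * ((x - (q s).1 i) / w i) = x := by field_simp; ring
  rcases h.valid.lf e with ⟨hty, hea⟩ | ⟨hty, heb⟩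
  · rw [← hi] at hty hea
    refine ⟨i, -((x - (q s).1 i) / w i), ?_, ?_⟩
    · rw [abs_neg, abs_of_nonneg (by linarith)]; exact a2
    · rw [vlo hVLN h i hs (by linarith), hea, hty]
      simp only [Ty.inX, neg_neg]
      rw [ex]
  · rw [← hi] at hty heb
    refine ⟨i, (x - (q s).1 i) / w i, ?_, ?_⟩
    · rw [abs_of_nonneg (by linarith)]; exact a2
    · rw [vhi hVLN h i hs a1, heb]
      cases hty' : c.ty i
      · simp only [Ty.outX]; rw [ex]
      · exact absurd hty' hty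
      · simp only [Ty.outX]; rw [ex]

/-- The line of an edge slightly outside its range, at the right end. -/
theorem edge_right (hVLN : Stmt_VLN) (h : IsPhase c w J π q) {s : ℝ} (hs : s ∈ J) (e : Fin m)
    {x : ℝ} (h1 : (q s).1 (c.rt e) - 2 * w (c.rt e) ≤ x) (h2 : x ≤ (q s).1 (c.rt e) - w (c.rt e)) :
    ∃ i u, |u| ≤ 2 ∧ c.ept (q s) (deriv q s) e x = c.vp w π s (q s) (deriv q s) i u := by
  have hw := h.wpos (c.rt e)
  set i := c.rt e with hi
  have a1 : (x - (q s).1 i) / w i ≤ -1 := by rw [div_le_iff₀ hw]; linarith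
  have a2 : -2 ≤ (x - (q s).1 i) / w i := by rw [le_div_iff₀ hw]; linarith
  have ex : (q s).1 i + w i * ((x - (q s).1 i) / w i) = x := by field_simp; ring
  rcases h.valid.rt e with ⟨hty, hea⟩ | ⟨hty, heb⟩
  · rw [← hi] at hty hea
    refine ⟨i, (x - (q s).1 i) / w i, ?_, ?_⟩
    · rw [abs_of_nonpos (by linarith)]; linarith
    · rw [vlo hVLN h i hs a1, hea]
      cases hty' : c.ty i
      · simp only [Ty.inX]; rw [ex]
      · simp only [Ty.inX]; rw [ex]
      · exact absurd hty' hty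
  · rw [← hi] at hty heb
    refine ⟨i, -((x - (q s).1 i) / w i), ?_, ?_⟩
    · rw [abs_neg, abs_of_nonpos (by linarith)]; linarith
    · rw [vhi hVLN h i hs (by linarith), heb, hty]
      simp only [Ty.outX, neg_neg]
      rw [ex]

/-- Points near a point which is not on the edge `e` are not on this edge. -/
theorem away (hPCL : Stmt_PCL) (h : IsPhase c w J π q) (e : Fin m) {r : E5} (hr : r.1 ∈ J)
    (hn : ¬ InE c w q e r) : ∀ᶠ r' in 𝓝 r, ¬ InE c w q e r' := by
  have h1 := (hPCL c w J π q h {e} ∅).1 r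
  set A : Set E5 := {r | (∃ e_1 ∈ ({e} : Set (Fin m)), ∃ x ∈ c.rg w (q r.1) e_1,
      r.2 = c.ept (q r.1) (deriv q r.1) e_1 x) ∨
      ∃ i ∈ (∅ : Set (Fin n)), ∃ u, |u| ≤ 2 ∧ r.2 = c.vp w π r.1 (q r.1) (deriv q r.1) i u}
    with hA
  have h2 : r ∉ closure A := by
    intro h3
    rcases h1 h3 hr with ⟨e', he', x, hx, hxe⟩ | ⟨i, hi, -⟩
    · rw [mem_singleton_iff] at he'
      subst he'
      exact hn ⟨x, hx, hxe⟩
    · exact hi
  filter_upwards [isClosed_closure.isOpen_compl.mem_nhds h2] with r' hr'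
  rintro ⟨x, hx, hxe⟩
  exact hr' (subset_closure (Or.inl ⟨e, rfl, x, hx, hxe⟩))

/-- Compactness: the points of the piece of a vertex near `r`. -/
theorem near_v (hVEX : Stmt_VEX) (h : IsPhase c w J π q) (i : Fin n) {r : E5} (hr : r.1 ∈ J)
    {P : E5 → Prop} (hP : ∀ u ∈ Icc (-2 : ℝ) 2, gv c w π q i (r.1, u) = r →
      ∀ᶠ b in 𝓝 ((r.1, u) : ℝ × ℝ), P (gv c w π q i b)) :
    ∀ᶠ r' in 𝓝 r, ∀ u ∈ Icc (-2 : ℝ) 2, r' = gv c w π q i (r'.1, u) → P r' := by
  apply isCompact_Icc.eventually_forall_of_forall_eventually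
  intro u hu
  have hc : ContinuousAt (gv c w π q i) ((r.1, u) : ℝ × ℝ) :=
    ((hVEX c w J π q h i r.1 hr u).smooth.self_of_nhds).continuousAt
  have hcm : Continuous (fun z : E5 × ℝ => ((z.1.1, z.2) : ℝ × ℝ)) := by fun_prop
  have hm : Tendsto (fun z : E5 × ℝ => ((z.1.1, z.2) : ℝ × ℝ)) (𝓝 (r, u)) (𝓝 (r.1, u)) :=
    hcm.tendsto' _ _ rfl
  by_cases he : gv c w π q i (r.1, u) = r
  · filter_upwards [hm.eventually (hP u hu he)] with z hz hz'
    rw [hz']; exact hz
  · have h2 : Tendsto (fun z : E5 × ℝ => gv c w π q i (z.1.1, z.2)) (𝓝 (r, u))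
        (𝓝 (gv c w π q i (r.1, u))) := hc.tendsto.comp hm
    have h3 : Tendsto (fun z : E5 × ℝ => z.1) (𝓝 (r, u)) (𝓝 r) := continuous_fst.tendsto' _ _ rfl
    have h4 : Tendsto (fun z : E5 × ℝ => gv c w π q i (z.1.1, z.2) - z.1) (𝓝 (r, u))
        (𝓝 (gv c w π q i (r.1, u) - r)) := h2.sub h3
    filter_upwards [h4.eventually_ne (sub_ne_zero.2 he)] with z hz hz'
    exact absurd (sub_eq_zero.2 hz'.symm) hz

theorem gv_inj (h : IsPhase c w J π q) (i : Fin n) {s : ℝ} (hs : s ∈ J) {u u' : ℝ} (hu : |u| ≤ 2)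
    (hu' : |u'| ≤ 2) (he : gv c w π q i (s, u) = gv c w π q i (s, u')) : u = u' := by
  have h1 : (q s).1 i + w i * (π i).X s u = (q s).1 i + w i * (π i).X s u' :=
    congrArg (fun r : E5 => r.2.1) he
  have h2 : c.pe (q s) (c.ea i) + c.dl (q s) i * (π i).P s u =
      c.pe (q s) (c.ea i) + c.dl (q s) i * (π i).P s u' :=
    congrArg (fun r : E5 => r.2.2.1) he
  exact (h.prof i).inj s hs u u' hu hu'
    (mul_left_cancel₀ (h.wpos i).ne' (add_left_cancel h1)) (add_left_cancel h2)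

/-- Case 1: the interior of the piece of a vertex. -/
theorem case_v (hVEX : Stmt_VEX) (hPCL : Stmt_PCL) (h : IsPhase c w J π q) (i : Fin n) {r : E5}
    (hr : r.1 ∈ J) {u₀ : ℝ} (hu₀ : |u₀| < 2) (he : r = gv c w π q i (r.1, u₀)) :
    ChartAt (c.surf w π q) r := by
  refine ⟨gv c w π q i, (r.1, u₀), hVEX c w J π q h i r.1 hr u₀, he.symm, ?_, ?_⟩
  · have h1 : ∀ᶠ b : ℝ × ℝ in 𝓝 (r.1, u₀), |b.2| < 2 := by
      have hc : Continuous (fun b : ℝ × ℝ => |b.2|) := by fun_prop
      exact hc.continuousAt.eventually_lt continuousAt_const hu₀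
    filter_upwards [h1] with b hb
    exact Or.inr ⟨i, b.2, hb.le, rfl⟩
  · intro N hN
    have hE : ∀ e, ∀ᶠ r' in 𝓝 r, ¬ InE c w q e r' := by
      intro e
      refine away hPCL h e hr ?_
      rintro ⟨x, hx, hxe⟩
      have h1 : r.2 = c.vp w π r.1 (q r.1) (deriv q r.1) i u₀ := congrArg Prod.snd he
      exact not_edge h i hr hu₀ e hx (h1.symm.trans hxe)
    have hV : ∀ j, ∀ᶠ r' in 𝓝 r, ∀ u ∈ Icc (-2 : ℝ) 2, r' = gv c w π q j (r'.1, u) →
        r' ∈ gv c w π q i '' N := by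
      intro j
      refine near_v hVEX h j hr (P := fun r' => r' ∈ gv c w π q i '' N) ?_
      intro u hu hue
      by_cases hj : j = i
      · subst hj
        have : u = u₀ := gv_inj h j hr (abs_le.2 hu) hu₀.le (hue.trans he)
        subst this
        filter_upwards [hN] with b hb
        exact ⟨b, hb, rfl⟩
      · exact absurd (meet_of_eq (congrArg Prod.snd (hue.trans he)))
          ((h.adm r.1 hr).vv j i hj u u₀ (abs_le.2 hu) hu₀.le)
    have hfin : ∀ᶠ r' in 𝓝 r, r' ∈ c.surf w π q → r' ∈ gv c w π q i '' N := by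
      filter_upwards [eventually_all.2 hE, eventually_all.2 hV] with r' h1 h2 h3
      rcases h3 with ⟨e, x, hx, hxe⟩ | ⟨j, u, hu, hue⟩
      · exact absurd ⟨x, hx, hxe⟩ (h1 e)
      · exact h2 j u (abs_le.1 hu) (Prod.ext rfl hue)
    exact eventually_nhdsWithin_iff.2 hfin

theorem cont_inX (t : Ty) : Continuous t.inX := by
  cases t
  · exact continuous_id
  · exact continuous_id
  · exact continuous_neg

theorem cont_outX (t : Ty) : Continuous t.outX := by
  cases t
  · exact continuous_id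
  · exact continuous_neg
  · exact continuous_id

/-- Case 2: a point of an edge. -/
theorem case_e (hVEX : Stmt_VEX) (hEEX : Stmt_EEX) (hVLN : Stmt_VLN) (hPCL : Stmt_PCL)
    (h : IsPhase c w J π q) (e : Fin m) {r : E5} (hr : r.1 ∈ J) (he : InE c w q e r) :
    ChartAt (c.surf w π q) r := by
  obtain ⟨x₀, hx₀, hxe⟩ := he
  have hrg : r = ge c q e (r.1, x₀) := Prod.ext rfl hxe
  have hx₁ : r.2.1 = x₀ := congrArg Prod.fst hxe
  have hqc : ContinuousAt q r.1 := (h.smooth.contDiffAt (h.openJ.mem_nhds hr)).continuousAt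
  have hqk : ∀ (k : Fin n) (b₀ : ℝ × ℝ), b₀.1 = r.1 →
      ContinuousAt (fun b : ℝ × ℝ => (q b.1).1 k) b₀ := by
    intro k b₀ hb₀
    have h1 : ContinuousAt (fun b : ℝ × ℝ => q b.1) b₀ := by
      apply ContinuousAt.comp (g := q) (f := Prod.fst)
      · rw [hb₀]; exact hqc
      · exact continuous_fst.continuousAt
    have h2 : Continuous (fun a : St n => a.1 k) := by fun_prop
    exact h2.continuousAt.comp h1
  have hJ : ∀ b₀ : ℝ × ℝ, b₀.1 = r.1 → ∀ᶠ b : ℝ × ℝ in 𝓝 b₀, b.1 ∈ J := by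
    intro b₀ hb₀
    have h1 : Tendsto (fun b : ℝ × ℝ => b.1) (𝓝 b₀) (𝓝 r.1) := continuous_fst.tendsto' _ _ hb₀
    exact h1.eventually (h.openJ.mem_nhds hr)
  refine ⟨ge c q e, (r.1, x₀), hEEX c w J π q h e r.1 hr x₀, hrg.symm, ?_, ?_⟩
  · have ev1 : ∀ᶠ b : ℝ × ℝ in 𝓝 (r.1, x₀), (q b.1).1 (c.lf e) + w (c.lf e) < b.2 := by
      refine ContinuousAt.eventually_lt ((hqk _ _ rfl).add continuousAt_const)
        continuous_snd.continuousAt ?_
      have := hx₀.1
      have hw := h.wpos (c.lf e)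
      change (q r.1).1 (c.lf e) + w (c.lf e) < x₀
      linarith
    have ev2 : ∀ᶠ b : ℝ × ℝ in 𝓝 (r.1, x₀), b.2 < (q b.1).1 (c.rt e) - w (c.rt e) := by
      refine ContinuousAt.eventually_lt continuous_snd.continuousAt
        ((hqk _ _ rfl).sub continuousAt_const) ?_
      have := hx₀.2
      have hw := h.wpos (c.rt e)
      change x₀ < (q r.1).1 (c.rt e) - w (c.rt e)
      linarith
    filter_upwards [ev1, ev2, hJ (r.1, x₀) rfl] with b h1 h2 h3
    rcases le_or_gt b.2 ((q b.1).1 (c.lf e) + 2 * w (c.lf e)) with h4 | h4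
    · obtain ⟨i, u, hu, hue⟩ := edge_left hVLN h h3 e h1.le h4
      exact Or.inr ⟨i, u, hu, hue⟩
    rcases le_or_gt ((q b.1).1 (c.rt e) - 2 * w (c.rt e)) b.2 with h5 | h5
    · obtain ⟨i, u, hu, hue⟩ := edge_right hVLN h h3 e h5 h2.le
      exact Or.inr ⟨i, u, hu, hue⟩
    · exact Or.inl ⟨e, b.2, ⟨h4.le, h5.le⟩, rfl⟩
  · intro N hN
    -- the edge itself
    have hE0 : ∀ᶠ r' in 𝓝 r, InE c w q e r' → r' ∈ ge c q e '' N := by
      have hcm : Continuous (fun r' : E5 => ((r'.1, r'.2.1) : ℝ × ℝ)) := by fun_prop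
      have ht : Tendsto (fun r' : E5 => ((r'.1, r'.2.1) : ℝ × ℝ)) (𝓝 r) (𝓝 (r.1, x₀)) :=
        hcm.tendsto' _ _ (by rw [hx₁])
      filter_upwards [ht.eventually hN] with r' h1 h2
      obtain ⟨x, hx, hxe'⟩ := h2
      have hx' : r'.2.1 = x := congrArg Prod.fst hxe'
      refine ⟨(r'.1, r'.2.1), h1, ?_⟩
      rw [hx']
      exact Prod.ext rfl hxe'.symm
    have hEE : ∀ e', InE c w q e' r → e' = e := by
      rintro e' ⟨x, hx, hxe'⟩
      by_contra hne
      exact (h.adm r.1 hr).ee e' e hne x hx x₀ hx₀ (meet_of_eq (hxe'.symm.trans hxe))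
    have hE : ∀ e', ∀ᶠ r' in 𝓝 r, InE c w q e' r' → r' ∈ ge c q e '' N := by
      intro e'
      by_cases hee : e' = e
      · subst hee; exact hE0
      · filter_upwards [away hPCL h e' hr (fun h1 => hee (hEE e' h1))] with r' h1 h2
        exact absurd h2 h1
    have hV : ∀ j, ∀ᶠ r' in 𝓝 r, ∀ u ∈ Icc (-2 : ℝ) 2, r' = gv c w π q j (r'.1, u) →
        r' ∈ ge c q e '' N := by
      intro j
      refine near_v hVEX h j hr (P := fun r' => r' ∈ ge c q e '' N) ?_
      intro u hu hue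
      have hu2 : r.2 = c.vp w π r.1 (q r.1) (deriv q r.1) j u := congrArg Prod.snd hue.symm
      rcases lt_or_ge |u| 2 with h1 | h1
      · exact absurd (hu2.symm.trans hxe) (not_edge h j hr h1 e hx₀)
      rcases le_abs.1 h1 with h2 | h2
      · have hu' : u = 2 := le_antisymm hu.2 h2
        subst hu'
        have h3 := vhi hVLN h j hr (u := 2) one_le_two
        have h4 : c.eb j = e := hEE _ ⟨_, junc_b h j hr, hu2.trans h3⟩
        have h5 : (q r.1).1 j + w j * (c.ty j).outX 2 = x₀ := by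
          have := congrArg Prod.fst (hu2.trans h3)
          rw [hx₁] at this
          exact this.symm
        have hxc : ContinuousAt (fun b : ℝ × ℝ =>
            ((b.1, (q b.1).1 j + w j * (c.ty j).outX b.2) : ℝ × ℝ)) (r.1, 2) := by
          refine ContinuousAt.prodMk continuous_fst.continuousAt ?_
          exact (hqk j _ rfl).add (continuousAt_const.mul
            ((cont_outX (c.ty j)).comp continuous_snd).continuousAt)
        have ht : ∀ᶠ b : ℝ × ℝ in 𝓝 (r.1, 2),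
            ((b.1, (q b.1).1 j + w j * (c.ty j).outX b.2) : ℝ × ℝ) ∈ N := by
          apply hxc.eventually
          change ∀ᶠ y in 𝓝 ((r.1, (q r.1).1 j + w j * (c.ty j).outX 2) : ℝ × ℝ), y ∈ N
          rw [h5]; exact hN
        have h6 : ∀ᶠ b : ℝ × ℝ in 𝓝 (r.1, 2), 1 < b.2 :=
          continuousAt_const.eventually_lt continuous_snd.continuousAt one_lt_two
        filter_upwards [ht, h6, hJ (r.1, 2) rfl] with b h7 h8 h9
        refine ⟨_, h7, ?_⟩
        refine Prod.ext rfl ?_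
        change c.ept (q b.1) (deriv q b.1) e _ = c.vp w π b.1 (q b.1) (deriv q b.1) j b.2
        rw [vhi hVLN h j h9 h8.le, h4]
      · have hu' : u = -2 := le_antisymm (by linarith) hu.1
        subst hu'
        have h3 := vlo hVLN h j hr (u := -2) (by norm_num)
        have h4 : c.ea j = e := hEE _ ⟨_, junc_a h j hr, hu2.trans h3⟩
        have h5 : (q r.1).1 j + w j * (c.ty j).inX (-2) = x₀ := by
          have := congrArg Prod.fst (hu2.trans h3)
          rw [hx₁] at this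
          exact this.symm
        have hxc : ContinuousAt (fun b : ℝ × ℝ =>
            ((b.1, (q b.1).1 j + w j * (c.ty j).inX b.2) : ℝ × ℝ)) (r.1, -2) := by
          refine ContinuousAt.prodMk continuous_fst.continuousAt ?_
          exact (hqk j _ rfl).add (continuousAt_const.mul
            ((cont_inX (c.ty j)).comp continuous_snd).continuousAt)
        have ht : ∀ᶠ b : ℝ × ℝ in 𝓝 (r.1, -2),
            ((b.1, (q b.1).1 j + w j * (c.ty j).inX b.2) : ℝ × ℝ) ∈ N := by
          apply hxc.eventually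
          change ∀ᶠ y in 𝓝 ((r.1, (q r.1).1 j + w j * (c.ty j).inX (-2)) : ℝ × ℝ), y ∈ N
          rw [h5]; exact hN
        have h6 : ∀ᶠ b : ℝ × ℝ in 𝓝 (r.1, -2), b.2 < -1 :=
          continuous_snd.continuousAt.eventually_lt continuousAt_const
            (show (-2 : ℝ) < -1 by norm_num)
        filter_upwards [ht, h6, hJ (r.1, -2) rfl] with b h7 h8 h9
        refine ⟨_, h7, ?_⟩
        refine Prod.ext rfl ?_
        change c.ept (q b.1) (deriv q b.1) e _ = c.vp w π b.1 (q b.1) (deriv q b.1) j b.2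
        rw [vlo hVLN h j h9 h8.le, h4]
    have hfin : ∀ᶠ r' in 𝓝 r, r' ∈ c.surf w π q → r' ∈ ge c q e '' N := by
      filter_upwards [eventually_all.2 hE, eventually_all.2 hV] with r' h1 h2 h3
      rcases h3 with ⟨e', x, hx, hxe'⟩ | ⟨j, u, hu, hue⟩
      · exact h1 e' ⟨x, hx, hxe'⟩
      · exact h2 j u (abs_le.1 hu) (Prod.ext rfl hue)
    exact eventually_nhdsWithin_iff.2 hfin

end PCH

open PCH in
theorem t_PCH (hVEX : Stmt_VEX) (hEEX : Stmt_EEX) (hVLN : Stmt_VLN) (hPCL : Stmt_PCL)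
    (hPIN : Stmt_PIN) : Stmt_PCH := by
  intro m n c w J π q h r hrA hr
  rcases hrA with ⟨e, x, hx, hxe⟩ | ⟨i, u, hu, hue⟩
  · exact case_e hVEX hEEX hVLN hPCL h e hr ⟨x, hx, hxe⟩
  · rcases lt_or_ge |u| 2 with h1 | h1
    · exact case_v hVEX hPCL h i hr h1 (Prod.ext rfl hue)
    rcases le_abs.1 h1 with h2 | h2
    · have hu' : u = 2 := le_antisymm (abs_le.1 hu).2 h2
      subst hu'
      exact case_e hVEX hEEX hVLN hPCL h (c.eb i) hr
        ⟨_, junc_b h i hr, hue.trans (vhi hVLN h i hr one_le_two)⟩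
    · have hu' : u = -2 := le_antisymm (by linarith) (abs_le.1 hu).1
      subst hu'
      exact case_e hVEX hEEX hVLN hPCL h (c.ea i) hr
        ⟨_, junc_a h i hr, hue.trans (vlo hVLN h i hr (by norm_num))⟩

end LCA
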