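import Pool.Agent.LCA.Stmts1

/-!
# PCL: closedness and boundedness of a phase
-/

namespace LCA

open Set Filter
open scoped ContDiff Topology

namespace PCL

/-- A set which over `J` is the union of the graphs of a continuous family with a compact set of
parameters is closed over `J` and bounded over compact sets. -/
theorem piece {J : Set ℝ} (hJ : IsOpen J) {Kp : Set ℝ} (hKp : IsCompact Kp)
    {Φ : ℝ → ℝ → ℝ × ℝ × ℝ × ℝ} (hΦ : ContinuousOn (fun a : ℝ × ℝ => Φ a.1 a.2) (J ×ˢ Kp))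
    {A : Set E5} (hA : ∀ r : E5, r.1 ∈ J → (r ∈ A ↔ ∃ k ∈ Kp, r.2 = Φ r.1 k)) :
    (∀ r ∈ closure A, r.1 ∈ J → r ∈ A) ∧
    ∀ K ⊆ J, IsCompact K → ∃ M : ℝ, ∀ r ∈ A, r.1 ∈ K → ‖r.2‖ ≤ M := by
  constructor
  · intro r hr hrJ
    obtain ⟨x, hxA, hx⟩ := mem_closure_iff_seq_limit.1 hr
    have h1 : Tendsto (fun n => (x n).1) atTop (𝓝 r.1) :=
      (continuous_fst.tendsto r).comp hx
    have h2 : Tendsto (fun n => (x n).2) atTop (𝓝 r.2) :=
      (continuous_snd.tendsto r).comp hx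
    obtain ⟨N, hN⟩ := eventually_atTop.1 (h1.eventually (hJ.mem_nhds hrJ))
    have hk : ∀ n, ∃ k ∈ Kp, (x (n + N)).2 = Φ (x (n + N)).1 k := fun n =>
      (hA _ (hN (n + N) (by omega))).1 (hxA _)
    choose k hkK hkE using hk
    obtain ⟨k₀, hk₀, φ, hφ, hlim⟩ := hKp.tendsto_subseq hkK
    have h3 : Tendsto (fun n => φ n + N) atTop atTop :=
      tendsto_atTop_mono (fun n => Nat.le_add_right _ _) hφ.tendsto_atTop
    have h4 : Tendsto (fun n => (x (φ n + N)).1) atTop (𝓝 r.1) := h1.comp h3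
    have h5 : Tendsto (fun n => (x (φ n + N)).2) atTop (𝓝 r.2) := h2.comp h3
    have h6 : Tendsto (fun n => ((x (φ n + N)).1, k (φ n))) atTop
        (𝓝[J ×ˢ Kp] (r.1, k₀)) := by
      refine tendsto_nhdsWithin_iff.2 ⟨h4.prodMk_nhds hlim, Eventually.of_forall fun n => ?_⟩
      exact ⟨hN _ (by omega), hkK _⟩
    have h7 : Tendsto (fun n => Φ (x (φ n + N)).1 (k (φ n))) atTop (𝓝 (Φ r.1 k₀)) :=
      (hΦ (r.1, k₀) ⟨hrJ, hk₀⟩).tendsto.comp h6
    have h8 : (fun n => (x (φ n + N)).2) = fun n => Φ (x (φ n + N)).1 (k (φ n)) :=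
      funext fun n => hkE (φ n)
    rw [← h8] at h7
    exact (hA r hrJ).2 ⟨k₀, hk₀, tendsto_nhds_unique h5 h7⟩
  · intro K hKJ hK
    have hc : IsCompact ((fun a : ℝ × ℝ => Φ a.1 a.2) '' (K ×ˢ Kp)) :=
      (hK.prod hKp).image_of_continuousOn (hΦ.mono (prod_mono hKJ subset_rfl))
    obtain ⟨M, hM⟩ := hc.isBounded.exists_norm_le
    refine ⟨M, fun r hr hrK => ?_⟩
    obtain ⟨k, hk, hE⟩ := (hA r (hKJ hrK)).1 hr
    rw [hE]
    exact hM _ ⟨(r.1, k), ⟨hrK, hk⟩, rfl⟩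

/-- The partial derivative of a smooth function of two variables is continuous. -/
theorem contPartial {J : Set ℝ} (hJ : IsOpen J) {G : ℝ → ℝ → ℝ}
    (hG : ContDiffOn ℝ ∞ (fun a : ℝ × ℝ => G a.1 a.2) (J ×ˢ univ)) :
    ContinuousOn (fun a : ℝ × ℝ => deriv (fun r => G r a.2) a.1) (J ×ˢ univ) := by
  have hO : IsOpen (J ×ˢ (univ : Set ℝ)) := hJ.prod isOpen_univ
  have h1 : ContinuousOn (fderiv ℝ (fun a : ℝ × ℝ => G a.1 a.2)) (J ×ˢ univ) :=
    hG.continuousOn_fderiv_of_isOpen hO (by simp)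
  have h2 : ContinuousOn (fun a : ℝ × ℝ => fderiv ℝ (fun a : ℝ × ℝ => G a.1 a.2) a (1, 0))
      (J ×ˢ univ) := h1.clm_apply continuousOn_const
  refine h2.congr fun a ha => ?_
  have hd : DifferentiableAt ℝ (fun a : ℝ × ℝ => G a.1 a.2) a :=
    ((hG.contDiffAt (hO.mem_nhds ha)).differentiableAt (by simp))
  have h3 : HasDerivAt (fun r : ℝ => (r, a.2)) ((1 : ℝ), (0 : ℝ)) a.1 :=
    (hasDerivAt_id a.1).prodMk (hasDerivAt_const a.1 a.2)
  have h4 : HasDerivAt (fun r : ℝ => G r a.2)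
      (fderiv ℝ (fun a : ℝ × ℝ => G a.1 a.2) a (1, 0)) a.1 := by
    have h5 : HasFDerivAt (fun a : ℝ × ℝ => G a.1 a.2)
        (fderiv ℝ (fun a : ℝ × ℝ => G a.1 a.2) a) ((fun r : ℝ => (r, a.2)) a.1) := hd.hasFDerivAt
    exact h5.comp_hasDerivAt a.1 h3
  exact h4.deriv

variable {m n : ℕ}

section Edge

variable {c : Comb m n} {w : Fin n → ℝ} {J : Set ℝ} {π : Fin n → Prof} {q : ℝ → St n}

theorem cq (H : IsPhase c w J π q) : ContinuousOn q J := H.smooth.continuousOn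

theorem cdq (H : IsPhase c w J π q) : ContinuousOn (deriv q) J :=
  H.smooth.continuousOn_deriv_of_isOpen H.openJ (by simp)

theorem cq1 (H : IsPhase c w J π q) (i : Fin n) : ContinuousOn (fun s => (q s).1 i) J :=
  ((continuous_apply i).comp continuous_fst).comp_continuousOn (cq H)

theorem cq2 (H : IsPhase c w J π q) (i : Fin n) : ContinuousOn (fun s => (q s).2 i) J :=
  ((continuous_apply i).comp continuous_snd).comp_continuousOn (cq H)

theorem cv1 (H : IsPhase c w J π q) (i : Fin n) : ContinuousOn (fun s => (deriv q s).1 i) J :=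
  ((continuous_apply i).comp continuous_fst).comp_continuousOn (cdq H)

theorem cv2 (H : IsPhase c w J π q) (i : Fin n) : ContinuousOn (fun s => (deriv q s).2 i) J :=
  ((continuous_apply i).comp continuous_snd).comp_continuousOn (cdq H)

theorem lt (H : IsPhase c w J π q) (e : Fin m) {s : ℝ} (hs : s ∈ J) :
    (q s).1 (c.lf e) < (q s).1 (c.rt e) := by
  have h1 := (H.adm s hs).len e
  have h2 := H.wpos (c.lf e)
  have h3 := H.wpos (c.rt e)
  linarith

theorem cpe (H : IsPhase c w J π q) (e : Fin m) : ContinuousOn (fun s => c.pe (q s) e) J := by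
  unfold Comb.pe
  exact ((cq2 H _).sub (cq2 H _)).div ((cq1 H _).sub (cq1 H _))
    fun s hs => (sub_pos.2 (lt H e hs)).ne'

theorem cae (H : IsPhase c w J π q) (e : Fin m) : ContinuousOn (fun s => c.ae (q s) e) J := by
  unfold Comb.ae
  exact (cq2 H _).sub ((cpe H e).mul (cq1 H _))

theorem cdpe (H : IsPhase c w J π q) (e : Fin m) :
    ContinuousOn (fun s => c.dpe (q s) (deriv q s) e) J := by
  unfold Comb.dpe
  exact (((cv2 H _).sub (cv2 H _)).sub ((cpe H e).mul ((cv1 H _).sub (cv1 H _)))).div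
    ((cq1 H _).sub (cq1 H _)) fun s hs => (sub_pos.2 (lt H e hs)).ne'

theorem cdae (H : IsPhase c w J π q) (e : Fin m) :
    ContinuousOn (fun s => c.dae (q s) (deriv q s) e) J := by
  unfold Comb.dae
  exact ((cv2 H _).sub ((cdpe H e).mul (cq1 H _))).sub ((cpe H e).mul (cv1 H _))

theorem cdl (H : IsPhase c w J π q) (i : Fin n) : ContinuousOn (fun s => c.dl (q s) i) J := by
  unfold Comb.dl
  exact (cpe H _).sub (cpe H _)

/-- Functions of the time as functions of the time and a parameter. -/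
theorem lift {f : ℝ → ℝ} {J : Set ℝ} (h : ContinuousOn f J) (K : Set ℝ) :
    ContinuousOn (fun a : ℝ × ℝ => f a.1) (J ×ˢ K) :=
  h.comp continuousOn_fst fun _ ha => ha.1

theorem edge (H : IsPhase c w J π q) (e : Fin m) :
    (∀ r ∈ closure {r : E5 | ∃ x ∈ c.rg w (q r.1) e, r.2 = c.ept (q r.1) (deriv q r.1) e x},
      r.1 ∈ J → r ∈ {r : E5 | ∃ x ∈ c.rg w (q r.1) e, r.2 = c.ept (q r.1) (deriv q r.1) e x}) ∧
    ∀ K ⊆ J, IsCompact K → ∃ M : ℝ,
      ∀ r ∈ {r : E5 | ∃ x ∈ c.rg w (q r.1) e, r.2 = c.ept (q r.1) (deriv q r.1) e x},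
        r.1 ∈ K → ‖r.2‖ ≤ M := by
  set l : ℝ → ℝ := fun s => (q s).1 (c.lf e) + 2 * w (c.lf e) with hl
  set ρ : ℝ → ℝ := fun s => (q s).1 (c.rt e) - 2 * w (c.rt e) with hρ
  have cl : ContinuousOn l J := (cq1 H _).add continuousOn_const
  have cρ : ContinuousOn ρ J := (cq1 H _).sub continuousOn_const
  have hx : ContinuousOn (fun a : ℝ × ℝ => (1 - a.2) * l a.1 + a.2 * ρ a.1)
      (J ×ˢ Icc (0 : ℝ) 1) :=
    ((continuousOn_const.sub continuousOn_snd).mul (lift cl _)).add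
      (continuousOn_snd.mul (lift cρ _))
  refine piece H.openJ (isCompact_Icc (a := (0 : ℝ)) (b := 1))
    (Φ := fun s k => c.ept (q s) (deriv q s) e ((1 - k) * l s + k * ρ s)) ?_ ?_
  · unfold Comb.ept
    exact hx.prodMk ((lift (cpe H e) _).prodMk
      ((((lift (cdpe H e) _).mul hx).add (lift (cdae H e) _)).prodMk
        (((lift (cpe H e) _).mul hx).add (lift (cae H e) _))))
  · intro r hr
    have hlen := (H.adm r.1 hr).len e
    have hlρ : l r.1 < ρ r.1 := by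
      simp only [hl, hρ]
      linarith
    constructor
    · rintro ⟨x, ⟨hx1, hx2⟩, hE⟩
      have hpos : 0 < ρ r.1 - l r.1 := by linarith
      refine ⟨(x - l r.1) / (ρ r.1 - l r.1), ⟨div_nonneg (by linarith) hpos.le,
        (div_le_one hpos).2 (by linarith)⟩, ?_⟩
      rw [hE]
      have : (1 - (x - l r.1) / (ρ r.1 - l r.1)) * l r.1
          + (x - l r.1) / (ρ r.1 - l r.1) * ρ r.1 = x := by
        field_simp
        ring
      rw [this]
    · rintro ⟨k, ⟨hk0, hk1⟩, hE⟩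
      refine ⟨_, ⟨?_, ?_⟩, hE⟩
      · show l r.1 ≤ _
        nlinarith
      · show _ ≤ ρ r.1
        nlinarith

theorem vert (H : IsPhase c w J π q) (i : Fin n) :
    (∀ r ∈ closure {r : E5 | ∃ u, |u| ≤ 2 ∧ r.2 = c.vp w π r.1 (q r.1) (deriv q r.1) i u},
      r.1 ∈ J → r ∈ {r : E5 | ∃ u, |u| ≤ 2 ∧ r.2 = c.vp w π r.1 (q r.1) (deriv q r.1) i u}) ∧
    ∀ K ⊆ J, IsCompact K → ∃ M : ℝ,
      ∀ r ∈ {r : E5 | ∃ u, |u| ≤ 2 ∧ r.2 = c.vp w π r.1 (q r.1) (deriv q r.1) i u},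
        r.1 ∈ K → ‖r.2‖ ≤ M := by
  have hsub : J ×ˢ Icc (-2 : ℝ) 2 ⊆ J ×ˢ (univ : Set ℝ) := prod_mono subset_rfl (subset_univ _)
  have cX : ContinuousOn (fun a : ℝ × ℝ => (π i).X a.1 a.2) (J ×ˢ Icc (-2 : ℝ) 2) :=
    (H.prof i).X_smooth.continuousOn.mono hsub
  have cP : ContinuousOn (fun a : ℝ × ℝ => (π i).P a.1 a.2) (J ×ˢ Icc (-2 : ℝ) 2) :=
    (H.prof i).P_smooth.continuousOn.mono hsub
  have cΘ : ContinuousOn (fun a : ℝ × ℝ => (π i).Θ a.1 a.2) (J ×ˢ Icc (-2 : ℝ) 2) :=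
    (H.prof i).Θ_smooth.continuousOn.mono hsub
  have cY : ContinuousOn (fun a : ℝ × ℝ => (π i).Y a.1 a.2) (J ×ˢ Icc (-2 : ℝ) 2) := by
    have h1 := (contPartial H.openJ (H.prof i).Θ_smooth).mono hsub
    have h2 := (contPartial H.openJ (H.prof i).X_smooth).mono hsub
    exact (h1.sub (cP.mul h2)).congr fun a ha => (H.prof i).Y_eq a.1 ha.1 a.2
  have cx : ContinuousOn (fun a : ℝ × ℝ => (q a.1).1 i + w i * (π i).X a.1 a.2)
      (J ×ˢ Icc (-2 : ℝ) 2) := (lift (cq1 H i) _).add (continuousOn_const.mul cX)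
  have L : ∀ {f : ℝ → ℝ}, ContinuousOn f J →
      ContinuousOn (fun a : ℝ × ℝ => f a.1) (J ×ˢ Icc (-2 : ℝ) 2) := fun h => lift h _
  refine piece H.openJ (isCompact_Icc (a := (-2 : ℝ)) (b := 2))
    (Φ := fun s u => c.vp w π s (q s) (deriv q s) i u) ?_ ?_
  · unfold Comb.vp Comb.vpt
    refine cx.prodMk (((L (cpe H _)).add ((L (cdl H i)).mul cP)).prodMk (ContinuousOn.prodMk ?_ ?_))
    · exact ((((L (cdpe H _)).mul cx).add (L (cdae H _))).add
        (continuousOn_const.mul ((((L (cdpe H _)).sub (L (cdpe H _))).mul cΘ).add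
          ((L (cdl H i)).mul cY)))).sub (((L (cdl H i)).mul cP).mul (L (cv1 H i)))
    · exact (((L (cpe H _)).mul cx).add (L (cae H _))).add
        ((continuousOn_const.mul (L (cdl H i))).mul cΘ)
  · intro r _
    constructor
    · rintro ⟨u, hu, hE⟩
      exact ⟨u, abs_le.1 hu, hE⟩
    · rintro ⟨u, hu, hE⟩
      exact ⟨u, abs_le.2 hu, hE⟩

end Edge

/-- Finite unions. -/
theorem fin_union {ι : Type} [Finite ι] {J : Set ℝ} (S : Set ι) (A : ι → Set E5)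
    (h : ∀ i, (∀ r ∈ closure (A i), r.1 ∈ J → r ∈ A i) ∧
      ∀ K ⊆ J, IsCompact K → ∃ M : ℝ, ∀ r ∈ A i, r.1 ∈ K → ‖r.2‖ ≤ M) :
    (∀ r ∈ closure (⋃ i ∈ S, A i), r.1 ∈ J → r ∈ ⋃ i ∈ S, A i) ∧
      ∀ K ⊆ J, IsCompact K → ∃ M : ℝ, ∀ r ∈ ⋃ i ∈ S, A i, r.1 ∈ K → ‖r.2‖ ≤ M := by
  constructor
  · intro r hr hrJ
    rw [(Set.toFinite S).closure_biUnion] at hr
    simp only [mem_iUnion, exists_prop] at hr ⊢
    obtain ⟨i, hi, hri⟩ := hr
    exact ⟨i, hi, (h i).1 r hri hrJ⟩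
  · intro K hKJ hK
    choose M hM using fun i => (h i).2 K hKJ hK
    obtain ⟨B, hB⟩ := (Set.finite_range M).bddAbove
    refine ⟨B, fun r hr hrK => ?_⟩
    simp only [mem_iUnion, exists_prop] at hr
    obtain ⟨i, _, hri⟩ := hr
    exact (hM i r hri hrK).trans (hB ⟨i, rfl⟩)

end PCL

theorem t_PCL : Stmt_PCL := by
  intro m n c w J π q H SE SV A
  have hE := PCL.fin_union SE _ fun e => PCL.edge H e
  have hV := PCL.fin_union SV _ fun i => PCL.vert H i
  have hA : A = (⋃ e ∈ SE, {r : E5 | ∃ x ∈ c.rg w (q r.1) e,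
        r.2 = c.ept (q r.1) (deriv q r.1) e x}) ∪
      ⋃ i ∈ SV, {r : E5 | ∃ u, |u| ≤ 2 ∧ r.2 = c.vp w π r.1 (q r.1) (deriv q r.1) i u} := by
    ext r
    simp only [A, mem_union, mem_iUnion, exists_prop, Set.mem_ofPred_eq]
  rw [hA]
  constructor
  · intro r hr hrJ
    rw [closure_union] at hr
    rcases hr with hr | hr
    · exact Or.inl (hE.1 r hr hrJ)
    · exact Or.inr (hV.1 r hr hrJ)
  · intro K hKJ hK
    obtain ⟨M, hM⟩ := hE.2 K hKJ hK
    obtain ⟨M', hM'⟩ := hV.2 K hKJ hK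
    refine ⟨max M M', fun r hr hrK => ?_⟩
    rcases hr with hr | hr
    · exact (hM r hr hrK).trans (le_max_left _ _)
    · exact (hM' r hr hrK).trans (le_max_right _ _)

end LCA
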