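import Pool.Agent.LCA.Stmts1

/-!
# PHG: phases
-/

namespace LCA

open Set Filter
open scoped ContDiff Topology

namespace PHG

theorem surf_eq {m n : ℕ} (c : Comb m n) (w : Fin n → ℝ) (π : Fin n → Prof) (q : ℝ → St n) :
    {r : E5 | (∃ e ∈ (univ : Set (Fin m)), ∃ x ∈ c.rg w (q r.1) e,
        r.2 = c.ept (q r.1) (deriv q r.1) e x) ∨
      ∃ i ∈ (univ : Set (Fin n)), ∃ u, |u| ≤ 2 ∧
        r.2 = c.vp w π r.1 (q r.1) (deriv q r.1) i u} = c.surf w π q := by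
  ext r
  constructor
  · rintro (⟨e, -, x, hx, h⟩ | ⟨i, -, u, hu, h⟩)
    · exact Or.inl ⟨e, x, hx, h⟩
    · exact Or.inr ⟨i, u, hu, h⟩
  · rintro (⟨e, x, hx, h⟩ | ⟨i, u, hu, h⟩)
    · exact Or.inl ⟨e, mem_univ e, x, hx, h⟩
    · exact Or.inr ⟨i, mem_univ i, u, hu, h⟩

end PHG

open PHG in
theorem t_PHG (hPCL : Stmt_PCL) (hPIN : Stmt_PIN) (hPCH : Stmt_PCH) (hPUD : Stmt_PUD) :
    Stmt_PHG := by
  intro m n c w J π q h
  have h1 := hPCL c w J π q h univ univ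
  simp only [surf_eq] at h1
  refine ⟨⟨h1.1, h1.2, hPCH c w J π q h, ?_⟩, (hPUD c w J π q h).1, (hPUD c w J π q h).2⟩
  intro a ha b hb haJ e1 e2 e3 e4
  have h2 : a.2 ∈ c.slice w π a.1 (q a.1) (deriv q a.1) := ha
  have h3 : b.2 ∈ c.slice w π b.1 (q b.1) (deriv q b.1) := hb
  rw [← e1] at h3
  have h4 := hPIN c w J π q h a.1 haJ a.2 h2 b.2 h3 ⟨e2, e3, e4⟩
  exact Prod.ext e1 h4

end LCA
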