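import Pool.Agent.LCA.Stmts1

/-!
# PIN: the slices of a phase are embedded
-/

namespace LCA

open Set Filter
open scoped ContDiff Topology

namespace PIN

variable {m n : ℕ} {c : Comb m n} {w : Fin n → ℝ} {J : Set ℝ} {π : Fin n → Prof} {q : ℝ → St n}

/-- For `|u| ≥ 1` the function `Y` vanishes. -/
theorem Y_low (h : IsPhase c w J π q) (i : Fin n) {s : ℝ} (hs : s ∈ J) {u : ℝ} (hu : u ≤ -1) :
    (π i).Y s u = 0 := by
  have hJ : J ∈ 𝓝 s := h.openJ.mem_nhds hs
  rw [(h.prof i).Y_eq s hs u]
  have h1 : (fun r => (π i).Θ r u) =ᶠ[𝓝 s] fun _ => (0 : ℝ) := by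
    filter_upwards [hJ] with r hr
    exact (((h.prof i).bd r hr).low u hu).2.2
  have h2 : (fun r => (π i).X r u) =ᶠ[𝓝 s] fun _ => (c.ty i).inX u := by
    filter_upwards [hJ] with r hr
    exact (((h.prof i).bd r hr).low u hu).1
  rw [h1.deriv_eq, h2.deriv_eq]
  simp

theorem Y_high (h : IsPhase c w J π q) (i : Fin n) {s : ℝ} (hs : s ∈ J) {u : ℝ} (hu : 1 ≤ u) :
    (π i).Y s u = 0 := by
  have hJ : J ∈ 𝓝 s := h.openJ.mem_nhds hs
  rw [(h.prof i).Y_eq s hs u]
  have h1 : (fun r => (π i).Θ r u) =ᶠ[𝓝 s] fun _ => (c.ty i).outX u := by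
    filter_upwards [hJ] with r hr
    exact (((h.prof i).bd r hr).high u hu).2.2
  have h2 : (fun r => (π i).X r u) =ᶠ[𝓝 s] fun _ => (c.ty i).outX u := by
    filter_upwards [hJ] with r hr
    exact (((h.prof i).bd r hr).high u hu).1
  rw [h1.deriv_eq, h2.deriv_eq]
  simp

theorem lt_edge (h : IsPhase c w J π q) {s : ℝ} (hs : s ∈ J) (e : Fin m) :
    (q s).1 (c.lf e) < (q s).1 (c.rt e) := by
  have h1 := (h.adm s hs).len e
  have h2 := h.wpos (c.lf e)
  have h3 := h.wpos (c.rt e)
  linarith

/-- A point of the piece of `i` and a point of an edge. -/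
theorem ve_eq (hVLN : Stmt_VLN) (h : IsPhase c w J π q) {s : ℝ} (hs : s ∈ J) (i : Fin n)
    (e : Fin m) {u x : ℝ} (hu : |u| ≤ 2) (hx : x ∈ c.rg w (q s) e)
    (hM : Meet (c.vp w π s (q s) (deriv q s) i u) (c.ept (q s) (deriv q s) e x)) :
    c.vp w π s (q s) (deriv q s) i u = c.ept (q s) (deriv q s) e x := by
  have hA := h.adm s hs
  have hwi := h.wpos i
  have hbd := (h.prof i).bd s hs
  obtain ⟨hV1, hV2⟩ := hVLN c w π s (q s) (deriv q s) i h.valid (fun j => (h.prof j).bd s hs)
    (lt_edge h hs)
  have hxX : (q s).1 i + w i * (π i).X s u = x := hM.1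
  have hpP : c.pe (q s) (c.ea i) + c.dl (q s) i * (π i).P s u = c.pe (q s) e := hM.2.1
  obtain ⟨hu1, hu2⟩ := abs_le.mp hu
  obtain ⟨hx1, hx2⟩ := hx
  by_cases hea : c.ea i = e
  · subst hea
    have hdP : c.dl (q s) i * (π i).P s u = 0 := by linarith
    rcases le_or_gt u (-1) with hlow | hlow
    · rw [hV1 u hlow (Y_low h i hs hlow), ← (hbd.low u hlow).1, hxX]
    · rcases le_or_gt 1 u with hhigh | hhigh
      · exfalso
        obtain ⟨hX, hP, -⟩ := hbd.high u hhigh
        rw [hP, mul_one] at hdP
        have ht := hA.tip i
        have ho := h.valid.oka i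
        unfold Comb.OKa at ho
        cases htt : c.ty i with
        | P =>
          rw [htt] at ho hX
          simp only at ho
          rw [ho] at hx2
          have hX' : (π i).X s u = u := hX
          rw [hX'] at hxX
          nlinarith
        | R =>
          exact ht (by rw [htt]; exact fun hh => Ty.noConfusion hh) hdP
        | L =>
          exact ht (by rw [htt]; exact fun hh => Ty.noConfusion hh) hdP
      · exfalso
        have hXb := abs_le.mp (hbd.X_bd u (abs_le.mpr ⟨hlow.le, hhigh.le⟩))
        have ho := h.valid.oka i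
        unfold Comb.OKa at ho
        cases htt : c.ty i with
        | P =>
          rw [htt] at ho
          simp only at ho
          rw [ho] at hx2
          nlinarith
        | R =>
          rw [htt] at ho
          simp only at ho
          rw [ho] at hx2
          nlinarith
        | L =>
          rw [htt] at ho
          simp only at ho
          rw [ho] at hx1
          nlinarith
  · by_cases heb : c.eb i = e
    · subst heb
      have hdP : c.dl (q s) i * (π i).P s u = c.dl (q s) i := by
        have : c.dl (q s) i = c.pe (q s) (c.eb i) - c.pe (q s) (c.ea i) := rfl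
        linarith
      rcases le_or_gt 1 u with hhigh | hhigh
      · rw [hV2 u hhigh (Y_high h i hs hhigh), ← (hbd.high u hhigh).1, hxX]
      · rcases le_or_gt u (-1) with hlow | hlow
        · exfalso
          obtain ⟨hX, hP, -⟩ := hbd.low u hlow
          rw [hP, mul_zero] at hdP
          have ht := hA.tip i
          have ho := h.valid.okb i
          unfold Comb.OKb at ho
          cases htt : c.ty i with
          | P =>
            rw [htt] at ho hX
            simp only at ho
            rw [ho] at hx1
            have hX' : (π i).X s u = u := hX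
            rw [hX'] at hxX
            nlinarith
          | R =>
            exact ht (by rw [htt]; exact fun hh => Ty.noConfusion hh) hdP.symm
          | L =>
            exact ht (by rw [htt]; exact fun hh => Ty.noConfusion hh) hdP.symm
        · exfalso
          have hXb := abs_le.mp (hbd.X_bd u (abs_le.mpr ⟨hlow.le, hhigh.le⟩))
          have ho := h.valid.okb i
          unfold Comb.OKb at ho
          cases htt : c.ty i with
          | P =>
            rw [htt] at ho
            simp only at ho
            rw [ho] at hx1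
            nlinarith
          | R =>
            rw [htt] at ho
            simp only at ho
            rw [ho] at hx2
            nlinarith
          | L =>
            rw [htt] at ho
            simp only at ho
            rw [ho] at hx1
            nlinarith
    · exact absurd hM (hA.ve i e hea heb u hu x ⟨hx1, hx2⟩)

end PIN

/-- PIN: the slices of a phase are embedded. -/
theorem t_PIN (hVLN : Stmt_VLN) : Stmt_PIN := by
  intro m n c w J π q h s hs a ha b hb hM
  have hA := h.adm s hs
  rcases ha with ⟨e, x, hx, rfl⟩ | ⟨i, u, hu, rfl⟩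
  · rcases hb with ⟨e', x', hx', rfl⟩ | ⟨j, u', hu', rfl⟩
    · by_cases hee : e = e'
      · subst hee
        have hxx : x = x' := hM.1
        rw [hxx]
      · exact absurd hM (hA.ee e e' hee x hx x' hx')
    · exact (PIN.ve_eq hVLN h hs j e hu' hx ⟨hM.1.symm, hM.2.1.symm, hM.2.2.symm⟩).symm
  · rcases hb with ⟨e', x', hx', rfl⟩ | ⟨j, u', hu', rfl⟩
    · exact PIN.ve_eq hVLN h hs i e' hu hx' hM
    · by_cases hij : i = j
      · subst hij
        have h1 : (q s).1 i + w i * (π i).X s u = (q s).1 i + w i * (π i).X s u' := hM.1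
        have h2 : c.pe (q s) (c.ea i) + c.dl (q s) i * (π i).P s u =
            c.pe (q s) (c.ea i) + c.dl (q s) i * (π i).P s u' := hM.2.1
        have h3 : (π i).X s u = (π i).X s u' :=
          mul_left_cancel₀ (h.wpos i).ne' (add_left_cancel h1)
        have h4 := (h.prof i).inj s hs u u' hu hu' h3 (add_left_cancel h2)
        rw [h4]
      · exact absurd hM (hA.vv i j hij u u' hu hu')

end LCA
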