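import Pool.Agent.LCA.Stmts1

/-!
# Module PST: the static profiles
-/

namespace LCA

open Set Filter
open scoped ContDiff Topology

namespace PST

/-- `ξ` takes the same value at `u` and at `|u|`. -/
theorem xi_abs (sh : Shape) (u : ℝ) : sh.ξ |u| = sh.ξ u := by
  rcases le_total 0 u with h | h
  · rw [abs_of_nonneg h]
  · rw [abs_of_nonpos h, sh.ξ_even]

/-- `ξ` determines the absolute value. -/
theorem abs_eq_of_xi (sh : Shape) {u u' : ℝ} (h : sh.ξ u = sh.ξ u') : |u| = |u'| := by
  have h1 : sh.ξ |u| = sh.ξ |u'| := by rw [xi_abs, xi_abs, h]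
  exact sh.ξ_anti.injOn (mem_Ici.2 (abs_nonneg u)) (mem_Ici.2 (abs_nonneg u')) h1

/-- `τ` is strictly increasing on `[-1, 1]`. -/
theorem tau_strict (sh : Shape) : StrictMonoOn sh.τ (Icc (-1) 1) := by
  refine strictMonoOn_of_deriv_pos (convex_Icc (-1) 1) sh.τ_smooth.continuous.continuousOn ?_
  intro x hx
  rw [interior_Icc] at hx
  exact sh.τ_deriv x hx.1 hx.2

/-- `τ u = 1 / 2` only for `u = 0`. -/
theorem tau_half (sh : Shape) {u : ℝ} (h : sh.τ u = 1 / 2) : u = 0 := by
  have h0 : sh.τ 0 = 1 / 2 := by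
    have := sh.τ_symm 0
    rw [neg_zero] at this
    linarith
  have hl : -1 < u := by
    by_contra hc
    rw [sh.τ_low u (not_lt.1 hc)] at h
    norm_num at h
  have hr : u < 1 := by
    by_contra hc
    rw [sh.τ_high u (not_lt.1 hc)] at h
    norm_num at h
  refine (tau_strict sh).injOn ⟨hl.le, hr.le⟩ ⟨by norm_num, by norm_num⟩ ?_
  rw [h, h0]

/-- The pair of `ξ` and `τ` is injective. -/
theorem inj (sh : Shape) {u u' : ℝ} (h : sh.ξ u = sh.ξ u') (h' : sh.τ u = sh.τ u') : u = u' := by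
  rcases abs_eq_abs.1 (abs_eq_of_xi sh h) with h1 | h1
  · exact h1
  · have h2 : sh.τ u' = 1 / 2 := by
      have h3 := sh.τ_symm u'
      rw [h1] at h'
      linarith
    have h4 := tau_half sh h2
    rw [h1, h4, neg_zero]

theorem X_smooth (sh : Shape) (t : Ty) : ContDiff ℝ ∞ (fun a : ℝ × ℝ => (sh.st t).X a.1 a.2) := by
  cases t
  · exact contDiff_snd
  · exact sh.ξ_smooth.comp contDiff_snd
  · exact (sh.ξ_smooth.comp contDiff_snd).neg

theorem Θ_smooth (sh : Shape) (t : Ty) : ContDiff ℝ ∞ (fun a : ℝ × ℝ => (sh.st t).Θ a.1 a.2) := by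
  cases t
  · exact sh.ΘP_smooth.comp contDiff_snd
  · exact sh.ΘR_smooth.comp contDiff_snd
  · exact (sh.ΘR_smooth.comp contDiff_snd).neg

theorem dΘ (sh : Shape) (t : Ty) (s u : ℝ) :
    HasDerivAt ((sh.st t).Θ s) ((sh.st t).P s u * deriv ((sh.st t).X s) u) u := by
  cases t
  · have h : deriv ((sh.st .P).X s) u = 1 := by
      change deriv (fun u : ℝ => u) u = 1
      exact deriv_id u
    rw [h, mul_one]
    exact sh.ΘP_deriv u
  · exact sh.ΘR_deriv u
  · have h : deriv ((sh.st .L).X s) u = -deriv sh.ξ u := by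
      change deriv (fun u : ℝ => -sh.ξ u) u = _
      exact deriv.fun_neg
    rw [h]
    have h2 := (sh.ΘR_deriv u).neg
    have h3 : (sh.st .L).P s u * -deriv sh.ξ u = -(sh.τ u * deriv sh.ξ u) := by
      change sh.τ u * -deriv sh.ξ u = _
      ring
    rw [h3]
    exact h2

theorem bd (sh : Shape) (t : Ty) (s : ℝ) : ProfBd t s (sh.st t) where
  low u hu := by
    have h1 : |u| = -u := abs_of_nonpos (by linarith)
    have h2 : sh.ξ u = u := by
      rw [sh.ξ_out u (by rw [h1]; linarith), h1, neg_neg]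
    refine ⟨?_, sh.τ_low u hu, ?_⟩
    · cases t
      · rfl
      · exact h2
      · change -sh.ξ u = -u
        rw [h2]
    · cases t
      · exact sh.ΘP_low u hu
      · exact sh.ΘR_low u hu
      · change -sh.ΘR u = 0
        rw [sh.ΘR_low u hu, neg_zero]
  high u hu := by
    have h1 : |u| = u := abs_of_nonneg (by linarith)
    have h2 : sh.ξ u = -u := by
      rw [sh.ξ_out u (by rw [h1]; linarith), h1]
    refine ⟨?_, sh.τ_high u hu, ?_⟩
    · cases t
      · rfl
      · exact h2
      · change -sh.ξ u = u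
        rw [h2, neg_neg]
    · cases t
      · exact sh.ΘP_high u hu
      · exact sh.ΘR_high u hu
      · change -sh.ΘR u = u
        rw [sh.ΘR_high u hu, neg_neg]
  X_bd u hu := by
    cases t
    · exact hu
    · exact sh.ξ_in u hu
    · change |-sh.ξ u| ≤ 1
      rw [abs_neg]
      exact sh.ξ_in u hu
  P_mem u := sh.τ_mem u
  Θ_bd u hu := by
    cases t
    · exact sh.ΘP_bd u hu
    · exact sh.ΘR_bd u hu
    · change |-sh.ΘR u| ≤ 2
      rw [abs_neg]
      exact sh.ΘR_bd u hu
  Y_bd u _ := by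
    change |(0 : ℝ)| ≤ 1000
    norm_num

end PST

/-- PST: the static profiles. -/
theorem t_PST : Stmt_PST := by
  intro sh J t D hD
  refine ⟨(PST.X_smooth sh t).contDiffOn, (sh.τ_smooth.comp contDiff_snd).contDiffOn,
    (PST.Θ_smooth sh t).contDiffOn, fun s _ u => PST.dΘ sh t s u, ?_, fun s _ => PST.bd sh t s,
    ?_, ?_⟩
  · intro s _ u
    have h1 : deriv (fun r => (sh.st t).Θ r u) s = 0 := by
      cases t <;> exact deriv_const s _
    have h2 : deriv (fun r => (sh.st t).X r u) s = 0 := by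
      cases t <;> exact deriv_const s _
    rw [h1, h2, mul_zero, sub_zero]
    rfl
  · intro s hs u hu
    have hu' := abs_lt.1 hu
    have hτ : deriv ((sh.st t).P s) u ≠ 0 := (sh.τ_deriv u hu'.1 hu'.2).ne'
    cases t
    · left
      change deriv (fun u : ℝ => u) u ≠ 0
      rw [show deriv (fun u : ℝ => u) u = 1 from deriv_id u]
      exact one_ne_zero
    · exact Or.inr (mul_ne_zero (hD s hs (by decide)) hτ)
    · exact Or.inr (mul_ne_zero (hD s hs (by decide)) hτ)
  · intro s hs u u' _ _ hX hP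
    cases t
    · exact hX
    · exact PST.inj sh hX (mul_left_cancel₀ (hD s hs (by decide)) hP)
    · exact PST.inj sh (neg_injective hX) (mul_left_cancel₀ (hD s hs (by decide)) hP)

end LCA
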