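import Pool.Agent.LCA.Stmts1

/-!
# PUD: paths in a phase
-/

namespace LCA

open Set Filter
open scoped ContDiff Topology

namespace PUD

/-- A continuous section over an interval joins its points. -/
lemma joined {A : Set E5} {J : Set ℝ} (hJ : J.OrdConnected) {G : ℝ → ℝ × ℝ × ℝ × ℝ}
    (hG : ContinuousOn G J) (hA : ∀ s ∈ J, ((s, G s) : E5) ∈ A) {s c a b : ℝ} (ha : a ∈ J)
    (hb : b ∈ J) (hs : s ∈ Icc a b) (hc : c ∈ Icc a b) :
    JoinedIn {r ∈ A | r.1 ∈ Icc a b} ((s, G s) : E5) ((c, G c) : E5) := by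
  have hsub : Icc a b ⊆ J := hJ.out ha hb
  have hp : IsPathConnected (Icc a b) := (convex_Icc a b).isPathConnected ⟨s, hs⟩
  have hf : ContinuousOn (fun t : ℝ => ((t, G t) : E5)) (Icc a b) :=
    continuousOn_id.prodMk (hG.mono hsub)
  have hi : IsPathConnected ((fun t : ℝ => ((t, G t) : E5)) '' Icc a b) := hp.image' hf
  refine (hi.joinedIn _ (mem_image_of_mem _ hs) _ (mem_image_of_mem _ hc)).mono ?_
  rintro _ ⟨t, ht, rfl⟩
  exact ⟨hA t (hsub ht), ht⟩

variable {m n : ℕ} {c : Comb m n} {w : Fin n → ℝ} {J : Set ℝ} {π : Fin n → Prof} {q : ℝ → St n}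

lemma cq (h : IsPhase c w J π q) : ContinuousOn q J := h.smooth.continuousOn

lemma cv (h : IsPhase c w J π q) : ContinuousOn (deriv q) J :=
  h.smooth.continuousOn_deriv_of_isOpen h.openJ (by simp)

lemma cx (h : IsPhase c w J π q) (i : Fin n) : ContinuousOn (fun s => (q s).1 i) J :=
  (continuous_apply i).comp_continuousOn (continuous_fst.comp_continuousOn (cq h))

lemma cF (h : IsPhase c w J π q) (i : Fin n) : ContinuousOn (fun s => (q s).2 i) J :=
  (continuous_apply i).comp_continuousOn (continuous_snd.comp_continuousOn (cq h))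

lemma cvx (h : IsPhase c w J π q) (i : Fin n) : ContinuousOn (fun s => (deriv q s).1 i) J :=
  (continuous_apply i).comp_continuousOn (continuous_fst.comp_continuousOn (cv h))

lemma cvF (h : IsPhase c w J π q) (i : Fin n) : ContinuousOn (fun s => (deriv q s).2 i) J :=
  (continuous_apply i).comp_continuousOn (continuous_snd.comp_continuousOn (cv h))

lemma den (h : IsPhase c w J π q) (e : Fin m) : ∀ s ∈ J,
    (q s).1 (c.rt e) - (q s).1 (c.lf e) ≠ 0 := by
  intro s hs
  have h1 := (h.adm s hs).len e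
  have h2 := h.wpos (c.lf e)
  have h3 := h.wpos (c.rt e)
  have : 0 < (q s).1 (c.rt e) - (q s).1 (c.lf e) := by linarith
  exact this.ne'

lemma cpe (h : IsPhase c w J π q) (e : Fin m) : ContinuousOn (fun s => c.pe (q s) e) J :=
  ((cF h _).sub (cF h _)).div ((cx h _).sub (cx h _)) (den h e)

lemma cae (h : IsPhase c w J π q) (e : Fin m) : ContinuousOn (fun s => c.ae (q s) e) J :=
  (cF h _).sub ((cpe h e).mul (cx h _))

lemma cdpe (h : IsPhase c w J π q) (e : Fin m) :
    ContinuousOn (fun s => c.dpe (q s) (deriv q s) e) J :=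
  (((cvF h _).sub (cvF h _)).sub ((cpe h e).mul ((cvx h _).sub (cvx h _)))).div
    ((cx h _).sub (cx h _)) (den h e)

lemma cdae (h : IsPhase c w J π q) (e : Fin m) :
    ContinuousOn (fun s => c.dae (q s) (deriv q s) e) J :=
  ((cvF h _).sub ((cdpe h e).mul (cx h _))).sub ((cpe h e).mul (cvx h _))

lemma cdl (h : IsPhase c w J π q) (i : Fin n) : ContinuousOn (fun s => c.dl (q s) i) J :=
  (cpe h _).sub (cpe h _)

/-- Restriction of a smooth function to a line of constant `u`. -/
lemma line {f : ℝ → ℝ → ℝ}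
    (hf : ContDiffOn ℝ ∞ (fun a : ℝ × ℝ => f a.1 a.2) (J ×ˢ univ)) (u : ℝ) :
    ContDiffOn ℝ ∞ (fun s => f s u) J := by
  have hg : ContDiffOn ℝ ∞ (fun s : ℝ => ((s, u) : ℝ × ℝ)) J :=
    (contDiff_id.prodMk contDiff_const).contDiffOn
  exact hf.comp hg (fun s hs => ⟨hs, mem_univ _⟩)

lemma cX (h : IsPhase c w J π q) (i : Fin n) (u : ℝ) : ContinuousOn (fun s => (π i).X s u) J :=
  (line (h.prof i).X_smooth u).continuousOn

lemma cP (h : IsPhase c w J π q) (i : Fin n) (u : ℝ) : ContinuousOn (fun s => (π i).P s u) J :=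
  (line (h.prof i).P_smooth u).continuousOn

lemma cΘ (h : IsPhase c w J π q) (i : Fin n) (u : ℝ) : ContinuousOn (fun s => (π i).Θ s u) J :=
  (line (h.prof i).Θ_smooth u).continuousOn

lemma cY (h : IsPhase c w J π q) (i : Fin n) (u : ℝ) : ContinuousOn (fun s => (π i).Y s u) J := by
  have h1 : ContinuousOn (deriv (fun r => (π i).Θ r u)) J :=
    (line (h.prof i).Θ_smooth u).continuousOn_deriv_of_isOpen h.openJ (by simp)
  have h2 : ContinuousOn (deriv (fun r => (π i).X r u)) J :=
    (line (h.prof i).X_smooth u).continuousOn_deriv_of_isOpen h.openJ (by simp)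
  refine (h1.sub ((cP h i u).mul h2)).congr ?_
  intro s hs
  exact (h.prof i).Y_eq s hs u

/-- The path on an edge. -/
lemma cept (h : IsPhase c w J π q) (e : Fin m) {x : ℝ → ℝ} (hx : ContinuousOn x J) :
    ContinuousOn (fun s => c.ept (q s) (deriv q s) e (x s)) J :=
  hx.prodMk ((cpe h e).prodMk ((((cdpe h e).mul hx).add (cdae h e)).prodMk
    (((cpe h e).mul hx).add (cae h e))))

/-- The path on the piece of a vertex. -/
lemma cvp (h : IsPhase c w J π q) (i : Fin n) (u : ℝ) :
    ContinuousOn (fun s => c.vp w π s (q s) (deriv q s) i u) J := by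
  have hX := cX h i u
  have hP := cP h i u
  have hΘ := cΘ h i u
  have hY := cY h i u
  have hx : ContinuousOn (fun s => (q s).1 i + w i * (π i).X s u) J :=
    (cx h i).add (continuousOn_const.mul hX)
  have hl := cdl h i
  refine hx.prodMk (((cpe h _).add (hl.mul hP)).prodMk (ContinuousOn.prodMk ?_ ?_))
  · exact ((((cdpe h _).mul hx).add (cdae h _)).add (continuousOn_const.mul
      ((((cdpe h _).sub (cdpe h _)).mul hΘ).add (hl.mul hY)))).sub ((hl.mul hP).mul (cvx h i))
  · exact (((cpe h _).mul hx).add (cae h _)).add ((continuousOn_const.mul hl).mul hΘ)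

/-- Every point can be joined to every time. -/
lemma main (h : IsPhase c w J π q) (r : E5) (hr : r ∈ c.surf w π q) (hJ : r.1 ∈ J) (t a b : ℝ)
    (ht : t ∈ J) (ha : a ∈ J) (hb : b ∈ J) (hra : r.1 ∈ Icc a b) (hta : t ∈ Icc a b) :
    ∃ r' ∈ c.surf w π q, r'.1 = t ∧
      JoinedIn {r ∈ c.surf w π q | r.1 ∈ Icc a b} r r' := by
  obtain ⟨s, y⟩ := r
  change s ∈ J at hJ
  change s ∈ Icc a b at hra
  rcases hr with ⟨e, x, hx, hy⟩ | ⟨i, u, hu, hy⟩
  · change y = c.ept (q s) (deriv q s) e x at hy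
    change x ∈ c.rg w (q s) e at hx
    set l : ℝ → ℝ := fun s => (q s).1 (c.lf e) + 2 * w (c.lf e) with hl
    set R : ℝ → ℝ := fun s => (q s).1 (c.rt e) - 2 * w (c.rt e) with hR
    have hlt : ∀ s ∈ J, l s < R s := by
      intro s hs
      have h1 := (h.adm s hs).len e
      simp only [hl, hR]
      linarith
    have hx1 : l s ≤ x := hx.1
    have hx2 : x ≤ R s := hx.2
    have hpos : 0 < R s - l s := by linarith [hlt s hJ]
    set k : ℝ := (x - l s) / (R s - l s) with hk
    have hk0 : 0 ≤ k := div_nonneg (by linarith) hpos.le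
    have hk1 : k ≤ 1 := (div_le_one hpos).2 (by linarith)
    have hxe : x = l s + k * (R s - l s) := by
      rw [hk, div_mul_cancel₀ _ hpos.ne']
      ring
    have hcl : ContinuousOn l J := (cx h _).add continuousOn_const
    have hcR : ContinuousOn R J := (cx h _).sub continuousOn_const
    have hcx : ContinuousOn (fun s => l s + k * (R s - l s)) J :=
      hcl.add (continuousOn_const.mul (hcR.sub hcl))
    have hA : ∀ s ∈ J, ((s, c.ept (q s) (deriv q s) e (l s + k * (R s - l s))) : E5) ∈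
        c.surf w π q := by
      intro s hs
      refine Or.inl ⟨e, _, ⟨?_, ?_⟩, rfl⟩
      · have := hlt s hs
        change l s ≤ l s + k * (R s - l s)
        nlinarith
      · have := hlt s hs
        change l s + k * (R s - l s) ≤ R s
        nlinarith
    have hj := joined h.conn (cept h e hcx) hA ha hb hra hta
    refine ⟨_, hA t ht, rfl, ?_⟩
    have he : ((s, y) : E5) = (s, c.ept (q s) (deriv q s) e (l s + k * (R s - l s))) := by
      rw [hy, ← hxe]
    rw [he]
    exact hj
  · change y = c.vp w π s (q s) (deriv q s) i u at hy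
    have hA : ∀ s ∈ J, ((s, c.vp w π s (q s) (deriv q s) i u) : E5) ∈ c.surf w π q :=
      fun s _ => Or.inr ⟨i, u, hu, rfl⟩
    have hj := joined h.conn (cvp h i u) hA ha hb hra hta
    refine ⟨_, hA t ht, rfl, ?_⟩
    rw [hy]
    exact hj

end PUD

theorem t_PUD : Stmt_PUD := by
  intro m n c w J π q h
  refine ⟨?_, ?_⟩
  · intro r hr hJ t ht hle
    exact PUD.main h r hr hJ t t r.1 ht ht hJ ⟨hle, le_rfl⟩ ⟨le_rfl, hle⟩
  · intro r hr hJ t ht hle
    exact PUD.main h r hr hJ t r.1 t ht hJ ht ⟨le_rfl, hle⟩ ⟨hle, le_rfl⟩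

end LCA
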