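import Pool.Agent.LCA.Stmts1

/-!
# REV: reversal of the time
-/

namespace LCA

open Set Filter
open scoped ContDiff Topology

namespace REV

theorem rev_rev (s₀ : ℝ) (q : E5) : rev s₀ (rev s₀ q) = q := by
  obtain ⟨s, x, p, z, F⟩ := q
  show (2 * s₀ - (2 * s₀ - s), x, p, - -z, F) = (s, x, p, z, F)
  rw [neg_neg, sub_sub_cancel]

theorem rev_continuous (s₀ : ℝ) : Continuous (rev s₀) := by
  unfold rev
  fun_prop

/-- The reversal as a homeomorphism. -/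
def hom (s₀ : ℝ) : E5 ≃ₜ E5 where
  toFun := rev s₀
  invFun := rev s₀
  left_inv := rev_rev s₀
  right_inv := rev_rev s₀
  continuous_toFun := rev_continuous s₀
  continuous_invFun := rev_continuous s₀

theorem rev_inj {s₀ : ℝ} {q q' : E5} (h : rev s₀ q = rev s₀ q') : q = q' := by
  rw [← rev_rev s₀ q, h, rev_rev]

theorem rev_fst (s₀ : ℝ) (q : E5) : (rev s₀ q).1 = 2 * s₀ - q.1 := rfl

theorem norm_rev (s₀ : ℝ) (q : E5) : ‖(rev s₀ q).2‖ = ‖q.2‖ := by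
  obtain ⟨s, x, p, z, F⟩ := q
  show ‖((x, p, -z, F) : ℝ × ℝ × ℝ × ℝ)‖ = ‖((x, p, z, F) : ℝ × ℝ × ℝ × ℝ)‖
  simp only [Prod.norm_def, norm_neg]

/-- First projection. -/
def p1 : E5 →L[ℝ] ℝ := ContinuousLinearMap.fst ℝ ℝ (ℝ × ℝ × ℝ × ℝ)

/-- The last four coordinates. -/
def s1 : E5 →L[ℝ] ℝ × ℝ × ℝ × ℝ := ContinuousLinearMap.snd ℝ ℝ (ℝ × ℝ × ℝ × ℝ)

/-- The last three coordinates. -/
def s2 : E5 →L[ℝ] ℝ × ℝ × ℝ := (ContinuousLinearMap.snd ℝ ℝ (ℝ × ℝ × ℝ)).comp s1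

/-- The last two coordinates. -/
def s3 : E5 →L[ℝ] ℝ × ℝ := (ContinuousLinearMap.snd ℝ ℝ (ℝ × ℝ)).comp s2

/-- The linear part of the reversal. -/
noncomputable def lin : E5 →L[ℝ] E5 :=
  (-p1).prod (((ContinuousLinearMap.fst ℝ ℝ (ℝ × ℝ × ℝ)).comp s1).prod
    (((ContinuousLinearMap.fst ℝ ℝ (ℝ × ℝ)).comp s2).prod
      ((-(ContinuousLinearMap.fst ℝ ℝ ℝ).comp s3).prod
        ((ContinuousLinearMap.snd ℝ ℝ ℝ).comp s3))))

theorem lin_apply (w : E5) : lin w = (-w.1, w.2.1, w.2.2.1, -w.2.2.2.1, w.2.2.2.2) := rfl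

theorem rev_eq (s₀ : ℝ) (q : E5) : rev s₀ q = ((2 * s₀, 0, 0, 0, 0) : E5) + lin q := by
  obtain ⟨s, x, p, z, F⟩ := q
  rw [lin_apply]
  show (2 * s₀ - s, x, p, -z, F) = (2 * s₀ + -s, 0 + x, 0 + p, 0 + -z, 0 + F)
  rw [zero_add, zero_add, zero_add, zero_add, sub_eq_add_neg]

theorem hasFDerivAt_rev (s₀ : ℝ) (q : E5) : HasFDerivAt (rev s₀) lin q := by
  have h : rev s₀ = fun q => ((2 * s₀, 0, 0, 0, 0) : E5) + lin q := funext (rev_eq s₀)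
  rw [h]
  exact lin.hasFDerivAt.const_add _

theorem contDiff_rev (s₀ : ℝ) : ContDiff ℝ ∞ (rev s₀) := by
  have h : rev s₀ = fun q => ((2 * s₀, 0, 0, 0, 0) : E5) + lin q := funext (rev_eq s₀)
  rw [h]
  exact contDiff_const.add lin.contDiff

theorem fderiv_comp {s₀ : ℝ} {f : ℝ × ℝ → E5} {b : ℝ × ℝ} (hf : ContDiffAt ℝ ∞ f b) (w : ℝ × ℝ) :
    fderiv ℝ (fun c => rev s₀ (f c)) b w = lin (fderiv ℝ f b w) := by
  have h1 : DifferentiableAt ℝ f b := hf.differentiableAt (by simp)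
  have h2 : HasFDerivAt (fun c => rev s₀ (f c)) (lin.comp (fderiv ℝ f b)) b :=
    (hasFDerivAt_rev s₀ (f b)).comp b h1.hasFDerivAt
  rw [h2.fderiv]
  rfl

theorem exactChart {s₀ : ℝ} {f : ℝ × ℝ → E5} {a : ℝ × ℝ} (h : ExactChart f a) :
    ExactChart (fun b => rev s₀ (f b)) a where
  smooth := by
    filter_upwards [h.smooth] with b hb
    exact (contDiff_rev s₀).contDiffAt.comp b hb
  exact := by
    filter_upwards [h.smooth, h.exact] with b hb he w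
    rw [fderiv_comp hb, lin_apply]
    show (fderiv ℝ f b w).2.2.2.2 =
      (-(f b).2.2.2.1) * (-(fderiv ℝ f b w).1) + (f b).2.2.1 * (fderiv ℝ f b w).2.1
    rw [he w]
    ring
  immersion := by
    intro w h1 h2 h3 h4
    have hs := h.smooth.self_of_nhds
    rw [fderiv_comp hs, lin_apply] at h1 h2 h3 h4
    exact h.immersion w (neg_eq_zero.1 h1) h2 h3 (neg_eq_zero.1 h4)

theorem chartAt {s₀ : ℝ} {A : Set E5} {q : E5} (h : ChartAt A (rev s₀ q)) :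
    ChartAt (rev s₀ ⁻¹' A) q := by
  obtain ⟨f, a, hf, hfa, hA, hN⟩ := h
  refine ⟨fun b => rev s₀ (f b), a, exactChart hf, ?_, ?_, ?_⟩
  · show rev s₀ (f a) = q
    rw [hfa, rev_rev]
  · filter_upwards [hA] with b hb
    show rev s₀ (rev s₀ (f b)) ∈ A
    rw [rev_rev]
    exact hb
  · intro N hNa
    have h1 := hN N hNa
    rw [mem_nhdsWithin] at h1 ⊢
    obtain ⟨U, hU, hqU, hsub⟩ := h1
    refine ⟨rev s₀ ⁻¹' U, hU.preimage (rev_continuous s₀), hqU, ?_⟩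
    rintro r ⟨hr1, hr2⟩
    obtain ⟨b, hbN, hb⟩ := hsub ⟨hr1, hr2⟩
    refine ⟨b, hbN, ?_⟩
    show rev s₀ (f b) = r
    rw [hb, rev_rev]

theorem good {s₀ : ℝ} {J : Set ℝ} {A : Set E5} (h : Good J A) :
    Good ((fun s => 2 * s₀ - s) ⁻¹' J) (rev s₀ ⁻¹' A) where
  closed := by
    intro q hq hJ
    have h1 : closure (rev s₀ ⁻¹' A) = rev s₀ ⁻¹' closure A := ((hom s₀).preimage_closure A).symm
    rw [h1] at hq
    exact h.closed (rev s₀ q) hq hJ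
  bounded := by
    intro K hK hKc
    have hc : Continuous (fun s : ℝ => 2 * s₀ - s) := by fun_prop
    obtain ⟨M, hM⟩ := h.bounded ((fun s => 2 * s₀ - s) '' K) (by
      rintro _ ⟨s, hs, rfl⟩
      exact hK hs) (hKc.image hc)
    refine ⟨M, fun q hq hqK => ?_⟩
    have h1 := hM (rev s₀ q) hq ⟨q.1, hqK, rfl⟩
    rw [norm_rev] at h1
    exact h1
  chart := fun q hq hJ => chartAt (h.chart (rev s₀ q) hq hJ)
  inj := by
    intro q hq q' hq' hJ h1 h2 h3 h4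
    apply rev_inj (s₀ := s₀)
    refine h.inj (rev s₀ q) hq (rev s₀ q') hq' hJ ?_ h2 h3 ?_
    · rw [rev_fst, rev_fst, h1]
    · show -q.2.2.2.1 = -q'.2.2.2.1
      rw [h4]

theorem joined {s₀ : ℝ} {J : Set ℝ} {A : Set E5} {q q' : E5}
    (h : JoinedIn {r ∈ A | r.1 ∈ J} (rev s₀ q) q') :
    JoinedIn {r ∈ rev s₀ ⁻¹' A | r.1 ∈ (fun s => 2 * s₀ - s) ⁻¹' J} q (rev s₀ q') := by
  obtain ⟨γ, hγ⟩ := h
  refine ⟨(γ.map (rev_continuous s₀)).cast (rev_rev s₀ q).symm rfl, fun t => ?_⟩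
  have h1 := hγ t
  show rev s₀ (rev s₀ (γ t)) ∈ A ∧ 2 * s₀ - (2 * s₀ - (γ t).1) ∈ J
  rw [rev_rev, sub_sub_cancel]
  exact h1

theorem dpe_neg {m n : ℕ} (c : Comb m n) (q v : St n) (e : Fin m) :
    c.dpe q (-v) e = -c.dpe q v e := by
  show (-v.2 (c.rt e) - -v.2 (c.lf e) - c.pe q e * (-v.1 (c.rt e) - -v.1 (c.lf e))) /
    (q.1 (c.rt e) - q.1 (c.lf e)) = -((v.2 (c.rt e) - v.2 (c.lf e) -
      c.pe q e * (v.1 (c.rt e) - v.1 (c.lf e))) / (q.1 (c.rt e) - q.1 (c.lf e)))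
  rw [← neg_div]
  congr 1
  ring

theorem dae_neg {m n : ℕ} (c : Comb m n) (q v : St n) (e : Fin m) :
    c.dae q (-v) e = -c.dae q v e := by
  show -v.2 (c.lf e) - c.dpe q (-v) e * q.1 (c.lf e) - c.pe q e * -v.1 (c.lf e) =
    -(v.2 (c.lf e) - c.dpe q v e * q.1 (c.lf e) - c.pe q e * v.1 (c.lf e))
  rw [dpe_neg]
  ring

/-- Change of the sign of `z`. -/
def ng (r : ℝ × ℝ × ℝ × ℝ) : ℝ × ℝ × ℝ × ℝ := (r.1, r.2.1, -r.2.2.1, r.2.2.2)

theorem ng_ng (r : ℝ × ℝ × ℝ × ℝ) : ng (ng r) = r := by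
  obtain ⟨x, p, z, F⟩ := r
  show (x, p, - -z, F) = (x, p, z, F)
  rw [neg_neg]

theorem ept_neg {m n : ℕ} (c : Comb m n) (q v : St n) (e : Fin m) (x : ℝ) :
    c.ept q (-v) e x = ng (c.ept q v e x) := by
  show (x, c.pe q e, c.dpe q (-v) e * x + c.dae q (-v) e, c.pe q e * x + c.ae q e) =
    (x, c.pe q e, -(c.dpe q v e * x + c.dae q v e), c.pe q e * x + c.ae q e)
  rw [dpe_neg, dae_neg]
  congr 3
  ring

theorem vp_neg {m n : ℕ} (c : Comb m n) (w : Fin n → ℝ) (sh : Shape) (s s' : ℝ) (q v : St n)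
    (i : Fin n) (u : ℝ) :
    c.vp w (c.sp sh) s q (-v) i u = ng (c.vp w (c.sp sh) s' q v i u) := by
  have h : ∀ (X P Θ : ℝ), c.vpt q (-v) i (w i) X P Θ 0 = ng (c.vpt q v i (w i) X P Θ 0) := by
    intro X P Θ
    show (q.1 i + w i * X, c.pe q (c.ea i) + c.dl q i * P,
      c.dpe q (-v) (c.ea i) * (q.1 i + w i * X) + c.dae q (-v) (c.ea i)
        + w i * ((c.dpe q (-v) (c.eb i) - c.dpe q (-v) (c.ea i)) * Θ + c.dl q i * 0)
        - c.dl q i * P * -v.1 i,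
      c.pe q (c.ea i) * (q.1 i + w i * X) + c.ae q (c.ea i) + w i * c.dl q i * Θ) =
      (q.1 i + w i * X, c.pe q (c.ea i) + c.dl q i * P,
      -(c.dpe q v (c.ea i) * (q.1 i + w i * X) + c.dae q v (c.ea i)
        + w i * ((c.dpe q v (c.eb i) - c.dpe q v (c.ea i)) * Θ + c.dl q i * 0)
        - c.dl q i * P * v.1 i),
      c.pe q (c.ea i) * (q.1 i + w i * X) + c.ae q (c.ea i) + w i * c.dl q i * Θ)
    rw [dpe_neg, dpe_neg, dae_neg]
    congr 3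
    ring
  exact h _ _ _

theorem slice_neg {m n : ℕ} (c : Comb m n) (w : Fin n → ℝ) (sh : Shape) (s s' : ℝ) (q v : St n)
    (r : ℝ × ℝ × ℝ × ℝ) (hr : ng r ∈ c.slice w (c.sp sh) s' q v) :
    r ∈ c.slice w (c.sp sh) s q (-v) := by
  rcases hr with ⟨e, x, hx, h⟩ | ⟨i, u, hu, h⟩
  · refine Or.inl ⟨e, x, hx, ?_⟩
    rw [ept_neg, ← h, ng_ng]
  · refine Or.inr ⟨i, u, hu, ?_⟩
    rw [vp_neg c w sh s s', ← h, ng_ng]

end REV

theorem t_REV : Stmt_REV := by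
  intro s₀ J A _
  refine ⟨fun h => REV.good h, fun h => ?_, fun h => ?_, ?_⟩
  · intro q hq hJ c hc hle
    obtain ⟨q', hq', hq'c, hj⟩ := h (rev s₀ q) hq hJ (2 * s₀ - c) hc (by
      rw [REV.rev_fst]
      linarith)
    refine ⟨rev s₀ q', ?_, ?_, (REV.joined hj).mono ?_⟩
    · show rev s₀ (rev s₀ q') ∈ A
      rw [REV.rev_rev]
      exact hq'
    · rw [REV.rev_fst, hq'c]
      ring
    · rintro r ⟨hr1, hr2, hr3⟩
      rw [REV.rev_fst] at hr3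
      exact ⟨hr1, sub_le_sub_iff_left (2 * s₀) |>.1 hr3, sub_le_sub_iff_left (2 * s₀) |>.1 hr2⟩
  · intro q hq hJ c hc hle
    obtain ⟨q', hq', hq'c, hj⟩ := h (rev s₀ q) hq hJ (2 * s₀ - c) hc (by
      rw [REV.rev_fst]
      linarith)
    refine ⟨rev s₀ q', ?_, ?_, (REV.joined hj).mono ?_⟩
    · show rev s₀ (rev s₀ q') ∈ A
      rw [REV.rev_rev]
      exact hq'
    · rw [REV.rev_fst, hq'c]
      ring
    · rintro r ⟨hr1, hr2, hr3⟩
      rw [REV.rev_fst] at hr2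
      exact ⟨hr1, sub_le_sub_iff_left (2 * s₀) |>.1 hr3, sub_le_sub_iff_left (2 * s₀) |>.1 hr2⟩
  · intro sh m n c w q
    ext r
    have hd : deriv (fun s => q (2 * s₀ - s)) r.1 = -deriv q (2 * s₀ - r.1) :=
      deriv_comp_const_sub q (2 * s₀) r.1
    show REV.ng r.2 ∈ c.slice w (c.sp sh) (2 * s₀ - r.1) (q (2 * s₀ - r.1))
        (deriv q (2 * s₀ - r.1)) ↔
      r.2 ∈ c.slice w (c.sp sh) r.1 (q (2 * s₀ - r.1)) (deriv (fun s => q (2 * s₀ - s)) r.1)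
    rw [hd]
    constructor
    · exact REV.slice_neg c w sh _ _ _ _ _
    · intro h
      have h1 := REV.slice_neg c w sh (2 * s₀ - r.1) r.1 (q (2 * s₀ - r.1))
        (-deriv q (2 * s₀ - r.1)) (REV.ng r.2) (by rw [REV.ng_ng]; exact h)
      rw [neg_neg] at h1
      exact h1

end LCA
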