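import Pool.Agent.LCA.Stmts1

/-!
# RPL: replacement of a surface inside an open set
-/

namespace LCA

open Set Filter
open scoped ContDiff Topology

namespace RPL

theorem continuous_pr4 : Continuous pr4 := by
  unfold pr4
  fun_prop

/-- `ChartAt` depends only on the germ of the set. -/
theorem chartAt_congr {A A' : Set E5} {q : E5} (h : ∀ᶠ r in 𝓝 q, (r ∈ A' ↔ r ∈ A))
    (hc : ChartAt A q) : ChartAt A' q := by
  obtain ⟨f, a, hf, hfa, hA, hN⟩ := hc
  have hcont : Tendsto f (𝓝 a) (𝓝 q) := by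
    have h1 : ContDiffAt ℝ ∞ f a := hf.smooth.self_of_nhds
    have h2 := h1.continuousAt
    rw [ContinuousAt, hfa] at h2
    exact h2
  have hset : 𝓝[A'] q = 𝓝[A] q := by
    rw [nhdsWithin_eq_iff_eventuallyEq]
    filter_upwards [h] with r hr
    exact propext hr
  refine ⟨f, a, hf, hfa, ?_, ?_⟩
  · filter_upwards [hA, hcont.eventually h] with b hb1 hb2
    exact hb2.2 hb1
  · intro U hU
    rw [hset]
    exact hN U hU

/-- Membership in the closure depends only on the germ of the set. -/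
theorem closure_congr {A A' : Set E5} {q : E5} (h : ∀ᶠ r in 𝓝 q, (r ∈ A' ↔ r ∈ A))
    (hq : q ∈ closure A') : q ∈ closure A := by
  rw [mem_closure_iff_frequently] at hq ⊢
  exact (hq.and_eventually h).mono (fun r hr => hr.2.1 hr.1)

end RPL

open RPL in
theorem t_RPL : Stmt_RPL := by
  intro J A N B C hJ hA hNc hNchart hNinj hB hC hCB hNb hAN
  set A1 : Set E5 := {q | (pr4 q ∉ B ∧ q ∈ A) ∨ (pr4 q ∈ B ∧ q ∈ N)} with hA1
  -- local equality with `N`
  have locN : ∀ q : E5, q.1 ∈ J → pr4 q ∈ B → ∀ᶠ r in 𝓝 q, (r ∈ A1 ↔ r ∈ N) := by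
    intro q hqJ hqB
    have h1 : ∀ᶠ r in 𝓝 q, pr4 r ∈ B :=
      continuous_pr4.continuousAt.eventually (hB (pr4 q) hqB hqJ)
    filter_upwards [h1] with r hr
    constructor
    · rintro (h | h)
      · exact absurd hr h.1
      · exact h.2
    · intro h
      exact Or.inr ⟨hr, h⟩
  -- local equality with `A`
  have locA : ∀ q : E5, q.1 ∈ J → pr4 q ∉ B → ∀ᶠ r in 𝓝 q, (r ∈ A1 ↔ r ∈ A) := by
    intro q hqJ hqB
    have h0 : pr4 q ∈ (closure C)ᶜ := by
      intro h
      exact hqB (hCB (hC (pr4 q) h hqJ))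
    have h1 : ∀ᶠ r in 𝓝 q, pr4 r ∈ (closure C)ᶜ :=
      continuous_pr4.continuousAt.eventually (isClosed_closure.isOpen_compl.mem_nhds h0)
    have h2 : ∀ᶠ r in 𝓝 q, r.1 ∈ J :=
      continuous_fst.continuousAt.eventually (hJ.mem_nhds hqJ)
    filter_upwards [h1, h2] with r hr hrJ
    have hrC : pr4 r ∉ C := fun h => hr (subset_closure h)
    constructor
    · rintro (h | h)
      · exact h.2
      · exact (hAN r hrJ h.1 hrC).2 h.2
    · intro h
      by_cases hb : pr4 r ∈ B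
      · exact Or.inr ⟨hb, (hAN r hrJ hb hrC).1 h⟩
      · exact Or.inl ⟨hb, h⟩
  refine ⟨?_, ?_, ?_, ?_⟩
  · intro q hq hqJ
    by_cases hb : pr4 q ∈ B
    · have h := closure_congr (locN q hqJ hb) hq
      rw [hNc.closure_eq] at h
      exact Or.inr ⟨hb, h⟩
    · have h := closure_congr (locA q hqJ hb) hq
      exact Or.inl ⟨hb, hA.closed q h hqJ⟩
  · intro K hKJ hK
    obtain ⟨M1, hM1⟩ := hA.bounded K hKJ hK
    obtain ⟨M2, hM2⟩ := hNb K hKJ hK
    refine ⟨max M1 M2, ?_⟩
    rintro q (h | h) hqK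
    · exact (hM1 q h.2 hqK).trans (le_max_left _ _)
    · exact (hM2 q h.2 hqK h.1).trans (le_max_right _ _)
  · rintro q hq hqJ
    rcases hq with h | h
    · exact chartAt_congr (locA q hqJ h.1) (hA.chart q h.2 hqJ)
    · exact chartAt_congr (locN q hqJ h.1) (hNchart q h.2 hqJ)
  · intro q hq q' hq' hqJ e1 e2 e3 e4
    have hpr : pr4 q = pr4 q' := by
      unfold pr4
      rw [e1, e2, e3, e4]
    rcases hq with h | h
    · rcases hq' with h' | h'
      · exact hA.inj q h.2 q' h'.2 hqJ e1 e2 e3 e4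
      · exact absurd (hpr ▸ h'.1) h.1
    · rcases hq' with h' | h'
      · exact absurd (hpr ▸ h.1) h'.1
      · exact hNinj q h.2 q' h'.2 hqJ hpr

end LCA
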