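import Pool.Agent.LCA.Stmts1

/-!
# RST: restriction of a good surface to a smaller interval
-/

namespace LCA

open Set Filter
open scoped ContDiff Topology

namespace RST

theorem good_mono {J J' : Set ℝ} {A : Set E5} (hJ : J' ⊆ J) (h : Good J A) : Good J' A where
  closed q hq hq1 := h.closed q hq (hJ hq1)
  bounded K hK hKc := h.bounded K (hK.trans hJ) hKc
  chart q hq hq1 := h.chart q hq (hJ hq1)
  inj q hq q' hq' hq1 h1 h2 h3 h4 := h.inj q hq q' hq' (hJ hq1) h1 h2 h3 h4

end RST

theorem t_RST : Stmt_RST := fun _ _ _ _ hJ h => RST.good_mono hJ h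

end LCA
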