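import Pool.Agent.LCA.Stmts4

/-!
# SAM: the first part of the check of a motion
-/

namespace LCA

open Set Filter
open scoped ContDiff Topology

namespace SAM

/-- The facts about one vertex. -/
structure VF (T : ℤ) (a b : VS) : Prop where
  ty : a.ty = b.ty
  ea : a.ea = b.ea
  eb : a.eb = b.eb
  w : a.w = b.w
  x : b.x = a.x + T * b.dx
  F : b.F = a.F + T * b.dF
  tip : a.ty = 0 ∨ (a.pa < a.pb ∧ b.pa < b.pb) ∨ (a.pb < a.pa ∧ b.pb < b.pa)

theorem vf (hCBL : Stmt_CBL) {T : ℤ} {a b : VS} (h : smV T a b = true) : VF T a b := by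
  obtain ⟨hb, ho, hl, he, -⟩ := hCBL
  unfold smV at h
  rw [hb, hb, hb, hb, hb, hb, ho, ho, hb, hb, he, he, he, hl, hl, hl, hl] at h
  obtain ⟨h1, h2, h3, h4, h5, h6, h7⟩ := h
  refine ⟨Nat.eq_of_beq_eq_true h1, Nat.eq_of_beq_eq_true h2, Nat.eq_of_beq_eq_true h3, h4, h5, h6,
    ?_⟩
  rcases h7 with h7 | h7
  · exact Or.inl (Nat.eq_of_beq_eq_true h7)
  · exact Or.inr h7

end SAM

theorem t_SAM (hCBL : Stmt_CBL) : Stmt_SAM := by
  intro m n T A B fA fB vA vB h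
  have hCBL' := hCBL
  obtain ⟨hb, ho, hl, he, -, -, -, -, -, h2, -, -⟩ := hCBL'
  unfold goOK at h
  rw [hb, hb, hb, hb, hb] at h
  obtain ⟨h0, hV, hE, -⟩ := h
  rw [hl] at h0
  have hV' : ∀ i, i < n + 1 → SAM.VF T (A.v i) (B.v i) := by
    intro i hi
    refine SAM.vf hCBL ?_
    exact (h2 VS VS vs0 vs0 (smV T) A.vs B.vs).mp hV i (by rw [fA.lenV]; exact hi)
      (by rw [fB.lenV]; exact hi)
  have hE' : ∀ i, i < m + 1 → (A.e i).lf = (B.e i).lf ∧ (A.e i).rt = (B.e i).rt := by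
    intro i hi
    have h1 := (h2 ES ES es0 es0 smE A.es B.es).mp hE i (by rw [fA.lenE]; exact hi)
      (by rw [fB.lenE]; exact hi)
    unfold smE at h1
    rw [hb] at h1
    exact ⟨Nat.eq_of_beq_eq_true h1.1, Nat.eq_of_beq_eq_true h1.2⟩
  have hcb : A.cb m n = B.cb m n := by
    unfold SD.cb
    rw [Comb.mk.injEq]
    refine ⟨?_, ?_, ?_, ?_, ?_⟩
    · funext e
      rw [(hE' e e.2).1]
    · funext e
      rw [(hE' e e.2).2]
    · funext i
      rw [(hV' i i.2).ty]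
    · funext i
      rw [(hV' i i.2).ea]
    · funext i
      rw [(hV' i i.2).eb]
  refine ⟨by exact_mod_cast h0, hcb, ?_, ?_, ?_⟩
  · funext i
    show ((A.v i).w : ℝ) = ((B.v i).w : ℝ)
    rw [(hV' i i.2).w]
  · refine Prod.ext ?_ ?_
    · funext i
      show ((B.v i).x : ℝ) = ((A.v i).x : ℝ) + (T : ℝ) * ((B.v i).dx : ℝ)
      exact_mod_cast (hV' i i.2).x
    · funext i
      show ((B.v i).F : ℝ) = ((A.v i).F : ℝ) + (T : ℝ) * ((B.v i).dF : ℝ)
      exact_mod_cast (hV' i i.2).F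
  · intro i hi
    have hty : (A.v i).ty ≠ 0 := by
      intro h3
      apply hi
      show tyOf (A.v i).ty = Ty.P
      rw [h3]
      rfl
    have hA : (A.cb m n).dl (A.Q n) i = ((A.v i).pb : ℝ) - ((A.v i).pa : ℝ) := by
      unfold Comb.dl
      rw [vA.peb, vA.pea]
    have hB : (A.cb m n).dl (B.Q n) i = ((B.v i).pb : ℝ) - ((B.v i).pa : ℝ) := by
      rw [hcb]
      unfold Comb.dl
      rw [vB.peb, vB.pea]
    rw [hA, hB]
    rcases (hV' i i.2).tip with h3 | ⟨h3, h4⟩ | ⟨h3, h4⟩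
    · exact absurd h3 hty
    · left
      exact ⟨sub_pos.mpr (by exact_mod_cast h3), sub_pos.mpr (by exact_mod_cast h4)⟩
    · right
      exact ⟨sub_neg.mpr (by exact_mod_cast h3), sub_neg.mpr (by exact_mod_cast h4)⟩

end LCA
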