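import Pool.Agent.LCA.Stmts2

/-!
# SDA: after the saddle
-/

namespace LCA

open Set Filter
open scoped ContDiff Topology

namespace SDA

theorem deriv_lin {n : ℕ} (Q V : St n) (t s : ℝ) : deriv (lin Q V t) s = V := by
  have h : HasDerivAt (lin Q V t) ((1 : ℝ) • V) s :=
    (((hasDerivAt_id s).sub_const t).smul_const V).const_add Q
  rw [h.deriv, one_smul]

variable {m n : ℕ}

/-- The slope is constant if `dpe = 0`. -/
theorem pe_const (c : Comb m n) (Q V : St n) (e : Fin m) (t : ℝ) (h0 : c.dpe Q V e = 0)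
    (h1 : Q.1 (c.rt e) - Q.1 (c.lf e) ≠ 0)
    (h2 : (Q + t • V).1 (c.rt e) - (Q + t • V).1 (c.lf e) ≠ 0) :
    c.pe (Q + t • V) e = c.pe Q e ∧ c.dpe (Q + t • V) V e = 0 := by
  have h3 : V.2 (c.rt e) - V.2 (c.lf e) - c.pe Q e * (V.1 (c.rt e) - V.1 (c.lf e)) = 0 := by
    have h4 := h0
    unfold Comb.dpe at h4
    rcases div_eq_zero_iff.1 h4 with h5 | h5
    · exact h5
    · exact absurd h5 h1
  have h6 : c.pe Q e * (Q.1 (c.rt e) - Q.1 (c.lf e)) = Q.2 (c.rt e) - Q.2 (c.lf e) := by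
    unfold Comb.pe
    exact div_mul_cancel₀ _ h1
  have h7 : c.pe (Q + t • V) e = c.pe Q e := by
    have h8 : c.pe (Q + t • V) e = ((Q + t • V).2 (c.rt e) - (Q + t • V).2 (c.lf e)) /
        ((Q + t • V).1 (c.rt e) - (Q + t • V).1 (c.lf e)) := rfl
    rw [h8, div_eq_iff h2]
    simp only [Prod.fst_add, Prod.snd_add, Prod.smul_fst, Prod.smul_snd, Pi.add_apply,
      Pi.smul_apply, smul_eq_mul]
    linear_combination -h6 + t * h3
  refine ⟨h7, ?_⟩
  unfold Comb.dpe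
  rw [h7, h3, zero_div]

/-- A strand through a pass. -/
noncomputable def strand (sh : Shape) (x₀ r p p' z F x : ℝ) : ℝ × ℝ × ℝ × ℝ :=
  (x, p + (p' - p) * sh.τ ((x - x₀) / r), z,
    F + p * (x - x₀) + (p' - p) * r * sh.ΘP ((x - x₀) / r))

theorem I1rt (c : Comb m n) (q : St n) (e : Fin m) (h : q.1 (c.rt e) - q.1 (c.lf e) ≠ 0) :
    q.2 (c.rt e) = c.pe q e * q.1 (c.rt e) + c.ae q e := by
  have h6 : c.pe q e * (q.1 (c.rt e) - q.1 (c.lf e)) = q.2 (c.rt e) - q.2 (c.lf e) := by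
    unfold Comb.pe
    exact div_mul_cancel₀ _ h
  unfold Comb.ae
  linear_combination -h6

theorem I2rt (c : Comb m n) (q v : St n) (e : Fin m) (h : q.1 (c.rt e) - q.1 (c.lf e) ≠ 0)
    (h0 : c.dpe q v e = 0) (hv : v.1 (c.rt e) = 0) : c.dae q v e = v.2 (c.rt e) := by
  have h3 : v.2 (c.rt e) - v.2 (c.lf e) - c.pe q e * (v.1 (c.rt e) - v.1 (c.lf e)) = 0 := by
    have h4 := h0
    unfold Comb.dpe at h4
    rcases div_eq_zero_iff.1 h4 with h5 | h5
    · exact h5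
    · exact absurd h5 h
  unfold Comb.dae
  rw [h0]
  rw [hv] at h3
  linear_combination -h3

/-- The edge on the left of a pass. -/
theorem ept_left (sh : Shape) (c : Comb m n) (q v : St n) (e : Fin m) (x₀ r p' x : ℝ)
    (hr : 0 < r) (h : q.1 (c.rt e) - q.1 (c.lf e) ≠ 0) (h0 : c.dpe q v e = 0)
    (hv : v.1 (c.rt e) = 0) (hx0 : q.1 (c.rt e) = x₀) (hx : x ≤ x₀ - r) :
    c.ept q v e x = strand sh x₀ r (c.pe q e) p' (v.2 (c.rt e)) (q.2 (c.rt e)) x := by
  have hU : (x - x₀) / r ≤ -1 := by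
    rw [div_le_iff₀ hr]
    linarith
  have h1 := I1rt c q e h
  have h2 := I2rt c q v e h h0 hv
  unfold Comb.ept strand
  rw [sh.τ_low _ hU, sh.ΘP_low _ hU, h0, h2]
  rw [hx0] at h1
  refine Prod.ext rfl (Prod.ext ?_ (Prod.ext ?_ ?_))
  · simp
  · simp
  · simp only
    linear_combination -h1

/-- The edge on the right of a pass. -/
theorem ept_right (sh : Shape) (c : Comb m n) (q v : St n) (e : Fin m) (x₀ r p x : ℝ)
    (hr : 0 < r) (h0 : c.dpe q v e = 0)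
    (hv : v.1 (c.lf e) = 0) (hx0 : q.1 (c.lf e) = x₀) (hx : x₀ + r ≤ x) :
    c.ept q v e x = strand sh x₀ r p (c.pe q e) (v.2 (c.lf e)) (q.2 (c.lf e)) x := by
  have hU : 1 ≤ (x - x₀) / r := by
    rw [le_div_iff₀ hr]
    linarith
  unfold Comb.ept strand
  rw [sh.τ_high _ hU, sh.ΘP_high _ hU, h0]
  unfold Comb.dae Comb.ae
  rw [h0, hv, hx0]
  have h5 : r * ((x - x₀) / r) = x - x₀ := mul_div_cancel₀ _ hr.ne'
  refine Prod.ext rfl (Prod.ext ?_ (Prod.ext ?_ ?_))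
  · simp
  · simp
  · simp only
    linear_combination -(c.pe q e - p) * h5

/-- The piece of a pass. -/
theorem vp_pass (sh : Shape) (c : Comb m n) (w : Fin n → ℝ) (s : ℝ) (q v : St n) (i : Fin n)
    (x₀ r u : ℝ) (hr : 0 < r) (hty : c.ty i = .P) (hrt : c.rt (c.ea i) = i)
    (h : q.1 (c.rt (c.ea i)) - q.1 (c.lf (c.ea i)) ≠ 0)
    (h0 : c.dpe q v (c.ea i) = 0) (h0' : c.dpe q v (c.eb i) = 0) (hv : v.1 i = 0)
    (hx0 : q.1 i = x₀) (hw : w i = r) :
    c.vp w (c.sp sh) s q v i u =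
      strand sh x₀ r (c.pe q (c.ea i)) (c.pe q (c.eb i)) (v.2 i) (q.2 i) (x₀ + r * u) := by
  have h1 := I1rt c q (c.ea i) h
  have h2 := I2rt c q v (c.ea i) h h0 (by rw [hrt]; exact hv)
  rw [hrt] at h1 h2
  have hU : (x₀ + r * u - x₀) / r = u := by
    rw [add_sub_cancel_left]
    exact mul_div_cancel_left₀ _ hr.ne'
  unfold Comb.vp Comb.vpt strand Comb.dl
  rw [hU]
  simp only [Comb.sp, Shape.st, hty, hw, hx0, h0, h0', h2, hv]
  rw [hx0] at h1
  refine Prod.ext rfl (Prod.ext rfl (Prod.ext ?_ ?_))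
  · simp
  · simp only
    linear_combination -h1

theorem pt_low (sh : Shape) (E : Evt) (hE : E.Pos) (u x : ℝ) (hu : u ≤ -1) :
    (E.pt sh 1 1 (u, x)).2 = strand sh E.x₀ E.r (E.P₁ + E.g / 2) (E.P₂ - E.g / 2) (E.z₀ - E.ζ)
      (E.F₀ + ((E.pt sh 1 1 (u, x)).1 - E.s₀) * (E.z₀ - E.ζ)) x := by
  have hr := hE.r
  have hv := hE.v
  have hξ : sh.ξ u = u := by
    rw [sh.ξ_out u (by rw [abs_of_nonpos (by linarith)]; linarith),
      abs_of_nonpos (by linarith)]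
    ring
  unfold Evt.pt strand Shape.Psi
  simp only
  rw [hξ, sh.τ_low u hu, sh.ΘR_low u hu]
  refine Prod.ext rfl (Prod.ext ?_ (Prod.ext ?_ ?_))
  · simp only [Evt.ζ]
    field_simp
    ring
  · simp only [Evt.ζ]
    ring
  · simp only [Evt.ζ]
    field_simp
    ring

theorem pt_high (sh : Shape) (E : Evt) (hE : E.Pos) (u x : ℝ) (hu : 1 ≤ u) :
    (E.pt sh 1 1 (u, x)).2 = strand sh E.x₀ E.r (E.P₁ - E.g / 2) (E.P₂ + E.g / 2) (E.z₀ + E.ζ)
      (E.F₀ + ((E.pt sh 1 1 (u, x)).1 - E.s₀) * (E.z₀ + E.ζ)) x := by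
  have hr := hE.r
  have hv := hE.v
  have hξ : sh.ξ u = -u := by
    rw [sh.ξ_out u (by rw [abs_of_nonneg (by linarith)]; linarith),
      abs_of_nonneg (by linarith)]
  unfold Evt.pt strand Shape.Psi
  simp only
  rw [hξ, sh.τ_high u hu, sh.ΘR_high u hu]
  refine Prod.ext rfl (Prod.ext ?_ (Prod.ext ?_ ?_))
  · simp only [Evt.ζ]
    field_simp
    ring
  · simp only [Evt.ζ]
    ring
  · simp only [Evt.ζ]
    field_simp
    ring

theorem Psi_ge (sh : Shape) (U : ℝ) : -5 ≤ sh.Psi U := by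
  unfold Shape.Psi
  rcases le_total U (-1) with h | h
  · rw [sh.ΘP_low U h]
    linarith
  · rcases le_total 1 U with h' | h'
    · rw [sh.ΘP_high U h']
      linarith
    · have h2 : |U| ≤ 2 := abs_le.2 ⟨by linarith, by linarith⟩
      have h3 := (abs_le.1 (sh.ΘP_bd U h2)).1
      linarith

/-- The points of the surface after the critical time. -/
theorem pt_cases (sh : Shape) (E : Evt) (hE : E.Pos) (a : ℝ × ℝ)
    (hs : E.s₀ + 8 * E.r / E.v < (E.pt sh 1 1 a).1) :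
    (E.pt sh 1 1 a).2 = strand sh E.x₀ E.r (E.P₁ + E.g / 2) (E.P₂ - E.g / 2) (E.z₀ - E.ζ)
      (E.F₀ + ((E.pt sh 1 1 a).1 - E.s₀) * (E.z₀ - E.ζ)) a.2 ∨
    (E.pt sh 1 1 a).2 = strand sh E.x₀ E.r (E.P₁ - E.g / 2) (E.P₂ + E.g / 2) (E.z₀ + E.ζ)
      (E.F₀ + ((E.pt sh 1 1 a).1 - E.s₀) * (E.z₀ + E.ζ)) a.2 := by
  obtain ⟨u, x⟩ := a
  have hr := hE.r
  have hv := hE.v
  have h1 : (E.pt sh 1 1 (u, x)).1 =
      E.s₀ - (E.r / E.v) * (sh.ξ u + sh.Psi ((x - E.x₀) / E.r)) := by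
    unfold Evt.pt
    simp only
    ring
  have h2 : 0 < E.r / E.v := div_pos hr hv
  have h3 : sh.ξ u + sh.Psi ((x - E.x₀) / E.r) < -8 := by
    rw [h1] at hs
    have h4 : (E.r / E.v) * (sh.ξ u + sh.Psi ((x - E.x₀) / E.r)) < (E.r / E.v) * (-8) := by
      have h5 : 8 * E.r / E.v = (E.r / E.v) * 8 := by ring
      rw [h5] at hs
      linarith
    exact lt_of_mul_lt_mul_left h4 h2.le
  have h6 := Psi_ge sh ((x - E.x₀) / E.r)
  rcases le_total u (-1) with h | h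
  · left
    exact pt_low sh E hE u x h
  · rcases le_total 1 u with h' | h'
    · right
      exact pt_high sh E hE u x h'
    · exfalso
      have h7 := (abs_le.1 (sh.ξ_in u (abs_le.2 ⟨h, h'⟩))).1
      linarith

/-- All the points of the strands are on the surface. -/
theorem exists_pt (sh : Shape) (E : Evt) (hE : E.Pos) (s x : ℝ) (hs : E.s₀ + 8 * E.r / E.v < s) :
    (∃ a, E.pt sh 1 1 a = (s, strand sh E.x₀ E.r (E.P₁ + E.g / 2) (E.P₂ - E.g / 2) (E.z₀ - E.ζ)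
      (E.F₀ + (s - E.s₀) * (E.z₀ - E.ζ)) x)) ∧
    (∃ a, E.pt sh 1 1 a = (s, strand sh E.x₀ E.r (E.P₁ - E.g / 2) (E.P₂ + E.g / 2) (E.z₀ + E.ζ)
      (E.F₀ + (s - E.s₀) * (E.z₀ + E.ζ)) x)) := by
  have hr := hE.r
  have hv := hE.v
  have h2 : 0 < E.r / E.v := div_pos hr hv
  have h0 : 0 < E.v / E.r := div_pos hv hr
  set K : ℝ := (E.v / E.r) * (s - E.s₀) + sh.Psi ((x - E.x₀) / E.r) with hK
  have h6 := Psi_ge sh ((x - E.x₀) / E.r)
  have h8 : 8 < (E.v / E.r) * (s - E.s₀) := by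
    have h9 : (E.v / E.r) * (8 * E.r / E.v) < (E.v / E.r) * (s - E.s₀) :=
      mul_lt_mul_of_pos_left (by linarith) h0
    have h10 : (E.v / E.r) * (8 * E.r / E.v) = 8 := by field_simp
    linarith
  have hK1 : 1 < K := by rw [hK]; linarith
  have h1 : ∀ u, (E.pt sh 1 1 (u, x)).1 =
      E.s₀ - (E.r / E.v) * (sh.ξ u + sh.Psi ((x - E.x₀) / E.r)) := by
    intro u
    unfold Evt.pt
    simp only
    ring
  have h11 : ∀ u, |u| = K → (E.pt sh 1 1 (u, x)).1 = s := by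
    intro u hu
    rw [h1 u, sh.ξ_out u (by rw [hu]; exact hK1.le), hu, hK]
    field_simp
    ring
  refine ⟨⟨(-K, x), ?_⟩, ⟨(K, x), ?_⟩⟩
  · have h12 : (E.pt sh 1 1 (-K, x)).1 = s :=
      h11 (-K) (by rw [abs_neg, abs_of_pos (by linarith)])
    have h13 := pt_low sh E hE (-K) x (by linarith)
    rw [h12] at h13
    exact Prod.ext h12 h13
  · have h12 : (E.pt sh 1 1 (K, x)).1 = s := h11 K (abs_of_pos (by linarith))
    have h13 := pt_high sh E hE K x hK1.le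
    rw [h12] at h13
    exact Prod.ext h12 h13

/-- The data of a pass at the critical point. -/
structure Pass (c : Comb m n) (w : Fin n → ℝ) (q v : St n) (i : Fin n) (a b : Fin m)
    (x₀ r : ℝ) : Prop where
  hty : c.ty i = .P
  hea : c.ea i = a
  heb : c.eb i = b
  hrt : c.rt a = i
  hlf : c.lf b = i
  hr : 0 < r
  hda : c.dpe q v a = 0
  hdb : c.dpe q v b = 0
  hv : v.1 i = 0
  hq : q.1 i = x₀
  hw : w i = r
  hne : q.1 (c.rt a) - q.1 (c.lf a) ≠ 0

theorem Pass.left {c : Comb m n} {w : Fin n → ℝ} {q v : St n} {i : Fin n} {a b : Fin m}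
    {x₀ r : ℝ} (h : Pass c w q v i a b x₀ r) (sh : Shape) (x : ℝ) (hx : x ≤ x₀ - r) :
    c.ept q v a x = strand sh x₀ r (c.pe q a) (c.pe q b) (v.2 i) (q.2 i) x := by
  have h1 := ept_left sh c q v a x₀ r (c.pe q b) x h.hr h.hne h.hda (by rw [h.hrt]; exact h.hv)
    (by rw [h.hrt]; exact h.hq) hx
  rwa [h.hrt] at h1

theorem Pass.right {c : Comb m n} {w : Fin n → ℝ} {q v : St n} {i : Fin n} {a b : Fin m}
    {x₀ r : ℝ} (h : Pass c w q v i a b x₀ r) (sh : Shape) (x : ℝ) (hx : x₀ + r ≤ x) :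
    c.ept q v b x = strand sh x₀ r (c.pe q a) (c.pe q b) (v.2 i) (q.2 i) x := by
  have h1 := ept_right sh c q v b x₀ r (c.pe q a) x h.hr h.hdb (by rw [h.hlf]; exact h.hv)
    (by rw [h.hlf]; exact h.hq) hx
  rwa [h.hlf] at h1

theorem Pass.mid {c : Comb m n} {w : Fin n → ℝ} {q v : St n} {i : Fin n} {a b : Fin m}
    {x₀ r : ℝ} (h : Pass c w q v i a b x₀ r) (sh : Shape) (s u : ℝ) :
    c.vp w (c.sp sh) s q v i u =
      strand sh x₀ r (c.pe q a) (c.pe q b) (v.2 i) (q.2 i) (x₀ + r * u) := by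
  have h1 := vp_pass sh c w s q v i x₀ r u h.hr h.hty (by rw [h.hea]; exact h.hrt)
    (by rw [h.hea]; exact h.hne) (by rw [h.hea]; exact h.hda) (by rw [h.heb]; exact h.hdb) h.hv h.hq h.hw
  rwa [h.hea, h.heb] at h1

theorem Pass.cover {c : Comb m n} {w : Fin n → ℝ} {q v : St n} {i : Fin n} {a b : Fin m}
    {x₀ r : ℝ} (h : Pass c w q v i a b x₀ r) (sh : Shape) (s ρ x : ℝ)
    (hl : q.1 (c.lf a) + 2 * w (c.lf a) < x₀ - ρ) (hr : x₀ + ρ < q.1 (c.rt b) - 2 * w (c.rt b))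
    (hx : |x - x₀| < ρ) :
    (x ∈ c.rg w q a ∧
      strand sh x₀ r (c.pe q a) (c.pe q b) (v.2 i) (q.2 i) x = c.ept q v a x) ∨
    (∃ u, |u| ≤ 2 ∧ strand sh x₀ r (c.pe q a) (c.pe q b) (v.2 i) (q.2 i) x =
      c.vp w (c.sp sh) s q v i u) ∨
    (x ∈ c.rg w q b ∧
      strand sh x₀ r (c.pe q a) (c.pe q b) (v.2 i) (q.2 i) x = c.ept q v b x) := by
  have hx' := abs_lt.1 hx
  have hr0 := h.hr
  rcases lt_or_ge x (x₀ - 2 * r) with h1 | h1
  · left
    refine ⟨⟨by linarith, ?_⟩, (h.left sh x (by linarith)).symm⟩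
    rw [h.hrt, h.hq, h.hw]
    exact h1.le
  · rcases lt_or_ge (x₀ + 2 * r) x with h2 | h2
    · right
      right
      refine ⟨⟨?_, by linarith⟩, (h.right sh x (by linarith)).symm⟩
      rw [h.hlf, h.hq, h.hw]
      exact h2.le
    · right
      left
      refine ⟨(x - x₀) / r, ?_, ?_⟩
      · rw [abs_div, abs_of_pos hr0, div_le_iff₀ hr0]
        exact abs_le.2 ⟨by linarith, by linarith⟩
      · rw [h.mid sh s, mul_div_cancel₀ _ hr0.ne', add_sub_cancel]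

end SDA

open SDA in
theorem t_SDA (hCER : Stmt_CER) (hPST : Stmt_PST) (hVLN : Stmt_VLN) : Stmt_SDA := by
  intro m n sh c c' w L R H₁ H₂ H₃ H₄ E Q V V' η hS r hr
  have hE := hS.pos
  have hr0 := hE.r
  have hv0 := hE.v
  have hη : 0 < η := by
    have h1 := hS.small
    by_contra h2
    have h3 : E.v * η ≤ 0 := mul_nonpos_of_nonneg_of_nonpos hv0.le (not_lt.1 h2)
    linarith
  have h8 : 0 < 8 * E.r / E.v := by positivity
  have hr1 : E.s₀ + 8 * E.r / E.v < r.1 := hr.1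
  have hr2 : r.1 < E.s₀ + η := hr.2
  set t : ℝ := r.1 - E.s₀ with ht
  have htm : t ∈ Icc (-η) η := ⟨by linarith, by linarith⟩
  have h0m : (0 : ℝ) ∈ Icc (-η) η := ⟨by linarith, by linarith⟩
  set q : St n := Q + t • V' with hq
  have hlin : lin Q V' E.s₀ r.1 = q := rfl
  have hlen : ∀ e, q.1 (c'.rt e) - q.1 (c'.lf e) ≠ 0 := by
    intro e
    have h1 := (hS.cert t htm).len e
    have h2 := hS.wpos (c'.lf e)
    have h3 := hS.wpos (c'.rt e)
    have h4 : 0 < q.1 (c'.rt e) - q.1 (c'.lf e) := by rw [hq]; linarith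
    exact h4.ne'
  have hlen0 : ∀ e, Q.1 (c'.rt e) - Q.1 (c'.lf e) ≠ 0 := by
    intro e
    have h1 := (hS.cert 0 h0m).len e
    have h2 := hS.wpos (c'.lf e)
    have h3 := hS.wpos (c'.rt e)
    rw [zero_smul, add_zero] at h1
    have h4 : 0 < Q.1 (c'.rt e) - Q.1 (c'.lf e) := by linarith
    exact h4.ne'
  obtain ⟨e1, d1⟩ := pe_const c' Q V' H₁ t hS.d1 (hlen0 _) (hlen _)
  obtain ⟨e2, d2⟩ := pe_const c' Q V' H₂ t hS.d2 (hlen0 _) (hlen _)
  obtain ⟨e3, d3⟩ := pe_const c' Q V' H₃ t hS.d3 (hlen0 _) (hlen _)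
  obtain ⟨e4, d4⟩ := pe_const c' Q V' H₄ t hS.d4 (hlen0 _) (hlen _)
  have r1 : c'.rt H₁ = L := by
    have h1 := hS.comb.valid'.oka L
    unfold Comb.OKa at h1
    rw [hS.comb.tyL', hS.comb.aL'] at h1
    exact h1
  have l4 : c'.lf H₄ = L := by
    have h1 := hS.comb.valid'.okb L
    unfold Comb.OKb at h1
    rw [hS.comb.tyL', hS.comb.bL'] at h1
    exact h1
  have r3 : c'.rt H₃ = R := by
    have h1 := hS.comb.valid'.oka R
    unfold Comb.OKa at h1
    rw [hS.comb.tyR', hS.comb.aR'] at h1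
    exact h1
  have l2 : c'.lf H₂ = R := by
    have h1 := hS.comb.valid'.okb R
    unfold Comb.OKb at h1
    rw [hS.comb.tyR', hS.comb.bR'] at h1
    exact h1
  have qL : q.1 L = E.x₀ := by
    simp only [hq, Prod.fst_add, Prod.smul_fst, Pi.add_apply, Pi.smul_apply, smul_eq_mul, hS.xL,
      hS.xL', mul_zero, add_zero]
  have qR : q.1 R = E.x₀ := by
    simp only [hq, Prod.fst_add, Prod.smul_fst, Pi.add_apply, Pi.smul_apply, smul_eq_mul, hS.xR,
      hS.xR', mul_zero, add_zero]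
  have fL : q.2 L = E.F₀ + t * (E.z₀ - E.ζ) := by
    simp only [hq, Prod.snd_add, Prod.smul_snd, Pi.add_apply, Pi.smul_apply, smul_eq_mul, hS.FL,
      hS.FL']
  have fR : q.2 R = E.F₀ + t * (E.z₀ + E.ζ) := by
    simp only [hq, Prod.snd_add, Prod.smul_snd, Pi.add_apply, Pi.smul_apply, smul_eq_mul, hS.FR,
      hS.FR']
  have pL : Pass c' w q V' L H₁ H₄ E.x₀ E.r :=
    ⟨hS.comb.tyL', hS.comb.aL', hS.comb.bL', r1, l4, hr0, d1, d4, hS.xL', qL, hS.wL, hlen _⟩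
  have pR : Pass c' w q V' R H₃ H₂ E.x₀ E.r :=
    ⟨hS.comb.tyR', hS.comb.aR', hS.comb.bR', r3, l2, hr0, d3, d2, hS.xR', qR, hS.wR, hlen _⟩
  set low : ℝ → ℝ × ℝ × ℝ × ℝ := strand sh E.x₀ E.r (E.P₁ + E.g / 2) (E.P₂ - E.g / 2)
    (E.z₀ - E.ζ) (E.F₀ + t * (E.z₀ - E.ζ)) with hlow
  set up : ℝ → ℝ × ℝ × ℝ × ℝ := strand sh E.x₀ E.r (E.P₁ - E.g / 2) (E.P₂ + E.g / 2)
    (E.z₀ + E.ζ) (E.F₀ + t * (E.z₀ + E.ζ)) with hup
  have sL : strand sh E.x₀ E.r (c'.pe q H₁) (c'.pe q H₄) (V'.2 L) (q.2 L) = low := by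
    rw [hlow, e1, e4, hS.p1, hS.p4, hS.FL', fL]
  have sR : strand sh E.x₀ E.r (c'.pe q H₃) (c'.pe q H₂) (V'.2 R) (q.2 R) = up := by
    rw [hup, e3, e2, hS.p3, hS.p2, hS.FR', fR]
  have hρ : 2 * E.r < E.v * η + 2 * E.r := by
    have h1 : 0 < E.v * η := mul_pos hv0 hη
    linarith
  have mem_low : ∀ x, |x - E.x₀| < E.v * η + 2 * E.r → r.2 = low x →
      r ∈ E.set sh 1 1 ∧ |r.2.1 - E.x₀| < E.v * η + 2 * E.r := by
    intro x hx hrx
    obtain ⟨⟨a, ha⟩, -⟩ := exists_pt sh E hE r.1 x hr1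
    refine ⟨⟨a, ?_⟩, ?_⟩
    · rw [ha]
      exact Prod.ext rfl hrx.symm
    · rw [hrx]
      exact hx
  have mem_up : ∀ x, |x - E.x₀| < E.v * η + 2 * E.r → r.2 = up x →
      r ∈ E.set sh 1 1 ∧ |r.2.1 - E.x₀| < E.v * η + 2 * E.r := by
    intro x hx hrx
    obtain ⟨-, ⟨a, ha⟩⟩ := exists_pt sh E hE r.1 x hr1
    refine ⟨⟨a, ?_⟩, ?_⟩
    · rw [ha]
      exact Prod.ext rfl hrx.symm
    · rw [hrx]
      exact hx
  have hc1 : ∀ i u, c'.vp w (c'.sp sh) r.1 (lin Q V' E.s₀ r.1)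
      (deriv (lin Q V' E.s₀) r.1) i u = c'.vp w (c'.sp sh) r.1 q V' i u := by
    intro i u
    rw [deriv_lin, hlin]
  have hc2 : ∀ e x, c'.ept (lin Q V' E.s₀ r.1) (deriv (lin Q V' E.s₀) r.1) e x =
      c'.ept q V' e x := by
    intro e x
    rw [deriv_lin, hlin]
  constructor
  · rintro (⟨e, -, -, -, -, x, hx, h⟩ | ⟨i, -, -, u, hu, h⟩ | ⟨e, -, x, hx, -, h⟩ | ⟨⟨a, ha⟩, h⟩)
    · exact Or.inl ⟨e, x, hx, h⟩
    · exact Or.inr ⟨i, u, hu, h⟩
    · exact Or.inl ⟨e, x, hx, h⟩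
    · have hsa : (E.pt sh 1 1 a).1 = r.1 := by rw [ha]
      have hxa : a.2 = r.2.1 := by
        rw [← ha]
        rfl
      have h1 := pt_cases sh E hE a (by rw [hsa]; exact hr1)
      rw [ha, hxa] at h1
      rcases h1 with h1 | h1
      · have h2 : r.2 = low r.2.1 := h1
        rcases pL.cover sh r.1 (E.v * η + 2 * E.r) r.2.1
            (by have := hS.len1 t htm; rw [hq]; linarith)
            (by have := hS.len4 t htm; rw [hq]; linarith) h with
          ⟨h3, h4⟩ | ⟨u, hu, h4⟩ | ⟨h3, h4⟩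
        · refine Or.inl ⟨H₁, r.2.1, h3, ?_⟩
          rw [hc2, ← h4, sL]
          exact h2
        · refine Or.inr ⟨L, u, hu, ?_⟩
          rw [hc1, ← h4, sL]
          exact h2
        · refine Or.inl ⟨H₄, r.2.1, h3, ?_⟩
          rw [hc2, ← h4, sL]
          exact h2
      · have h2 : r.2 = up r.2.1 := h1
        rcases pR.cover sh r.1 (E.v * η + 2 * E.r) r.2.1
            (by have := hS.len3 t htm; rw [hq]; linarith)
            (by have := hS.len2 t htm; rw [hq]; linarith) h with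
          ⟨h3, h4⟩ | ⟨u, hu, h4⟩ | ⟨h3, h4⟩
        · refine Or.inl ⟨H₃, r.2.1, h3, ?_⟩
          rw [hc2, ← h4, sR]
          exact h2
        · refine Or.inr ⟨R, u, hu, ?_⟩
          rw [hc1, ← h4, sR]
          exact h2
        · refine Or.inl ⟨H₂, r.2.1, h3, ?_⟩
          rw [hc2, ← h4, sR]
          exact h2
  · rintro (⟨e, x, hx, h⟩ | ⟨i, u, hu, h⟩)
    · by_cases hH : e = H₁ ∨ e = H₂ ∨ e = H₃ ∨ e = H₄
      · rcases le_or_gt (E.v * η + 2 * E.r) |x - E.x₀| with hρx | hρx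
        · exact Or.inr (Or.inr (Or.inl ⟨e, hH, x, hx, hρx, h⟩))
        · refine Or.inr (Or.inr (Or.inr ?_))
          rw [hc2] at h
          rcases hH with rfl | rfl | rfl | rfl
          · have h1 : x ≤ E.x₀ - 2 * E.r := by
              have := hx.2
              rwa [hlin, r1, qL, hS.wL] at this
            rw [pL.left sh x (by linarith), sL] at h
            exact mem_low x hρx h
          · have h1 : E.x₀ + 2 * E.r ≤ x := by
              have := hx.1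
              rwa [hlin, l2, qR, hS.wR] at this
            rw [pR.right sh x (by linarith), sR] at h
            exact mem_up x hρx h
          · have h1 : x ≤ E.x₀ - 2 * E.r := by
              have := hx.2
              rwa [hlin, r3, qR, hS.wR] at this
            rw [pR.left sh x (by linarith), sR] at h
            exact mem_up x hρx h
          · have h1 : E.x₀ + 2 * E.r ≤ x := by
              have := hx.1
              rwa [hlin, l4, qL, hS.wL] at this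
            rw [pL.right sh x (by linarith), sL] at h
            exact mem_low x hρx h
      · simp only [not_or] at hH
        exact Or.inl ⟨e, hH.1, hH.2.1, hH.2.2.1, hH.2.2.2, x, hx, h⟩
    · have habs : |E.x₀ + E.r * u - E.x₀| < E.v * η + 2 * E.r := by
        rw [add_sub_cancel_left, abs_mul, abs_of_pos hr0]
        have h1 : E.r * |u| ≤ E.r * 2 := mul_le_mul_of_nonneg_left hu hr0.le
        linarith
      by_cases hL : i = L
      · refine Or.inr (Or.inr (Or.inr ?_))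
        rw [hc1, hL, pL.mid sh, sL] at h
        exact mem_low _ habs h
      · by_cases hR : i = R
        · refine Or.inr (Or.inr (Or.inr ?_))
          rw [hc1, hR, pR.mid sh, sR] at h
          exact mem_up _ habs h
        · exact Or.inr (Or.inl ⟨i, hL, hR, u, hu, h⟩)

end LCA
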