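import Pool.Agent.LCA.Stmts2

/-!
# SDB: before the saddle
-/

namespace LCA

open Set Filter
open scoped ContDiff Topology

namespace SDB

variable {m n : ℕ}

/-! ### the profiles -/

theorem xi_le_one (sh : Shape) (u : ℝ) : sh.ξ u ≤ 1 := by
  rcases le_total |u| 1 with h | h
  · exact (abs_le.1 (sh.ξ_in u h)).2
  · rw [sh.ξ_out u h]
    linarith [abs_nonneg u]

theorem abs_xi_le_two (sh : Shape) {u : ℝ} (hu : |u| ≤ 2) : |sh.ξ u| ≤ 2 := by
  rcases le_total |u| 1 with h | h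
  · linarith [sh.ξ_in u h]
  · rw [sh.ξ_out u h, abs_neg, abs_abs]
    exact hu

theorem psi_low (sh : Shape) {U : ℝ} (h : U ≤ -1) : sh.Psi U = -U := by
  unfold Shape.Psi
  rw [sh.ΘP_low U h]
  ring

theorem psi_high (sh : Shape) {U : ℝ} (h : 1 ≤ U) : sh.Psi U = U := by
  unfold Shape.Psi
  rw [sh.ΘP_high U h]
  ring

theorem psi_mid (sh : Shape) {U : ℝ} (h : |U| ≤ 1) : sh.Psi U ≤ 5 := by
  unfold Shape.Psi
  have h1 := (abs_le.1 (sh.ΘP_bd U (by linarith))).2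
  have h2 := (abs_le.1 h).1
  linarith

/-! ### lines and pieces of the surface near the critical point -/

/-- The point with the coordinate `x` on the line of slope `p`, with the value `z`. -/
def ln (E : Evt) (σ p z x : ℝ) : ℝ × ℝ × ℝ × ℝ := (x, p, z, E.F₀ + σ * z + p * (x - E.x₀))

/-- The strand on the left. -/
noncomputable def gL (E : Evt) (sh : Shape) (σ u : ℝ) : ℝ × ℝ × ℝ × ℝ :=
  (E.x₀ + E.v * σ + E.r * sh.ξ u, E.P₁ + E.g / 2 - E.g * sh.τ u,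
    E.z₀ - E.ζ + 2 * E.ζ * sh.τ u,
    E.F₀ + σ * (E.z₀ - E.ζ) + (E.P₁ + E.g / 2) * (E.v * σ + E.r * sh.ξ u)
      - E.r * E.g * sh.ΘR u)

/-- The strand on the right. -/
noncomputable def gR (E : Evt) (sh : Shape) (σ u : ℝ) : ℝ × ℝ × ℝ × ℝ :=
  (E.x₀ - E.v * σ - E.r * sh.ξ u, E.P₂ - E.g / 2 + E.g * sh.τ u,
    E.z₀ - E.ζ + 2 * E.ζ * sh.τ u,
    E.F₀ + σ * (E.z₀ - E.ζ) + (E.P₂ - E.g / 2) * (-E.v * σ - E.r * sh.ξ u)
      - E.r * E.g * sh.ΘR u)

theorem zeta_eq (E : Evt) : E.ζ = E.g * E.v / 2 := rfl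

theorem gL_low (E : Evt) (sh : Shape) (σ : ℝ) {u : ℝ} (h : u ≤ -1) :
    gL E sh σ u = ln E σ (E.P₁ + E.g / 2) (E.z₀ - E.ζ) (E.x₀ + E.v * σ + E.r * u) := by
  have h1 : sh.ξ u = u := by
    rw [sh.ξ_out u (by rw [abs_of_neg (by linarith)]; linarith), abs_of_neg (by linarith)]
    ring
  unfold gL ln
  rw [h1, sh.τ_low u h, sh.ΘR_low u h]
  refine Prod.ext rfl (Prod.ext ?_ (Prod.ext ?_ ?_)) <;> simp only <;> ring

theorem gL_high (E : Evt) (sh : Shape) (σ : ℝ) {u : ℝ} (h : 1 ≤ u) :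
    gL E sh σ u = ln E σ (E.P₁ - E.g / 2) (E.z₀ + E.ζ) (E.x₀ + E.v * σ - E.r * u) := by
  have h1 : sh.ξ u = -u := by
    rw [sh.ξ_out u (by rw [abs_of_pos (by linarith)]; linarith), abs_of_pos (by linarith)]
  unfold gL ln
  rw [h1, sh.τ_high u h, sh.ΘR_high u h, zeta_eq]
  refine Prod.ext ?_ (Prod.ext ?_ (Prod.ext ?_ ?_)) <;> simp only <;> ring

theorem gR_low (E : Evt) (sh : Shape) (σ : ℝ) {u : ℝ} (h : u ≤ -1) :
    gR E sh σ u = ln E σ (E.P₂ - E.g / 2) (E.z₀ - E.ζ) (E.x₀ - E.v * σ - E.r * u) := by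
  have h1 : sh.ξ u = u := by
    rw [sh.ξ_out u (by rw [abs_of_neg (by linarith)]; linarith), abs_of_neg (by linarith)]
    ring
  unfold gR ln
  rw [h1, sh.τ_low u h, sh.ΘR_low u h]
  refine Prod.ext rfl (Prod.ext ?_ (Prod.ext ?_ ?_)) <;> simp only <;> ring

theorem gR_high (E : Evt) (sh : Shape) (σ : ℝ) {u : ℝ} (h : 1 ≤ u) :
    gR E sh σ u = ln E σ (E.P₂ + E.g / 2) (E.z₀ + E.ζ) (E.x₀ - E.v * σ + E.r * u) := by
  have h1 : sh.ξ u = -u := by
    rw [sh.ξ_out u (by rw [abs_of_pos (by linarith)]; linarith), abs_of_pos (by linarith)]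
  unfold gR ln
  rw [h1, sh.τ_high u h, sh.ΘR_high u h, zeta_eq]
  refine Prod.ext ?_ (Prod.ext ?_ (Prod.ext ?_ ?_)) <;> simp only <;> ring

/-- The point of the surface on the left. -/
theorem pt_left (E : Evt) (hE : E.Pos) (sh : Shape) (σ u : ℝ)
    (hU : E.v * σ + E.r * sh.ξ u ≤ -E.r) :
    E.pt sh 1 1 (u, E.x₀ + E.v * σ + E.r * sh.ξ u) = (E.s₀ + σ, gL E sh σ u) := by
  have hr := hE.r
  have hv := hE.v
  have hr0 : E.r ≠ 0 := hr.ne'
  have hv0 : E.v ≠ 0 := hv.ne'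
  have hU' : (E.x₀ + E.v * σ + E.r * sh.ξ u - E.x₀) / E.r ≤ -1 := by
    rw [div_le_iff₀ hr]
    linarith
  unfold Evt.pt gL
  simp only
  rw [psi_low sh hU', sh.τ_low _ hU', sh.ΘP_low _ hU', zeta_eq]
  refine Prod.ext ?_ (Prod.ext ?_ (Prod.ext ?_ (Prod.ext ?_ ?_))) <;> simp only <;>
    field_simp <;> ring

/-- The point of the surface on the right. -/
theorem pt_right (E : Evt) (hE : E.Pos) (sh : Shape) (σ u : ℝ)
    (hU : E.r ≤ -E.v * σ - E.r * sh.ξ u) :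
    E.pt sh 1 1 (u, E.x₀ - E.v * σ - E.r * sh.ξ u) = (E.s₀ + σ, gR E sh σ u) := by
  have hr := hE.r
  have hv := hE.v
  have hr0 : E.r ≠ 0 := hr.ne'
  have hv0 : E.v ≠ 0 := hv.ne'
  have hU' : 1 ≤ (E.x₀ - E.v * σ - E.r * sh.ξ u - E.x₀) / E.r := by
    rw [le_div_iff₀ hr]
    linarith
  unfold Evt.pt gR
  simp only
  rw [psi_high sh hU', sh.τ_high _ hU', sh.ΘP_high _ hU', zeta_eq]
  refine Prod.ext ?_ (Prod.ext ?_ (Prod.ext ?_ (Prod.ext ?_ ?_))) <;> simp only <;>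
    field_simp <;> ring

/-- The slices of the surface before the saddle. -/
theorem set_iff (E : Evt) (hE : E.Pos) (sh : Shape) (σ : ℝ) (hσ : σ < -(8 * E.r / E.v))
    (y : ℝ × ℝ × ℝ × ℝ) :
    ((E.s₀ + σ, y) : E5) ∈ E.set sh 1 1 ↔ ∃ u, y = gL E sh σ u ∨ y = gR E sh σ u := by
  have hr := hE.r
  have hv := hE.v
  have hvσ : E.v * σ < -(8 * E.r) := by
    have h1 : σ < -(8 * E.r) / E.v := by rw [neg_div]; exact hσ
    rw [lt_div_iff₀ hv] at h1
    linarith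
  constructor
  · rintro ⟨⟨u, x⟩, h⟩
    have hs : (E.pt sh 1 1 (u, x)).1 = E.s₀ + σ := by rw [h]
    have hs' : E.s₀ + 1 * (-(E.r / E.v) * sh.ξ u - 1 * (E.r / E.v) * sh.Psi ((x - E.x₀) / E.r)) =
        E.s₀ + σ := hs
    have hk : E.v * σ = -(E.r * sh.ξ u) - E.r * sh.Psi ((x - E.x₀) / E.r) := by
      have h2 : σ = -(E.r / E.v) * sh.ξ u - (E.r / E.v) * sh.Psi ((x - E.x₀) / E.r) := by
        linarith
      rw [h2]
      field_simp
    have hxi := xi_le_one sh u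
    have hpsi : 7 < sh.Psi ((x - E.x₀) / E.r) := by
      have h3 : E.r * 7 < E.r * sh.Psi ((x - E.x₀) / E.r) := by nlinarith
      exact lt_of_mul_lt_mul_left h3 hr.le
    have hU : 1 < |(x - E.x₀) / E.r| := by
      by_contra hcon
      have := psi_mid sh (not_lt.1 hcon)
      linarith
    rcases lt_abs.1 hU with hU | hU
    · -- right
      rw [psi_high sh hU.le] at hk
      have hx : x = E.x₀ - E.v * σ - E.r * sh.ξ u := by
        have : E.r * ((x - E.x₀) / E.r) = x - E.x₀ := by field_simp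
        linarith
      refine ⟨u, Or.inr ?_⟩
      have h4 : E.r ≤ -E.v * σ - E.r * sh.ξ u := by
        have h5 : E.r * 1 < E.r * ((x - E.x₀) / E.r) := mul_lt_mul_of_pos_left hU hr
        linarith
      rw [hx, pt_right E hE sh σ u h4] at h
      exact (congrArg Prod.snd h).symm
    · have hU' : (x - E.x₀) / E.r ≤ -1 := by linarith
      rw [psi_low sh hU'] at hk
      have hx : x = E.x₀ + E.v * σ + E.r * sh.ξ u := by
        have : E.r * ((x - E.x₀) / E.r) = x - E.x₀ := by field_simp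
        linarith
      refine ⟨u, Or.inl ?_⟩
      have h4 : E.v * σ + E.r * sh.ξ u ≤ -E.r := by
        have h5 : E.r * ((x - E.x₀) / E.r) ≤ E.r * (-1) := mul_le_mul_of_nonneg_left hU' hr.le
        linarith
      rw [hx, pt_left E hE sh σ u h4] at h
      exact (congrArg Prod.snd h).symm
  · rintro ⟨u, rfl | rfl⟩
    · refine ⟨(u, E.x₀ + E.v * σ + E.r * sh.ξ u), pt_left E hE sh σ u ?_⟩
      have := mul_le_mul_of_nonneg_left (xi_le_one sh u) hr.le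
      linarith
    · refine ⟨(u, E.x₀ - E.v * σ - E.r * sh.ξ u), pt_right E hE sh σ u ?_⟩
      have := mul_le_mul_of_nonneg_left (xi_le_one sh u) hr.le
      linarith

/-! ### lines of the edges -/

/-- The vertex `j` moves on the line of slope `p`. -/
def OL (E : Evt) (Q V : St n) (j : Fin n) (p zz : ℝ) : Prop :=
  Q.2 j = E.F₀ + p * (Q.1 j - E.x₀) ∧ V.2 j = zz + p * V.1 j

theorem edge_of (c : Comb m n) (E : Evt) (Q V : St n) (e : Fin m) (σ p zz : ℝ)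
    (h : (Q + σ • V).1 (c.lf e) < (Q + σ • V).1 (c.rt e))
    (h1 : OL E Q V (c.lf e) p zz) (h2 : OL E Q V (c.rt e) p zz) :
    c.pe (Q + σ • V) e = p ∧ c.ae (Q + σ • V) e = E.F₀ + σ * zz - p * E.x₀ ∧
      c.dpe (Q + σ • V) V e = 0 ∧ c.dae (Q + σ • V) V e = zz := by
  obtain ⟨a1, b1⟩ := h1
  obtain ⟨a2, b2⟩ := h2
  have hne : (Q + σ • V).1 (c.rt e) - (Q + σ • V).1 (c.lf e) ≠ 0 := by
    intro h0
    linarith
  have hpe : c.pe (Q + σ • V) e = p := by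
    unfold Comb.pe
    rw [div_eq_iff hne]
    simp only [Prod.snd_add, Prod.fst_add, Prod.smul_fst, Prod.smul_snd, Pi.add_apply,
      Pi.smul_apply, smul_eq_mul]
    rw [a1, a2, b1, b2]
    ring
  have hdpe : c.dpe (Q + σ • V) V e = 0 := by
    unfold Comb.dpe
    rw [hpe, b1, b2]
    have : zz + p * V.1 (c.rt e) - (zz + p * V.1 (c.lf e)) - p * (V.1 (c.rt e) - V.1 (c.lf e)) = 0 :=
      by ring
    rw [this, zero_div]
  refine ⟨hpe, ?_, hdpe, ?_⟩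
  · unfold Comb.ae
    rw [hpe]
    simp only [Prod.snd_add, Prod.fst_add, Prod.smul_fst, Prod.smul_snd, Pi.add_apply,
      Pi.smul_apply, smul_eq_mul]
    rw [a1, b1]
    ring
  · unfold Comb.dae
    rw [hpe, hdpe, b1]
    ring

theorem ept_of (c : Comb m n) (E : Evt) (q v : St n) (e : Fin m) (σ p zz x : ℝ)
    (h : c.pe q e = p ∧ c.ae q e = E.F₀ + σ * zz - p * E.x₀ ∧ c.dpe q v e = 0 ∧ c.dae q v e = zz) :
    c.ept q v e x = ln E σ p zz x := by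
  obtain ⟨h1, h2, h3, h4⟩ := h
  unfold Comb.ept ln
  rw [h1, h2, h3, h4]
  refine Prod.ext rfl (Prod.ext rfl (Prod.ext ?_ ?_)) <;> simp only <;> ring

/-- From the slope and the velocity of the slope to the two ends. -/
theorem ends (c : Comb m n) (Q V : St n) (e : Fin m) (p : ℝ)
    (h : Q.1 (c.lf e) < Q.1 (c.rt e)) (h1 : c.pe Q e = p) (h2 : c.dpe Q V e = 0) :
    Q.2 (c.rt e) - Q.2 (c.lf e) = p * (Q.1 (c.rt e) - Q.1 (c.lf e)) ∧
      V.2 (c.rt e) - V.2 (c.lf e) = p * (V.1 (c.rt e) - V.1 (c.lf e)) := by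
  have hne : Q.1 (c.rt e) - Q.1 (c.lf e) ≠ 0 := by
    intro h0
    linarith
  have h3 : Q.2 (c.rt e) - Q.2 (c.lf e) = p * (Q.1 (c.rt e) - Q.1 (c.lf e)) := by
    rw [← h1]
    unfold Comb.pe
    rw [div_mul_cancel₀ _ hne]
  refine ⟨h3, ?_⟩
  unfold Comb.dpe at h2
  rw [h1, div_eq_zero_iff] at h2
  rcases h2 with h2 | h2
  · linarith
  · exact absurd h2 hne

/-! ### the combinatorics -/

variable {c c' : Comb m n} {L R : Fin n} {H₁ H₂ H₃ H₄ : Fin m}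

theorem rt1' (h : SadComb c c' L R H₁ H₂ H₃ H₄) : c'.rt H₁ = L := by
  have := h.valid'.oka L
  simpa only [Comb.OKa, h.tyL', h.aL'] using this

theorem lf4' (h : SadComb c c' L R H₁ H₂ H₃ H₄) : c'.lf H₄ = L := by
  have := h.valid'.okb L
  simpa only [Comb.OKb, h.tyL', h.bL'] using this

theorem rt3' (h : SadComb c c' L R H₁ H₂ H₃ H₄) : c'.rt H₃ = R := by
  have := h.valid'.oka R
  simpa only [Comb.OKa, h.tyR', h.aR'] using this

theorem lf2' (h : SadComb c c' L R H₁ H₂ H₃ H₄) : c'.lf H₂ = R := by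
  have := h.valid'.okb R
  simpa only [Comb.OKb, h.tyR', h.bR'] using this

theorem rt1 (h : SadComb c c' L R H₁ H₂ H₃ H₄) : c.rt H₁ = L := by
  have := h.valid.oka L
  simpa only [Comb.OKa, h.tyL, h.aL] using this

theorem rt3 (h : SadComb c c' L R H₁ H₂ H₃ H₄) : c.rt H₃ = L := by
  have := h.valid.okb L
  simpa only [Comb.OKb, h.tyL, h.bL] using this

theorem lf4 (h : SadComb c c' L R H₁ H₂ H₃ H₄) : c.lf H₄ = R := by
  have := h.valid.oka R
  simpa only [Comb.OKa, h.tyR, h.aR] using this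

theorem lf2 (h : SadComb c c' L R H₁ H₂ H₃ H₄) : c.lf H₂ = R := by
  have := h.valid.okb R
  simpa only [Comb.OKb, h.tyR, h.bR] using this

/-- The ends of the other edges. -/
theorem other_rt (h : SadComb c c' L R H₁ H₂ H₃ H₄) {e : Fin m} (h1 : e ≠ H₁) (h3 : e ≠ H₃) :
    c'.rt e ≠ L ∧ c'.rt e ≠ R := by
  constructor
  · intro he
    rcases h.valid'.rt e with ⟨_, h5⟩ | ⟨h5, _⟩
    · rw [he, h.aL'] at h5
      exact h1 h5.symm
    · rw [he, h.tyL'] at h5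
      exact absurd h5 (by decide)
  · intro he
    rcases h.valid'.rt e with ⟨_, h5⟩ | ⟨h5, _⟩
    · rw [he, h.aR'] at h5
      exact h3 h5.symm
    · rw [he, h.tyR'] at h5
      exact absurd h5 (by decide)

theorem other_lf (h : SadComb c c' L R H₁ H₂ H₃ H₄) {e : Fin m} (h2 : e ≠ H₂) (h4 : e ≠ H₄) :
    c'.lf e ≠ L ∧ c'.lf e ≠ R := by
  constructor
  · intro he
    rcases h.valid'.lf e with ⟨h5, _⟩ | ⟨_, h5⟩
    · rw [he, h.tyL'] at h5
      exact absurd h5 (by decide)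
    · rw [he, h.bL'] at h5
      exact h4 h5.symm
  · intro he
    rcases h.valid'.lf e with ⟨h5, _⟩ | ⟨_, h5⟩
    · rw [he, h.tyR'] at h5
      exact absurd h5 (by decide)
    · rw [he, h.bR'] at h5
      exact h2 h5.symm

/-! ### the lines before the saddle -/

section lines

variable {w : Fin n → ℝ} {E : Evt} {Q V V' : St n} {η : ℝ}

theorem eta_pos (hS : Saddle c c' w L R H₁ H₂ H₃ H₄ E Q V V' η) : 0 < η := by
  have h1 := hS.small
  have h2 := hS.pos.r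
  have h3 := hS.pos.v
  by_contra h
  have : E.v * η ≤ 0 := mul_nonpos_of_nonneg_of_nonpos h3.le (not_lt.1 h)
  linarith

theorem len_at (hS : Saddle c c' w L R H₁ H₂ H₃ H₄ E Q V V' η) {σ : ℝ} (h : σ ∈ Icc (-η) η)
    (e : Fin m) : (Q + σ • V').1 (c'.lf e) < (Q + σ • V').1 (c'.rt e) := by
  have h1 := (hS.cert σ h).len e
  have h2 := hS.wpos (c'.lf e)
  have h3 := hS.wpos (c'.rt e)
  linarith

theorem len_zero (hS : Saddle c c' w L R H₁ H₂ H₃ H₄ E Q V V' η) (e : Fin m) :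
    Q.1 (c'.lf e) < Q.1 (c'.rt e) := by
  have h := len_at hS (σ := 0) ⟨by linarith [eta_pos hS], by linarith [eta_pos hS]⟩ e
  simpa using h

theorem OL_L (hS : Saddle c c' w L R H₁ H₂ H₃ H₄ E Q V V' η) (p : ℝ) :
    OL E Q V' L p (E.z₀ - E.ζ) := by
  unfold OL
  rw [hS.xL, hS.FL, hS.xL', hS.FL']
  constructor <;> ring

theorem OL_R (hS : Saddle c c' w L R H₁ H₂ H₃ H₄ E Q V V' η) (p : ℝ) :
    OL E Q V' R p (E.z₀ + E.ζ) := by
  unfold OL
  rw [hS.xR, hS.FR, hS.xR', hS.FR']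
  constructor <;> ring

/-- The far ends. -/
theorem far1 (hS : Saddle c c' w L R H₁ H₂ H₃ H₄ E Q V V' η) :
    OL E Q V' (c'.lf H₁) (E.P₁ + E.g / 2) (E.z₀ - E.ζ) := by
  obtain ⟨h1, h2⟩ := ends c' Q V' H₁ _ (len_zero hS H₁) hS.p1 hS.d1
  obtain ⟨h3, h4⟩ := OL_L hS (E.P₁ + E.g / 2)
  rw [rt1' hS.comb] at h1 h2
  constructor <;> linarith

theorem far3 (hS : Saddle c c' w L R H₁ H₂ H₃ H₄ E Q V V' η) :
    OL E Q V' (c'.lf H₃) (E.P₁ - E.g / 2) (E.z₀ + E.ζ) := by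
  obtain ⟨h1, h2⟩ := ends c' Q V' H₃ _ (len_zero hS H₃) hS.p3 hS.d3
  obtain ⟨h3, h4⟩ := OL_R hS (E.P₁ - E.g / 2)
  rw [rt3' hS.comb] at h1 h2
  constructor <;> linarith

theorem far2 (hS : Saddle c c' w L R H₁ H₂ H₃ H₄ E Q V V' η) :
    OL E Q V' (c'.rt H₂) (E.P₂ + E.g / 2) (E.z₀ + E.ζ) := by
  obtain ⟨h1, h2⟩ := ends c' Q V' H₂ _ (len_zero hS H₂) hS.p2 hS.d2
  obtain ⟨h3, h4⟩ := OL_R hS (E.P₂ + E.g / 2)
  rw [lf2' hS.comb] at h1 h2
  constructor <;> linarith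

theorem far4 (hS : Saddle c c' w L R H₁ H₂ H₃ H₄ E Q V V' η) :
    OL E Q V' (c'.rt H₄) (E.P₂ - E.g / 2) (E.z₀ - E.ζ) := by
  obtain ⟨h1, h2⟩ := ends c' Q V' H₄ _ (len_zero hS H₄) hS.p4 hS.d4
  obtain ⟨h3, h4⟩ := OL_L hS (E.P₂ - E.g / 2)
  rw [lf4' hS.comb] at h1 h2
  constructor <;> linarith

/-- The values for `c'`. -/
theorem val1' (hS : Saddle c c' w L R H₁ H₂ H₃ H₄ E Q V V' η) {σ : ℝ} (h : σ ∈ Icc (-η) η) :
    c'.pe (Q + σ • V') H₁ = E.P₁ + E.g / 2 ∧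
      c'.ae (Q + σ • V') H₁ = E.F₀ + σ * (E.z₀ - E.ζ) - (E.P₁ + E.g / 2) * E.x₀ ∧
      c'.dpe (Q + σ • V') V' H₁ = 0 ∧ c'.dae (Q + σ • V') V' H₁ = E.z₀ - E.ζ :=
  edge_of c' E Q V' H₁ σ _ _ (len_at hS h H₁) (far1 hS) (by rw [rt1' hS.comb]; exact OL_L hS _)

theorem val4' (hS : Saddle c c' w L R H₁ H₂ H₃ H₄ E Q V V' η) {σ : ℝ} (h : σ ∈ Icc (-η) η) :
    c'.pe (Q + σ • V') H₄ = E.P₂ - E.g / 2 ∧
      c'.ae (Q + σ • V') H₄ = E.F₀ + σ * (E.z₀ - E.ζ) - (E.P₂ - E.g / 2) * E.x₀ ∧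
      c'.dpe (Q + σ • V') V' H₄ = 0 ∧ c'.dae (Q + σ • V') V' H₄ = E.z₀ - E.ζ :=
  edge_of c' E Q V' H₄ σ _ _ (len_at hS h H₄) (by rw [lf4' hS.comb]; exact OL_L hS _) (far4 hS)

theorem val3' (hS : Saddle c c' w L R H₁ H₂ H₃ H₄ E Q V V' η) {σ : ℝ} (h : σ ∈ Icc (-η) η) :
    c'.pe (Q + σ • V') H₃ = E.P₁ - E.g / 2 ∧
      c'.ae (Q + σ • V') H₃ = E.F₀ + σ * (E.z₀ + E.ζ) - (E.P₁ - E.g / 2) * E.x₀ ∧
      c'.dpe (Q + σ • V') V' H₃ = 0 ∧ c'.dae (Q + σ • V') V' H₃ = E.z₀ + E.ζ :=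
  edge_of c' E Q V' H₃ σ _ _ (len_at hS h H₃) (far3 hS) (by rw [rt3' hS.comb]; exact OL_R hS _)

theorem val2' (hS : Saddle c c' w L R H₁ H₂ H₃ H₄ E Q V V' η) {σ : ℝ} (h : σ ∈ Icc (-η) η) :
    c'.pe (Q + σ • V') H₂ = E.P₂ + E.g / 2 ∧
      c'.ae (Q + σ • V') H₂ = E.F₀ + σ * (E.z₀ + E.ζ) - (E.P₂ + E.g / 2) * E.x₀ ∧
      c'.dpe (Q + σ • V') V' H₂ = 0 ∧ c'.dae (Q + σ • V') V' H₂ = E.z₀ + E.ζ :=
  edge_of c' E Q V' H₂ σ _ _ (len_at hS h H₂) (by rw [lf2' hS.comb]; exact OL_R hS _) (far2 hS)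

/-- The other vertices have the same positions. -/
theorem other_pos (hS : Saddle c c' w L R H₁ H₂ H₃ H₄ E Q V V' η) (σ : ℝ) {i : Fin n}
    (h1 : i ≠ L) (h2 : i ≠ R) :
    (Q + σ • V).1 i = (Q + σ • V').1 i ∧ (Q + σ • V).2 i = (Q + σ • V').2 i := by
  have e1 := hS.vx i h1 h2
  have e2 := hS.vF i h1 h2
  simp only [Prod.snd_add, Prod.fst_add, Prod.smul_fst, Prod.smul_snd, Pi.add_apply,
    Pi.smul_apply, smul_eq_mul]
  rw [e1, e2]
  exact ⟨rfl, rfl⟩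

theorem OL_other (hS : Saddle c c' w L R H₁ H₂ H₃ H₄ E Q V V' η) {i : Fin n}
    (h1 : i ≠ L) (h2 : i ≠ R) {p zz : ℝ} (h : OL E Q V' i p zz) : OL E Q V i p zz := by
  unfold OL at h ⊢
  rw [hS.vx i h1 h2, hS.vF i h1 h2]
  exact h

theorem OL_L1 (hS : Saddle c c' w L R H₁ H₂ H₃ H₄ E Q V V' η) :
    OL E Q V L (E.P₁ + E.g / 2) (E.z₀ - E.ζ) := by
  unfold OL
  rw [hS.xL, hS.FL, hS.vxL, hS.vFL]
  constructor <;> ring

theorem OL_L3 (hS : Saddle c c' w L R H₁ H₂ H₃ H₄ E Q V V' η) :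
    OL E Q V L (E.P₁ - E.g / 2) (E.z₀ + E.ζ) := by
  unfold OL
  rw [hS.xL, hS.FL, hS.vxL, hS.vFL, zeta_eq]
  constructor <;> ring

theorem OL_R2 (hS : Saddle c c' w L R H₁ H₂ H₃ H₄ E Q V V' η) :
    OL E Q V R (E.P₂ + E.g / 2) (E.z₀ + E.ζ) := by
  unfold OL
  rw [hS.xR, hS.FR, hS.vxR, hS.vFR]
  constructor <;> ring

theorem OL_R4 (hS : Saddle c c' w L R H₁ H₂ H₃ H₄ E Q V V' η) :
    OL E Q V R (E.P₂ - E.g / 2) (E.z₀ - E.ζ) := by
  unfold OL
  rw [hS.xR, hS.FR, hS.vxR, hS.vFR, zeta_eq]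
  constructor <;> ring

theorem xl (hS : Saddle c c' w L R H₁ H₂ H₃ H₄ E Q V V' η) (σ : ℝ) :
    (Q + σ • V).1 L = E.x₀ + E.v * σ := by
  simp only [Prod.fst_add, Prod.smul_fst, Pi.add_apply, Pi.smul_apply, smul_eq_mul]
  rw [hS.xL, hS.vxL]
  ring

theorem xr (hS : Saddle c c' w L R H₁ H₂ H₃ H₄ E Q V V' η) (σ : ℝ) :
    (Q + σ • V).1 R = E.x₀ - E.v * σ := by
  simp only [Prod.fst_add, Prod.smul_fst, Pi.add_apply, Pi.smul_apply, smul_eq_mul]
  rw [hS.xR, hS.vxR]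
  ring

theorem xl' (hS : Saddle c c' w L R H₁ H₂ H₃ H₄ E Q V V' η) (σ : ℝ) :
    (Q + σ • V').1 L = E.x₀ := by
  simp only [Prod.fst_add, Prod.smul_fst, Pi.add_apply, Pi.smul_apply, smul_eq_mul]
  rw [hS.xL, hS.xL']
  ring

theorem xr' (hS : Saddle c c' w L R H₁ H₂ H₃ H₄ E Q V V' η) (σ : ℝ) :
    (Q + σ • V').1 R = E.x₀ := by
  simp only [Prod.fst_add, Prod.smul_fst, Pi.add_apply, Pi.smul_apply, smul_eq_mul]
  rw [hS.xR, hS.xR']
  ring

/-- The far left end of `H₁` for `c`. -/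
theorem lf1 (hS : Saddle c c' w L R H₁ H₂ H₃ H₄ E Q V V' η) : c.lf H₁ = c'.lf H₁ :=
  hS.comb.lf H₁ hS.comb.h14

theorem lf3 (hS : Saddle c c' w L R H₁ H₂ H₃ H₄ E Q V V' η) : c.lf H₃ = c'.lf H₃ :=
  hS.comb.lf H₃ hS.comb.h34

theorem rt2 (hS : Saddle c c' w L R H₁ H₂ H₃ H₄ E Q V V' η) : c.rt H₂ = c'.rt H₂ :=
  hS.comb.rt H₂ hS.comb.h23

theorem rt4 (hS : Saddle c c' w L R H₁ H₂ H₃ H₄ E Q V V' η) : c.rt H₄ = c'.rt H₄ :=
  hS.comb.rt H₄ hS.comb.h34.symm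

/-- The values for `c`. -/
theorem val1 (hS : Saddle c c' w L R H₁ H₂ H₃ H₄ E Q V V' η) {σ : ℝ} (h : σ ∈ Icc (-η) η) :
    c.pe (Q + σ • V) H₁ = E.P₁ + E.g / 2 ∧
      c.ae (Q + σ • V) H₁ = E.F₀ + σ * (E.z₀ - E.ζ) - (E.P₁ + E.g / 2) * E.x₀ ∧
      c.dpe (Q + σ • V) V H₁ = 0 ∧ c.dae (Q + σ • V) V H₁ = E.z₀ - E.ζ := by
  obtain ⟨o1, o2⟩ := other_lf hS.comb hS.comb.h12 hS.comb.h14
  refine edge_of c E Q V H₁ σ _ _ ?_ ?_ ?_
  · rw [rt1 hS.comb, lf1 hS, xl hS, (other_pos hS σ o1 o2).1]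
    have h1 := hS.len1 σ h
    have h2 := hS.wpos (c'.lf H₁)
    have h3 := mul_le_mul_of_nonneg_left h.1 hS.pos.v.le
    have h4 := hS.pos.r
    linarith
  · rw [lf1 hS]
    exact OL_other hS o1 o2 (far1 hS)
  · rw [rt1 hS.comb]
    exact OL_L1 hS

theorem val3 (hS : Saddle c c' w L R H₁ H₂ H₃ H₄ E Q V V' η) {σ : ℝ} (h : σ ∈ Icc (-η) η) :
    c.pe (Q + σ • V) H₃ = E.P₁ - E.g / 2 ∧
      c.ae (Q + σ • V) H₃ = E.F₀ + σ * (E.z₀ + E.ζ) - (E.P₁ - E.g / 2) * E.x₀ ∧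
      c.dpe (Q + σ • V) V H₃ = 0 ∧ c.dae (Q + σ • V) V H₃ = E.z₀ + E.ζ := by
  obtain ⟨o1, o2⟩ := other_lf hS.comb hS.comb.h23.symm hS.comb.h34
  refine edge_of c E Q V H₃ σ _ _ ?_ ?_ ?_
  · rw [rt3 hS.comb, lf3 hS, xl hS, (other_pos hS σ o1 o2).1]
    have h1 := hS.len3 σ h
    have h2 := hS.wpos (c'.lf H₃)
    have h3 := mul_le_mul_of_nonneg_left h.1 hS.pos.v.le
    have h4 := hS.pos.r
    linarith
  · rw [lf3 hS]
    exact OL_other hS o1 o2 (far3 hS)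
  · rw [rt3 hS.comb]
    exact OL_L3 hS

theorem val2 (hS : Saddle c c' w L R H₁ H₂ H₃ H₄ E Q V V' η) {σ : ℝ} (h : σ ∈ Icc (-η) η) :
    c.pe (Q + σ • V) H₂ = E.P₂ + E.g / 2 ∧
      c.ae (Q + σ • V) H₂ = E.F₀ + σ * (E.z₀ + E.ζ) - (E.P₂ + E.g / 2) * E.x₀ ∧
      c.dpe (Q + σ • V) V H₂ = 0 ∧ c.dae (Q + σ • V) V H₂ = E.z₀ + E.ζ := by
  obtain ⟨o1, o2⟩ := other_rt hS.comb hS.comb.h12.symm hS.comb.h23
  refine edge_of c E Q V H₂ σ _ _ ?_ ?_ ?_
  · rw [lf2 hS.comb, rt2 hS, xr hS, (other_pos hS σ o1 o2).1]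
    have h1 := hS.len2 σ h
    have h2 := hS.wpos (c'.rt H₂)
    have h3 := mul_le_mul_of_nonneg_left h.1 hS.pos.v.le
    have h4 := hS.pos.r
    linarith
  · rw [lf2 hS.comb]
    exact OL_R2 hS
  · rw [rt2 hS]
    exact OL_other hS o1 o2 (far2 hS)

theorem val4 (hS : Saddle c c' w L R H₁ H₂ H₃ H₄ E Q V V' η) {σ : ℝ} (h : σ ∈ Icc (-η) η) :
    c.pe (Q + σ • V) H₄ = E.P₂ - E.g / 2 ∧
      c.ae (Q + σ • V) H₄ = E.F₀ + σ * (E.z₀ - E.ζ) - (E.P₂ - E.g / 2) * E.x₀ ∧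
      c.dpe (Q + σ • V) V H₄ = 0 ∧ c.dae (Q + σ • V) V H₄ = E.z₀ - E.ζ := by
  obtain ⟨o1, o2⟩ := other_rt hS.comb hS.comb.h14.symm hS.comb.h34.symm
  refine edge_of c E Q V H₄ σ _ _ ?_ ?_ ?_
  · rw [lf4 hS.comb, rt4 hS, xr hS, (other_pos hS σ o1 o2).1]
    have h1 := hS.len4 σ h
    have h2 := hS.wpos (c'.rt H₄)
    have h3 := mul_le_mul_of_nonneg_left h.1 hS.pos.v.le
    have h4 := hS.pos.r
    linarith
  · rw [lf4 hS.comb]
    exact OL_R4 hS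
  · rw [rt4 hS]
    exact OL_other hS o1 o2 (far4 hS)

/-- All the edges have the same lines. -/
theorem same (hS : Saddle c c' w L R H₁ H₂ H₃ H₄ E Q V V' η) {σ : ℝ} (h : σ ∈ Icc (-η) η)
    (e : Fin m) :
    c.pe (Q + σ • V) e = c'.pe (Q + σ • V') e ∧ c.ae (Q + σ • V) e = c'.ae (Q + σ • V') e ∧
      c.dpe (Q + σ • V) V e = c'.dpe (Q + σ • V') V' e ∧
      c.dae (Q + σ • V) V e = c'.dae (Q + σ • V') V' e := by
  by_cases h1 : e = H₁
  · subst h1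
    obtain ⟨a1, a2, a3, a4⟩ := val1 hS h
    obtain ⟨b1, b2, b3, b4⟩ := val1' hS h
    rw [a1, a2, a3, a4, b1, b2, b3, b4]
    exact ⟨rfl, rfl, rfl, rfl⟩
  by_cases h2 : e = H₂
  · subst h2
    obtain ⟨a1, a2, a3, a4⟩ := val2 hS h
    obtain ⟨b1, b2, b3, b4⟩ := val2' hS h
    rw [a1, a2, a3, a4, b1, b2, b3, b4]
    exact ⟨rfl, rfl, rfl, rfl⟩
  by_cases h3 : e = H₃
  · subst h3
    obtain ⟨a1, a2, a3, a4⟩ := val3 hS h
    obtain ⟨b1, b2, b3, b4⟩ := val3' hS h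
    rw [a1, a2, a3, a4, b1, b2, b3, b4]
    exact ⟨rfl, rfl, rfl, rfl⟩
  by_cases h4 : e = H₄
  · subst h4
    obtain ⟨a1, a2, a3, a4⟩ := val4 hS h
    obtain ⟨b1, b2, b3, b4⟩ := val4' hS h
    rw [a1, a2, a3, a4, b1, b2, b3, b4]
    exact ⟨rfl, rfl, rfl, rfl⟩
  obtain ⟨o1, o2⟩ := other_rt hS.comb h1 h3
  obtain ⟨o3, o4⟩ := other_lf hS.comb h2 h4
  obtain ⟨p1, p2⟩ := other_pos hS σ o1 o2
  obtain ⟨p3, p4⟩ := other_pos hS σ o3 o4
  have hpe : c.pe (Q + σ • V) e = c'.pe (Q + σ • V') e := by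
    unfold Comb.pe
    rw [hS.comb.lf e h4, hS.comb.rt e h3, p1, p2, p3, p4]
  have hdpe : c.dpe (Q + σ • V) V e = c'.dpe (Q + σ • V') V' e := by
    unfold Comb.dpe
    rw [hpe, hS.comb.lf e h4, hS.comb.rt e h3, p1, p3, hS.vx _ o1 o2, hS.vF _ o1 o2,
      hS.vx _ o3 o4, hS.vF _ o3 o4]
  refine ⟨hpe, ?_, hdpe, ?_⟩
  · unfold Comb.ae
    rw [hpe, hS.comb.lf e h4, p3, p4]
  · unfold Comb.dae
    rw [hpe, hdpe, hS.comb.lf e h4, p3, hS.vx _ o3 o4, hS.vF _ o3 o4]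

theorem same_ept (hS : Saddle c c' w L R H₁ H₂ H₃ H₄ E Q V V' η) {σ : ℝ} (h : σ ∈ Icc (-η) η)
    (e : Fin m) (x : ℝ) :
    c.ept (Q + σ • V) V e x = c'.ept (Q + σ • V') V' e x := by
  obtain ⟨h1, h2, h3, h4⟩ := same hS h e
  unfold Comb.ept
  rw [h1, h2, h3, h4]

theorem same_vp (hS : Saddle c c' w L R H₁ H₂ H₃ H₄ E Q V V' η) {σ : ℝ} (h : σ ∈ Icc (-η) η)
    (sh : Shape) (s : ℝ) (i : Fin n) (hL : i ≠ L) (hR : i ≠ R) (u : ℝ) :
    c.vp w (c.sp sh) s (Q + σ • V) V i u = c'.vp w (c'.sp sh) s (Q + σ • V') V' i u := by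
  obtain ⟨a1, a2, a3, a4⟩ := same hS h (c'.ea i)
  obtain ⟨b1, b2, b3, b4⟩ := same hS h (c'.eb i)
  obtain ⟨p1, p2⟩ := other_pos hS σ hL hR
  unfold Comb.vp Comb.vpt Comb.dl Comb.sp
  rw [hS.comb.ty i hL hR, hS.comb.ea i hL hR, hS.comb.eb i hL hR, a1, a2, a3, a4, b1, b3, p1,
    hS.vx i hL hR]

/-- The piece of the right tip. -/
theorem vp_L (hS : Saddle c c' w L R H₁ H₂ H₃ H₄ E Q V V' η) {σ : ℝ} (h : σ ∈ Icc (-η) η)
    (sh : Shape) (s u : ℝ) :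
    c.vp w (c.sp sh) s (Q + σ • V) V L u = gL E sh σ u := by
  obtain ⟨a1, a2, a3, a4⟩ := val1 hS h
  obtain ⟨b1, b2, b3, b4⟩ := val3 hS h
  have hty := hS.comb.tyL
  unfold Comb.vp Comb.vpt Comb.dl Comb.sp Shape.st gL
  rw [hS.comb.aL, hS.comb.bL, a1, a2, a3, a4, b1, b3, xl hS, hS.wL, hS.vxL, hty, zeta_eq]
  refine Prod.ext ?_ (Prod.ext ?_ (Prod.ext ?_ ?_)) <;> simp only <;> ring

/-- The piece of the left tip. -/
theorem vp_R (hS : Saddle c c' w L R H₁ H₂ H₃ H₄ E Q V V' η) {σ : ℝ} (h : σ ∈ Icc (-η) η)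
    (sh : Shape) (s u : ℝ) :
    c.vp w (c.sp sh) s (Q + σ • V) V R u = gR E sh σ u := by
  obtain ⟨a1, a2, a3, a4⟩ := val4 hS h
  obtain ⟨b1, b2, b3, b4⟩ := val2 hS h
  have hty := hS.comb.tyR
  unfold Comb.vp Comb.vpt Comb.dl Comb.sp Shape.st gR
  rw [hS.comb.aR, hS.comb.bR, a1, a2, a3, a4, b1, b3, xr hS, hS.wR, hS.vxR, hty, zeta_eq]
  refine Prod.ext ?_ (Prod.ext ?_ (Prod.ext ?_ ?_)) <;> simp only <;> ring

/-! ### the ranges -/

theorem rg1 (hS : Saddle c c' w L R H₁ H₂ H₃ H₄ E Q V V' η) (σ : ℝ) :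
    c.rg w (Q + σ • V) H₁ = Icc ((Q + σ • V').1 (c'.lf H₁) + 2 * w (c'.lf H₁))
      (E.x₀ + E.v * σ - 2 * E.r) := by
  obtain ⟨o1, o2⟩ := other_lf hS.comb hS.comb.h12 hS.comb.h14
  unfold Comb.rg
  rw [rt1 hS.comb, lf1 hS, xl hS, (other_pos hS σ o1 o2).1, hS.wL]

theorem rg3 (hS : Saddle c c' w L R H₁ H₂ H₃ H₄ E Q V V' η) (σ : ℝ) :
    c.rg w (Q + σ • V) H₃ = Icc ((Q + σ • V').1 (c'.lf H₃) + 2 * w (c'.lf H₃))
      (E.x₀ + E.v * σ - 2 * E.r) := by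
  obtain ⟨o1, o2⟩ := other_lf hS.comb hS.comb.h23.symm hS.comb.h34
  unfold Comb.rg
  rw [rt3 hS.comb, lf3 hS, xl hS, (other_pos hS σ o1 o2).1, hS.wL]

theorem rg2 (hS : Saddle c c' w L R H₁ H₂ H₃ H₄ E Q V V' η) (σ : ℝ) :
    c.rg w (Q + σ • V) H₂ = Icc (E.x₀ - E.v * σ + 2 * E.r)
      ((Q + σ • V').1 (c'.rt H₂) - 2 * w (c'.rt H₂)) := by
  obtain ⟨o1, o2⟩ := other_rt hS.comb hS.comb.h12.symm hS.comb.h23
  unfold Comb.rg
  rw [lf2 hS.comb, rt2 hS, xr hS, (other_pos hS σ o1 o2).1, hS.wR]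

theorem rg4 (hS : Saddle c c' w L R H₁ H₂ H₃ H₄ E Q V V' η) (σ : ℝ) :
    c.rg w (Q + σ • V) H₄ = Icc (E.x₀ - E.v * σ + 2 * E.r)
      ((Q + σ • V').1 (c'.rt H₄) - 2 * w (c'.rt H₄)) := by
  obtain ⟨o1, o2⟩ := other_rt hS.comb hS.comb.h14.symm hS.comb.h34.symm
  unfold Comb.rg
  rw [lf4 hS.comb, rt4 hS, xr hS, (other_pos hS σ o1 o2).1, hS.wR]

theorem rg1' (hS : Saddle c c' w L R H₁ H₂ H₃ H₄ E Q V V' η) (σ : ℝ) :
    c'.rg w (Q + σ • V') H₁ = Icc ((Q + σ • V').1 (c'.lf H₁) + 2 * w (c'.lf H₁))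
      (E.x₀ - 2 * E.r) := by
  unfold Comb.rg
  rw [rt1' hS.comb, xl' hS, hS.wL]

theorem rg3' (hS : Saddle c c' w L R H₁ H₂ H₃ H₄ E Q V V' η) (σ : ℝ) :
    c'.rg w (Q + σ • V') H₃ = Icc ((Q + σ • V').1 (c'.lf H₃) + 2 * w (c'.lf H₃))
      (E.x₀ - 2 * E.r) := by
  unfold Comb.rg
  rw [rt3' hS.comb, xr' hS, hS.wR]

theorem rg2' (hS : Saddle c c' w L R H₁ H₂ H₃ H₄ E Q V V' η) (σ : ℝ) :
    c'.rg w (Q + σ • V') H₂ = Icc (E.x₀ + 2 * E.r)
      ((Q + σ • V').1 (c'.rt H₂) - 2 * w (c'.rt H₂)) := by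
  unfold Comb.rg
  rw [lf2' hS.comb, xr' hS, hS.wR]

theorem rg4' (hS : Saddle c c' w L R H₁ H₂ H₃ H₄ E Q V V' η) (σ : ℝ) :
    c'.rg w (Q + σ • V') H₄ = Icc (E.x₀ + 2 * E.r)
      ((Q + σ • V').1 (c'.rt H₄) - 2 * w (c'.rt H₄)) := by
  unfold Comb.rg
  rw [lf4' hS.comb, xl' hS, hS.wL]

/-- The ranges of the other edges. -/
theorem rg_other (hS : Saddle c c' w L R H₁ H₂ H₃ H₄ E Q V V' η) (σ : ℝ) {e : Fin m}
    (h1 : e ≠ H₁) (h2 : e ≠ H₂) (h3 : e ≠ H₃) (h4 : e ≠ H₄) :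
    c.rg w (Q + σ • V) e = c'.rg w (Q + σ • V') e := by
  obtain ⟨o1, o2⟩ := other_rt hS.comb h1 h3
  obtain ⟨o3, o4⟩ := other_lf hS.comb h2 h4
  unfold Comb.rg
  rw [hS.comb.lf e h4, hS.comb.rt e h3, (other_pos hS σ o1 o2).1, (other_pos hS σ o3 o4).1]

end lines

/-! ### unfolding the surfaces -/

theorem deriv_lin (Q V : St n) (t s : ℝ) : deriv (lin Q V t) s = V := by
  have h : HasDerivAt (lin Q V t) V s := by
    have h1 : HasDerivAt (fun r : ℝ => r - t) 1 s := (hasDerivAt_id s).sub_const t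
    have h2 := (h1.smul_const V).const_add Q
    rw [one_smul] at h2
    exact h2
  exact h.deriv

theorem mem_surf (c : Comb m n) (w : Fin n → ℝ) (π : Fin n → Prof) (Q V : St n) (t : ℝ)
    (r : E5) : r ∈ c.surf w π (lin Q V t) ↔
      (∃ e, ∃ x ∈ c.rg w (Q + (r.1 - t) • V) e, r.2 = c.ept (Q + (r.1 - t) • V) V e x) ∨
      ∃ i, ∃ u, |u| ≤ 2 ∧ r.2 = c.vp w π r.1 (Q + (r.1 - t) • V) V i u := by
  have h := deriv_lin Q V t r.1
  show r.2 ∈ c.slice w π r.1 (lin Q V t r.1) (deriv (lin Q V t) r.1) ↔ _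
  rw [h]
  exact Iff.rfl

theorem mem_sad (c : Comb m n) (w : Fin n → ℝ) (π : Fin n → Prof) (Q V : St n) (t : ℝ)
    (L R : Fin n) (H₁ H₂ H₃ H₄ : Fin m) (E : Evt) (sh : Shape) (ρ : ℝ) (r : E5) :
    r ∈ c.sad w π (lin Q V t) L R H₁ H₂ H₃ H₄ E sh ρ ↔
      (∃ e, e ≠ H₁ ∧ e ≠ H₂ ∧ e ≠ H₃ ∧ e ≠ H₄ ∧ ∃ x ∈ c.rg w (Q + (r.1 - t) • V) e,
        r.2 = c.ept (Q + (r.1 - t) • V) V e x) ∨
      (∃ i, i ≠ L ∧ i ≠ R ∧ ∃ u, |u| ≤ 2 ∧ r.2 = c.vp w π r.1 (Q + (r.1 - t) • V) V i u) ∨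
      (∃ e, (e = H₁ ∨ e = H₂ ∨ e = H₃ ∨ e = H₄) ∧ ∃ x ∈ c.rg w (Q + (r.1 - t) • V) e,
        ρ ≤ |x - E.x₀| ∧ r.2 = c.ept (Q + (r.1 - t) • V) V e x) ∨
      (r ∈ E.set sh 1 1 ∧ |r.2.1 - E.x₀| < ρ) := by
  have h := deriv_lin Q V t r.1
  show (∃ e, e ≠ H₁ ∧ e ≠ H₂ ∧ e ≠ H₃ ∧ e ≠ H₄ ∧ ∃ x ∈ c.rg w (lin Q V t r.1) e,
      r.2 = c.ept (lin Q V t r.1) (deriv (lin Q V t) r.1) e x) ∨
    (∃ i, i ≠ L ∧ i ≠ R ∧ ∃ u, |u| ≤ 2 ∧
      r.2 = c.vp w π r.1 (lin Q V t r.1) (deriv (lin Q V t) r.1) i u) ∨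
    (∃ e, (e = H₁ ∨ e = H₂ ∨ e = H₃ ∨ e = H₄) ∧ ∃ x ∈ c.rg w (lin Q V t r.1) e, ρ ≤ |x - E.x₀| ∧
      r.2 = c.ept (lin Q V t r.1) (deriv (lin Q V t) r.1) e x) ∨
    (r ∈ E.set sh 1 1 ∧ |r.2.1 - E.x₀| < ρ) ↔ _
  rw [h]
  exact Iff.rfl

end SDB

open SDB in
theorem t_SDB (_hCER : Stmt_CER) (_hPST : Stmt_PST) (_hVLN : Stmt_VLN) : Stmt_SDB := by
  intro m n sh c c' w L R H₁ H₂ H₃ H₄ E Q V V' η hS r hr
  have hr' := hS.pos.r
  have hv' := hS.pos.v
  obtain ⟨s, y⟩ := r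
  obtain ⟨hr1, hr2⟩ := hr
  simp only at hr1 hr2
  rw [mem_sad, mem_surf]
  simp only
  obtain ⟨σ, rfl⟩ : ∃ σ, s = E.s₀ + σ := ⟨s - E.s₀, by ring⟩
  have hσe : E.s₀ + σ - E.s₀ = σ := by ring
  rw [hσe]
  have hη := eta_pos hS
  have hσ1 : -η < σ := by linarith
  have hσ2 : σ < -(8 * E.r / E.v) := by linarith
  have hpos8 : 0 < 8 * E.r / E.v := by positivity
  have hI : σ ∈ Icc (-η) η := ⟨hσ1.le, by linarith⟩
  have hvσ : E.v * σ < -(8 * E.r) := by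
    have h1 : σ < -(8 * E.r) / E.v := by rw [neg_div]; exact hσ2
    rw [lt_div_iff₀ hv'] at h1
    linarith
  have hvη : -(E.v * η) < E.v * σ := by
    have := mul_lt_mul_of_pos_left hσ1 hv'
    linarith
  have hl1 := hS.len1 σ hI
  have hl2 := hS.len2 σ hI
  have hl3 := hS.len3 σ hI
  have hl4 := hS.len4 σ hI
  constructor
  · rintro (⟨e, n1, n2, n3, n4, x, hx, h⟩ | ⟨i, hL, hR, u, hu, h⟩ | ⟨e, he, x, hx, hρ, h⟩ |
      ⟨hE, hρ⟩)
    · left
      refine ⟨e, x, ?_, ?_⟩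
      · rw [rg_other hS σ n1 n2 n3 n4]
        exact hx
      · rw [same_ept hS hI]
        exact h
    · right
      refine ⟨i, u, hu, ?_⟩
      rw [same_vp hS hI sh _ i hL hR]
      exact h
    · left
      refine ⟨e, x, ?_, ?_⟩
      · rcases he with rfl | rfl | rfl | rfl
        · rw [rg1' hS] at hx
          rw [rg1 hS]
          obtain ⟨h1, h2⟩ := hx
          rw [abs_of_neg (by linarith)] at hρ
          exact ⟨h1, by linarith⟩
        · rw [rg2' hS] at hx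
          rw [rg2 hS]
          obtain ⟨h1, h2⟩ := hx
          rw [abs_of_pos (by linarith)] at hρ
          exact ⟨by linarith, h2⟩
        · rw [rg3' hS] at hx
          rw [rg3 hS]
          obtain ⟨h1, h2⟩ := hx
          rw [abs_of_neg (by linarith)] at hρ
          exact ⟨h1, by linarith⟩
        · rw [rg4' hS] at hx
          rw [rg4 hS]
          obtain ⟨h1, h2⟩ := hx
          rw [abs_of_pos (by linarith)] at hρ
          exact ⟨by linarith, h2⟩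
      · rw [same_ept hS hI]
        exact h
    · rw [set_iff E hS.pos sh σ hσ2] at hE
      obtain ⟨u, hy | hy⟩ := hE
      · rcases le_or_gt |u| 2 with hu | hu
        · right
          exact ⟨L, u, hu, by rw [vp_L hS hI]; exact hy⟩
        · left
          rcases lt_abs.1 hu with hu | hu
          · rw [gL_high E sh σ (by linarith)] at hy
            have hy1 : y.1 = E.x₀ + E.v * σ - E.r * u := by rw [hy]; rfl
            rw [hy1] at hρ
            have h1 := (abs_lt.1 hρ).1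
            have h2 := mul_lt_mul_of_pos_left hu hr'
            refine ⟨H₃, E.x₀ + E.v * σ - E.r * u, ?_, ?_⟩
            · rw [rg3 hS]
              exact ⟨by linarith, by linarith⟩
            · rw [ept_of c E _ V H₃ σ _ _ _ (val3 hS hI)]
              exact hy
          · rw [gL_low E sh σ (by linarith)] at hy
            have hy1 : y.1 = E.x₀ + E.v * σ + E.r * u := by rw [hy]; rfl
            rw [hy1] at hρ
            have h1 := (abs_lt.1 hρ).1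
            have h2 := mul_lt_mul_of_pos_left hu hr'
            refine ⟨H₁, E.x₀ + E.v * σ + E.r * u, ?_, ?_⟩
            · rw [rg1 hS]
              exact ⟨by linarith, by linarith⟩
            · rw [ept_of c E _ V H₁ σ _ _ _ (val1 hS hI)]
              exact hy
      · rcases le_or_gt |u| 2 with hu | hu
        · right
          exact ⟨R, u, hu, by rw [vp_R hS hI]; exact hy⟩
        · left
          rcases lt_abs.1 hu with hu | hu
          · rw [gR_high E sh σ (by linarith)] at hy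
            have hy1 : y.1 = E.x₀ - E.v * σ + E.r * u := by rw [hy]; rfl
            rw [hy1] at hρ
            have h1 := (abs_lt.1 hρ).2
            have h2 := mul_lt_mul_of_pos_left hu hr'
            refine ⟨H₂, E.x₀ - E.v * σ + E.r * u, ?_, ?_⟩
            · rw [rg2 hS]
              exact ⟨by linarith, by linarith⟩
            · rw [ept_of c E _ V H₂ σ _ _ _ (val2 hS hI)]
              exact hy
          · rw [gR_low E sh σ (by linarith)] at hy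
            have hy1 : y.1 = E.x₀ - E.v * σ - E.r * u := by rw [hy]; rfl
            rw [hy1] at hρ
            have h1 := (abs_lt.1 hρ).2
            have h2 := mul_lt_mul_of_pos_left hu hr'
            refine ⟨H₄, E.x₀ - E.v * σ - E.r * u, ?_, ?_⟩
            · rw [rg4 hS]
              exact ⟨by linarith, by linarith⟩
            · rw [ept_of c E _ V H₄ σ _ _ _ (val4 hS hI)]
              exact hy
  · rintro (⟨e, x, hx, h⟩ | ⟨i, u, hu, h⟩)
    · by_cases n1 : e = H₁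
      · subst n1
        rw [rg1 hS] at hx
        obtain ⟨h1, h2⟩ := hx
        rcases le_or_gt (E.v * η + 2 * E.r) |x - E.x₀| with hρ | hρ
        · right; right; left
          refine ⟨_, Or.inl rfl, x, ?_, hρ, ?_⟩
          · rw [rg1' hS]
            exact ⟨h1, by linarith⟩
          · rw [← same_ept hS hI]
            exact h
        · right; right; right
          rw [ept_of c E _ V _ σ _ _ _ (val1 hS hI)] at h
          refine ⟨?_, ?_⟩
          · rw [set_iff E hS.pos sh σ hσ2]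
            have hu : (x - (E.x₀ + E.v * σ)) / E.r ≤ -1 := by
              rw [div_le_iff₀ hr']
              linarith
            refine ⟨(x - (E.x₀ + E.v * σ)) / E.r, Or.inl ?_⟩
            rw [gL_low E sh σ hu, h]
            have : E.x₀ + E.v * σ + E.r * ((x - (E.x₀ + E.v * σ)) / E.r) = x := by
              field_simp
              ring
            rw [this]
          · rw [h]
            exact hρ
      by_cases n2 : e = H₂
      · subst n2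
        rw [rg2 hS] at hx
        obtain ⟨h1, h2⟩ := hx
        rcases le_or_gt (E.v * η + 2 * E.r) |x - E.x₀| with hρ | hρ
        · right; right; left
          refine ⟨_, Or.inr (Or.inl rfl), x, ?_, hρ, ?_⟩
          · rw [rg2' hS]
            exact ⟨by linarith, h2⟩
          · rw [← same_ept hS hI]
            exact h
        · right; right; right
          rw [ept_of c E _ V _ σ _ _ _ (val2 hS hI)] at h
          refine ⟨?_, ?_⟩
          · rw [set_iff E hS.pos sh σ hσ2]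
            have hu : 1 ≤ (x - (E.x₀ - E.v * σ)) / E.r := by
              rw [le_div_iff₀ hr']
              linarith
            refine ⟨(x - (E.x₀ - E.v * σ)) / E.r, Or.inr ?_⟩
            rw [gR_high E sh σ hu, h]
            have : E.x₀ - E.v * σ + E.r * ((x - (E.x₀ - E.v * σ)) / E.r) = x := by
              field_simp
              ring
            rw [this]
          · rw [h]
            exact hρ
      by_cases n3 : e = H₃
      · subst n3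
        rw [rg3 hS] at hx
        obtain ⟨h1, h2⟩ := hx
        rcases le_or_gt (E.v * η + 2 * E.r) |x - E.x₀| with hρ | hρ
        · right; right; left
          refine ⟨_, Or.inr (Or.inr (Or.inl rfl)), x, ?_, hρ, ?_⟩
          · rw [rg3' hS]
            exact ⟨h1, by linarith⟩
          · rw [← same_ept hS hI]
            exact h
        · right; right; right
          rw [ept_of c E _ V _ σ _ _ _ (val3 hS hI)] at h
          refine ⟨?_, ?_⟩
          · rw [set_iff E hS.pos sh σ hσ2]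
            have hu : 1 ≤ ((E.x₀ + E.v * σ) - x) / E.r := by
              rw [le_div_iff₀ hr']
              linarith
            refine ⟨((E.x₀ + E.v * σ) - x) / E.r, Or.inl ?_⟩
            rw [gL_high E sh σ hu, h]
            have : E.x₀ + E.v * σ - E.r * (((E.x₀ + E.v * σ) - x) / E.r) = x := by
              field_simp
              ring
            rw [this]
          · rw [h]
            exact hρ
      by_cases n4 : e = H₄
      · subst n4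
        rw [rg4 hS] at hx
        obtain ⟨h1, h2⟩ := hx
        rcases le_or_gt (E.v * η + 2 * E.r) |x - E.x₀| with hρ | hρ
        · right; right; left
          refine ⟨_, Or.inr (Or.inr (Or.inr rfl)), x, ?_, hρ, ?_⟩
          · rw [rg4' hS]
            exact ⟨by linarith, h2⟩
          · rw [← same_ept hS hI]
            exact h
        · right; right; right
          rw [ept_of c E _ V _ σ _ _ _ (val4 hS hI)] at h
          refine ⟨?_, ?_⟩
          · rw [set_iff E hS.pos sh σ hσ2]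
            have hu : ((E.x₀ - E.v * σ) - x) / E.r ≤ -1 := by
              rw [div_le_iff₀ hr']
              linarith
            refine ⟨((E.x₀ - E.v * σ) - x) / E.r, Or.inr ?_⟩
            rw [gR_low E sh σ hu, h]
            have : E.x₀ - E.v * σ - E.r * (((E.x₀ - E.v * σ) - x) / E.r) = x := by
              field_simp
              ring
            rw [this]
          · rw [h]
            exact hρ
      left
      refine ⟨e, n1, n2, n3, n4, x, ?_, ?_⟩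
      · rw [← rg_other hS σ n1 n2 n3 n4]
        exact hx
      · rw [← same_ept hS hI]
        exact h
    · by_cases nL : i = L
      · subst nL
        right; right; right
        rw [vp_L hS hI] at h
        refine ⟨?_, ?_⟩
        · rw [set_iff E hS.pos sh σ hσ2]
          exact ⟨u, Or.inl h⟩
        · rw [h]
          have h1 := abs_le.1 (abs_xi_le_two sh hu)
          have h2 := mul_le_mul_of_nonneg_left h1.1 hr'.le
          have h3 := mul_le_mul_of_nonneg_left h1.2 hr'.le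
          unfold gL
          simp only
          rw [abs_lt]
          constructor <;> linarith
      by_cases nR : i = R
      · subst nR
        right; right; right
        rw [vp_R hS hI] at h
        refine ⟨?_, ?_⟩
        · rw [set_iff E hS.pos sh σ hσ2]
          exact ⟨u, Or.inr h⟩
        · rw [h]
          have h1 := abs_le.1 (abs_xi_le_two sh hu)
          have h2 := mul_le_mul_of_nonneg_left h1.1 hr'.le
          have h3 := mul_le_mul_of_nonneg_left h1.2 hr'.le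
          unfold gR
          simp only
          rw [abs_lt]
          constructor <;> linarith
      right; left
      refine ⟨i, nL, nR, u, hu, ?_⟩
      rw [← same_vp hS hI sh _ i nL nR]
      exact h

end LCA
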