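import Pool.Agent.LCA.Stmts5

/-!
# SDC: the combinatorics of a checked saddle
-/

namespace LCA

open Set Filter
open scoped ContDiff Topology

namespace SDC

theorem val_of {n k : ℕ} (h : k < n + 1) : ((Fin.ofNat (n + 1) k : Fin (n + 1)) : ℕ) = k := by
  simp [Fin.ofNat, Nat.mod_eq_of_lt h]

theorem ofNat_ne {n a b : ℕ} (ha : a < n + 1) (hb : b < n + 1) (h : a ≠ b) :
    Fin.ofNat (n + 1) a ≠ Fin.ofNat (n + 1) b := fun e =>
  h (by rw [← val_of ha, ← val_of hb, e])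

theorem ne_val {n a : ℕ} {i : Fin (n + 1)} (ha : a < n + 1) (h : i ≠ Fin.ofNat (n + 1) a) :
    (i : ℕ) ≠ a := fun e => h (Fin.ext (by rw [val_of ha]; exact e))

theorem cb_ty {m n : ℕ} (S : SD) {k : ℕ} (h : k < n + 1) :
    (S.cb m n).ty (Fin.ofNat (n + 1) k) = tyOf (S.v k).ty := by
  change tyOf (S.v ((Fin.ofNat (n + 1) k : Fin (n + 1)) : ℕ)).ty = _
  rw [val_of h]

theorem cb_ea {m n : ℕ} (S : SD) {k : ℕ} (h : k < n + 1) :
    (S.cb m n).ea (Fin.ofNat (n + 1) k) = Fin.ofNat (m + 1) (S.v k).ea := by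
  change Fin.ofNat (m + 1) (S.v ((Fin.ofNat (n + 1) k : Fin (n + 1)) : ℕ)).ea = _
  rw [val_of h]

theorem cb_eb {m n : ℕ} (S : SD) {k : ℕ} (h : k < n + 1) :
    (S.cb m n).eb (Fin.ofNat (n + 1) k) = Fin.ofNat (m + 1) (S.v k).eb := by
  change Fin.ofNat (m + 1) (S.v ((Fin.ofNat (n + 1) k : Fin (n + 1)) : ℕ)).eb = _
  rw [val_of h]

end SDC

open SDC in
theorem t_SDC (hCBL : Stmt_CBL) (hCB2 : Stmt_CB2) : Stmt_SDC := by
  obtain ⟨hb, ho, -, -, -, -, -, -, -, -, ha2, -⟩ := hCBL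
  obtain ⟨hnl, hnn, -, -, -⟩ := hCB2
  intro m n L R H₁ H₂ H₃ H₄ E A B C C' hA hC h
  simp only [sdOK, hb, hnl, hnn] at h
  obtain ⟨-, hL, hR, hLR, h1, h2, h3, h4, h12, h13, h14, h23, h24, h34, -, -, -, hV, hE, hT, hP,
    -, -, -, -⟩ := h
  simp only [sdT, hb, Nat.beq_eq] at hT
  obtain ⟨tL, tR, aL, bL, aR, bR, -, -, -, -⟩ := hT
  simp only [sdP, hb, Nat.beq_eq] at hP
  obtain ⟨tL', tR', aL', bL', aR', bR', -⟩ := hP
  have hV' := (ha2 _ _ vs0 vs0 (sdV L R) A.vs C.vs).mp hV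
  have hE' := (ha2 _ _ es0 es0 (sdE H₃ H₄) A.es C.es).mp hE
  have hv : ∀ i : Fin (n + 1), i ≠ Fin.ofNat (n + 1) L → i ≠ Fin.ofNat (n + 1) R →
      (A.v i).ty = (C.v i).ty ∧ (A.v i).ea = (C.v i).ea ∧ (A.v i).eb = (C.v i).eb := by
    intro i hiL hiR
    have hi1 := ne_val hL hiL
    have hi2 := ne_val hR hiR
    have h5 := hV' i (by rw [hA.lenV]; exact i.isLt) (by rw [hC.lenV]; exact i.isLt)
    simp only [sdV, hb, ho, Nat.beq_eq] at h5
    obtain ⟨-, -, -, h6⟩ := h5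
    rcases h6 with h6 | h6 | ⟨h6, h7, h8, -⟩
    · exact absurd h6 hi1
    · exact absurd h6 hi2
    · exact ⟨h6, h7, h8⟩
  have he : ∀ e : Fin (m + 1), (e ≠ Fin.ofNat (m + 1) H₄ → (A.e e).lf = (C.e e).lf) ∧
      (e ≠ Fin.ofNat (m + 1) H₃ → (A.e e).rt = (C.e e).rt) := by
    intro e
    have h5 := hE' e (by rw [hA.lenE]; exact e.isLt) (by rw [hC.lenE]; exact e.isLt)
    simp only [sdE, hb, ho, Nat.beq_eq] at h5
    obtain ⟨h6, h7⟩ := h5
    refine ⟨fun hne => ?_, fun hne => ?_⟩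
    · rcases h6 with h6 | h6
      · exact absurd h6 (ne_val h4 hne)
      · exact h6
    · rcases h7 with h7 | h7
      · exact absurd h7 (ne_val h3 hne)
      · exact h7
  exact
    { valid := hA.valid
      valid' := hC.valid
      LR := ofNat_ne hL hR hLR
      h12 := ofNat_ne h1 h2 h12
      h13 := ofNat_ne h1 h3 h13
      h14 := ofNat_ne h1 h4 h14
      h23 := ofNat_ne h2 h3 h23
      h24 := ofNat_ne h2 h4 h24
      h34 := ofNat_ne h3 h4 h34
      tyL := by rw [cb_ty A hL, tL]; rfl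
      tyR := by rw [cb_ty A hR, tR]; rfl
      aL := by rw [cb_ea A hL, aL]
      bL := by rw [cb_eb A hL, bL]
      aR := by rw [cb_ea A hR, aR]
      bR := by rw [cb_eb A hR, bR]
      tyL' := by rw [cb_ty C hL, tL']; rfl
      tyR' := by rw [cb_ty C hR, tR']; rfl
      aL' := by rw [cb_ea C hL, aL']
      bL' := by rw [cb_eb C hL, bL']
      aR' := by rw [cb_ea C hR, aR']
      bR' := by rw [cb_eb C hR, bR']
      ty := fun i h5 h6 => by
        change tyOf (A.v i).ty = tyOf (C.v i).ty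
        rw [(hv i h5 h6).1]
      ea := fun i h5 h6 => by
        change Fin.ofNat (m + 1) (A.v i).ea = Fin.ofNat (m + 1) (C.v i).ea
        rw [(hv i h5 h6).2.1]
      eb := fun i h5 h6 => by
        change Fin.ofNat (m + 1) (A.v i).eb = Fin.ofNat (m + 1) (C.v i).eb
        rw [(hv i h5 h6).2.2]
      lf := fun e h5 => by
        change Fin.ofNat (n + 1) (A.e e).lf = Fin.ofNat (n + 1) (C.e e).lf
        rw [(he e).1 h5]
      rt := fun e h5 => by
        change Fin.ofNat (n + 1) (A.e e).rt = Fin.ofNat (n + 1) (C.e e).rt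
        rw [(he e).2 h5] }

end LCA
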