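import Pool.Agent.LCA.Stmts2

/-!
# SDM: the reversed saddle transition
-/

namespace LCA

open Set Filter
open scoped ContDiff Topology

namespace SDM

variable {m n : ℕ}

/-- The path of the moving polygon does not depend on the reference time. -/
theorem lin_lin (Q V : St n) (s₀ t : ℝ) : lin (lin Q V s₀ t) V t = lin Q V s₀ := by
  funext s
  unfold lin
  rw [add_assoc, ← add_smul]
  congr 2
  ring

/-- The reversed path. -/
theorem lin_rev (Q V : St n) (s₀ : ℝ) : (fun s => lin Q V s₀ (2 * s₀ - s)) = lin Q (-V) s₀ := by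
  funext s
  show Q + (2 * s₀ - s - s₀) • V = Q + (s - s₀) • (-V)
  rw [smul_neg, ← neg_smul]
  congr 2
  ring

/-- Reversal of the agreement of a surface with a moving polygon. -/
theorem agree_rev (hREV : Stmt_REV) (sh : Shape) (c : Comb m n) (w : Fin n → ℝ) (Q V : St n)
    (s₀ a b a' b' t : ℝ) (A : Set E5) (ha : a ≤ 2 * s₀ - b') (hb : 2 * s₀ - a' ≤ b)
    (h : Agree (Ioo a b) A (c.surf w (c.sp sh) (lin Q V s₀))) :
    Agree (Ioo a' b') (rev s₀ ⁻¹' A) (c.surf w (c.sp sh) (lin (lin Q (-V) s₀ t) (-V) t)) := by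
  have h1 : rev s₀ ⁻¹' (c.surf w (c.sp sh) (lin Q V s₀)) =
      c.surf w (c.sp sh) (lin (lin Q (-V) s₀ t) (-V) t) := by
    rw [lin_lin, ← lin_rev]
    exact (hREV s₀ univ univ isOpen_univ).2.2.2 sh m n c w (lin Q V s₀)
  intro q hq
  rw [← h1]
  refine h (rev s₀ q) ?_
  show 2 * s₀ - q.1 ∈ Ioo a b
  exact ⟨by linarith [hq.2], by linarith [hq.1]⟩

end SDM

/-- SDM: two passes become two tips. -/
theorem t_SDM (hSDG : Stmt_SDG) (hSDU : Stmt_SDU) (hSDA : Stmt_SDA) (hSDB : Stmt_SDB)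
    (hATR : Stmt_ATR) (hREV : Stmt_REV) (hRST : Stmt_RST) : Stmt_SDM := by
  intro m n K sh c c' w L R H₁ H₂ H₃ H₄ E Q V V' η t t' hS ht1 ht2 ht3 ht4 h0 hAt
  have hG := hSDG sh c c' w L R H₁ H₂ H₃ H₄ E Q V V' η hS
  have hU := (hSDU sh c c' w L R H₁ H₂ H₃ H₄ E Q V V' η hS).2
  have hA := hSDA sh c c' w L R H₁ H₂ H₃ H₄ E Q V V' η hS
  have hB := hSDB sh c c' w L R H₁ H₂ H₃ H₄ E Q V V' η hS
  have hrv : 0 < 8 * E.r / E.v := by
    have h1 := hS.pos.r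
    have h2 := hS.pos.v
    positivity
  obtain ⟨ε, hε, h1, h2, h3, h4⟩ : ∃ ε : ℝ, 0 < ε ∧ E.s₀ - η ≤ t - ε ∧
      t + ε ≤ E.s₀ - 8 * E.r / E.v ∧ E.s₀ + 8 * E.r / E.v ≤ t' - ε ∧ t' + ε ≤ E.s₀ + η := by
    refine ⟨min (min (t - (E.s₀ - η)) (E.s₀ - 8 * E.r / E.v - t))
      (min (t' - (E.s₀ + 8 * E.r / E.v)) (E.s₀ + η - t')), ?_, ?_, ?_, ?_, ?_⟩
    · exact lt_min (lt_min (by linarith) (by linarith)) (lt_min (by linarith) (by linarith))
    · have := (min_le_left (min (t - (E.s₀ - η)) (E.s₀ - 8 * E.r / E.v - t))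
        (min (t' - (E.s₀ + 8 * E.r / E.v)) (E.s₀ + η - t'))).trans (min_le_left _ _)
      linarith
    · have := (min_le_left (min (t - (E.s₀ - η)) (E.s₀ - 8 * E.r / E.v - t))
        (min (t' - (E.s₀ + 8 * E.r / E.v)) (E.s₀ + η - t'))).trans (min_le_right _ _)
      linarith
    · have := (min_le_right (min (t - (E.s₀ - η)) (E.s₀ - 8 * E.r / E.v - t))
        (min (t' - (E.s₀ + 8 * E.r / E.v)) (E.s₀ + η - t'))).trans (min_le_left _ _)
      linarith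
    · have := (min_le_right (min (t - (E.s₀ - η)) (E.s₀ - 8 * E.r / E.v - t))
        (min (t' - (E.s₀ + 8 * E.r / E.v)) (E.s₀ + η - t'))).trans (min_le_right _ _)
      linarith
  obtain ⟨r1, -, r3, -⟩ := hREV E.s₀ (Ioo (E.s₀ - η) (E.s₀ + η))
    (c'.sad w (c'.sp sh) (lin Q V' E.s₀) L R H₁ H₂ H₃ H₄ E sh (E.v * η + 2 * E.r)) isOpen_Ioo
  have hsub : Ioo (t - ε) (t' + ε) ⊆
      (fun s => 2 * E.s₀ - s) ⁻¹' (Ioo (E.s₀ - η) (E.s₀ + η)) := by
    intro s hs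
    show 2 * E.s₀ - s ∈ Ioo (E.s₀ - η) (E.s₀ + η)
    exact ⟨by linarith [hs.2], by linarith [hs.1]⟩
  refine hATR K sh c' w (lin Q (-V') E.s₀ t) (-V') t c w (lin Q (-V) E.s₀ t') (-V) t' ε
    (rev E.s₀ ⁻¹' (c'.sad w (c'.sp sh) (lin Q V' E.s₀) L R H₁ H₂ H₃ H₄ E sh
      (E.v * η + 2 * E.r))) (by linarith) hε hAt ?_ ?_ ?_ ?_
  · exact hRST _ _ _ isOpen_Ioo hsub (r1 hG)
  · intro q hq hq1 a ha haq
    exact r3 hU q hq (hsub hq1) a (hsub ha) haq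
  · exact SDM.agree_rev hREV sh c' w Q V' E.s₀ _ _ _ _ t _ (by linarith) (by linarith) hA
  · exact SDM.agree_rev hREV sh c w Q V E.s₀ _ _ _ _ t' _ (by linarith) (by linarith) hB

end LCA
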