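import Pool.Agent.LCA.Stmts2

/-!
# SDP: saddle transition
-/

namespace LCA

open Set Filter
open scoped ContDiff Topology

namespace SDP

theorem lin_lin {n : ℕ} (Q V : St n) (a t : ℝ) : lin (lin Q V a t) V t = lin Q V a := by
  funext s
  unfold lin
  module

theorem agree_mono {J J' : Set ℝ} {A A' : Set E5} (h : Agree J A A') (hJ : J' ⊆ J) :
    Agree J' A A' := fun q hq => h q (hJ hq)

theorem down_mono {J J' : Set ℝ} {A : Set E5} (h : Down J A) (hJ : J' ⊆ J) : Down J' A :=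
  fun q hq hqJ c hc hcq => h q hq (hJ hqJ) c (hJ hc) hcq

theorem exists_eps {a b c d t t' : ℝ} (h1 : a < t) (h2 : t < b) (h3 : c < t') (h4 : t' < d) :
    ∃ ε : ℝ, 0 < ε ∧ a ≤ t - ε ∧ t + ε ≤ b ∧ c ≤ t' - ε ∧ t' + ε ≤ d := by
  refine ⟨min (min (t - a) (b - t)) (min (t' - c) (d - t')), ?_, ?_, ?_, ?_, ?_⟩
  · refine lt_min (lt_min ?_ ?_) (lt_min ?_ ?_) <;> linarith
  · have := (min_le_left (min (t - a) (b - t)) (min (t' - c) (d - t'))).trans (min_le_left _ _)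
    linarith
  · have := (min_le_left (min (t - a) (b - t)) (min (t' - c) (d - t'))).trans (min_le_right _ _)
    linarith
  · have := (min_le_right (min (t - a) (b - t)) (min (t' - c) (d - t'))).trans (min_le_left _ _)
    linarith
  · have := (min_le_right (min (t - a) (b - t)) (min (t' - c) (d - t'))).trans (min_le_right _ _)
    linarith

end SDP

theorem t_SDP (hSDG : Stmt_SDG) (hSDU : Stmt_SDU) (hSDA : Stmt_SDA) (hSDB : Stmt_SDB)
    (hATR : Stmt_ATR) (hRST : Stmt_RST) : Stmt_SDP := by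
  intro m n K sh c c' w L R H₁ H₂ H₃ H₄ E Q V V' η t t' hS h1 h2 h3 h4 h5 hAt
  obtain ⟨ε, hε, e1, e2, e3, e4⟩ := SDP.exists_eps h1 h2 h3 h4
  have hr : 0 < 8 * E.r / E.v := div_pos (mul_pos (by norm_num) hS.pos.r) hS.pos.v
  refine hATR K sh c w (lin Q V E.s₀ t) V t c' w (lin Q V' E.s₀ t') V' t' ε
    (c'.sad w (c'.sp sh) (lin Q V' E.s₀) L R H₁ H₂ H₃ H₄ E sh (E.v * η + 2 * E.r))
    (by linarith) hε hAt ?_ ?_ ?_ ?_
  · refine hRST _ _ _ isOpen_Ioo ?_ (hSDG sh c c' w L R H₁ H₂ H₃ H₄ E Q V V' η hS)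
    exact Ioo_subset_Ioo e1 e4
  · exact SDP.down_mono (hSDU sh c c' w L R H₁ H₂ H₃ H₄ E Q V V' η hS).1
      (Ioo_subset_Ioo e1 e4)
  · rw [SDP.lin_lin]
    exact SDP.agree_mono (hSDB sh c c' w L R H₁ H₂ H₃ H₄ E Q V V' η hS) (Ioo_subset_Ioo e1 e2)
  · rw [SDP.lin_lin]
    exact SDP.agree_mono (hSDA sh c c' w L R H₁ H₂ H₃ H₄ E Q V V' η hS) (Ioo_subset_Ioo e3 e4)

end LCA
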