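import Pool.Agent.LCA.Stmts5

/-!
# SDR: a checked saddle
-/

namespace LCA

open Set Filter
open scoped ContDiff Topology

namespace SDR

theorem val_of {n k : ℕ} (h : k < n + 1) : ((Fin.ofNat (n + 1) k : Fin (n + 1)) : ℕ) = k := by
  simp [Fin.ofNat, Nat.mod_eq_of_lt h]

theorem ne_val {n a : ℕ} {i : Fin (n + 1)} (ha : a < n + 1) (h : i ≠ Fin.ofNat (n + 1) a) :
    (i : ℕ) ≠ a := fun e => h (Fin.ext (by rw [val_of ha]; exact e))

/-- An affine function which is smaller than `c` at the two ends of the interval. -/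
theorem aff_lt {a b c t : ℝ} (h0 : a < c) (h1 : a + 4 * b < c) (ht : t ∈ Icc (-2 : ℝ) 2) :
    a + 2 * b + t * b < c := by
  obtain ⟨h2, h3⟩ := ht
  rcases le_total 0 b with h | h
  · nlinarith
  · nlinarith

/-- An affine function which is larger than `c` at the two ends of the interval. -/
theorem aff_gt {a b c t : ℝ} (h0 : c < a) (h1 : c < a + 4 * b) (ht : t ∈ Icc (-2 : ℝ) 2) :
    c < a + 2 * b + t * b := by
  obtain ⟨h2, h3⟩ := ht
  rcases le_total 0 b with h | h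
  · nlinarith
  · nlinarith

theorem Q1 {n : ℕ} (S : SD) {k : ℕ} (h : k < n + 1) :
    (S.Q n).1 (Fin.ofNat (n + 1) k) = ((S.v k).x : ℝ) := by
  change ((S.v ((Fin.ofNat (n + 1) k : Fin (n + 1)) : ℕ)).x : ℝ) = _
  rw [val_of h]

theorem Q2 {n : ℕ} (S : SD) {k : ℕ} (h : k < n + 1) :
    (S.Q n).2 (Fin.ofNat (n + 1) k) = ((S.v k).F : ℝ) := by
  change ((S.v ((Fin.ofNat (n + 1) k : Fin (n + 1)) : ℕ)).F : ℝ) = _
  rw [val_of h]

theorem V1 {n : ℕ} (S : SD) {k : ℕ} (h : k < n + 1) :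
    (S.V n).1 (Fin.ofNat (n + 1) k) = ((S.v k).dx : ℝ) := by
  change ((S.v ((Fin.ofNat (n + 1) k : Fin (n + 1)) : ℕ)).dx : ℝ) = _
  rw [val_of h]

theorem V2 {n : ℕ} (S : SD) {k : ℕ} (h : k < n + 1) :
    (S.V n).2 (Fin.ofNat (n + 1) k) = ((S.v k).dF : ℝ) := by
  change ((S.v ((Fin.ofNat (n + 1) k : Fin (n + 1)) : ℕ)).dF : ℝ) = _
  rw [val_of h]

theorem Wv {n : ℕ} (S : SD) {k : ℕ} (h : k < n + 1) :
    S.W n (Fin.ofNat (n + 1) k) = ((S.v k).w : ℝ) := by
  change ((S.v ((Fin.ofNat (n + 1) k : Fin (n + 1)) : ℕ)).w : ℝ) = _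
  rw [val_of h]

theorem ia (a b : ℤ) : Int.add a b = a + b := rfl

theorem im (a b : ℤ) : Int.mul a b = a * b := rfl

theorem is (a b : ℤ) : Int.sub a b = a - b := rfl

theorem ine (a : ℤ) : Int.neg a = -a := rfl

/-- The real numbers which belong to the data of a critical point. -/
theorem ev_ζ (E : ED) (s₀ : ℝ) : (E.ev s₀).ζ = (E.h : ℝ) * E.v := by
  change (2 * (E.h : ℝ)) * (E.v : ℝ) / 2 = _
  ring

theorem ev_g (E : ED) (s₀ : ℝ) : (E.ev s₀).g / 2 = (E.h : ℝ) := by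
  change (2 * (E.h : ℝ)) / 2 = _
  ring

theorem cast_ζ (E : ED) : ((E.ζ : ℤ) : ℝ) = (E.h : ℝ) * E.v := by
  change ((E.h * E.v : ℤ) : ℝ) = _
  push_cast
  ring

theorem cast_ρ (E : ED) : ((E.ρ : ℤ) : ℝ) = (E.v : ℝ) * 2 + 4 * E.r := by
  change ((2 * E.v + 4 * E.r : ℤ) : ℝ) = _
  push_cast
  ring

/-- The slope of an edge whose slope is constant. -/
theorem slope (hLNP : Stmt_LNP) {m n : ℕ} (c : Comb m n) (T : ℝ) (Q Q' V : St n)
    (hlin : c.Lin T Q Q' V) (e : Fin m) (hd : c.dpe Q V e = 0) (s : ℝ)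
    (hs : (Q + s • V).1 (c.lf e) < (Q + s • V).1 (c.rt e)) :
    c.pe (Q + s • V) e = c.pe Q e ∧ c.dpe (Q + s • V) V e = 0 := by
  have h0 := hLNP c T Q Q' V hlin e 0 (by rw [zero_smul, add_zero]; exact hlin.len e)
  rw [zero_smul, add_zero] at h0
  have h1 := hLNP c T Q Q' V hlin e s hs
  have h2 : c.dpe Q' V e = 0 := by rw [← h0.2.1, hd]
  refine ⟨?_, ?_⟩
  · rw [h1.1, h0.1, h2]
    ring
  · rw [h1.2.1, h2]

end SDR

open SDR in
theorem t_SDR (hSDC : Stmt_SDC) (hBXL : Stmt_BXL) (hBXI : Stmt_BXI) (hMVR : Stmt_MVR)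
    (hSTF : Stmt_STF) (hSVL : Stmt_SVL) (hGOK : Stmt_GOK) (hGOC : Stmt_GOC) (hLNP : Stmt_LNP)
    (hCBL : Stmt_CBL) (hCB2 : Stmt_CB2) : Stmt_SDR := by
  obtain ⟨hb, ho, hl, he, -, -, hia, -, -, -, ha2, -⟩ := hCBL
  obtain ⟨hnl, hnn, -, -, -⟩ := hCB2
  intro m n L R H₁ H₂ H₃ H₄ E A B C C' s₀ okA okB okC okC' h
  have fA := hSTF m n A okA
  have fB := hSTF m n B okB
  have fC := hSTF m n C okC
  have fC' := hSTF m n C' okC'
  have vC := hSVL m n C fC
  have vC' := hSVL m n C' fC'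
  have hcomb := hSDC m n L R H₁ H₂ H₃ H₄ E A B C C' fA fC h
  simp only [sdOK, hb, hnl, hnn] at h
  obtain ⟨hE, hL, hR, hLR, h1, h2, h3, h4, -, -, -, -, -, -, hmv4, hmv3, hgo, hV, -, hT, hP,
    hl1, hl2, hbe, hbv⟩ := h
  simp only [ED.ok, hb, hl, hia, im, is] at hE
  obtain ⟨eh, ev, er, erv, eP⟩ := hE
  simp only [sdT, hb, he, Nat.beq_eq, ia, im, is, ine] at hT
  obtain ⟨-, -, -, -, -, -, tLx, tRx, tLF, tRF⟩ := hT
  simp only [sdP, hb, he, Nat.beq_eq, ia, im, is] at hP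
  obtain ⟨-, -, -, -, -, -, wL, wR, xL, xR, dxL, dxR, dFL, dFR, FL, FR, p1, p3, p2, p4, d1, d2, d3,
    d4⟩ := hP
  simp only [sdL, hb, hl, ia, is] at hl1 hl2
  obtain ⟨q1, q3, q2, q4⟩ := hl1
  obtain ⟨q1', q3', q2', q4'⟩ := hl2
  -- the vertices
  have hv : ∀ i : Fin (n + 1), (A.v i).w = (C.v i).w ∧
      (A.v i).x + (A.v i).dx = (C.v i).x + 2 * (C.v i).dx ∧
      (A.v i).F + (A.v i).dF = (C.v i).F + 2 * (C.v i).dF ∧
      (i ≠ Fin.ofNat (n + 1) L → i ≠ Fin.ofNat (n + 1) R →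
        (A.v i).dx = (C.v i).dx ∧ (A.v i).dF = (C.v i).dF) := by
    intro i
    have h5 := (ha2 _ _ vs0 vs0 (sdV L R) A.vs C.vs).mp hV i (by rw [fA.lenV]; exact i.isLt)
      (by rw [fC.lenV]; exact i.isLt)
    simp only [sdV, hb, ho, he, Nat.beq_eq, ia, im] at h5
    obtain ⟨h6, h7, h8, h9⟩ := h5
    refine ⟨h6, h7, h8, fun hiL hiR => ?_⟩
    rcases h9 with h9 | h9 | ⟨-, -, -, h10, h11⟩
    · exact absurd h9 (ne_val hL hiL)
    · exact absurd h9 (ne_val hR hiR)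
    · exact ⟨h10, h11⟩
  have hW : A.W n = C.W n := by
    funext i
    change ((A.v i).w : ℝ) = ((C.v i).w : ℝ)
    rw [(hv i).1]
  have hQ : A.Q n + A.V n = C.Q n + (2 : ℝ) • C.V n := by
    refine Prod.ext ?_ ?_
    · funext i
      change ((A.v i).x : ℝ) + ((A.v i).dx : ℝ) = ((C.v i).x : ℝ) + 2 * ((C.v i).dx : ℝ)
      exact_mod_cast (hv i).2.1
    · funext i
      change ((A.v i).F : ℝ) + ((A.v i).dF : ℝ) = ((C.v i).F : ℝ) + 2 * ((C.v i).dF : ℝ)
      exact_mod_cast (hv i).2.2.1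
  obtain ⟨cC, wC, VC, QC⟩ := (hMVR m n C C' fC fC').1 4 hmv4
  obtain ⟨cB, wB, VB, QB⟩ := (hMVR m n C B fC fB).1 3 hmv3
  obtain ⟨hGo, -, -⟩ := hGOK m n 4 C C' okC okC' hgo
  have hcert := (hGOC (C.cb m n) (C.W n) ((4 : ℤ) : ℝ) (C.Q n) (C.V n) (C'.Q n) (C'.V n) hGo).1
  have hlin := hGo.lin
  rw [hQ, hW]
  -- real numbers
  have eh' : (0 : ℝ) < E.h := by exact_mod_cast eh
  have ev' : (0 : ℝ) < E.v := by exact_mod_cast ev
  have er' : (0 : ℝ) < E.r := by exact_mod_cast er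
  have erv' : 8 * (E.r : ℝ) < E.v := by exact_mod_cast erv
  have eP' : |(E.P₂ : ℝ) - E.P₁| < 2 * E.h := by exact_mod_cast eP
  have hpos : (E.ev s₀).Pos := by
    refine ⟨?_, ev', er'⟩
    change 0 < 2 * (E.h : ℝ)
    linarith
  -- slopes
  have hmid : ∀ k : Fin (m + 1), (C.Q n + (2 : ℝ) • C.V n).1 ((C.cb m n).lf k) <
      (C.Q n + (2 : ℝ) • C.V n).1 ((C.cb m n).rt k) := by
    intro k
    have a1 := hlin.len k
    have a2 := hlin.len' k
    rw [QC] at a2
    change (C.Q n).1 _ + ((4 : ℤ) : ℝ) * (C.V n).1 _ < (C.Q n).1 _ + ((4 : ℤ) : ℝ) * (C.V n).1 _ at a2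
    change (C.Q n).1 _ + 2 * (C.V n).1 _ < (C.Q n).1 _ + 2 * (C.V n).1 _
    push_cast at a2
    linarith
  have hsl : ∀ k : Fin (m + 1), (C.e k).dp = 0 →
      (C.cb m n).pe (C.Q n + (2 : ℝ) • C.V n) k = ((C.e k).p : ℝ) ∧
      (C.cb m n).dpe (C.Q n + (2 : ℝ) • C.V n) (C.V n) k = 0 := by
    intro k hk
    refine ⟨?_, ?_⟩
    · rw [(slope hLNP (C.cb m n) _ (C.Q n) (C'.Q n) (C.V n) (VC ▸ hlin) k
        (by rw [vC.dpe, hk, Int.cast_zero]) 2 (hmid k)).1, vC.pe]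
    · exact (slope hLNP (C.cb m n) _ (C.Q n) (C'.Q n) (C.V n) (VC ▸ hlin) k
        (by rw [vC.dpe, hk, Int.cast_zero]) 2 (hmid k)).2
  have hsh : ∀ t : ℝ, C.Q n + (2 : ℝ) • C.V n + t • C.V n = C.Q n + (t + 2) • C.V n := by
    intro t
    rw [add_smul, add_assoc, add_comm ((2 : ℝ) • C.V n)]
  have hIcc : ∀ t ∈ Icc (-2 : ℝ) 2, t + 2 ∈ Icc (0 : ℝ) ((4 : ℤ) : ℝ) := by
    intro t ht
    refine ⟨by linarith [ht.1], ?_⟩
    push_cast
    linarith [ht.2]
  have hρ : ((E.ρ : ℤ) : ℝ) = (E.ev s₀).v * 2 + 4 * (E.ev s₀).r := cast_ρ E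
  have hlf : ∀ k : ℕ, k < m + 1 → (C.e k).il < E.x - E.ρ → (C'.e k).il < E.x - E.ρ →
      ∀ t ∈ Icc (-2 : ℝ) 2, (C.Q n + (2 : ℝ) • C.V n + t • C.V n).1
        ((C.cb m n).lf (Fin.ofNat (m + 1) k)) + 2 * C.W n ((C.cb m n).lf (Fin.ofNat (m + 1) k)) <
        (E.ev s₀).x₀ - ((E.ev s₀).v * 2 + 4 * (E.ev s₀).r) := by
    intro k hk a1 a2 t ht
    have b1 := vC.il (Fin.ofNat (m + 1) k)
    have b2 := vC'.il (Fin.ofNat (m + 1) k)
    rw [val_of hk] at b1 b2
    rw [← cC, ← wC, QC] at b2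
    have c1 : ((C.e k).il : ℝ) < (E.x : ℝ) - (E.ρ : ℤ) := by exact_mod_cast a1
    have c2 : ((C'.e k).il : ℝ) < (E.x : ℝ) - (E.ρ : ℤ) := by exact_mod_cast a2
    rw [hρ, ← b1] at c1
    rw [hρ, ← b2] at c2
    generalize (C.cb m n).lf (Fin.ofNat (m + 1) k) = i at c1 c2 ⊢
    change (C.Q n).1 i + 2 * (C.V n).1 i + t * (C.V n).1 i + 2 * C.W n i < _
    change (C.Q n).1 i + ((4 : ℤ) : ℝ) * (C.V n).1 i + 2 * C.W n i < _ at c2
    push_cast at c2
    have c3 := aff_lt (a := (C.Q n).1 i + 2 * C.W n i) (b := (C.V n).1 i) c1 (by linarith) ht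
    have c4 : (E.ev s₀).x₀ = (E.x : ℝ) := rfl
    linarith
  have hrt : ∀ k : ℕ, k < m + 1 → E.x + E.ρ < (C.e k).ir → E.x + E.ρ < (C'.e k).ir →
      ∀ t ∈ Icc (-2 : ℝ) 2, (E.ev s₀).x₀ + ((E.ev s₀).v * 2 + 4 * (E.ev s₀).r) <
        (C.Q n + (2 : ℝ) • C.V n + t • C.V n).1
        ((C.cb m n).rt (Fin.ofNat (m + 1) k)) -
          2 * C.W n ((C.cb m n).rt (Fin.ofNat (m + 1) k)) := by
    intro k hk a1 a2 t ht
    have b1 := vC.ir (Fin.ofNat (m + 1) k)
    have b2 := vC'.ir (Fin.ofNat (m + 1) k)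
    rw [val_of hk] at b1 b2
    rw [← cC, ← wC, QC] at b2
    have c1 : (E.x : ℝ) + (E.ρ : ℤ) < ((C.e k).ir : ℝ) := by exact_mod_cast a1
    have c2 : (E.x : ℝ) + (E.ρ : ℤ) < ((C'.e k).ir : ℝ) := by exact_mod_cast a2
    rw [hρ, ← b1] at c1
    rw [hρ, ← b2] at c2
    generalize (C.cb m n).rt (Fin.ofNat (m + 1) k) = i at c1 c2 ⊢
    change _ < (C.Q n).1 i + 2 * (C.V n).1 i + t * (C.V n).1 i - 2 * C.W n i
    change _ < (C.Q n).1 i + ((4 : ℤ) : ℝ) * (C.V n).1 i - 2 * C.W n i at c2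
    push_cast at c2
    have c3 := aff_gt (a := (C.Q n).1 i - 2 * C.W n i) (b := (C.V n).1 i) c1 (by linarith) ht
    have c4 : (E.ev s₀).x₀ = (E.x : ℝ) := rfl
    linarith
  refine ⟨?_, ?_, cB.symm, wB.symm, VB, ?_⟩
  · exact
      { comb := hcomb
        pos := hpos
        wpos := vC.wpos
        wL := by
          rw [Wv C hL, wL]
          rfl
        wR := by
          rw [Wv C hR, wR]
          rfl
        xL := by
          change (C.Q n).1 _ + 2 * (C.V n).1 _ = (E.x : ℝ)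
          rw [Q1 C hL, V1 C hL, xL, dxL, Int.cast_zero, mul_zero, add_zero]
        xR := by
          change (C.Q n).1 _ + 2 * (C.V n).1 _ = (E.x : ℝ)
          rw [Q1 C hR, V1 C hR, xR, dxR, Int.cast_zero, mul_zero, add_zero]
        FL := by
          change (C.Q n).2 _ + 2 * (C.V n).2 _ = (E.F : ℝ)
          rw [Q2 C hL, V2 C hL]
          exact_mod_cast FL
        FR := by
          change (C.Q n).2 _ + 2 * (C.V n).2 _ = (E.F : ℝ)
          rw [Q2 C hR, V2 C hR]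
          exact_mod_cast FR
        p1 := by
          rw [(hsl _ (by rw [val_of h1]; exact d1)).1, val_of h1, p1, ev_g, Int.cast_add]
          rfl
        p3 := by
          rw [(hsl _ (by rw [val_of h3]; exact d3)).1, val_of h3, p3, ev_g, Int.cast_sub]
          rfl
        p2 := by
          rw [(hsl _ (by rw [val_of h2]; exact d2)).1, val_of h2, p2, ev_g, Int.cast_add]
          rfl
        p4 := by
          rw [(hsl _ (by rw [val_of h4]; exact d4)).1, val_of h4, p4, ev_g, Int.cast_sub]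
          rfl
        ovl := by
          change |(E.P₂ : ℝ) - E.P₁| < 2 * E.h
          exact eP'
        d1 := (hsl _ (by rw [val_of h1]; exact d1)).2
        d2 := (hsl _ (by rw [val_of h2]; exact d2)).2
        d3 := (hsl _ (by rw [val_of h3]; exact d3)).2
        d4 := (hsl _ (by rw [val_of h4]; exact d4)).2
        xL' := by
          rw [V1 C hL, dxL, Int.cast_zero]
        xR' := by
          rw [V1 C hR, dxR, Int.cast_zero]
        FL' := by
          rw [V2 C hL, dFL, ev_ζ, Int.cast_sub, cast_ζ]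
          rfl
        FR' := by
          rw [V2 C hR, dFR, ev_ζ, Int.cast_add, cast_ζ]
          rfl
        vxL := by
          rw [V1 A hL, tLx]
          rfl
        vxR := by
          rw [V1 A hR, tRx, Int.cast_neg]
          rfl
        vFL := by
          rw [V2 A hL, tLF, ev_ζ, ev_g]
          push_cast
          rw [cast_ζ]
          rfl
        vFR := by
          rw [V2 A hR, tRF, ev_ζ, ev_g]
          push_cast
          rw [cast_ζ]
          rfl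
        vx := by
          intro i hi1 hi2
          change ((A.v i).dx : ℝ) = ((C.v i).dx : ℝ)
          rw [((hv i).2.2.2 hi1 hi2).1]
        vF := by
          intro i hi1 hi2
          change ((A.v i).dF : ℝ) = ((C.v i).dF : ℝ)
          rw [((hv i).2.2.2 hi1 hi2).2]
        small := by
          change 16 * (E.r : ℝ) < (E.v : ℝ) * 2
          linarith
        len1 := hlf _ h1 q1 q1'
        len3 := hlf _ h3 q3 q3'
        len2 := hrt _ h2 q2 q2'
        len4 := hrt _ h4 q4 q4'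
        cert := by
          intro t ht
          have a1 := hcert (t + 2) (hIcc t ht)
          rw [VC] at a1
          rw [hsh]
          exact a1
        boxe := by
          intro t ht e e1 e2 e3 e4
          have a1 := (ha2 _ _ es0 es0 _ C.es C'.es).mp hbe e (by rw [fC.lenE]; exact e.isLt)
            (by rw [fC'.lenE]; exact e.isLt)
          simp only [ho, Nat.beq_eq] at a1
          have a2 : bxE E (C.e e) (C'.e e) = true := by
            rcases a1 with a1 | a1 | a1 | a1 | a1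
            · exact absurd a1 (ne_val h1 e1)
            · exact absurd a1 (ne_val h2 e2)
            · exact absurd a1 (ne_val h3 e3)
            · exact absurd a1 (ne_val h4 e4)
            · exact a1
          have a3 := (hBXI m n E s₀ C C' vC vC' cC wC).1 e a2
          have a4 := (hBXL (C.cb m n) (C.W n) ((4 : ℤ) : ℝ) (E.ev s₀) ((E.ρ : ℤ) : ℝ) (C.Q n)
            (C'.Q n) (C'.V n) vC.wpos vC.valid hlin hpos).1 e a3 (t + 2) (hIcc t ht)
          rw [VC, hρ] at a4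
          rw [hsh]
          exact a4
        boxv := by
          intro t ht i i1 i2
          have a1 := (ha2 _ _ vs0 vs0 _ C.vs C'.vs).mp hbv i (by rw [fC.lenV]; exact i.isLt)
            (by rw [fC'.lenV]; exact i.isLt)
          simp only [ho, Nat.beq_eq] at a1
          have a2 : bxV E (C.v i) (C'.v i) = true := by
            rcases a1 with a1 | a1 | a1
            · exact absurd a1 (ne_val hL i1)
            · exact absurd a1 (ne_val hR i2)
            · exact a1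
          have a3 := (hBXI m n E s₀ C C' vC vC' cC wC).2 i a2
          have a4 := (hBXL (C.cb m n) (C.W n) ((4 : ℤ) : ℝ) (E.ev s₀) ((E.ρ : ℤ) : ℝ) (C.Q n)
            (C'.Q n) (C'.V n) vC.wpos vC.valid hlin hpos).2 i a3 (t + 2) (hIcc t ht)
          rw [VC, hρ] at a4
          rw [hsh]
          exact a4 }
  · rw [div_lt_one ev']
    exact erv'
  · have h9 : ((3 : ℤ) : ℝ) = 2 + 1 := by norm_num
    rw [QB, h9, add_smul, one_smul, add_assoc]

end LCA
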