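import Pool.Agent.LCA.Stmts2

/-!
# Part A: paths in the surface near a saddle
-/

namespace LCA

open Set Filter
open scoped ContDiff Topology

namespace SDU

variable {m n : ℕ}

/-! ### paths -/

lemma joined_of {F : Set E5} {a b : ℝ} (γ : ℝ → E5) (hγ : ContinuousOn γ (uIcc a b))
    (hF : ∀ t ∈ uIcc a b, γ t ∈ F) : JoinedIn F (γ a) (γ b) := by
  have h1 : IsPathConnected (uIcc a b) :=
    (convex_uIcc a b).isPathConnected ⟨a, left_mem_uIcc⟩
  have h2 := h1.image' hγ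
  refine (h2.joinedIn (γ a) (mem_image_of_mem _ left_mem_uIcc) (γ b)
    (mem_image_of_mem _ right_mem_uIcc)).mono ?_
  rintro _ ⟨t, ht, rfl⟩
  exact hF t ht

lemma lin_fst (Q V : St n) (t s : ℝ) (i : Fin n) :
    (lin Q V t s).1 i = Q.1 i + (s - t) * V.1 i := by
  simp [lin]

lemma lin_snd (Q V : St n) (t s : ℝ) (i : Fin n) :
    (lin Q V t s).2 i = Q.2 i + (s - t) * V.2 i := by
  simp [lin]

lemma deriv_lin (Q V : St n) (t s : ℝ) : deriv (lin Q V t) s = V := by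
  have h : HasDerivAt (lin Q V t) V s := by
    have h1 : HasDerivAt (fun s : ℝ => (s - t) • V) ((1 : ℝ) • V) s :=
      ((hasDerivAt_id s).sub_const t).smul_const V
    have h2 := h1.const_add Q
    rw [one_smul] at h2
    exact h2
  exact h.deriv

lemma cont_fst (Q V : St n) (t : ℝ) (i : Fin n) : Continuous fun s => (lin Q V t s).1 i := by
  simp only [lin_fst]
  fun_prop

lemma cont_snd (Q V : St n) (t : ℝ) (i : Fin n) : Continuous fun s => (lin Q V t s).2 i := by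
  simp only [lin_snd]
  fun_prop

lemma cont_pe (c : Comb m n) (Q V : St n) (t : ℝ) (K : Set ℝ) (e : Fin m)
    (h : ∀ s ∈ K, (lin Q V t s).1 (c.lf e) < (lin Q V t s).1 (c.rt e)) :
    ContinuousOn (fun s => c.pe (lin Q V t s) e) K := by
  unfold Comb.pe
  apply ContinuousOn.div
  · exact ((cont_snd Q V t _).sub (cont_snd Q V t _)).continuousOn
  · exact ((cont_fst Q V t _).sub (cont_fst Q V t _)).continuousOn
  · intro s hs
    exact ne_of_gt (sub_pos.2 (h s hs))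

lemma cont_ae (c : Comb m n) (Q V : St n) (t : ℝ) (K : Set ℝ) (e : Fin m)
    (h : ∀ s ∈ K, (lin Q V t s).1 (c.lf e) < (lin Q V t s).1 (c.rt e)) :
    ContinuousOn (fun s => c.ae (lin Q V t s) e) K := by
  unfold Comb.ae
  exact (cont_snd Q V t _).continuousOn.sub
    ((cont_pe c Q V t K e h).mul (cont_fst Q V t _).continuousOn)

lemma cont_dpe (c : Comb m n) (Q V : St n) (t : ℝ) (K : Set ℝ) (e : Fin m)
    (h : ∀ s ∈ K, (lin Q V t s).1 (c.lf e) < (lin Q V t s).1 (c.rt e)) :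
    ContinuousOn (fun s => c.dpe (lin Q V t s) V e) K := by
  unfold Comb.dpe
  apply ContinuousOn.div
  · exact continuousOn_const.sub ((cont_pe c Q V t K e h).mul continuousOn_const)
  · exact ((cont_fst Q V t _).sub (cont_fst Q V t _)).continuousOn
  · intro s hs
    exact ne_of_gt (sub_pos.2 (h s hs))

lemma cont_dae (c : Comb m n) (Q V : St n) (t : ℝ) (K : Set ℝ) (e : Fin m)
    (h : ∀ s ∈ K, (lin Q V t s).1 (c.lf e) < (lin Q V t s).1 (c.rt e)) :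
    ContinuousOn (fun s => c.dae (lin Q V t s) V e) K := by
  unfold Comb.dae
  exact (continuousOn_const.sub ((cont_dpe c Q V t K e h).mul
    (cont_fst Q V t _).continuousOn)).sub ((cont_pe c Q V t K e h).mul continuousOn_const)

lemma cont_ept (c : Comb m n) (Q V : St n) (t : ℝ) (K : Set ℝ) (e : Fin m)
    (h : ∀ s ∈ K, (lin Q V t s).1 (c.lf e) < (lin Q V t s).1 (c.rt e)) (x : ℝ → ℝ)
    (hx : ContinuousOn x K) :
    ContinuousOn (fun s => ((s, c.ept (lin Q V t s) V e (x s)) : E5)) K := by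
  unfold Comb.ept
  have h1 := cont_pe c Q V t K e h
  have h2 := cont_ae c Q V t K e h
  have h3 := cont_dpe c Q V t K e h
  have h4 := cont_dae c Q V t K e h
  exact continuousOn_id.prodMk (hx.prodMk (h1.prodMk (((h3.mul hx).add h4).prodMk
    ((h1.mul hx).add h2))))

lemma cont_vpt (c : Comb m n) (Q V : St n) (t : ℝ) (K : Set ℝ) (i : Fin n)
    (h : ∀ e, ∀ s ∈ K, (lin Q V t s).1 (c.lf e) < (lin Q V t s).1 (c.rt e))
    (w X P Θ Y : ℝ) :
    ContinuousOn (fun s => ((s, c.vpt (lin Q V t s) V i w X P Θ Y) : E5)) K := by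
  unfold Comb.vpt Comb.dl
  have h1 := fun e => cont_pe c Q V t K e (h e)
  have h2 := fun e => cont_ae c Q V t K e (h e)
  have h3 := fun e => cont_dpe c Q V t K e (h e)
  have h4 := fun e => cont_dae c Q V t K e (h e)
  have h5 : ContinuousOn (fun s => (lin Q V t s).1 i + w * X) K :=
    (cont_fst Q V t i).continuousOn.add continuousOn_const
  have h6 := (h1 (c.eb i)).sub (h1 (c.ea i))
  refine continuousOn_id.prodMk (h5.prodMk (((h1 _).add (h6.mul continuousOn_const)).prodMk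
    (ContinuousOn.prodMk ?_ ?_)))
  · exact ((((h3 _).mul h5).add (h4 _)).add (continuousOn_const.mul
      ((((h3 _).sub (h3 _)).mul continuousOn_const).add (h6.mul continuousOn_const)))).sub
      ((h6.mul continuousOn_const).mul continuousOn_const)
  · exact (((h1 _).mul h5).add (h2 _)).add ((continuousOn_const.mul h6).mul continuousOn_const)

/-- Paths along an edge. -/
lemma edge_path (c : Comb m n) (Q V : St n) (t : ℝ) (J : Set ℝ) (hJ : J.OrdConnected)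
    (A : Set E5) (e : Fin m) (l r : ℝ → ℝ) (hl : Continuous l) (hr : Continuous r)
    (hlr : ∀ s ∈ J, l s ≤ r s)
    (hlt : ∀ s ∈ J, (lin Q V t s).1 (c.lf e) < (lin Q V t s).1 (c.rt e))
    (hA : ∀ s ∈ J, ∀ x ∈ Icc (l s) (r s), ((s, c.ept (lin Q V t s) V e x) : E5) ∈ A)
    (s : ℝ) (hs : s ∈ J) (x : ℝ) (hx : x ∈ Icc (l s) (r s)) (d : ℝ) (hd : d ∈ J) :
    ∃ q' ∈ A, q'.1 = d ∧
      JoinedIn {r ∈ A | r.1 ∈ uIcc s d} ((s, c.ept (lin Q V t s) V e x) : E5) q' := by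
  rw [← segment_eq_Icc (hlr s hs)] at hx
  obtain ⟨a, b, ha, hb, hab, rfl⟩ := hx
  have hsub : uIcc s d ⊆ J := hJ.uIcc_subset hs hd
  have hin : ∀ s' ∈ J, a • l s' + b • r s' ∈ Icc (l s') (r s') := by
    intro s' hs'
    rw [← segment_eq_Icc (hlr s' hs')]
    exact ⟨a, b, ha, hb, hab, rfl⟩
  have hc : Continuous fun s' => a • l s' + b • r s' := by
    simp only [smul_eq_mul]
    exact (continuous_const.mul hl).add (continuous_const.mul hr)
  have hγ := cont_ept c Q V t (uIcc s d) e (fun s' hs' => hlt s' (hsub hs'))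
    (fun s' => a • l s' + b • r s') hc.continuousOn
  refine ⟨(d, c.ept (lin Q V t d) V e (a • l d + b • r d)), hA d hd _ (hin d hd), rfl, ?_⟩
  exact joined_of _ hγ fun s' hs' => ⟨hA s' (hsub hs') _ (hin s' (hsub hs')), hs'⟩

/-! ### the profiles -/

lemma tau_zero (sh : Shape) : sh.τ 0 = 1 / 2 := by
  have h := sh.τ_symm 0
  rw [neg_zero] at h
  linarith

lemma tau_mono (sh : Shape) : MonotoneOn sh.τ (Icc (-1) 1) := by
  have h : StrictMonoOn sh.τ (Icc (-1) 1) := by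
    apply strictMonoOn_of_deriv_pos (convex_Icc _ _) sh.τ_smooth.continuous.continuousOn
    intro u hu
    rw [interior_Icc] at hu
    exact sh.τ_deriv u hu.1 hu.2
  exact h.monotoneOn

lemma tau_half (sh : Shape) (u : ℝ) (hu : 0 ≤ u) : 1 / 2 ≤ sh.τ u := by
  rcases le_total u 1 with h | h
  · rw [← tau_zero sh]
    exact tau_mono sh ⟨by norm_num, by norm_num⟩ ⟨by linarith, h⟩ hu
  · rw [sh.τ_high u h]
    norm_num

lemma psi_deriv (sh : Shape) (u : ℝ) : HasDerivAt sh.Psi (2 * sh.τ u - 1) u := by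
  unfold Shape.Psi
  exact ((sh.ΘP_deriv u).const_mul 2).sub (hasDerivAt_id u)

lemma psi_cont (sh : Shape) : Continuous sh.Psi :=
  continuous_iff_continuousAt.2 fun u => (psi_deriv sh u).continuousAt

lemma psi_mono (sh : Shape) : MonotoneOn sh.Psi (Ici 0) := by
  apply monotoneOn_of_deriv_nonneg (convex_Ici 0) (psi_cont sh).continuousOn
  · intro u _
    exact (psi_deriv sh u).differentiableAt.differentiableWithinAt
  · intro u hu
    rw [interior_Ici] at hu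
    rw [(psi_deriv sh u).deriv]
    have := tau_half sh u (le_of_lt hu)
    linarith

lemma psi_even (sh : Shape) (u : ℝ) : sh.Psi (-u) = sh.Psi u := by
  have h1 : ∀ u, HasDerivAt (fun u => sh.Psi u - sh.Psi (-u)) 0 u := by
    intro u
    have h2 := (psi_deriv sh (-u)).comp u (hasDerivAt_neg u)
    have h3 := (psi_deriv sh u).sub h2
    have h4 : 2 * sh.τ u - 1 - (2 * sh.τ (-u) - 1) * -1 = 0 := by
      rw [sh.τ_symm u]
      ring
    rw [h4] at h3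
    exact h3
  have h5 := is_const_of_deriv_eq_zero (fun u => (h1 u).differentiableAt)
    (fun u => (h1 u).deriv) u 0
  simp only [neg_zero, sub_self] at h5
  linarith

lemma psi_high (sh : Shape) (u : ℝ) (hu : 1 ≤ u) : sh.Psi u = u := by
  unfold Shape.Psi
  rw [sh.ΘP_high u hu]
  ring

lemma xi_cont (sh : Shape) : Continuous sh.ξ := sh.ξ_smooth.continuous

lemma xi_abs (sh : Shape) (u : ℝ) : sh.ξ u = sh.ξ |u| := by
  rcases abs_choice u with h | h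
  · rw [h]
  · rw [h, sh.ξ_even]

lemma xi_le (sh : Shape) {u u' : ℝ} (h : |u| ≤ |u'|) : sh.ξ u' ≤ sh.ξ u := by
  rw [xi_abs sh u, xi_abs sh u']
  exact sh.ξ_anti.antitoneOn (abs_nonneg u) (abs_nonneg u') h

/-! ### the surface near the critical point -/

lemma pt_cont (E : Evt) (sh : Shape) (ε₁ ε₂ : ℝ) : Continuous (E.pt sh ε₁ ε₂) := by
  have h1 := psi_cont sh
  have h2 := xi_cont sh
  have h3 := sh.τ_smooth.continuous
  have h4 := sh.ΘR_smooth.continuous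
  have h5 := sh.ΘP_smooth.continuous
  unfold Evt.pt
  fun_prop

lemma pt_time (E : Evt) (sh : Shape) (u x : ℝ) : (E.pt sh 1 1 (u, x)).1 =
    E.s₀ - (E.r / E.v) * sh.ξ u - (E.r / E.v) * sh.Psi ((x - E.x₀) / E.r) := by
  simp only [Evt.pt]
  ring

lemma pt_x (E : Evt) (sh : Shape) (u x : ℝ) : (E.pt sh 1 1 (u, x)).2.1 = x := rfl

/-- For `|u| ≥ 1` and `|x - x₀| ≥ r` the surface consists of four planes. -/
lemma pt_line (E : Evt) (hE : E.Pos) (sh : Shape) (u x : ℝ) (hu : 1 ≤ |u|)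
    (hx : E.r ≤ |x - E.x₀|) : E.pt sh 1 1 (u, x) = ((E.pt sh 1 1 (u, x)).1, x,
      (if x < E.x₀ then E.P₁ else E.P₂) + (if x < E.x₀ then -1 else 1) *
        (if u < 0 then -1 else 1) * (E.g / 2),
      E.z₀ + (if u < 0 then -1 else 1) * E.ζ,
      E.F₀ + ((E.pt sh 1 1 (u, x)).1 - E.s₀) * (E.z₀ + (if u < 0 then -1 else 1) * E.ζ) +
        ((if x < E.x₀ then E.P₁ else E.P₂) + (if x < E.x₀ then -1 else 1) *
        (if u < 0 then -1 else 1) * (E.g / 2)) * (x - E.x₀)) := by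
  have hr := hE.r
  have hv := hE.v
  have hU : (x < E.x₀ ∧ (x - E.x₀) / E.r ≤ -1 ∧ sh.τ ((x - E.x₀) / E.r) = 0 ∧
      sh.ΘP ((x - E.x₀) / E.r) = 0) ∨ (¬ x < E.x₀ ∧ 1 ≤ (x - E.x₀) / E.r ∧
      sh.τ ((x - E.x₀) / E.r) = 1 ∧ sh.ΘP ((x - E.x₀) / E.r) = (x - E.x₀) / E.r) := by
    rcases le_or_gt E.x₀ x with h | h
    · rw [abs_of_nonneg (by linarith)] at hx
      have h1 : 1 ≤ (x - E.x₀) / E.r := by
        rw [le_div_iff₀ hr]
        linarith
      exact Or.inr ⟨not_lt.2 h, h1, sh.τ_high _ h1, sh.ΘP_high _ h1⟩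
    · rw [abs_of_neg (by linarith)] at hx
      have h1 : (x - E.x₀) / E.r ≤ -1 := by
        rw [div_le_iff₀ hr]
        linarith
      exact Or.inl ⟨h, h1, sh.τ_low _ h1, sh.ΘP_low _ h1⟩
  have hu' : (u < 0 ∧ sh.τ u = 0 ∧ sh.ξ u = u ∧ sh.ΘR u = 0) ∨
      (¬ u < 0 ∧ sh.τ u = 1 ∧ sh.ξ u = -u ∧ sh.ΘR u = -u) := by
    rcases le_or_gt 0 u with h | h
    · have h1 : 1 ≤ u := by
        rw [abs_of_nonneg h] at hu
        exact hu
      refine Or.inr ⟨not_lt.2 h, sh.τ_high _ h1, ?_, sh.ΘR_high _ h1⟩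
      rw [sh.ξ_out u hu, abs_of_nonneg h]
    · have h1 : u ≤ -1 := by
        rw [abs_of_neg h] at hu
        linarith
      refine Or.inl ⟨h, sh.τ_low _ h1, ?_, sh.ΘR_low _ h1⟩
      rw [sh.ξ_out u hu, abs_of_neg h]
      ring
  rcases hU with ⟨a1, -, a3, a4⟩ | ⟨a1, -, a3, a4⟩ <;>
  rcases hu' with ⟨b1, b2, b3, b4⟩ | ⟨b1, b2, b3, b4⟩ <;>
  simp only [Evt.pt, Shape.Psi, Evt.ζ, a1, a3, a4, b1, b2, b3, b4, if_true, if_false,
    Prod.mk.injEq, true_and] <;>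
  refine ⟨?_, ?_, ?_⟩ <;> field_simp <;> ring

/-! ### the edges at the critical point -/

/-- An edge with constant slope. -/
lemma pe_const (c : Comb m n) (Q V : St n) (t s : ℝ) (e : Fin m)
    (h0 : Q.1 (c.lf e) < Q.1 (c.rt e))
    (h : (lin Q V t s).1 (c.lf e) < (lin Q V t s).1 (c.rt e)) (hd : c.dpe Q V e = 0) :
    c.pe (lin Q V t s) e = c.pe Q e ∧ c.dpe (lin Q V t s) V e = 0 ∧
      V.2 (c.rt e) - V.2 (c.lf e) = c.pe Q e * (V.1 (c.rt e) - V.1 (c.lf e)) ∧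
      Q.2 (c.rt e) - Q.2 (c.lf e) = c.pe Q e * (Q.1 (c.rt e) - Q.1 (c.lf e)) := by
  have h1 : V.2 (c.rt e) - V.2 (c.lf e) = c.pe Q e * (V.1 (c.rt e) - V.1 (c.lf e)) := by
    unfold Comb.dpe at hd
    rw [div_eq_zero_iff] at hd
    rcases hd with hd | hd
    · linarith
    · linarith
  have h2 : Q.2 (c.rt e) - Q.2 (c.lf e) = c.pe Q e * (Q.1 (c.rt e) - Q.1 (c.lf e)) := by
    unfold Comb.pe
    rw [div_mul_cancel₀]
    linarith
  have h3 : c.pe (lin Q V t s) e = c.pe Q e := by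
    have h4 : (lin Q V t s).1 (c.rt e) - (lin Q V t s).1 (c.lf e) ≠ 0 := by linarith
    rw [show c.pe (lin Q V t s) e = ((lin Q V t s).2 (c.rt e) - (lin Q V t s).2 (c.lf e)) /
      ((lin Q V t s).1 (c.rt e) - (lin Q V t s).1 (c.lf e)) from rfl, div_eq_iff h4]
    simp only [lin_fst, lin_snd]
    linear_combination h2 + (s - t) * h1
  refine ⟨h3, ?_, h1, h2⟩
  unfold Comb.dpe
  rw [h3, h1]
  simp

/-- The line of an edge with constant slope one of whose ends does not move horizontally. -/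
lemma ept_end (c : Comb m n) (Q V : St n) (t s : ℝ) (e : Fin m) (i : Fin n)
    (hi : c.lf e = i ∨ c.rt e = i) (h0 : Q.1 (c.lf e) < Q.1 (c.rt e))
    (h : (lin Q V t s).1 (c.lf e) < (lin Q V t s).1 (c.rt e)) (hd : c.dpe Q V e = 0)
    (hV : V.1 i = 0) (x : ℝ) :
    c.ept (lin Q V t s) V e x = (x, c.pe Q e, V.2 i,
      Q.2 i + (s - t) * V.2 i + c.pe Q e * (x - Q.1 i)) := by
  obtain ⟨h1, h2, h3, h4⟩ := pe_const c Q V t s e h0 h hd
  unfold Comb.ept Comb.dae Comb.ae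
  rw [h1, h2]
  rcases hi with rfl | rfl
  · simp only [lin_fst, lin_snd, hV, Prod.mk.injEq, true_and]
    constructor <;> ring
  · simp only [lin_fst, lin_snd, Prod.mk.injEq, true_and]
    rw [hV] at h3
    constructor
    · linear_combination -h3
    · linear_combination -h4 - (s - t) * h3

variable {c c' : Comb m n} {w : Fin n → ℝ} {L R : Fin n} {H₁ H₂ H₃ H₄ : Fin m} {E : Evt}
  {Q V V' : St n} {η : ℝ}

/-- The ends of the four edges. -/
lemma ends (S : Saddle c c' w L R H₁ H₂ H₃ H₄ E Q V V' η) :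
    c'.rt H₁ = L ∧ c'.lf H₂ = R ∧ c'.rt H₃ = R ∧ c'.lf H₄ = L := by
  have hC := S.comb
  have a1 := hC.valid'.oka L
  have a2 := hC.valid'.okb L
  have a3 := hC.valid'.oka R
  have a4 := hC.valid'.okb R
  unfold Comb.OKa at a1 a3
  unfold Comb.OKb at a2 a4
  rw [hC.tyL'] at a1 a2
  rw [hC.tyR'] at a3 a4
  rw [hC.aL'] at a1
  rw [hC.bL'] at a2
  rw [hC.aR'] at a3
  rw [hC.bR'] at a4
  exact ⟨a1, a4, a3, a2⟩

lemma eta_pos (S : Saddle c c' w L R H₁ H₂ H₃ H₄ E Q V V' η) : 0 < η := by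
  have h1 := S.small
  have h2 := S.pos.v
  have h3 := S.pos.r
  have h4 : 0 < E.v * η := by linarith
  exact (pos_iff_pos_of_mul_pos h4).1 h2

lemma len (S : Saddle c c' w L R H₁ H₂ H₃ H₄ E Q V V' η) {s : ℝ}
    (hs : s ∈ Ioo (E.s₀ - η) (E.s₀ + η)) (e : Fin m) :
    2 * (w (c'.lf e) + w (c'.rt e)) <
      (lin Q V' E.s₀ s).1 (c'.rt e) - (lin Q V' E.s₀ s).1 (c'.lf e) :=
  (S.cert (s - E.s₀) ⟨by linarith [hs.1], by linarith [hs.2]⟩).len e

lemma lt (S : Saddle c c' w L R H₁ H₂ H₃ H₄ E Q V V' η) {s : ℝ}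
    (hs : s ∈ Ioo (E.s₀ - η) (E.s₀ + η)) (e : Fin m) :
    (lin Q V' E.s₀ s).1 (c'.lf e) < (lin Q V' E.s₀ s).1 (c'.rt e) := by
  have h1 := len S hs e
  have h2 := S.wpos (c'.lf e)
  have h3 := S.wpos (c'.rt e)
  linarith

lemma lt0 (S : Saddle c c' w L R H₁ H₂ H₃ H₄ E Q V V' η) (e : Fin m) :
    Q.1 (c'.lf e) < Q.1 (c'.rt e) := by
  have h := eta_pos S
  have h1 := lt S (s := E.s₀) ⟨by linarith, by linarith⟩ e
  simpa only [lin_fst, sub_self, zero_mul, add_zero] using h1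

lemma posL (S : Saddle c c' w L R H₁ H₂ H₃ H₄ E Q V V' η) (s : ℝ) :
    (lin Q V' E.s₀ s).1 L = E.x₀ := by
  rw [lin_fst, S.xL, S.xL', mul_zero, add_zero]

lemma posR (S : Saddle c c' w L R H₁ H₂ H₃ H₄ E Q V V' η) (s : ℝ) :
    (lin Q V' E.s₀ s).1 R = E.x₀ := by
  rw [lin_fst, S.xR, S.xR', mul_zero, add_zero]

/-- The two edges on the left and on the right. -/
def Lft (w : Fin n → ℝ) (c' : Comb m n) (E : Evt) (Q V' : St n) (η : ℝ) (e : Fin m) : Prop :=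
  (∀ s, (lin Q V' E.s₀ s).1 (c'.rt e) - 2 * w (c'.rt e) = E.x₀ - 2 * E.r) ∧
    ∀ s ∈ Ioo (E.s₀ - η) (E.s₀ + η), (lin Q V' E.s₀ s).1 (c'.lf e) + 2 * w (c'.lf e) <
      E.x₀ - (E.v * η + 4 * E.r)

/-- The two edges on the left and on the right. -/
def Rgt (w : Fin n → ℝ) (c' : Comb m n) (E : Evt) (Q V' : St n) (η : ℝ) (e : Fin m) : Prop :=
  (∀ s, (lin Q V' E.s₀ s).1 (c'.lf e) + 2 * w (c'.lf e) = E.x₀ + 2 * E.r) ∧
    ∀ s ∈ Ioo (E.s₀ - η) (E.s₀ + η), E.x₀ + (E.v * η + 4 * E.r) <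
      (lin Q V' E.s₀ s).1 (c'.rt e) - 2 * w (c'.rt e)

lemma l1 (S : Saddle c c' w L R H₁ H₂ H₃ H₄ E Q V V' η) : Lft w c' E Q V' η H₁ := by
  refine ⟨fun s => ?_, fun s hs => S.len1 (s - E.s₀) ⟨by linarith [hs.1], by linarith [hs.2]⟩⟩
  rw [(ends S).1, posL S, S.wL]

lemma l3 (S : Saddle c c' w L R H₁ H₂ H₃ H₄ E Q V V' η) : Lft w c' E Q V' η H₃ := by
  refine ⟨fun s => ?_, fun s hs => S.len3 (s - E.s₀) ⟨by linarith [hs.1], by linarith [hs.2]⟩⟩
  rw [(ends S).2.2.1, posR S, S.wR]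

lemma r2 (S : Saddle c c' w L R H₁ H₂ H₃ H₄ E Q V V' η) : Rgt w c' E Q V' η H₂ := by
  refine ⟨fun s => ?_, fun s hs => S.len2 (s - E.s₀) ⟨by linarith [hs.1], by linarith [hs.2]⟩⟩
  rw [(ends S).2.1, posR S, S.wR]

lemma r4 (S : Saddle c c' w L R H₁ H₂ H₃ H₄ E Q V V' η) : Rgt w c' E Q V' η H₄ := by
  refine ⟨fun s => ?_, fun s hs => S.len4 (s - E.s₀) ⟨by linarith [hs.1], by linarith [hs.2]⟩⟩
  rw [(ends S).2.2.2, posL S, S.wL]

/-- The surface. -/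
def AA (c' : Comb m n) (w : Fin n → ℝ) (L R : Fin n) (H₁ H₂ H₃ H₄ : Fin m) (E : Evt)
    (Q V' : St n) (η : ℝ) (sh : Shape) : Set E5 :=
  c'.sad w (c'.sp sh) (lin Q V' E.s₀) L R H₁ H₂ H₃ H₄ E sh (E.v * η + 2 * E.r)

/-- Paths on the four edges. -/
lemma hk_path (S : Saddle c c' w L R H₁ H₂ H₃ H₄ E Q V V' η) (sh : Shape) (s : ℝ)
    (hs : s ∈ Ioo (E.s₀ - η) (E.s₀ + η)) (e : Fin m)
    (he : e = H₁ ∨ e = H₂ ∨ e = H₃ ∨ e = H₄) (x : ℝ)
    (hx : x ∈ c'.rg w (lin Q V' E.s₀ s) e) (hρ : E.v * η + 2 * E.r ≤ |x - E.x₀|) (d : ℝ)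
    (hd : d ∈ Ioo (E.s₀ - η) (E.s₀ + η)) :
    ∃ q' ∈ AA c' w L R H₁ H₂ H₃ H₄ E Q V' η sh, q'.1 = d ∧
      JoinedIn {r ∈ AA c' w L R H₁ H₂ H₃ H₄ E Q V' η sh | r.1 ∈ uIcc s d}
        ((s, c'.ept (lin Q V' E.s₀ s) V' e x) : E5) q' := by
  have hη := eta_pos S
  have hr := S.pos.r
  have hv := S.pos.v
  have hvη : 0 < E.v * η := mul_pos hv hη
  have hcl : Lft w c' E Q V' η e ∨ Rgt w c' E Q V' η e := by
    rcases he with rfl | rfl | rfl | rfl
    · exact Or.inl (l1 S)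
    · exact Or.inr (r2 S)
    · exact Or.inl (l3 S)
    · exact Or.inr (r4 S)
  have hmem : ∀ s' : ℝ, ∀ x' ∈ c'.rg w (lin Q V' E.s₀ s') e, E.v * η + 2 * E.r ≤ |x' - E.x₀| →
      ((s', c'.ept (lin Q V' E.s₀ s') V' e x') : E5) ∈
        AA c' w L R H₁ H₂ H₃ H₄ E Q V' η sh := by
    intro s' x' hx' hx''
    refine Or.inr (Or.inr (Or.inl ⟨e, he, x', hx', hx'', ?_⟩))
    simp only [deriv_lin]
  rcases hcl with ⟨h1, h2⟩ | ⟨h1, h2⟩
  · have hx0 : x ≤ E.x₀ - 2 * E.r := by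
      rw [← h1 s]
      exact hx.2
    rw [abs_of_neg (by linarith)] at hρ
    refine edge_path c' Q V' E.s₀ (Ioo (E.s₀ - η) (E.s₀ + η)) ordConnected_Ioo _ e
      (fun s => (lin Q V' E.s₀ s).1 (c'.lf e) + 2 * w (c'.lf e))
      (fun _ => E.x₀ - (E.v * η + 2 * E.r)) ((cont_fst Q V' E.s₀ _).add continuous_const)
      continuous_const (fun s hs => ?_) (fun s hs => lt S hs e) (fun s hs x hx => ?_) s hs x
      ⟨hx.1, by linarith⟩ d hd
    · have := h2 s hs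
      linarith
    · apply hmem s x
      · refine ⟨hx.1, ?_⟩
        rw [h1 s]
        linarith [hx.2]
      · rw [abs_of_neg (by linarith [hx.2])]
        linarith [hx.2]
  · have hx0 : E.x₀ + 2 * E.r ≤ x := by
      rw [← h1 s]
      exact hx.1
    rw [abs_of_pos (by linarith)] at hρ
    refine edge_path c' Q V' E.s₀ (Ioo (E.s₀ - η) (E.s₀ + η)) ordConnected_Ioo _ e
      (fun _ => E.x₀ + (E.v * η + 2 * E.r))
      (fun s => (lin Q V' E.s₀ s).1 (c'.rt e) - 2 * w (c'.rt e))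
      continuous_const ((cont_fst Q V' E.s₀ _).sub continuous_const)
      (fun s hs => ?_) (fun s hs => lt S hs e) (fun s hs x hx => ?_) s hs x
      ⟨by linarith, hx.2⟩ d hd
    · have := h2 s hs
      linarith
    · apply hmem s x
      · refine ⟨?_, hx.2⟩
        rw [h1 s]
        linarith [hx.1]
      · rw [abs_of_pos (by linarith [hx.1])]
        linarith [hx.1]

/-- Paths on the other pieces and on the four edges. -/
lemma out_path (S : Saddle c c' w L R H₁ H₂ H₃ H₄ E Q V V' η) (sh : Shape) (q : E5)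
    (hq : q ∈ AA c' w L R H₁ H₂ H₃ H₄ E Q V' η sh) (hs : q.1 ∈ Ioo (E.s₀ - η) (E.s₀ + η))
    (hn : ¬ (q ∈ E.set sh 1 1 ∧ |q.2.1 - E.x₀| < E.v * η + 2 * E.r)) (d : ℝ)
    (hd : d ∈ Ioo (E.s₀ - η) (E.s₀ + η)) :
    ∃ q' ∈ AA c' w L R H₁ H₂ H₃ H₄ E Q V' η sh, q'.1 = d ∧
      JoinedIn {r ∈ AA c' w L R H₁ H₂ H₃ H₄ E Q V' η sh | r.1 ∈ uIcc q.1 d} q q' := by
  obtain ⟨s, q2⟩ := q
  simp only at hs
  rcases hq with ⟨e, e1, e2, e3, e4, x, hx, hq⟩ | ⟨i, i1, i2, u, hu, hq⟩ |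
    ⟨e, he, x, hx, hρ, hq⟩ | h
  · simp only [deriv_lin] at hx hq
    subst hq
    refine edge_path c' Q V' E.s₀ (Ioo (E.s₀ - η) (E.s₀ + η)) ordConnected_Ioo _ e
      (fun s => (lin Q V' E.s₀ s).1 (c'.lf e) + 2 * w (c'.lf e))
      (fun s => (lin Q V' E.s₀ s).1 (c'.rt e) - 2 * w (c'.rt e))
      ((cont_fst Q V' E.s₀ _).add continuous_const)
      ((cont_fst Q V' E.s₀ _).sub continuous_const) (fun s hs => ?_)
      (fun s hs => lt S hs e) (fun s hs x hx => ?_) s hs x hx d hd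
    · have := len S hs e
      linarith
    · refine Or.inl ⟨e, e1, e2, e3, e4, x, hx, ?_⟩
      simp only [deriv_lin]
  · simp only [deriv_lin] at hq
    subst hq
    have hmem : ∀ s' : ℝ, ((s', c'.vp w (c'.sp sh) s' (lin Q V' E.s₀ s') V' i u) : E5) ∈
        AA c' w L R H₁ H₂ H₃ H₄ E Q V' η sh := by
      intro s'
      refine Or.inr (Or.inl ⟨i, i1, i2, u, hu, ?_⟩)
      simp only [deriv_lin]
    have hsub : uIcc s d ⊆ Ioo (E.s₀ - η) (E.s₀ + η) := ordConnected_Ioo.uIcc_subset hs hd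
    refine ⟨(d, c'.vp w (c'.sp sh) d (lin Q V' E.s₀ d) V' i u), hmem d, rfl, ?_⟩
    refine joined_of (fun s' => ((s', c'.vp w (c'.sp sh) s' (lin Q V' E.s₀ s') V' i u) : E5))
      ?_ fun s' hs' => ⟨hmem s', hs'⟩
    exact cont_vpt c' Q V' E.s₀ (uIcc s d) i (fun e s' hs' => lt S (hsub hs') e) (w i)
      ((c'.sp sh i).X 0 u) ((c'.sp sh i).P 0 u) ((c'.sp sh i).Θ 0 u) ((c'.sp sh i).Y 0 u)
  · simp only [deriv_lin] at hx hq
    subst hq
    exact hk_path S sh s hs e he x hx hρ d hd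
  · exact absurd h hn

/-- On the boundary of the tube the surface continues with the four edges. -/
lemma bdry (S : Saddle c c' w L R H₁ H₂ H₃ H₄ E Q V V' η) (sh : Shape) (u x : ℝ)
    (hu : 1 ≤ |u|) (hx : |x - E.x₀| = E.v * η + 2 * E.r)
    (hs : (E.pt sh 1 1 (u, x)).1 ∈ Ioo (E.s₀ - η) (E.s₀ + η)) :
    ∃ e, (e = H₁ ∨ e = H₂ ∨ e = H₃ ∨ e = H₄) ∧
      x ∈ c'.rg w (lin Q V' E.s₀ (E.pt sh 1 1 (u, x)).1) e ∧
      E.pt sh 1 1 (u, x) = ((E.pt sh 1 1 (u, x)).1,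
        c'.ept (lin Q V' E.s₀ (E.pt sh 1 1 (u, x)).1) V' e x) := by
  have hη := eta_pos S
  have hr := S.pos.r
  have hv := S.pos.v
  have hvη : 0 < E.v * η := mul_pos hv hη
  have hpt := pt_line E S.pos sh u x hu (by rw [hx]; linarith)
  have hE := ends S
  generalize (E.pt sh 1 1 (u, x)).1 = s at hpt hs ⊢
  rcases le_or_gt E.x₀ x with h | h
  · have hx' : x = E.x₀ + (E.v * η + 2 * E.r) := by
      rw [abs_of_nonneg (by linarith)] at hx
      linarith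
    rcases le_or_gt 0 u with h' | h'
    · obtain ⟨a1, a2⟩ := r2 S
      refine ⟨H₂, by simp, ⟨?_, ?_⟩, ?_⟩
      · rw [a1 s, hx']
        linarith
      · have := a2 s hs
        linarith
      · rw [hpt, ept_end c' Q V' E.s₀ s H₂ R (Or.inl hE.2.1) (lt0 S _) (lt S hs _) S.d2 S.xR' x,
          S.p2, S.FR', S.FR, S.xR]
        simp only [not_lt.2 h, not_lt.2 h', if_false, Prod.mk.injEq, true_and]
        refine ⟨?_, ?_, ?_⟩ <;> ring
    · obtain ⟨a1, a2⟩ := r4 S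
      refine ⟨H₄, by simp, ⟨?_, ?_⟩, ?_⟩
      · rw [a1 s, hx']
        linarith
      · have := a2 s hs
        linarith
      · rw [hpt, ept_end c' Q V' E.s₀ s H₄ L (Or.inl hE.2.2.2) (lt0 S _) (lt S hs _) S.d4
          S.xL' x, S.p4, S.FL', S.FL, S.xL]
        simp only [not_lt.2 h, h', if_false, if_true, Prod.mk.injEq, true_and]
        refine ⟨?_, ?_, ?_⟩ <;> ring
  · have hx' : x = E.x₀ - (E.v * η + 2 * E.r) := by
      rw [abs_of_neg (by linarith)] at hx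
      linarith
    rcases le_or_gt 0 u with h' | h'
    · obtain ⟨a1, a2⟩ := l3 S
      refine ⟨H₃, by simp, ⟨?_, ?_⟩, ?_⟩
      · have := a2 s hs
        linarith
      · rw [a1 s, hx']
        linarith
      · rw [hpt, ept_end c' Q V' E.s₀ s H₃ R (Or.inr hE.2.2.1) (lt0 S _) (lt S hs _) S.d3
          S.xR' x, S.p3, S.FR', S.FR, S.xR]
        simp only [h, not_lt.2 h', if_false, if_true, Prod.mk.injEq, true_and]
        refine ⟨?_, ?_, ?_⟩ <;> ring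
    · obtain ⟨a1, a2⟩ := l1 S
      refine ⟨H₁, by simp, ⟨?_, ?_⟩, ?_⟩
      · have := a2 s hs
        linarith
      · rw [a1 s, hx']
        linarith
      · rw [hpt, ept_end c' Q V' E.s₀ s H₁ L (Or.inr hE.1) (lt0 S _) (lt S hs _) S.d1
          S.xL' x, S.p1, S.FL', S.FL, S.xL]
        simp only [h, h', if_true, Prod.mk.injEq, true_and]
        refine ⟨?_, ?_, ?_⟩ <;> ring

/-- Up in the tube: `x` is fixed. -/
lemma tube_up (S : Saddle c c' w L R H₁ H₂ H₃ H₄ E Q V V' η) (sh : Shape) (u x : ℝ)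
    (hx : |x - E.x₀| < E.v * η + 2 * E.r)
    (d : ℝ) (hsd : (E.pt sh 1 1 (u, x)).1 ≤ d) :
    ∃ q' ∈ AA c' w L R H₁ H₂ H₃ H₄ E Q V' η sh, q'.1 = d ∧
      JoinedIn {r ∈ AA c' w L R H₁ H₂ H₃ H₄ E Q V' η sh |
        r.1 ∈ Icc (E.pt sh 1 1 (u, x)).1 d} (E.pt sh 1 1 (u, x)) q' := by
  have hr := S.pos.r
  have hv := S.pos.v
  have hrv : 0 < E.r / E.v := div_pos hr hv
  -- the time as a function of `u`
  have hcont : Continuous fun u' => (E.pt sh 1 1 (u', x)).1 := by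
    have h1 := pt_cont E sh 1 1
    fun_prop
  have hmono : ∀ u₁ u₂ : ℝ, |u₁| ≤ |u₂| → (E.pt sh 1 1 (u₁, x)).1 ≤ (E.pt sh 1 1 (u₂, x)).1 := by
    intro u₁ u₂ h
    rw [pt_time, pt_time]
    have := mul_le_mul_of_nonneg_left (xi_le sh h) hrv.le
    linarith
  -- a far away parameter
  obtain ⟨M, hM1, hM2, hM3⟩ : ∃ M : ℝ, 1 ≤ M ∧ |u| ≤ M ∧
      d ≤ E.s₀ + (E.r / E.v) * M - (E.r / E.v) * sh.Psi ((x - E.x₀) / E.r) := by
    refine ⟨max (max 1 |u|) ((d - E.s₀ + (E.r / E.v) * sh.Psi ((x - E.x₀) / E.r)) /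
      (E.r / E.v)), le_trans (le_max_left _ _) (le_max_left _ _),
      le_trans (le_max_right _ _) (le_max_left _ _), ?_⟩
    have h1 := le_max_right (max 1 |u|) ((d - E.s₀ + (E.r / E.v) *
      sh.Psi ((x - E.x₀) / E.r)) / (E.r / E.v))
    have h2 := mul_le_mul_of_nonneg_left h1 hrv.le
    rw [mul_div_cancel₀ _ hrv.ne'] at h2
    linarith
  -- the sign of `u`
  obtain ⟨σ, hσ, hσu⟩ : ∃ σ : ℝ, |σ| = 1 ∧ σ * |u| = u := by
    rcases le_or_gt 0 u with h | h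
    · exact ⟨1, by simp, by rw [abs_of_nonneg h, one_mul]⟩
    · exact ⟨-1, by simp, by rw [abs_of_neg h]; ring⟩
  have hg : ContinuousOn (fun y => (E.pt sh 1 1 (σ * y, x)).1) (Icc |u| M) :=
    (hcont.comp (continuous_const.mul continuous_id)).continuousOn
  have hend : d ≤ (E.pt sh 1 1 (σ * M, x)).1 := by
    have h1 : |σ * M| = M := by rw [abs_mul, hσ, one_mul, abs_of_nonneg (by linarith)]
    rw [pt_time, sh.ξ_out (σ * M) (by rw [h1]; exact hM1), h1]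
    linarith
  have hstart : (E.pt sh 1 1 (σ * |u|, x)).1 ≤ d := by
    rw [hσu]
    exact hsd
  obtain ⟨y, hy, hyd⟩ := intermediate_value_Icc hM2 hg ⟨hstart, hend⟩
  simp only at hyd
  have hin : ∀ u', E.pt sh 1 1 (u', x) ∈ AA c' w L R H₁ H₂ H₃ H₄ E Q V' η sh :=
    fun u' => Or.inr (Or.inr (Or.inr ⟨⟨(u', x), rfl⟩, hx⟩))
  refine ⟨E.pt sh 1 1 (σ * y, x), hin _, hyd, ?_⟩
  have hJ := joined_of (F := {r ∈ AA c' w L R H₁ H₂ H₃ H₄ E Q V' η sh |
    r.1 ∈ Icc (E.pt sh 1 1 (u, x)).1 d}) (a := |u|) (b := y)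
    (fun y' => E.pt sh 1 1 (σ * y', x)) ?_ ?_
  · simp only [hσu] at hJ
    exact hJ
  · have h1 := pt_cont E sh 1 1
    exact (h1.comp (by fun_prop : Continuous fun y' : ℝ => (σ * y', x))).continuousOn
  · intro y' hy'
    rw [uIcc_of_le hy.1] at hy'
    refine ⟨hin _, ?_⟩
    have h0 : 0 ≤ |u| := abs_nonneg u
    have h1 : ∀ z : ℝ, 0 ≤ z → |σ * z| = z := fun z hz => by
      rw [abs_mul, hσ, one_mul, abs_of_nonneg hz]
    have h2 := hmono (σ * |u|) (σ * y') (by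
      rw [h1 _ h0, h1 _ (le_trans h0 hy'.1)]
      exact hy'.1)
    have h3 := hmono (σ * y') (σ * y) (by
      rw [h1 _ (le_trans h0 hy'.1), h1 _ (le_trans h0 hy.1)]
      exact hy'.2)
    rw [hσu] at h2
    rw [hyd] at h3
    exact ⟨h2, h3⟩

/-- Down in the tube: `u` is fixed. -/
lemma tube_down (S : Saddle c c' w L R H₁ H₂ H₃ H₄ E Q V V' η) (sh : Shape) (u x : ℝ)
    (hx : |x - E.x₀| < E.v * η + 2 * E.r)
    (hs : (E.pt sh 1 1 (u, x)).1 ∈ Ioo (E.s₀ - η) (E.s₀ + η)) (d : ℝ)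
    (hd : d ∈ Ioo (E.s₀ - η) (E.s₀ + η)) (hsd : d ≤ (E.pt sh 1 1 (u, x)).1) :
    ∃ q' ∈ AA c' w L R H₁ H₂ H₃ H₄ E Q V' η sh, q'.1 = d ∧
      JoinedIn {r ∈ AA c' w L R H₁ H₂ H₃ H₄ E Q V' η sh |
        r.1 ∈ Icc d (E.pt sh 1 1 (u, x)).1} (E.pt sh 1 1 (u, x)) q' := by
  have hη := eta_pos S
  have hr := S.pos.r
  have hv := S.pos.v
  have hvη : 0 < E.v * η := mul_pos hv hη
  have hrv : 0 < E.r / E.v := div_pos hr hv
  set ρ : ℝ := E.v * η + 2 * E.r with hρ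
  -- the side
  obtain ⟨σ, hσ, hσx⟩ : ∃ σ : ℝ, |σ| = 1 ∧ E.x₀ + σ * |x - E.x₀| = x := by
    rcases le_or_gt 0 (x - E.x₀) with h | h
    · exact ⟨1, by simp, by rw [abs_of_nonneg h]; ring⟩
    · exact ⟨-1, by simp, by rw [abs_of_neg h]; ring⟩
  set y₀ : ℝ := |x - E.x₀| with hy₀
  have hy₀0 : 0 ≤ y₀ := abs_nonneg _
  have hpsi : ∀ y : ℝ, sh.Psi ((E.x₀ + σ * y - E.x₀) / E.r) = sh.Psi (y / E.r) := by
    intro y
    rcases (abs_eq (zero_le_one)).1 hσ with h | h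
    · rw [h]
      congr 1
      ring
    · rw [h, ← psi_even]
      congr 1
      ring
  have htime : ∀ y : ℝ, (E.pt sh 1 1 (u, E.x₀ + σ * y)).1 =
      E.s₀ - (E.r / E.v) * sh.ξ u - (E.r / E.v) * sh.Psi (y / E.r) := by
    intro y
    rw [pt_time, hpsi]
  have hmono : ∀ y₁ y₂ : ℝ, 0 ≤ y₁ → y₁ ≤ y₂ →
      (E.pt sh 1 1 (u, E.x₀ + σ * y₂)).1 ≤ (E.pt sh 1 1 (u, E.x₀ + σ * y₁)).1 := by
    intro y₁ y₂ h1 h2
    rw [htime, htime]
    have h3 : sh.Psi (y₁ / E.r) ≤ sh.Psi (y₂ / E.r) := by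
      apply psi_mono sh
      · exact div_nonneg h1 hr.le
      · exact div_nonneg (le_trans h1 h2) hr.le
      · exact div_le_div_of_nonneg_right h2 hr.le
    have := mul_le_mul_of_nonneg_left h3 hrv.le
    linarith
  have hptc : Continuous fun y : ℝ => E.pt sh 1 1 (u, E.x₀ + σ * y) :=
    (pt_cont E sh 1 1).comp (by fun_prop : Continuous fun y : ℝ => (u, E.x₀ + σ * y))
  have hin : ∀ y : ℝ, 0 ≤ y → y < ρ →
      E.pt sh 1 1 (u, E.x₀ + σ * y) ∈ AA c' w L R H₁ H₂ H₃ H₄ E Q V' η sh := by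
    intro y hy0 hy
    refine Or.inr (Or.inr (Or.inr ⟨⟨(u, E.x₀ + σ * y), rfl⟩, ?_⟩))
    rw [pt_x, add_sub_cancel_left, abs_mul, hσ, one_mul, abs_of_nonneg hy0]
    exact hy
  rcases lt_or_ge (E.pt sh 1 1 (u, E.x₀ + σ * ρ)).1 d with hcase | hcase
  · -- the time `d` is reached inside of the tube
    have hg : ContinuousOn (fun y => (E.pt sh 1 1 (u, E.x₀ + σ * y)).1) (Icc y₀ ρ) :=
      hptc.fst.continuousOn
    have hstart : d ≤ (E.pt sh 1 1 (u, E.x₀ + σ * y₀)).1 := by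
      rw [hσx]
      exact hsd
    obtain ⟨y, hy, hyd⟩ := intermediate_value_Icc' hx.le hg ⟨hcase.le, hstart⟩
    simp only at hyd
    have hyρ : y < ρ := by
      rcases lt_or_eq_of_le hy.2 with h | h
      · exact h
      · rw [h] at hyd
        exact absurd hyd hcase.ne
    refine ⟨E.pt sh 1 1 (u, E.x₀ + σ * y), hin y (le_trans hy₀0 hy.1) hyρ, hyd, ?_⟩
    have hJ := joined_of (F := {r ∈ AA c' w L R H₁ H₂ H₃ H₄ E Q V' η sh |
      r.1 ∈ Icc d (E.pt sh 1 1 (u, x)).1}) (a := y₀) (b := y)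
      (fun y' => E.pt sh 1 1 (u, E.x₀ + σ * y')) hptc.continuousOn ?_
    · simp only [hσx] at hJ
      exact hJ
    · intro y' hy'
      rw [uIcc_of_le hy.1] at hy'
      refine ⟨hin y' (le_trans hy₀0 hy'.1) (lt_of_le_of_lt hy'.2 hyρ), ?_⟩
      have h2 := hmono y₀ y' hy₀0 hy'.1
      have h3 := hmono y' y (le_trans hy₀0 hy'.1) hy'.2
      rw [hσx] at h2
      rw [hyd] at h3
      exact ⟨h3, h2⟩
  · -- the boundary of the tube is reached
    have hle := hmono y₀ ρ hy₀0 hx.le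
    rw [hσx] at hle
    have hsρ : (E.pt sh 1 1 (u, E.x₀ + σ * ρ)).1 ∈ Ioo (E.s₀ - η) (E.s₀ + η) :=
      ⟨lt_of_lt_of_le hd.1 hcase, lt_of_le_of_lt hle hs.2⟩
    have hρr : 1 ≤ ρ / E.r := by
      rw [le_div_iff₀ hr, hρ]
      linarith
    have hu : 1 ≤ |u| := by
      by_contra hlt
      push Not at hlt
      have h1 := sh.ξ_in u hlt.le
      have h2 := hsρ.1
      rw [htime, psi_high sh _ hρr] at h2
      have h3 : E.r / E.v * (ρ / E.r) = η + 2 * (E.r / E.v) := by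
        rw [hρ]
        field_simp
      rw [h3] at h2
      have h4 := (abs_le.1 h1).1
      have h5 := mul_le_mul_of_nonneg_left h4 hrv.le
      linarith
    have hρ0 : 0 ≤ ρ := by rw [hρ]; linarith
    have habs : |E.x₀ + σ * ρ - E.x₀| = ρ := by
      rw [add_sub_cancel_left, abs_mul, hσ, one_mul, abs_of_nonneg hρ0]
    obtain ⟨e, he, hxe, hpe⟩ := bdry S sh u (E.x₀ + σ * ρ) hu habs hsρ
    have hinρ : E.pt sh 1 1 (u, E.x₀ + σ * ρ) ∈ AA c' w L R H₁ H₂ H₃ H₄ E Q V' η sh := by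
      refine Or.inr (Or.inr (Or.inl ⟨e, he, E.x₀ + σ * ρ, hxe, habs.ge, ?_⟩))
      simp only [deriv_lin]
      exact congrArg Prod.snd hpe
    obtain ⟨q', hq', hq'd, hJ2⟩ := hk_path S sh _ hsρ e he _ hxe habs.ge d hd
    rw [← hpe] at hJ2
    rw [uIcc_of_ge hcase] at hJ2
    refine ⟨q', hq', hq'd, JoinedIn.trans ?_ (hJ2.mono fun r hr' =>
      ⟨hr'.1, hr'.2.1, le_trans hr'.2.2 hle⟩)⟩
    have hJ := joined_of (F := {r ∈ AA c' w L R H₁ H₂ H₃ H₄ E Q V' η sh |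
      r.1 ∈ Icc d (E.pt sh 1 1 (u, x)).1}) (a := y₀) (b := ρ)
      (fun y' => E.pt sh 1 1 (u, E.x₀ + σ * y')) hptc.continuousOn ?_
    · simp only [hσx] at hJ
      exact hJ
    · intro y' hy'
      rw [uIcc_of_le hx.le] at hy'
      constructor
      · rcases lt_or_eq_of_le hy'.2 with h | h
        · exact hin y' (le_trans hy₀0 hy'.1) h
        · rw [h]
          exact hinρ
      · have h2 := hmono y₀ y' hy₀0 hy'.1
        have h3 := hmono y' ρ (le_trans hy₀0 hy'.1) hy'.2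
        rw [hσx] at h2
        exact ⟨le_trans hcase h3, h2⟩

end SDU

theorem t_SDU (_hECH : Stmt_ECH) (_hCER : Stmt_CER) (_hPST : Stmt_PST) : Stmt_SDU := by
  intro m n sh c c' w L R H₁ H₂ H₃ H₄ E Q V V' η S A
  constructor
  · intro q hq hs d hd hdq
    by_cases hn : q ∈ E.set sh 1 1 ∧ |q.2.1 - E.x₀| < E.v * η + 2 * E.r
    · obtain ⟨⟨⟨u, x⟩, rfl⟩, hx⟩ := hn
      exact SDU.tube_down S sh u x hx hs d hd hdq
    · have h := SDU.out_path S sh q hq hs hn d hd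
      rwa [uIcc_of_ge hdq] at h
  · intro q hq hs d hd hdq
    by_cases hn : q ∈ E.set sh 1 1 ∧ |q.2.1 - E.x₀| < E.v * η + 2 * E.r
    · obtain ⟨⟨⟨u, x⟩, rfl⟩, hx⟩ := hn
      exact SDU.tube_up S sh u x hx d hdq
    · have h := SDU.out_path S sh q hq hs hn d hd
      rwa [uIcc_of_le hdq] at h

end LCA
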