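import Pool.Agent.LCA.Stmts4

/-!
# SEE: two edges during a linear motion and at the change of the velocities
-/

namespace LCA

open Set Filter
open scoped ContDiff Topology

namespace SEE

/-- An affine function that is positive at the ends of an interval is positive on it. -/
theorem aff_pos {T s a b : ℝ} (hT : 0 < T) (h0 : 0 ≤ s) (h1 : s ≤ T) (ha : 0 < a)
    (hb : 0 < a + T * b) : 0 < a + s * b := by
  have h : 0 < T * (a + s * b) := by
    have e : T * (a + s * b) = (T - s) * a + s * (a + T * b) := by ring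
    rw [e]
    rcases eq_or_lt_of_le h0 with h | h
    · subst h
      have : 0 < (T - 0) * a := by
        rw [sub_zero]
        exact mul_pos hT ha
      linarith
    · have h2 : 0 ≤ (T - s) * a := mul_nonneg (by linarith) ha.le
      have h3 : 0 < s * (a + T * b) := mul_pos h hb
      linarith
  exact (mul_pos_iff_of_pos_left hT).1 h

/-- An affine function is at least the minimum of its values at the ends. -/
theorem min_le_aff {T s a b : ℝ} (h0 : 0 ≤ s) (h1 : s ≤ T) :
    min a (a + T * b) ≤ a + s * b := by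
  rcases le_total 0 b with hb | hb
  · exact (min_le_left _ _).trans (by nlinarith [mul_nonneg h0 hb])
  · exact (min_le_right _ _).trans (by nlinarith [mul_nonneg (sub_nonneg.2 h1) (neg_nonneg.2 hb)])

/-- An affine function is at most the maximum of its values at the ends. -/
theorem aff_le_max {T s a b : ℝ} (h0 : 0 ≤ s) (h1 : s ≤ T) :
    a + s * b ≤ max a (a + T * b) := by
  rcases le_total 0 b with hb | hb
  · exact le_trans (by nlinarith [mul_nonneg (sub_nonneg.2 h1) hb]) (le_max_right _ _)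
  · exact le_trans (by nlinarith [mul_nonneg h0 (neg_nonneg.2 hb)]) (le_max_left _ _)

/-- An affine function that is positive at two points is positive between them. -/
theorem aff_pos' {lo hi x a b : ℝ} (h0 : lo ≤ x) (h1 : x ≤ hi) (ha : 0 < a * lo + b)
    (hb : 0 < a * hi + b) : 0 < a * x + b := by
  rcases le_total 0 a with h | h
  · nlinarith [mul_le_mul_of_nonneg_left h0 h]
  · nlinarith [mul_le_mul_of_nonpos_left h1 h]

variable {m n : ℕ}

theorem dee_eq (c : Comb m n) (q v : St n) (e e' : Fin m) (x : ℝ) :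
    c.Dee q v e e' x = (c.dpe q v e - c.dpe q v e') * x + (c.dae q v e - c.dae q v e') := by
  unfold Comb.Dee
  ring

theorem dpe_lin (c : Comb m n) (q v v' : St n) (e : Fin m) (l : ℝ) :
    c.dpe q ((1 - l) • v + l • v') e = (1 - l) * c.dpe q v e + l * c.dpe q v' e := by
  unfold Comb.dpe
  simp only [Prod.fst_add, Prod.snd_add, Prod.smul_fst, Prod.smul_snd, Pi.add_apply,
    Pi.smul_apply, smul_eq_mul]
  ring

theorem dae_lin (c : Comb m n) (q v v' : St n) (e : Fin m) (l : ℝ) :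
    c.dae q ((1 - l) • v + l • v') e = (1 - l) * c.dae q v e + l * c.dae q v' e := by
  unfold Comb.dae
  rw [dpe_lin]
  simp only [Prod.fst_add, Prod.snd_add, Prod.smul_fst, Prod.smul_snd, Pi.add_apply,
    Pi.smul_apply, smul_eq_mul]
  ring

theorem dee_lin (c : Comb m n) (q v v' : St n) (e e' : Fin m) (l x : ℝ) :
    c.Dee q ((1 - l) • v + l • v') e e' x =
      (1 - l) * c.Dee q v e e' x + l * c.Dee q v' e e' x := by
  unfold Comb.Dee
  rw [dpe_lin, dae_lin, dpe_lin, dae_lin]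
  ring

theorem comb_pos {l a b : ℝ} (h0 : 0 ≤ l) (h1 : l ≤ 1) (ha : 0 < a) (hb : 0 < b) :
    0 < (1 - l) * a + l * b := by
  rcases eq_or_lt_of_le h0 with h | h
  · subst h
    simpa using ha
  · have h2 : 0 ≤ (1 - l) * a := mul_nonneg (by linarith) ha.le
    have h3 : 0 < l * b := mul_pos h hb
    linarith

theorem fst_at (Q V : St n) (s : ℝ) (i : Fin n) : (Q + s • V).1 i = Q.1 i + s * V.1 i := by
  simp [Prod.fst_add, Prod.smul_fst]

/-- The main case: separation by the values of `z` during the motion. -/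
theorem z_at (hLNP : Stmt_LNP) (c : Comb m n) (w : Fin n → ℝ) (T : ℝ) (Q Q' V' : St n)
    (e e' : Fin m) (hw : ∀ i, 0 < w i) (hL : c.Lin T Q Q' V') (σ : ℝ)
    (h1 : 0 < σ * c.Dee Q' V' e e' (max (min (Q.1 (c.lf e)) (Q'.1 (c.lf e)))
      (min (Q.1 (c.lf e')) (Q'.1 (c.lf e')))))
    (h2 : 0 < σ * c.Dee Q' V' e e' (min (max (Q.1 (c.rt e)) (Q'.1 (c.rt e)))
      (max (Q.1 (c.rt e')) (Q'.1 (c.rt e'))))) (s : ℝ) (hs : s ∈ Icc (0 : ℝ) T) :
    c.See w (Q + s • V') e e' ∨ c.Zee (Q + s • V') V' e e' σ := by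
  have hT := hL.pos
  have hmv := hL.move
  have hlen := hL.len
  have hlen' := hL.len'
  obtain ⟨hs0, hs1⟩ := hs
  have hQ' : ∀ i, Q'.1 i = Q.1 i + T * V'.1 i := by
    intro i
    rw [hmv]
    exact fst_at Q V' T i
  have hlens : ∀ d, (Q + s • V').1 (c.lf d) < (Q + s • V').1 (c.rt d) := by
    intro d
    rw [fst_at, fst_at]
    have a1 := hlen d
    have a2 := hlen' d
    rw [hQ', hQ'] at a2
    have := aff_pos (a := Q.1 (c.rt d) - Q.1 (c.lf d)) (b := V'.1 (c.rt d) - V'.1 (c.lf d))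
      hT hs0 hs1 (by linarith) (by linarith)
    linarith
  by_cases hlr : max ((Q + s • V').1 (c.lf e)) ((Q + s • V').1 (c.lf e')) <
      min ((Q + s • V').1 (c.rt e)) ((Q + s • V').1 (c.rt e'))
  · right
    have hlo : max (min (Q.1 (c.lf e)) (Q'.1 (c.lf e))) (min (Q.1 (c.lf e')) (Q'.1 (c.lf e'))) ≤
        max ((Q + s • V').1 (c.lf e)) ((Q + s • V').1 (c.lf e')) := by
      apply max_le_max
      · rw [fst_at, hQ']
        exact min_le_aff hs0 hs1
      · rw [fst_at, hQ']
        exact min_le_aff hs0 hs1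
    have hhi : min ((Q + s • V').1 (c.rt e)) ((Q + s • V').1 (c.rt e')) ≤
        min (max (Q.1 (c.rt e)) (Q'.1 (c.rt e))) (max (Q.1 (c.rt e')) (Q'.1 (c.rt e'))) := by
      apply min_le_min
      · rw [fst_at, hQ']
        exact aff_le_max hs0 hs1
      · rw [fst_at, hQ']
        exact aff_le_max hs0 hs1
    obtain ⟨-, d1, d2⟩ := hLNP c T Q Q' V' hL e s (hlens e)
    obtain ⟨-, d3, d4⟩ := hLNP c T Q Q' V' hL e' s (hlens e')
    rw [dee_eq] at h1 h2
    have key : ∀ x, max ((Q + s • V').1 (c.lf e)) ((Q + s • V').1 (c.lf e')) ≤ x →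
        x ≤ min ((Q + s • V').1 (c.rt e)) ((Q + s • V').1 (c.rt e')) →
        0 < σ * c.Dee (Q + s • V') V' e e' x := by
      intro x hx1 hx2
      rw [dee_eq, d1, d2, d3, d4]
      have h := aff_pos' (lo := max (min (Q.1 (c.lf e)) (Q'.1 (c.lf e)))
        (min (Q.1 (c.lf e')) (Q'.1 (c.lf e'))))
        (hi := min (max (Q.1 (c.rt e)) (Q'.1 (c.rt e))) (max (Q.1 (c.rt e')) (Q'.1 (c.rt e'))))
        (x := x) (a := σ * (c.dpe Q' V' e - c.dpe Q' V' e'))
        (b := σ * (c.dae Q' V' e - c.dae Q' V' e')) (hlo.trans hx1) (hx2.trans hhi)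
        (by linarith) (by linarith)
      linarith
    exact ⟨key _ le_rfl hlr.le, key _ hlr.le le_rfl⟩
  · left
    rw [not_lt, min_le_iff, le_max_iff, le_max_iff] at hlr
    unfold Comb.See
    have w1 := hw (c.rt e)
    have w2 := hw (c.rt e')
    have w3 := hw (c.lf e)
    have w4 := hw (c.lf e')
    have l1 := hlens e
    have l2 := hlens e'
    rcases hlr with (h | h) | (h | h)
    · linarith
    · left
      linarith
    · right; left
      linarith
    · linarith

end SEE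

theorem t_SEE (hLNP : Stmt_LNP) : Stmt_SEE := by
  intro m n c w T Q V Q' V' e e' hw hL hne h
  have hT := hL.pos
  have hQ' : ∀ i, Q'.1 i = Q.1 i + T * V'.1 i := by
    intro i
    rw [hL.move]
    exact SEE.fst_at Q V' T i
  have hzero : Q + (0 : ℝ) • V' = Q := by simp
  have hlens : ∀ s ∈ Icc (0 : ℝ) T, ∀ d,
      (Q + s • V').1 (c.lf d) < (Q + s • V').1 (c.rt d) := by
    intro s hs d
    rw [SEE.fst_at, SEE.fst_at]
    have a1 := hL.len d
    have a2 := hL.len' d
    rw [hQ', hQ'] at a2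
    have := SEE.aff_pos (a := Q.1 (c.rt d) - Q.1 (c.lf d)) (b := V'.1 (c.rt d) - V'.1 (c.lf d))
      hT hs.1 hs.2 (by linarith) (by linarith)
    linarith
  have hpe : ∀ s ∈ Icc (0 : ℝ) T, ∀ d, c.pe (Q + s • V') d = c.pe Q d + s * c.dpe Q' V' d := by
    intro s hs d
    have b1 := (hLNP c T Q Q' V' hL d s (hlens s hs d)).1
    have b2 := (hLNP c T Q Q' V' hL d 0 (hlens 0 ⟨le_rfl, hT.le⟩ d)).1
    rw [hzero] at b2
    rw [b1, b2]
    ring
  have hpe' : ∀ d, c.pe Q' d = c.pe Q d + T * c.dpe Q' V' d := by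
    intro d
    rw [← hpe T ⟨hT.le, le_rfl⟩ d, hL.move]
  rcases h with ⟨h1, h2⟩ | ⟨h1, h2⟩ | ⟨h1, h2⟩ | ⟨h1, h2⟩ | ⟨σ, hσ, h1, h2, h3⟩
  · refine ⟨fun s hs => Or.inl (Or.inl ?_), fun l _ => Or.inl (Or.inl h1)⟩
    rw [SEE.fst_at, SEE.fst_at]
    rw [hQ', hQ'] at h2
    have := SEE.aff_pos (a := Q.1 (c.lf e') + 2 * w (c.lf e') - (Q.1 (c.rt e) - 2 * w (c.rt e)))
      (b := V'.1 (c.lf e') - V'.1 (c.rt e)) hT hs.1 hs.2 (by linarith) (by linarith)
    linarith
  · refine ⟨fun s hs => Or.inl (Or.inr (Or.inl ?_)), fun l _ => Or.inl (Or.inr (Or.inl h1))⟩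
    rw [SEE.fst_at, SEE.fst_at]
    rw [hQ', hQ'] at h2
    have := SEE.aff_pos (a := Q.1 (c.lf e) + 2 * w (c.lf e) - (Q.1 (c.rt e') - 2 * w (c.rt e')))
      (b := V'.1 (c.lf e) - V'.1 (c.rt e')) hT hs.1 hs.2 (by linarith) (by linarith)
    linarith
  · refine ⟨fun s hs => Or.inl (Or.inr (Or.inr ?_)), fun l _ => Or.inl (Or.inr (Or.inr h1.ne))⟩
    rw [hpe s hs, hpe s hs]
    rw [hpe', hpe'] at h2
    have := SEE.aff_pos (a := c.pe Q e' - c.pe Q e) (b := c.dpe Q' V' e' - c.dpe Q' V' e)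
      hT hs.1 hs.2 (by linarith) (by linarith)
    exact ne_of_lt (by linarith)
  · refine ⟨fun s hs => Or.inl (Or.inr (Or.inr ?_)), fun l _ => Or.inl (Or.inr (Or.inr h1.ne'))⟩
    rw [hpe s hs, hpe s hs]
    rw [hpe', hpe'] at h2
    have := SEE.aff_pos (a := c.pe Q e - c.pe Q e') (b := c.dpe Q' V' e - c.dpe Q' V' e')
      hT hs.1 hs.2 (by linarith) (by linarith)
    exact ne_of_gt (by linarith)
  · have hz := SEE.z_at hLNP c w T Q Q' V' e e' hw hL σ h1 h2
    refine ⟨fun s hs => ?_, fun l hl => ?_⟩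
    · rcases hz s hs with h | h
      · exact Or.inl h
      · exact Or.inr ⟨σ, hσ, h⟩
    · rcases h3 with h | h
      · exact Or.inl h
      · have h4 := hz 0 ⟨le_rfl, hT.le⟩
        rw [hzero] at h4
        rcases h4 with h4 | h4
        · exact Or.inl h4
        · right
          refine ⟨σ, hσ, ?_, ?_⟩
          · rw [SEE.dee_lin]
            have := SEE.comb_pos hl.1 hl.2 h.1 h4.1
            linarith
          · rw [SEE.dee_lin]
            have := SEE.comb_pos hl.1 hl.2 h.2 h4.2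
            linarith

end LCA
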