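import Pool.Agent.LCA.Stmts1

/-!
# SHP: existence of the profiles
-/

namespace LCA

open Set Filter
open scoped ContDiff Topology

namespace SHP

/-! ### the transition of the slope -/

noncomputable def tau (u : ℝ) : ℝ := Real.smoothTransition ((u + 1) / 2)

theorem tau_smooth : ContDiff ℝ ∞ tau :=
  Real.smoothTransition.contDiff.comp ((contDiff_id.add contDiff_const).div_const 2)

theorem tau_low {u : ℝ} (h : u ≤ -1) : tau u = 0 :=
  Real.smoothTransition.zero_of_nonpos (by linarith)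

theorem tau_high {u : ℝ} (h : 1 ≤ u) : tau u = 1 :=
  Real.smoothTransition.one_of_one_le (by linarith)

theorem tau_nonneg (u : ℝ) : 0 ≤ tau u := Real.smoothTransition.nonneg _

theorem tau_le_one (u : ℝ) : tau u ≤ 1 := Real.smoothTransition.le_one _

theorem tau_symm (u : ℝ) : tau (-u) = 1 - tau u := by
  have h := Real.smoothTransition.pos_denom ((u + 1) / 2)
  have e : (-u + 1) / 2 = 1 - (u + 1) / 2 := by ring
  have e2 : 1 - (1 - (u + 1) / 2) = (u + 1) / 2 := by ring
  unfold tau Real.smoothTransition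
  rw [e, e2, eq_sub_iff_add_eq, add_comm (expNegInvGlue (1 - (u + 1) / 2)), ← add_div,
    add_comm (expNegInvGlue (1 - (u + 1) / 2)), div_self h.ne']

theorem glue_deriv {x : ℝ} (hx : 0 < x) :
    ∃ d : ℝ, 0 < d ∧ HasDerivAt expNegInvGlue d x := by
  refine ⟨Real.exp (-x⁻¹) * (x ^ 2)⁻¹, by positivity, ?_⟩
  have h1 : HasDerivAt (fun y : ℝ => Real.exp (-y⁻¹)) (Real.exp (-x⁻¹) * (x ^ 2)⁻¹) x := by
    have h2 := (hasDerivAt_inv hx.ne').neg.exp
    exact h2.congr_deriv (by simp)
  refine h1.congr_of_eventuallyEq ?_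
  filter_upwards [lt_mem_nhds hx] with y hy
  simp [expNegInvGlue, not_le.2 hy]

theorem st_deriv {x : ℝ} (h0 : 0 < x) (h1 : x < 1) :
    ∃ d : ℝ, 0 < d ∧ HasDerivAt Real.smoothTransition d x := by
  obtain ⟨d1, hd1, H1⟩ := glue_deriv h0
  obtain ⟨d2, hd2, H2⟩ := glue_deriv (x := 1 - x) (by linarith)
  have H3 : HasDerivAt (fun y : ℝ => expNegInvGlue (1 - y)) (-d2) x := by
    have h5 := HasDerivAt.comp x H2 ((hasDerivAt_id x).const_sub 1)
    exact h5.congr_deriv (by ring)
  have hden : 0 < expNegInvGlue x + expNegInvGlue (1 - x) := Real.smoothTransition.pos_denom x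
  have H4 := H1.div (H1.add H3) hden.ne'
  refine ⟨_, ?_, H4⟩
  have hf : 0 < expNegInvGlue x := expNegInvGlue.pos_of_pos h0
  have hg : 0 < expNegInvGlue (1 - x) := expNegInvGlue.pos_of_pos (by linarith)
  apply div_pos
  · have e : d1 * (expNegInvGlue + fun y : ℝ => expNegInvGlue (1 - y)) x
        - expNegInvGlue x * (d1 + -d2) = d1 * expNegInvGlue (1 - x) + expNegInvGlue x * d2 := by
      simp only [Pi.add_apply]
      ring
    rw [e]
    positivity
  · exact pow_pos hden 2

theorem tau_deriv_pos {u : ℝ} (h0 : -1 < u) (h1 : u < 1) : 0 < deriv tau u := by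
  obtain ⟨d, hd, H⟩ := st_deriv (x := (u + 1) / 2) (by linarith) (by linarith)
  have H2 : HasDerivAt (fun y : ℝ => (y + 1) / 2) (1 / 2) u :=
    ((hasDerivAt_id u).add_const 1).div_const 2
  have H3 : HasDerivAt tau (d * (1 / 2)) u := HasDerivAt.comp u H H2
  rw [H3.deriv]
  positivity

theorem tau_deriv_nonneg (u : ℝ) : 0 ≤ deriv tau u := by
  rcases le_or_gt u (-1) with h | h
  · have h1 : IsLocalMin tau u := Filter.Eventually.of_forall fun y => by
      rw [tau_low h]
      exact tau_nonneg y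
    rw [h1.deriv_eq_zero]
  · rcases le_or_gt 1 u with h' | h'
    · have h1 : IsLocalMax tau u := Filter.Eventually.of_forall fun y => by
        rw [tau_high h']
        exact tau_le_one y
      rw [h1.deriv_eq_zero]
    · exact (tau_deriv_pos h h').le

theorem tau_hasDeriv (u : ℝ) : HasDerivAt tau (deriv tau u) u :=
  ((tau_smooth.differentiable (by simp)) u).hasDerivAt

theorem tau_mono : Monotone tau :=
  monotone_of_deriv_nonneg (tau_smooth.differentiable (by simp)) tau_deriv_nonneg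

theorem tau_zero : tau 0 = 1 / 2 := by
  have h := tau_symm 0
  rw [neg_zero] at h
  linarith

theorem tau_gt {v : ℝ} (hv : 0 < v) : 1 / 2 < tau v := by
  rcases le_or_gt 1 v with h | h
  · rw [tau_high h]
    norm_num
  · have h1 : StrictMonoOn tau (Icc (-1) 1) := by
      refine strictMonoOn_of_deriv_pos (convex_Icc _ _) tau_smooth.continuous.continuousOn ?_
      intro x hx
      rw [interior_Icc] at hx
      exact tau_deriv_pos hx.1 hx.2
    have h2 := h1 (show (0 : ℝ) ∈ Icc (-1) 1 by constructor <;> norm_num)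
      (show v ∈ Icc (-1) 1 from ⟨by linarith, h.le⟩) hv
    rwa [tau_zero] at h2

/-! ### the odd transition and its primitives -/

noncomputable def sg (u : ℝ) : ℝ := 2 * tau u - 1

theorem sg_smooth : ContDiff ℝ ∞ sg := (contDiff_const.mul tau_smooth).sub contDiff_const

theorem sg_cont : Continuous sg := sg_smooth.continuous

theorem sg_neg (u : ℝ) : sg (-u) = -sg u := by
  unfold sg
  rw [tau_symm]
  ring

theorem sg_high {u : ℝ} (h : 1 ≤ u) : sg u = 1 := by
  unfold sg
  rw [tau_high h]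
  norm_num

theorem sg_low {u : ℝ} (h : u ≤ -1) : sg u = -1 := by
  unfold sg
  rw [tau_low h]
  norm_num

theorem sg_mono : Monotone sg := fun a b h => by
  unfold sg
  have := tau_mono h
  linarith

theorem sg_zero : sg 0 = 0 := by
  unfold sg
  rw [tau_zero]
  norm_num

theorem sg_nonneg {u : ℝ} (h : 0 ≤ u) : 0 ≤ sg u := by
  rw [← sg_zero]
  exact sg_mono h

theorem sg_nonpos {u : ℝ} (h : u ≤ 0) : sg u ≤ 0 := by
  rw [← sg_zero]
  exact sg_mono h

theorem sg_pos {u : ℝ} (h : 0 < u) : 0 < sg u := by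
  unfold sg
  have := tau_gt h
  linarith

theorem sg_le (u : ℝ) : sg u ≤ 1 := by
  unfold sg
  have := tau_le_one u
  linarith

theorem sg_ge (u : ℝ) : -1 ≤ sg u := by
  unfold sg
  have := tau_nonneg u
  linarith

theorem sg_hasDeriv (u : ℝ) : HasDerivAt sg (2 * deriv tau u) u :=
  ((tau_hasDeriv u).const_mul 2).sub_const 1

noncomputable def TT (u : ℝ) : ℝ := ∫ t in (0 : ℝ)..u, sg t

noncomputable def SS (u : ℝ) : ℝ := ∫ t in (0 : ℝ)..u, sg t ^ 2

theorem TT_hasDeriv (u : ℝ) : HasDerivAt TT (sg u) u :=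
  (sg_cont.integral_hasStrictDerivAt 0 u).hasDerivAt

theorem SS_hasDeriv (u : ℝ) : HasDerivAt SS (sg u ^ 2) u :=
  ((sg_cont.pow 2).integral_hasStrictDerivAt 0 u).hasDerivAt

theorem smooth_of_deriv {f g : ℝ → ℝ} (h : ∀ u, HasDerivAt f (g u) u) (hg : ContDiff ℝ ∞ g) :
    ContDiff ℝ ∞ f := by
  rw [contDiff_infty_iff_deriv]
  refine ⟨fun u => (h u).differentiableAt, ?_⟩
  have : deriv f = g := funext fun u => (h u).deriv
  rw [this]
  exact hg

theorem TT_smooth : ContDiff ℝ ∞ TT := smooth_of_deriv TT_hasDeriv sg_smooth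

theorem SS_smooth : ContDiff ℝ ∞ SS := smooth_of_deriv SS_hasDeriv (sg_smooth.pow 2)

theorem TT_high {u : ℝ} (h : 1 ≤ u) : TT u = TT 1 + (u - 1) := by
  unfold TT
  rw [← intervalIntegral.integral_add_adjacent_intervals (sg_cont.intervalIntegrable 0 1)
    (sg_cont.intervalIntegrable 1 u)]
  congr 1
  have h1 : ∫ t in (1 : ℝ)..u, sg t = ∫ t in (1 : ℝ)..u, (1 : ℝ) := by
    refine intervalIntegral.integral_congr fun t ht => ?_
    rw [uIcc_of_le h] at ht
    exact sg_high ht.1
  rw [h1]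
  simp

theorem SS_high {u : ℝ} (h : 1 ≤ u) : SS u = SS 1 + (u - 1) := by
  have hc : Continuous fun t : ℝ => sg t ^ 2 := sg_cont.pow 2
  unfold SS
  rw [← intervalIntegral.integral_add_adjacent_intervals (hc.intervalIntegrable 0 1)
    (hc.intervalIntegrable 1 u)]
  congr 1
  have h1 : ∫ t in (1 : ℝ)..u, sg t ^ 2 = ∫ t in (1 : ℝ)..u, (1 : ℝ) := by
    refine intervalIntegral.integral_congr fun t ht => ?_
    rw [uIcc_of_le h] at ht
    simp only [sg_high ht.1, one_pow]
  rw [h1]
  simp

theorem TT_even (u : ℝ) : TT (-u) = TT u := by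
  have h := intervalIntegral.integral_comp_neg (a := 0) (b := u) sg
  simp only [sg_neg, intervalIntegral.integral_neg, neg_zero] at h
  unfold TT
  rw [intervalIntegral.integral_symm] at h
  have h2 : ∫ t in (0 : ℝ)..(-u), sg t = ∫ t in (0 : ℝ)..u, sg t := by
    rw [intervalIntegral.integral_symm (-u) 0]
    rw [intervalIntegral.integral_symm] at h
    linarith
  exact h2

theorem SS_odd (u : ℝ) : SS (-u) = -SS u := by
  have h := intervalIntegral.integral_comp_neg (a := 0) (b := u) (fun t => sg t ^ 2)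
  simp only [sg_neg, neg_zero] at h
  unfold SS
  rw [intervalIntegral.integral_symm (-u) 0, ← h]
  simp

theorem SS_one_nonneg : 0 ≤ SS 1 :=
  intervalIntegral.integral_nonneg zero_le_one fun t _ => sq_nonneg _

theorem SS_one_le : SS 1 ≤ 1 := by
  have h : SS 1 ≤ ∫ t in (0 : ℝ)..1, (1 : ℝ) := by
    refine intervalIntegral.integral_mono_on zero_le_one ((sg_cont.pow 2).intervalIntegrable _ _)
      (continuous_const.intervalIntegrable _ _) fun t _ => ?_
    have h1 := sg_le t
    have h2 := sg_ge t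
    nlinarith
  simpa using h

/-! ### the profile of a tip -/

noncomputable def ka : ℝ := 3 / 4 * (1 - SS 1)

theorem ka_nonneg : 0 ≤ ka := by
  unfold ka
  have := SS_one_le
  linarith

theorem ka_le : ka ≤ 3 / 4 := by
  unfold ka
  have := SS_one_nonneg
  linarith

noncomputable def xi (u : ℝ) : ℝ := -(u * sg u) + ka * (1 - sg u ^ 2)

theorem xi_smooth : ContDiff ℝ ∞ xi :=
  (contDiff_id.mul sg_smooth).neg.add (contDiff_const.mul (contDiff_const.sub (sg_smooth.pow 2)))

theorem xi_even (u : ℝ) : xi (-u) = xi u := by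
  unfold xi
  rw [sg_neg]
  ring

theorem xi_high {u : ℝ} (h : 1 ≤ u) : xi u = -u := by
  unfold xi
  rw [sg_high h]
  ring

theorem xi_zero : xi 0 = ka := by
  unfold xi
  rw [sg_zero]
  ring

theorem xi_anti : StrictAntiOn xi (Ici 0) := by
  intro a ha b hb hab
  have ha' : 0 ≤ a := ha
  have h1 := sg_mono hab.le
  have h2 := sg_nonneg ha'
  have h3 : 0 < sg b := sg_pos (lt_of_le_of_lt ha' hab)
  have h4 := ka_nonneg
  unfold xi
  have h5 : a * sg a < b * sg b := by nlinarith
  have h6 : sg a ^ 2 ≤ sg b ^ 2 := by nlinarith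
  nlinarith

theorem xi_hasDeriv (u : ℝ) : HasDerivAt xi
    (-(sg u + u * (2 * deriv tau u)) - ka * (2 * sg u * (2 * deriv tau u))) u := by
  have h1 := ((hasDerivAt_id u).mul (sg_hasDeriv u)).neg
  have h2 := (((sg_hasDeriv u).pow 2).const_sub 1).const_mul ka
  have h3 := h1.add h2
  refine h3.congr_deriv ?_
  simp only [id]
  push_cast
  ring

theorem xi_deriv_nonpos {u : ℝ} (h : 0 ≤ u) : deriv xi u ≤ 0 := by
  rw [(xi_hasDeriv u).deriv]
  have h1 := sg_nonneg h
  have h2 := tau_deriv_nonneg u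
  have h3 := ka_nonneg
  have h4 : 0 ≤ u * (2 * deriv tau u) := by positivity
  have h5 : 0 ≤ ka * (2 * sg u * (2 * deriv tau u)) := by positivity
  linarith

theorem xi_deriv_nonneg {u : ℝ} (h : u ≤ 0) : 0 ≤ deriv xi u := by
  rw [(xi_hasDeriv u).deriv]
  have h1 := sg_nonpos h
  have h2 := tau_deriv_nonneg u
  have h3 := ka_nonneg
  have h4 : 0 ≤ (-u) * (2 * deriv tau u) := mul_nonneg (by linarith) (by positivity)
  have h5 : 0 ≤ ka * (2 * (-sg u) * (2 * deriv tau u)) :=
    mul_nonneg h3 (mul_nonneg (by linarith) (by positivity))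
  nlinarith

theorem xi_in {u : ℝ} (h : |u| ≤ 1) : |xi u| ≤ 1 := by
  have key : ∀ v : ℝ, 0 ≤ v → v ≤ 1 → |xi v| ≤ 1 := by
    intro v h0 h1
    have h2 := xi_anti.antitoneOn (show (0 : ℝ) ∈ Ici 0 by simp) (show v ∈ Ici 0 from h0) h0
    have h3 := xi_anti.antitoneOn (show v ∈ Ici 0 from h0)
      (show (1 : ℝ) ∈ Ici 0 by simp) h1
    rw [xi_zero] at h2
    rw [xi_high le_rfl] at h3
    have h4 := ka_le
    rw [abs_le]
    constructor <;> linarith
  rw [abs_le] at h
  rcases le_total 0 u with h0 | h0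
  · exact key u h0 h.2
  · have := key (-u) (by linarith) (by linarith)
    rwa [xi_even] at this

/-! ### the primitives -/

noncomputable def thP (u : ℝ) : ℝ := (u + TT u + 1 - TT 1) / 2

theorem thP_hasDeriv (u : ℝ) : HasDerivAt thP (tau u) u := by
  have h := ((((hasDerivAt_id u).add (TT_hasDeriv u)).add_const 1).sub_const (TT 1)).div_const 2
  refine h.congr_deriv ?_
  unfold sg
  ring

theorem thP_high {u : ℝ} (h : 1 ≤ u) : thP u = u := by
  unfold thP
  rw [TT_high h]
  ring

theorem thP_low {u : ℝ} (h : u ≤ -1) : thP u = 0 := by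
  unfold thP
  rw [← TT_even, TT_high (u := -u) (by linarith)]
  ring

theorem thP_bd {u : ℝ} (h : |u| ≤ 2) : |thP u| ≤ 2 := by
  have hm : Monotone thP := monotone_of_deriv_nonneg
    (fun u => (thP_hasDeriv u).differentiableAt) fun u => by
      rw [(thP_hasDeriv u).deriv]
      exact tau_nonneg u
  rw [abs_le] at h
  have h1 := hm h.1
  have h2 := hm h.2
  rw [thP_low (u := -2) (by norm_num)] at h1
  rw [thP_high (u := 2) (by norm_num)] at h2
  rw [abs_le]
  constructor <;> linarith

noncomputable def thR (u : ℝ) : ℝ :=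
  tau u * xi u + (u * sg u ^ 2 - SS u) / 4 - ka * (2 * tau u ^ 2 - 4 / 3 * tau u ^ 3)
    + (1 - SS 1) / 4

theorem thR_hasDeriv (u : ℝ) : HasDerivAt thR (tau u * deriv xi u) u := by
  have h0 := tau_hasDeriv u
  have h1 := h0.mul (xi_hasDeriv u)
  have h2 := (((hasDerivAt_id u).mul ((sg_hasDeriv u).pow 2)).sub (SS_hasDeriv u)).div_const 4
  have h3 := (((h0.pow 2).const_mul 2).sub ((h0.pow 3).const_mul (4 / 3))).const_mul ka
  have h4 := ((h1.add h2).sub h3).add_const ((1 - SS 1) / 4)
  rw [(xi_hasDeriv u).deriv]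
  refine h4.congr_deriv ?_
  simp only [id, Pi.pow_apply]
  unfold xi sg
  push_cast
  ring

theorem thR_high {u : ℝ} (h : 1 ≤ u) : thR u = -u := by
  unfold thR
  rw [tau_high h, xi_high h, sg_high h, SS_high h]
  unfold ka
  ring

theorem thR_low {u : ℝ} (h : u ≤ -1) : thR u = 0 := by
  have h1 : SS u = -(SS 1 + (-u - 1)) := by
    rw [← SS_high (u := -u) (by linarith), SS_odd]
    ring
  unfold thR
  rw [tau_low h, sg_low h, h1]
  ring

theorem thR_zero : thR 0 = ka / 2 := by
  have h : SS 0 = 0 := by unfold SS; simp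
  unfold thR
  rw [tau_zero, xi_zero, sg_zero, h]
  unfold ka
  ring

theorem thR_bd {u : ℝ} (h : |u| ≤ 2) : |thR u| ≤ 2 := by
  have hd : ∀ u, HasDerivAt thR (tau u * deriv xi u) u := thR_hasDeriv
  have hc : Continuous thR := continuous_iff_continuousAt.2 fun u => (hd u).continuousAt
  have h1 : MonotoneOn thR (Iic 0) := by
    refine monotoneOn_of_deriv_nonneg (convex_Iic 0) hc.continuousOn
      (fun u _ => (hd u).differentiableAt.differentiableWithinAt) fun u hu => ?_
    rw [interior_Iic] at hu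
    rw [(hd u).deriv]
    exact mul_nonneg (tau_nonneg u) (xi_deriv_nonneg (le_of_lt hu))
  have h2 : AntitoneOn thR (Ici 0) := by
    refine antitoneOn_of_deriv_nonpos (convex_Ici 0) hc.continuousOn
      (fun u _ => (hd u).differentiableAt.differentiableWithinAt) fun u hu => ?_
    rw [interior_Ici] at hu
    rw [(hd u).deriv]
    exact mul_nonpos_of_nonneg_of_nonpos (tau_nonneg u) (xi_deriv_nonpos (le_of_lt hu))
  have h3 := ka_le
  rw [abs_le] at h ⊢
  rcases le_total 0 u with h0 | h0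
  · have h4 := h2 (show (0 : ℝ) ∈ Ici 0 by simp) (show u ∈ Ici 0 from h0) h0
    have h5 := h2 (show u ∈ Ici 0 from h0) (show (2 : ℝ) ∈ Ici 0 by simp) h.2
    rw [thR_zero] at h4
    rw [thR_high (u := 2) (by norm_num)] at h5
    constructor <;> linarith
  · have h4 := h1 (show u ∈ Iic 0 from h0) (show (0 : ℝ) ∈ Iic 0 by simp) h0
    have h5 := h1 (show (-2 : ℝ) ∈ Iic 0 by simp) (show u ∈ Iic 0 from h0) h.1
    rw [thR_zero] at h4
    rw [thR_low (u := -2) (by norm_num)] at h5
    constructor <;> linarith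

end SHP

open SHP in
theorem t_SHP : Stmt_SHP := by
  refine ⟨{
    τ := tau
    ξ := xi
    ΘP := thP
    ΘR := thR
    τ_smooth := tau_smooth
    ξ_smooth := xi_smooth
    ΘP_smooth := smooth_of_deriv thP_hasDeriv tau_smooth
    ΘR_smooth := ?_
    τ_low := fun u h => tau_low h
    τ_high := fun u h => tau_high h
    τ_mem := fun u => ⟨tau_nonneg u, tau_le_one u⟩
    τ_deriv := fun u h0 h1 => tau_deriv_pos h0 h1
    τ_symm := tau_symm
    ξ_out := ?_
    ξ_in := fun u h => xi_in h
    ξ_even := xi_even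
    ξ_anti := xi_anti
    ΘP_deriv := thP_hasDeriv
    ΘP_low := fun u h => thP_low h
    ΘP_high := fun u h => thP_high h
    ΘR_deriv := thR_hasDeriv
    ΘR_low := fun u h => thR_low h
    ΘR_high := fun u h => thR_high h
    ΘP_bd := fun u h => thP_bd h
    ΘR_bd := fun u h => thR_bd h }⟩
  · refine smooth_of_deriv thR_hasDeriv (tau_smooth.mul ?_)
    exact (contDiff_infty_iff_deriv.1 xi_smooth).2
  · intro u h
    rcases le_total 0 u with h0 | h0
    · rw [abs_of_nonneg h0] at h ⊢
      exact xi_high h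
    · rw [abs_of_nonpos h0] at h ⊢
      rw [← xi_even]
      exact xi_high h

end LCA
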