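import Pool.Agent.LCA.Stmts1

/-!
# SM2: smoothing of a path with one corner
-/

namespace LCA

open Set Filter
open scoped ContDiff Topology

namespace SM2

/-- The smoothed path. -/
noncomputable def path {n : ℕ} (sh : Shape) (Q V V' : St n) (t δ : ℝ) (s : ℝ) : St n :=
  Q + (s - t) • V + (δ * sh.ΘP ((s - t) / δ)) • (V' - V)

lemma path_smooth {n : ℕ} (sh : Shape) (Q V V' : St n) (t δ : ℝ) :
    ContDiff ℝ ∞ (path sh Q V V' t δ) := by
  unfold path
  have h1 : ContDiff ℝ ∞ (fun s : ℝ => s - t) := contDiff_id.sub contDiff_const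
  have h2 : ContDiff ℝ ∞ (fun s : ℝ => (s - t) / δ) := h1.div_const δ
  have h3 : ContDiff ℝ ∞ (fun s : ℝ => δ * sh.ΘP ((s - t) / δ)) :=
    contDiff_const.mul (sh.ΘP_smooth.comp h2)
  exact (contDiff_const.add (h1.smul contDiff_const)).add (h3.smul contDiff_const)

lemma path_deriv {n : ℕ} (sh : Shape) (Q V V' : St n) (t δ : ℝ) (hδ : 0 < δ) (s : ℝ) :
    deriv (path sh Q V V' t δ) s = V + sh.τ ((s - t) / δ) • (V' - V) := by
  have h1 : HasDerivAt (fun s : ℝ => s - t) 1 s := (hasDerivAt_id s).sub_const t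
  have h2 : HasDerivAt (fun s : ℝ => (s - t) / δ) (1 / δ) s := h1.div_const δ
  have h3 : HasDerivAt (fun s : ℝ => sh.ΘP ((s - t) / δ)) (sh.τ ((s - t) / δ) * (1 / δ)) s :=
    HasDerivAt.comp s (sh.ΘP_deriv ((s - t) / δ)) h2
  have h4 : HasDerivAt (fun s : ℝ => δ * sh.ΘP ((s - t) / δ)) (sh.τ ((s - t) / δ)) s := by
    have h := h3.const_mul δ
    have e : δ * (sh.τ ((s - t) / δ) * (1 / δ)) = sh.τ ((s - t) / δ) := by
      field_simp
    rw [e] at h
    exact h
  have h5 : HasDerivAt (fun s : ℝ => Q + (s - t) • V) ((1 : ℝ) • V) s :=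
    (h1.smul_const V).const_add Q
  have h6 := h5.add (h4.smul_const (V' - V))
  rw [one_smul] at h6
  exact h6.deriv

lemma dist_path {n : ℕ} (sh : Shape) (Q V V' : St n) (t δ : ℝ) (hδ : 0 < δ) (s : ℝ)
    (hs : s ∈ Icc (t - δ) (t + δ)) :
    ‖path sh Q V V' t δ s - Q‖ ≤ δ * (‖V‖ + 2 * ‖V' - V‖) := by
  have hu : |(s - t) / δ| ≤ 1 := by
    rw [abs_div, abs_of_pos hδ, div_le_one hδ, abs_le]
    constructor <;> linarith [hs.1, hs.2]
  have hst : |s - t| ≤ δ := by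
    rw [abs_le]
    constructor <;> linarith [hs.1, hs.2]
  have hT := sh.ΘP_bd ((s - t) / δ) (hu.trans (by norm_num))
  have e : path sh Q V V' t δ s - Q
      = (s - t) • V + (δ * sh.ΘP ((s - t) / δ)) • (V' - V) := by
    unfold path
    abel
  rw [e]
  calc ‖(s - t) • V + (δ * sh.ΘP ((s - t) / δ)) • (V' - V)‖
      ≤ ‖(s - t) • V‖ + ‖(δ * sh.ΘP ((s - t) / δ)) • (V' - V)‖ := norm_add_le _ _
    _ = |s - t| * ‖V‖ + (δ * |sh.ΘP ((s - t) / δ)|) * ‖V' - V‖ := by
        rw [norm_smul, norm_smul, Real.norm_eq_abs, Real.norm_eq_abs, abs_mul, abs_of_pos hδ]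
    _ ≤ δ * ‖V‖ + (δ * 2) * ‖V' - V‖ := by
        gcongr
    _ = δ * (‖V‖ + 2 * ‖V' - V‖) := by ring

end SM2

theorem t_SM2 : Stmt_SM2 := by
  intro n sh U Q V V' t hU hseg η hη
  -- the compact segment
  set g : ℝ → St n × St n := fun l => (Q, (1 - l) • V + l • V') with hg
  have hgc : Continuous g := by
    rw [hg]
    fun_prop
  have hK : IsCompact (g '' Icc (0 : ℝ) 1) := isCompact_Icc.image hgc
  have hKU : g '' Icc (0 : ℝ) 1 ⊆ U := by
    rintro _ ⟨l, hl, rfl⟩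
    exact hseg l hl
  obtain ⟨ε, hε, hεU⟩ := hK.exists_thickening_subset_open hU hKU
  set C : ℝ := ‖V‖ + 2 * ‖V' - V‖ with hC
  have hC0 : 0 ≤ C := by positivity
  set δ : ℝ := min (η / 2) (ε / (2 * (C + 1))) with hδdef
  have hδ : 0 < δ := lt_min (by linarith) (by positivity)
  have hδη : δ < η := lt_of_le_of_lt (min_le_left _ _) (by linarith)
  have hδε : δ * C < ε := by
    have h1 : δ ≤ ε / (2 * (C + 1)) := min_le_right _ _
    have h2 : δ * (2 * (C + 1)) ≤ ε := by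
      rwa [le_div_iff₀ (by positivity)] at h1
    nlinarith
  refine ⟨SM2.path sh Q V V' t δ, δ, hδ, hδη, SM2.path_smooth sh Q V V' t δ, ?_, ?_, ?_⟩
  · intro s hs
    have hu : (s - t) / δ ≤ -1 := by
      rw [div_le_iff₀ hδ]
      linarith
    unfold SM2.path lin
    rw [sh.ΘP_low _ hu, mul_zero, zero_smul, add_zero]
  · intro s hs
    have hu : 1 ≤ (s - t) / δ := by
      rw [le_div_iff₀ hδ]
      linarith
    unfold SM2.path lin
    rw [sh.ΘP_high _ hu, mul_div_cancel₀ _ hδ.ne', smul_sub]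
    abel
  · intro s hs
    apply hεU
    rw [Metric.mem_thickening_iff]
    refine ⟨g (sh.τ ((s - t) / δ)), ⟨_, ⟨(sh.τ_mem _).1, (sh.τ_mem _).2⟩, rfl⟩, ?_⟩
    have hd := SM2.dist_path sh Q V V' t δ hδ s hs
    rw [SM2.path_deriv sh Q V V' t δ hδ s, Prod.dist_eq]
    have e2 : V + sh.τ ((s - t) / δ) • (V' - V)
        = (1 - sh.τ ((s - t) / δ)) • V + sh.τ ((s - t) / δ) • V' := by
      rw [smul_sub, sub_smul, one_smul]
      abel
    have e3 : (g (sh.τ ((s - t) / δ))).1 = Q := rfl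
    have e4 : (g (sh.τ ((s - t) / δ))).2
        = (1 - sh.τ ((s - t) / δ)) • V + sh.τ ((s - t) / δ) • V' := rfl
    apply max_lt
    · rw [e3, dist_eq_norm]
      exact lt_of_le_of_lt hd hδε
    · rw [e4, e2, dist_self]
      exact hε

end LCA
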