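import Pool.Agent.LCA.Stmts5

/-!
# Part A, STB: the beginning
-/

namespace LCA

open Set Filter
open scoped ContDiff Topology

namespace STB

/-- The value of `i + 1` in `Fin (n + 1)`. -/
theorem val_succ {n : ℕ} (i : Fin (n + 1)) :
    ((i + 1 : Fin (n + 1)) : ℕ) = if (i : ℕ) = n then 0 else (i : ℕ) + 1 := by
  rw [Fin.val_add_one i]
  by_cases h : (i : ℕ) = n
  · have h' : i = Fin.last n := Fin.ext h
    simp [h']
  · have h' : i ≠ Fin.last n := by
      intro h''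
      apply h
      rw [h'']
      rfl
    simp [h, h']

/-- The velocities at the beginning of a cylinder. -/
theorem vel {n : ℕ} {A : SD} (h : ∀ i < n + 1, (A.v i).dx = 0 ∧ (A.v i).dF = (A.v i).F) :
    A.V n = (0, (A.Q n).2) := by
  apply Prod.ext
  · funext i
    show (((A.v i).dx : ℤ) : ℝ) = 0
    rw [(h i i.2).1]
    norm_num
  · funext i
    show (((A.v i).dF : ℤ) : ℝ) = (((A.v i).F : ℤ) : ℝ)
    rw [(h i i.2).2]

/-- The polygon has one component. -/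
theorem cyc {n : ℕ} {A : SD} (V : A.Vals n n)
    (hE : ∀ k < n + 1, ((A.e k).lf = k ∧ (A.e k).rt = if k = n then 0 else k + 1) ∨
      ((A.e k).rt = k ∧ (A.e k).lf = if k = n then 0 else k + 1))
    (hV : ∀ k < n + 1, ((A.v k).ea = (if k = 0 then n else k - 1) ∧ (A.v k).eb = k) ∨
      ((A.v k).eb = (if k = 0 then n else k - 1) ∧ (A.v k).ea = k)) :
    (A.cb n n).Cyc := by
  refine ⟨fun i => ?_, fun i => ?_⟩
  · rcases hE i i.2 with ⟨h1, h2⟩ | ⟨h1, h2⟩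
    · left
      refine ⟨Fin.ext ?_, Fin.ext ?_⟩
      · rw [V.lfv, h1]
      · rw [V.rtv, h2, val_succ]
    · right
      refine ⟨Fin.ext ?_, Fin.ext ?_⟩
      · rw [V.lfv, h2, val_succ]
      · rw [V.rtv, h1]
  · have hk : (if ((i + 1 : Fin (n + 1)) : ℕ) = 0 then n else ((i + 1 : Fin (n + 1)) : ℕ) - 1)
        = (i : ℕ) := by
      rw [val_succ]
      by_cases h : (i : ℕ) = n
      · simp [h]
      · simp [h]
    rcases hV (i + 1 : Fin (n + 1)) (i + 1 : Fin (n + 1)).2 with ⟨h1, h2⟩ | ⟨h1, h2⟩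
    · left
      refine ⟨Fin.ext ?_, Fin.ext ?_⟩
      · rw [V.eav, h1, hk]
      · rw [V.ebv, h2]
    · right
      refine ⟨Fin.ext ?_, Fin.ext ?_⟩
      · rw [V.eav, h2]
      · rw [V.ebv, h1, hk]

/-- The edges are long. -/
theorem len6 {n : ℕ} {A : SD} (V : A.Vals n n)
    (h : ∀ k < n + 1, 3 * ((A.e k).il - (A.e k).xl) + 3 * ((A.e k).xr - (A.e k).ir) <
      (A.e k).xr - (A.e k).xl) (e : Fin (n + 1)) :
    6 * (A.W n ((A.cb n n).lf e) + A.W n ((A.cb n n).rt e)) <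
      (A.Q n).1 ((A.cb n n).rt e) - (A.Q n).1 ((A.cb n n).lf e) := by
  have h1 : ((3 * ((A.e e).il - (A.e e).xl) + 3 * ((A.e e).xr - (A.e e).ir) : ℤ) : ℝ) <
      (((A.e e).xr - (A.e e).xl : ℤ) : ℝ) := by exact_mod_cast h e e.2
  push_cast at h1
  have h2 := V.il e
  have h3 := V.ir e
  have h4 := V.xl e
  have h5 := V.xr e
  rw [← h4, ← h5, ← h2, ← h3] at h1
  linarith

end STB

theorem t_STB (hCBL : Stmt_CBL) (hCB2 : Stmt_CB2) (hSTF : Stmt_STF) (hSVL : Stmt_SVL)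
    (hGOK : Stmt_GOK) (hGOC : Stmt_GOC) (hCYL : Stmt_CYL) (hKNT : Stmt_KNT) : Stmt_STB := by
  intro sh n A A' hA hA' hbg
  obtain ⟨hbnd, hbor, hilt, hieq, -, -, -, hallL, hallI, -, -, -⟩ := hCBL
  obtain ⟨-, -, hnif, -, -⟩ := hCB2
  have FA := hSTF n n A hA
  have VA := hSVL n n A FA
  unfold bgOK at hbg
  simp only [hbnd] at hbg
  obtain ⟨hgo, hv, -, hE, hV⟩ := hbg
  rw [hallL VS vs0] at hv
  rw [hallI ES es0] at hE
  rw [hallI VS vs0] at hV
  obtain ⟨go, -, -⟩ := hGOK n n 1 A A' hA hA' hgo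
  obtain ⟨-, h2⟩ := hGOC _ _ _ _ _ _ _ go
  have hcert : (A.cb n n).Cert (A.W n) (A.Q n) (A.V n) := by
    have h3 := h2 0 ⟨le_refl _, zero_le_one⟩
    rw [sub_zero, one_smul, zero_smul, add_zero] at h3
    exact h3
  have hvel : A.V n = (0, (A.Q n).2) := by
    apply STB.vel
    intro i hi
    have h3 := hv i (by rw [FA.lenV]; exact hi)
    simp only [hbnd, hieq] at h3
    exact h3
  have hE' : ∀ k < n + 1, ((((A.e k).lf = k ∧ (A.e k).rt = if k = n then 0 else k + 1) ∨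
      ((A.e k).rt = k ∧ (A.e k).lf = if k = n then 0 else k + 1)) ∧
      3 * ((A.e k).il - (A.e k).xl) + 3 * ((A.e k).xr - (A.e k).ir) <
        (A.e k).xr - (A.e k).xl) := by
    intro k hk
    have h3 := hE k (by rw [FA.lenE]; exact hk)
    simp only [hbnd, hbor, hilt, hnif, Nat.beq_eq] at h3
    exact h3
  have hV' : ∀ k < n + 1, ((A.v k).ea = (if k = 0 then n else k - 1) ∧ (A.v k).eb = k) ∨
      ((A.v k).eb = (if k = 0 then n else k - 1) ∧ (A.v k).ea = k) := by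
    intro k hk
    have h3 := hV k (by rw [FA.lenV]; exact hk)
    simp only [hbnd, hbor, hnif, Nat.beq_eq] at h3
    exact h3
  rw [hvel] at hcert
  obtain ⟨Λ, hΛ⟩ := hKNT sh (A.cb n n) (A.W n) (A.Q n) VA.valid
    (STB.cyc VA (fun k hk => (hE' k hk).1) hV') VA.wpos hcert
    (STB.len6 VA (fun k hk => (hE' k hk).2))
  refine ⟨Λ, hΛ, ?_⟩
  have h4 := hCYL sh (A.cb n n) (A.W n) (A.Q n) VA.valid VA.wpos hcert
  show At Λ.carrier sh (A.cb n n) (A.W n) (A.Q n) (A.V n) (((1 : ℤ)) : ℝ)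
  rw [hΛ, hvel, Int.cast_one]
  exact h4

end LCA
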