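import Pool.Agent.LCA.Stmts5

/-!
# Part A: folds, the checker
-/

namespace LCA

open Set Filter
open scoped ContDiff Topology

namespace STD

variable {m n : ℕ}

/-- The states at the two ends of a motion with constant velocities. -/
theorem linEnd (Q V : St n) (t : ℝ) : lin Q V t (t + 1) = Q + (1 : ℝ) • V := by
  simp [lin]

/-- The difference of the slopes at a vertex does not vanish during the motion. -/
theorem dlNe (hLNP : Stmt_LNP) (c : Comb m n) (w : Fin n → ℝ) (Q Q' V' : St n) (i : Fin n)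
    (hw : ∀ i, 0 < w i) (hlin : c.Lin 1 Q Q' V')
    (hcert : ∀ s ∈ Icc (0 : ℝ) 1, c.Cert w (Q + s • V') V')
    (hs : (0 < c.dl Q i ∧ 0 < c.dl Q' i) ∨ (c.dl Q i < 0 ∧ c.dl Q' i < 0)) :
    ∀ s ∈ Icc (0 : ℝ) 1, c.dl (Q + s • V') i ≠ 0 := by
  have key : ∀ s ∈ Icc (0 : ℝ) 1, c.dl (Q + s • V') i = c.dl Q' i +
      (s - 1) * (c.dpe Q' V' (c.eb i) - c.dpe Q' V' (c.ea i)) := by
    intro s hs
    have hl : ∀ e, (Q + s • V').1 (c.lf e) < (Q + s • V').1 (c.rt e) := by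
      intro e
      have h1 := (hcert s hs).len e
      have h2 := hw (c.lf e)
      have h3 := hw (c.rt e)
      linarith
    have ha := (hLNP c 1 Q Q' V' hlin (c.ea i) s (hl _)).1
    have hb := (hLNP c 1 Q Q' V' hlin (c.eb i) s (hl _)).1
    unfold Comb.dl
    rw [ha, hb]
    ring
  have h0 : c.dl Q i = c.dl Q' i - (c.dpe Q' V' (c.eb i) - c.dpe Q' V' (c.ea i)) := by
    have h := key 0 ⟨le_refl _, zero_le_one⟩
    rw [zero_smul, add_zero] at h
    rw [h]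
    ring
  intro s hsI
  rw [key s hsI]
  obtain ⟨s0, s1⟩ := hsI
  set D := c.dpe Q' V' (c.eb i) - c.dpe Q' V' (c.ea i)
  set R := c.dl Q' i
  have hcomb : R + (s - 1) * D = (1 - s) * c.dl Q i + s * R := by
    rw [h0]
    ring
  rw [hcomb]
  rcases hs with ⟨ha, hb⟩ | ⟨ha, hb⟩
  · have h1 : 0 ≤ (1 - s) * c.dl Q i := mul_nonneg (by linarith) ha.le
    have h2 : 0 ≤ s * R := mul_nonneg s0 hb.le
    intro h
    have h3 : (1 - s) * c.dl Q i = 0 := by linarith
    have h4 : s * R = 0 := by linarith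
    rcases mul_eq_zero.1 h3 with h5 | h5
    · rcases mul_eq_zero.1 h4 with h6 | h6
      · linarith
      · linarith
    · linarith
  · have h1 : (1 - s) * c.dl Q i ≤ 0 := mul_nonpos_of_nonneg_of_nonpos (by linarith) ha.le
    have h2 : s * R ≤ 0 := mul_nonpos_of_nonneg_of_nonpos s0 hb.le
    intro h
    have h3 : (1 - s) * c.dl Q i = 0 := by linarith
    have h4 : s * R = 0 := by linarith
    rcases mul_eq_zero.1 h3 with h5 | h5
    · rcases mul_eq_zero.1 h4 with h6 | h6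
      · linarith
      · linarith
    · linarith

/-- The sign of the difference of the slopes. -/
theorem sgn (hCBL : Stmt_CBL) (m n i : ℕ) (A A' : SD) (hi : i < n + 1) (hA : A.Vals m n)
    (hA' : A'.Vals m n) (hcb : A.cb m n = A'.cb m n) (hS : fdS i A A' = true) :
    (0 < (A.cb m n).dl (A.Q n) (Fin.ofNat (n + 1) i) ∧
      0 < (A.cb m n).dl (A'.Q n) (Fin.ofNat (n + 1) i)) ∨
    ((A.cb m n).dl (A.Q n) (Fin.ofNat (n + 1) i) < 0 ∧
      (A.cb m n).dl (A'.Q n) (Fin.ofNat (n + 1) i) < 0) := by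
  obtain ⟨hbnd, hbor, hilt, -⟩ := hCBL
  have hval : ((Fin.ofNat (n + 1) i : Fin (n + 1)) : ℕ) = i := by
    simp [Fin.ofNat, Nat.mod_eq_of_lt hi]
  have a1 := hA.pea (Fin.ofNat (n + 1) i)
  have a2 := hA.peb (Fin.ofNat (n + 1) i)
  have b1 := hA'.pea (Fin.ofNat (n + 1) i)
  have b2 := hA'.peb (Fin.ofNat (n + 1) i)
  rw [hval] at a1 a2 b1 b2
  rw [← hcb] at b1 b2
  unfold fdS at hS
  rw [hbor, hbnd, hbnd, hilt, hilt, hilt, hilt] at hS
  unfold Comb.dl
  rw [a1, a2, b1, b2]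
  rcases hS with ⟨h1, h2⟩ | ⟨h1, h2⟩
  · left
    have h1' : ((A.v i).pa : ℝ) < ((A.v i).pb : ℝ) := by exact_mod_cast h1
    have h2' : ((A'.v i).pa : ℝ) < ((A'.v i).pb : ℝ) := by exact_mod_cast h2
    constructor <;> linarith
  · right
    have h1' : ((A.v i).pb : ℝ) < ((A.v i).pa : ℝ) := by exact_mod_cast h1
    have h2' : ((A'.v i).pb : ℝ) < ((A'.v i).pa : ℝ) := by exact_mod_cast h2
    constructor <;> linarith

end STD

open STD in
/-- STD. -/
theorem t_STD (hFDR : Stmt_FDR) (hFDC : Stmt_FDC) (hMVR : Stmt_MVR) (hSTF : Stmt_STF)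
    (hSVL : Stmt_SVL) (hGOK : Stmt_GOK) (hGOC : Stmt_GOC) (hFLD : Stmt_FLD) (hCBL : Stmt_CBL)
    (hLNP : Stmt_LNP) : Stmt_STD := by
  intro K sh m n m' n' t ιE κE ιV κV i e j A A' hA hA' hgo hmv hS
  have fA := hSTF m n A hA
  have fA' := hSTF m n A' hA'
  have vA := hSVL m n A fA
  have vA' := hSVL m n A' fA'
  obtain ⟨hGo, hcb, hW⟩ := hGOK m n 1 A A' hA hA' hgo
  obtain ⟨-, -, hV, hQ⟩ := (hMVR m n A A' fA fA').1 1 hmv
  have hGo1 : (A.cb m n).Go (A.W n) 1 (A.Q n) (A.V n) (A'.Q n) (A'.V n) := by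
    have h := hGo
    rw [Int.cast_one] at h
    exact h
  rw [Int.cast_one, one_smul] at hQ
  have hc := (hGOC (A.cb m n) (A.W n) 1 (A.Q n) (A.V n) (A'.Q n) (A'.V n) hGo1).1
  have hcert : ∀ s ∈ Icc (t : ℝ) (t + 1), (A.cb m n).Cert (A.W n) (lin (A.Q n) (A.V n) t s)
      (A.V n) := by
    intro s hs
    have h := hc (s - t) ⟨by linarith [hs.1], by linarith [hs.2]⟩
    rw [hV] at h
    exact h
  have hdl : i < n + 1 → ∀ s ∈ Icc (t : ℝ) (t + 1),
      (A.cb m n).dl (lin (A.Q n) (A.V n) t s) (Fin.ofNat (n + 1) i) ≠ 0 := by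
    intro hi s hs
    have h := dlNe hLNP (A.cb m n) (A.W n) (A.Q n) (A'.Q n) (A'.V n) (Fin.ofNat (n + 1) i)
      vA.wpos hGo1.lin hc (sgn hCBL m n i A A' hi vA vA' hcb hS) (s - t)
      ⟨by linarith [hs.1], by linarith [hs.2]⟩
    rw [hV] at h
    exact h
  have hend : lin (A.Q n) (A.V n) t ((t : ℝ) + 1) = A'.Q n := by
    rw [linEnd, one_smul, hQ]
  constructor
  · intro B hB hfd hAt
    have fB := hSTF m' n' B hB
    have vB := hSVL m' n' B fB
    obtain ⟨hi, hcomb, hst⟩ := hFDC m n m' n' ιE κE ιV κV i e j A' B fA' fB vA' vB hfd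
    have hfl := vA'.fl
    have hfr := vA'.fr
    rw [← hcb] at hcomb hst hfl hfr
    rw [← hW] at hst
    have hfold : ∀ s : ℝ, (∀ d, 2 * (A.W n ((A.cb m n).lf d) + A.W n ((A.cb m n).rt d)) <
        (lin (A.Q n) (A.V n) t s).1 ((A.cb m n).rt d) -
          (lin (A.Q n) (A.V n) t s).1 ((A.cb m n).lf d)) →
        FoldSt (A.cb m n) (B.cb m' n') (ixf n n' ιV) (Fin.ofNat (n + 1) i)
          (Fin.ofNat (n' + 1) j) (A.W n) (B.W n') (lin (A.Q n) (A.V n) t s) (A.V n)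
          (lin (B.Q n' - B.V n') (B.V n') t s) (B.V n') := by
      intro s hlen
      have e1 : A'.Q n + (s - t - 1) • A'.V n = lin (A.Q n) (A.V n) t s := by
        rw [hV, hQ]
        unfold lin
        module
      have e2 : B.Q n' + (s - t - 1) • B.V n' = lin (B.Q n' - B.V n') (B.V n') t s := by
        unfold lin
        module
      have h := hFDR (A.cb m n) (B.cb m' n') (ixf m m' ιE) (ixf n n' ιV) (Fin.ofNat (n + 1) i)
        (Fin.ofNat (m' + 1) e) (Fin.ofNat (n' + 1) j) (A.W n) (B.W n') (A'.Q n) (A'.V n)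
        (B.Q n') (B.V n') (s - t - 1) hcomb hst hfl hfr vA.wpos (by rw [e1]; exact hlen)
      rw [e1, e2, hV] at h
      exact h
    have h := (hFLD K sh (A.cb m n) (B.cb m' n') (ixf m m' ιE) (ixf n n' ιV)
      (Fin.ofNat (n + 1) i) (Fin.ofNat (m' + 1) e) (Fin.ofNat (n' + 1) j) (A.W n) (B.W n')
      (A.Q n) (A.V n) (B.Q n' - B.V n') (B.V n') t hcomb vA.wpos hcert (hdl hi) hfold).1 hAt
    rw [linEnd, one_smul, sub_add_cancel] at h
    unfold AtD
    rw [Int.cast_add, Int.cast_one]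
    exact h
  · intro B hB hfd hAt
    have fB := hSTF m' n' B hB
    have vB := hSVL m' n' B fB
    obtain ⟨hi, hcomb, hst⟩ := hFDC m n m' n' ιE κE ιV κV i e j A B fA fB vA vB hfd
    have hfold : ∀ s : ℝ, (∀ d, 2 * (A.W n ((A.cb m n).lf d) + A.W n ((A.cb m n).rt d)) <
        (lin (A.Q n) (A.V n) t s).1 ((A.cb m n).rt d) -
          (lin (A.Q n) (A.V n) t s).1 ((A.cb m n).lf d)) →
        FoldSt (A.cb m n) (B.cb m' n') (ixf n n' ιV) (Fin.ofNat (n + 1) i)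
          (Fin.ofNat (n' + 1) j) (A.W n) (B.W n') (lin (A.Q n) (A.V n) t s) (A.V n)
          (lin (B.Q n') (B.V n') t s) (B.V n') := by
      intro s hlen
      exact hFDR (A.cb m n) (B.cb m' n') (ixf m m' ιE) (ixf n n' ιV) (Fin.ofNat (n + 1) i)
        (Fin.ofNat (m' + 1) e) (Fin.ofNat (n' + 1) j) (A.W n) (B.W n') (A.Q n) (A.V n)
        (B.Q n') (B.V n') (s - t) hcomb hst vA.fl vA.fr vA.wpos hlen
    have h := (hFLD K sh (A.cb m n) (B.cb m' n') (ixf m m' ιE) (ixf n n' ιV)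
      (Fin.ofNat (n + 1) i) (Fin.ofNat (m' + 1) e) (Fin.ofNat (n' + 1) j) (A.W n) (B.W n')
      (A.Q n) (A.V n) (B.Q n') (B.V n') t hcomb vA.wpos hcert (hdl hi) hfold).2 hAt
    rw [hend] at h
    unfold AtD
    rw [Int.cast_add, Int.cast_one, ← hcb, ← hW, hV]
    exact h

end LCA
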