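import Pool.Agent.LCA.Stmts4

/-!
# STF: the facts given by `stOK`
-/

namespace LCA

open Set Filter
open scoped ContDiff Topology

namespace STF

theorem iadd (a b : ℤ) : Int.add a b = a + b := rfl
theorem isub (a b : ℤ) : Int.sub a b = a - b := rfl
theorem imul (a b : ℤ) : Int.mul a b = a * b := rfl

/-- The facts on an edge. -/
structure FE (n k : ℕ) (f : ES) (a b : VS) : Prop where
  lf : f.lf < n + 1
  rt : f.rt < n + 1
  xl : f.xl = a.x
  xr : f.xr = b.x
  il : f.il = a.jr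
  ir : f.ir = b.jl
  il_ir : f.il < f.ir
  p : f.p * (f.xr - f.xl) = b.F - a.F
  dp : f.dp * (f.xr - f.xl) = b.dF - a.dF - f.p * (b.dx - a.dx)
  da : f.da = a.dF - f.dp * f.xl - f.p * a.dx
  fl : f.dp * a.dx = 0
  fr : f.dp * b.dx = 0
  re : ((b.ty = 0 ∨ b.ty = 1) ∧ b.ea = k) ∨ (b.ty = 1 ∧ b.eb = k)
  le : (a.ty = 2 ∧ a.ea = k) ∨ ((a.ty = 0 ∨ a.ty = 2) ∧ a.eb = k)

/-- The facts on a vertex. -/
structure FV (m k : ℕ) (a : VS) (f g : ES) : Prop where
  ea : a.ea < m + 1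
  eb : a.eb < m + 1
  ty : a.ty = 0 ∨ a.ty = 1 ∨ a.ty = 2
  w : 0 < a.w
  jl : a.jl = a.x - 2 * a.w
  jr : a.jr = a.x + 2 * a.w
  pa : a.pa = f.p
  pb : a.pb = g.p
  lo : a.lo = min a.pa a.pb
  hi : a.hi = max a.pa a.pb
  er : a.er = 2 * |f.dp| + 2 * |g.dp - f.dp|
  tip : a.ty = 0 ∨ a.lo < a.hi
  ne : a.ea ≠ a.eb
  oa : ((a.ty = 0 ∨ a.ty = 1) ∧ f.rt = k) ∨ (a.ty = 2 ∧ f.lf = k)
  ob : ((a.ty = 0 ∨ a.ty = 2) ∧ g.lf = k) ∨ (a.ty = 1 ∧ g.rt = k)

theorem notb (b : Bool) : (Bool.rec true false b : Bool) = true ↔ b = false := by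
  cases b <;> simp

theorem fe (hCBL : Stmt_CBL) {n k : ℕ} {f : ES} {a b : VS} (h : okE n k f a b = true) :
    FE n k f a b := by
  obtain ⟨hb, ho, hlt, heq, -⟩ := hCBL
  unfold okE at h
  simp only [hb, ho, hlt, heq, Nat.ble_eq, Nat.beq_eq, isub, imul] at h
  obtain ⟨h1, h2, h3, h4, h5, h6, h7, h8, h9, h10, h11, h12, h13, h14⟩ := h
  exact ⟨by omega, by omega, h3, h4, h5, h6, h7, h8, h9, h10, h11, h12, h13, h14⟩

theorem fv (hCBL : Stmt_CBL) {m k : ℕ} {a : VS} {f g : ES} (h : okV m k a f g = true) :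
    FV m k a f g := by
  obtain ⟨hb, ho, hlt, heq, hmax, hmin, habs, -⟩ := hCBL
  unfold okV at h
  simp only [hb, ho, hlt, heq, hmax, hmin, habs, notb, Nat.ble_eq, Nat.beq_eq, isub, imul,
    iadd] at h
  obtain ⟨h1, h2, h3, h4, h5, h6, h7, h8, h9, h10, h11, h12, h13, h14, h15⟩ := h
  refine ⟨by omega, by omega, h3, h4, h5, h6, h7, h8, h9, h10, h11, h12, ?_, h14, h15⟩
  intro e
  rw [e] at h13
  have : Nat.beq a.eb a.eb = true := by rw [Nat.beq_eq]
  rw [this] at h13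
  exact absurd h13 (by decide)

theorem vlf {m n : ℕ} {S : SD} (e : Fin (m + 1)) (h : (S.e e).lf < n + 1) :
    (((S.cb m n).lf e : Fin (n + 1)) : ℕ) = (S.e e).lf := Nat.mod_eq_of_lt h

theorem vrt {m n : ℕ} {S : SD} (e : Fin (m + 1)) (h : (S.e e).rt < n + 1) :
    (((S.cb m n).rt e : Fin (n + 1)) : ℕ) = (S.e e).rt := Nat.mod_eq_of_lt h

theorem vea {m n : ℕ} {S : SD} (i : Fin (n + 1)) (h : (S.v i).ea < m + 1) :
    (((S.cb m n).ea i : Fin (m + 1)) : ℕ) = (S.v i).ea := Nat.mod_eq_of_lt h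

theorem veb {m n : ℕ} {S : SD} (i : Fin (n + 1)) (h : (S.v i).eb < m + 1) :
    (((S.cb m n).eb i : Fin (m + 1)) : ℕ) = (S.v i).eb := Nat.mod_eq_of_lt h

theorem cty {m n : ℕ} {S : SD} (i : Fin (n + 1)) : (S.cb m n).ty i = tyOf (S.v i).ty := rfl

theorem ty0 : tyOf 0 = .P := rfl
theorem ty1 : tyOf 1 = .R := rfl
theorem ty2 : tyOf 2 = .L := rfl

theorem valid {m n : ℕ} {S : SD}
    (hE : ∀ e < m + 1, FE n e (S.e e) (S.v (S.e e).lf) (S.v (S.e e).rt))
    (hV : ∀ i < n + 1, FV m i (S.v i) (S.e (S.v i).ea) (S.e (S.v i).eb)) :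
    (S.cb m n).Valid := by
  have elf : ∀ e : Fin (m + 1), (((S.cb m n).lf e : Fin (n + 1)) : ℕ) = (S.e e).lf :=
    fun e => vlf e (hE e e.2).lf
  have ert : ∀ e : Fin (m + 1), (((S.cb m n).rt e : Fin (n + 1)) : ℕ) = (S.e e).rt :=
    fun e => vrt e (hE e e.2).rt
  have eea : ∀ i : Fin (n + 1), (((S.cb m n).ea i : Fin (m + 1)) : ℕ) = (S.v i).ea :=
    fun i => vea i (hV i i.2).ea
  have eeb : ∀ i : Fin (n + 1), (((S.cb m n).eb i : Fin (m + 1)) : ℕ) = (S.v i).eb :=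
    fun i => veb i (hV i i.2).eb
  refine ⟨fun i => ?_, fun i => ?_, fun i => ?_, fun e => ?_, fun e => ?_⟩
  · unfold Comb.OKa
    rw [cty]
    rcases (hV i i.2).oa with ⟨h0 | h1, h⟩ | ⟨h2, h⟩
    · rw [h0, ty0]
      apply Fin.ext
      rw [ert, eea, h]
    · rw [h1, ty1]
      apply Fin.ext
      rw [ert, eea, h]
    · rw [h2, ty2]
      apply Fin.ext
      rw [elf, eea, h]
  · unfold Comb.OKb
    rw [cty]
    rcases (hV i i.2).ob with ⟨h0 | h1, h⟩ | ⟨h2, h⟩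
    · rw [h0, ty0]
      apply Fin.ext
      rw [elf, eeb, h]
    · rw [h1, ty2]
      apply Fin.ext
      rw [elf, eeb, h]
    · rw [h2, ty1]
      apply Fin.ext
      rw [ert, eeb, h]
  · intro h
    apply (hV i i.2).ne
    rw [← eea, ← eeb, h]
  · rw [cty, ert]
    rcases (hE e e.2).re with ⟨h0 | h1, h⟩ | ⟨h2, h⟩
    · left
      rw [h0, ty0]
      refine ⟨by decide, ?_⟩
      apply Fin.ext
      rw [eea, ert, h]
    · left
      rw [h1, ty1]
      refine ⟨by decide, ?_⟩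
      apply Fin.ext
      rw [eea, ert, h]
    · right
      rw [h2, ty1]
      refine ⟨rfl, ?_⟩
      apply Fin.ext
      rw [eeb, ert, h]
  · rw [cty, elf]
    rcases (hE e e.2).le with ⟨h2, h⟩ | ⟨h0 | h1, h⟩
    · left
      rw [h2, ty2]
      refine ⟨rfl, ?_⟩
      apply Fin.ext
      rw [eea, elf, h]
    · right
      rw [h0, ty0]
      refine ⟨by decide, ?_⟩
      apply Fin.ext
      rw [eeb, elf, h]
    · right
      rw [h1, ty2]
      refine ⟨by decide, ?_⟩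
      apply Fin.ext
      rw [eeb, elf, h]

end STF

theorem t_STF (hCBL : Stmt_CBL) : Stmt_STF := by
  intro m n S h
  obtain ⟨hb, -, -, -, -, -, -, -, hI, -⟩ := id hCBL
  unfold stOK at h
  simp only [hb, hI ES es0, hI VS vs0, Nat.beq_eq] at h
  obtain ⟨h1, h2, h3, h4⟩ := h
  have hE : ∀ e < m + 1, STF.FE n e (S.e e) (S.v (S.e e).lf) (S.v (S.e e).rt) := fun e he =>
    STF.fe hCBL (h3 e (by omega))
  have hV : ∀ i < n + 1, STF.FV m i (S.v i) (S.e (S.v i).ea) (S.e (S.v i).eb) := fun i hi =>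
    STF.fv hCBL (h4 i (by omega))
  exact
    { lenE := h1
      lenV := h2
      lf := fun e he => (hE e he).lf
      rt := fun e he => (hE e he).rt
      ea := fun i hi => (hV i hi).ea
      eb := fun i hi => (hV i hi).eb
      xl := fun e he => (hE e he).xl
      xr := fun e he => (hE e he).xr
      il := fun e he => by rw [(hE e he).il, (hV _ (hE e he).lf).jr]
      ir := fun e he => by rw [(hE e he).ir, (hV _ (hE e he).rt).jl]
      il_ir := fun e he => (hE e he).il_ir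
      jl := fun i hi => (hV i hi).jl
      jr := fun i hi => (hV i hi).jr
      w := fun i hi => (hV i hi).w
      ty := fun i hi => (hV i hi).ty
      tip := fun i hi => (hV i hi).tip
      pa := fun i hi => (hV i hi).pa
      pb := fun i hi => (hV i hi).pb
      lo := fun i hi => (hV i hi).lo
      hi := fun i hi => (hV i hi).hi
      er := fun i hi => (hV i hi).er
      p := fun e he => (hE e he).p
      dp := fun e he => (hE e he).dp
      da := fun e he => (hE e he).da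
      fl := fun e he => (hE e he).fl
      fr := fun e he => (hE e he).fr
      valid := STF.valid hE hV }

end LCA
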