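import Pool.Agent.LCA.Stmts4

/-!
# Part A, STG: a change of the velocities and a linear motion, checked on the data
-/

namespace LCA

open Set Filter
open scoped ContDiff Topology

/-- STG. -/
theorem t_STG (hSWI : Stmt_SWI) (hGOC : Stmt_GOC) (hGOK : Stmt_GOK) : Stmt_STG := by
  intro K sh m n T t A B hA hB hgo hat
  obtain ⟨go, hcb, hw⟩ := hGOK m n T A B hA hB hgo
  obtain ⟨h1, h2⟩ := hGOC _ _ _ _ _ _ _ go
  have hT : (0 : ℝ) < (T : ℝ) := go.lin.pos
  have hat' : At K sh (A.cb m n) (A.W n) (A.Q n) (A.V n) (t : ℝ) := hat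
  have h := hSWI K sh (A.cb m n) (A.W n) (A.Q n) (A.V n) (B.V n) (t : ℝ) ((t : ℝ) + (T : ℝ))
    go.valid go.wpos hat' (by linarith) h2 (by
      intro s hs
      have h3 := h1 (s - t) ⟨by linarith [hs.1], by linarith [hs.2]⟩
      exact h3)
  have hlin : lin (A.Q n) (B.V n) (t : ℝ) ((t : ℝ) + (T : ℝ)) = B.Q n := by
    have h4 : lin (A.Q n) (B.V n) (t : ℝ) ((t : ℝ) + (T : ℝ))
        = A.Q n + ((t : ℝ) + (T : ℝ) - (t : ℝ)) • B.V n := rfl
    rw [h4, add_sub_cancel_left]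
    exact go.lin.move.symm
  rw [hlin, hcb, hw] at h
  have h5 : AtD K sh m n B (t + T) = At K sh (B.cb m n) (B.W n) (B.Q n) (B.V n) ((t + T : ℤ) : ℝ) := rfl
  rw [h5, Int.cast_add]
  exact h

end LCA
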