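import Pool.Agent.LCA.Stmts5

/-!
# Part A: insertion and removal of a trivial vertex (the checker)
-/

namespace LCA

open Set Filter
open scoped ContDiff Topology

theorem t_STI (hINR : Stmt_INR) (hINC : Stmt_INC) (hSTF : Stmt_STF) (hSVL : Stmt_SVL) :
    Stmt_STI := by
  intro K sh m n m' n' t ιE κE ιV κV e₀ e j A B hA hB hin
  have fA := hSTF m n A hA
  have fB := hSTF m' n' B hB
  have vA := hSVL m n A fA
  have vB := hSVL m' n' B fB
  obtain ⟨h1, h2, h3, h4, h5⟩ := hINC m n m' n' ιE κE ιV κV e₀ e j A B fA fB vA vB hin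
  exact hINR K sh _ _ _ _ _ _ _ _ _ _ _ _ _ (t : ℝ) h1 vA.wpos h2 h3 h4 (vA.fl _) (vA.fr _) h5

end LCA
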