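import Pool.Agent.LCA.Stmts5

/-!
# Part A: STM, a saddle, two passes become two tips
-/

namespace LCA

open Set Filter
open scoped ContDiff Topology

theorem t_STM (hSDR : Stmt_SDR) (hSDM : Stmt_SDM) (hMVR : Stmt_MVR) (hSTF : Stmt_STF) :
    Stmt_STM := by
  intro K sh m n t L R H₁ H₂ H₃ H₄ E A B C C' A' B' hA hB hC hC' hA' hB' hsd hnA hnB ht hAt
  obtain ⟨hS, h8, hcb, hW, hV, hQ⟩ := hSDR m n L R H₁ H₂ H₃ H₄ E A B C C' ((t : ℝ) + 1)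
    hA hB hC hC' hsd
  obtain ⟨a1, a2, a3, a4⟩ := (hMVR m n A A' (hSTF m n A hA) (hSTF m n A' hA')).2.1 hnA
  obtain ⟨b1, b2, b3, b4⟩ := (hMVR m n B B' (hSTF m n B hB) (hSTF m n B' hB')).2.1 hnB
  have ht' : (2 : ℝ) ≤ (t : ℝ) := by exact_mod_cast ht
  have hs0 : (E.ev ((t : ℝ) + 1)).s₀ = (t : ℝ) + 1 := rfl
  have hrv : 8 * (E.ev ((t : ℝ) + 1)).r / (E.ev ((t : ℝ) + 1)).v = (8 * E.r / E.v : ℝ) := rfl
  have key := hSDM K sh (A.cb m n) (C.cb m n) (A.W n) (Fin.ofNat (n + 1) L) (Fin.ofNat (n + 1) R)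
    (Fin.ofNat (m + 1) H₁) (Fin.ofNat (m + 1) H₂) (Fin.ofNat (m + 1) H₃)
    (Fin.ofNat (m + 1) H₄) (E.ev ((t : ℝ) + 1)) (A.Q n + A.V n) (A.V n) (C.V n) 2 (t : ℝ)
    ((t : ℝ) + 2) hS (by rw [hs0]; linarith) (by rw [hs0, hrv]; linarith)
    (by rw [hs0, hrv]; linarith) (by rw [hs0]; linarith) (by rw [hs0]; linarith)
  have e1 : lin (A.Q n + A.V n) (-(C.V n)) (E.ev ((t : ℝ) + 1)).s₀ (t : ℝ) = B'.Q n := by
    rw [b4, hQ, hs0]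
    unfold lin
    have : (t : ℝ) - ((t : ℝ) + 1) = -1 := by ring
    rw [this, smul_neg, neg_smul, one_smul, neg_neg]
  have e2 : lin (A.Q n + A.V n) (-(A.V n)) (E.ev ((t : ℝ) + 1)).s₀ ((t : ℝ) + 2) = A'.Q n := by
    rw [a4, hs0]
    unfold lin
    have : (t : ℝ) + 2 - ((t : ℝ) + 1) = 1 := by ring
    rw [this, one_smul, add_neg_cancel_right]
  have h1 : At K sh (C.cb m n) (A.W n) (B'.Q n) (B'.V n) (t : ℝ) := by
    have h2 : At K sh (B'.cb m n) (B'.W n) (B'.Q n) (B'.V n) (t : ℝ) := hAt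
    rw [← b1, ← b2, hcb, hW] at h2
    exact h2
  have h3 : -(C.V n) = B'.V n := by rw [b3, hV]
  rw [e1, e2, h3, ← a3] at key
  have h4 := key h1
  show At K sh (A'.cb m n) (A'.W n) (A'.Q n) (A'.V n) ((t + 2 : ℤ) : ℝ)
  rw [← a1, ← a2]
  push_cast
  exact h4

end LCA
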