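import Pool.Agent.LCA.Stmts5

/-!
# Part A: STS, a saddle where two tips become two passes
-/

namespace LCA

open Set Filter
open scoped ContDiff Topology

/-- STS. -/
theorem t_STS (hSDR : Stmt_SDR) (hSDP : Stmt_SDP) : Stmt_STS := by
  intro K sh m n t L R H₁ H₂ H₃ H₄ E A B C C' hA hB hC hC' hsd ht hAt
  obtain ⟨hS, hr, hcb, hW, hV, hQ⟩ := hSDR m n L R H₁ H₂ H₃ H₄ E A B C C' ((t : ℝ) + 1)
    hA hB hC hC' hsd
  have ht2 : (2 : ℝ) ≤ (t : ℝ) := by exact_mod_cast ht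
  have hs0 : (E.ev ((t : ℝ) + 1)).s₀ = (t : ℝ) + 1 := rfl
  have hr0 : (E.ev ((t : ℝ) + 1)).r = (E.r : ℝ) := rfl
  have hv0 : (E.ev ((t : ℝ) + 1)).v = (E.v : ℝ) := rfl
  have key := hSDP K sh _ _ _ _ _ _ _ _ _ _ _ _ _ 2 (t : ℝ) ((t : ℝ) + 2) hS
    (by rw [hs0]; linarith) (by rw [hs0, hr0, hv0]; linarith) (by rw [hs0, hr0, hv0]; linarith)
    (by rw [hs0]; linarith) (by rw [hs0]; linarith)
  have h1 : lin (A.Q n + A.V n) (A.V n) (E.ev ((t : ℝ) + 1)).s₀ (t : ℝ) = A.Q n := by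
    rw [hs0]
    unfold lin
    have : ((t : ℝ) - ((t : ℝ) + 1)) = -1 := by ring
    rw [this]
    simp
  have h2 : lin (A.Q n + A.V n) (C.V n) (E.ev ((t : ℝ) + 1)).s₀ ((t : ℝ) + 2) = B.Q n := by
    rw [hs0, hQ]
    unfold lin
    have : (((t : ℝ) + 2) - ((t : ℝ) + 1)) = 1 := by ring
    rw [this, one_smul]
  rw [h1, h2] at key
  have h3 := key hAt
  unfold AtD
  rw [hcb, hW, hV]
  push_cast
  exact h3

end LCA
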