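import Pool.Agent.LCA.Stmts5

/-!
# Part A, STV: change of the widths
-/

namespace LCA

open Set Filter
open scoped ContDiff Topology

theorem t_STV (hMVR : Stmt_MVR) (hSTF : Stmt_STF) (hSVL : Stmt_SVL) (hGOK : Stmt_GOK)
    (hGOC : Stmt_GOC) (hWID : Stmt_WID) : Stmt_STV := by
  intro K sh m n t A A' hA hA' hgo hmv
  have fA := hSTF m n A hA
  have fA' := hSTF m n A' hA'
  obtain ⟨hcb, hW, hV, hQ⟩ := (hMVR m n A A' fA fA').1 1 hmv
  obtain ⟨G, -, -⟩ := hGOK m n 1 A A' hA hA' hgo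
  have C := (hGOC _ _ _ _ _ _ _ G).1
  have C' : ∀ s ∈ Icc (t : ℝ) (t + 1),
      (A.cb m n).Cert (A.W n) (lin (A.Q n) (A.V n) t s) (A.V n) := by
    intro s hs
    have h := C (s - t) ⟨by linarith [hs.1], by push_cast; linarith [hs.2]⟩
    rw [hV] at h
    exact h
  have hlin : lin (A.Q n) (A.V n) (t : ℝ) ((t : ℝ) + 1) = A'.Q n := by
    rw [hQ, lin]
    push_cast
    congr 2
    ring
  have ht : ((t + 1 : ℤ) : ℝ) = (t : ℝ) + 1 := by push_cast; ring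
  refine ⟨fun B hB hw h => ?_, fun B hB hw h => ?_⟩
  · obtain ⟨hcb', hW', hV', hQ'⟩ := (hMVR m n A' B fA' (hSTF m n B hB)).2.2.1 hw
    have vB := hSVL m n B (hSTF m n B hB)
    have h1 := (hWID K sh (A.cb m n) (A.W n) (B.W n) (A.Q n) (A.V n) (t : ℝ) G.valid vB.wpos
      (fun i => by rw [hW]; exact hW' i) C').1 h
    unfold AtD
    rw [ht, ← hcb', ← hcb, hQ', hV', hV, ← hlin]
    exact h1
  · obtain ⟨hcb', hW', hV', hQ'⟩ := (hMVR m n A B fA (hSTF m n B hB)).2.2.1 hw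
    have vB := hSVL m n B (hSTF m n B hB)
    unfold AtD at h
    rw [← hcb', hQ', hV'] at h
    have h1 := (hWID K sh (A.cb m n) (A.W n) (B.W n) (A.Q n) (A.V n) (t : ℝ) G.valid vB.wpos
      hW' C').2 h
    unfold AtD
    rw [ht, ← hcb, ← hW, hV, ← hlin]
    exact h1

end LCA
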