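import Pool.Agent.LCA.Stmts5

/-!
# Part A: exchange of the edges of a tip (module STW)
-/

set_option autoImplicit false

namespace LCA

open Set Filter
open scoped ContDiff Topology

namespace STW

theorem near {m n : ℕ} (c : Comb m n) (Q V : St n) (t : ℝ)
    (h : ∀ e, Q.1 (c.lf e) < Q.1 (c.rt e)) :
    ∃ η > 0, ∀ s ∈ Ioo (t - η) (t + η), ∀ e,
      (lin Q V t s).1 (c.lf e) < (lin Q V t s).1 (c.rt e) := by
  have h1 : ∀ i, Continuous fun s : ℝ => (lin Q V t s).1 i := by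
    intro i
    have h2 : (fun s : ℝ => (lin Q V t s).1 i) = fun s : ℝ => Q.1 i + (s - t) * V.1 i := by
      funext s
      simp [lin]
    rw [h2]
    fun_prop
  have h3 : ∀ᶠ s in 𝓝 t, ∀ e, (lin Q V t s).1 (c.lf e) < (lin Q V t s).1 (c.rt e) := by
    rw [eventually_all]
    intro e
    have h4 : (lin Q V t t).1 (c.lf e) < (lin Q V t t).1 (c.rt e) := by
      simpa [lin] using h e
    exact (h1 _).continuousAt.eventually_lt (h1 _).continuousAt h4
  obtain ⟨η, hη, h5⟩ := Metric.eventually_nhds_iff.1 h3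
  refine ⟨η, hη, fun s hs => h5 ?_⟩
  rw [Real.dist_eq, abs_lt]
  constructor
  · linarith [hs.1]
  · linarith [hs.2]

end STW

theorem t_STW (hMVR : Stmt_MVR) (hSTF : Stmt_STF) (hSVL : Stmt_SVL) (hSWP : Stmt_SWP)
    (hEQA : Stmt_EQA) : Stmt_STW := by
  intro K sh m n t i A B hA hB hsw hAt
  have FA := hSTF m n A hA
  have FB := hSTF m n B hB
  have VA := hSVL m n A FA
  obtain ⟨hC, hW, hV, hQ⟩ := (hMVR m n A B FA FB).2.2.2 i hsw
  unfold AtD at hAt ⊢
  rw [← hW, hV, hQ]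
  have hlen : ∀ e, (A.Q n).1 ((A.cb m n).lf e) < (A.Q n).1 ((A.cb m n).rt e) := by
    intro e
    have h1 := VA.len e
    have h2 := VA.wpos ((A.cb m n).lf e)
    have h3 := VA.wpos ((A.cb m n).rt e)
    linarith
  obtain ⟨η, hη, h4⟩ := STW.near (A.cb m n) (A.Q n) (A.V n) (t : ℝ) hlen
  exact hEQA K sh (A.cb m n) (A.W n) (A.Q n) (A.V n) (B.cb m n) (A.W n) (A.Q n) (A.V n) t η hη
    (fun s hs => (hSWP sh (A.cb m n) (B.cb m n) (A.W n) (Fin.ofNat (n + 1) i)
      (lin (A.Q n) (A.V n) t s) (A.V n) hC (h4 s hs)).2) hAt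

end LCA
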