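import Pool.Agent.LCA.Stmts5

/-!
# The maximum: soundness of the checker
-/

namespace LCA

open Set Filter
open scoped ContDiff Topology

namespace STX

lemma four (a b c d i : Fin 4) (h1 : a ≠ b) (h2 : a ≠ c) (h3 : a ≠ d) (h4 : b ≠ c) (h5 : b ≠ d)
    (h6 : c ≠ d) : i = a ∨ i = b ∨ i = c ∨ i = d := by
  rw [Fin.ext_iff, Fin.ext_iff, Fin.ext_iff, Fin.ext_iff]
  rw [Ne, Fin.ext_iff] at h1 h2 h3 h4 h5 h6
  omega

lemma val_ofNat (k : ℕ) (h : k < 4) : ((Fin.ofNat 4 k : Fin 4) : ℕ) = k :=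
  Nat.mod_eq_of_lt h

lemma ofNat_ne {k l : ℕ} (hk : k < 4) (hl : l < 4) (h : k ≠ l) :
    (Fin.ofNat 4 k : Fin 4) ≠ Fin.ofNat 4 l := by
  intro h'
  apply h
  have := congrArg (fun x : Fin 4 => (x : ℕ)) h'
  simpa only [val_ofNat k hk, val_ofNat l hl] using this

end STX

open STX in
theorem t_STX (hCBL : Stmt_CBL) (hCB2 : Stmt_CB2) (hSTF : Stmt_STF) (hSVL : Stmt_SVL)
    (hDTH : Stmt_DTH) : Stmt_STX := by
  intro K sh t lt rt pa pb H₁ H₂ H₃ H₄ E A hst hd hat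
  obtain ⟨hb, hbo, hlt, heq, hmax, hmin, habs, hall, -⟩ := hCBL
  obtain ⟨hnlt, hnne, -⟩ := hCB2
  have hF := hSTF 3 3 A hst
  unfold dtOK at hd
  simp only [hb, hlt, heq, hnlt, hnne, Nat.beq_eq, ED.ok, habs, hall VS vs0] at hd
  obtain ⟨⟨e1, e2, e3, e4, e5⟩, l1, l2, l3, l4, m1, m2, m3, m4, n1, n2, n3, n4, n5, n6, o1, o2, o3,
    o4, o5, o6, hA, y1, y2, y3, y4, a1, a2, a3, a4, a5, a6, a7, a8, v1, v2, v3, v4, f1, f2, f3,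
    f4⟩ := hd
  have q1 : (0 : ℝ) < (E.h : ℝ) := by exact_mod_cast e1
  have q2 : (0 : ℝ) < (E.v : ℝ) := by exact_mod_cast e2
  have q3 : (0 : ℝ) < (E.r : ℝ) := by exact_mod_cast e3
  have q4 : (8 : ℝ) * (E.r : ℝ) < (E.v : ℝ) := by
    have : (8 : ℤ) * E.r < E.v := e4
    exact_mod_cast this
  have q5 : |(E.P₂ : ℝ) - (E.P₁ : ℝ)| < 2 * (E.h : ℝ) := by
    have : |E.P₂ - E.P₁| < 2 * E.h := e5
    exact_mod_cast this
  have hA' : ∀ i : Fin 4, (A.v i).w = E.r ∧ (A.v i).x + (A.v i).dx = E.x ∧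
      (A.v i).F + (A.v i).dF = E.F := by
    intro i
    exact hA i (by rw [hF.lenV]; exact i.2)
  have hD : Death (A.cb 3 3) (A.W 3) (Fin.ofNat 4 lt) (Fin.ofNat 4 rt) (Fin.ofNat 4 pa)
      (Fin.ofNat 4 pb) (Fin.ofNat 4 H₁) (Fin.ofNat 4 H₂) (Fin.ofNat 4 H₃) (Fin.ofNat 4 H₄)
      (E.ev ((t : ℝ) + 1)) (A.Q 3 + A.V 3) (A.V 3) := by
    refine
      { valid := hF.valid
        pos := ⟨by show (0 : ℝ) < 2 * (E.h : ℝ); positivity, q2, q3⟩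
        vert := fun i => four _ _ _ _ i (ofNat_ne l1 l2 n1) (ofNat_ne l1 l3 n2)
          (ofNat_ne l1 l4 n3) (ofNat_ne l2 l3 n4) (ofNat_ne l2 l4 n5) (ofNat_ne l3 l4 n6)
        edge := fun i => four _ _ _ _ i (ofNat_ne m1 m2 o1) (ofNat_ne m1 m3 o2)
          (ofNat_ne m1 m4 o3) (ofNat_ne m2 m3 o4) (ofNat_ne m2 m4 o5) (ofNat_ne m3 m4 o6)
        tyl := ?_, tyr := ?_, tya := ?_, tyb := ?_
        al := ?_, bl := ?_, ar := ?_, br := ?_, aa := ?_, ab := ?_, ba := ?_, bb := ?_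
        hw := ?_, hx := ?_, hF := ?_
        ovl := q5
        vxl := ?_, vxr := ?_, vxa := ?_, vxb := ?_, vFl := ?_, vFr := ?_, vFa := ?_, vFb := ?_ }
    · show tyOf (A.v ((Fin.ofNat 4 lt : Fin 4) : ℕ)).ty = .L
      rw [val_ofNat lt l1, y1]; rfl
    · show tyOf (A.v ((Fin.ofNat 4 rt : Fin 4) : ℕ)).ty = .R
      rw [val_ofNat rt l2, y2]; rfl
    · show tyOf (A.v ((Fin.ofNat 4 pa : Fin 4) : ℕ)).ty = .P
      rw [val_ofNat pa l3, y3]; rfl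
    · show tyOf (A.v ((Fin.ofNat 4 pb : Fin 4) : ℕ)).ty = .P
      rw [val_ofNat pb l4, y4]; rfl
    · show Fin.ofNat 4 (A.v ((Fin.ofNat 4 lt : Fin 4) : ℕ)).ea = _
      rw [val_ofNat lt l1, a1]
    · show Fin.ofNat 4 (A.v ((Fin.ofNat 4 lt : Fin 4) : ℕ)).eb = _
      rw [val_ofNat lt l1, a2]
    · show Fin.ofNat 4 (A.v ((Fin.ofNat 4 rt : Fin 4) : ℕ)).ea = _
      rw [val_ofNat rt l2, a3]
    · show Fin.ofNat 4 (A.v ((Fin.ofNat 4 rt : Fin 4) : ℕ)).eb = _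
      rw [val_ofNat rt l2, a4]
    · show Fin.ofNat 4 (A.v ((Fin.ofNat 4 pa : Fin 4) : ℕ)).ea = _
      rw [val_ofNat pa l3, a5]
    · show Fin.ofNat 4 (A.v ((Fin.ofNat 4 pa : Fin 4) : ℕ)).eb = _
      rw [val_ofNat pa l3, a6]
    · show Fin.ofNat 4 (A.v ((Fin.ofNat 4 pb : Fin 4) : ℕ)).ea = _
      rw [val_ofNat pb l4, a7]
    · show Fin.ofNat 4 (A.v ((Fin.ofNat 4 pb : Fin 4) : ℕ)).eb = _
      rw [val_ofNat pb l4, a8]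
    · intro i
      show ((A.v i).w : ℝ) = (E.r : ℝ)
      rw [(hA' i).1]
    · intro i
      show ((A.v i).x : ℝ) + ((A.v i).dx : ℝ) = (E.x : ℝ)
      rw [← (hA' i).2.1]; push_cast; ring
    · intro i
      show ((A.v i).F : ℝ) + ((A.v i).dF : ℝ) = (E.F : ℝ)
      rw [← (hA' i).2.2]; push_cast; ring
    · show ((A.v ((Fin.ofNat 4 lt : Fin 4) : ℕ)).dx : ℝ) = (E.v : ℝ)
      rw [val_ofNat lt l1, v1]
    · show ((A.v ((Fin.ofNat 4 rt : Fin 4) : ℕ)).dx : ℝ) = -(E.v : ℝ)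
      rw [val_ofNat rt l2, v2]
      show ((-E.v : ℤ) : ℝ) = _
      push_cast; ring
    · show ((A.v ((Fin.ofNat 4 pa : Fin 4) : ℕ)).dx : ℝ) = 0
      rw [val_ofNat pa l3, v3]; simp
    · show ((A.v ((Fin.ofNat 4 pb : Fin 4) : ℕ)).dx : ℝ) = 0
      rw [val_ofNat pb l4, v4]; simp
    · show ((A.v ((Fin.ofNat 4 lt : Fin 4) : ℕ)).dF : ℝ) = (E.z : ℝ) -
        2 * (E.h : ℝ) * (E.v : ℝ) / 2 + ((E.P₁ : ℝ) + 2 * (E.h : ℝ) / 2) * (E.v : ℝ)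
      rw [val_ofNat lt l1, f1]
      show ((E.z - E.h * E.v + (E.P₁ + E.h) * E.v : ℤ) : ℝ) = _
      push_cast; ring
    · show ((A.v ((Fin.ofNat 4 rt : Fin 4) : ℕ)).dF : ℝ) = (E.z : ℝ) +
        2 * (E.h : ℝ) * (E.v : ℝ) / 2 - ((E.P₂ : ℝ) + 2 * (E.h : ℝ) / 2) * (E.v : ℝ)
      rw [val_ofNat rt l2, f2]
      show ((E.z + E.h * E.v - (E.P₂ + E.h) * E.v : ℤ) : ℝ) = _
      push_cast; ring
    · show ((A.v ((Fin.ofNat 4 pa : Fin 4) : ℕ)).dF : ℝ) = (E.z : ℝ) -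
        2 * (E.h : ℝ) * (E.v : ℝ) / 2
      rw [val_ofNat pa l3, f3]
      show ((E.z - E.h * E.v : ℤ) : ℝ) = _
      push_cast; ring
    · show ((A.v ((Fin.ofNat 4 pb : Fin 4) : ℕ)).dF : ℝ) = (E.z : ℝ) +
        2 * (E.h : ℝ) * (E.v : ℝ) / 2
      rw [val_ofNat pb l4, f4]
      show ((E.z + E.h * E.v : ℤ) : ℝ) = _
      push_cast; ring
  refine hDTH K sh (A.cb 3 3) (A.W 3) _ _ _ _ _ _ _ _ (E.ev ((t : ℝ) + 1)) (A.Q 3 + A.V 3) (A.V 3)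
    (t : ℝ) hD ?_ ?_
  · show (t : ℝ) < (t : ℝ) + 1 - 8 * (E.r : ℝ) / (E.v : ℝ)
    have : 8 * (E.r : ℝ) / (E.v : ℝ) < 1 := (div_lt_one q2).2 q4
    linarith
  · have : lin (A.Q 3 + A.V 3) (A.V 3) (E.ev ((t : ℝ) + 1)).s₀ (t : ℝ) = A.Q 3 := by
      show A.Q 3 + A.V 3 + ((t : ℝ) - ((t : ℝ) + 1)) • A.V 3 = A.Q 3
      have h1 : (t : ℝ) - ((t : ℝ) + 1) = -1 := by ring
      rw [h1, neg_smul, one_smul]
      abel
    rw [this]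
    exact hat

end LCA
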