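import Pool.Agent.LCA.Stmts4

/-!
# SVL: the real numbers which belong to the data of a state
-/

namespace LCA.SVL

open LCA

theorem tyOf_zero : tyOf 0 = .P := rfl

theorem tyOf_cases (k : ℕ) (h : k = 0 ∨ k = 1 ∨ k = 2) (h0 : tyOf k ≠ .P) : k ≠ 0 := by
  rintro rfl
  exact h0 rfl

theorem ofNat_val {n k : ℕ} (h : k < n + 1) : ((Fin.ofNat (n + 1) k : Fin (n + 1)) : ℕ) = k := by
  simp [Fin.ofNat, Nat.mod_eq_of_lt h]

theorem lfv {m n : ℕ} {S : SD} (h : S.Facts m n) (e : Fin (m + 1)) :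
    (((S.cb m n).lf e : Fin (n + 1)) : ℕ) = (S.e e).lf := ofNat_val (h.lf e e.2)

theorem rtv {m n : ℕ} {S : SD} (h : S.Facts m n) (e : Fin (m + 1)) :
    (((S.cb m n).rt e : Fin (n + 1)) : ℕ) = (S.e e).rt := ofNat_val (h.rt e e.2)

theorem eav {m n : ℕ} {S : SD} (h : S.Facts m n) (i : Fin (n + 1)) :
    (((S.cb m n).ea i : Fin (m + 1)) : ℕ) = (S.v i).ea := ofNat_val (h.ea i i.2)

theorem ebv {m n : ℕ} {S : SD} (h : S.Facts m n) (i : Fin (n + 1)) :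
    (((S.cb m n).eb i : Fin (m + 1)) : ℕ) = (S.v i).eb := ofNat_val (h.eb i i.2)

theorem q1 {n : ℕ} (S : SD) (i : Fin (n + 1)) : (S.Q n).1 i = ((S.v i).x : ℝ) := rfl
theorem q2 {n : ℕ} (S : SD) (i : Fin (n + 1)) : (S.Q n).2 i = ((S.v i).F : ℝ) := rfl
theorem v1 {n : ℕ} (S : SD) (i : Fin (n + 1)) : (S.V n).1 i = ((S.v i).dx : ℝ) := rfl
theorem v2 {n : ℕ} (S : SD) (i : Fin (n + 1)) : (S.V n).2 i = ((S.v i).dF : ℝ) := rfl
theorem w1 {n : ℕ} (S : SD) (i : Fin (n + 1)) : S.W n i = ((S.v i).w : ℝ) := rfl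

theorem xl {m n : ℕ} {S : SD} (h : S.Facts m n) (e : Fin (m + 1)) :
    (S.Q n).1 ((S.cb m n).lf e) = ((S.e e).xl : ℝ) := by
  rw [q1, lfv h, h.xl e e.2]

theorem xr {m n : ℕ} {S : SD} (h : S.Facts m n) (e : Fin (m + 1)) :
    (S.Q n).1 ((S.cb m n).rt e) = ((S.e e).xr : ℝ) := by
  rw [q1, rtv h, h.xr e e.2]

theorem il {m n : ℕ} {S : SD} (h : S.Facts m n) (e : Fin (m + 1)) :
    (S.Q n).1 ((S.cb m n).lf e) + 2 * S.W n ((S.cb m n).lf e) = ((S.e e).il : ℝ) := by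
  rw [q1, w1, lfv h, h.il e e.2]
  push_cast
  ring

theorem ir {m n : ℕ} {S : SD} (h : S.Facts m n) (e : Fin (m + 1)) :
    (S.Q n).1 ((S.cb m n).rt e) - 2 * S.W n ((S.cb m n).rt e) = ((S.e e).ir : ℝ) := by
  rw [q1, w1, rtv h, h.ir e e.2]
  push_cast
  ring

theorem wpos {m n : ℕ} {S : SD} (h : S.Facts m n) (i : Fin (n + 1)) : 0 < S.W n i := by
  rw [w1]
  exact_mod_cast h.w i i.2

theorem len {m n : ℕ} {S : SD} (h : S.Facts m n) (e : Fin (m + 1)) :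
    2 * (S.W n ((S.cb m n).lf e) + S.W n ((S.cb m n).rt e)) <
    (S.Q n).1 ((S.cb m n).rt e) - (S.Q n).1 ((S.cb m n).lf e) := by
  have h1 := il h e
  have h2 := ir h e
  have h3 : ((S.e e).il : ℝ) < ((S.e e).ir : ℝ) := by exact_mod_cast h.il_ir e e.2
  linarith

theorem xne {m n : ℕ} {S : SD} (h : S.Facts m n) (e : Fin (m + 1)) :
    ((S.e e).xr : ℝ) - ((S.e e).xl : ℝ) ≠ 0 := by
  have h1 := len h e
  have h2 := wpos h ((S.cb m n).lf e)
  have h3 := wpos h ((S.cb m n).rt e)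
  rw [xl h, xr h] at h1
  intro h4
  linarith

theorem pe {m n : ℕ} {S : SD} (h : S.Facts m n) (e : Fin (m + 1)) :
    (S.cb m n).pe (S.Q n) e = ((S.e e).p : ℝ) := by
  have h1 := xne h e
  have h2 : (((S.e e).p * ((S.e e).xr - (S.e e).xl) : ℤ) : ℝ) =
      (((S.v (S.e e).rt).F - (S.v (S.e e).lf).F : ℤ) : ℝ) := by
    rw [h.p e e.2]
  push_cast at h2
  rw [Comb.pe, xl h, xr h, q2, q2, lfv h, rtv h, div_eq_iff h1, h2]

theorem dpe {m n : ℕ} {S : SD} (h : S.Facts m n) (e : Fin (m + 1)) :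
    (S.cb m n).dpe (S.Q n) (S.V n) e = ((S.e e).dp : ℝ) := by
  have h1 := xne h e
  have h2 : (((S.e e).dp * ((S.e e).xr - (S.e e).xl) : ℤ) : ℝ) =
      (((S.v (S.e e).rt).dF - (S.v (S.e e).lf).dF -
      (S.e e).p * ((S.v (S.e e).rt).dx - (S.v (S.e e).lf).dx) : ℤ) : ℝ) := by
    rw [h.dp e e.2]
  push_cast at h2
  rw [Comb.dpe, xl h, xr h, v2, v2, v1, v1, pe h, lfv h, rtv h, div_eq_iff h1, h2]

theorem dae {m n : ℕ} {S : SD} (h : S.Facts m n) (e : Fin (m + 1)) :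
    (S.cb m n).dae (S.Q n) (S.V n) e = ((S.e e).da : ℝ) := by
  rw [Comb.dae, xl h, v2, v1, pe h, dpe h, lfv h, h.da e e.2]
  push_cast
  ring

theorem pea {m n : ℕ} {S : SD} (h : S.Facts m n) (i : Fin (n + 1)) :
    (S.cb m n).pe (S.Q n) ((S.cb m n).ea i) = ((S.v i).pa : ℝ) := by
  rw [pe h, eav h, h.pa i i.2]

theorem peb {m n : ℕ} {S : SD} (h : S.Facts m n) (i : Fin (n + 1)) :
    (S.cb m n).pe (S.Q n) ((S.cb m n).eb i) = ((S.v i).pb : ℝ) := by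
  rw [pe h, ebv h, h.pb i i.2]

theorem plo {m n : ℕ} {S : SD} (h : S.Facts m n) (i : Fin (n + 1)) :
    (S.cb m n).plo (S.Q n) i = ((S.v i).lo : ℝ) := by
  rw [Comb.plo, pea h, peb h, h.lo i i.2]
  push_cast
  rfl

theorem phi {m n : ℕ} {S : SD} (h : S.Facts m n) (i : Fin (n + 1)) :
    (S.cb m n).phi (S.Q n) i = ((S.v i).hi : ℝ) := by
  rw [Comb.phi, pea h, peb h, h.hi i i.2]
  push_cast
  rfl

theorem dl {m n : ℕ} {S : SD} (h : S.Facts m n) (i : Fin (n + 1)) :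
    |(S.cb m n).dl (S.Q n) i| = ((S.v i).hi - (S.v i).lo : ℝ) := by
  have h1 := plo h i
  have h2 := phi h i
  rw [← h1, ← h2, Comb.dl, Comb.plo, Comb.phi]
  rw [max_sub_min_eq_abs']
  rw [abs_sub_comm]

theorem er {m n : ℕ} {S : SD} (h : S.Facts m n) (i : Fin (n + 1)) :
    2 * |(S.cb m n).dpe (S.Q n) (S.V n) ((S.cb m n).ea i)| +
    2 * |(S.cb m n).dpe (S.Q n) (S.V n) ((S.cb m n).eb i) -
      (S.cb m n).dpe (S.Q n) (S.V n) ((S.cb m n).ea i)| = ((S.v i).er : ℝ) := by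
  rw [dpe h, dpe h, eav h, ebv h, h.er i i.2]
  push_cast
  rfl

theorem fl {m n : ℕ} {S : SD} (h : S.Facts m n) (e : Fin (m + 1)) :
    (S.cb m n).dpe (S.Q n) (S.V n) e * (S.V n).1 ((S.cb m n).lf e) = 0 := by
  rw [dpe h, v1, lfv h]
  exact_mod_cast h.fl e e.2

theorem fr {m n : ℕ} {S : SD} (h : S.Facts m n) (e : Fin (m + 1)) :
    (S.cb m n).dpe (S.Q n) (S.V n) e * (S.V n).1 ((S.cb m n).rt e) = 0 := by
  rw [dpe h, v1, rtv h]
  exact_mod_cast h.fr e e.2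

theorem tip {m n : ℕ} {S : SD} (h : S.Facts m n) (i : Fin (n + 1))
    (h0 : (S.cb m n).ty i ≠ .P) : (S.cb m n).dl (S.Q n) i ≠ 0 := by
  have h1 : (S.v i).ty ≠ 0 := by
    intro h2
    apply h0
    change tyOf (S.v i).ty = .P
    rw [h2]
    rfl
  have h2 : (S.v i).lo < (S.v i).hi := (h.tip i i.2).resolve_left h1
  have h3 : ((S.v i).lo : ℝ) < ((S.v i).hi : ℝ) := by exact_mod_cast h2
  have h4 := dl h i
  intro h5
  rw [h5, abs_zero] at h4
  linarith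

end LCA.SVL

namespace LCA

theorem t_SVL : Stmt_SVL := by
  intro m n S h
  exact {
    valid := h.valid
    wpos := SVL.wpos h
    len := SVL.len h
    tip := SVL.tip h
    lfv := SVL.lfv h
    rtv := SVL.rtv h
    eav := SVL.eav h
    ebv := SVL.ebv h
    xl := SVL.xl h
    xr := SVL.xr h
    il := SVL.il h
    ir := SVL.ir h
    jl := fun i => by
      rw [SVL.q1, SVL.w1, h.jl i i.2]
      push_cast
      ring
    jr := fun i => by
      rw [SVL.q1, SVL.w1, h.jr i i.2]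
      push_cast
      ring
    pe := SVL.pe h
    dpe := SVL.dpe h
    dae := SVL.dae h
    pea := SVL.pea h
    peb := SVL.peb h
    plo := SVL.plo h
    phi := SVL.phi h
    dl := SVL.dl h
    er := SVL.er h
    fl := SVL.fl h
    fr := SVL.fr h }

end LCA
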