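import Pool.Agent.LCA.Stmts4

/-!
# SVV: two vertices during a linear motion and at a change of the velocities
-/

namespace LCA

namespace SVV

open Set Filter
open scoped ContDiff Topology

variable {m n : ℕ}

/-- An affine function which is larger than `E` at the two ends. -/
theorem aff_lt {E LO HI p u v : ℝ} (h1 : E < u + v * LO) (h2 : E < u + v * HI) (hp1 : LO ≤ p)
    (hp2 : p ≤ HI) : E < u + v * p := by
  rcases le_total 0 v with h | h
  · have := mul_le_mul_of_nonneg_left hp1 h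
    linarith
  · have := mul_le_mul_of_nonpos_left hp2 h
    linarith

/-- The difference of two verticals is affine in the slope. -/
theorem dvv_lt {E LO HI p σ : ℝ} {v : St n} {i j : Fin n} (h1 : E < σ * Dvv v i j LO)
    (h2 : E < σ * Dvv v i j HI) (hp1 : LO ≤ p) (hp2 : p ≤ HI) : E < σ * Dvv v i j p := by
  have e : ∀ x, σ * Dvv v i j x = σ * (v.2 i - v.2 j) + (σ * (v.1 j - v.1 i)) * x := by
    intro x
    unfold Dvv
    ring
  rw [e] at h1 h2 ⊢
  exact aff_lt h1 h2 hp1 hp2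

/-- Interpolation during the motion. -/
theorem interp (hLNP : Stmt_LNP) {c : Comb m n} {T : ℝ} {Q Q' V' : St n}
    (hlin : c.Lin T Q Q' V') {s : ℝ} (hs : s ∈ Icc (0 : ℝ) T) :
    ∃ l ∈ Icc (0 : ℝ) 1, (∀ k, (Q + s • V').1 k = (1 - l) * Q.1 k + l * Q'.1 k) ∧
      (∀ e, c.pe (Q + s • V') e = (1 - l) * c.pe Q e + l * c.pe Q' e) ∧
      (∀ e, c.dpe (Q + s • V') V' e = c.dpe Q' V' e) := by
  have hT := hlin.pos
  have hlen0 : ∀ e, (Q + (0 : ℝ) • V').1 (c.lf e) < (Q + (0 : ℝ) • V').1 (c.rt e) := by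
    intro e
    have := hlin.len e
    simpa using this
  have hx : ∀ k, (Q + s • V').1 k = (1 - s / T) * Q.1 k + s / T * Q'.1 k := by
    intro k
    have hm := congrArg (fun q : St n => q.1 k) hlin.move
    simp only [Prod.fst_add, Prod.smul_fst, Pi.add_apply, Pi.smul_apply, smul_eq_mul] at hm
    simp only [Prod.fst_add, Prod.smul_fst, Pi.add_apply, Pi.smul_apply, smul_eq_mul]
    rw [hm]
    field_simp
    ring
  have hl : s / T ∈ Icc (0 : ℝ) 1 := ⟨div_nonneg hs.1 hT.le, (div_le_one hT).2 hs.2⟩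
  have hlen : ∀ e, (Q + s • V').1 (c.lf e) < (Q + s • V').1 (c.rt e) := by
    intro e
    rw [hx, hx]
    have h1 := hlin.len e
    have h2 := hlin.len' e
    have h3 := hl.1
    have h4 : 0 ≤ 1 - s / T := by linarith [hl.2]
    rcases h3.lt_or_eq with h5 | h5
    · have a1 := mul_lt_mul_of_pos_left h2 h5
      have a2 := mul_le_mul_of_nonneg_left h1.le h4
      linarith
    · rw [← h5]
      linarith
  refine ⟨s / T, hl, hx, ?_, ?_⟩
  · intro e
    have h1 := (hLNP c T Q Q' V' hlin e s (hlen e)).1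
    have h0 := (hLNP c T Q Q' V' hlin e 0 (hlen0 e)).1
    have hz : Q + (0 : ℝ) • V' = Q := by simp
    rw [hz] at h0
    rw [h1, h0]
    field_simp
    ring
  · intro e
    exact (hLNP c T Q Q' V' hlin e s (hlen e)).2.1

/-- The derivative of the slope at the beginning. -/
theorem dpe0 (hLNP : Stmt_LNP) {c : Comb m n} {T : ℝ} {Q Q' V' : St n}
    (hlin : c.Lin T Q Q' V') (e : Fin m) : c.dpe Q V' e = c.dpe Q' V' e := by
  have hz : Q + (0 : ℝ) • V' = Q := by simp
  have h0 := (hLNP c T Q Q' V' hlin e 0 (by rw [hz]; exact hlin.len e)).2.1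
  rwa [hz] at h0

/-- The bound of the error. -/
theorem err_le {c : Comb m n} {w : Fin n → ℝ} {q Q Q' V' : St n} {i : Fin n} (hw : 0 < w i)
    (hd : ∀ e, c.dpe q V' e = c.dpe Q' V' e) (hm : |c.dl q i| ≤ max |c.dl Q i| |c.dl Q' i|) :
    c.err w q V' i ≤ c.erS w Q Q' V' i := by
  unfold Comb.err Comb.erS
  rw [hd, hd]
  have : CY * |c.dl q i| ≤ CY * max |c.dl Q i| |c.dl Q' i| :=
    mul_le_mul_of_nonneg_left hm (by unfold CY; norm_num)
  exact mul_le_mul_of_nonneg_left (by linarith) hw.le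

/-- The minimum of convex combinations. -/
theorem min_conv {l a b a' b' : ℝ} (h0 : 0 ≤ l) (h1 : l ≤ 1) :
    (1 - l) * min a b + l * min a' b' ≤ min ((1 - l) * a + l * a') ((1 - l) * b + l * b') := by
  have h2 : 0 ≤ 1 - l := by linarith
  apply le_min
  · exact add_le_add (mul_le_mul_of_nonneg_left (min_le_left _ _) h2)
      (mul_le_mul_of_nonneg_left (min_le_left _ _) h0)
  · exact add_le_add (mul_le_mul_of_nonneg_left (min_le_right _ _) h2)
      (mul_le_mul_of_nonneg_left (min_le_right _ _) h0)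

/-- The maximum of convex combinations. -/
theorem max_conv {l a b a' b' : ℝ} (h0 : 0 ≤ l) (h1 : l ≤ 1) :
    max ((1 - l) * a + l * a') ((1 - l) * b + l * b') ≤ (1 - l) * max a b + l * max a' b' := by
  have h2 : 0 ≤ 1 - l := by linarith
  apply max_le
  · exact add_le_add (mul_le_mul_of_nonneg_left (le_max_left _ _) h2)
      (mul_le_mul_of_nonneg_left (le_max_left _ _) h0)
  · exact add_le_add (mul_le_mul_of_nonneg_left (le_max_right _ _) h2)
      (mul_le_mul_of_nonneg_left (le_max_right _ _) h0)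

/-- A convex combination is at least the minimum. -/
theorem min_le_conv {l a b : ℝ} (h0 : 0 ≤ l) (h1 : l ≤ 1) : min a b ≤ (1 - l) * a + l * b := by
  have h2 : 0 ≤ 1 - l := by linarith
  have a1 := mul_le_mul_of_nonneg_left (min_le_left a b) h2
  have a2 := mul_le_mul_of_nonneg_left (min_le_right a b) h0
  linarith

/-- A convex combination is at most the maximum. -/
theorem conv_le_max {l a b : ℝ} (h0 : 0 ≤ l) (h1 : l ≤ 1) : (1 - l) * a + l * b ≤ max a b := by
  have h2 : 0 ≤ 1 - l := by linarith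
  have a1 := mul_le_mul_of_nonneg_left (le_max_left a b) h2
  have a2 := mul_le_mul_of_nonneg_left (le_max_right a b) h0
  linarith

/-- Strict inequalities are preserved by convex combinations. -/
theorem lt_conv {l a b a' b' : ℝ} (h0 : 0 ≤ l) (h1 : l ≤ 1) (h : a < b) (h' : a' < b') :
    (1 - l) * a + l * a' < (1 - l) * b + l * b' := by
  have h2 : 0 ≤ 1 - l := by linarith
  rcases h0.lt_or_eq with h3 | h3
  · have a1 := mul_lt_mul_of_pos_left h' h3
    have a2 := mul_le_mul_of_nonneg_left h.le h2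
    linarith
  · rw [← h3]
    linarith

/-- The absolute value of a convex combination. -/
theorem abs_conv {l a b : ℝ} (h0 : 0 ≤ l) (h1 : l ≤ 1) :
    |(1 - l) * a + l * b| ≤ (1 - l) * |a| + l * |b| := by
  have h2 : 0 ≤ 1 - l := by linarith
  refine (abs_add_le _ _).trans ?_
  rw [abs_mul, abs_mul, abs_of_nonneg h2, abs_of_nonneg h0]

/-- The lower ends and the upper ends during the motion. -/
theorem plo_ge {c : Comb m n} {q Q Q' : St n} {l : ℝ} (h0 : 0 ≤ l) (h1 : l ≤ 1)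
    (hp : ∀ e, c.pe q e = (1 - l) * c.pe Q e + l * c.pe Q' e) (i : Fin n) :
    (1 - l) * c.plo Q i + l * c.plo Q' i ≤ c.plo q i := by
  unfold Comb.plo
  rw [hp, hp]
  exact min_conv h0 h1

theorem phi_le {c : Comb m n} {q Q Q' : St n} {l : ℝ} (h0 : 0 ≤ l) (h1 : l ≤ 1)
    (hp : ∀ e, c.pe q e = (1 - l) * c.pe Q e + l * c.pe Q' e) (i : Fin n) :
    c.phi q i ≤ (1 - l) * c.phi Q i + l * c.phi Q' i := by
  unfold Comb.phi
  rw [hp, hp]
  exact max_conv h0 h1

theorem dl_le {c : Comb m n} {q Q Q' : St n} {l : ℝ} (h0 : 0 ≤ l) (h1 : l ≤ 1)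
    (hp : ∀ e, c.pe q e = (1 - l) * c.pe Q e + l * c.pe Q' e) (i : Fin n) :
    |c.dl q i| ≤ max |c.dl Q i| |c.dl Q' i| := by
  have e : c.dl q i = (1 - l) * c.dl Q i + l * c.dl Q' i := by
    unfold Comb.dl
    rw [hp, hp]
    ring
  rw [e]
  exact (abs_conv h0 h1).trans (conv_le_max h0 h1)

theorem plo_le_phi (c : Comb m n) (q : St n) (i : Fin n) : c.plo q i ≤ c.phi q i :=
  (min_le_left _ _).trans (le_max_left _ _)

/-- Either the verticals are separated by their slopes, or their slopes overlap. -/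
theorem sep_or (c : Comb m n) (w : Fin n → ℝ) (q : St n) (i j : Fin n) :
    c.Svv w q i j ∨ max (c.plo q i) (c.plo q j) ≤ min (c.phi q i) (c.phi q j) := by
  rcases lt_or_ge (c.phi q i) (c.plo q j) with h | h
  · exact Or.inl (Or.inr (Or.inr (Or.inl h)))
  rcases lt_or_ge (c.phi q j) (c.plo q i) with h' | h'
  · exact Or.inl (Or.inr (Or.inr (Or.inr h')))
  refine Or.inr ?_
  exact max_le (le_min (plo_le_phi c q i) h') (le_min h (plo_le_phi c q j))

/-- The last case at a time of the motion. -/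
theorem zvv_of {c : Comb m n} {w : Fin n → ℝ} {q Q Q' V' : St n} {i j : Fin n} {σ l : ℝ}
    (hw : ∀ i, 0 < w i) (h0 : 0 ≤ l) (h1 : l ≤ 1)
    (hp : ∀ e, c.pe q e = (1 - l) * c.pe Q e + l * c.pe Q' e)
    (hd : ∀ e, c.dpe q V' e = c.dpe Q' V' e)
    (ha : c.erS w Q Q' V' i + c.erS w Q Q' V' j <
      σ * Dvv V' i j (max (min (c.plo Q i) (c.plo Q' i)) (min (c.plo Q j) (c.plo Q' j))))
    (hb : c.erS w Q Q' V' i + c.erS w Q Q' V' j <
      σ * Dvv V' i j (min (max (c.phi Q i) (c.phi Q' i)) (max (c.phi Q j) (c.phi Q' j))))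
    (hm : max (c.plo q i) (c.plo q j) ≤ min (c.phi q i) (c.phi q j)) : c.Zvv w q V' i j σ := by
  have ei := err_le (w := w) (hw i) hd (dl_le h0 h1 hp i)
  have ej := err_le (w := w) (hw j) hd (dl_le h0 h1 hp j)
  have lo : ∀ k, min (c.plo Q k) (c.plo Q' k) ≤ c.plo q k := fun k =>
    (min_le_conv h0 h1).trans (plo_ge h0 h1 hp k)
  have hi : ∀ k, c.phi q k ≤ max (c.phi Q k) (c.phi Q' k) := fun k =>
    (phi_le h0 h1 hp k).trans (conv_le_max h0 h1)
  have l1 : max (min (c.plo Q i) (c.plo Q' i)) (min (c.plo Q j) (c.plo Q' j)) ≤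
      max (c.plo q i) (c.plo q j) := max_le_max (lo i) (lo j)
  have l2 : min (c.phi q i) (c.phi q j) ≤
      min (max (c.phi Q i) (c.phi Q' i)) (max (c.phi Q j) (c.phi Q' j)) :=
    min_le_min (hi i) (hi j)
  constructor
  · have := dvv_lt ha hb l1 (hm.trans l2)
    linarith
  · have := dvv_lt ha hb (l1.trans hm) l2
    linarith

/-- The rounding error is convex in the velocity. -/
theorem err_conv (c : Comb m n) {w : Fin n → ℝ} (Q V V' : St n) {i : Fin n} {l : ℝ}
    (hw : 0 < w i) (h0 : 0 ≤ l) (h1 : l ≤ 1) :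
    c.err w Q ((1 - l) • V + l • V') i ≤ (1 - l) * c.err w Q V i + l * c.err w Q V' i := by
  have hd : ∀ e, c.dpe Q ((1 - l) • V + l • V') e =
      (1 - l) * c.dpe Q V e + l * c.dpe Q V' e := by
    intro e
    unfold Comb.dpe
    simp only [Prod.fst_add, Prod.snd_add, Prod.smul_fst, Prod.smul_snd, Pi.add_apply,
      Pi.smul_apply, smul_eq_mul]
    ring
  unfold Comb.err
  rw [hd, hd]
  have a1 := abs_conv (l := l) (a := c.dpe Q V (c.ea i)) (b := c.dpe Q V' (c.ea i)) h0 h1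
  have a2 := abs_conv (l := l) (a := c.dpe Q V (c.eb i) - c.dpe Q V (c.ea i))
    (b := c.dpe Q V' (c.eb i) - c.dpe Q V' (c.ea i)) h0 h1
  have e2 : (1 - l) * c.dpe Q V (c.eb i) + l * c.dpe Q V' (c.eb i) -
      ((1 - l) * c.dpe Q V (c.ea i) + l * c.dpe Q V' (c.ea i)) =
      (1 - l) * (c.dpe Q V (c.eb i) - c.dpe Q V (c.ea i)) +
        l * (c.dpe Q V' (c.eb i) - c.dpe Q V' (c.ea i)) := by ring
  rw [e2]
  have e3 : (1 - l) * (w i * (2 * |c.dpe Q V (c.ea i)| +
        2 * |c.dpe Q V (c.eb i) - c.dpe Q V (c.ea i)| + CY * |c.dl Q i|)) +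
      l * (w i * (2 * |c.dpe Q V' (c.ea i)| +
        2 * |c.dpe Q V' (c.eb i) - c.dpe Q V' (c.ea i)| + CY * |c.dl Q i|)) =
      w i * (2 * ((1 - l) * |c.dpe Q V (c.ea i)| + l * |c.dpe Q V' (c.ea i)|) +
        2 * ((1 - l) * |c.dpe Q V (c.eb i) - c.dpe Q V (c.ea i)| +
          l * |c.dpe Q V' (c.eb i) - c.dpe Q V' (c.ea i)|) + CY * |c.dl Q i|) := by ring
  rw [e3]
  exact mul_le_mul_of_nonneg_left (by linarith) hw.le

/-- The difference of two verticals is linear in the velocities. -/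
theorem dvv_conv (V V' : St n) (i j : Fin n) (p l : ℝ) :
    Dvv ((1 - l) • V + l • V') i j p = (1 - l) * Dvv V i j p + l * Dvv V' i j p := by
  unfold Dvv
  simp only [Prod.fst_add, Prod.snd_add, Prod.smul_fst, Prod.smul_snd, Pi.add_apply,
    Pi.smul_apply, smul_eq_mul]
  ring

/-- Change of the velocities. -/
theorem zvv_conv {c : Comb m n} {w : Fin n → ℝ} {Q V V' : St n} {i j : Fin n} {σ l : ℝ}
    (hw : ∀ i, 0 < w i) (h0 : 0 ≤ l) (h1 : l ≤ 1) (h : c.Zvv w Q V i j σ)
    (h' : c.Zvv w Q V' i j σ) : c.Zvv w Q ((1 - l) • V + l • V') i j σ := by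
  have ei := err_conv (w := w) c Q V V' (hw i) h0 h1
  have ej := err_conv (w := w) c Q V V' (hw j) h0 h1
  constructor
  · rw [dvv_conv]
    have := lt_conv h0 h1 h.1 h'.1
    linarith
  · rw [dvv_conv]
    have := lt_conv h0 h1 h.2 h'.2
    linarith

end SVV

open SVV Set Filter
open scoped ContDiff Topology

theorem t_SVV (hLNP : Stmt_LNP) : Stmt_SVV := by
  intro m n c w T Q V Q' V' i j hw _ hlin _ h
  constructor
  · intro s hs
    obtain ⟨l, ⟨h0, h1⟩, hx, hp, hd⟩ := interp hLNP hlin hs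
    rcases h with h | h | h | h | ⟨σ, hσ, ha, hb, _⟩
    · refine Or.inl (Or.inl ?_)
      rw [hx, hx]
      have := lt_conv h0 h1 h.1 h.2
      linarith
    · refine Or.inl (Or.inr (Or.inl ?_))
      rw [hx, hx]
      have := lt_conv h0 h1 h.1 h.2
      linarith
    · refine Or.inl (Or.inr (Or.inr (Or.inl ?_)))
      exact (phi_le h0 h1 hp i).trans_lt ((lt_conv h0 h1 h.1 h.2).trans_le (plo_ge h0 h1 hp j))
    · refine Or.inl (Or.inr (Or.inr (Or.inr ?_)))
      exact (phi_le h0 h1 hp j).trans_lt ((lt_conv h0 h1 h.1 h.2).trans_le (plo_ge h0 h1 hp i))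
    · rcases sep_or c w (Q + s • V') i j with hS | hm
      · exact Or.inl hS
      · exact Or.inr ⟨σ, hσ, zvv_of hw h0 h1 hp hd ha hb hm⟩
  · intro l hl
    rcases h with h | h | h | h | ⟨σ, hσ, ha, hb, hc⟩
    · exact Or.inl (Or.inl h.1)
    · exact Or.inl (Or.inr (Or.inl h.1))
    · exact Or.inl (Or.inr (Or.inr (Or.inl h.1)))
    · exact Or.inl (Or.inr (Or.inr (Or.inr h.1)))
    · rcases hc with hc | hc
      · exact Or.inl hc
      rcases sep_or c w Q i j with hS | hm
      · exact Or.inl hS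
      refine Or.inr ⟨σ, hσ, zvv_conv hw hl.1 hl.2 hc ?_⟩
      exact zvv_of (l := 0) hw le_rfl zero_le_one (by intro e; ring) (dpe0 hLNP hlin) ha hb hm

end LCA
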