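import Pool.Agent.LCA.Stmts1

/-!
# SWI: change of the velocities

`ATR` wants the surface over a neighbourhood of the time `t` to be the one of `lin Q V t`. So the
corner is rounded after the time `t`, and the displacement is removed slowly: the path is
`q s = lin Q V' t s + g s • (V - V')` with `g s = s - t` for `s ≤ t + δ`, `g = 0` near `t'`,
`g' ∈ [0, 1]` for `s ≤ t + 3 δ` and `g`, `g'` small afterwards. (`SM2` is not needed.)
-/

namespace LCA.SWI

open Set Filter
open scoped ContDiff Topology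

/-- Tube lemma for a family with two small parameters. -/
lemma tube {E : Type*} [TopologicalSpace E] (F : ℝ → ℝ → ℝ → E)
    (hF : Continuous (fun x : ℝ × ℝ × ℝ => F x.1 x.2.1 x.2.2)) (U : Set E) (hU : IsOpen U)
    (I : Set ℝ) (hI : IsCompact I) (h : ∀ l ∈ I, F l 0 0 ∈ U) :
    ∃ ρ > 0, ∀ l ∈ I, ∀ a b : ℝ, |a| < ρ → |b| < ρ → F l a b ∈ U := by
  have hn : IsOpen ((fun x : ℝ × ℝ × ℝ => F x.1 x.2.1 x.2.2) ⁻¹' U) := hU.preimage hF
  have hsub : I ×ˢ ({((0 : ℝ), (0 : ℝ))} : Set (ℝ × ℝ)) ⊆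
      (fun x : ℝ × ℝ × ℝ => F x.1 x.2.1 x.2.2) ⁻¹' U := by
    rintro ⟨l, x⟩ ⟨hl, hx⟩
    have hx' : x = (0, 0) := hx
    subst hx'
    exact h l hl
  obtain ⟨u, v, hu, hv, hIu, h0v, huv⟩ := generalized_tube_lemma hI isCompact_singleton hn hsub
  have h0 : ((0 : ℝ), (0 : ℝ)) ∈ v := h0v rfl
  obtain ⟨ρ, hρ, hball⟩ := Metric.isOpen_iff.1 hv _ h0
  refine ⟨ρ, hρ, fun l hl a b ha hb => ?_⟩
  have hab : ((a : ℝ), (b : ℝ)) ∈ v := by
    apply hball
    rw [Metric.mem_ball, Prod.dist_eq, Real.dist_eq, Real.dist_eq]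
    simp only [sub_zero]
    exact max_lt ha hb
  exact huv (Set.mk_mem_prod (hIu hl) hab)

/-- The derivative of `τ` is bounded. -/
lemma tau_deriv_bd (sh : Shape) : ∃ C : ℝ, 0 < C ∧ ∀ u, |deriv sh.τ u| ≤ C := by
  have hc : Continuous (deriv sh.τ) := sh.τ_smooth.continuous_deriv (by simp)
  obtain ⟨C, hC⟩ := (isCompact_Icc (a := (-1 : ℝ)) (b := 1)).exists_bound_of_continuousOn
    hc.continuousOn
  refine ⟨|C| + 1, by positivity, fun u => ?_⟩
  by_cases h1 : u < -1
  · have : sh.τ =ᶠ[𝓝 u] fun _ => (0 : ℝ) := by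
      filter_upwards [Iio_mem_nhds h1] with v hv
      exact sh.τ_low v (le_of_lt hv)
    rw [this.deriv_eq]
    simp only [deriv_const', abs_zero]
    positivity
  by_cases h2 : 1 < u
  · have : sh.τ =ᶠ[𝓝 u] fun _ => (1 : ℝ) := by
      filter_upwards [Ioi_mem_nhds h2] with v hv
      exact sh.τ_high v (le_of_lt hv)
    rw [this.deriv_eq]
    simp only [deriv_const', abs_zero]
    positivity
  have := hC u ⟨not_lt.1 h1, not_lt.1 h2⟩
  rw [Real.norm_eq_abs] at this
  have := le_abs_self C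
  linarith

/-- The initial part of the correction. -/
noncomputable def hh (sh : Shape) (t δ s : ℝ) : ℝ := (s - t) - δ * sh.ΘP ((s - t - 2 * δ) / δ)

/-- The cut off. -/
noncomputable def sg (sh : Shape) (t t' s : ℝ) : ℝ :=
  sh.τ (6 * (s - (t + t') / 2) / (t' - t))

/-- The correction. -/
noncomputable def gg (sh : Shape) (t t' δ s : ℝ) : ℝ := hh sh t δ s * (1 - sg sh t t' s)

lemma hh_smooth (sh : Shape) (t δ : ℝ) : ContDiff ℝ ∞ (hh sh t δ) := by
  unfold hh
  have h1 : ContDiff ℝ ∞ (fun s : ℝ => (s - t - 2 * δ) / δ) := by fun_prop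
  have h2 : ContDiff ℝ ∞ (fun s : ℝ => sh.ΘP ((s - t - 2 * δ) / δ)) := sh.ΘP_smooth.comp h1
  exact (contDiff_id.sub contDiff_const).sub (contDiff_const.mul h2)

lemma sg_smooth (sh : Shape) (t t' : ℝ) : ContDiff ℝ ∞ (sg sh t t') := by
  unfold sg
  have h1 : ContDiff ℝ ∞ (fun s : ℝ => 6 * (s - (t + t') / 2) / (t' - t)) := by fun_prop
  exact sh.τ_smooth.comp h1

lemma gg_smooth (sh : Shape) (t t' δ : ℝ) : ContDiff ℝ ∞ (gg sh t t' δ) := by
  unfold gg
  exact (hh_smooth sh t δ).mul (contDiff_const.sub (sg_smooth sh t t'))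

lemma hh_deriv (sh : Shape) (t δ s : ℝ) (hδ : 0 < δ) :
    HasDerivAt (hh sh t δ) (1 - sh.τ ((s - t - 2 * δ) / δ)) s := by
  unfold hh
  have h1 : HasDerivAt (fun s : ℝ => (s - t - 2 * δ) / δ) (1 / δ) s := by
    have := (((hasDerivAt_id s).sub_const t).sub_const (2 * δ)).div_const δ
    simpa using this
  have h2 := (sh.ΘP_deriv ((s - t - 2 * δ) / δ)).comp s h1
  have h3 := ((hasDerivAt_id s).sub_const t).sub (h2.const_mul δ)
  have e : 1 - δ * (sh.τ ((s - t - 2 * δ) / δ) * (1 / δ)) = 1 - sh.τ ((s - t - 2 * δ) / δ) := by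
    field_simp
  rw [e] at h3
  exact h3

lemma hh_low (sh : Shape) (t δ s : ℝ) (hδ : 0 < δ) (hs : s ≤ t + δ) : hh sh t δ s = s - t := by
  unfold hh
  have : (s - t - 2 * δ) / δ ≤ -1 := by
    rw [div_le_iff₀ hδ]; linarith
  rw [sh.ΘP_low _ this]; ring

lemma hh_high (sh : Shape) (t δ s : ℝ) (hδ : 0 < δ) (hs : t + 3 * δ ≤ s) :
    hh sh t δ s = 2 * δ := by
  unfold hh
  have : 1 ≤ (s - t - 2 * δ) / δ := by
    rw [le_div_iff₀ hδ]; linarith
  rw [sh.ΘP_high _ this]
  field_simp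
  ring

lemma hh_bd (sh : Shape) (t δ s : ℝ) (hδ : 0 < δ) (h1 : t - δ ≤ s) (h2 : s ≤ t + 3 * δ) :
    |hh sh t δ s| ≤ 5 * δ := by
  by_cases h : s ≤ t + δ
  · rw [hh_low sh t δ s hδ h, abs_le]
    constructor <;> linarith
  · have hu : |(s - t - 2 * δ) / δ| ≤ 2 := by
      rw [abs_div, abs_of_pos hδ, div_le_iff₀ hδ, abs_le]
      push Not at h
      constructor <;> linarith
    have hb := sh.ΘP_bd _ hu
    unfold hh
    have e1 : |δ * sh.ΘP ((s - t - 2 * δ) / δ)| ≤ δ * 2 := by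
      rw [abs_mul, abs_of_pos hδ]
      exact mul_le_mul_of_nonneg_left hb hδ.le
    have e2 : |s - t| ≤ 3 * δ := by
      rw [abs_le]; constructor <;> linarith
    calc |(s - t) - δ * sh.ΘP ((s - t - 2 * δ) / δ)|
        ≤ |s - t| + |δ * sh.ΘP ((s - t - 2 * δ) / δ)| := abs_sub _ _
      _ ≤ 5 * δ := by linarith

lemma sg_deriv (sh : Shape) (t t' s : ℝ) :
    HasDerivAt (sg sh t t') (deriv sh.τ (6 * (s - (t + t') / 2) / (t' - t)) * (6 / (t' - t))) s := by
  unfold sg
  have h1 : HasDerivAt (fun s : ℝ => 6 * (s - (t + t') / 2) / (t' - t)) (6 / (t' - t)) s := by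
    have := (((hasDerivAt_id s).sub_const ((t + t') / 2)).const_mul 6).div_const (t' - t)
    simpa using this
  have h2 : HasDerivAt sh.τ (deriv sh.τ (6 * (s - (t + t') / 2) / (t' - t)))
      (6 * (s - (t + t') / 2) / (t' - t)) :=
    ((sh.τ_smooth.differentiable (by simp)) _).hasDerivAt
  exact h2.comp s h1

lemma sg_low (sh : Shape) (t t' s : ℝ) (htt : t < t') (hs : s ≤ t + (t' - t) / 3) :
    sg sh t t' s = 0 := by
  unfold sg
  apply sh.τ_low
  rw [div_le_iff₀ (by linarith)]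
  linarith

lemma sg_high (sh : Shape) (t t' s : ℝ) (htt : t < t') (hs : t' - (t' - t) / 3 ≤ s) :
    sg sh t t' s = 1 := by
  unfold sg
  apply sh.τ_high
  rw [le_div_iff₀ (by linarith)]
  linarith

lemma sg_mem (sh : Shape) (t t' s : ℝ) : 0 ≤ sg sh t t' s ∧ sg sh t t' s ≤ 1 := sh.τ_mem _

/-- The derivative of the correction. -/
noncomputable def gd (sh : Shape) (t t' δ s : ℝ) : ℝ :=
  (1 - sh.τ ((s - t - 2 * δ) / δ)) * (1 - sg sh t t' s)
    - hh sh t δ s * (deriv sh.τ (6 * (s - (t + t') / 2) / (t' - t)) * (6 / (t' - t)))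

lemma gg_deriv (sh : Shape) (t t' δ s : ℝ) (hδ : 0 < δ) :
    HasDerivAt (gg sh t t' δ) (gd sh t t' δ s) s := by
  unfold gg gd
  have h := (hh_deriv sh t δ s hδ).mul ((sg_deriv sh t t' s).const_sub 1)
  have e : (1 - sh.τ ((s - t - 2 * δ) / δ)) * (1 - sg sh t t' s)
      + hh sh t δ s * -(deriv sh.τ (6 * (s - (t + t') / 2) / (t' - t)) * (6 / (t' - t))) =
      (1 - sh.τ ((s - t - 2 * δ) / δ)) * (1 - sg sh t t' s)
        - hh sh t δ s * (deriv sh.τ (6 * (s - (t + t') / 2) / (t' - t)) * (6 / (t' - t))) := by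
    ring
  rw [e] at h
  exact h

/-- The path. -/
noncomputable def pa {n : ℕ} (sh : Shape) (Q V V' : St n) (t t' δ s : ℝ) : St n :=
  lin Q V' t s + gg sh t t' δ s • (V - V')

lemma pa_smooth {n : ℕ} (sh : Shape) (Q V V' : St n) (t t' δ : ℝ) :
    ContDiff ℝ ∞ (pa sh Q V V' t t' δ) := by
  unfold pa lin
  exact (contDiff_const.add ((contDiff_id.sub contDiff_const).smul contDiff_const)).add
    ((gg_smooth sh t t' δ).smul contDiff_const)

lemma lin_hasDerivAt {n : ℕ} (Q V : St n) (t s : ℝ) : HasDerivAt (lin Q V t) V s := by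
  unfold lin
  have h1 : HasDerivAt (fun s : ℝ => s - t) 1 s := (hasDerivAt_id s).sub_const t
  have h2 := (h1.smul_const V).const_add Q
  simpa using h2

lemma pa_deriv {n : ℕ} (sh : Shape) (Q V V' : St n) (t t' δ s : ℝ) (hδ : 0 < δ) :
    deriv (pa sh Q V V' t t' δ) s = V' + gd sh t t' δ s • (V - V') := by
  have h1 := (gg_deriv sh t t' δ s hδ).smul_const (V - V')
  have h2 := (lin_hasDerivAt Q V' t s).add h1
  exact h2.deriv

lemma lin_lin {n : ℕ} (Q V : St n) (t t' s : ℝ) : lin (lin Q V t t') V t' s = lin Q V t s := by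
  unfold lin
  rw [add_assoc, ← add_smul]
  congr 2
  ring

lemma pa_low {n : ℕ} (sh : Shape) (Q V V' : St n) (t t' δ s : ℝ) (hδ : 0 < δ) (htt : t < t')
    (h : s ≤ t + δ) (h3 : δ ≤ (t' - t) / 3) : pa sh Q V V' t t' δ s = lin Q V t s := by
  unfold pa gg
  rw [hh_low sh t δ s hδ h, sg_low sh t t' s htt (by linarith)]
  unfold lin
  rw [sub_zero, mul_one, smul_sub, add_assoc]
  congr 1
  abel

lemma pa_high {n : ℕ} (sh : Shape) (Q V V' : St n) (t t' δ s : ℝ) (htt : t < t')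
    (h : t' - (t' - t) / 3 ≤ s) : pa sh Q V V' t t' δ s = lin Q V' t s := by
  unfold pa gg
  rw [sg_high sh t t' s htt h]
  simp

end LCA.SWI

namespace LCA

open Set Filter
open scoped ContDiff Topology
open SWI

theorem t_SWI (hOPC : Stmt_OPC) (hCER : Stmt_CER) (hPHG : Stmt_PHG) (hPST : Stmt_PST)
    (hATR : Stmt_ATR) (hSM2 : Stmt_SM2) : Stmt_SWI := by
  intro m n K sh c w Q V V' t t' hval hw hAt htt hseg hlin
  have hU : IsOpen {a : St n × St n | c.Cert w a.1 a.2} := hOPC c w hw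
  -- the two tubes
  obtain ⟨ρ₁, hρ₁, hT₁⟩ := tube
    (fun l a b => ((Q + a • V' + b • (V - V'), (1 - l) • V + l • V') : St n × St n))
    (by fun_prop) _ hU (Icc 0 1) isCompact_Icc (by
      intro l hl
      have := hseg l hl
      simpa using this)
  obtain ⟨η, hη, hη'⟩ : ∃ η > 0, ∀ s ∈ Icc t (t' + η), c.Cert w (lin Q V' t s) V' := by
    have hc : Continuous (fun s : ℝ => ((lin Q V' t s, V') : St n × St n)) := by
      unfold lin; fun_prop
    have hO : IsOpen ((fun s : ℝ => ((lin Q V' t s, V') : St n × St n)) ⁻¹'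
      {a : St n × St n | c.Cert w a.1 a.2}) := hU.preimage hc
    obtain ⟨η, hη, hb⟩ := Metric.isOpen_iff.1 hO t' (hlin t' ⟨htt.le, le_rfl⟩)
    refine ⟨η / 2, by positivity, fun s hs => ?_⟩
    by_cases h : s ≤ t'
    · exact hlin s ⟨hs.1, h⟩
    · have : s ∈ Metric.ball t' η := by
        rw [Metric.mem_ball, Real.dist_eq, abs_of_pos (by linarith)]
        linarith [hs.2]
      exact hb this
  obtain ⟨ρ₂, hρ₂, hT₂⟩ := tube
    (fun s a b => ((lin Q V' t s + a • (V - V'), V' + b • (V - V')) : St n × St n))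
    (by unfold lin; fun_prop) _ hU (Icc t (t' + η)) isCompact_Icc (by
      intro s hs
      have := hη' s hs
      simpa using this)
  obtain ⟨C, hC, hCb⟩ := tau_deriv_bd sh
  -- the choice of δ
  have htp : 0 < t' - t := by linarith
  set L : ℝ := C * (6 / (t' - t)) with hL
  have hLp : 0 < L := by positivity
  obtain ⟨δ, hδ, hδ1, hδ2, hδ3, hδ4⟩ : ∃ δ > 0, 5 * δ < ρ₁ ∧ 2 * δ < ρ₂ ∧ 2 * δ * L < ρ₂ ∧
      δ ≤ (t' - t) / 9 := by
    refine ⟨min (min (ρ₁ / 6) (ρ₂ / 3)) (min (ρ₂ / (3 * L)) ((t' - t) / 9)), by positivity,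
      ?_, ?_, ?_, ?_⟩
    · have : min (min (ρ₁ / 6) (ρ₂ / 3)) (min (ρ₂ / (3 * L)) ((t' - t) / 9)) ≤ ρ₁ / 6 :=
        (min_le_left _ _).trans (min_le_left _ _)
      linarith
    · have : min (min (ρ₁ / 6) (ρ₂ / 3)) (min (ρ₂ / (3 * L)) ((t' - t) / 9)) ≤ ρ₂ / 3 :=
        (min_le_left _ _).trans (min_le_right _ _)
      linarith
    · have h1 : min (min (ρ₁ / 6) (ρ₂ / 3)) (min (ρ₂ / (3 * L)) ((t' - t) / 9)) ≤ ρ₂ / (3 * L) :=
        (min_le_right _ _).trans (min_le_left _ _)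
      rw [le_div_iff₀ (by positivity)] at h1
      linarith
    · exact (min_le_right _ _).trans (min_le_right _ _)
  obtain ⟨ε, hε, hε1, hε2⟩ : ∃ ε > 0, ε ≤ δ ∧ ε ≤ η :=
    ⟨min δ η, lt_min hδ hη, min_le_left _ _, min_le_right _ _⟩
  set q : ℝ → St n := pa sh Q V V' t t' δ with hq
  -- the certificates
  have hcert : ∀ s ∈ Ioo (t - ε) (t' + ε), c.Cert w (q s) (deriv q s) := by
    intro s hs
    rw [hq, pa_deriv sh Q V V' t t' δ s hδ]
    by_cases h : s ≤ t + 3 * δ
    · have hsg : sg sh t t' s = 0 := sg_low sh t t' s htt (by linarith)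
      -- the derivative of the cut off vanishes
      have hz : deriv sh.τ (6 * (s - (t + t') / 2) / (t' - t)) = 0 := by
        have hle : 6 * (s - (t + t') / 2) / (t' - t) ≤ -1 := by
          rw [div_le_iff₀ htp]; linarith
        have hmin : IsLocalMin sh.τ (6 * (s - (t + t') / 2) / (t' - t)) := by
          filter_upwards with v
          rw [sh.τ_low _ hle]
          exact (sh.τ_mem v).1
        exact hmin.deriv_eq_zero
      have hgd : gd sh t t' δ s = 1 - sh.τ ((s - t - 2 * δ) / δ) := by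
        unfold gd
        rw [hsg, hz]; ring
      have hgg : gg sh t t' δ s = hh sh t δ s := by
        unfold gg
        rw [hsg]; ring
      have hm := sh.τ_mem ((s - t - 2 * δ) / δ)
      have ha : |s - t| < ρ₁ := by
        rw [abs_lt]
        constructor <;> linarith [hs.1]
      have hb : |hh sh t δ s| < ρ₁ :=
        lt_of_le_of_lt (hh_bd sh t δ s hδ (by linarith [hs.1]) h) hδ1
      have key := hT₁ (sh.τ ((s - t - 2 * δ) / δ)) ⟨hm.1, hm.2⟩ (s - t) (hh sh t δ s) ha hb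
      have e1 : pa sh Q V V' t t' δ s = Q + (s - t) • V' + hh sh t δ s • (V - V') := by
        unfold pa
        rw [hgg]; rfl
      have e2 : V' + gd sh t t' δ s • (V - V') =
          (1 - sh.τ ((s - t - 2 * δ) / δ)) • V + sh.τ ((s - t - 2 * δ) / δ) • V' := by
        rw [hgd]
        module
      rw [e1, e2]
      exact key
    · push Not at h
      have hh1 : hh sh t δ s = 2 * δ := hh_high sh t δ s hδ h.le
      have hτ1 : sh.τ ((s - t - 2 * δ) / δ) = 1 := by
        apply sh.τ_high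
        rw [le_div_iff₀ hδ]; linarith
      have hsm := sg_mem sh t t' s
      have ha : |gg sh t t' δ s| < ρ₂ := by
        unfold gg
        rw [hh1, abs_mul, abs_of_pos (by positivity : 0 < 2 * δ), abs_of_nonneg (by linarith)]
        have : 2 * δ * (1 - sg sh t t' s) ≤ 2 * δ * 1 :=
          mul_le_mul_of_nonneg_left (by linarith) (by positivity)
        linarith
      have hb : |gd sh t t' δ s| < ρ₂ := by
        unfold gd
        have e0 : |2 * δ| = 2 * δ := abs_of_pos (by positivity)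
        have e1 : |6 / (t' - t)| = 6 / (t' - t) := abs_of_pos (by positivity)
        rw [hh1, hτ1, sub_self, zero_mul, zero_sub, abs_neg, abs_mul (2 * δ), abs_mul (deriv _ _),
          e0, e1]
        have h3 : |deriv sh.τ (6 * (s - (t + t') / 2) / (t' - t))| * (6 / (t' - t)) ≤ L :=
          mul_le_mul_of_nonneg_right (hCb _) (by positivity)
        have h4 : 2 * δ * (|deriv sh.τ (6 * (s - (t + t') / 2) / (t' - t))| * (6 / (t' - t))) ≤
          2 * δ * L := mul_le_mul_of_nonneg_left h3 (by positivity)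
        linarith
      exact hT₂ s ⟨by linarith, by linarith [hs.2]⟩ _ _ ha hb
  -- the phase
  have hprof : ∀ i, ProfOK (Ioo (t - ε) (t' + ε)) (c.ty i) (fun s => c.dl (q s) i)
      (c.sp sh i) := by
    intro i
    exact hPST sh _ (c.ty i) _ (fun s hs hi => (hcert s hs).tip i hi)
  have hphase : IsPhase c w (Ioo (t - ε) (t' + ε)) (c.sp sh) q := by
    refine ⟨hval, hw, isOpen_Ioo, ordConnected_Ioo, (pa_smooth sh Q V V' t t' δ).contDiffOn,
      hprof, fun s hs => ?_⟩
    exact hCER c w (c.sp sh) s (q s) (deriv q s) hval hw (fun i => (hprof i).bd s hs) (hcert s hs)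
  obtain ⟨hG, hD, -⟩ := hPHG c w _ _ q hphase
  refine hATR K sh c w Q V t c w (lin Q V' t t') V' t' ε (c.surf w (c.sp sh) q) htt hε hAt hG hD
    ?_ ?_
  · intro r hr
    have e : ∀ s ∈ Ioo (t - ε) (t + ε), q s = lin Q V t s := by
      intro s hs
      exact pa_low sh Q V V' t t' δ s hδ htt (by linarith [hs.2]) (by linarith)
    have e2 : deriv q r.1 = deriv (lin Q V t) r.1 := by
      apply Filter.EventuallyEq.deriv_eq
      filter_upwards [isOpen_Ioo.mem_nhds hr] with s hs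
      exact e s hs
    unfold Comb.surf
    simp only [Set.mem_ofPred_eq]
    rw [e2, e r.1 hr]
  · intro r hr
    have e : ∀ s ∈ Ioo (t' - ε) (t' + ε), q s = lin (lin Q V' t t') V' t' s := by
      intro s hs
      rw [lin_lin]
      exact pa_high sh Q V V' t t' δ s htt (by linarith [hs.1])
    have e2 : deriv q r.1 = deriv (lin (lin Q V' t t') V' t') r.1 := by
      apply Filter.EventuallyEq.deriv_eq
      filter_upwards [isOpen_Ioo.mem_nhds hr] with s hs
      exact e s hs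
    unfold Comb.surf
    simp only [Set.mem_ofPred_eq]
    rw [e2, e r.1 hr]

end LCA
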