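import Pool.Agent.LCA.Stmts3

/-!
# SWP: exchange of the edges at a tip
-/

namespace LCA

open Set Filter
open scoped ContDiff Topology

namespace SWP

variable {m n : ℕ}

theorem deriv_xi_neg (sh : Shape) (u : ℝ) : deriv sh.ξ (-u) = -deriv sh.ξ u := by
  have h1 : (fun u => sh.ξ (-u)) = sh.ξ := funext sh.ξ_even
  have h2 : deriv (fun u => sh.ξ (-u)) u = -deriv sh.ξ (-u) := deriv_comp_neg _ _
  rw [h1] at h2
  linarith

/-- The symmetry of the primitive at a tip. -/
theorem theta_symm (sh : Shape) (u : ℝ) : sh.ΘR (-u) = sh.ξ u - sh.ΘR u := by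
  have hd : ∀ x, HasDerivAt (fun u => sh.ΘR u + sh.ΘR (-u) - sh.ξ u) 0 x := by
    intro x
    have h1 := sh.ΘR_deriv x
    have h2 : HasDerivAt (fun u => sh.ΘR (-u)) (-(sh.τ (-x) * deriv sh.ξ (-x))) x := by
      have h3 : HasDerivAt sh.ΘR (sh.τ (-x) * deriv sh.ξ (-x)) (-x) := sh.ΘR_deriv (-x)
      have h4 := h3.comp x (hasDerivAt_neg x)
      refine h4.congr_deriv ?_
      ring
    have h5 : HasDerivAt sh.ξ (deriv sh.ξ x) x :=
      ((sh.ξ_smooth.differentiable (by simp)) x).hasDerivAt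
    refine ((h1.add h2).sub h5).congr_deriv ?_
    rw [deriv_xi_neg, sh.τ_symm]
    ring
  have hc := is_const_of_deriv_eq_zero (fun x => (hd x).differentiableAt)
    (fun x => (hd x).deriv) u 1
  have h1 : sh.ΘR 1 = -1 := sh.ΘR_high 1 le_rfl
  have h2 : sh.ΘR (-1) = 0 := sh.ΘR_low (-1) le_rfl
  have h3 : sh.ξ 1 = -1 := by
    have := sh.ξ_out 1 (by norm_num)
    simpa using this
  simp only [h1, h2, h3] at hc
  linarith

theorem I1l (c : Comb m n) (q : St n) (e : Fin m) :
    q.2 (c.lf e) = c.pe q e * q.1 (c.lf e) + c.ae q e := by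
  unfold Comb.ae
  ring

theorem I2l (c : Comb m n) (q v : St n) (e : Fin m) :
    v.2 (c.lf e) = c.dpe q v e * q.1 (c.lf e) + c.pe q e * v.1 (c.lf e) + c.dae q v e := by
  unfold Comb.dae
  ring

theorem I1r (c : Comb m n) (q : St n) (e : Fin m) (h : q.1 (c.lf e) < q.1 (c.rt e)) :
    q.2 (c.rt e) = c.pe q e * q.1 (c.rt e) + c.ae q e := by
  have h0 : q.1 (c.rt e) - q.1 (c.lf e) ≠ 0 := (sub_pos.2 h).ne'
  have h1 : c.pe q e * (q.1 (c.rt e) - q.1 (c.lf e)) = q.2 (c.rt e) - q.2 (c.lf e) := by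
    unfold Comb.pe
    field_simp
  unfold Comb.ae
  linarith

theorem I2r (c : Comb m n) (q v : St n) (e : Fin m) (h : q.1 (c.lf e) < q.1 (c.rt e)) :
    v.2 (c.rt e) = c.dpe q v e * q.1 (c.rt e) + c.pe q e * v.1 (c.rt e) + c.dae q v e := by
  have h0 : q.1 (c.rt e) - q.1 (c.lf e) ≠ 0 := (sub_pos.2 h).ne'
  have h1 : c.dpe q v e * (q.1 (c.rt e) - q.1 (c.lf e)) =
      v.2 (c.rt e) - v.2 (c.lf e) - c.pe q e * (v.1 (c.rt e) - v.1 (c.lf e)) := by
    unfold Comb.dpe
    field_simp
  unfold Comb.dae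
  linarith

variable {c c' : Comb m n} {i : Fin n}

theorem pe_eq (H : SwpComb c c' i) (q : St n) (e : Fin m) : c'.pe q e = c.pe q e := by
  unfold Comb.pe
  rw [H.lf, H.rt]

theorem ae_eq (H : SwpComb c c' i) (q : St n) (e : Fin m) : c'.ae q e = c.ae q e := by
  unfold Comb.ae
  rw [pe_eq H, H.lf]

theorem dpe_eq (H : SwpComb c c' i) (q v : St n) (e : Fin m) : c'.dpe q v e = c.dpe q v e := by
  unfold Comb.dpe
  rw [pe_eq H, H.lf, H.rt]

theorem dae_eq (H : SwpComb c c' i) (q v : St n) (e : Fin m) : c'.dae q v e = c.dae q v e := by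
  unfold Comb.dae
  rw [dpe_eq H, pe_eq H, H.lf]

theorem ept_eq (H : SwpComb c c' i) (q v : St n) (e : Fin m) (x : ℝ) :
    c'.ept q v e x = c.ept q v e x := by
  unfold Comb.ept
  rw [dpe_eq H, dae_eq H, pe_eq H, ae_eq H]

theorem rg_eq (H : SwpComb c c' i) (w : Fin n → ℝ) (q : St n) (e : Fin m) :
    c'.rg w q e = c.rg w q e := by
  unfold Comb.rg
  rw [H.lf, H.rt]

theorem vp_eq (H : SwpComb c c' i) (sh : Shape) (w : Fin n → ℝ) (q v : St n) (j : Fin n)
    (hj : j ≠ i) (u : ℝ) :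
    c'.vp w (c'.sp sh) 0 q v j u = c.vp w (c.sp sh) 0 q v j u := by
  unfold Comb.vp Comb.vpt Comb.dl Comb.sp
  rw [H.ty, H.ea' j hj, H.eb' j hj]
  simp only [pe_eq H, ae_eq H, dpe_eq H, dae_eq H]

theorem valid' (H : SwpComb c c' i) : c'.Valid := by
  have hty : c.ty i = .R ∨ c.ty i = .L := by
    have h := H.tip
    cases h' : c.ty i
    · exact absurd h' h
    · exact Or.inl rfl
    · exact Or.inr rfl
  constructor
  · intro j
    by_cases hj : j = i
    · subst hj
      have h := H.valid.okb j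
      unfold Comb.OKb at h
      unfold Comb.OKa
      rw [H.ty, H.ea, H.rt, H.lf]
      rcases hty with ht | ht
      · simp only [ht] at h ⊢
        exact h
      · simp only [ht] at h ⊢
        exact h
    · have h := H.valid.oka j
      unfold Comb.OKa at h ⊢
      rw [H.ty, H.ea' j hj, H.rt, H.lf]
      exact h
  · intro j
    by_cases hj : j = i
    · subst hj
      have h := H.valid.oka j
      unfold Comb.OKa at h
      unfold Comb.OKb
      rw [H.ty, H.eb, H.rt, H.lf]
      rcases hty with ht | ht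
      · simp only [ht] at h ⊢
        exact h
      · simp only [ht] at h ⊢
        exact h
    · have h := H.valid.okb j
      unfold Comb.OKb at h ⊢
      rw [H.ty, H.eb' j hj, H.rt, H.lf]
      exact h
  · intro j
    by_cases hj : j = i
    · subst hj
      rw [H.ea, H.eb]
      exact (H.valid.ne j).symm
    · rw [H.ea' j hj, H.eb' j hj]
      exact H.valid.ne j
  · intro e
    rw [H.rt, H.ty]
    by_cases hj : c.rt e = i
    · rw [hj, H.ea, H.eb]
      rcases H.valid.rt e with ⟨h1, h2⟩ | ⟨h1, h2⟩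
      · rw [hj] at h1 h2
        refine Or.inr ⟨?_, h2⟩
        rcases hty with ht | ht
        · exact ht
        · exact absurd ht h1
      · rw [hj] at h1 h2
        refine Or.inl ⟨?_, h2⟩
        rw [h1]
        decide
    · rw [H.ea' _ hj, H.eb' _ hj]
      exact H.valid.rt e
  · intro e
    rw [H.lf, H.ty]
    by_cases hj : c.lf e = i
    · rw [hj, H.ea, H.eb]
      rcases H.valid.lf e with ⟨h1, h2⟩ | ⟨h1, h2⟩
      · rw [hj] at h1 h2
        refine Or.inr ⟨?_, h2⟩
        rw [h1]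
        decide
      · rw [hj] at h1 h2
        refine Or.inl ⟨?_, h2⟩
        rcases hty with ht | ht
        · exact absurd ht h1
        · exact ht
    · rw [H.ea' _ hj, H.eb' _ hj]
      exact H.valid.lf e

/-- The piece of the tip with exchanged edges. -/
theorem vp_swap (H : SwpComb c c' i) (sh : Shape) (w : Fin n → ℝ) (q v : St n)
    (hq : ∀ e, q.1 (c.lf e) < q.1 (c.rt e)) (u : ℝ) :
    c'.vp w (c'.sp sh) 0 q v i (-u) = c.vp w (c.sp sh) 0 q v i u := by
  have hA1 : q.2 i = c.pe q (c.ea i) * q.1 i + c.ae q (c.ea i) := by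
    have h := H.valid.oka i
    unfold Comb.OKa at h
    cases ht : c.ty i
    · exact absurd ht H.tip
    · simp only [ht] at h
      have := I1r c q (c.ea i) (hq _)
      rwa [h] at this
    · simp only [ht] at h
      have := I1l c q (c.ea i)
      rwa [h] at this
  have hA2 : v.2 i = c.dpe q v (c.ea i) * q.1 i + c.pe q (c.ea i) * v.1 i
      + c.dae q v (c.ea i) := by
    have h := H.valid.oka i
    unfold Comb.OKa at h
    cases ht : c.ty i
    · exact absurd ht H.tip
    · simp only [ht] at h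
      have := I2r c q v (c.ea i) (hq _)
      rwa [h] at this
    · simp only [ht] at h
      have := I2l c q v (c.ea i)
      rwa [h] at this
  have hB1 : q.2 i = c.pe q (c.eb i) * q.1 i + c.ae q (c.eb i) := by
    have h := H.valid.okb i
    unfold Comb.OKb at h
    cases ht : c.ty i
    · exact absurd ht H.tip
    · simp only [ht] at h
      have := I1r c q (c.eb i) (hq _)
      rwa [h] at this
    · simp only [ht] at h
      have := I1l c q (c.eb i)
      rwa [h] at this
  have hB2 : v.2 i = c.dpe q v (c.eb i) * q.1 i + c.pe q (c.eb i) * v.1 i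
      + c.dae q v (c.eb i) := by
    have h := H.valid.okb i
    unfold Comb.OKb at h
    cases ht : c.ty i
    · exact absurd ht H.tip
    · simp only [ht] at h
      have := I2r c q v (c.eb i) (hq _)
      rwa [h] at this
    · simp only [ht] at h
      have := I2l c q v (c.eb i)
      rwa [h] at this
  have h1 : c.ae q (c.eb i) = c.ae q (c.ea i) - (c.pe q (c.eb i) - c.pe q (c.ea i)) * q.1 i := by
    linarith
  have h2 : c.dae q v (c.eb i) = c.dae q v (c.ea i)
      - (c.dpe q v (c.eb i) - c.dpe q v (c.ea i)) * q.1 i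
      - (c.pe q (c.eb i) - c.pe q (c.ea i)) * v.1 i := by
    linarith
  have hτ := sh.τ_symm u
  have hξ := sh.ξ_even u
  have hΘ := theta_symm sh u
  cases ht : c.ty i
  · exact absurd ht H.tip
  · unfold Comb.vp Comb.vpt Comb.dl Comb.sp Shape.st
    simp only [H.ty, ht, H.ea, H.eb, pe_eq H, ae_eq H, dpe_eq H, dae_eq H, h1, h2, hτ, hξ, hΘ]
    refine Prod.ext rfl (Prod.ext ?_ (Prod.ext ?_ ?_)) <;> dsimp only <;> ring
  · unfold Comb.vp Comb.vpt Comb.dl Comb.sp Shape.st
    simp only [H.ty, ht, H.ea, H.eb, pe_eq H, ae_eq H, dpe_eq H, dae_eq H, h1, h2, hτ, hξ, hΘ]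
    refine Prod.ext rfl (Prod.ext ?_ (Prod.ext ?_ ?_)) <;> dsimp only <;> ring

end SWP

theorem t_SWP : Stmt_SWP := by
  intro m n sh c c' w i q v H hq
  refine ⟨SWP.valid' H, ?_⟩
  ext r
  constructor
  · rintro (⟨e, x, hx, rfl⟩ | ⟨j, u, hu, rfl⟩)
    · exact Or.inl ⟨e, x, by rwa [SWP.rg_eq H], (SWP.ept_eq H q v e x).symm⟩
    · by_cases hj : j = i
      · subst hj
        exact Or.inr ⟨j, -u, by rwa [abs_neg], (SWP.vp_swap H sh w q v hq u).symm⟩
      · exact Or.inr ⟨j, u, hu, (SWP.vp_eq H sh w q v j hj u).symm⟩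
  · rintro (⟨e, x, hx, rfl⟩ | ⟨j, u, hu, rfl⟩)
    · exact Or.inl ⟨e, x, by rwa [SWP.rg_eq H] at hx, SWP.ept_eq H q v e x⟩
    · by_cases hj : j = i
      · subst hj
        refine Or.inr ⟨j, -u, by rwa [abs_neg], ?_⟩
        have := SWP.vp_swap H sh w q v hq (-u)
        rwa [neg_neg] at this
      · exact Or.inr ⟨j, u, hu, SWP.vp_eq H sh w q v j hj u⟩

end LCA
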