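import Pool.Agent.LCA.Stmts1

/-!
# TCH: charts of the surface in the symplectization
-/

namespace LCA

open Set Filter
open scoped ContDiff Topology

namespace TCH

/-- the projection of a point of the symplectization to `(s, x, p, z)` -/
noncomputable def rho (q : LC.R4) : ℝ × ℝ × ℝ × ℝ :=
  (Real.exp q.1, q.2.1, Real.exp q.1 * q.2.2.1, q.2.2.2)

/-- the point of the symplectization -/
noncomputable def sg (r : E5) : LC.R4 :=
  (Real.log r.1, (r.2.1, (r.2.2.1 / r.1, r.2.2.2.1)))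

theorem rho_sg {r : E5} (h : 0 < r.1) : rho (sg r) = pr4 r := by
  unfold rho sg pr4
  simp only [Real.exp_log h]
  rw [mul_div_cancel₀ _ h.ne']

theorem sg_mk (q : LC.R4) (F : ℝ) :
    sg (Real.exp q.1, q.2.1, Real.exp q.1 * q.2.2.1, q.2.2.2, F) = q := by
  unfold sg
  simp only [Real.log_exp]
  rw [mul_div_cancel_left₀ _ (Real.exp_ne_zero _)]

theorem rho_smooth : ContDiff ℝ ∞ rho := by
  unfold rho
  have h1 : ContDiff ℝ ∞ fun q : LC.R4 => Real.exp q.1 := Real.contDiff_exp.comp contDiff_fst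
  have h2 : ContDiff ℝ ∞ fun q : LC.R4 => q.2.1 := contDiff_fst.comp contDiff_snd
  have h3 : ContDiff ℝ ∞ fun q : LC.R4 => q.2.2.1 :=
    contDiff_fst.comp (contDiff_snd.comp contDiff_snd)
  have h4 : ContDiff ℝ ∞ fun q : LC.R4 => q.2.2.2 :=
    contDiff_snd.comp (contDiff_snd.comp contDiff_snd)
  exact h1.prodMk (h2.prodMk ((h1.mul h3).prodMk h4))

theorem sg_smooth {r : E5} (h : 0 < r.1) : ContDiffAt ℝ ∞ sg r := by
  unfold sg
  have h1 : ContDiffAt ℝ ∞ (fun r : E5 => r.1) r := contDiffAt_fst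
  have h2 : ContDiffAt ℝ ∞ (fun r : E5 => r.2.1) r :=
    (contDiff_fst.comp contDiff_snd).contDiffAt
  have h3 : ContDiffAt ℝ ∞ (fun r : E5 => r.2.2.1) r :=
    (contDiff_fst.comp (contDiff_snd.comp contDiff_snd)).contDiffAt
  have h4 : ContDiffAt ℝ ∞ (fun r : E5 => r.2.2.2.1) r :=
    (contDiff_fst.comp (contDiff_snd.comp (contDiff_snd.comp contDiff_snd))).contDiffAt
  exact (h1.log h.ne').prodMk (h2.prodMk ((h3.div h1 h.ne').prodMk h4))

theorem pr4_cont : Continuous pr4 := by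
  unfold pr4
  fun_prop

/-- a continuous local inverse gives an embedding -/
theorem emb {X Y : Type} [TopologicalSpace X] [TopologicalSpace Y] {U : Set X} {φ : X → Y}
    {G : Y → X} (hφ : ContinuousOn φ U) (hG : ∀ u ∈ U, ContinuousAt G (φ u))
    (h : ∀ u ∈ U, G (φ u) = u) : Topology.IsEmbedding fun u : U => φ u := by
  have hc : Continuous fun u : U => φ u := continuousOn_iff_continuous_domRestrict.1 hφ
  refine ⟨?_, ?_⟩
  · rw [Topology.isInducing_iff_nhds]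
    intro x
    apply le_antisymm
    · exact (hc.tendsto x).le_comap
    · rw [nhds_subtype_eq_comap, ← Filter.tendsto_iff_comap]
      have h1 : Tendsto (fun u : U => G (φ u)) (comap (fun u : U => φ u) (𝓝 (φ x)))
          (𝓝 (G (φ x))) := (hG x x.2).tendsto.comp tendsto_comap
      rw [h x x.2] at h1
      refine h1.congr ?_
      intro u
      exact h u u.2
  · intro u v huv
    apply Subtype.ext
    rw [← h u u.2, ← h v v.2]
    exact congrArg G huv

end TCH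

open TCH in
theorem t_TCH (hLFI : Stmt_LFI) : Stmt_TCH := by
  intro A hA p hp
  obtain ⟨F₀, hF₀⟩ := hp
  set q₀ : E5 := (Real.exp p.1, p.2.1, Real.exp p.1 * p.2.2.1, p.2.2.2, F₀) with hq₀
  have hpos : 0 < q₀.1 := Real.exp_pos _
  obtain ⟨f, a, hf, hfa, hfA, hN⟩ := hA.chart q₀ hF₀ hpos
  obtain ⟨g, U₀, V₀, hU₀, haU₀, hV₀, haV₀, hfs, hgs, hg⟩ := hLFI f a hf
  -- the open set `U₁`
  have hev : ∀ᶠ b in 𝓝 a, b ∈ U₀ ∧ f b ∈ A ∧ 0 < (f b).1 := by
    have h0 : ∀ᶠ b in 𝓝 a, b ∈ U₀ := hU₀.mem_nhds haU₀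
    refine h0.and (hfA.and ?_)
    have h1 : ContinuousAt f a := (hfs.continuousOn.continuousAt (hU₀.mem_nhds haU₀))
    have h2 : ContinuousAt (fun b => (f b).1) a := continuous_fst.continuousAt.comp h1
    refine h2.eventually (lt_mem_nhds ?_)
    show 0 < (f a).1
    rw [hfa]
    exact hpos
  obtain ⟨U₁, hU₁s, hU₁o, haU₁⟩ := mem_nhds_iff.1 hev
  -- the neighbourhood `W`
  have hW := hN U₁ (hU₁o.mem_nhds haU₁)
  rw [mem_nhdsWithin] at hW
  obtain ⟨W, hWo, hqW, hWA⟩ := hW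
  -- the compact set `C`
  set s₁ : ℝ := q₀.1 / 2 with hs₁
  set s₂ : ℝ := 2 * q₀.1 with hs₂
  have hs₁0 : 0 < s₁ := by positivity
  obtain ⟨M, hM⟩ := hA.bounded (Icc s₁ s₂) (fun s hs => hs₁0.trans_le hs.1) isCompact_Icc
  set C : Set E5 := {q ∈ A | q.1 ∈ Icc s₁ s₂} \ W with hC
  have hCclosed : IsClosed C := by
    have h1 : IsClosed {q ∈ A | q.1 ∈ Icc s₁ s₂} := by
      rw [← closure_subset_iff_isClosed]
      intro q hq
      have h2 : q ∈ closure A := closure_mono (fun r hr => hr.1) hq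
      have h3 : q.1 ∈ Icc s₁ s₂ := by
        have h4 : IsClosed {r : E5 | r.1 ∈ Icc s₁ s₂} := isClosed_Icc.preimage continuous_fst
        have h5 : q ∈ closure {r : E5 | r.1 ∈ Icc s₁ s₂} := closure_mono (fun r hr => hr.2) hq
        rw [h4.closure_eq] at h5
        exact h5
      exact ⟨hA.closed q h2 (hs₁0.trans_le h3.1), h3⟩
    exact h1.sdiff hWo
  have hCcomp : IsCompact C := by
    refine Metric.isCompact_of_isClosed_isBounded hCclosed ?_
    rw [isBounded_iff_forall_norm_le]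
    refine ⟨max s₂ M, ?_⟩
    intro q hq
    have h1 : q ∈ A := hq.1.1
    have h2 : q.1 ∈ Icc s₁ s₂ := hq.1.2
    rw [Prod.norm_def]
    apply max_le
    · rw [Real.norm_eq_abs, abs_of_pos (hs₁0.trans_le h2.1)]
      exact h2.2.trans (le_max_left _ _)
    · exact (hM q h1 h2).trans (le_max_right _ _)
  have hI : IsClosed (pr4 '' C) := (hCcomp.image pr4_cont).isClosed
  have hnot : pr4 q₀ ∉ pr4 '' C := by
    rintro ⟨q, hq, hqe⟩
    unfold pr4 at hqe
    simp only [Prod.mk.injEq] at hqe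
    have h1 : q = q₀ := hA.inj q hq.1.1 q₀ hF₀ (hs₁0.trans_le hq.1.2.1) hqe.1 hqe.2.1 hqe.2.2.1
      hqe.2.2.2
    rw [h1] at hq
    exact hq.2 hqW
  -- the open set `V`
  set V : Set LC.R4 := rho ⁻¹' {r | r.1 ∈ Ioo s₁ s₂ ∧ r ∉ pr4 '' C} with hV
  have hrc : Continuous rho := rho_smooth.continuous
  have hVo : IsOpen V := by
    apply IsOpen.preimage hrc
    exact (isOpen_Ioo.preimage continuous_fst).inter hI.isOpen_compl
  have hrp : rho p = pr4 q₀ := rfl
  have hpV : p ∈ V := by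
    show (rho p).1 ∈ Ioo s₁ s₂ ∧ rho p ∉ pr4 '' C
    rw [hrp]
    refine ⟨⟨?_, ?_⟩, hnot⟩
    · show s₁ < q₀.1
      rw [hs₁]
      linarith
    · show q₀.1 < s₂
      rw [hs₂]
      linarith
  -- the chart
  set φ : ℝ × ℝ → LC.R4 := fun b => sg (f b) with hφ
  have hφs : ContDiffOn ℝ ∞ φ U₁ := by
    intro b hb
    obtain ⟨h1, h2, h3⟩ := hU₁s hb
    have h4 : ContDiffAt ℝ ∞ f b := (hfs b h1).contDiffAt (hU₀.mem_nhds h1)
    exact ((sg_smooth h3).comp b h4).contDiffWithinAt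
  have hrφ : ∀ b ∈ U₁, rho (φ b) = pr4 (f b) := fun b hb => rho_sg (hU₁s hb).2.2
  set U : Set (ℝ × ℝ) := U₁ ∩ φ ⁻¹' V with hU
  have hUo : IsOpen U := hφs.continuousOn.isOpen_inter_preimage hU₁o hVo
  set G : LC.R4 → ℝ × ℝ := fun q => g (rho q) with hG
  have hGφ : ∀ b ∈ U₁, G (φ b) = b := by
    intro b hb
    show g (rho (φ b)) = b
    rw [hrφ b hb]
    exact (hg b (hU₁s hb).1).2
  have hGs : ∀ b ∈ U₁, ContDiffAt ℝ ∞ G (φ b) := by
    intro b hb
    have h1 : rho (φ b) ∈ V₀ := by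
      rw [hrφ b hb]
      exact (hg b (hU₁s hb).1).1
    have h2 : ContDiffAt ℝ ∞ g (rho (φ b)) := (hgs _ h1).contDiffAt (hV₀.mem_nhds h1)
    exact h2.comp (φ b) rho_smooth.contDiffAt
  refine ⟨U, V, φ, ⟨hUo, hVo, hφs.mono inter_subset_left, ?_, ?_, ?_⟩, hpV⟩
  · intro b hb
    have h1 : DifferentiableAt ℝ φ b :=
      ((hφs b hb.1).contDiffAt (hU₁o.mem_nhds hb.1)).differentiableAt (by simp)
    have h2 : DifferentiableAt ℝ G (φ b) := (hGs b hb.1).differentiableAt (by simp)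
    have h3 : fderiv ℝ (G ∘ φ) b = (fderiv ℝ G (φ b)).comp (fderiv ℝ φ b) := fderiv_comp b h2 h1
    have h4 : G ∘ φ =ᶠ[𝓝 b] id := by
      filter_upwards [hU₁o.mem_nhds hb.1] with c hc
      exact hGφ c hc
    rw [h4.fderiv_eq, fderiv_id] at h3
    intro v w hvw
    have h5 := congrArg (fun l : (ℝ × ℝ) →L[ℝ] (ℝ × ℝ) => l v) h3
    have h6 := congrArg (fun l : (ℝ × ℝ) →L[ℝ] (ℝ × ℝ) => l w) h3
    simp only [ContinuousLinearMap.coe_id', id_eq, ContinuousLinearMap.coe_comp,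
      Function.comp_apply] at h5 h6
    rw [h5, h6, hvw]
  · exact emb (hφs.continuousOn.mono inter_subset_left)
      (fun u hu => (hGs u hu.1).continuousAt) fun u hu => hGφ u hu.1
  · ext q
    constructor
    · rintro ⟨b, hb, rfl⟩
      refine ⟨⟨(f b).2.2.2.2, ?_⟩, hb.2⟩
      have h1 := hrφ b hb.1
      unfold rho pr4 at h1
      simp only [Prod.mk.injEq] at h1
      obtain ⟨e1, e2, e3, e4⟩ := h1
      rw [e3, e1, e2, e4]
      exact (hU₁s hb.1).2.1
    · rintro ⟨⟨F, hF⟩, hqV⟩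
      set r : E5 := (Real.exp q.1, q.2.1, Real.exp q.1 * q.2.2.1, q.2.2.2, F) with hr
      have hrW : r ∈ W := by
        by_contra hrW
        apply hqV.2
        refine ⟨r, ⟨⟨hF, ?_⟩, hrW⟩, rfl⟩
        exact ⟨hqV.1.1.le, hqV.1.2.le⟩
      obtain ⟨b, hb, hfb⟩ := hWA ⟨hrW, hF⟩
      have h1 : φ b = q := by
        show sg (f b) = q
        rw [hfb]
        exact sg_mk q F
      refine ⟨b, ⟨hb, ?_⟩, h1⟩
      show φ b ∈ V
      rw [h1]
      exact hqV

end LCA
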