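import Pool.Agent.LCA.Stmts1

/-!
# TEX: the surface in the symplectization is exact
-/

namespace LCA.TEX

open Set Filter
open scoped ContDiff Topology

/-- The lift of a point. -/
noncomputable def up (q : LC.R4) (F : ℝ) : E5 :=
  (Real.exp q.1, q.2.1, Real.exp q.1 * q.2.2.1, q.2.2.2, F)

/-- The point in the coordinates `(s, x, p, z)`. -/
noncomputable def pi4 (q : LC.R4) : ℝ × ℝ × ℝ × ℝ :=
  (Real.exp q.1, q.2.1, Real.exp q.1 * q.2.2.1, q.2.2.2)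

open Classical in
/-- The value of `F` over a point. -/
noncomputable def FF (A : Set E5) (q : LC.R4) : ℝ :=
  if h : ∃ F, up q F ∈ A then h.choose else 0

theorem FF_spec {A : Set E5} {q : LC.R4} (hq : q ∈ surfL A) : up q (FF A q) ∈ A := by
  have h : ∃ F, up q F ∈ A := hq
  have e : FF A q = h.choose := by
    unfold FF
    exact dif_pos h
  rw [e]
  exact h.choose_spec

theorem FF_eq {A : Set E5} (hG : Good (Ioi 0) A) {q : LC.R4} {F : ℝ} (h : up q F ∈ A) :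
    FF A q = F := by
  have h1 : up q (FF A q) ∈ A := FF_spec ⟨F, h⟩
  have h2 := hG.inj _ h1 _ h (Real.exp_pos _) rfl rfl rfl rfl
  have h3 : (up q (FF A q)).2.2.2.2 = (up q F).2.2.2.2 := by rw [h2]
  exact h3

theorem up_continuous : Continuous (fun a : LC.R4 × ℝ => up a.1 a.2) := by
  unfold up
  fun_prop

theorem pi4_contDiff : ContDiff ℝ ∞ pi4 := by
  unfold pi4
  fun_prop

theorem FF_tendsto {A : Set E5} (hG : Good (Ioi 0) A) {φ : ℝ × ℝ → LC.R4} {u₀ : ℝ × ℝ}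
    (hφ : ContinuousAt φ u₀) (hm : ∀ᶠ w in 𝓝 u₀, φ w ∈ surfL A) :
    Tendsto (fun w => FF A (φ w)) (𝓝 u₀) (𝓝 (FF A (φ u₀))) := by
  have e0 : 0 < Real.exp (φ u₀).1 := Real.exp_pos _
  have hKc : IsCompact (Icc (Real.exp (φ u₀).1 / 2) (2 * Real.exp (φ u₀).1)) := isCompact_Icc
  have hKs : Icc (Real.exp (φ u₀).1 / 2) (2 * Real.exp (φ u₀).1) ⊆ Ioi (0 : ℝ) := by
    intro x hx
    exact lt_of_lt_of_le (by positivity) hx.1
  obtain ⟨M, hM⟩ := hG.bounded _ hKs hKc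
  have hc1 : ContinuousAt (fun w => Real.exp (φ w).1) u₀ := by fun_prop
  have hev : ∀ᶠ w in 𝓝 u₀, Real.exp (φ w).1 ∈
      Icc (Real.exp (φ u₀).1 / 2) (2 * Real.exp (φ u₀).1) := by
    apply hc1
    exact Icc_mem_nhds (by linarith) (by linarith)
  apply (isCompact_Icc (a := -M) (b := M)).tendsto_nhds_of_unique_mapClusterPt
  · filter_upwards [hev, hm] with w hw hw2
    have h1 := hM _ (FF_spec hw2) hw
    have h2 : ‖(up (φ w) (FF A (φ w))).2.2.2.2‖ ≤ M :=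
      (norm_snd_le _).trans ((norm_snd_le _).trans ((norm_snd_le _).trans h1))
    have h3 : |FF A (φ w)| ≤ M := h2
    exact abs_le.1 h3
  · intro y _ hy
    rw [mapClusterPt_iff_frequently] at hy
    have hcl : up (φ u₀) y ∈ closure A := by
      rw [mem_closure_iff_nhds]
      intro N hN
      have hc : Tendsto (fun a : LC.R4 × ℝ => up a.1 a.2) (𝓝 (φ u₀, y)) (𝓝 (up (φ u₀) y)) :=
        up_continuous.continuousAt
      have h1 := hc hN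
      rw [mem_map, mem_nhds_prod_iff] at h1
      obtain ⟨N1, hN1, N2, hN2, h12⟩ := h1
      have h2 : ∀ᶠ w in 𝓝 u₀, φ w ∈ N1 := hφ hN1
      have h3 := (hy N2 hN2).and_eventually (h2.and hm)
      obtain ⟨w, hw1, hw2, hw3⟩ := h3.exists
      exact ⟨up (φ w) (FF A (φ w)), h12 (mk_mem_prod hw2 hw1), FF_spec hw3⟩
    have h4 := hG.closed _ hcl (Real.exp_pos _)
    exact (FF_eq hG h4).symm

/-- Near a point of a chart the lift factors through an exact chart. -/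
theorem factor (hLFI : Stmt_LFI) {A : Set E5} (hG : Good (Ioi 0) A) {φ : ℝ × ℝ → LC.R4}
    {u₀ : ℝ × ℝ} (hφ : ContDiffAt ℝ ∞ φ u₀) (hm : ∀ᶠ w in 𝓝 u₀, φ w ∈ surfL A) :
    ∃ (f₀ : ℝ × ℝ → E5) (κ : ℝ × ℝ → ℝ × ℝ), ExactChart f₀ (κ u₀) ∧ ContDiffAt ℝ ∞ κ u₀ ∧
      ∀ᶠ w in 𝓝 u₀, up (φ w) (FF A (φ w)) = f₀ (κ w) := by
  have hr : up (φ u₀) (FF A (φ u₀)) ∈ A := FF_spec hm.self_of_nhds
  obtain ⟨f₀, a, hE, ha, -, hN⟩ := hG.chart _ hr (Real.exp_pos _)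
  obtain ⟨g, U₀, V₀, hU₀, haU, hV₀, haV, -, hg, hinv⟩ := hLFI f₀ a hE
  have hpa : ((f₀ a).1, (f₀ a).2.1, (f₀ a).2.2.1, (f₀ a).2.2.2.1) = pi4 (φ u₀) := by
    rw [ha]; rfl
  have hga : g (pi4 (φ u₀)) = a := by
    rw [← hpa]
    exact (hinv a haU).2
  have hκs : ContDiffAt ℝ ∞ (fun w => g (pi4 (φ w))) u₀ := by
    have h1 : ContDiffAt ℝ ∞ g (pi4 (φ u₀)) := by
      apply hg.contDiffAt
      exact hV₀.mem_nhds (hpa ▸ haV)
    have h2 : ContDiffAt ℝ ∞ (fun w => pi4 (φ w)) u₀ :=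
      pi4_contDiff.contDiffAt.comp u₀ hφ
    exact ContDiffAt.comp (g := g) (f := fun w => pi4 (φ w)) u₀ h1 h2
  refine ⟨f₀, fun w => g (pi4 (φ w)), ?_, hκs, ?_⟩
  · show ExactChart f₀ (g (pi4 (φ u₀)))
    rw [hga]
    exact hE
  · have hT : Tendsto (fun w => up (φ w) (FF A (φ w))) (𝓝 u₀)
        (𝓝[A] (up (φ u₀) (FF A (φ u₀)))) := by
      apply tendsto_nhdsWithin_iff.2
      constructor
      · have h1 : Tendsto (fun w => (φ w, FF A (φ w))) (𝓝 u₀) (𝓝 (φ u₀, FF A (φ u₀))) :=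
          Filter.Tendsto.prodMk_nhds hφ.continuousAt (FF_tendsto hG hφ.continuousAt hm)
        exact (up_continuous.continuousAt (x := (φ u₀, FF A (φ u₀)))).tendsto.comp h1
      · filter_upwards [hm] with w hw
        exact FF_spec hw
    have h2 := hT (hN U₀ (hU₀.mem_nhds haU))
    rw [mem_map] at h2
    filter_upwards [h2] with w hw
    obtain ⟨b, hb, hfb⟩ := hw
    have h3 : ((f₀ b).1, (f₀ b).2.1, (f₀ b).2.2.1, (f₀ b).2.2.2.1) = pi4 (φ w) := by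
      rw [hfb]; rfl
    have h4 : g (pi4 (φ w)) = b := by
      rw [← h3]
      exact (hinv b hb).2
    rw [h4]
    exact hfb.symm

/-- The primitive. -/
noncomputable def prim (A : Set E5) (q : LC.R4) : ℝ := Real.exp q.1 * q.2.2.2 - FF A q

theorem prim_chart (hLFI : Stmt_LFI) {A : Set E5} (hG : Good (Ioi 0) A) {φ : ℝ × ℝ → LC.R4}
    {u₀ : ℝ × ℝ} (hφ : ContDiffAt ℝ ∞ φ u₀) (hm : ∀ᶠ w in 𝓝 u₀, φ w ∈ surfL A) :
    ContDiffAt ℝ ∞ (fun w => prim A (φ w)) u₀ ∧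
      ∀ v, fderiv ℝ (fun w => prim A (φ w)) u₀ v = LC.lam (φ u₀) (fderiv ℝ φ u₀ v) := by
  obtain ⟨f₀, κ, hE, hκ, hev⟩ := factor hLFI hG hφ hm
  have hf₀ : ContDiffAt ℝ ∞ f₀ (κ u₀) := hE.smooth.self_of_nhds
  have hGs : ContDiffAt ℝ ∞ (fun w => f₀ (κ w)) u₀ := hf₀.comp u₀ hκ
  have heq : (fun w => prim A (φ w)) =ᶠ[𝓝 u₀]
      fun w => Real.exp (φ w).1 * (φ w).2.2.2 - (f₀ (κ w)).2.2.2.2 := by
    filter_upwards [hev] with w hw
    rw [← hw]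
    rfl
  have hs1 : ContDiffAt ℝ ∞ (fun w => Real.exp (φ w).1 * (φ w).2.2.2) u₀ := by fun_prop
  have hs2 : ContDiffAt ℝ ∞ (fun w => (f₀ (κ w)).2.2.2.2) u₀ := by fun_prop
  refine ⟨(hs1.sub hs2).congr_of_eventuallyEq heq, ?_⟩
  intro v
  have hne : (∞ : WithTop ℕ∞) ≠ 0 := by simp
  have dφ : HasFDerivAt φ (fderiv ℝ φ u₀) u₀ := (hφ.differentiableAt hne).hasFDerivAt
  have dκ : HasFDerivAt κ (fderiv ℝ κ u₀) u₀ := (hκ.differentiableAt hne).hasFDerivAt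
  have df : HasFDerivAt f₀ (fderiv ℝ f₀ (κ u₀)) (κ u₀) :=
    (hf₀.differentiableAt hne).hasFDerivAt
  have dG : HasFDerivAt (fun w => f₀ (κ w)) ((fderiv ℝ f₀ (κ u₀)).comp (fderiv ℝ κ u₀)) u₀ :=
    df.comp u₀ dκ
  set G' := (fderiv ℝ f₀ (κ u₀)).comp (fderiv ℝ κ u₀) with hG'
  have hex := hE.exact.self_of_nhds (fderiv ℝ κ u₀ v)
  have hr : up (φ u₀) (FF A (φ u₀)) = f₀ (κ u₀) := hev.self_of_nhds
  have c1 : (f₀ (κ u₀)).2.2.2.1 = (φ u₀).2.2.2 := by rw [← hr]; rfl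
  have c2 : (f₀ (κ u₀)).2.2.1 = Real.exp (φ u₀).1 * (φ u₀).2.2.1 := by rw [← hr]; rfl
  -- the first two coordinates of the derivative
  have d1 : HasFDerivAt (fun w => (f₀ (κ w)).1)
      ((ContinuousLinearMap.fst ℝ ℝ (ℝ × ℝ × ℝ × ℝ)).comp G') u₀ := dG.fst
  have d2 : HasFDerivAt (fun w => (f₀ (κ w)).2.1)
      ((ContinuousLinearMap.fst ℝ ℝ (ℝ × ℝ × ℝ)).comp
        ((ContinuousLinearMap.snd ℝ ℝ (ℝ × ℝ × ℝ × ℝ)).comp G')) u₀ := dG.snd.fst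
  have d5 : HasFDerivAt (fun w => (f₀ (κ w)).2.2.2.2)
      ((ContinuousLinearMap.snd ℝ ℝ ℝ).comp ((ContinuousLinearMap.snd ℝ ℝ (ℝ × ℝ)).comp
        ((ContinuousLinearMap.snd ℝ ℝ (ℝ × ℝ × ℝ)).comp
        ((ContinuousLinearMap.snd ℝ ℝ (ℝ × ℝ × ℝ × ℝ)).comp G')))) u₀ := dG.snd.snd.snd.snd
  have e1 : HasFDerivAt (fun w => Real.exp (φ w).1)
      (Real.exp (φ u₀).1 • ((ContinuousLinearMap.fst ℝ ℝ (ℝ × ℝ × ℝ)).comp (fderiv ℝ φ u₀))) u₀ :=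
    dφ.fst.exp
  have e2 : HasFDerivAt (fun w => (φ w).2.1)
      ((ContinuousLinearMap.fst ℝ ℝ (ℝ × ℝ)).comp
        ((ContinuousLinearMap.snd ℝ ℝ (ℝ × ℝ × ℝ)).comp (fderiv ℝ φ u₀))) u₀ := dφ.snd.fst
  have e3 : HasFDerivAt (fun w => (φ w).2.2.2)
      ((ContinuousLinearMap.snd ℝ ℝ ℝ).comp ((ContinuousLinearMap.snd ℝ ℝ (ℝ × ℝ)).comp
        ((ContinuousLinearMap.snd ℝ ℝ (ℝ × ℝ × ℝ)).comp (fderiv ℝ φ u₀)))) u₀ := dφ.snd.snd.snd
  have q1 : (fun w => Real.exp (φ w).1) =ᶠ[𝓝 u₀] fun w => (f₀ (κ w)).1 := by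
    filter_upwards [hev] with w hw
    rw [← hw]; rfl
  have q2 : (fun w => (φ w).2.1) =ᶠ[𝓝 u₀] fun w => (f₀ (κ w)).2.1 := by
    filter_upwards [hev] with w hw
    rw [← hw]; rfl
  have g1 : (G' v).1 = Real.exp (φ u₀).1 * (fderiv ℝ φ u₀ v).1 := by
    have := (d1.congr_of_eventuallyEq q1).unique e1
    have := congrArg (fun L => L v) this
    exact this
  have g2 : (G' v).2.1 = (fderiv ℝ φ u₀ v).2.1 := by
    have := (d2.congr_of_eventuallyEq q2).unique e2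
    have := congrArg (fun L => L v) this
    exact this
  have g5 : (G' v).2.2.2.2 = (φ u₀).2.2.2 * (G' v).1 +
      Real.exp (φ u₀).1 * (φ u₀).2.2.1 * (G' v).2.1 := by
    rw [c1, c2] at hex
    exact hex
  have hD := ((e1.mul e3).sub d5).congr_of_eventuallyEq heq
  rw [hD.fderiv]
  have hval : ((Real.exp (φ u₀).1 • ((ContinuousLinearMap.snd ℝ ℝ ℝ).comp
      ((ContinuousLinearMap.snd ℝ ℝ (ℝ × ℝ)).comp
        ((ContinuousLinearMap.snd ℝ ℝ (ℝ × ℝ × ℝ)).comp (fderiv ℝ φ u₀)))) +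
      (φ u₀).2.2.2 • (Real.exp (φ u₀).1 •
        ((ContinuousLinearMap.fst ℝ ℝ (ℝ × ℝ × ℝ)).comp (fderiv ℝ φ u₀)))) -
      ((ContinuousLinearMap.snd ℝ ℝ ℝ).comp ((ContinuousLinearMap.snd ℝ ℝ (ℝ × ℝ)).comp
        ((ContinuousLinearMap.snd ℝ ℝ (ℝ × ℝ × ℝ)).comp
        ((ContinuousLinearMap.snd ℝ ℝ (ℝ × ℝ × ℝ × ℝ)).comp G'))))) v =
      Real.exp (φ u₀).1 * (fderiv ℝ φ u₀ v).2.2.2 +
        (φ u₀).2.2.2 * (Real.exp (φ u₀).1 * (fderiv ℝ φ u₀ v).1) - (G' v).2.2.2.2 := rfl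
  rw [hval, g5, g1, g2]
  unfold LC.lam LC.alpha
  ring

end LCA.TEX

namespace LCA

open Set Filter
open scoped ContDiff Topology

theorem t_TEX (hLFI : Stmt_LFI) : Stmt_TEX := by
  intro A hG
  refine ⟨TEX.prim A, ?_, ?_⟩
  · intro q F h
    have h1 : TEX.FF A q = F := TEX.FF_eq hG h
    unfold TEX.prim
    rw [h1]
  · intro U V φ hφ
    have key : ∀ u ∈ U, ContDiffAt ℝ ∞ (fun w => TEX.prim A (φ w)) u ∧
        ∀ v, fderiv ℝ (fun w => TEX.prim A (φ w)) u v = LC.lam (φ u) (fderiv ℝ φ u v) := by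
      intro u hu
      apply TEX.prim_chart hLFI hG (hφ.smooth.contDiffAt (hφ.openU.mem_nhds hu))
      filter_upwards [hφ.openU.mem_nhds hu] with w hw
      have h1 : φ w ∈ φ '' U := mem_image_of_mem φ hw
      rw [hφ.image] at h1
      exact h1.1
    exact ⟨fun u hu => (key u hu).1.contDiffWithinAt, fun u hu v => (key u hu).2 v⟩

end LCA
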