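import Pool.Agent.LCA.Base

/-!
# Part A: statements about lifted surfaces, phases, and the transfer to the symplectization
-/

namespace LCA

open Set Filter
open scoped ContDiff Topology

/-! ### generalities on lifted surfaces -/

/-- LFI: an exact chart has a smooth left inverse defined near `f a`, which depends only on
`(s, x, p, z)`. -/
def Stmt_LFI : Prop :=
  ∀ (f : ℝ × ℝ → E5) (a : ℝ × ℝ), ExactChart f a →
    ∃ (g : ℝ × ℝ × ℝ × ℝ → ℝ × ℝ) (U : Set (ℝ × ℝ)) (V : Set (ℝ × ℝ × ℝ × ℝ)),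
      IsOpen U ∧ a ∈ U ∧ IsOpen V ∧ ((f a).1, (f a).2.1, (f a).2.2.1, (f a).2.2.2.1) ∈ V ∧
      ContDiffOn ℝ ∞ f U ∧ ContDiffOn ℝ ∞ g V ∧
      ∀ b ∈ U, ((f b).1, (f b).2.1, (f b).2.2.1, (f b).2.2.2.1) ∈ V ∧
        g ((f b).1, (f b).2.1, (f b).2.2.1, (f b).2.2.2.1) = b

/-- CNG: the properties are local in time. -/
def Stmt_CNG : Prop :=
  ∀ (J : Set ℝ) (A A' : Set E5), IsOpen J → J.OrdConnected → Agree J A A' →
    (Good J A → Good J A') ∧ (Down J A → Down J A') ∧ (Up J A → Up J A')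

/-- RST: restriction to a smaller interval. -/
def Stmt_RST : Prop :=
  ∀ (J J' : Set ℝ) (A : Set E5), IsOpen J' → J' ⊆ J → Good J A → Good J' A

/-- GLU: two surfaces which agree over the intersection of two intervals can be glued. -/
def Stmt_GLU : Prop :=
  ∀ (a b c d : ℝ) (A A' : Set E5), a < c → c < b → b < d →
    Good (Ioo a b) A → Down (Ioo a b) A → Good (Ioo c d) A' → Down (Ioo c d) A' →
    Agree (Ioo c b) A A' →
    ∃ B : Set E5, Good (Ioo a d) B ∧ Down (Ioo a d) B ∧ Agree (Ioo a b) B A ∧ Agree (Ioo c d) B A'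

/-- The projection to `(s, x, p, z)`. -/
def pr4 (q : E5) : ℝ × ℝ × ℝ × ℝ := (q.1, q.2.1, q.2.2.1, q.2.2.2.1)

/-- RPL: inside an open set `B` of the space `(s, x, p, z)`, the surface `A` may be replaced by the
surface `N`, if they agree on `B` outside a closed subset `C`. -/
def Stmt_RPL : Prop :=
  ∀ (J : Set ℝ) (A N : Set E5) (B C : Set (ℝ × ℝ × ℝ × ℝ)), IsOpen J → Good J A →
    IsClosed N → (∀ q ∈ N, q.1 ∈ J → ChartAt N q) →
    (∀ q ∈ N, ∀ q' ∈ N, q.1 ∈ J → pr4 q = pr4 q' → q = q') →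
    (∀ r ∈ B, r.1 ∈ J → B ∈ 𝓝 r) → (∀ r ∈ closure C, r.1 ∈ J → r ∈ C) → C ⊆ B →
    (∀ K ⊆ J, IsCompact K → ∃ M : ℝ, ∀ q ∈ N, q.1 ∈ K → pr4 q ∈ B → ‖q.2‖ ≤ M) →
    (∀ q : E5, q.1 ∈ J → pr4 q ∈ B → pr4 q ∉ C → (q ∈ A ↔ q ∈ N)) →
    Good J {q | (pr4 q ∉ B ∧ q ∈ A) ∨ (pr4 q ∈ B ∧ q ∈ N)}

/-- The reflection of the time at `s₀`. -/
def rev (s₀ : ℝ) (q : E5) : E5 := (2 * s₀ - q.1, q.2.1, q.2.2.1, -q.2.2.2.1, q.2.2.2.2)

/-- REV: reversal of the time. -/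
def Stmt_REV : Prop :=
  ∀ (s₀ : ℝ) (J : Set ℝ) (A : Set E5), IsOpen J →
    (Good J A → Good ((fun s => 2 * s₀ - s) ⁻¹' J) (rev s₀ ⁻¹' A)) ∧
    (Down J A → Up ((fun s => 2 * s₀ - s) ⁻¹' J) (rev s₀ ⁻¹' A)) ∧
    (Up J A → Down ((fun s => 2 * s₀ - s) ⁻¹' J) (rev s₀ ⁻¹' A)) ∧
    ∀ (sh : Shape) (m n : ℕ) (c : Comb m n) (w : Fin n → ℝ) (q : ℝ → St n),
      rev s₀ ⁻¹' (c.surf w (c.sp sh) q) = c.surf w (c.sp sh) (fun s => q (2 * s₀ - s))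

/-! ### shapes -/

/-- SHP: the profiles exist. -/
def Stmt_SHP : Prop := Nonempty Shape

/-- PST: the static profiles. -/
def Stmt_PST : Prop :=
  ∀ (sh : Shape) (J : Set ℝ) (t : Ty) (D : ℝ → ℝ), (∀ s ∈ J, t ≠ .P → D s ≠ 0) →
    ProfOK J t D (sh.st t)

/-! ### phases -/

variable {m n : ℕ}

/-- VEX: the piece of a vertex is an exact chart. -/
def Stmt_VEX : Prop :=
  ∀ {m n : ℕ} (c : Comb m n) (w : Fin n → ℝ) (J : Set ℝ) (π : Fin n → Prof) (q : ℝ → St n),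
    IsPhase c w J π q → ∀ i, ∀ s ∈ J, ∀ u,
      ExactChart (fun b : ℝ × ℝ => (b.1, c.vp w π b.1 (q b.1) (deriv q b.1) i b.2)) (s, u)

/-- EEX: an edge is an exact chart; it contains its two end points. -/
def Stmt_EEX : Prop :=
  ∀ {m n : ℕ} (c : Comb m n) (w : Fin n → ℝ) (J : Set ℝ) (π : Fin n → Prof) (q : ℝ → St n),
    IsPhase c w J π q → ∀ e, ∀ s ∈ J, ∀ x,
      ExactChart (fun b : ℝ × ℝ => (b.1, c.ept (q b.1) (deriv q b.1) e b.2)) (s, x)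

/-- VLN: for `|u| ≥ 1` the piece of a vertex lies on the line of an edge. -/
def Stmt_VLN : Prop :=
  ∀ {m n : ℕ} (c : Comb m n) (w : Fin n → ℝ) (π : Fin n → Prof) (s : ℝ) (q v : St n) (i : Fin n),
    c.Valid → (∀ i, ProfBd (c.ty i) s (π i)) → (∀ e, q.1 (c.lf e) < q.1 (c.rt e)) →
    (∀ u, u ≤ -1 → (π i).Y s u = 0 →
      c.vp w π s q v i u = c.ept q v (c.ea i) (q.1 i + w i * (c.ty i).inX u)) ∧
    (∀ u, 1 ≤ u → (π i).Y s u = 0 →
      c.vp w π s q v i u = c.ept q v (c.eb i) (q.1 i + w i * (c.ty i).outX u))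

/-- PCL: closedness and boundedness of a phase; also of every part of it: the edges in `SE` and the
vertices in `SV`. -/
def Stmt_PCL : Prop :=
  ∀ {m n : ℕ} (c : Comb m n) (w : Fin n → ℝ) (J : Set ℝ) (π : Fin n → Prof) (q : ℝ → St n),
    IsPhase c w J π q → ∀ (SE : Set (Fin m)) (SV : Set (Fin n)),
    let A : Set E5 := {r | (∃ e ∈ SE, ∃ x ∈ c.rg w (q r.1) e,
        r.2 = c.ept (q r.1) (deriv q r.1) e x) ∨
      ∃ i ∈ SV, ∃ u, |u| ≤ 2 ∧ r.2 = c.vp w π r.1 (q r.1) (deriv q r.1) i u}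
    (∀ r ∈ closure A, r.1 ∈ J → r ∈ A) ∧
    ∀ K ⊆ J, IsCompact K → ∃ M : ℝ, ∀ r ∈ A, r.1 ∈ K → ‖r.2‖ ≤ M

/-- PIN: the slices of a phase are embedded. -/
def Stmt_PIN : Prop :=
  ∀ {m n : ℕ} (c : Comb m n) (w : Fin n → ℝ) (J : Set ℝ) (π : Fin n → Prof) (q : ℝ → St n),
    IsPhase c w J π q → ∀ s ∈ J, ∀ a ∈ c.slice w π s (q s) (deriv q s),
    ∀ b ∈ c.slice w π s (q s) (deriv q s), Meet a b → a = b

/-- PCH: charts of a phase. -/
def Stmt_PCH : Prop :=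
  ∀ {m n : ℕ} (c : Comb m n) (w : Fin n → ℝ) (J : Set ℝ) (π : Fin n → Prof) (q : ℝ → St n),
    IsPhase c w J π q → ∀ r ∈ c.surf w π q, r.1 ∈ J → ChartAt (c.surf w π q) r

/-- PUD: paths in a phase. -/
def Stmt_PUD : Prop :=
  ∀ {m n : ℕ} (c : Comb m n) (w : Fin n → ℝ) (J : Set ℝ) (π : Fin n → Prof) (q : ℝ → St n),
    IsPhase c w J π q → Down J (c.surf w π q) ∧ Up J (c.surf w π q)

/-- PHG: phases. -/
def Stmt_PHG : Prop :=
  ∀ {m n : ℕ} (c : Comb m n) (w : Fin n → ℝ) (J : Set ℝ) (π : Fin n → Prof) (q : ℝ → St n),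
    IsPhase c w J π q → Good J (c.surf w π q) ∧ Down J (c.surf w π q) ∧ Up J (c.surf w π q)

/-! ### certificates -/

/-- CEE: separation of two edges. -/
def Stmt_CEE : Prop :=
  ∀ {m n : ℕ} (c : Comb m n) (w : Fin n → ℝ) (q v : St n), (∀ i, 0 < w i) → c.Cert w q v →
    ∀ e e', e ≠ e' → ∀ x ∈ c.rg w q e, ∀ x' ∈ c.rg w q e',
      ¬ Meet (c.ept q v e x) (c.ept q v e' x')

/-- CVV: separation of two vertices. -/
def Stmt_CVV : Prop :=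
  ∀ {m n : ℕ} (c : Comb m n) (w : Fin n → ℝ) (π : Fin n → Prof) (s : ℝ) (q v : St n), c.Valid →
    (∀ i, 0 < w i) → (∀ i, ProfBd (c.ty i) s (π i)) → c.Cert w q v →
    ∀ i j, i ≠ j → ∀ u u', |u| ≤ 2 → |u'| ≤ 2 →
      ¬ Meet (c.vp w π s q v i u) (c.vp w π s q v j u')

/-- CVE: separation of a vertex and an edge. -/
def Stmt_CVE : Prop :=
  ∀ {m n : ℕ} (c : Comb m n) (w : Fin n → ℝ) (π : Fin n → Prof) (s : ℝ) (q v : St n), c.Valid →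
    (∀ i, 0 < w i) → (∀ i, ProfBd (c.ty i) s (π i)) → c.Cert w q v →
    ∀ i e, c.ea i ≠ e → c.eb i ≠ e → ∀ u, |u| ≤ 2 → ∀ x ∈ c.rg w q e,
      ¬ Meet (c.vp w π s q v i u) (c.ept q v e x)

/-- CER: certificates are sufficient. -/
def Stmt_CER : Prop :=
  ∀ {m n : ℕ} (c : Comb m n) (w : Fin n → ℝ) (π : Fin n → Prof) (s : ℝ) (q v : St n), c.Valid →
    (∀ i, 0 < w i) → (∀ i, ProfBd (c.ty i) s (π i)) → c.Cert w q v → c.Adm w π s q v

/-- OPC: the certificates are open conditions. -/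
def Stmt_OPC : Prop :=
  ∀ {m n : ℕ} (c : Comb m n) (w : Fin n → ℝ), (∀ i, 0 < w i) →
    IsOpen {a : St n × St n | c.Cert w a.1 a.2}

/-- SM2: smoothing of a path with one corner, with the velocities in an open set of allowed
positions and velocities. -/
def Stmt_SM2 : Prop :=
  ∀ {n : ℕ} (_sh : Shape) (U : Set (St n × St n)) (Q V V' : St n) (t : ℝ), IsOpen U →
    (∀ l ∈ Icc (0 : ℝ) 1, (Q, (1 - l) • V + l • V') ∈ U) → ∀ η > 0,
    ∃ (q : ℝ → St n) (δ : ℝ), 0 < δ ∧ δ < η ∧ ContDiff ℝ ∞ q ∧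
      (∀ s, s ≤ t - δ → q s = lin Q V t s) ∧ (∀ s, t + δ ≤ s → q s = lin Q V' t s) ∧
      ∀ s ∈ Icc (t - δ) (t + δ), (q s, deriv q s) ∈ U

/-! ### elementary moves -/

/-- ATR: a transition over the time interval `[t, t']`. -/
def Stmt_ATR : Prop :=
  ∀ {m n m' n' : ℕ} (K : Set LC.R3) (sh : Shape) (c : Comb m n) (w : Fin n → ℝ) (Q V : St n)
    (t : ℝ) (c' : Comb m' n') (w' : Fin n' → ℝ) (Q' V' : St n') (t' ε : ℝ) (B : Set E5),
    t < t' → 0 < ε → At K sh c w Q V t → Good (Ioo (t - ε) (t' + ε)) B →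
    Down (Ioo (t - ε) (t' + ε)) B →
    Agree (Ioo (t - ε) (t + ε)) B (c.surf w (c.sp sh) (lin Q V t)) →
    Agree (Ioo (t' - ε) (t' + ε)) B (c'.surf w' (c'.sp sh) (lin Q' V' t')) →
    At K sh c' w' Q' V' t'

/-- MOV: linear motion. -/
def Stmt_MOV : Prop :=
  ∀ {m n : ℕ} (K : Set LC.R3) (sh : Shape) (c : Comb m n) (w : Fin n → ℝ) (Q V : St n) (t t' : ℝ),
    c.Valid → (∀ i, 0 < w i) → At K sh c w Q V t → t < t' →
    (∀ s ∈ Icc t t', c.Cert w (lin Q V t s) V) → At K sh c w (lin Q V t t') V t'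

/-- SWI: change of the velocities. -/
def Stmt_SWI : Prop :=
  ∀ {m n : ℕ} (K : Set LC.R3) (sh : Shape) (c : Comb m n) (w : Fin n → ℝ) (Q V V' : St n)
    (t t' : ℝ), c.Valid → (∀ i, 0 < w i) → At K sh c w Q V t → t < t' →
    (∀ l ∈ Icc (0 : ℝ) 1, c.Cert w Q ((1 - l) • V + l • V')) →
    (∀ s ∈ Icc t t', c.Cert w (lin Q V' t s) V') → At K sh c w (lin Q V' t t') V' t'

/-- EQA: a different description of the same surface near the time `t`. -/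
def Stmt_EQA : Prop :=
  ∀ {m n m' n' : ℕ} (K : Set LC.R3) (sh : Shape) (c : Comb m n) (w : Fin n → ℝ) (Q V : St n)
    (c' : Comb m' n') (w' : Fin n' → ℝ) (Q' V' : St n') (t η : ℝ), 0 < η →
    (∀ s ∈ Ioo (t - η) (t + η), c.slice w (c.sp sh) 0 (lin Q V t s) V =
      c'.slice w' (c'.sp sh) 0 (lin Q' V' t s) V') →
    At K sh c w Q V t → At K sh c' w' Q' V' t

/-- MVP: motion with moving profiles. -/
def Stmt_MVP : Prop :=
  ∀ {m n : ℕ} (c : Comb m n) (w : Fin n → ℝ) (Q V : St n) (t ε : ℝ) (π : Fin n → Prof),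
    c.Valid → (∀ i, 0 < w i) → 0 < ε → (∀ s ∈ Icc t (t + 1), c.Cert w (lin Q V t s) V) →
    (∀ i, ProfOK (Ioo (t - ε) (t + 1 + ε)) (c.ty i) (fun s => c.dl (lin Q V t s) i) (π i)) →
    ∃ ε' > 0, ε' ≤ ε ∧ Good (Ioo (t - ε') (t + 1 + ε')) (c.surf w π (lin Q V t)) ∧
      Down (Ioo (t - ε') (t + 1 + ε')) (c.surf w π (lin Q V t))

/-! ### the transfer to the symplectization -/

/-- The surface in the symplectization. -/
def surfL (A : Set E5) : Set LC.R4 :=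
  {q | ∃ F, (Real.exp q.1, q.2.1, Real.exp q.1 * q.2.2.1, q.2.2.2, F) ∈ A}

/-- TCH: charts of the surface in the symplectization. -/
def Stmt_TCH : Prop :=
  ∀ A : Set E5, Good (Ioi 0) A → ∀ p ∈ surfL A, ∃ U V φ, LC.IsChart (surfL A) U V φ ∧ p ∈ V

/-- TEX: the surface in the symplectization is exact. -/
def Stmt_TEX : Prop :=
  ∀ A : Set E5, Good (Ioi 0) A → ∃ f : LC.R4 → ℝ,
    (∀ q : LC.R4, ∀ F, (Real.exp q.1, q.2.1, Real.exp q.1 * q.2.2.1, q.2.2.2, F) ∈ A →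
      f q = Real.exp q.1 * q.2.2.2 - F) ∧
    ∀ U V φ, LC.IsChart (surfL A) U V φ → ContDiffOn ℝ ∞ (fun w => f (φ w)) U ∧
      ∀ u ∈ U, ∀ v, fderiv ℝ (fun w => f (φ w)) u v = LC.lam (φ u) (fderiv ℝ φ u v)

/-- LAG: exact surfaces are Lagrangian. -/
def Stmt_LAG : Prop :=
  ∀ (U : Set (ℝ × ℝ)) (φ : ℝ × ℝ → LC.R4) (h : ℝ × ℝ → ℝ), IsOpen U → ContDiffOn ℝ ∞ φ U →
    ContDiffOn ℝ ∞ h U → (∀ u ∈ U, ∀ v, fderiv ℝ h u v = LC.lam (φ u) (fderiv ℝ φ u v)) →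
    ∀ u ∈ U, ∀ v w, LC.omega (φ u) (fderiv ℝ φ u v) (fderiv ℝ φ u w) = 0

/-- TTO: closedness, compactness and connectedness of the surface in the symplectization. -/
def Stmt_TTO : Prop :=
  ∀ (Λ : LC.LegKnot) (A : Set E5) (e₀ S : ℝ), Good (Ioi 0) A → Down (Ioi 0) A → 0 < e₀ →
    Agree (Ioo 0 e₀) A (cyl Λ.carrier) → (∀ q ∈ A, 0 < q.1 → q.1 ≤ S) →
    IsClosed (surfL A) ∧ IsConnected (surfL A) ∧
    ∀ T : ℝ, IsCompact (surfL A ∩ {q | -T ≤ q.1})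

/-- FIN: a complete cap is an exact Lagrangian cap. -/
def Stmt_FIN : Prop := ∀ Λ : LC.LegKnot, Capped Λ.carrier → ∃ L, LC.IsExactCap Λ L

end LCA
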