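import Mathlib
import Pool.Agent.LCA.Stmts1

/-!
# Part A, module TTO: closedness, compactness and connectedness in the symplectization
-/

namespace LCA

open Set Filter
open scoped ContDiff Topology

namespace TTO

/-- the map to the symplectization -/
noncomputable def sg (q : E5) : LC.R4 := (Real.log q.1, q.2.1, q.2.2.1 / q.1, q.2.2.2.1)

theorem sg_cont : ContinuousOn sg {q : E5 | 0 < q.1} := by
  have h1 : ContinuousOn (fun q : E5 => Real.log q.1) {q : E5 | 0 < q.1} :=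
    ContinuousOn.log continuous_fst.continuousOn fun q hq => ne_of_gt hq
  have h2 : ContinuousOn (fun q : E5 => q.2.2.1 / q.1) {q : E5 | 0 < q.1} :=
    ContinuousOn.div (by fun_prop) (by fun_prop) fun q hq => ne_of_gt hq
  have h3 : ContinuousOn (fun q : E5 => q.2.1) {q : E5 | 0 < q.1} := by fun_prop
  have h4 : ContinuousOn (fun q : E5 => q.2.2.2.1) {q : E5 | 0 < q.1} := by fun_prop
  exact h1.prodMk (h3.prodMk (h2.prodMk h4))

theorem sg_mem {A : Set E5} {q : E5} (hq : q ∈ A) (h0 : 0 < q.1) : sg q ∈ surfL A := by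
  refine ⟨q.2.2.2.2, ?_⟩
  have e : (Real.exp (sg q).1, (sg q).2.1, Real.exp (sg q).1 * (sg q).2.2.1, (sg q).2.2.2,
      q.2.2.2.2) = q := by
    have h1 : Real.exp (sg q).1 = q.1 := Real.exp_log h0
    have h2 : q.1 * (sg q).2.2.1 = q.2.2.1 := mul_div_cancel₀ _ (ne_of_gt h0)
    rw [h1, h2]
    rfl
  rw [e]
  exact hq

theorem sg_lift (r : LC.R4) (F : ℝ) :
    sg (Real.exp r.1, r.2.1, Real.exp r.1 * r.2.2.1, r.2.2.2, F) = r := by
  have h1 : Real.exp r.1 * r.2.2.1 / Real.exp r.1 = r.2.2.1 := by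
    field_simp
  unfold sg
  simp only [Real.log_exp, h1]

theorem slab_compact {A : Set E5} (hG : Good (Ioi 0) A) (a b : ℝ) (ha : 0 < a) :
    IsCompact {q ∈ A | q.1 ∈ Icc a b} := by
  have hK : Icc a b ⊆ Ioi (0 : ℝ) := fun x hx => lt_of_lt_of_le ha hx.1
  obtain ⟨M, hM⟩ := hG.bounded (Icc a b) hK isCompact_Icc
  have hc : IsCompact (Icc a b ×ˢ Metric.closedBall (0 : ℝ × ℝ × ℝ × ℝ) M) :=
    isCompact_Icc.prod (isCompact_closedBall _ _)
  refine hc.of_isClosed_subset ?_ ?_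
  · refine isClosed_of_closure_subset fun q hq => ?_
    have h1 : q.1 ∈ Icc a b := by
      have : closure {q ∈ A | q.1 ∈ Icc a b} ⊆ {q : E5 | q.1 ∈ Icc a b} :=
        closure_minimal (fun q hq => hq.2) (isClosed_Icc.preimage continuous_fst)
      exact this hq
    exact ⟨hG.closed q (closure_mono (fun q hq => hq.1) hq) (hK h1), h1⟩
  · rintro q ⟨hq, h1⟩
    refine ⟨h1, ?_⟩
    rw [mem_closedBall_zero_iff]
    exact hM q hq h1

theorem compact {A : Set E5} (hG : Good (Ioi 0) A) {S : ℝ} (hS : ∀ q ∈ A, 0 < q.1 → q.1 ≤ S)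
    (T : ℝ) : IsCompact (surfL A ∩ {q | -T ≤ q.1}) := by
  have h1 := slab_compact hG (Real.exp (-T)) S (Real.exp_pos _)
  have h2 : sg '' {q ∈ A | q.1 ∈ Icc (Real.exp (-T)) S} = surfL A ∩ {q | -T ≤ q.1} := by
    ext r
    constructor
    · rintro ⟨q, ⟨hq, hqI⟩, rfl⟩
      have h0 : 0 < q.1 := lt_of_lt_of_le (Real.exp_pos _) hqI.1
      exact ⟨sg_mem hq h0, (Real.le_log_iff_exp_le h0).2 hqI.1⟩
    · rintro ⟨⟨F, hF⟩, hT⟩
      exact ⟨_, ⟨hF, Real.exp_le_exp.2 hT, hS _ hF (Real.exp_pos _)⟩, sg_lift r F⟩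
  rw [← h2]
  refine h1.image_of_continuousOn (sg_cont.mono ?_)
  rintro q ⟨-, hqI⟩
  exact lt_of_lt_of_le (Real.exp_pos _) hqI.1

theorem closed {A : Set E5} (hG : Good (Ioi 0) A) {S : ℝ} (hS : ∀ q ∈ A, 0 < q.1 → q.1 ≤ S) :
    IsClosed (surfL A) := by
  refine isClosed_of_closure_subset fun p hp => ?_
  have hc : IsClosed (surfL A ∩ {q | -(1 - p.1) ≤ q.1}) := (compact hG hS (1 - p.1)).isClosed
  have ho : IsOpen {q : LC.R4 | p.1 - 1 < q.1} := isOpen_lt continuous_const continuous_fst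
  have hpo : p ∈ {q : LC.R4 | p.1 - 1 < q.1} := by
    change p.1 - 1 < p.1
    linarith
  have h1 : p ∈ closure (surfL A ∩ {q | -(1 - p.1) ≤ q.1}) := by
    rw [mem_closure_iff_nhds] at hp ⊢
    intro t ht
    obtain ⟨q, ⟨hqt, hqo⟩, hqA⟩ := hp (t ∩ {q : LC.R4 | p.1 - 1 < q.1})
      (inter_mem ht (ho.mem_nhds hpo))
    refine ⟨q, hqt, hqA, ?_⟩
    have : p.1 - 1 < q.1 := hqo
    change -(1 - p.1) ≤ q.1
    linarith
  exact (hc.closure_subset h1).1

/-- the part of the surface at small times -/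
theorem low_mem {K : Set LC.R3} {A : Set E5} {e₀ : ℝ} (h : Agree (Ioo 0 e₀) A (cyl K)) (q : LC.R4)
    (hq : Real.exp q.1 < e₀) : q ∈ surfL A ↔ q.2 ∈ K := by
  have hE := Real.exp_pos q.1
  constructor
  · rintro ⟨F, hF⟩
    obtain ⟨r, hr, he⟩ := (h _ ⟨hE, hq⟩).1 hF
    simp only [Prod.mk.injEq] at he
    obtain ⟨h1, h2, h3, -⟩ := he
    have h2' : q.2.2.1 = r.2.1 := mul_left_cancel₀ (ne_of_gt hE) h2
    have : q.2 = r := Prod.ext h1 (Prod.ext h2' h3)
    rw [this]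
    exact hr
  · intro hr
    refine ⟨Real.exp q.1 * q.2.2.2, (h _ ⟨hE, hq⟩).2 ⟨q.2, hr, rfl⟩⟩

theorem connected (Λ : LC.LegKnot) {A : Set E5} {e₀ : ℝ} (hD : Down (Ioi 0) A) (he : 0 < e₀)
    (h : Agree (Ioo 0 e₀) A (cyl Λ.carrier)) : IsConnected (surfL A) := by
  set Lo : Set LC.R4 := Iio (Real.log e₀) ×ˢ Λ.carrier with hLo
  have hlow : ∀ q ∈ Lo, q ∈ surfL A := by
    rintro q ⟨hq1, hq2⟩
    exact (low_mem h q ((Real.lt_log_iff_exp_lt he).1 hq1)).2 hq2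
  have hLoc : IsPreconnected Lo :=
    isPreconnected_Iio.prod (isPreconnected_range Λ.smooth.continuous)
  have hbase : ((Real.log e₀ - 1, Λ.γ 0) : LC.R4) ∈ Lo :=
    ⟨by change Real.log e₀ - 1 < Real.log e₀; linarith, ⟨0, rfl⟩⟩
  refine ⟨⟨_, hlow _ hbase⟩, isPreconnected_of_forall (Real.log e₀ - 1, Λ.γ 0) ?_⟩
  rintro y ⟨F, hF⟩
  have hy0 : 0 < Real.exp y.1 := Real.exp_pos _
  obtain ⟨q', hq', hc, hJ⟩ := hD _ hF hy0 (min (Real.exp y.1) (e₀ / 2))
    (lt_min hy0 (by positivity)) (min_le_left _ _)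
  have hpm := hJ.somePath_mem
  set γ := hJ.somePath with hγ
  have hpos : ∀ t, 0 < (γ t).1 := fun t =>
    lt_of_lt_of_le (lt_min hy0 (by positivity)) (hpm t).2.1
  have hcont : Continuous fun t => sg (γ t) :=
    sg_cont.comp_continuous γ.continuous hpos
  have hP : IsPreconnected (range fun t => sg (γ t)) := isPreconnected_range hcont
  have hq'0 : 0 < q'.1 := by
    rw [hc]
    exact lt_min hy0 (by positivity)
  have hq'e : q'.1 < e₀ := by
    rw [hc]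
    exact lt_of_le_of_lt (min_le_right _ _) (by linarith)
  have hmeet : sg q' ∈ Lo := by
    have h1 : Real.exp (sg q').1 = q'.1 := Real.exp_log hq'0
    have h2 : Real.exp (sg q').1 < e₀ := by rw [h1]; exact hq'e
    exact ⟨(Real.lt_log_iff_exp_lt he).2 h2, (low_mem h _ h2).1 (sg_mem hq' hq'0)⟩
  refine ⟨Lo ∪ range fun t => sg (γ t), ?_, Or.inl hbase, Or.inr ⟨0, ?_⟩, ?_⟩
  · rintro r (hr | ⟨t, rfl⟩)
    · exact hlow r hr
    · exact sg_mem (hpm t).1 (hpos t)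
  · change sg (γ 0) = y
    rw [γ.source]
    exact sg_lift y F
  · exact IsPreconnected.union (sg q') hmeet ⟨1, by change sg (γ 1) = _; rw [γ.target]⟩ hLoc hP

end TTO

theorem t_TTO : Stmt_TTO := by
  intro Λ A e₀ S hG hD he hA hS
  exact ⟨TTO.closed hG hS, TTO.connected Λ hD he hA, TTO.compact hG hS⟩

end LCA
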