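import Pool.Agent.LCA.Stmts1

/-!
# VEX: the piece of a vertex is an exact chart
-/

namespace LCA

open Set Filter
open scoped ContDiff Topology

namespace VEX

variable {m n : ℕ}

/-! ### coordinates of a moving polygon -/

theorem cx_deriv {q : ℝ → St n} {v : St n} {s : ℝ} (h : HasDerivAt q v s) (k : Fin n) :
    HasDerivAt (fun r => (q r).1 k) (v.1 k) s :=
  ((ContinuousLinearMap.proj (R := ℝ) (φ := fun _ : Fin n => ℝ) k).comp
    (ContinuousLinearMap.fst ℝ (Fin n → ℝ) (Fin n → ℝ))).hasFDerivAt.comp_hasDerivAt s h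

theorem cF_deriv {q : ℝ → St n} {v : St n} {s : ℝ} (h : HasDerivAt q v s) (k : Fin n) :
    HasDerivAt (fun r => (q r).2 k) (v.2 k) s :=
  ((ContinuousLinearMap.proj (R := ℝ) (φ := fun _ : Fin n => ℝ) k).comp
    (ContinuousLinearMap.snd ℝ (Fin n → ℝ) (Fin n → ℝ))).hasFDerivAt.comp_hasDerivAt s h

theorem pe_deriv (c : Comb m n) {q : ℝ → St n} {v : St n} {s : ℝ} (h : HasDerivAt q v s)
    (e : Fin m) (hne : (q s).1 (c.rt e) - (q s).1 (c.lf e) ≠ 0) :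
    HasDerivAt (fun r => c.pe (q r) e) (c.dpe (q s) v e) s := by
  have h1 := ((cF_deriv h (c.rt e)).sub (cF_deriv h (c.lf e))).div
    ((cx_deriv h (c.rt e)).sub (cx_deriv h (c.lf e))) hne
  refine HasDerivAt.congr_deriv h1 ?_
  simp only [Comb.dpe, Comb.pe, Pi.sub_apply]
  field_simp

theorem ae_deriv (c : Comb m n) {q : ℝ → St n} {v : St n} {s : ℝ} (h : HasDerivAt q v s)
    (e : Fin m) (hne : (q s).1 (c.rt e) - (q s).1 (c.lf e) ≠ 0) :
    HasDerivAt (fun r => c.ae (q r) e) (c.dae (q s) v e) s := by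
  have h1 := (cF_deriv h (c.lf e)).sub ((pe_deriv c h e hne).mul (cx_deriv h (c.lf e)))
  refine HasDerivAt.congr_deriv h1 ?_
  simp only [Comb.dae]
  ring

/-! ### smoothness -/

theorem cx_smooth {g : ℝ × ℝ → St n} {b : ℝ × ℝ} (h : ContDiffAt ℝ ∞ g b) (k : Fin n) :
    ContDiffAt ℝ ∞ (fun a => (g a).1 k) b :=
  ((ContinuousLinearMap.proj (R := ℝ) (φ := fun _ : Fin n => ℝ) k).comp
    (ContinuousLinearMap.fst ℝ (Fin n → ℝ) (Fin n → ℝ))).contDiff.contDiffAt.comp b h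

theorem cF_smooth {g : ℝ × ℝ → St n} {b : ℝ × ℝ} (h : ContDiffAt ℝ ∞ g b) (k : Fin n) :
    ContDiffAt ℝ ∞ (fun a => (g a).2 k) b :=
  ((ContinuousLinearMap.proj (R := ℝ) (φ := fun _ : Fin n => ℝ) k).comp
    (ContinuousLinearMap.snd ℝ (Fin n → ℝ) (Fin n → ℝ))).contDiff.contDiffAt.comp b h

theorem pe_smooth (c : Comb m n) {g : ℝ × ℝ → St n} {b : ℝ × ℝ} (h : ContDiffAt ℝ ∞ g b)
    (e : Fin m) (hne : (g b).1 (c.rt e) - (g b).1 (c.lf e) ≠ 0) :
    ContDiffAt ℝ ∞ (fun a => c.pe (g a) e) b :=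
  ((cF_smooth h (c.rt e)).sub (cF_smooth h (c.lf e))).div
    ((cx_smooth h (c.rt e)).sub (cx_smooth h (c.lf e))) hne

theorem ae_smooth (c : Comb m n) {g : ℝ × ℝ → St n} {b : ℝ × ℝ} (h : ContDiffAt ℝ ∞ g b)
    (e : Fin m) (hne : (g b).1 (c.rt e) - (g b).1 (c.lf e) ≠ 0) :
    ContDiffAt ℝ ∞ (fun a => c.ae (g a) e) b :=
  (cF_smooth h (c.lf e)).sub ((pe_smooth c h e hne).mul (cx_smooth h (c.lf e)))

theorem dpe_smooth (c : Comb m n) {g v : ℝ × ℝ → St n} {b : ℝ × ℝ} (h : ContDiffAt ℝ ∞ g b)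
    (hv : ContDiffAt ℝ ∞ v b) (e : Fin m) (hne : (g b).1 (c.rt e) - (g b).1 (c.lf e) ≠ 0) :
    ContDiffAt ℝ ∞ (fun a => c.dpe (g a) (v a) e) b :=
  (((cF_smooth hv (c.rt e)).sub (cF_smooth hv (c.lf e))).sub
    ((pe_smooth c h e hne).mul ((cx_smooth hv (c.rt e)).sub (cx_smooth hv (c.lf e))))).div
    ((cx_smooth h (c.rt e)).sub (cx_smooth h (c.lf e))) hne

theorem dae_smooth (c : Comb m n) {g v : ℝ × ℝ → St n} {b : ℝ × ℝ} (h : ContDiffAt ℝ ∞ g b)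
    (hv : ContDiffAt ℝ ∞ v b) (e : Fin m) (hne : (g b).1 (c.rt e) - (g b).1 (c.lf e) ≠ 0) :
    ContDiffAt ℝ ∞ (fun a => c.dae (g a) (v a) e) b :=
  ((cF_smooth hv (c.lf e)).sub ((dpe_smooth c h hv e hne).mul (cx_smooth h (c.lf e)))).sub
    ((pe_smooth c h e hne).mul (cx_smooth hv (c.lf e)))

/-- The derivative in the first variable of a smooth function is smooth. -/
theorem part_smooth {J : Set ℝ} (hJ : IsOpen J) {G : ℝ × ℝ → ℝ}
    (hG : ContDiffOn ℝ ∞ G (J ×ˢ univ)) {b : ℝ × ℝ} (hb : b.1 ∈ J) :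
    ContDiffAt ℝ ∞ (fun a : ℝ × ℝ => deriv (fun r => G (r, a.2)) a.1) b := by
  have ho : IsOpen (J ×ˢ (univ : Set ℝ)) := hJ.prod isOpen_univ
  have h1 : ContDiffOn ℝ ∞ (fun a => fderiv ℝ G a (1, 0)) (J ×ˢ univ) :=
    (hG.fderiv_of_isOpen ho (m := ∞) (by simp)).clm_apply contDiffOn_const
  have hmem : b ∈ J ×ˢ (univ : Set ℝ) := ⟨hb, mem_univ _⟩
  refine (h1.contDiffAt (ho.mem_nhds hmem)).congr_of_eventuallyEq ?_
  filter_upwards [ho.mem_nhds hmem] with a ha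
  have hd : DifferentiableAt ℝ G (a.1, a.2) :=
    (hG.contDiffAt (ho.mem_nhds ha)).differentiableAt (by simp)
  have h2 : HasDerivAt (fun r : ℝ => (r, a.2)) ((1 : ℝ), (0 : ℝ)) a.1 :=
    (hasDerivAt_id a.1).prodMk (hasDerivAt_const a.1 a.2)
  exact (hd.hasFDerivAt.comp_hasDerivAt a.1 h2).deriv

/-- The derivative from the two derivatives in the variables. -/
theorem fderiv_two {g : ℝ × ℝ → ℝ} {b : ℝ × ℝ} (hg : DifferentiableAt ℝ g b) {A B : ℝ}
    (hA : HasDerivAt (fun r => g (r, b.2)) A b.1) (hB : HasDerivAt (fun r => g (b.1, r)) B b.2)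
    (v : ℝ × ℝ) : fderiv ℝ g b v = v.1 * A + v.2 * B := by
  have h2 : HasDerivAt (fun r : ℝ => (r, b.2)) ((1 : ℝ), (0 : ℝ)) b.1 :=
    (hasDerivAt_id b.1).prodMk (hasDerivAt_const b.1 b.2)
  have h3 : HasDerivAt (fun r : ℝ => (b.1, r)) ((0 : ℝ), (1 : ℝ)) b.2 :=
    (hasDerivAt_const b.2 b.1).prodMk (hasDerivAt_id b.2)
  have hg' : HasFDerivAt g (fderiv ℝ g b) (b.1, b.2) := hg.hasFDerivAt
  have e1 : fderiv ℝ g b (1, 0) = A :=
    (hg'.comp_hasDerivAt b.1 h2).unique hA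
  have e2 : fderiv ℝ g b (0, 1) = B :=
    (hg'.comp_hasDerivAt b.2 h3).unique hB
  have e3 : v = v.1 • ((1 : ℝ), (0 : ℝ)) + v.2 • ((0 : ℝ), (1 : ℝ)) := by
    ext <;> simp
  rw [e3, map_add, map_smul, map_smul, e1, e2]
  simp

theorem part_one {G : ℝ × ℝ → ℝ} {b : ℝ × ℝ} (hG : DifferentiableAt ℝ G b) :
    HasDerivAt (fun r => G (r, b.2)) (deriv (fun r => G (r, b.2)) b.1) b.1 := by
  have h2 : DifferentiableAt ℝ (fun r : ℝ => (r, b.2)) b.1 :=
    differentiableAt_id.prodMk (differentiableAt_const _)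
  have hG' : DifferentiableAt ℝ G (b.1, b.2) := hG
  exact (hG'.comp b.1 h2).hasDerivAt

theorem part_two {G : ℝ × ℝ → ℝ} {b : ℝ × ℝ} (hG : DifferentiableAt ℝ G b) :
    HasDerivAt (fun r => G (b.1, r)) (deriv (fun r => G (b.1, r)) b.2) b.2 := by
  have h2 : DifferentiableAt ℝ (fun r : ℝ => (b.1, r)) b.2 :=
    (differentiableAt_const _).prodMk differentiableAt_id
  have hG' : DifferentiableAt ℝ G (b.1, b.2) := hG
  exact (hG'.comp b.2 h2).hasDerivAt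

/-! ### the map -/

/-- The parametrization of the piece of the vertex `i`. -/
noncomputable def ff (c : Comb m n) (w : Fin n → ℝ) (π : Fin n → Prof) (q : ℝ → St n) (i : Fin n)
    (b : ℝ × ℝ) : E5 := (b.1, c.vp w π b.1 (q b.1) (deriv q b.1) i b.2)

section

variable {c : Comb m n} {w : Fin n → ℝ} {J : Set ℝ} {π : Fin n → Prof} {q : ℝ → St n}

theorem ne_len (hP : IsPhase c w J π q) {t : ℝ} (ht : t ∈ J) (e : Fin m) :
    (q t).1 (c.rt e) - (q t).1 (c.lf e) ≠ 0 := by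
  have h1 := (hP.adm t ht).len e
  have h2 := hP.wpos (c.lf e)
  have h3 := hP.wpos (c.rt e)
  linarith

theorem X_at (hP : IsPhase c w J π q) (i : Fin n) {b : ℝ × ℝ} (hb : b.1 ∈ J) :
    ContDiffAt ℝ ∞ (fun a : ℝ × ℝ => (π i).X a.1 a.2) b :=
  (hP.prof i).X_smooth.contDiffAt ((hP.openJ.prod isOpen_univ).mem_nhds ⟨hb, mem_univ _⟩)

theorem P_at (hP : IsPhase c w J π q) (i : Fin n) {b : ℝ × ℝ} (hb : b.1 ∈ J) :
    ContDiffAt ℝ ∞ (fun a : ℝ × ℝ => (π i).P a.1 a.2) b :=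
  (hP.prof i).P_smooth.contDiffAt ((hP.openJ.prod isOpen_univ).mem_nhds ⟨hb, mem_univ _⟩)

theorem Th_at (hP : IsPhase c w J π q) (i : Fin n) {b : ℝ × ℝ} (hb : b.1 ∈ J) :
    ContDiffAt ℝ ∞ (fun a : ℝ × ℝ => (π i).Θ a.1 a.2) b :=
  (hP.prof i).Θ_smooth.contDiffAt ((hP.openJ.prod isOpen_univ).mem_nhds ⟨hb, mem_univ _⟩)

theorem Y_at (hP : IsPhase c w J π q) (i : Fin n) {b : ℝ × ℝ} (hb : b.1 ∈ J) :
    ContDiffAt ℝ ∞ (fun a : ℝ × ℝ => (π i).Y a.1 a.2) b := by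
  have h1 := (part_smooth hP.openJ (hP.prof i).Θ_smooth hb).sub
    ((P_at hP i hb).mul (part_smooth hP.openJ (hP.prof i).X_smooth hb))
  refine h1.congr_of_eventuallyEq ?_
  filter_upwards [(hP.openJ.prod isOpen_univ).mem_nhds
    (show b ∈ J ×ˢ (univ : Set ℝ) from ⟨hb, mem_univ _⟩)] with a ha
  exact (hP.prof i).Y_eq a.1 ha.1 a.2

theorem q_at (hP : IsPhase c w J π q) {b : ℝ × ℝ} (hb : b.1 ∈ J) :
    ContDiffAt ℝ ∞ (fun a : ℝ × ℝ => q a.1) b :=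
  (hP.smooth.contDiffAt (hP.openJ.mem_nhds hb)).comp b contDiffAt_fst

theorem dq_at (hP : IsPhase c w J π q) {b : ℝ × ℝ} (hb : b.1 ∈ J) :
    ContDiffAt ℝ ∞ (fun a : ℝ × ℝ => deriv q a.1) b :=
  ((hP.smooth.deriv_of_isOpen hP.openJ (m := ∞) (by simp)).contDiffAt
    (hP.openJ.mem_nhds hb)).comp b contDiffAt_fst

theorem dl_smooth (hP : IsPhase c w J π q) (i : Fin n) {b : ℝ × ℝ} (hb : b.1 ∈ J) :
    ContDiffAt ℝ ∞ (fun a : ℝ × ℝ => c.dl (q a.1) i) b :=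
  (pe_smooth c (q_at hP hb) (c.eb i) (ne_len hP hb _)).sub
    (pe_smooth c (q_at hP hb) (c.ea i) (ne_len hP hb _))

theorem x_smooth (hP : IsPhase c w J π q) (i : Fin n) {b : ℝ × ℝ} (hb : b.1 ∈ J) :
    ContDiffAt ℝ ∞ (fun a : ℝ × ℝ => (q a.1).1 i + w i * (π i).X a.1 a.2) b :=
  (cx_smooth (q_at hP hb) i).add (contDiffAt_const.mul (X_at hP i hb))

theorem ff_smooth (hP : IsPhase c w J π q) (i : Fin n) {b : ℝ × ℝ} (hb : b.1 ∈ J) :
    ContDiffAt ℝ ∞ (ff c w π q i) b := by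
  have hq := q_at hP hb
  have hv := dq_at hP hb
  have hX := x_smooth hP i hb
  have hPp := P_at hP i hb
  have hT := Th_at hP i hb
  have hY := Y_at hP i hb
  have hD := dl_smooth hP i hb
  have hpa := pe_smooth c hq (c.ea i) (ne_len hP hb _)
  have haa := ae_smooth c hq (c.ea i) (ne_len hP hb _)
  have hda := dpe_smooth c hq hv (c.ea i) (ne_len hP hb _)
  have hdb := dpe_smooth c hq hv (c.eb i) (ne_len hP hb _)
  have hea := dae_smooth c hq hv (c.ea i) (ne_len hP hb _)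
  have hvx := cx_smooth hv i
  refine contDiffAt_fst.prodMk (hX.prodMk ((hpa.add (hD.mul hPp)).prodMk (ContDiffAt.prodMk
    ?_ ?_)))
  · exact (((hda.mul hX).add hea).add (contDiffAt_const.mul
      (((hdb.sub hda).mul hT).add (hD.mul hY)))).sub ((hD.mul hPp).mul hvx)
  · exact ((hpa.mul hX).add haa).add ((contDiffAt_const.mul hD).mul hT)

/-- The derivatives of the coordinates `x` and `F` at fixed `u`. -/
theorem ff_s (hP : IsPhase c w J π q) (i : Fin n) {b : ℝ × ℝ} (hb : b.1 ∈ J) :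
    ∃ A : ℝ, HasDerivAt (fun r => (ff c w π q i (r, b.2)).2.1) A b.1 ∧
      HasDerivAt (fun r => (ff c w π q i (r, b.2)).2.2.2.2)
        ((ff c w π q i b).2.2.2.1 + (ff c w π q i b).2.2.1 * A) b.1 := by
  have hq : HasDerivAt q (deriv q b.1) b.1 :=
    ((hP.smooth.contDiffAt (hP.openJ.mem_nhds hb)).differentiableAt (by simp)).hasDerivAt
  have hX := part_one ((X_at hP i hb).differentiableAt (by simp))
  have hT := part_one ((Th_at hP i hb).differentiableAt (by simp))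
  have h1 := (cx_deriv hq i).add (hX.const_mul (w i))
  have hpa := pe_deriv c hq (c.ea i) (ne_len hP hb _)
  have hpb := pe_deriv c hq (c.eb i) (ne_len hP hb _)
  have haa := ae_deriv c hq (c.ea i) (ne_len hP hb _)
  have h2 := ((hpa.mul h1).add haa).add (((hpb.sub hpa).const_mul (w i)).mul hT)
  have hY := (hP.prof i).Y_eq b.1 hb b.2
  refine ⟨_, h1, HasDerivAt.congr_deriv h2 ?_⟩
  simp only [ff, Comb.vp, Comb.vpt, hY, Comb.dl, Pi.add_apply, Pi.sub_apply]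
  ring

/-- The derivatives of the coordinates `x` and `F` at fixed `s`. -/
theorem ff_u (hP : IsPhase c w J π q) (i : Fin n) {b : ℝ × ℝ} (hb : b.1 ∈ J) :
    HasDerivAt (fun r => (ff c w π q i (b.1, r)).2.1) (w i * deriv ((π i).X b.1) b.2) b.2 ∧
      HasDerivAt (fun r => (ff c w π q i (b.1, r)).2.2.1)
        (c.dl (q b.1) i * deriv ((π i).P b.1) b.2) b.2 ∧
      HasDerivAt (fun r => (ff c w π q i (b.1, r)).2.2.2.2)
        ((ff c w π q i b).2.2.1 * (w i * deriv ((π i).X b.1) b.2)) b.2 := by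
  have hX := part_two ((X_at hP i hb).differentiableAt (by simp))
  have hPp := part_two ((P_at hP i hb).differentiableAt (by simp))
  have hT := (hP.prof i).dΘ b.1 hb b.2
  have h1 := (hX.const_mul (w i)).const_add ((q b.1).1 i)
  refine ⟨h1, (hPp.const_mul (c.dl (q b.1) i)).const_add (c.pe (q b.1) (c.ea i)), ?_⟩
  have h2 := ((h1.const_mul (c.pe (q b.1) (c.ea i))).add_const (c.ae (q b.1) (c.ea i))).add
    (hT.const_mul (w i * c.dl (q b.1) i))
  refine HasDerivAt.congr_deriv h2 ?_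
  simp only [ff, Comb.vp, Comb.vpt]
  ring

/-- The derivative of the first coordinate. -/
theorem ff_fst (hP : IsPhase c w J π q) (i : Fin n) {b : ℝ × ℝ} (hb : b.1 ∈ J) (v : ℝ × ℝ) :
    (fderiv ℝ (ff c w π q i) b v).1 = v.1 := by
  have hd := ((ff_smooth hP i hb).differentiableAt (by simp)).hasFDerivAt
  have h1 : HasFDerivAt (fun a : ℝ × ℝ => a.1) (ContinuousLinearMap.fst ℝ ℝ ℝ) b := hasFDerivAt_fst
  have h2 := hd.fst.unique h1
  have h3 := congrArg (fun L => L v) h2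
  exact h3

theorem ff_comp (hP : IsPhase c w J π q) (i : Fin n) {b : ℝ × ℝ} (hb : b.1 ∈ J)
    (L : E5 →L[ℝ] ℝ) {A B : ℝ}
    (hA : HasDerivAt (fun r => L (ff c w π q i (r, b.2))) A b.1)
    (hB : HasDerivAt (fun r => L (ff c w π q i (b.1, r))) B b.2) (v : ℝ × ℝ) :
    L (fderiv ℝ (ff c w π q i) b v) = v.1 * A + v.2 * B := by
  have hd := ((ff_smooth hP i hb).differentiableAt (by simp)).hasFDerivAt
  have h1 : HasFDerivAt (fun a => L (ff c w π q i a)) (L.comp (fderiv ℝ (ff c w π q i) b)) b :=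
    L.hasFDerivAt.comp b hd
  have h2 := fderiv_two h1.differentiableAt hA hB v
  rw [h1.fderiv] at h2
  exact h2

/-- The coordinate `x`. -/
noncomputable def L1 : E5 →L[ℝ] ℝ := (ContinuousLinearMap.fst ℝ ℝ (ℝ × ℝ × ℝ)).comp
  (ContinuousLinearMap.snd ℝ ℝ (ℝ × ℝ × ℝ × ℝ))

/-- The coordinate `p`. -/
noncomputable def L2 : E5 →L[ℝ] ℝ := ((ContinuousLinearMap.fst ℝ ℝ (ℝ × ℝ)).comp
  (ContinuousLinearMap.snd ℝ ℝ (ℝ × ℝ × ℝ))).comp (ContinuousLinearMap.snd ℝ ℝ (ℝ × ℝ × ℝ × ℝ))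

/-- The coordinate `F`. -/
noncomputable def L4 : E5 →L[ℝ] ℝ := (((ContinuousLinearMap.snd ℝ ℝ ℝ).comp
  (ContinuousLinearMap.snd ℝ ℝ (ℝ × ℝ))).comp
  (ContinuousLinearMap.snd ℝ ℝ (ℝ × ℝ × ℝ))).comp (ContinuousLinearMap.snd ℝ ℝ (ℝ × ℝ × ℝ × ℝ))

theorem ff_exact (hP : IsPhase c w J π q) (i : Fin n) {b : ℝ × ℝ} (hb : b.1 ∈ J) (v : ℝ × ℝ) :
    (fderiv ℝ (ff c w π q i) b v).2.2.2.2 =
      (ff c w π q i b).2.2.2.1 * (fderiv ℝ (ff c w π q i) b v).1 +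
      (ff c w π q i b).2.2.1 * (fderiv ℝ (ff c w π q i) b v).2.1 := by
  obtain ⟨A, hA1, hA4⟩ := ff_s hP i hb
  obtain ⟨hB1, hB2, hB4⟩ := ff_u hP i hb
  have e1 : (fderiv ℝ (ff c w π q i) b v).2.1 = _ := ff_comp hP i hb L1 hA1 hB1 v
  have e4 : (fderiv ℝ (ff c w π q i) b v).2.2.2.2 = _ := ff_comp hP i hb L4 hA4 hB4 v
  rw [e1, e4, ff_fst hP i hb v]
  ring

/-- Outside `(-1,1)` the profile moves in the `x`-direction. -/
theorem X_out (hP : IsPhase c w J π q) (i : Fin n) {b : ℝ × ℝ} (hb : b.1 ∈ J) (hu : 1 ≤ |b.2|) :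
    deriv ((π i).X b.1) b.2 ≠ 0 := by
  have hX : HasDerivAt ((π i).X b.1) (deriv ((π i).X b.1) b.2) b.2 :=
    part_two ((X_at hP i hb).differentiableAt (by simp))
  have hbd := (hP.prof i).bd b.1 hb
  have key : ∀ (S : Set ℝ) (k : ℝ), k ≠ 0 → b.2 ∈ S → UniqueDiffWithinAt ℝ S b.2 →
      (∀ u ∈ S, (π i).X b.1 u = k * u) → deriv ((π i).X b.1) b.2 ≠ 0 := by
    intro S k hk hbS hS hXS
    have h1 : HasDerivWithinAt (fun u : ℝ => k * u) (k * 1) S b.2 :=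
      ((hasDerivAt_id b.2).const_mul k).hasDerivWithinAt
    have h2 : HasDerivWithinAt ((π i).X b.1) (k * 1) S b.2 :=
      h1.congr hXS (hXS b.2 hbS)
    have h3 := hS.eq_deriv S hX.hasDerivWithinAt h2
    rw [h3, mul_one]
    exact hk
  rcases le_abs.1 hu with h | h
  · have hS : UniqueDiffWithinAt ℝ (Ici (1 : ℝ)) b.2 := uniqueDiffOn_Ici 1 b.2 h
    rcases ht : c.ty i with _ | _ | _
    · refine key _ 1 one_ne_zero h hS fun u hu => ?_
      rw [(hbd.high u hu).1, ht]; simp [Ty.outX]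
    · refine key _ (-1) (by norm_num) h hS fun u hu => ?_
      rw [(hbd.high u hu).1, ht]; simp [Ty.outX]
    · refine key _ 1 one_ne_zero h hS fun u hu => ?_
      rw [(hbd.high u hu).1, ht]; simp [Ty.outX]
  · have hm : b.2 ∈ Iic (-1 : ℝ) := by
      simp only [mem_Iic]; linarith
    have hS : UniqueDiffWithinAt ℝ (Iic (-1 : ℝ)) b.2 := uniqueDiffOn_Iic (-1) b.2 hm
    rcases ht : c.ty i with _ | _ | _
    · refine key _ 1 one_ne_zero hm hS fun u hu => ?_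
      rw [(hbd.low u hu).1, ht]; simp [Ty.inX]
    · refine key _ 1 one_ne_zero hm hS fun u hu => ?_
      rw [(hbd.low u hu).1, ht]; simp [Ty.inX]
    · refine key _ (-1) (by norm_num) hm hS fun u hu => ?_
      rw [(hbd.low u hu).1, ht]; simp [Ty.inX]

theorem ff_imm (hP : IsPhase c w J π q) (i : Fin n) {b : ℝ × ℝ} (hb : b.1 ∈ J) (v : ℝ × ℝ)
    (h0 : (fderiv ℝ (ff c w π q i) b v).1 = 0) (h1 : (fderiv ℝ (ff c w π q i) b v).2.1 = 0)
    (h2 : (fderiv ℝ (ff c w π q i) b v).2.2.1 = 0) : v = 0 := by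
  rw [ff_fst hP i hb v] at h0
  obtain ⟨A, hA1, hA4⟩ := ff_s hP i hb
  obtain ⟨hB1, hB2, hB4⟩ := ff_u hP i hb
  have hA2 := part_one (G := fun a => (ff c w π q i a).2.2.1) (b := b)
    (((ff_smooth hP i hb).differentiableAt (by simp)).snd.snd.fst)
  have e1 : (fderiv ℝ (ff c w π q i) b v).2.1 = _ := ff_comp hP i hb L1 hA1 hB1 v
  have e2 : (fderiv ℝ (ff c w π q i) b v).2.2.1 = _ := ff_comp hP i hb L2 hA2 hB2 v
  rw [h0, zero_mul, zero_add] at e1 e2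
  have e1' := e1.symm.trans h1
  have e2' := e2.symm.trans h2
  have hv2 : v.2 = 0 := by
    by_contra hne
    have hw := (hP.wpos i).ne'
    have f1 : deriv ((π i).X b.1) b.2 = 0 := by
      rcases mul_eq_zero.1 e1' with h | h
      · exact absurd h hne
      · exact (mul_eq_zero.1 h).resolve_left hw
    have f2 : c.dl (q b.1) i * deriv ((π i).P b.1) b.2 = 0 :=
      (mul_eq_zero.1 e2').resolve_left hne
    rcases lt_or_ge |b.2| 1 with hlt | hge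
    · rcases (hP.prof i).imm b.1 hb b.2 hlt with h | h
      · exact h f1
      · exact h f2
    · exact X_out hP i hb hge f1
  exact Prod.ext h0 hv2

end

end VEX

open VEX in
theorem t_VEX : Stmt_VEX := by
  intro m n c w J π q hP i s hs u
  have hev : ∀ᶠ b : ℝ × ℝ in 𝓝 (s, u), b.1 ∈ J :=
    continuous_fst.continuousAt.eventually_mem (hP.openJ.mem_nhds hs)
  exact ⟨hev.mono fun b hb => ff_smooth hP i hb, hev.mono fun b hb v => ff_exact hP i hb v,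
    fun v h0 h1 h2 _ => ff_imm hP i (b := (s, u)) hs v h0 h1 h2⟩

end LCA
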