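import Pool.Agent.LCA.Stmts1

set_option autoImplicit false

namespace LCA

open Set Filter
open scoped ContDiff Topology

namespace VLN

variable {m n : ℕ}

lemma I1 (c : Comb m n) (q : St n) (e : Fin m) (i : Fin n)
    (hne : q.1 (c.lf e) < q.1 (c.rt e)) (h : c.lf e = i ∨ c.rt e = i) :
    q.2 i = c.pe q e * q.1 i + c.ae q e := by
  have hd : q.1 (c.rt e) - q.1 (c.lf e) ≠ 0 := by
    have := sub_pos.2 hne
    exact this.ne'
  rcases h with h | h
  · subst h
    unfold Comb.ae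
    ring
  · subst h
    have h1 : c.pe q e * (q.1 (c.rt e) - q.1 (c.lf e)) = q.2 (c.rt e) - q.2 (c.lf e) := by
      unfold Comb.pe
      exact div_mul_cancel₀ _ hd
    unfold Comb.ae
    linarith

lemma I2 (c : Comb m n) (q v : St n) (e : Fin m) (i : Fin n)
    (hne : q.1 (c.lf e) < q.1 (c.rt e)) (h : c.lf e = i ∨ c.rt e = i) :
    v.2 i = c.dpe q v e * q.1 i + c.pe q e * v.1 i + c.dae q v e := by
  have hd : q.1 (c.rt e) - q.1 (c.lf e) ≠ 0 := by
    have := sub_pos.2 hne
    exact this.ne'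
  rcases h with h | h
  · subst h
    unfold Comb.dae
    ring
  · subst h
    have h1 : c.dpe q v e * (q.1 (c.rt e) - q.1 (c.lf e)) =
        v.2 (c.rt e) - v.2 (c.lf e) - c.pe q e * (v.1 (c.rt e) - v.1 (c.lf e)) := by
      unfold Comb.dpe
      exact div_mul_cancel₀ _ hd
    unfold Comb.dae
    linarith

lemma ends_a (c : Comb m n) (hv : c.Valid) (i : Fin n) :
    c.lf (c.ea i) = i ∨ c.rt (c.ea i) = i := by
  have h := hv.oka i
  unfold Comb.OKa at h
  rcases ht : c.ty i <;> rw [ht] at h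
  · exact Or.inr h
  · exact Or.inr h
  · exact Or.inl h

lemma ends_b (c : Comb m n) (hv : c.Valid) (i : Fin n) :
    c.lf (c.eb i) = i ∨ c.rt (c.eb i) = i := by
  have h := hv.okb i
  unfold Comb.OKb at h
  rcases ht : c.ty i <;> rw [ht] at h
  · exact Or.inl h
  · exact Or.inr h
  · exact Or.inl h

end VLN

theorem t_VLN : Stmt_VLN := by
  intro m n c w π s q v i hv hb hq
  have ha1 := VLN.I1 c q (c.ea i) i (hq _) (VLN.ends_a c hv i)
  have hb1 := VLN.I1 c q (c.eb i) i (hq _) (VLN.ends_b c hv i)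
  have ha2 := VLN.I2 c q v (c.ea i) i (hq _) (VLN.ends_a c hv i)
  have hb2 := VLN.I2 c q v (c.eb i) i (hq _) (VLN.ends_b c hv i)
  refine ⟨?_, ?_⟩
  · intro u hu hY
    obtain ⟨hX, hP, hT⟩ := (hb i).low u hu
    simp only [Comb.vp, Comb.vpt, Comb.ept, Comb.dl, hX, hP, hT, hY, Prod.mk.injEq]
    refine ⟨trivial, by ring, by ring, by ring⟩
  · intro u hu hY
    obtain ⟨hX, hP, hT⟩ := (hb i).high u hu
    have e1 : c.ae q (c.eb i) = c.ae q (c.ea i) - c.dl q i * q.1 i := by
      unfold Comb.dl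
      linarith
    have e2 : c.dae q v (c.eb i) = c.dae q v (c.ea i)
        - (c.dpe q v (c.eb i) - c.dpe q v (c.ea i)) * q.1 i - c.dl q i * v.1 i := by
      unfold Comb.dl
      linarith
    simp only [Comb.vp, Comb.vpt, Comb.ept, hX, hP, hT, hY, Prod.mk.injEq, e1, e2]
    refine ⟨trivial, ?_, ?_, ?_⟩
    · unfold Comb.dl
      ring
    · ring
    · unfold Comb.dl
      ring

end LCA
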