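import Pool.Agent.LCA.Stmts3

/-!
# WEQ: a profile of width `l w` is a profile of width `w`
-/

namespace LCA

open Set Filter
open scoped ContDiff Topology

namespace WEQ

theorem profBd (sh : Shape) (t : Ty) (s : ℝ) : ProfBd t s (sh.st t) where
  low u hu := by
    have habs : |u| = -u := abs_of_nonpos (by linarith)
    have h1 : 1 ≤ |u| := by rw [habs]; linarith
    have hξ := sh.ξ_out u h1
    rw [habs] at hξ
    cases t
    · exact ⟨rfl, sh.τ_low u hu, sh.ΘP_low u hu⟩
    · exact ⟨by change sh.ξ u = u; linarith, sh.τ_low u hu, sh.ΘR_low u hu⟩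
    · exact ⟨by change -sh.ξ u = -u; linarith, sh.τ_low u hu,
        by change -sh.ΘR u = 0; rw [sh.ΘR_low u hu, neg_zero]⟩
  high u hu := by
    have habs : |u| = u := abs_of_nonneg (by linarith)
    have h1 : 1 ≤ |u| := by rw [habs]; exact hu
    have hξ := sh.ξ_out u h1
    rw [habs] at hξ
    cases t
    · exact ⟨rfl, sh.τ_high u hu, sh.ΘP_high u hu⟩
    · exact ⟨by change sh.ξ u = -u; linarith, sh.τ_high u hu, sh.ΘR_high u hu⟩
    · exact ⟨by change -sh.ξ u = u; linarith, sh.τ_high u hu,
        by change -sh.ΘR u = u; rw [sh.ΘR_high u hu, neg_neg]⟩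
  X_bd u hu := by
    cases t
    · exact hu
    · exact sh.ξ_in u hu
    · change |-sh.ξ u| ≤ 1
      rw [abs_neg]
      exact sh.ξ_in u hu
  P_mem u := sh.τ_mem u
  Θ_bd u hu := by
    cases t
    · exact sh.ΘP_bd u hu
    · exact sh.ΘR_bd u hu
    · change |-sh.ΘR u| ≤ 2
      rw [abs_neg]
      exact sh.ΘR_bd u hu
  Y_bd u _ := by
    change |(0 : ℝ)| ≤ CY
    rw [abs_zero]
    unfold CY
    norm_num

theorem vp_eq {m n : ℕ} (sh : Shape) (c : Comb m n) (w w' l : Fin n → ℝ) (q v : St n)
    (π : Fin n → Prof) (s : ℝ) (hl : ∀ i, 0 < l i) (hw' : ∀ i, w' i = l i * w i)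
    (hπ : ∀ i, ∀ u, (π i).X s u = l i * (sh.st (c.ty i)).X 0 (u / l i) ∧
      (π i).P s u = sh.τ (u / l i) ∧ (π i).Θ s u = l i * (sh.st (c.ty i)).Θ 0 (u / l i) ∧
      (π i).Y s u = 0) (i : Fin n) (u : ℝ) :
    c.vp w π s q v i (l i * u) = c.vp w' (c.sp sh) 0 q v i u := by
  have hne : l i ≠ 0 := (hl i).ne'
  have hu : l i * u / l i = u := by field_simp
  obtain ⟨h1, h2, h3, h4⟩ := hπ i (l i * u)
  rw [hu] at h1 h2 h3
  unfold Comb.vp Comb.vpt
  rw [h1, h2, h3, h4, hw' i]
  change _ = (q.1 i + l i * w i * (sh.st (c.ty i)).X 0 u, c.pe q (c.ea i) + c.dl q i * sh.τ u,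
    c.dpe q v (c.ea i) * (q.1 i + l i * w i * (sh.st (c.ty i)).X 0 u) + c.dae q v (c.ea i)
      + l i * w i * ((c.dpe q v (c.eb i) - c.dpe q v (c.ea i)) * (sh.st (c.ty i)).Θ 0 u
        + c.dl q i * 0)
      - c.dl q i * sh.τ u * v.1 i,
    c.pe q (c.ea i) * (q.1 i + l i * w i * (sh.st (c.ty i)).X 0 u) + c.ae q (c.ea i)
      + l i * w i * c.dl q i * (sh.st (c.ty i)).Θ 0 u)
  refine Prod.ext ?_ (Prod.ext ?_ (Prod.ext ?_ ?_))
  · change q.1 i + w i * (l i * _) = _
    ring
  · rfl
  · ring
  · ring

end WEQ

open WEQ in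
theorem t_WEQ (hVLN : Stmt_VLN) : Stmt_WEQ := by
  intro m n sh c w w' l q v π s hV hw hl hl1 hw' hlen hπ
  have hw'pos : ∀ i, 0 < w' i := fun i => by rw [hw' i]; exact mul_pos (hl i) (hw i)
  have hw'le : ∀ i, w' i ≤ w i := fun i => by
    rw [hw' i]
    nlinarith [hw i, hl1 i]
  have hlt : ∀ e, q.1 (c.lf e) < q.1 (c.rt e) := fun e => by
    have := hlen e
    have h1 := hw (c.lf e)
    have h2 := hw (c.rt e)
    linarith
  have hbd : ∀ i, ProfBd (c.ty i) 0 (c.sp sh i) := fun i => profBd sh (c.ty i) 0
  have hvln : ∀ i, (∀ u, u ≤ -1 →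
      c.vp w' (c.sp sh) 0 q v i u = c.ept q v (c.ea i) (q.1 i + w' i * (c.ty i).inX u)) ∧
      (∀ u, 1 ≤ u →
      c.vp w' (c.sp sh) 0 q v i u = c.ept q v (c.eb i) (q.1 i + w' i * (c.ty i).outX u)) := by
    intro i
    have h := hVLN c w' (c.sp sh) 0 q v i hV hbd hlt
    exact ⟨fun u hu => h.1 u hu rfl, fun u hu => h.2 u hu rfl⟩
  have hvp := vp_eq sh c w w' l q v π s hl hw' hπ
  apply Set.Subset.antisymm
  · rintro r (⟨e, x, hx, rfl⟩ | ⟨i, u, hu, rfl⟩)
    · left
      refine ⟨e, x, ?_, rfl⟩
      have h1 := hw'le (c.lf e)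
      have h2 := hw'le (c.rt e)
      exact ⟨by linarith [hx.1], by linarith [hx.2]⟩
    · have hli := hl i
      have hne : l i ≠ 0 := hli.ne'
      obtain ⟨t, ht⟩ : ∃ t, u = l i * t := ⟨u / l i, by field_simp⟩
      subst ht
      rw [hvp i t]
      have hwt : |w' i * t| ≤ 2 * w i := by
        have h1 : w' i * t = w i * (l i * t) := by rw [hw' i]; ring
        rw [h1, abs_mul, abs_of_pos (hw i)]
        nlinarith [hw i]
      rw [abs_le] at hwt
      by_cases h2 : |t| ≤ 2
      · right
        exact ⟨i, t, h2, rfl⟩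
      · left
        have h2' : 2 < |t| := not_le.mp h2
        rcases lt_or_ge t 0 with h0 | h0
        · rw [abs_of_neg h0] at h2'
          rw [(hvln i).1 t (by linarith)]
          refine ⟨c.ea i, _, ?_, rfl⟩
          have hoka := hV.oka i
          have hwt2 : w' i * t ≤ -(2 * w' i) := by nlinarith [hw'pos i]
          unfold Comb.OKa at hoka
          cases hty : c.ty i with
          | P =>
            rw [hty] at hoka
            change c.rt (c.ea i) = i at hoka
            have hl2 := hlen (c.ea i)
            have hl3 := hw'le (c.lf (c.ea i))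
            change q.1 i + w' i * t ∈ Icc _ _
            rw [hoka] at hl2 ⊢
            exact ⟨by linarith, by linarith⟩
          | R =>
            rw [hty] at hoka
            change c.rt (c.ea i) = i at hoka
            have hl2 := hlen (c.ea i)
            have hl3 := hw'le (c.lf (c.ea i))
            change q.1 i + w' i * t ∈ Icc _ _
            rw [hoka] at hl2 ⊢
            exact ⟨by linarith, by linarith⟩
          | L =>
            rw [hty] at hoka
            change c.lf (c.ea i) = i at hoka
            have hl2 := hlen (c.ea i)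
            have hl3 := hw'le (c.rt (c.ea i))
            change q.1 i + w' i * (-t) ∈ Icc _ _
            rw [hoka] at hl2 ⊢
            exact ⟨by linarith, by linarith⟩
        · rw [abs_of_nonneg h0] at h2'
          rw [(hvln i).2 t (by linarith)]
          refine ⟨c.eb i, _, ?_, rfl⟩
          have hokb := hV.okb i
          have hwt2 : 2 * w' i ≤ w' i * t := by nlinarith [hw'pos i]
          unfold Comb.OKb at hokb
          cases hty : c.ty i with
          | P =>
            rw [hty] at hokb
            change c.lf (c.eb i) = i at hokb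
            have hl2 := hlen (c.eb i)
            have hl3 := hw'le (c.rt (c.eb i))
            change q.1 i + w' i * t ∈ Icc _ _
            rw [hokb] at hl2 ⊢
            exact ⟨by linarith, by linarith⟩
          | R =>
            rw [hty] at hokb
            change c.rt (c.eb i) = i at hokb
            have hl2 := hlen (c.eb i)
            have hl3 := hw'le (c.lf (c.eb i))
            change q.1 i + w' i * (-t) ∈ Icc _ _
            rw [hokb] at hl2 ⊢
            exact ⟨by linarith, by linarith⟩
          | L =>
            rw [hty] at hokb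
            change c.lf (c.eb i) = i at hokb
            have hl2 := hlen (c.eb i)
            have hl3 := hw'le (c.rt (c.eb i))
            change q.1 i + w' i * t ∈ Icc _ _
            rw [hokb] at hl2 ⊢
            exact ⟨by linarith, by linarith⟩
  · -- the key: a point of the vertex piece of width `w'`
    have hkey : ∀ i t, |l i * t| ≤ 2 →
        c.vp w' (c.sp sh) 0 q v i t ∈ c.slice w π s q v := by
      intro i t ht
      right
      exact ⟨i, l i * t, ht, (hvp i t).symm⟩
    have hkey2 : ∀ i y, 2 * w' i ≤ y → y < 2 * w i →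
        ∃ t, 1 ≤ t ∧ w' i * t = y ∧ |l i * t| ≤ 2 ∧ |l i * (-t)| ≤ 2 := by
      intro i y hy1 hy2
      have hpos := hw'pos i
      have hne : w' i ≠ 0 := hpos.ne'
      have hyt : w' i * (y / w' i) = y := by field_simp
      have h1 : 2 ≤ y / w' i := by
        rw [le_div_iff₀ hpos]
        exact hy1
      have h3 : 0 ≤ l i * (y / w' i) := mul_nonneg (hl i).le (by linarith)
      have h4 : l i * (y / w' i) ≤ 2 := by
        have h5 : w i * (l i * (y / w' i)) = y := by
          calc w i * (l i * (y / w' i)) = (l i * w i) * (y / w' i) := by ring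
            _ = w' i * (y / w' i) := by rw [← hw' i]
            _ = y := hyt
        have h6 := hw i
        by_contra hcon
        have hcon' := not_le.mp hcon
        nlinarith
      refine ⟨y / w' i, by linarith, hyt, ?_, ?_⟩
      · rw [abs_of_nonneg h3]
        exact h4
      · rw [mul_neg, abs_neg, abs_of_nonneg h3]
        exact h4
    rintro r (⟨e, x, hx, rfl⟩ | ⟨i, u, hu, rfl⟩)
    · by_cases h1 : x < q.1 (c.lf e) + 2 * w (c.lf e)
      · have hx1 := hx.1
        obtain ⟨t, ht1, ht2, ht3, ht4⟩ := hkey2 (c.lf e) (x - q.1 (c.lf e)) (by linarith)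
          (by linarith)
        rcases hV.lf e with ⟨hty, hea⟩ | ⟨hty, heb⟩
        · have h := (hvln (c.lf e)).1 (-t) (by linarith)
          rw [hea, hty] at h
          have hxx : q.1 (c.lf e) + w' (c.lf e) * Ty.L.inX (-t) = x := by
            change q.1 (c.lf e) + w' (c.lf e) * (- -t) = x
            rw [neg_neg, ht2]
            ring
          rw [hxx] at h
          rw [← h]
          exact hkey _ _ ht4
        · have h := (hvln (c.lf e)).2 t ht1
          have hout : (c.ty (c.lf e)).outX t = t := by
            cases hty' : c.ty (c.lf e) with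
            | P => rfl
            | R => exact absurd hty' hty
            | L => rfl
          rw [heb, hout, ht2] at h
          have hxx : q.1 (c.lf e) + (x - q.1 (c.lf e)) = x := by ring
          rw [hxx] at h
          rw [← h]
          exact hkey _ _ ht3
      · by_cases h2 : q.1 (c.rt e) - 2 * w (c.rt e) < x
        · have hx2 := hx.2
          obtain ⟨t, ht1, ht2, ht3, ht4⟩ := hkey2 (c.rt e) (q.1 (c.rt e) - x) (by linarith)
            (by linarith)
          rcases hV.rt e with ⟨hty, hea⟩ | ⟨hty, heb⟩
          · have h := (hvln (c.rt e)).1 (-t) (by linarith)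
            have hin : (c.ty (c.rt e)).inX (-t) = -t := by
              cases hty' : c.ty (c.rt e) with
              | P => rfl
              | R => rfl
              | L => exact absurd hty' hty
            rw [hea, hin, mul_neg, ht2] at h
            have hxx : q.1 (c.rt e) + -(q.1 (c.rt e) - x) = x := by ring
            rw [hxx] at h
            rw [← h]
            exact hkey _ _ ht4
          · have h := (hvln (c.rt e)).2 t ht1
            rw [heb, hty] at h
            have hxx : q.1 (c.rt e) + w' (c.rt e) * Ty.R.outX t = x := by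
              change q.1 (c.rt e) + w' (c.rt e) * (-t) = x
              rw [mul_neg, ht2]
              ring
            rw [hxx] at h
            rw [← h]
            exact hkey _ _ ht3
        · left
          exact ⟨e, x, ⟨not_lt.mp h1, not_lt.mp h2⟩, rfl⟩
    · apply hkey
      rw [abs_mul, abs_of_pos (hl i)]
      nlinarith [abs_nonneg u, hl1 i, hl i]

end LCA
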