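import Pool.Agent.LCA.Stmts3

/-!
# WID: the widths may be decreased or increased
-/

namespace LCA

open Set Filter
open scoped ContDiff Topology

namespace WID

/-! ### affine change of the time of a profile -/

/-- Affine change of the time. -/
def tc (σ b : ℝ) (π : Prof) : Prof where
  X s u := π.X (σ * s + b) u
  P s u := π.P (σ * s + b) u
  Θ s u := π.Θ (σ * s + b) u
  Y s u := σ * π.Y (σ * s + b) u

theorem deriv_tc {σ : ℝ} (hσ : σ = 1 ∨ σ = -1) (b : ℝ) (f : ℝ → ℝ) (s : ℝ) :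
    deriv (fun r => f (σ * r + b)) s = σ * deriv f (σ * s + b) := by
  rcases hσ with rfl | rfl
  · simp only [one_mul]
    exact deriv_comp_add_const f b s
  · have h1 : (fun r => f (-1 * r + b)) = fun r => f (b - r) := by
      funext r
      rw [show -1 * r + b = b - r by ring]
    rw [h1, deriv_comp_const_sub, show -1 * s + b = b - s by ring]
    ring

theorem prof_tc {σ b : ℝ} (hσ : σ = 1 ∨ σ = -1) {J : Set ℝ} {ty : Ty} {D : ℝ → ℝ} {π : Prof}
    (h : ProfOK {r | σ * (r - b) ∈ J} ty (fun r => D (σ * (r - b))) π) :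
    ProfOK J ty D (tc σ b π) := by
  have hinv : ∀ s, σ * (σ * s + b - b) = s := by
    intro s
    rcases hσ with rfl | rfl <;> ring
  have hmem : ∀ s ∈ J, σ * s + b ∈ {r | σ * (r - b) ∈ J} := by
    intro s hs
    show σ * (σ * s + b - b) ∈ J
    rw [hinv]
    exact hs
  have hsm : ContDiff ℝ ∞ (fun a : ℝ × ℝ => (σ * a.1 + b, a.2)) := by fun_prop
  have hmaps : MapsTo (fun a : ℝ × ℝ => (σ * a.1 + b, a.2)) (J ×ˢ univ)
      ({r | σ * (r - b) ∈ J} ×ˢ univ) := fun a ha => ⟨hmem a.1 ha.1, mem_univ _⟩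
  have habs : |σ| = 1 := by
    rcases hσ with rfl | rfl <;> simp
  refine ⟨h.X_smooth.comp hsm.contDiffOn hmaps, h.P_smooth.comp hsm.contDiffOn hmaps,
    h.Θ_smooth.comp hsm.contDiffOn hmaps, fun s hs u => h.dΘ _ (hmem s hs) u, ?_, ?_, ?_, ?_⟩
  · intro s hs u
    show σ * π.Y (σ * s + b) u = deriv (fun r => π.Θ (σ * r + b) u) s -
      π.P (σ * s + b) u * deriv (fun r => π.X (σ * r + b) u) s
    rw [deriv_tc hσ b (fun r => π.Θ r u) s, deriv_tc hσ b (fun r => π.X r u) s,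
      h.Y_eq _ (hmem s hs) u]
    ring
  · intro s hs
    have hb := h.bd _ (hmem s hs)
    refine ⟨hb.low, hb.high, hb.X_bd, hb.P_mem, hb.Θ_bd, fun u hu => ?_⟩
    show |σ * π.Y (σ * s + b) u| ≤ CY
    rw [abs_mul, habs, one_mul]
    exact hb.Y_bd u hu
  · intro s hs u hu
    have h1 := h.imm _ (hmem s hs) u hu
    simp only [hinv] at h1
    exact h1
  · intro s hs u u' hu hu' hX hD
    have h1 := h.inj _ (hmem s hs) u u' hu hu' hX
    simp only [hinv] at h1
    exact h1 hD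

/-- If `X`, `Θ` do not depend on the time near `s`, then `Y = 0`. -/
theorem Y_zero {J : Set ℝ} {ty : Ty} {D : ℝ → ℝ} {π : Prof} (h : ProfOK J ty D π) {s : ℝ}
    (hs : s ∈ J) (u : ℝ) {a b : ℝ} (hX : ∀ᶠ r in 𝓝 s, π.X r u = a)
    (hΘ : ∀ᶠ r in 𝓝 s, π.Θ r u = b) : π.Y s u = 0 := by
  rw [h.Y_eq s hs u]
  have h1 : (fun r => π.Θ r u) =ᶠ[𝓝 s] fun _ => b := hΘ
  have h2 : (fun r => π.X r u) =ᶠ[𝓝 s] fun _ => a := hX
  rw [h1.deriv_eq, h2.deriv_eq]
  simp

variable {m n : ℕ}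

theorem slice_congr (c : Comb m n) (w : Fin n → ℝ) {π π' : Fin n → Prof} {s s' : ℝ} (q v : St n)
    (hX : ∀ i u, (π i).X s u = (π' i).X s' u) (hP : ∀ i u, (π i).P s u = (π' i).P s' u)
    (hΘ : ∀ i u, (π i).Θ s u = (π' i).Θ s' u) (hY : ∀ i u, (π i).Y s u = (π' i).Y s' u) :
    c.slice w π s q v = c.slice w π' s' q v := by
  unfold Comb.slice Comb.vp
  simp only [hX, hP, hΘ, hY]

theorem lin_lin (Q V : St n) (t t' : ℝ) : lin (lin Q V t t') V t' = lin Q V t := by
  funext s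
  unfold lin
  rw [add_assoc, ← add_smul]
  congr 2
  ring

theorem pe_cont (c : Comb m n) (Q V : St n) (t s : ℝ) (e : Fin m)
    (hlen : (lin Q V t s).1 (c.lf e) < (lin Q V t s).1 (c.rt e)) :
    ContinuousAt (fun r => c.pe (lin Q V t r) e) s := by
  unfold Comb.pe lin
  have hne : (Q + (s - t) • V).1 (c.rt e) - (Q + (s - t) • V).1 (c.lf e) ≠ 0 := by
    unfold lin at hlen
    exact (sub_pos.mpr hlen).ne'
  refine ContinuousAt.div ?_ ?_ hne
  · have : Continuous (fun r : ℝ => (Q + (r - t) • V).2 (c.rt e) - (Q + (r - t) • V).2 (c.lf e)) := by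
      simp only [Prod.snd_add, Prod.smul_snd, Pi.add_apply, Pi.smul_apply, smul_eq_mul]
      fun_prop
    exact this.continuousAt
  · have : Continuous (fun r : ℝ => (Q + (r - t) • V).1 (c.rt e) - (Q + (r - t) • V).1 (c.lf e)) := by
      simp only [Prod.fst_add, Prod.smul_fst, Pi.add_apply, Pi.smul_apply, smul_eq_mul]
      fun_prop
    exact this.continuousAt

theorem near (c : Comb m n) (w : Fin n → ℝ) (hw : ∀ i, 0 < w i) (Q V : St n) (t s : ℝ)
    (hc : c.Cert w (lin Q V t s) V) :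
    ∀ᶠ r in 𝓝 s, (∀ e, 2 * (w (c.lf e) + w (c.rt e)) <
        (lin Q V t r).1 (c.rt e) - (lin Q V t r).1 (c.lf e)) ∧
      ∀ i, c.ty i ≠ .P → c.dl (lin Q V t r) i ≠ 0 := by
  have hlt : ∀ e, (lin Q V t s).1 (c.lf e) < (lin Q V t s).1 (c.rt e) := by
    intro e
    have h1 := hc.len e
    have h2 := hw (c.lf e)
    have h3 := hw (c.rt e)
    linarith
  refine Filter.Eventually.and ?_ ?_
  · refine eventually_all.mpr fun e => ?_
    have hcont : Continuous (fun r : ℝ => (lin Q V t r).1 (c.rt e) - (lin Q V t r).1 (c.lf e)) := by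
      unfold lin
      simp only [Prod.fst_add, Prod.smul_fst, Pi.add_apply, Pi.smul_apply, smul_eq_mul]
      fun_prop
    exact hcont.continuousAt.eventually (lt_mem_nhds (hc.len e))
  · refine eventually_all.mpr fun i => ?_
    by_cases hi : c.ty i = .P
    · exact Eventually.of_forall fun r h => absurd hi h
    · have hcont : ContinuousAt (fun r => c.dl (lin Q V t r) i) s := by
        unfold Comb.dl
        exact (pe_cont c Q V t s _ (hlt _)).sub (pe_cont c Q V t s _ (hlt _))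
      filter_upwards [hcont.eventually_ne (hc.tip i hi)] with r hr _
      exact hr

theorem exists_eps (c : Comb m n) (w : Fin n → ℝ) (hw : ∀ i, 0 < w i) (Q V : St n) (t : ℝ)
    (hc : ∀ s ∈ Icc t (t + 1), c.Cert w (lin Q V t s) V) :
    ∃ ε > 0, ε ≤ 1 / 4 ∧ ∀ r ∈ Ioo (t - ε) (t + 1 + ε),
      (∀ e, 2 * (w (c.lf e) + w (c.rt e)) <
        (lin Q V t r).1 (c.rt e) - (lin Q V t r).1 (c.lf e)) ∧
      ∀ i, c.ty i ≠ .P → c.dl (lin Q V t r) i ≠ 0 := by
  have h1 := near c w hw Q V t t (hc t ⟨le_rfl, by linarith⟩)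
  have h2 := near c w hw Q V t (t + 1) (hc (t + 1) ⟨by linarith, le_rfl⟩)
  obtain ⟨ε₁, hε₁, h1'⟩ := Metric.eventually_nhds_iff.mp h1
  obtain ⟨ε₂, hε₂, h2'⟩ := Metric.eventually_nhds_iff.mp h2
  refine ⟨min (1 / 4) (min ε₁ ε₂), by positivity, min_le_left _ _, fun r hr => ?_⟩
  have hle1 : min (1 / 4) (min ε₁ ε₂) ≤ ε₁ := (min_le_right _ _).trans (min_le_left _ _)
  have hle2 : min (1 / 4) (min ε₁ ε₂) ≤ ε₂ := (min_le_right _ _).trans (min_le_right _ _)
  rcases lt_or_ge r t with hrt | hrt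
  · refine h1' ?_
    rw [Real.dist_eq, abs_lt]
    constructor <;> linarith [hr.1]
  · rcases le_or_gt r (t + 1) with hr1 | hr1
    · have hcc := hc r ⟨hrt, hr1⟩
      exact ⟨hcc.len, hcc.tip⟩
    · refine h2' ?_
      rw [Real.dist_eq, abs_lt]
      constructor <;> linarith [hr.2]

end WID

open WID in
/-- WID: the widths may be decreased or increased. -/
theorem t_WID (hWPR : Stmt_WPR) (hWEQ : Stmt_WEQ) (hMVP : Stmt_MVP) (hATR : Stmt_ATR)
    (_hPST : Stmt_PST) : Stmt_WID := by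
  intro m n K sh c w w' Q V t hval hw' hle hcert
  have hw : ∀ i, 0 < w i := fun i => (hw' i).trans_le (hle i)
  have hl0 : ∀ i, 0 < w' i / w i := fun i => div_pos (hw' i) (hw i)
  have hl1 : ∀ i, w' i / w i ≤ 1 := fun i => (div_le_one (hw i)).mpr (hle i)
  have hlw : ∀ i, w' i = w' i / w i * w i := fun i => (div_mul_cancel₀ _ (hw i).ne').symm
  choose ρ hok hearly hlate using fun i => hWPR sh (c.ty i) (w' i / w i) (hl0 i) (hl1 i)
  obtain ⟨ε, hε, hε4, hgood⟩ := exists_eps c w hw Q V t hcert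
  -- the profile with the affine change of time is admissible
  have hprof : ∀ σ b : ℝ, (σ = 1 ∨ σ = -1) → ∀ i, ProfOK (Ioo (t - ε) (t + 1 + ε)) (c.ty i)
      (fun s => c.dl (lin Q V t s) i) (tc σ b (ρ i)) := by
    intro σ b hσ i
    refine prof_tc hσ (hok i _ _ ?_ ?_)
    · have : Continuous fun r : ℝ => σ * (r - b) := by fun_prop
      exact isOpen_Ioo.preimage this
    · intro r hr hty
      exact (hgood _ hr).2 i hty
  have hmem : ∀ ε' : ℝ, ε' ≤ ε → ∀ r ∈ Ioo (t - ε') (t + ε'), r ∈ Ioo (t - ε) (t + 1 + ε) :=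
    fun ε' h r hr => ⟨by linarith [hr.1], by linarith [hr.2]⟩
  have hmem' : ∀ ε' : ℝ, ε' ≤ ε → ∀ r ∈ Ioo (t + 1 - ε') (t + 1 + ε'),
      r ∈ Ioo (t - ε) (t + 1 + ε) :=
    fun ε' h r hr => ⟨by linarith [hr.1], by linarith [hr.2]⟩
  -- the profile is static while `σ s + b < -1/4`
  have hstat : ∀ σ b : ℝ, (σ = 1 ∨ σ = -1) → ∀ s ∈ Ioo (t - ε) (t + 1 + ε),
      σ * s + b < -(1 / 4) →
      c.slice w (fun i => tc σ b (ρ i)) s (lin Q V t s) (deriv (lin Q V t) s) =
        c.slice w (c.sp sh) s (lin Q V t s) (deriv (lin Q V t) s) := by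
    intro σ b hσ s hs hsb
    have hev : ∀ᶠ r in 𝓝 s, σ * r + b < -(1 / 4) := by
      have : Continuous fun r : ℝ => σ * r + b := by fun_prop
      exact this.continuousAt.eventually (gt_mem_nhds hsb)
    apply slice_congr
    · intro i u
      exact (hearly i _ hsb.le u).1
    · intro i u
      exact (hearly i _ hsb.le u).2.1
    · intro i u
      exact (hearly i _ hsb.le u).2.2
    · intro i u
      refine Y_zero (hprof σ b hσ i) hs u (a := (sh.st (c.ty i)).X 0 u)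
        (b := (sh.st (c.ty i)).Θ 0 u) ?_ ?_
      · filter_upwards [hev] with r hr
        exact (hearly i _ hr.le u).1
      · filter_upwards [hev] with r hr
        exact (hearly i _ hr.le u).2.2
  -- the profile is narrow while `σ s + b > 1/4`
  have hnar : ∀ σ b : ℝ, (σ = 1 ∨ σ = -1) → ∀ s ∈ Ioo (t - ε) (t + 1 + ε),
      1 / 4 < σ * s + b →
      c.slice w (fun i => tc σ b (ρ i)) s (lin Q V t s) (deriv (lin Q V t) s) =
        c.slice w' (c.sp sh) s (lin Q V t s) (deriv (lin Q V t) s) := by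
    intro σ b hσ s hs hsb
    have hev : ∀ᶠ r in 𝓝 s, 1 / 4 < σ * r + b := by
      have : Continuous fun r : ℝ => σ * r + b := by fun_prop
      exact this.continuousAt.eventually (lt_mem_nhds hsb)
    have h1 : c.slice w' (c.sp sh) s (lin Q V t s) (deriv (lin Q V t) s) =
        c.slice w' (c.sp sh) 0 (lin Q V t s) (deriv (lin Q V t) s) := by
      apply slice_congr <;> intro i u <;> rfl
    rw [h1]
    refine hWEQ sh c w w' (fun i => w' i / w i) _ _ _ s hval hw hl0 hl1 hlw (hgood s hs).1 ?_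
    intro i u
    refine ⟨(hlate i _ hsb.le u).1, (hlate i _ hsb.le u).2.1, (hlate i _ hsb.le u).2.2, ?_⟩
    refine Y_zero (hprof σ b hσ i) hs u (a := w' i / w i * (sh.st (c.ty i)).X 0 (u / (w' i / w i)))
      (b := w' i / w i * (sh.st (c.ty i)).Θ 0 (u / (w' i / w i))) ?_ ?_
    · filter_upwards [hev] with r hr
      exact (hlate i _ hr.le u).1
    · filter_upwards [hev] with r hr
      exact (hlate i _ hr.le u).2.2
  constructor
  · intro hAt
    obtain ⟨ε', hε', hεε, hG, hD⟩ := hMVP c w Q V t ε (fun i => tc 1 (-(t + 1 / 2)) (ρ i)) hval hw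
      hε hcert (hprof 1 _ (Or.inl rfl))
    refine hATR K sh c w Q V t c w' _ V (t + 1) ε' _ (by linarith) hε' hAt hG hD ?_ ?_
    · intro r hr
      have h1 := hstat 1 (-(t + 1 / 2)) (Or.inl rfl) r.1 (hmem ε' hεε _ hr) (by linarith [hr.2])
      show r.2 ∈ c.slice w _ r.1 (lin Q V t r.1) (deriv (lin Q V t) r.1) ↔
        r.2 ∈ c.slice w _ r.1 (lin Q V t r.1) (deriv (lin Q V t) r.1)
      rw [h1]
    · rw [lin_lin]
      intro r hr
      have h1 := hnar 1 (-(t + 1 / 2)) (Or.inl rfl) r.1 (hmem' ε' hεε _ hr) (by linarith [hr.1])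
      show r.2 ∈ c.slice w _ r.1 (lin Q V t r.1) (deriv (lin Q V t) r.1) ↔
        r.2 ∈ c.slice w' _ r.1 (lin Q V t r.1) (deriv (lin Q V t) r.1)
      rw [h1]
  · intro hAt
    obtain ⟨ε', hε', hεε, hG, hD⟩ := hMVP c w Q V t ε (fun i => tc (-1) (t + 1 / 2) (ρ i)) hval hw
      hε hcert (hprof (-1) _ (Or.inr rfl))
    refine hATR K sh c w' Q V t c w _ V (t + 1) ε' _ (by linarith) hε' hAt hG hD ?_ ?_
    · intro r hr
      have h1 := hnar (-1) (t + 1 / 2) (Or.inr rfl) r.1 (hmem ε' hεε _ hr) (by linarith [hr.2])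
      show r.2 ∈ c.slice w _ r.1 (lin Q V t r.1) (deriv (lin Q V t) r.1) ↔
        r.2 ∈ c.slice w' _ r.1 (lin Q V t r.1) (deriv (lin Q V t) r.1)
      rw [h1]
    · rw [lin_lin]
      intro r hr
      have h1 := hstat (-1) (t + 1 / 2) (Or.inr rfl) r.1 (hmem' ε' hεε _ hr) (by linarith [hr.1])
      show r.2 ∈ c.slice w _ r.1 (lin Q V t r.1) (deriv (lin Q V t) r.1) ↔
        r.2 ∈ c.slice w _ r.1 (lin Q V t r.1) (deriv (lin Q V t) r.1)
      rw [h1]

end LCA
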