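import Pool.Agent.LCA.Stmts3

/-!
# WPR: profiles with decreasing widths
-/

namespace LCA

open Set Filter
open scoped ContDiff Topology

namespace WPR

/-! ### The cutoff function -/

/-- A smooth function which is `0` for `v ≤ -1` and `1` for `v ≥ 2`, with derivative in
`[-1, 1]`. -/
noncomputable def g (sh : Shape) (v : ℝ) : ℝ := sh.ΘP v - sh.ΘP (v - 1)

theorem g_low (sh : Shape) {v : ℝ} (hv : v ≤ -1) : g sh v = 0 := by
  rw [g, sh.ΘP_low v hv, sh.ΘP_low (v - 1) (by linarith), sub_zero]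

theorem g_high (sh : Shape) {v : ℝ} (hv : 2 ≤ v) : g sh v = 1 := by
  rw [g, sh.ΘP_high v (by linarith), sh.ΘP_high (v - 1) (by linarith)]
  ring

theorem g_deriv (sh : Shape) (v : ℝ) : HasDerivAt (g sh) (sh.τ v - sh.τ (v - 1)) v := by
  have h1 : HasDerivAt (fun v : ℝ => v - 1) 1 v := (hasDerivAt_id v).sub_const 1
  have h2 : HasDerivAt (fun v : ℝ => sh.ΘP (v - 1)) (sh.τ (v - 1) * 1) v :=
    (sh.ΘP_deriv (v - 1)).comp v h1
  have h3 := (sh.ΘP_deriv v).sub h2
  rw [mul_one] at h3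
  exact h3

theorem g_smooth (sh : Shape) : ContDiff ℝ ∞ (g sh) :=
  sh.ΘP_smooth.sub (sh.ΘP_smooth.comp (contDiff_id.sub contDiff_const))

theorem ΘP_mono (sh : Shape) : Monotone sh.ΘP := by
  refine monotone_of_deriv_nonneg (fun u => (sh.ΘP_deriv u).differentiableAt) fun u => ?_
  rw [(sh.ΘP_deriv u).deriv]
  exact (sh.τ_mem u).1

theorem ΘP_mono' (sh : Shape) : Monotone fun u => u - sh.ΘP u := by
  have h : ∀ u : ℝ, HasDerivAt (fun u => u - sh.ΘP u) (1 - sh.τ u) u := fun u =>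
    (hasDerivAt_id u).sub (sh.ΘP_deriv u)
  refine monotone_of_deriv_nonneg (fun u => (h u).differentiableAt) fun u => ?_
  rw [(h u).deriv]
  linarith [(sh.τ_mem u).2]

theorem g_mem (sh : Shape) (v : ℝ) : 0 ≤ g sh v ∧ g sh v ≤ 1 := by
  have h1 : sh.ΘP (v - 1) ≤ sh.ΘP v := ΘP_mono sh (by linarith)
  have h2 : (v - 1) - sh.ΘP (v - 1) ≤ v - sh.ΘP v := ΘP_mono' sh (by linarith)
  rw [g]
  constructor <;> linarith

/-- The width at the time `s`. -/
noncomputable def lam (sh : Shape) (l s : ℝ) : ℝ := 1 - (1 - l) * g sh (6 * s + 1 / 2)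

/-- The derivative of the width. -/
noncomputable def dlam (sh : Shape) (l s : ℝ) : ℝ :=
  -((1 - l) * ((sh.τ (6 * s + 1 / 2) - sh.τ (6 * s + 1 / 2 - 1)) * 6))

theorem lam_low (sh : Shape) (l : ℝ) {s : ℝ} (hs : s ≤ -(1 / 4)) : lam sh l s = 1 := by
  rw [lam, g_low sh (by linarith), mul_zero, sub_zero]

theorem lam_high (sh : Shape) (l : ℝ) {s : ℝ} (hs : 1 / 4 ≤ s) : lam sh l s = l := by
  rw [lam, g_high sh (by linarith)]
  ring

theorem lam_deriv (sh : Shape) (l s : ℝ) : HasDerivAt (lam sh l) (dlam sh l s) s := by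
  have h1 : HasDerivAt (fun s : ℝ => 6 * s + 1 / 2) 6 s := by
    have h := ((hasDerivAt_id s).const_mul (6 : ℝ)).add_const (1 / 2 : ℝ)
    rw [mul_one] at h
    exact h
  have h2 : HasDerivAt (fun s : ℝ => g sh (6 * s + 1 / 2))
      ((sh.τ (6 * s + 1 / 2) - sh.τ (6 * s + 1 / 2 - 1)) * 6) s :=
    HasDerivAt.comp (h₂ := g sh) s (g_deriv sh (6 * s + 1 / 2)) h1
  have h3 := (h2.const_mul (1 - l)).const_sub 1
  exact h3

theorem lam_smooth (sh : Shape) (l : ℝ) : ContDiff ℝ ∞ (lam sh l) := by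
  have h1 : ContDiff ℝ ∞ fun s : ℝ => 6 * s + 1 / 2 :=
    (contDiff_const.mul contDiff_id).add contDiff_const
  exact contDiff_const.sub (contDiff_const.mul ((g_smooth sh).comp h1))

variable {sh : Shape} {l : ℝ}

theorem lam_pos (hl : 0 < l) (hl1 : l ≤ 1) (s : ℝ) : 0 < lam sh l s := by
  have h := g_mem sh (6 * s + 1 / 2)
  rw [lam]
  nlinarith [h.1, h.2]

theorem lam_le (hl1 : l ≤ 1) (s : ℝ) : lam sh l s ≤ 1 := by
  have h := g_mem sh (6 * s + 1 / 2)
  rw [lam]
  nlinarith [h.1, h.2]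

theorem dlam_bd (hl : 0 < l) (hl1 : l ≤ 1) (s : ℝ) : |dlam sh l s| ≤ 6 := by
  have h1 := sh.τ_mem (6 * s + 1 / 2)
  have h2 := sh.τ_mem (6 * s + 1 / 2 - 1)
  have h3 : |sh.τ (6 * s + 1 / 2) - sh.τ (6 * s + 1 / 2 - 1)| ≤ 1 := by
    rw [abs_le]
    constructor <;> linarith [h1.1, h1.2, h2.1, h2.2]
  have h4 : |1 - l| ≤ 1 := by
    rw [abs_le]
    constructor <;> linarith
  rw [dlam, abs_neg, abs_mul, abs_mul]
  have h5 : |(6 : ℝ)| = 6 := abs_of_pos (by norm_num)
  rw [h5]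
  have h6 : |1 - l| * (|sh.τ (6 * s + 1 / 2) - sh.τ (6 * s + 1 / 2 - 1)| * 6) ≤ 1 * (1 * 6) := by
    gcongr
  linarith

/-! ### The static profiles -/

/-- The properties of the static profile. -/
structure Core (sh : Shape) (t : Ty) (X0 T0 : ℝ → ℝ) : Prop where
  X_smooth : ContDiff ℝ ∞ X0
  T_smooth : ContDiff ℝ ∞ T0
  dT : ∀ u, HasDerivAt T0 (sh.τ u * deriv X0 u) u
  low : ∀ u, u ≤ -1 → X0 u = t.inX u ∧ T0 u = 0
  high : ∀ u, 1 ≤ u → X0 u = t.outX u ∧ T0 u = t.outX u
  Xb : ∀ u, |u| ≤ 1 → |X0 u| ≤ 1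
  Tb : ∀ u, |u| ≤ 1 → |T0 u| ≤ 2

theorem core (sh : Shape) (t : Ty) : Core sh t ((sh.st t).X 0) ((sh.st t).Θ 0) := by
  cases t with
  | P =>
    refine ⟨contDiff_id, sh.ΘP_smooth, fun u => ?_, fun u hu => ⟨rfl, sh.ΘP_low u hu⟩,
      fun u hu => ⟨rfl, sh.ΘP_high u hu⟩, fun u hu => hu, fun u hu => sh.ΘP_bd u (by linarith)⟩
    have h : deriv ((sh.st .P).X 0) u = 1 := (hasDerivAt_id u).deriv
    rw [h, mul_one]
    exact sh.ΘP_deriv u
  | R =>
    refine ⟨sh.ξ_smooth, sh.ΘR_smooth, sh.ΘR_deriv, fun u hu => ⟨?_, sh.ΘR_low u hu⟩,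
      fun u hu => ⟨?_, sh.ΘR_high u hu⟩, sh.ξ_in, fun u hu => sh.ΘR_bd u (by linarith)⟩
    · have h1 : |u| = -u := abs_of_nonpos (by linarith)
      have h2 : sh.ξ u = -|u| := sh.ξ_out u (by rw [h1]; linarith)
      change sh.ξ u = u
      rw [h2, h1, neg_neg]
    · have h1 : |u| = u := abs_of_nonneg (by linarith)
      have h2 : sh.ξ u = -|u| := sh.ξ_out u (by rw [h1]; exact hu)
      change sh.ξ u = -u
      rw [h2, h1]
  | L =>
    refine ⟨sh.ξ_smooth.neg, sh.ΘR_smooth.neg, fun u => ?_, fun u hu => ⟨?_, ?_⟩,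
      fun u hu => ⟨?_, ?_⟩, fun u hu => ?_, fun u hu => ?_⟩
    · have h1 : HasDerivAt sh.ξ (deriv sh.ξ u) u :=
        (sh.ξ_smooth.differentiable (by simp) u).hasDerivAt
      have h2 : deriv ((sh.st .L).X 0) u = -deriv sh.ξ u := h1.neg.deriv
      rw [h2, mul_neg]
      exact (sh.ΘR_deriv u).neg
    · have h1 : |u| = -u := abs_of_nonpos (by linarith)
      have h2 : sh.ξ u = -|u| := sh.ξ_out u (by rw [h1]; linarith)
      change -sh.ξ u = -u
      rw [h2, h1, neg_neg]
    · change -sh.ΘR u = 0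
      rw [sh.ΘR_low u hu, neg_zero]
    · have h1 : |u| = u := abs_of_nonneg (by linarith)
      have h2 : sh.ξ u = -|u| := sh.ξ_out u (by rw [h1]; exact hu)
      change -sh.ξ u = u
      rw [h2, h1, neg_neg]
    · change -sh.ΘR u = u
      rw [sh.ΘR_high u hu, neg_neg]
    · change |-sh.ξ u| ≤ 1
      rw [abs_neg]
      exact sh.ξ_in u hu
    · change |-sh.ΘR u| ≤ 2
      rw [abs_neg]
      exact sh.ΘR_bd u (by linarith)

theorem inX_mul (t : Ty) (a b : ℝ) : a * t.inX b = t.inX (a * b) := by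
  cases t <;> simp [Ty.inX]

theorem outX_mul (t : Ty) (a b : ℝ) : a * t.outX b = t.outX (a * b) := by
  cases t <;> simp [Ty.outX]

theorem inX_abs (t : Ty) (b : ℝ) : |t.inX b| = |b| := by
  cases t <;> simp [Ty.inX]

theorem outX_abs (t : Ty) (b : ℝ) : |t.outX b| = |b| := by
  cases t <;> simp [Ty.outX]

/-! ### The moving profile -/

/-- The moving profile. -/
noncomputable def prof (sh : Shape) (l : ℝ) (X0 T0 : ℝ → ℝ) : Prof where
  X s u := lam sh l s * X0 (u / lam sh l s)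
  P s u := sh.τ (u / lam sh l s)
  Θ s u := lam sh l s * T0 (u / lam sh l s)
  Y s u := dlam sh l s * (T0 (u / lam sh l s) - sh.τ (u / lam sh l s) * X0 (u / lam sh l s))

/-- The scaled parameter is smooth. -/
theorem arg_smooth (hl : 0 < l) (hl1 : l ≤ 1) :
    ContDiff ℝ ∞ fun a : ℝ × ℝ => a.2 / lam sh l a.1 :=
  contDiff_snd.div ((lam_smooth sh l).comp contDiff_fst) fun a => (lam_pos hl hl1 a.1).ne'

/-- The derivative of the scaled parameter in `u`. -/
theorem arg_deriv (s u : ℝ) : HasDerivAt (fun u : ℝ => u / lam sh l s) (1 / lam sh l s) u :=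
  (hasDerivAt_id u).div_const _

/-- The derivative of the scaled parameter in `s`. -/
theorem arg_deriv_s (hl : 0 < l) (hl1 : l ≤ 1) (s u : ℝ) :
    HasDerivAt (fun s : ℝ => u / lam sh l s) (-(u / lam sh l s) * dlam sh l s / lam sh l s) s := by
  have h0 := (lam_pos (sh := sh) hl hl1 s).ne'
  have h := (hasDerivAt_const s u).div (lam_deriv sh l s) h0
  refine h.congr_deriv ?_
  field_simp
  ring

/-- The derivative of a scaled function in `u`. -/
theorem sc_deriv (hl : 0 < l) (hl1 : l ≤ 1) (s u : ℝ) {G : ℝ → ℝ} {G' : ℝ}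
    (hG : HasDerivAt G G' (u / lam sh l s)) :
    HasDerivAt (fun u : ℝ => lam sh l s * G (u / lam sh l s)) G' u := by
  have h0 := (lam_pos (sh := sh) hl hl1 s).ne'
  have h := ((hG.comp u (arg_deriv s u))).const_mul (lam sh l s)
  refine h.congr_deriv ?_
  field_simp

/-- The derivative of a scaled function in `s`. -/
theorem sc_deriv_s (hl : 0 < l) (hl1 : l ≤ 1) (s u : ℝ) {G : ℝ → ℝ} {G' : ℝ}
    (hG : HasDerivAt G G' (u / lam sh l s)) :
    HasDerivAt (fun s : ℝ => lam sh l s * G (u / lam sh l s))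
      (dlam sh l s * (G (u / lam sh l s) - u / lam sh l s * G')) s := by
  have h0 := (lam_pos (sh := sh) hl hl1 s).ne'
  have h1 : HasDerivAt (fun s : ℝ => G (u / lam sh l s))
      (G' * (-(u / lam sh l s) * dlam sh l s / lam sh l s)) s :=
    hG.comp s (arg_deriv_s hl hl1 s u)
  have h := (lam_deriv sh l s).mul h1
  refine h.congr_deriv ?_
  field_simp
  ring

theorem div_le_neg_one {a u : ℝ} (ha : 0 < a) (ha1 : a ≤ 1) (hu : u ≤ -1) : u / a ≤ -1 := by
  rw [div_le_iff₀ ha]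
  linarith

theorem one_le_div {a u : ℝ} (ha : 0 < a) (ha1 : a ≤ 1) (hu : 1 ≤ u) : 1 ≤ u / a := by
  rw [le_div_iff₀ ha]
  linarith

theorem bd {t : Ty} {X0 T0 : ℝ → ℝ} (h : Core sh t X0 T0) (hl : 0 < l) (hl1 : l ≤ 1) (s : ℝ) :
    ProfBd t s (prof sh l X0 T0) := by
  have hp := lam_pos (sh := sh) hl hl1 s
  have hq := lam_le (sh := sh) hl1 s
  have hX : ∀ u, |lam sh l s * X0 (u / lam sh l s)| ≤ max 1 |u| := by
    intro u
    have hm : lam sh l s * (u / lam sh l s) = u := by field_simp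
    rcases le_or_gt |u / lam sh l s| 1 with h1 | h1
    · refine le_trans ?_ (le_max_left _ _)
      rw [abs_mul, abs_of_pos hp]
      have h2 := h.Xb _ h1
      have h3 : lam sh l s * |X0 (u / lam sh l s)| ≤ 1 * 1 := by gcongr
      linarith
    · refine le_trans (le_of_eq ?_) (le_max_right _ _)
      rcases lt_abs.1 h1 with h2 | h2
      · rw [(h.high _ h2.le).1, outX_mul, hm, outX_abs]
      · rw [(h.low _ (by linarith)).1, inX_mul, hm, inX_abs]
  refine ⟨fun u hu => ?_, fun u hu => ?_, fun u hu => ?_, fun u => sh.τ_mem _, fun u hu => ?_,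
    fun u hu => ?_⟩
  · have h1 := div_le_neg_one hp hq hu
    have hm : lam sh l s * (u / lam sh l s) = u := by field_simp
    refine ⟨?_, sh.τ_low _ h1, ?_⟩
    · change lam sh l s * X0 (u / lam sh l s) = t.inX u
      rw [(h.low _ h1).1, inX_mul, hm]
    · change lam sh l s * T0 (u / lam sh l s) = 0
      rw [(h.low _ h1).2, mul_zero]
  · have h1 := one_le_div hp hq hu
    have hm : lam sh l s * (u / lam sh l s) = u := by field_simp
    refine ⟨?_, sh.τ_high _ h1, ?_⟩
    · change lam sh l s * X0 (u / lam sh l s) = t.outX u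
      rw [(h.high _ h1).1, outX_mul, hm]
    · change lam sh l s * T0 (u / lam sh l s) = t.outX u
      rw [(h.high _ h1).2, outX_mul, hm]
  · exact (hX u).trans (max_le le_rfl hu)
  · change |lam sh l s * T0 (u / lam sh l s)| ≤ 2
    have hm : lam sh l s * (u / lam sh l s) = u := by field_simp
    rcases le_or_gt |u / lam sh l s| 1 with h1 | h1
    · rw [abs_mul, abs_of_pos hp]
      have h2 := h.Tb _ h1
      have h3 : lam sh l s * |T0 (u / lam sh l s)| ≤ 1 * 2 := by gcongr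
      linarith
    · rcases lt_abs.1 h1 with h2 | h2
      · rw [(h.high _ h2.le).2, outX_mul, hm, outX_abs]
        exact hu
      · rw [(h.low _ (by linarith)).2, mul_zero, abs_zero]
        norm_num
  · change |dlam sh l s * (T0 (u / lam sh l s) -
      sh.τ (u / lam sh l s) * X0 (u / lam sh l s))| ≤ CY
    have hC : CY = 1000 := rfl
    rw [hC]
    rcases le_or_gt |u / lam sh l s| 1 with h1 | h1
    · have h2 := h.Tb _ h1
      have h3 := h.Xb _ h1
      have h4 := sh.τ_mem (u / lam sh l s)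
      have h5 := dlam_bd (sh := sh) hl hl1 s
      have h6 : |sh.τ (u / lam sh l s) * X0 (u / lam sh l s)| ≤ 1 * 1 := by
        rw [abs_mul]
        have h7 : |sh.τ (u / lam sh l s)| ≤ 1 := by
          rw [abs_of_nonneg h4.1]
          exact h4.2
        gcongr
      have h8 : |T0 (u / lam sh l s) - sh.τ (u / lam sh l s) * X0 (u / lam sh l s)| ≤ 3 := by
        refine (abs_sub _ _).trans ?_
        linarith
      rw [abs_mul]
      have h9 : |dlam sh l s| * |T0 (u / lam sh l s) -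
          sh.τ (u / lam sh l s) * X0 (u / lam sh l s)| ≤ 6 * 3 := by gcongr
      linarith
    · rcases lt_abs.1 h1 with h2 | h2
      · rw [(h.high _ h2.le).2, (h.high _ h2.le).1, sh.τ_high _ h2.le, one_mul, sub_self,
          mul_zero, abs_zero]
        norm_num
      · rw [(h.low _ (by linarith)).2, sh.τ_low _ (by linarith), zero_mul, sub_zero, mul_zero,
          abs_zero]
        norm_num

/-! ### Immersion and injectivity -/

/-- `τ` is strictly increasing on `[-1, 1]`. -/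
theorem τ_strict (sh : Shape) : StrictMonoOn sh.τ (Icc (-1) 1) := by
  refine strictMonoOn_of_deriv_pos (convex_Icc _ _) sh.τ_smooth.continuous.continuousOn ?_
  intro u hu
  rw [interior_Icc] at hu
  exact sh.τ_deriv u hu.1 hu.2

theorem τ_pos (sh : Shape) {u : ℝ} (hu : -1 < u) : 0 < sh.τ u := by
  rcases le_or_gt u 1 with h | h
  · have h1 := τ_strict sh (a := -1) (b := u) ⟨le_rfl, by norm_num⟩ ⟨hu.le, h⟩ hu
    rw [sh.τ_low (-1) le_rfl] at h1
    exact h1
  · rw [sh.τ_high u h.le]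
    norm_num

theorem τ_lt (sh : Shape) {u : ℝ} (hu : u < 1) : sh.τ u < 1 := by
  rcases le_or_gt (-1) u with h | h
  · have h1 := τ_strict sh (a := u) (b := 1) ⟨h, hu.le⟩ ⟨by norm_num, le_rfl⟩ hu
    rw [sh.τ_high 1 le_rfl] at h1
    exact h1
  · rw [sh.τ_low u h.le]
    norm_num

/-- If two values of `τ` agree, the parameters agree or lie both on the same side. -/
theorem τ_eq (sh : Shape) {a b : ℝ} (h : sh.τ a = sh.τ b) :
    a = b ∨ (a ≤ -1 ∧ b ≤ -1) ∨ (1 ≤ a ∧ 1 ≤ b) := by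
  rcases le_or_gt a (-1) with ha | ha
  · right; left
    refine ⟨ha, ?_⟩
    by_contra hb
    have h1 := τ_pos sh (not_le.1 hb)
    rw [← h, sh.τ_low a ha] at h1
    exact lt_irrefl _ h1
  rcases le_or_gt 1 a with ha' | ha'
  · right; right
    refine ⟨ha', ?_⟩
    by_contra hb
    have h1 := τ_lt sh (not_le.1 hb)
    rw [← h, sh.τ_high a ha'] at h1
    exact lt_irrefl _ h1
  left
  have h1 := τ_pos sh ha
  have h2 := τ_lt sh ha'
  have hb1 : -1 ≤ b := by
    by_contra hb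
    rw [h, sh.τ_low b (not_le.1 hb).le] at h1
    exact lt_irrefl _ h1
  have hb2 : b ≤ 1 := by
    by_contra hb
    rw [h, sh.τ_high b (not_le.1 hb).le] at h2
    exact lt_irrefl _ h2
  exact (τ_strict sh).injOn ⟨ha.le, ha'.le⟩ ⟨hb1, hb2⟩ h

theorem inX_inj (t : Ty) {a b : ℝ} (h : t.inX a = t.inX b) : a = b := by
  cases t
  · exact h
  · exact h
  · exact neg_injective h

theorem outX_inj (t : Ty) {a b : ℝ} (h : t.outX a = t.outX b) : a = b := by
  cases t
  · exact h
  · exact neg_injective h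
  · exact h

/-- A function whose derivative exists has the derivative of a function which agrees with it on one
side. -/
theorem deriv_right {G H : ℝ → ℝ} {H' a : ℝ} (hG : DifferentiableAt ℝ G a)
    (hH : HasDerivAt H H' a) (hE : ∀ x, a ≤ x → G x = H x) : deriv G a = H' := by
  have h1 : HasDerivWithinAt G (deriv G a) (Ici a) a := hG.hasDerivAt.hasDerivWithinAt
  have h2 : HasDerivWithinAt G H' (Ici a) a :=
    hH.hasDerivWithinAt.congr (fun x hx => hE x hx) (hE a le_rfl)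
  exact (uniqueDiffWithinAt_Ici a).eq_deriv _ h1 h2

theorem deriv_left {G H : ℝ → ℝ} {H' a : ℝ} (hG : DifferentiableAt ℝ G a)
    (hH : HasDerivAt H H' a) (hE : ∀ x, x ≤ a → G x = H x) : deriv G a = H' := by
  have h1 : HasDerivWithinAt G (deriv G a) (Iic a) a := hG.hasDerivAt.hasDerivWithinAt
  have h2 : HasDerivWithinAt G H' (Iic a) a :=
    hH.hasDerivWithinAt.congr (fun x hx => hE x hx) (hE a le_rfl)
  exact (uniqueDiffWithinAt_Iic a).eq_deriv _ h1 h2

theorem inX_deriv (t : Ty) (a : ℝ) : ∃ d : ℝ, d ≠ 0 ∧ HasDerivAt t.inX d a := by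
  cases t
  · exact ⟨1, one_ne_zero, hasDerivAt_id a⟩
  · exact ⟨1, one_ne_zero, hasDerivAt_id a⟩
  · exact ⟨-1, by norm_num, (hasDerivAt_id a).neg⟩

theorem outX_deriv (t : Ty) (a : ℝ) : ∃ d : ℝ, d ≠ 0 ∧ HasDerivAt t.outX d a := by
  cases t
  · exact ⟨1, one_ne_zero, hasDerivAt_id a⟩
  · exact ⟨-1, by norm_num, (hasDerivAt_id a).neg⟩
  · exact ⟨1, one_ne_zero, hasDerivAt_id a⟩

theorem X0_deriv {t : Ty} {X0 T0 : ℝ → ℝ} (h : Core sh t X0 T0) {a : ℝ} (ha : 1 ≤ |a|) :
    deriv X0 a ≠ 0 := by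
  have hd : DifferentiableAt ℝ X0 a := h.X_smooth.differentiable (by simp) a
  rcases le_abs.1 ha with h1 | h1
  · obtain ⟨d, hd0, hdd⟩ := outX_deriv t a
    rw [deriv_right hd hdd fun x hx => (h.high x (h1.trans hx)).1]
    exact hd0
  · obtain ⟨d, hd0, hdd⟩ := inX_deriv t a
    rw [deriv_left hd hdd fun x hx => (h.low x (by linarith)).1]
    exact hd0

theorem ok {t : Ty} {X0 T0 : ℝ → ℝ} (h : Core sh t X0 T0) (hP : t = .P → ∀ u, X0 u = u)
    (hl : 0 < l) (hl1 : l ≤ 1) (J : Set ℝ) (D : ℝ → ℝ) (hD : ∀ s ∈ J, t ≠ .P → D s ≠ 0) :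
    ProfOK J t D (prof sh l X0 T0) where
  X_smooth := (((lam_smooth sh l).comp contDiff_fst).mul
    (h.X_smooth.comp (arg_smooth hl hl1))).contDiffOn
  P_smooth := (sh.τ_smooth.comp (arg_smooth hl hl1)).contDiffOn
  Θ_smooth := (((lam_smooth sh l).comp contDiff_fst).mul
    (h.T_smooth.comp (arg_smooth hl hl1))).contDiffOn
  dΘ := by
    intro s _ u
    have h1 : HasDerivAt X0 (deriv X0 (u / lam sh l s)) (u / lam sh l s) :=
      (h.X_smooth.differentiable (by simp) _).hasDerivAt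
    have h2 : deriv ((prof sh l X0 T0).X s) u = deriv X0 (u / lam sh l s) :=
      (sc_deriv hl hl1 s u h1).deriv
    rw [h2]
    exact sc_deriv hl hl1 s u (h.dT _)
  Y_eq := by
    intro s _ u
    have h1 : HasDerivAt X0 (deriv X0 (u / lam sh l s)) (u / lam sh l s) :=
      (h.X_smooth.differentiable (by simp) _).hasDerivAt
    have h2 : deriv (fun r => (prof sh l X0 T0).X r u) s = _ :=
      (sc_deriv_s (sh := sh) hl hl1 s u h1).deriv
    have h3 : deriv (fun r => (prof sh l X0 T0).Θ r u) s = _ :=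
      (sc_deriv_s (sh := sh) hl hl1 s u (h.dT _)).deriv
    rw [h2, h3]
    change dlam sh l s * (T0 (u / lam sh l s) - sh.τ (u / lam sh l s) * X0 (u / lam sh l s)) = _
    change _ = _ - sh.τ (u / lam sh l s) * _
    ring
  bd := fun s _ => bd h hl hl1 s
  imm := by
    intro s hs u _
    have hp := lam_pos (sh := sh) hl hl1 s
    have h1 : HasDerivAt X0 (deriv X0 (u / lam sh l s)) (u / lam sh l s) :=
      (h.X_smooth.differentiable (by simp) _).hasDerivAt
    have h2 : deriv ((prof sh l X0 T0).X s) u = deriv X0 (u / lam sh l s) :=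
      (sc_deriv hl hl1 s u h1).deriv
    rw [h2]
    by_cases ht : t = .P
    · left
      have h3 : X0 = fun u => u := funext (hP ht)
      rw [h3]
      have h4 : deriv (fun u : ℝ => u) (u / lam sh l s) = 1 := (hasDerivAt_id _).deriv
      rw [h4]
      exact one_ne_zero
    rcases le_or_gt 1 |u / lam sh l s| with h3 | h3
    · left
      exact X0_deriv h h3
    · right
      have h4 := abs_lt.1 h3
      have h5 := sh.τ_deriv _ h4.1 h4.2
      have h6 : HasDerivAt sh.τ (deriv sh.τ (u / lam sh l s)) (u / lam sh l s) :=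
        (sh.τ_smooth.differentiable (by simp) _).hasDerivAt
      have h7 : deriv ((prof sh l X0 T0).P s) u = deriv sh.τ (u / lam sh l s) * (1 / lam sh l s) :=
        (h6.comp u (arg_deriv s u)).deriv
      rw [h7]
      exact mul_ne_zero (hD s hs ht) (mul_pos h5 (by positivity)).ne'
  inj := by
    intro s hs u u' _ _ hX hDP
    have hp := lam_pos (sh := sh) hl hl1 s
    have h1 : X0 (u / lam sh l s) = X0 (u' / lam sh l s) :=
      mul_left_cancel₀ hp.ne' hX
    suffices h2 : u / lam sh l s = u' / lam sh l s from (div_left_inj' hp.ne').1 h2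
    by_cases ht : t = .P
    · rw [hP ht, hP ht] at h1
      exact h1
    · have h2 : sh.τ (u / lam sh l s) = sh.τ (u' / lam sh l s) :=
        mul_left_cancel₀ (hD s hs ht) hDP
      rcases τ_eq sh h2 with h3 | ⟨h3, h4⟩ | ⟨h3, h4⟩
      · exact h3
      · rw [(h.low _ h3).1, (h.low _ h4).1] at h1
        exact inX_inj t h1
      · rw [(h.high _ h3).1, (h.high _ h4).1] at h1
        exact outX_inj t h1

end WPR

open WPR in
/-- WPR: profiles with decreasing widths. -/
theorem t_WPR : Stmt_WPR := by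
  intro sh ty l hl hl1
  refine ⟨prof sh l ((sh.st ty).X 0) ((sh.st ty).Θ 0), fun J D _ hD => ?_, fun s hs u => ?_,
    fun s hs u => ?_⟩
  · refine ok (core sh ty) ?_ hl hl1 J D hD
    rintro rfl u
    rfl
  · have h1 : lam sh l s = 1 := lam_low sh l hs
    change lam sh l s * (sh.st ty).X 0 (u / lam sh l s) = _ ∧ sh.τ (u / lam sh l s) = _ ∧
      lam sh l s * (sh.st ty).Θ 0 (u / lam sh l s) = _
    rw [h1, div_one, one_mul, one_mul]
    exact ⟨rfl, rfl, rfl⟩
  · have h1 : lam sh l s = l := lam_high sh l hs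
    change lam sh l s * (sh.st ty).X 0 (u / lam sh l s) = _ ∧ sh.τ (u / lam sh l s) = _ ∧
      lam sh l s * (sh.st ty).Θ 0 (u / lam sh l s) = _
    rw [h1]
    exact ⟨rfl, rfl, rfl⟩

end LCA
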