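import Pool.Agent.LCA.LFI
import Pool.Agent.LCA.CNG
import Pool.Agent.LCA.RST
import Pool.Agent.LCA.GLU
import Pool.Agent.LCA.RPL
import Pool.Agent.LCA.REV
import Pool.Agent.LCA.SHP
import Pool.Agent.LCA.PST
import Pool.Agent.LCA.VEX
import Pool.Agent.LCA.EEX
import Pool.Agent.LCA.VLN
import Pool.Agent.LCA.PCL
import Pool.Agent.LCA.PIN
import Pool.Agent.LCA.PCH
import Pool.Agent.LCA.PUD
import Pool.Agent.LCA.PHG
import Pool.Agent.LCA.CEE
import Pool.Agent.LCA.CVV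
import Pool.Agent.LCA.CVE
import Pool.Agent.LCA.CER
import Pool.Agent.LCA.OPC
import Pool.Agent.LCA.SM2
import Pool.Agent.LCA.ATR
import Pool.Agent.LCA.MOV
import Pool.Agent.LCA.SWI
import Pool.Agent.LCA.EQA
import Pool.Agent.LCA.MVP
import Pool.Agent.LCA.TCH
import Pool.Agent.LCA.TEX
import Pool.Agent.LCA.LAG
import Pool.Agent.LCA.TTO
import Pool.Agent.LCA.FIN
import Pool.Agent.LCA.ECH
import Pool.Agent.LCA.BXC
import Pool.Agent.LCA.SDG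
import Pool.Agent.LCA.SDU
import Pool.Agent.LCA.SDA
import Pool.Agent.LCA.SDB
import Pool.Agent.LCA.SDP
import Pool.Agent.LCA.SDM
import Pool.Agent.LCA.DTA
import Pool.Agent.LCA.DTG
import Pool.Agent.LCA.DTH
import Pool.Agent.LCA.CYL
import Pool.Agent.LCA.KNT
import Pool.Agent.LCA.SWP
import Pool.Agent.LCA.INS
import Pool.Agent.LCA.WPR
import Pool.Agent.LCA.WEQ
import Pool.Agent.LCA.WID
import Pool.Agent.LCA.FPR
import Pool.Agent.LCA.FEQ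
import Pool.Agent.LCA.FLD
import Pool.Agent.LCA.LNP
import Pool.Agent.LCA.SEE
import Pool.Agent.LCA.SVV
import Pool.Agent.LCA.SVE
import Pool.Agent.LCA.GOC
import Pool.Agent.LCA.CBL
import Pool.Agent.LCA.STF
import Pool.Agent.LCA.SVL
import Pool.Agent.LCA.SAM
import Pool.Agent.LCA.GEE
import Pool.Agent.LCA.GVV
import Pool.Agent.LCA.GVE
import Pool.Agent.LCA.GOK
import Pool.Agent.LCA.STG
import Pool.Agent.LCA.CB2
import Pool.Agent.LCA.MVR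
import Pool.Agent.LCA.STW
import Pool.Agent.LCA.STV
import Pool.Agent.LCA.INR
import Pool.Agent.LCA.INC
import Pool.Agent.LCA.STI
import Pool.Agent.LCA.FDR
import Pool.Agent.LCA.FDC
import Pool.Agent.LCA.STD
import Pool.Agent.LCA.BXL
import Pool.Agent.LCA.BXI
import Pool.Agent.LCA.SDC
import Pool.Agent.LCA.SDR
import Pool.Agent.LCA.STS
import Pool.Agent.LCA.STM
import Pool.Agent.LCA.STX
import Pool.Agent.LCA.STB

/-!
# Part A: assembly
-/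

namespace LCA

open Set Filter
open scoped ContDiff Topology

theorem p_LFI : Stmt_LFI := t_LFI
theorem p_CNG : Stmt_CNG := t_CNG
theorem p_RST : Stmt_RST := t_RST
theorem p_GLU : Stmt_GLU := t_GLU p_CNG
theorem p_RPL : Stmt_RPL := t_RPL
theorem p_REV : Stmt_REV := t_REV
theorem p_SHP : Stmt_SHP := t_SHP
theorem p_PST : Stmt_PST := t_PST
theorem p_VEX : Stmt_VEX := t_VEX
theorem p_EEX : Stmt_EEX := t_EEX
theorem p_VLN : Stmt_VLN := t_VLN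
theorem p_PCL : Stmt_PCL := t_PCL
theorem p_PIN : Stmt_PIN := t_PIN p_VLN
theorem p_PCH : Stmt_PCH := t_PCH p_VEX p_EEX p_VLN p_PCL p_PIN
theorem p_PUD : Stmt_PUD := t_PUD
theorem p_PHG : Stmt_PHG := t_PHG p_PCL p_PIN p_PCH p_PUD
theorem p_CEE : Stmt_CEE := t_CEE
theorem p_CVV : Stmt_CVV := t_CVV
theorem p_CVE : Stmt_CVE := t_CVE
theorem p_CER : Stmt_CER := t_CER p_CEE p_CVV p_CVE
theorem p_OPC : Stmt_OPC := t_OPC
theorem p_SM2 : Stmt_SM2 := t_SM2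
theorem p_ATR : Stmt_ATR := t_ATR p_GLU p_CNG
theorem p_MOV : Stmt_MOV := t_MOV p_OPC p_CER p_PHG p_PST p_ATR
theorem p_SWI : Stmt_SWI := t_SWI p_OPC p_CER p_PHG p_PST p_ATR p_SM2
theorem p_EQA : Stmt_EQA := t_EQA
theorem p_MVP : Stmt_MVP := t_MVP p_OPC p_CER p_PHG
theorem p_TCH : Stmt_TCH := t_TCH p_LFI
theorem p_TEX : Stmt_TEX := t_TEX p_LFI
theorem p_LAG : Stmt_LAG := t_LAG
theorem p_TTO : Stmt_TTO := t_TTO
theorem p_FIN : Stmt_FIN := t_FIN p_TCH p_TEX p_LAG p_TTO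
theorem p_ECH : Stmt_ECH := t_ECH
theorem p_BXC : Stmt_BXC := t_BXC
theorem p_SDG : Stmt_SDG := t_SDG p_RPL p_BXC p_ECH p_CER p_PHG p_PST p_PCL p_PIN p_VLN
theorem p_SDU : Stmt_SDU := t_SDU p_ECH p_CER p_PST
theorem p_SDA : Stmt_SDA := t_SDA p_CER p_PST p_VLN
theorem p_SDB : Stmt_SDB := t_SDB p_CER p_PST p_VLN
theorem p_SDP : Stmt_SDP := t_SDP p_SDG p_SDU p_SDA p_SDB p_ATR p_RST
theorem p_SDM : Stmt_SDM := t_SDM p_SDG p_SDU p_SDA p_SDB p_ATR p_REV p_RST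
theorem p_DTA : Stmt_DTA := t_DTA p_VLN
theorem p_DTG : Stmt_DTG := t_DTG p_ECH
theorem p_DTH : Stmt_DTH := t_DTH p_DTA p_DTG p_GLU p_CNG p_RST
theorem p_CYL : Stmt_CYL := t_CYL p_OPC p_CER p_PHG p_PST p_CNG
theorem p_KNT : Stmt_KNT := t_KNT p_PST p_CER p_VLN p_PIN
theorem p_SWP : Stmt_SWP := t_SWP
theorem p_INS : Stmt_INS := t_INS
theorem p_WPR : Stmt_WPR := t_WPR
theorem p_WEQ : Stmt_WEQ := t_WEQ p_VLN
theorem p_WID : Stmt_WID := t_WID p_WPR p_WEQ p_MVP p_ATR p_PST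
theorem p_FPR : Stmt_FPR := t_FPR
theorem p_FEQ : Stmt_FEQ := t_FEQ p_VLN
theorem p_FLD : Stmt_FLD := t_FLD p_FPR p_FEQ p_MVP p_ATR p_PST
theorem p_LNP : Stmt_LNP := t_LNP
theorem p_SEE : Stmt_SEE := t_SEE p_LNP
theorem p_SVV : Stmt_SVV := t_SVV p_LNP
theorem p_SVE : Stmt_SVE := t_SVE p_LNP
theorem p_GOC : Stmt_GOC := t_GOC p_LNP p_SEE p_SVV p_SVE
theorem p_CBL : Stmt_CBL := t_CBL
theorem p_STF : Stmt_STF := t_STF p_CBL
theorem p_SVL : Stmt_SVL := t_SVL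
theorem p_SAM : Stmt_SAM := t_SAM p_CBL
theorem p_GEE : Stmt_GEE := t_GEE p_CBL
theorem p_GVV : Stmt_GVV := t_GVV p_CBL
theorem p_GVE : Stmt_GVE := t_GVE p_CBL
theorem p_GOK : Stmt_GOK := t_GOK p_CBL p_STF p_SVL p_SAM p_GEE p_GVV p_GVE
theorem p_STG : Stmt_STG := t_STG p_SWI p_GOC p_GOK
theorem p_CB2 : Stmt_CB2 := t_CB2 p_CBL
theorem p_MVR : Stmt_MVR := t_MVR p_CBL p_CB2
theorem p_STW : Stmt_STW := t_STW p_MVR p_STF p_SVL p_SWP p_EQA
theorem p_STV : Stmt_STV := t_STV p_MVR p_STF p_SVL p_GOK p_GOC p_WID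
theorem p_INR : Stmt_INR := t_INR p_LNP p_INS p_EQA
theorem p_INC : Stmt_INC := t_INC p_CBL p_CB2
theorem p_STI : Stmt_STI := t_STI p_INR p_INC p_STF p_SVL
theorem p_FDR : Stmt_FDR := t_FDR p_LNP
theorem p_FDC : Stmt_FDC := t_FDC p_CBL p_CB2
theorem p_STD : Stmt_STD := t_STD p_FDR p_FDC p_MVR p_STF p_SVL p_GOK p_GOC p_FLD p_CBL p_LNP
theorem p_BXL : Stmt_BXL := t_BXL p_LNP
theorem p_BXI : Stmt_BXI := t_BXI p_CBL
theorem p_SDC : Stmt_SDC := t_SDC p_CBL p_CB2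
theorem p_SDR : Stmt_SDR := t_SDR p_SDC p_BXL p_BXI p_MVR p_STF p_SVL p_GOK p_GOC p_LNP p_CBL p_CB2
theorem p_STS : Stmt_STS := t_STS p_SDR p_SDP
theorem p_STM : Stmt_STM := t_STM p_SDR p_SDM p_MVR p_STF
theorem p_STX : Stmt_STX := t_STX p_CBL p_CB2 p_STF p_SVL p_DTH
theorem p_STB : Stmt_STB := t_STB p_CBL p_CB2 p_STF p_SVL p_GOK p_GOC p_CYL p_KNT

/-- The state of the data `S` is reached at some time `t ≥ 2`. -/
def Rc (K : Set LC.R3) (sh : Shape) (m n : ℕ) (S : SD) : Prop :=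
  ∃ t : ℤ, 2 ≤ t ∧ AtD K sh m n S t

variable {K : Set LC.R3} {sh : Shape} {m n m' n' : ℕ}

theorem one_le_of_goOK {T : ℤ} {A B : SD} (h : goOK T A B = true) : 1 ≤ T := by
  unfold goOK at h
  have h1 := ((p_CBL.1 _ _).1 h).1
  exact (p_CBL.2.2.1 0 T).1 h1

theorem rc_go1 {T : ℤ} {A B : SD} (hA : stOK m n A = true) (hB : stOK m n B = true)
    (h : goOK T A B = true) (h0 : AtD K sh m n A 1) : Rc K sh m n B :=
  ⟨1 + T, by have := one_le_of_goOK h; omega, p_STG K sh m n T 1 A B hA hB h h0⟩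

theorem rc_go {T : ℤ} {A B : SD} (hA : stOK m n A = true) (hB : stOK m n B = true)
    (h : goOK T A B = true) (h0 : Rc K sh m n A) : Rc K sh m n B := by
  obtain ⟨t, ht, h0⟩ := h0
  exact ⟨t + T, by have := one_le_of_goOK h; omega, p_STG K sh m n T t A B hA hB h h0⟩

theorem rc_ins {ιE κE ιV κV : List ℕ} {e₀ e j : ℕ} {A B : SD} (hA : stOK m n A = true)
    (hB : stOK m' n' B = true) (h : inOK m n m' n' ιE κE ιV κV e₀ e j A B = true)
    (h0 : Rc K sh m n A) : Rc K sh m' n' B := by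
  obtain ⟨t, ht, h0⟩ := h0
  exact ⟨t, ht, (p_STI K sh m n m' n' t ιE κE ιV κV e₀ e j A B hA hB h).1 h0⟩

theorem rc_del {ιE κE ιV κV : List ℕ} {e₀ e j : ℕ} {A B : SD} (hA : stOK m n A = true)
    (hB : stOK m' n' B = true) (h : inOK m n m' n' ιE κE ιV κV e₀ e j A B = true)
    (h0 : Rc K sh m' n' B) : Rc K sh m n A := by
  obtain ⟨t, ht, h0⟩ := h0
  exact ⟨t, ht, (p_STI K sh m n m' n' t ιE κE ιV κV e₀ e j A B hA hB h).2 h0⟩

theorem rc_swp {i : ℕ} {A B : SD} (hA : stOK m n A = true) (hB : stOK m n B = true)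
    (h : swOK n i A B = true) (h0 : Rc K sh m n A) : Rc K sh m n B := by
  obtain ⟨t, ht, h0⟩ := h0
  exact ⟨t, ht, p_STW K sh m n t i A B hA hB h h0⟩

theorem rc_wdn {A A' B : SD} (hA : stOK m n A = true) (hA' : stOK m n A' = true)
    (hB : stOK m n B = true) (h1 : goOK 1 A A' = true) (h2 : mvOK 1 A A' = true)
    (h3 : wdOK A' B = true) (h0 : Rc K sh m n A) : Rc K sh m n B := by
  obtain ⟨t, ht, h0⟩ := h0
  exact ⟨t + 1, by omega, (p_STV K sh m n t A A' hA hA' h1 h2).1 B hB h3 h0⟩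

theorem rc_wup {A A' B : SD} (hA : stOK m n A = true) (hA' : stOK m n A' = true)
    (hB : stOK m n B = true) (h1 : goOK 1 A A' = true) (h2 : mvOK 1 A A' = true)
    (h3 : wdOK A B = true) (h0 : Rc K sh m n B) : Rc K sh m n A' := by
  obtain ⟨t, ht, h0⟩ := h0
  exact ⟨t + 1, by omega, (p_STV K sh m n t A A' hA hA' h1 h2).2 B hB h3 h0⟩

theorem rc_fld {ιE κE ιV κV : List ℕ} {i e j : ℕ} {A A' B : SD} (hA : stOK m n A = true)
    (hA' : stOK m n A' = true) (hB : stOK m' n' B = true) (h1 : goOK 1 A A' = true)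
    (h2 : mvOK 1 A A' = true) (h3 : fdS i A A' = true)
    (h4 : fdOK m n m' n' ιE κE ιV κV i e j A' B = true) (h0 : Rc K sh m n A) :
    Rc K sh m' n' B := by
  obtain ⟨t, ht, h0⟩ := h0
  exact ⟨t + 1, by omega,
    (p_STD K sh m n m' n' t ιE κE ιV κV i e j A A' hA hA' h1 h2 h3).1 B hB h4 h0⟩

theorem rc_unf {ιE κE ιV κV : List ℕ} {i e j : ℕ} {A A' B : SD} (hA : stOK m n A = true)
    (hA' : stOK m n A' = true) (hB : stOK m' n' B = true) (h1 : goOK 1 A A' = true)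
    (h2 : mvOK 1 A A' = true) (h3 : fdS i A A' = true)
    (h4 : fdOK m n m' n' ιE κE ιV κV i e j A B = true) (h0 : Rc K sh m' n' B) :
    Rc K sh m n A' := by
  obtain ⟨t, ht, h0⟩ := h0
  exact ⟨t + 1, by omega,
    (p_STD K sh m n m' n' t ιE κE ιV κV i e j A A' hA hA' h1 h2 h3).2 B hB h4 h0⟩

theorem rc_sdp {L R H₁ H₂ H₃ H₄ : ℕ} {E : ED} {A B C C' : SD} (hA : stOK m n A = true)
    (hB : stOK m n B = true) (hC : stOK m n C = true) (hC' : stOK m n C' = true)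
    (h : sdOK m n L R H₁ H₂ H₃ H₄ E A B C C' = true) (h0 : Rc K sh m n A) :
    Rc K sh m n B := by
  obtain ⟨t, ht, h0⟩ := h0
  exact ⟨t + 2, by omega, p_STS K sh m n t L R H₁ H₂ H₃ H₄ E A B C C' hA hB hC hC' h ht h0⟩

theorem rc_sdm {L R H₁ H₂ H₃ H₄ : ℕ} {E : ED} {A B C C' A' B' : SD} (hA : stOK m n A = true)
    (hB : stOK m n B = true) (hC : stOK m n C = true) (hC' : stOK m n C' = true)
    (hA' : stOK m n A' = true) (hB' : stOK m n B' = true)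
    (h : sdOK m n L R H₁ H₂ H₃ H₄ E A B C C' = true) (h2 : ngOK A A' = true)
    (h3 : ngOK B B' = true) (h0 : Rc K sh m n B') : Rc K sh m n A' := by
  obtain ⟨t, ht, h0⟩ := h0
  exact ⟨t + 2, by omega,
    p_STM K sh m n t L R H₁ H₂ H₃ H₄ E A B C C' A' B' hA hB hC hC' hA' hB' h h2 h3 ht h0⟩

theorem rc_dth {lt rt pa pb H₁ H₂ H₃ H₄ : ℕ} {E : ED} {A : SD} (hA : stOK 3 3 A = true)
    (h : dtOK lt rt pa pb H₁ H₂ H₃ H₄ E A = true) (h0 : Rc K sh 3 3 A) : Capped K := by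
  obtain ⟨t, ht, h0⟩ := h0
  exact p_STX K sh t lt rt pa pb H₁ H₂ H₃ H₄ E A hA h h0

/-- The beginning. -/
theorem rc_beg (sh : Shape) {A A' : SD} (hA : stOK n n A = true) (hA' : stOK n n A' = true)
    (h : bgOK n A A' = true) : ∃ Λ : LC.LegKnot,
      Λ.carrier = (A.cb n n).knot sh (A.W n) (A.Q n) ∧ AtD Λ.carrier sh n n A 1 :=
  p_STB sh n A A' hA hA' h

/-- A complete cap is an exact Lagrangian cap. -/
theorem rc_fin {Λ : LC.LegKnot} (h : Capped Λ.carrier) : ∃ L, LC.IsExactCap Λ L := p_FIN Λ h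

end LCA
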