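import Pool.Agent.LC.Defs

/-!
# Part A: movies of front polygons give exact Lagrangian caps. Basic definitions

Coordinates: `s = e^t`, `p = s y`; `e^t (dz - y dx) = d (s z) - z ds - p dx`. A surface `L` in the
symplectization is described by its lift, a set of points `(s, x, p, z, F)` with `dF = z ds + p dx`.
-/

namespace LCA

open Set Filter
open scoped ContDiff Topology

/-- The space of the points `(s, x, p, z, F)`. -/
abbrev E5 : Type := ℝ × ℝ × ℝ × ℝ × ℝ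

/-- A smooth parametrization `f` near `a` of a piece of a surface, with `dF = z ds + p dx`, whose
projection to `(s, x, p, z)` is an immersion. -/
structure ExactChart (f : ℝ × ℝ → E5) (a : ℝ × ℝ) : Prop where
  smooth : ∀ᶠ b in 𝓝 a, ContDiffAt ℝ ∞ f b
  exact : ∀ᶠ b in 𝓝 a, ∀ w, (fderiv ℝ f b w).2.2.2.2 =
    (f b).2.2.2.1 * (fderiv ℝ f b w).1 + (f b).2.2.1 * (fderiv ℝ f b w).2.1
  immersion : ∀ w, (fderiv ℝ f a w).1 = 0 → (fderiv ℝ f a w).2.1 = 0 →
    (fderiv ℝ f a w).2.2.1 = 0 → (fderiv ℝ f a w).2.2.2.1 = 0 → w = 0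

/-- Near `q`, the set `A` is a smooth exact Lagrangian surface. -/
def ChartAt (A : Set E5) (q : E5) : Prop :=
  ∃ (f : ℝ × ℝ → E5) (a : ℝ × ℝ), ExactChart f a ∧ f a = q ∧ (∀ᶠ b in 𝓝 a, f b ∈ A) ∧
    ∀ N ∈ 𝓝 a, f '' N ∈ 𝓝[A] q

/-- Over `s ∈ J`, the set `A` is the lift of a properly embedded exact Lagrangian surface with
compact slices. -/
structure Good (J : Set ℝ) (A : Set E5) : Prop where
  closed : ∀ q ∈ closure A, q.1 ∈ J → q ∈ A
  bounded : ∀ K ⊆ J, IsCompact K → ∃ M : ℝ, ∀ q ∈ A, q.1 ∈ K → ‖q.2‖ ≤ M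
  chart : ∀ q ∈ A, q.1 ∈ J → ChartAt A q
  inj : ∀ q ∈ A, ∀ q' ∈ A, q.1 ∈ J → q.1 = q'.1 → q.2.1 = q'.2.1 → q.2.2.1 = q'.2.2.1 →
    q.2.2.2.1 = q'.2.2.2.1 → q = q'

/-- Every point over `s ∈ J` can be joined to the slices at smaller times in `J`, by a path which
stays between the two times. -/
def Down (J : Set ℝ) (A : Set E5) : Prop :=
  ∀ q ∈ A, q.1 ∈ J → ∀ c ∈ J, c ≤ q.1 →
    ∃ q' ∈ A, q'.1 = c ∧ JoinedIn {r ∈ A | r.1 ∈ Icc c q.1} q q'

/-- Every point over `s ∈ J` can be joined to the slices at larger times in `J`, by a path which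
stays between the two times. -/
def Up (J : Set ℝ) (A : Set E5) : Prop :=
  ∀ q ∈ A, q.1 ∈ J → ∀ c ∈ J, q.1 ≤ c →
    ∃ q' ∈ A, q'.1 = c ∧ JoinedIn {r ∈ A | r.1 ∈ Icc q.1 c} q q'

/-- The sets agree over `J`. -/
def Agree (J : Set ℝ) (A A' : Set E5) : Prop := ∀ q : E5, q.1 ∈ J → (q ∈ A ↔ q ∈ A')

/-- The lift of the cylinder over a subset of `ℝ³`. -/
def cyl (K : Set LC.R3) : Set E5 :=
  {q | ∃ r ∈ K, q.2 = (r.1, q.1 * r.2.1, r.2.2, q.1 * r.2.2)}

/-! ### profiles -/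

/-- The smooth profiles. `τ` is the transition of the slope at a vertex; `ξ` is the `x`-coordinate
at a right tip; `ΘP`, `ΘR` are the corresponding primitives. -/
structure Shape where
  τ : ℝ → ℝ
  ξ : ℝ → ℝ
  ΘP : ℝ → ℝ
  ΘR : ℝ → ℝ
  τ_smooth : ContDiff ℝ ∞ τ
  ξ_smooth : ContDiff ℝ ∞ ξ
  ΘP_smooth : ContDiff ℝ ∞ ΘP
  ΘR_smooth : ContDiff ℝ ∞ ΘR
  τ_low : ∀ u, u ≤ -1 → τ u = 0
  τ_high : ∀ u, 1 ≤ u → τ u = 1
  τ_mem : ∀ u, 0 ≤ τ u ∧ τ u ≤ 1
  τ_deriv : ∀ u, -1 < u → u < 1 → 0 < deriv τ u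
  τ_symm : ∀ u, τ (-u) = 1 - τ u
  ξ_out : ∀ u, 1 ≤ |u| → ξ u = -|u|
  ξ_in : ∀ u, |u| ≤ 1 → |ξ u| ≤ 1
  ξ_even : ∀ u, ξ (-u) = ξ u
  ξ_anti : StrictAntiOn ξ (Ici 0)
  ΘP_deriv : ∀ u, HasDerivAt ΘP (τ u) u
  ΘP_low : ∀ u, u ≤ -1 → ΘP u = 0
  ΘP_high : ∀ u, 1 ≤ u → ΘP u = u
  ΘR_deriv : ∀ u, HasDerivAt ΘR (τ u * deriv ξ u) u
  ΘR_low : ∀ u, u ≤ -1 → ΘR u = 0
  ΘR_high : ∀ u, 1 ≤ u → ΘR u = -u
  ΘP_bd : ∀ u, |u| ≤ 2 → |ΘP u| ≤ 2
  ΘR_bd : ∀ u, |u| ≤ 2 → |ΘR u| ≤ 2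

/-- The type of a vertex of a front polygon: pass, right tip, left tip. -/
inductive Ty
  | P | R | L
  deriving DecidableEq

/-- The `x`-coordinate of the profile for `u ≤ -1`. -/
def Ty.inX : Ty → ℝ → ℝ
  | .P, u => u
  | .R, u => u
  | .L, u => -u

/-- The `x`-coordinate of the profile for `1 ≤ u`. -/
def Ty.outX : Ty → ℝ → ℝ
  | .P, u => u
  | .R, u => -u
  | .L, u => u

/-- A profile, depending on the time: functions of `(s, u)`. -/
structure Prof where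
  X : ℝ → ℝ → ℝ
  P : ℝ → ℝ → ℝ
  Θ : ℝ → ℝ → ℝ
  Y : ℝ → ℝ → ℝ

/-- The static profile of a vertex of type `t`. -/
def Shape.st (sh : Shape) (t : Ty) : Prof where
  X _ u := match t with
    | .P => u
    | .R => sh.ξ u
    | .L => -sh.ξ u
  P _ u := sh.τ u
  Θ _ u := match t with
    | .P => sh.ΘP u
    | .R => sh.ΘR u
    | .L => -sh.ΘR u
  Y _ _ := 0

/-- The constant in the bounds for the moving profiles. -/
def CY : ℝ := 1000

/-- Bounds for a profile of a vertex of type `t` at the time `s`. -/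
structure ProfBd (t : Ty) (s : ℝ) (π : Prof) : Prop where
  low : ∀ u, u ≤ -1 → π.X s u = t.inX u ∧ π.P s u = 0 ∧ π.Θ s u = 0
  high : ∀ u, 1 ≤ u → π.X s u = t.outX u ∧ π.P s u = 1 ∧ π.Θ s u = t.outX u
  X_bd : ∀ u, |u| ≤ 1 → |π.X s u| ≤ 1
  P_mem : ∀ u, 0 ≤ π.P s u ∧ π.P s u ≤ 1
  Θ_bd : ∀ u, |u| ≤ 2 → |π.Θ s u| ≤ 2
  Y_bd : ∀ u, |u| ≤ 2 → |π.Y s u| ≤ CY

/-- A profile for a vertex of type `t` whose two slopes differ by `D s`, over the times `J`. -/
structure ProfOK (J : Set ℝ) (t : Ty) (D : ℝ → ℝ) (π : Prof) : Prop where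
  X_smooth : ContDiffOn ℝ ∞ (fun a : ℝ × ℝ => π.X a.1 a.2) (J ×ˢ univ)
  P_smooth : ContDiffOn ℝ ∞ (fun a : ℝ × ℝ => π.P a.1 a.2) (J ×ˢ univ)
  Θ_smooth : ContDiffOn ℝ ∞ (fun a : ℝ × ℝ => π.Θ a.1 a.2) (J ×ˢ univ)
  dΘ : ∀ s ∈ J, ∀ u, HasDerivAt (π.Θ s) (π.P s u * deriv (π.X s) u) u
  Y_eq : ∀ s ∈ J, ∀ u, π.Y s u =
    deriv (fun r => π.Θ r u) s - π.P s u * deriv (fun r => π.X r u) s
  bd : ∀ s ∈ J, ProfBd t s π
  imm : ∀ s ∈ J, ∀ u, |u| < 1 → deriv (π.X s) u ≠ 0 ∨ D s * deriv (π.P s) u ≠ 0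
  inj : ∀ s ∈ J, ∀ u u', |u| ≤ 2 → |u'| ≤ 2 → π.X s u = π.X s u' →
    D s * π.P s u = D s * π.P s u' → u = u'

/-! ### front polygons -/

/-- The combinatorics of a closed front polygon (possibly with several components) with `m` edges
and `n` vertices. Every edge goes from its left end `lf e` to its right end `rt e`. A pass `i` has
the edge `ea i` on the left and the edge `eb i` on the right; the edges `ea i`, `eb i` of a right
tip (left tip) are on the left (right) of `i`. -/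
structure Comb (m n : ℕ) where
  lf : Fin m → Fin n
  rt : Fin m → Fin n
  ty : Fin n → Ty
  ea : Fin n → Fin m
  eb : Fin n → Fin m

variable {m n : ℕ}

/-- The vertex `i` is an end of the edge `ea i`, at the correct side. -/
def Comb.OKa (c : Comb m n) (i : Fin n) : Prop :=
  match c.ty i with
  | .P => c.rt (c.ea i) = i
  | .R => c.rt (c.ea i) = i
  | .L => c.lf (c.ea i) = i

/-- The vertex `i` is an end of the edge `eb i`, at the correct side. -/
def Comb.OKb (c : Comb m n) (i : Fin n) : Prop :=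
  match c.ty i with
  | .P => c.lf (c.eb i) = i
  | .R => c.rt (c.eb i) = i
  | .L => c.lf (c.eb i) = i

/-- The combinatorics is consistent. -/
structure Comb.Valid (c : Comb m n) : Prop where
  oka : ∀ i, c.OKa i
  okb : ∀ i, c.OKb i
  ne : ∀ i, c.ea i ≠ c.eb i
  rt : ∀ e, (c.ty (c.rt e) ≠ .L ∧ c.ea (c.rt e) = e) ∨ (c.ty (c.rt e) = .R ∧ c.eb (c.rt e) = e)
  lf : ∀ e, (c.ty (c.lf e) = .L ∧ c.ea (c.lf e) = e) ∨ (c.ty (c.lf e) ≠ .R ∧ c.eb (c.lf e) = e)

/-- The positions of the vertices in the front: the functions `x_i` and `F_i`. -/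
abbrev St (n : ℕ) : Type := (Fin n → ℝ) × (Fin n → ℝ)

/-- The slope of the edge `e`. -/
noncomputable def Comb.pe (c : Comb m n) (q : St n) (e : Fin m) : ℝ :=
  (q.2 (c.rt e) - q.2 (c.lf e)) / (q.1 (c.rt e) - q.1 (c.lf e))

/-- The edge `e` is on the line `F = pe x + ae`. -/
noncomputable def Comb.ae (c : Comb m n) (q : St n) (e : Fin m) : ℝ :=
  q.2 (c.lf e) - c.pe q e * q.1 (c.lf e)

/-- The derivative of the slope, `v` is the velocity of the vertices. -/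
noncomputable def Comb.dpe (c : Comb m n) (q v : St n) (e : Fin m) : ℝ :=
  (v.2 (c.rt e) - v.2 (c.lf e) - c.pe q e * (v.1 (c.rt e) - v.1 (c.lf e))) /
    (q.1 (c.rt e) - q.1 (c.lf e))

/-- The derivative of `ae`. -/
noncomputable def Comb.dae (c : Comb m n) (q v : St n) (e : Fin m) : ℝ :=
  v.2 (c.lf e) - c.dpe q v e * q.1 (c.lf e) - c.pe q e * v.1 (c.lf e)

/-- The point `(x, p, z, F)` of the edge `e`. -/
noncomputable def Comb.ept (c : Comb m n) (q v : St n) (e : Fin m) (x : ℝ) : ℝ × ℝ × ℝ × ℝ :=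
  (x, c.pe q e, c.dpe q v e * x + c.dae q v e, c.pe q e * x + c.ae q e)

/-- The difference of the slopes at the vertex `i`. -/
noncomputable def Comb.dl (c : Comb m n) (q : St n) (i : Fin n) : ℝ :=
  c.pe q (c.eb i) - c.pe q (c.ea i)

/-- The point `(x, p, z, F)` of the piece of the vertex `i` of width `w`; `X`, `P`, `Θ`, `Y` are the
values of the profile. -/
noncomputable def Comb.vpt (c : Comb m n) (q v : St n) (i : Fin n) (w X P Θ Y : ℝ) :
    ℝ × ℝ × ℝ × ℝ :=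
  (q.1 i + w * X, c.pe q (c.ea i) + c.dl q i * P,
    c.dpe q v (c.ea i) * (q.1 i + w * X) + c.dae q v (c.ea i)
      + w * ((c.dpe q v (c.eb i) - c.dpe q v (c.ea i)) * Θ + c.dl q i * Y)
      - c.dl q i * P * v.1 i,
    c.pe q (c.ea i) * (q.1 i + w * X) + c.ae q (c.ea i) + w * c.dl q i * Θ)

/-- The point of the piece of the vertex `i` with the parameter `u`, at the time `s`. -/
noncomputable def Comb.vp (c : Comb m n) (w : Fin n → ℝ) (π : Fin n → Prof) (s : ℝ) (q v : St n)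
    (i : Fin n) (u : ℝ) : ℝ × ℝ × ℝ × ℝ :=
  c.vpt q v i (w i) ((π i).X s u) ((π i).P s u) ((π i).Θ s u) ((π i).Y s u)

/-- The range of `x` on the edge `e`, without the parts which belong to its ends. -/
def Comb.rg (c : Comb m n) (w : Fin n → ℝ) (q : St n) (e : Fin m) : Set ℝ :=
  Icc (q.1 (c.lf e) + 2 * w (c.lf e)) (q.1 (c.rt e) - 2 * w (c.rt e))

/-- The slice at the time `s`. -/
def Comb.slice (c : Comb m n) (w : Fin n → ℝ) (π : Fin n → Prof) (s : ℝ) (q v : St n) :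
    Set (ℝ × ℝ × ℝ × ℝ) :=
  {r | (∃ e, ∃ x ∈ c.rg w q e, r = c.ept q v e x) ∨
    ∃ i, ∃ u, |u| ≤ 2 ∧ r = c.vp w π s q v i u}

/-- The surface of a moving front polygon. -/
def Comb.surf (c : Comb m n) (w : Fin n → ℝ) (π : Fin n → Prof) (q : ℝ → St n) : Set E5 :=
  {r | r.2 ∈ c.slice w π r.1 (q r.1) (deriv q r.1)}

/-- The points agree in the coordinates `x`, `p`, `z`. -/
def Meet (a b : ℝ × ℝ × ℝ × ℝ) : Prop := a.1 = b.1 ∧ a.2.1 = b.2.1 ∧ a.2.2.1 = b.2.2.1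

/-- The slice is admissible: the edges are long enough, the slopes at the tips are different, the
pieces which do not share an end are disjoint in the space `(x, p, z)`. -/
structure Comb.Adm (c : Comb m n) (w : Fin n → ℝ) (π : Fin n → Prof) (s : ℝ) (q v : St n) :
    Prop where
  len : ∀ e, 2 * (w (c.lf e) + w (c.rt e)) < q.1 (c.rt e) - q.1 (c.lf e)
  tip : ∀ i, c.ty i ≠ .P → c.dl q i ≠ 0
  ee : ∀ e e', e ≠ e' → ∀ x ∈ c.rg w q e, ∀ x' ∈ c.rg w q e',
    ¬ Meet (c.ept q v e x) (c.ept q v e' x')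
  vv : ∀ i j, i ≠ j → ∀ u u', |u| ≤ 2 → |u'| ≤ 2 →
    ¬ Meet (c.vp w π s q v i u) (c.vp w π s q v j u')
  ve : ∀ i e, c.ea i ≠ e → c.eb i ≠ e → ∀ u, |u| ≤ 2 → ∀ x ∈ c.rg w q e,
    ¬ Meet (c.vp w π s q v i u) (c.ept q v e x)

/-- The static profiles of all vertices. -/
def Comb.sp (c : Comb m n) (sh : Shape) : Fin n → Prof := fun i => sh.st (c.ty i)

/-- A moving front polygon over the open interval `J` all of whose slices are admissible. -/
structure IsPhase (c : Comb m n) (w : Fin n → ℝ) (J : Set ℝ) (π : Fin n → Prof)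
    (q : ℝ → St n) : Prop where
  valid : c.Valid
  wpos : ∀ i, 0 < w i
  openJ : IsOpen J
  conn : J.OrdConnected
  smooth : ContDiffOn ℝ ∞ q J
  prof : ∀ i, ProfOK J (c.ty i) (fun s => c.dl (q s) i) (π i)
  adm : ∀ s ∈ J, c.Adm w π s (q s) (deriv q s)

/-! ### certificates -/

/-- The function `z_e(x) - z_e'(x)`. -/
noncomputable def Comb.Dee (c : Comb m n) (q v : St n) (e e' : Fin m) (x : ℝ) : ℝ :=
  (c.dpe q v e * x + c.dae q v e) - (c.dpe q v e' * x + c.dae q v e')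

/-- The difference of the values of `z` at the height `p` on the verticals of `i` and `j`. -/
def Dvv (v : St n) (i j : Fin n) (p : ℝ) : ℝ := (v.2 i - p * v.1 i) - (v.2 j - p * v.1 j)

/-- The difference of the values of `z` of the vertical of `i` and of the edge `e`. -/
noncomputable def Comb.Dve (c : Comb m n) (q v : St n) (i : Fin n) (e : Fin m) : ℝ :=
  (v.2 i - c.pe q e * v.1 i) - (c.dpe q v e * q.1 i + c.dae q v e)

/-- The lower end of the vertical of `i`. -/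
noncomputable def Comb.plo (c : Comb m n) (q : St n) (i : Fin n) : ℝ :=
  min (c.pe q (c.ea i)) (c.pe q (c.eb i))

/-- The upper end of the vertical of `i`. -/
noncomputable def Comb.phi (c : Comb m n) (q : St n) (i : Fin n) : ℝ :=
  max (c.pe q (c.ea i)) (c.pe q (c.eb i))

/-- The bound for the rounding error at the vertex `i`. -/
noncomputable def Comb.err (c : Comb m n) (w : Fin n → ℝ) (q v : St n) (i : Fin n) : ℝ :=
  w i * (2 * |c.dpe q v (c.ea i)| + 2 * |c.dpe q v (c.eb i) - c.dpe q v (c.ea i)|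
    + CY * |c.dl q i|)

/-- Two edges are separated by their values of `z`; the sign of `z_e - z_e'` is the sign of `σ`. -/
def Comb.Zee (c : Comb m n) (q v : St n) (e e' : Fin m) (σ : ℝ) : Prop :=
  0 < σ * c.Dee q v e e' (max (q.1 (c.lf e)) (q.1 (c.lf e'))) ∧
    0 < σ * c.Dee q v e e' (min (q.1 (c.rt e)) (q.1 (c.rt e')))

/-- Positional separation of two edges. -/
def Comb.See (c : Comb m n) (w : Fin n → ℝ) (q : St n) (e e' : Fin m) : Prop :=
  q.1 (c.rt e) - 2 * w (c.rt e) < q.1 (c.lf e') + 2 * w (c.lf e') ∨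
    q.1 (c.rt e') - 2 * w (c.rt e') < q.1 (c.lf e) + 2 * w (c.lf e) ∨ c.pe q e ≠ c.pe q e'

/-- Two verticals are separated by their values of `z`. -/
def Comb.Zvv (c : Comb m n) (w : Fin n → ℝ) (q v : St n) (i j : Fin n) (σ : ℝ) : Prop :=
  c.err w q v i + c.err w q v j < σ * Dvv v i j (max (c.plo q i) (c.plo q j)) ∧
    c.err w q v i + c.err w q v j < σ * Dvv v i j (min (c.phi q i) (c.phi q j))

/-- Positional separation of two verticals. -/
def Comb.Svv (c : Comb m n) (w : Fin n → ℝ) (q : St n) (i j : Fin n) : Prop :=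
  2 * (w i + w j) < q.1 j - q.1 i ∨ 2 * (w i + w j) < q.1 i - q.1 j ∨
    c.phi q i < c.plo q j ∨ c.phi q j < c.plo q i

/-- A vertical and an edge are separated by their values of `z`. -/
def Comb.Zve (c : Comb m n) (w : Fin n → ℝ) (q v : St n) (i : Fin n) (e : Fin m) (σ : ℝ) : Prop :=
  c.err w q v i + 2 * w i * |c.dpe q v e| < σ * c.Dve q v i e

/-- Positional separation of a vertical and an edge. -/
def Comb.Sve (c : Comb m n) (w : Fin n → ℝ) (q : St n) (i : Fin n) (e : Fin m) : Prop :=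
  q.1 i + 2 * w i < q.1 (c.lf e) + 2 * w (c.lf e) ∨
    q.1 (c.rt e) - 2 * w (c.rt e) < q.1 i - 2 * w i ∨
    c.pe q e < c.plo q i ∨ c.phi q i < c.pe q e

/-- Sufficient conditions for admissibility. -/
structure Comb.Cert (c : Comb m n) (w : Fin n → ℝ) (q v : St n) : Prop where
  len : ∀ e, 2 * (w (c.lf e) + w (c.rt e)) < q.1 (c.rt e) - q.1 (c.lf e)
  tip : ∀ i, c.ty i ≠ .P → c.dl q i ≠ 0
  ee : ∀ e e', e ≠ e' → c.See w q e e' ∨ ∃ σ : ℝ, |σ| = 1 ∧ c.Zee q v e e' σ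
  vv : ∀ i j, i ≠ j → c.Svv w q i j ∨ ∃ σ : ℝ, |σ| = 1 ∧ c.Zvv w q v i j σ
  ve : ∀ i e, c.ea i ≠ e → c.eb i ≠ e → c.Sve w q i e ∨ ∃ σ : ℝ, |σ| = 1 ∧ c.Zve w q v i e σ

/-! ### states -/

/-- The moving polygon with the positions `Q` and the velocities `V` at the time `t`. -/
def lin {n : ℕ} (Q V : St n) (t : ℝ) (s : ℝ) : St n := Q + (s - t) • V

/-- The front polygon of the data `c`, `w`, with the positions `Q` and the velocities `V` at the
time `t`, is reached: there is a surface over `(0, t + ε)` which starts with the cylinder over `K`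
and ends with this moving polygon. -/
def At (K : Set LC.R3) (sh : Shape) (c : Comb m n) (w : Fin n → ℝ) (Q V : St n) (t : ℝ) : Prop :=
  0 < t ∧ ∃ ε > 0, ε < t ∧ ∃ A : Set E5, ∃ e₀ > 0, e₀ < t ∧
    Good (Ioo 0 (t + ε)) A ∧ Down (Ioo 0 (t + ε)) A ∧ Agree (Ioo 0 e₀) A (cyl K) ∧
    Agree (Ioo (t - ε) (t + ε)) A (c.surf w (c.sp sh) (lin Q V t))

/-- The cap is complete. -/
def Capped (K : Set LC.R3) : Prop :=
  ∃ A : Set E5, Good (Ioi 0) A ∧ Down (Ioi 0) A ∧ (∃ e₀ > 0, Agree (Ioo 0 e₀) A (cyl K)) ∧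
    ∃ S : ℝ, ∀ q ∈ A, 0 < q.1 → q.1 ≤ S

end LCA
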