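import Pool.Agent.LCA.Stmts3

/-!
# Part A: integer data and the checker

A state of a moving front polygon is given by integers; `stOK` checks that the data are consistent,
`goOK` checks a linear motion together with the change of the velocities at its beginning. The
functions are written with recursors, so that the kernel evaluates them fast.
-/

namespace LCA

noncomputable section

/-! ### Booleans, integers, lists -/

/-- `a && b`, lazily. -/
def bnd (a b : Bool) : Bool := Bool.rec false b a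

/-- `a || b`, lazily. -/
def bor (a b : Bool) : Bool := Bool.rec b true a

/-- `a < b` for integers. -/
def ilt (a b : ℤ) : Bool :=
  Int.rec (fun i => Int.rec (fun j => Nat.ble (Nat.succ i) j) (fun _ => false) b)
    (fun i => Int.rec (fun _ => true) (fun j => Nat.ble (Nat.succ j) i) b) a

/-- `a = b` for integers. -/
def ieq (a b : ℤ) : Bool :=
  Int.rec (fun i => Int.rec (fun j => Nat.beq i j) (fun _ => false) b)
    (fun i => Int.rec (fun _ => false) (fun j => Nat.beq i j) b) a

/-- The maximum. -/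
def imax (a b : ℤ) : ℤ := Bool.rec a b (ilt a b)

/-- The minimum. -/
def imin (a b : ℤ) : ℤ := Bool.rec b a (ilt a b)

/-- The absolute value. -/
def iabs (a : ℤ) : ℤ := Int.rec (fun i => Int.ofNat i) (fun i => Int.ofNat (Nat.succ i)) a

/-- All members of the list have the property. -/
def allL {α : Type} (p : α → Bool) (l : List α) : Bool :=
  List.rec true (fun a _ ih => bnd (p a) ih) l

/-- All members of the list have the property, which depends on the index; the first index is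
`k`. -/
def allI {α : Type} (p : ℕ → α → Bool) (l : List α) : ℕ → Bool :=
  List.rec (fun _ => true) (fun a _ ih k => bnd (p k a) (ih (Nat.succ k))) l

/-- The property holds for the corresponding members of the lists. -/
def all2 {α β : Type} (p : α → β → Bool) (l : List α) : List β → Bool :=
  List.rec (fun _ => true)
    (fun a _ ih l' => List.rec true (fun b t _ => bnd (p a b) (ih t)) l') l

/-- The same with an index. -/
def all2I {α β : Type} (p : ℕ → α → β → Bool) (l : List α) : List β → ℕ → Bool :=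
  List.rec (fun _ _ => true)
    (fun a _ ih l' k => List.rec true (fun b t _ => bnd (p k a b) (ih t (Nat.succ k))) l') l

/-- The property holds for all pairs of members. -/
def prs2 {α β : Type} (p : α → β → α → β → Bool) (l : List α) : List β → Bool :=
  List.rec (fun _ => true)
    (fun a t ih l' => List.rec true (fun b t' _ => bnd (all2 (p a b) t t') (ih t')) l') l

/-- The member with the index `i`. -/
def lkp {α : Type} (d : α) (l : List α) : ℕ → α :=
  List.rec (fun _ => d) (fun a _ ih i => Nat.rec a (fun k _ => ih k) i) l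

/-- The length of the list. -/
def len {α : Type} (l : List α) : ℕ := List.rec 0 (fun _ _ ih => Nat.succ ih) l

/-! ### data -/

/-- The data of a vertex. `ty` is `0`, `1`, `2` for a pass, a right tip, a left tip; `ea`, `eb` the
edges; `w` the width; `x`, `F` the position; `dx`, `dF` the velocity; `jl = x - 2 w`, `jr = x + 2 w`;
`pa`, `pb` the slopes of the edges, `lo`, `hi` their minimum and maximum;
`er = 2 |dpa| + 2 |dpb - dpa|`. -/
structure VS where
  ty : ℕ
  ea : ℕ
  eb : ℕ
  w : ℤ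
  x : ℤ
  F : ℤ
  dx : ℤ
  dF : ℤ
  jl : ℤ
  jr : ℤ
  pa : ℤ
  pb : ℤ
  lo : ℤ
  hi : ℤ
  er : ℤ

/-- The data of an edge. `lf`, `rt` are the ends; `xl`, `xr` their positions; `il = xl + 2 w`,
`ir = xr - 2 w`; `p` the slope, `dp` its derivative, `da` the derivative of `a`, where the line is
`F = p x + a`. -/
structure ES where
  lf : ℕ
  rt : ℕ
  xl : ℤ
  xr : ℤ
  il : ℤ
  ir : ℤ
  p : ℤ
  dp : ℤ
  da : ℤ

/-- A default value. -/
def vs0 : VS := ⟨0, 0, 0, 0, 0, 0, 0, 0, 0, 0, 0, 0, 0, 0, 0⟩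

/-- A default value. -/
def es0 : ES := ⟨0, 0, 0, 0, 0, 0, 0, 0, 0⟩

/-- The data of a state. -/
structure SD where
  vs : List VS
  es : List ES

/-- The vertex with the index `i`. -/
def SD.v (S : SD) (i : ℕ) : VS := lkp vs0 S.vs i

/-- The edge with the index `e`. -/
def SD.e (S : SD) (e : ℕ) : ES := lkp es0 S.es e

/-- The type of a vertex. -/
def tyOf (k : ℕ) : Ty := Nat.rec .P (fun k _ => Nat.rec .R (fun _ _ => .L) k) k

/-- The combinatorics of a state with `m + 1` edges and `n + 1` vertices. -/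
def SD.cb (m n : ℕ) (S : SD) : Comb (m + 1) (n + 1) where
  lf e := Fin.ofNat (n + 1) (S.e e).lf
  rt e := Fin.ofNat (n + 1) (S.e e).rt
  ty i := tyOf (S.v i).ty
  ea i := Fin.ofNat (m + 1) (S.v i).ea
  eb i := Fin.ofNat (m + 1) (S.v i).eb

/-- The widths. -/
def SD.W (n : ℕ) (S : SD) : Fin (n + 1) → ℝ := fun i => ((S.v i).w : ℝ)

/-- The positions. -/
def SD.Q (n : ℕ) (S : SD) : St (n + 1) := (fun i => ((S.v i).x : ℝ), fun i => ((S.v i).F : ℝ))

/-- The velocities. -/
def SD.V (n : ℕ) (S : SD) : St (n + 1) := (fun i => ((S.v i).dx : ℝ), fun i => ((S.v i).dF : ℝ))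

/-- The state of the data `S` is reached at the time `t`. -/
def AtD (K : Set LC.R3) (sh : Shape) (m n : ℕ) (S : SD) (t : ℤ) : Prop :=
  At K sh (S.cb m n) (S.W n) (S.Q n) (S.V n) (t : ℝ)

/-! ### consistency of the data -/

/-- Consistency of an edge: `a`, `b` are the data of its ends; `k` is its index. -/
def okE (n k : ℕ) (f : ES) (a b : VS) : Bool :=
  bnd (Nat.ble (Nat.succ f.lf) (Nat.succ n)) <| bnd (Nat.ble (Nat.succ f.rt) (Nat.succ n)) <|
  bnd (ieq f.xl a.x) <| bnd (ieq f.xr b.x) <|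
  bnd (ieq f.il a.jr) <| bnd (ieq f.ir b.jl) <|
  bnd (ilt f.il f.ir) <|
  bnd (ieq (Int.mul f.p (Int.sub f.xr f.xl)) (Int.sub b.F a.F)) <|
  bnd (ieq (Int.mul f.dp (Int.sub f.xr f.xl))
    (Int.sub (Int.sub b.dF a.dF) (Int.mul f.p (Int.sub b.dx a.dx)))) <|
  bnd (ieq f.da (Int.sub (Int.sub a.dF (Int.mul f.dp f.xl)) (Int.mul f.p a.dx))) <|
  bnd (ieq (Int.mul f.dp a.dx) 0) <| bnd (ieq (Int.mul f.dp b.dx) 0) <|
  -- the right end
  bnd (bor (bnd (bor (Nat.beq b.ty 0) (Nat.beq b.ty 1)) (Nat.beq b.ea k))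
    (bnd (Nat.beq b.ty 1) (Nat.beq b.eb k))) <|
  -- the left end
  bor (bnd (Nat.beq a.ty 2) (Nat.beq a.ea k))
    (bnd (bor (Nat.beq a.ty 0) (Nat.beq a.ty 2)) (Nat.beq a.eb k))

/-- Consistency of a vertex: `f`, `g` are the data of its edges; `k` is its index. -/
def okV (m k : ℕ) (a : VS) (f g : ES) : Bool :=
  bnd (Nat.ble (Nat.succ a.ea) (Nat.succ m)) <| bnd (Nat.ble (Nat.succ a.eb) (Nat.succ m)) <|
  bnd (bor (Nat.beq a.ty 0) (bor (Nat.beq a.ty 1) (Nat.beq a.ty 2))) <|
  bnd (ilt 0 a.w) <|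
  bnd (ieq a.jl (Int.sub a.x (Int.mul 2 a.w))) <| bnd (ieq a.jr (Int.add a.x (Int.mul 2 a.w))) <|
  bnd (ieq a.pa f.p) <| bnd (ieq a.pb g.p) <|
  bnd (ieq a.lo (imin a.pa a.pb)) <| bnd (ieq a.hi (imax a.pa a.pb)) <|
  bnd (ieq a.er (Int.add (Int.mul 2 (iabs f.dp)) (Int.mul 2 (iabs (Int.sub g.dp f.dp))))) <|
  bnd (bor (Nat.beq a.ty 0) (ilt a.lo a.hi)) <|
  bnd (Bool.rec true false (Nat.beq a.ea a.eb)) <|
  -- the edge `ea`
  bnd (bor (bnd (bor (Nat.beq a.ty 0) (Nat.beq a.ty 1)) (Nat.beq f.rt k))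
    (bnd (Nat.beq a.ty 2) (Nat.beq f.lf k))) <|
  -- the edge `eb`
  bor (bnd (bor (Nat.beq a.ty 0) (Nat.beq a.ty 2)) (Nat.beq g.lf k))
    (bnd (Nat.beq a.ty 1) (Nat.beq g.rt k))

/-- Consistency of a state with `m + 1` edges and `n + 1` vertices. -/
def stOK (m n : ℕ) (S : SD) : Bool :=
  bnd (Nat.beq (len S.es) (Nat.succ m)) <| bnd (Nat.beq (len S.vs) (Nat.succ n)) <|
  bnd (allI (fun k f => okE n k f (S.v f.lf) (S.v f.rt)) S.es 0) <|
  allI (fun k a => okV m k a (S.e a.ea) (S.e a.eb)) S.vs 0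

/-! ### linear motions -/

/-- Positional separation of two edges. -/
def posEE (f f' : ES) : Bool :=
  bor (ilt f.ir f'.il) <| bor (ilt f'.ir f.il) <| bor (ilt f.p f'.p) (ilt f'.p f.p)

/-- Positional separation of two vertices. -/
def posVV (a a' : VS) : Bool :=
  bor (ilt a.jr a'.jl) <| bor (ilt a'.jr a.jl) <| bor (ilt a.hi a'.lo) (ilt a'.hi a.lo)

/-- Positional separation of a vertex and an edge. -/
def posVE (a : VS) (f : ES) : Bool :=
  bor (ilt a.jr f.il) <| bor (ilt f.ir a.jl) <| bor (ilt f.p a.lo) (ilt a.hi f.p)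

/-- The value at `x` of the difference of `z` on two edges. -/
def dEE (f f' : ES) (x : ℤ) : ℤ :=
  Int.add (Int.mul (Int.sub f.dp f'.dp) x) (Int.sub f.da f'.da)

/-- The value at `p` of the difference of `z` on two verticals. -/
def dVV (a a' : VS) (p : ℤ) : ℤ :=
  Int.sub (Int.sub a.dF a'.dF) (Int.mul p (Int.sub a.dx a'.dx))

/-- The difference of `z` on the vertical of `a` and on the edge `f`; here `x` is the position of
the vertical and `p` the slope of the edge. -/
def dVE (a : VS) (f : ES) (x p : ℤ) : ℤ :=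
  Int.sub (Int.sub a.dF (Int.mul p a.dx)) (Int.add (Int.mul f.dp x) f.da)

/-- The bound of the error at a vertex; `l` is the bound for the difference of the slopes. -/
def erV (a : VS) (l : ℤ) : ℤ := Int.mul a.w (Int.add a.er (Int.mul 1000 l))

/-- Both numbers are positive and the condition holds, or both numbers are negative and the other
condition holds. -/
def sgn2 (d d' : ℤ) (cp cn : Bool) : Bool :=
  bor (bnd (ilt 0 d) (bnd (ilt 0 d') cp)) (bnd (ilt d 0) (bnd (ilt d' 0) cn))

/-- Both numbers are larger than `E` and the condition holds, or both numbers are smaller than `-E`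
and the other condition holds. -/
def sgn3 (E d d' : ℤ) (cp cn : Bool) : Bool :=
  bor (bnd (ilt E d) (bnd (ilt E d') cp))
    (bnd (ilt d (Int.neg E)) (bnd (ilt d' (Int.neg E)) cn))

/-- Two edges with the data `f`, `f'` at the beginning (before the change of the velocities) and
`g`, `g'` at the end. -/
def chEE (f g f' g' : ES) : Bool :=
  bor (bnd (ilt f.ir f'.il) (ilt g.ir g'.il)) <|
  bor (bnd (ilt f'.ir f.il) (ilt g'.ir g.il)) <|
  bor (bnd (ilt f.p f'.p) (ilt g.p g'.p)) <|
  bor (bnd (ilt f'.p f.p) (ilt g'.p g.p)) <|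
  sgn2 (dEE g g' (imax (imin f.xl g.xl) (imin f'.xl g'.xl)))
    (dEE g g' (imin (imax f.xr g.xr) (imax f'.xr g'.xr)))
    (bor (posEE f f') (bnd (ilt 0 (dEE f f' (imax f.xl f'.xl))) (ilt 0 (dEE f f' (imin f.xr f'.xr)))))
    (bor (posEE f f') (bnd (ilt (dEE f f' (imax f.xl f'.xl)) 0) (ilt (dEE f f' (imin f.xr f'.xr)) 0)))

/-- Two vertices with the data `a`, `a'` at the beginning (before the change of the velocities) and
`b`, `b'` at the end. -/
def chVV (a b a' b' : VS) : Bool :=
  bor (bnd (ilt a.jr a'.jl) (ilt b.jr b'.jl)) <|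
  bor (bnd (ilt a'.jr a.jl) (ilt b'.jr b.jl)) <|
  bor (bnd (ilt a.hi a'.lo) (ilt b.hi b'.lo)) <|
  bor (bnd (ilt a'.hi a.lo) (ilt b'.hi b.lo)) <|
  sgn3 (Int.add (erV b (imax (Int.sub a.hi a.lo) (Int.sub b.hi b.lo)))
      (erV b' (imax (Int.sub a'.hi a'.lo) (Int.sub b'.hi b'.lo))))
    (dVV b b' (imax (imin a.lo b.lo) (imin a'.lo b'.lo)))
    (dVV b b' (imin (imax a.hi b.hi) (imax a'.hi b'.hi)))
    (bor (posVV a a') (bnd
      (ilt (Int.add (erV a (Int.sub a.hi a.lo)) (erV a' (Int.sub a'.hi a'.lo)))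
        (dVV a a' (imax a.lo a'.lo)))
      (ilt (Int.add (erV a (Int.sub a.hi a.lo)) (erV a' (Int.sub a'.hi a'.lo)))
        (dVV a a' (imin a.hi a'.hi)))))
    (bor (posVV a a') (bnd
      (ilt (dVV a a' (imax a.lo a'.lo))
        (Int.neg (Int.add (erV a (Int.sub a.hi a.lo)) (erV a' (Int.sub a'.hi a'.lo)))))
      (ilt (dVV a a' (imin a.hi a'.hi))
        (Int.neg (Int.add (erV a (Int.sub a.hi a.lo)) (erV a' (Int.sub a'.hi a'.lo)))))))

/-- A vertex with the data `a` at the beginning (before the change of the velocities) and `b` at the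
end and the edge with the index `k` and the data `f`, `g`. -/
def chVE (a b : VS) (k : ℕ) (f g : ES) : Bool :=
  bor (bnd (ilt a.jr f.il) (ilt b.jr g.il)) <|
  bor (bnd (ilt f.ir a.jl) (ilt g.ir b.jl)) <|
  bor (bnd (ilt f.p a.lo) (ilt g.p b.lo)) <|
  bor (bnd (ilt a.hi f.p) (ilt b.hi g.p)) <|
  bor (Nat.beq a.ea k) <| bor (Nat.beq a.eb k) <|
  sgn3 (Int.add (erV b (imax (Int.sub a.hi a.lo) (Int.sub b.hi b.lo)))
      (Int.mul (Int.mul 2 b.w) (iabs g.dp)))
    (dVE b g a.x f.p) (dVE b g b.x g.p)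
    (bor (posVE a f) (ilt (Int.add (erV a (Int.sub a.hi a.lo)) (Int.mul (Int.mul 2 a.w) (iabs f.dp)))
      (dVE a f a.x f.p)))
    (bor (posVE a f) (ilt (dVE a f a.x f.p)
      (Int.neg (Int.add (erV a (Int.sub a.hi a.lo)) (Int.mul (Int.mul 2 a.w) (iabs f.dp))))))

/-- The same vertex at the beginning and at the end of a motion of duration `T`. -/
def smV (T : ℤ) (a b : VS) : Bool :=
  bnd (Nat.beq a.ty b.ty) <| bnd (Nat.beq a.ea b.ea) <| bnd (Nat.beq a.eb b.eb) <|
  bnd (ieq a.w b.w) <|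
  bnd (ieq b.x (Int.add a.x (Int.mul T b.dx))) <|
  bnd (ieq b.F (Int.add a.F (Int.mul T b.dF))) <|
  bor (Nat.beq a.ty 0) <|
  bor (bnd (ilt a.pa a.pb) (ilt b.pa b.pb)) (bnd (ilt a.pb a.pa) (ilt b.pb b.pa))

/-- The same edge. -/
def smE (f g : ES) : Bool := bnd (Nat.beq f.lf g.lf) (Nat.beq f.rt g.rt)

/-- A change of the velocities and a linear motion of duration `T`: `A` is the state before the
change, `B` is the state at the end of the motion. -/
def goOK (T : ℤ) (A B : SD) : Bool :=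
  bnd (ilt 0 T) <| bnd (all2 (smV T) A.vs B.vs) <| bnd (all2 smE A.es B.es) <|
  bnd (prs2 chEE A.es B.es) <| bnd (prs2 chVV A.vs B.vs) <|
  all2 (fun a b => all2I (chVE a b) A.es B.es 0) A.vs B.vs

end

end LCA
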