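import Pool.Agent.LCA.Stmts4

/-!
# Part A: the checker for the other operations
-/

namespace LCA

noncomputable section

/-! ### indices -/

/-- `i < j`. -/
def nlt (i j : ℕ) : Bool := Nat.ble (Nat.succ i) j

/-- `i ≠ j`. -/
def nne (i j : ℕ) : Bool := Bool.rec true false (Nat.beq i j)

/-- `if b then i else j`. -/
def nif (b : Bool) (i j : ℕ) : ℕ := Bool.rec j i b

/-- `¬ b`. -/
def bnt (b : Bool) : Bool := Bool.rec true false b

/-- The list `ι` is an embedding of `{0, ..., a}` into `{0, ..., b}` whose image is the complement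
of `e`; `κ` is its inverse. -/
def embB (a b : ℕ) (ι κ : List ℕ) (e : ℕ) : Bool :=
  bnd (Nat.beq (len ι) (Nat.succ a)) <| bnd (Nat.beq (len κ) (Nat.succ b)) <|
  bnd (nlt e (Nat.succ b)) <|
  bnd (allI (fun d x => bnd (nlt x (Nat.succ b)) (bnd (nne x e) (Nat.beq (lkp 0 κ x) d))) ι 0) <|
  allI (fun d y => bor (Nat.beq d e) (bnd (nlt y (Nat.succ a)) (Nat.beq (lkp 0 ι y) d))) κ 0

/-- The function between finite types which is given by a list. -/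
def ixf (a b : ℕ) (l : List ℕ) : Fin (a + 1) → Fin (b + 1) :=
  fun i => Fin.ofNat (b + 1) (lkp 0 l i)

/-! ### simple relations between two states -/

/-- The vertex has moved for the time `T` with the same velocity. -/
def mvV (T : ℤ) (a b : VS) : Bool :=
  bnd (Nat.beq a.ty b.ty) <| bnd (Nat.beq a.ea b.ea) <| bnd (Nat.beq a.eb b.eb) <|
  bnd (ieq a.w b.w) <| bnd (ieq a.dx b.dx) <| bnd (ieq a.dF b.dF) <|
  bnd (ieq b.x (Int.add a.x (Int.mul T b.dx))) <| ieq b.F (Int.add a.F (Int.mul T b.dF))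

/-- The state has moved for the time `T` with the same velocities. -/
def mvOK (T : ℤ) (A B : SD) : Bool := bnd (all2 (mvV T) A.vs B.vs) (all2 smE A.es B.es)

/-- The velocities are reversed. -/
def ngV (a b : VS) : Bool :=
  bnd (Nat.beq a.ty b.ty) <| bnd (Nat.beq a.ea b.ea) <| bnd (Nat.beq a.eb b.eb) <|
  bnd (ieq a.w b.w) <| bnd (ieq a.x b.x) <| bnd (ieq a.F b.F) <|
  bnd (ieq b.dx (Int.neg a.dx)) <| ieq b.dF (Int.neg a.dF)

/-- The velocities are reversed. -/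
def ngOK (A B : SD) : Bool := bnd (all2 ngV A.vs B.vs) (all2 smE A.es B.es)

/-- The widths of `b` are not larger. -/
def wdV (a b : VS) : Bool :=
  bnd (Nat.beq a.ty b.ty) <| bnd (Nat.beq a.ea b.ea) <| bnd (Nat.beq a.eb b.eb) <|
  bnd (ieq a.x b.x) <| bnd (ieq a.F b.F) <| bnd (ieq a.dx b.dx) <| bnd (ieq a.dF b.dF) <|
  bnt (ilt a.w b.w)

/-- The widths of `B` are not larger. -/
def wdOK (A B : SD) : Bool := bnd (all2 wdV A.vs B.vs) (all2 smE A.es B.es)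

/-- The edges `ea`, `eb` are exchanged at the vertex with the index `i`. -/
def swV (i k : ℕ) (a b : VS) : Bool :=
  bnd (Nat.beq a.ty b.ty) <| bnd (ieq a.w b.w) <|
  bnd (ieq a.x b.x) <| bnd (ieq a.F b.F) <| bnd (ieq a.dx b.dx) <| bnd (ieq a.dF b.dF) <|
  bor (bnd (Nat.beq k i) <| bnd (nne a.ty 0) <| bnd (Nat.beq a.ea b.eb) (Nat.beq a.eb b.ea))
    (bnd (nne k i) <| bnd (Nat.beq a.ea b.ea) (Nat.beq a.eb b.eb))

/-- The edges `ea`, `eb` are exchanged at the vertex with the index `i`. -/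
def swOK (n i : ℕ) (A B : SD) : Bool :=
  bnd (nlt i (Nat.succ n)) <| bnd (all2I (swV i) A.vs B.vs 0) (all2 smE A.es B.es)

/-! ### trivial vertices -/

/-- The vertex `k` of `A` (the data `a`) and the corresponding vertex of `B` (the data `b`). -/
def inV (ιE : List ℕ) (e₀ e r₀ k : ℕ) (a b : VS) : Bool :=
  bnd (Nat.beq a.ty b.ty) <| bnd (ieq a.w b.w) <|
  bnd (ieq a.x b.x) <| bnd (ieq a.F b.F) <| bnd (ieq a.dx b.dx) <| bnd (ieq a.dF b.dF) <|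
  bnd (Nat.beq b.ea (nif (bnd (Nat.beq k r₀) (Nat.beq a.ea e₀)) e (lkp 0 ιE a.ea))) <|
  Nat.beq b.eb (nif (bnd (Nat.beq k r₀) (Nat.beq a.eb e₀)) e (lkp 0 ιE a.eb))

/-- The state `B` is obtained from `A` by a trivial vertex `j` on the edge `e₀`. -/
def inOK (m n m' n' : ℕ) (ιE κE ιV κV : List ℕ) (e₀ e j : ℕ) (A B : SD) : Bool :=
  bnd (nlt e₀ (Nat.succ m)) <|
  bnd (embB m m' ιE κE e) <| bnd (embB n n' ιV κV j) <|
  -- the vertices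
  bnd (allI (fun k a => inV ιE e₀ e (A.e e₀).rt k a (B.v (lkp 0 ιV k))) A.vs 0) <|
  -- the edges
  bnd (allI (fun d f => bnd (Nat.beq (B.e (lkp 0 ιE d)).lf (lkp 0 ιV f.lf))
    (Nat.beq (B.e (lkp 0 ιE d)).rt (nif (Nat.beq d e₀) j (lkp 0 ιV f.rt)))) A.es 0) <|
  -- the new elements
  bnd (Nat.beq (B.v j).ty 0) <| bnd (Nat.beq (B.v j).ea (lkp 0 ιE e₀)) <|
  bnd (Nat.beq (B.v j).eb e) <| bnd (Nat.beq (B.e e).lf j) <|
  bnd (Nat.beq (B.e e).rt (lkp 0 ιV (A.e e₀).rt)) <|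
  bnd (ilt (A.e e₀).il (B.v j).jl) <| bnd (ilt (B.v j).jr (A.e e₀).ir) <|
  bnd (ieq (B.v j).F (Int.add (A.v (A.e e₀).lf).F
    (Int.mul (A.e e₀).p (Int.sub (B.v j).x (A.e e₀).xl)))) <|
  bnd (ieq (B.v j).dF (Int.add (Int.add (Int.mul (A.e e₀).dp (B.v j).x) (A.e e₀).da)
    (Int.mul (A.e e₀).p (B.v j).dx))) <|
  ieq (Int.mul (A.e e₀).dp (B.v j).dx) 0

/-! ### folds -/

/-- The vertex `k` of `A` (the data `a`) and the corresponding vertex of `B` (the data `b`). -/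
def fdV (ιE : List ℕ) (i e k : ℕ) (a b : VS) (da : ℤ) : Bool :=
  bor
    (bnd (nne k i) <| bnd (Nat.beq a.ty b.ty) <| bnd (ieq a.w b.w) <|
      bnd (ieq a.x b.x) <| bnd (ieq a.F b.F) <| bnd (ieq a.dx b.dx) <| bnd (ieq a.dF b.dF) <|
      bnd (Nat.beq b.ea (lkp 0 ιE a.ea)) (Nat.beq b.eb (lkp 0 ιE a.eb)))
    (bnd (Nat.beq k i) <| bnd (Nat.beq a.ty 0) <| bnd (Nat.beq b.ty 1) <|
      bnd (Nat.beq b.ea (lkp 0 ιE a.ea)) <| bnd (Nat.beq b.eb e) <|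
      bnd (ieq (Int.mul 8 b.w) a.w) <|
      bnd (ieq (Int.mul 2 b.x) (Int.add (Int.mul 2 a.x) a.w)) <|
      bnd (ieq (Int.mul 2 b.F) (Int.add (Int.mul 2 a.F) (Int.mul a.pa a.w))) <|
      bnd (ieq b.dx a.dx) <|
      ieq (Int.mul 2 b.dF) (Int.add (Int.mul 2 a.dF) (Int.mul da a.w)))

/-- The new left tip; `a` are the data of the folded vertex, `db` the derivative of the slope of its
edge `eb`. -/
def fdJ (ιE : List ℕ) (e : ℕ) (a b : VS) (db : ℤ) : Bool :=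
  bnd (Nat.beq b.ty 2) <| bnd (Nat.beq b.ea e) <| bnd (Nat.beq b.eb (lkp 0 ιE a.eb)) <|
  bnd (ieq (Int.mul 8 b.w) a.w) <|
  bnd (ieq (Int.mul 2 b.x) (Int.sub (Int.mul 2 a.x) a.w)) <|
  bnd (ieq (Int.mul 2 b.F) (Int.sub (Int.mul 2 a.F) (Int.mul a.pb a.w))) <|
  bnd (ieq b.dx a.dx) <|
  ieq (Int.mul 2 b.dF) (Int.sub (Int.mul 2 a.dF) (Int.mul db a.w))

/-- The state `B` is obtained from `A` by a fold at the pass `i`. -/
def fdOK (m n m' n' : ℕ) (ιE κE ιV κV : List ℕ) (i e j : ℕ) (A B : SD) : Bool :=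
  bnd (nlt i (Nat.succ n)) <|
  bnd (embB m m' ιE κE e) <| bnd (embB n n' ιV κV j) <|
  bnd (allI (fun k a => fdV ιE i e k a (B.v (lkp 0 ιV k)) (A.e a.ea).dp) A.vs 0) <|
  bnd (allI (fun d f => bnd (Nat.beq (B.e (lkp 0 ιE d)).rt (lkp 0 ιV f.rt))
    (Nat.beq (B.e (lkp 0 ιE d)).lf (nif (Nat.beq d (A.v i).eb) j (lkp 0 ιV f.lf)))) A.es 0) <|
  bnd (Nat.beq (B.e e).lf j) <| bnd (Nat.beq (B.e e).rt (lkp 0 ιV i)) <|
  fdJ ιE e (A.v i) (B.v j) (A.e (A.v i).eb).dp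

/-- The slopes at the vertex `i` are in the same order in both states. -/
def fdS (i : ℕ) (A A' : SD) : Bool :=
  bor (bnd (ilt (A.v i).pa (A.v i).pb) (ilt (A'.v i).pa (A'.v i).pb))
    (bnd (ilt (A.v i).pb (A.v i).pa) (ilt (A'.v i).pb (A'.v i).pa))

/-! ### saddles and the maximum -/

/-- The data of a critical point: position, value of `F`, value of `z`, mean slopes on the left and
on the right, half of the gap, speed of the tips, width. -/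
structure ED where
  x : ℤ
  F : ℤ
  z : ℤ
  P₁ : ℤ
  P₂ : ℤ
  h : ℤ
  v : ℤ
  r : ℤ

/-- The critical point at the time `s₀`. -/
def ED.ev (E : ED) (s₀ : ℝ) : Evt where
  s₀ := s₀
  x₀ := E.x
  F₀ := E.F
  z₀ := E.z
  P₁ := E.P₁
  P₂ := E.P₂
  g := 2 * E.h
  v := E.v
  r := E.r

/-- The constants are admissible. -/
def ED.ok (E : ED) : Bool :=
  bnd (ilt 0 E.h) <| bnd (ilt 0 E.v) <| bnd (ilt 0 E.r) <|
  bnd (ilt (Int.mul 8 E.r) E.v) <| ilt (iabs (Int.sub E.P₂ E.P₁)) (Int.mul 2 E.h)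

/-- `ρ = 2 v + 4 r`. -/
def ED.ρ (E : ED) : ℤ := Int.add (Int.mul 2 E.v) (Int.mul 4 E.r)

/-- The lower side of the box. -/
def ED.lo (E : ED) : ℤ := Int.sub (imin E.P₁ E.P₂) E.h

/-- The upper side of the box. -/
def ED.hi (E : ED) : ℤ := Int.add (imax E.P₁ E.P₂) E.h

/-- `ζ = h v`. -/
def ED.ζ (E : ED) : ℤ := Int.mul E.h E.v

/-- The edge (the data at the two ends of the time interval) does not meet the box. -/
def bxE (E : ED) (f g : ES) : Bool :=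
  bor (bnd (ilt f.ir (Int.sub E.x E.ρ)) (ilt g.ir (Int.sub E.x E.ρ))) <|
  bor (bnd (ilt (Int.add E.x E.ρ) f.il) (ilt (Int.add E.x E.ρ) g.il)) <|
  bor (bnd (ilt f.p E.lo) (ilt g.p E.lo)) <|
  bor (bnd (ilt E.hi f.p) (ilt E.hi g.p)) <|
  ilt (Int.add E.ζ (Int.mul (iabs g.dp) E.ρ))
    (iabs (Int.sub (Int.add (Int.mul g.dp E.x) g.da) E.z))

/-- The value of `z` on the vertical at the height `p`, relative to the critical point. -/
def dBV (E : ED) (b : VS) (p : ℤ) : ℤ := Int.sub (Int.sub b.dF (Int.mul p b.dx)) E.z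

/-- The vertical (the data at the two ends of the time interval) does not meet the box. -/
def bxV (E : ED) (a b : VS) : Bool :=
  bor (bnd (ilt a.jr (Int.sub E.x E.ρ)) (ilt b.jr (Int.sub E.x E.ρ))) <|
  bor (bnd (ilt (Int.add E.x E.ρ) a.jl) (ilt (Int.add E.x E.ρ) b.jl)) <|
  bor (bnd (ilt a.hi E.lo) (ilt b.hi E.lo)) <|
  bor (bnd (ilt E.hi a.lo) (ilt E.hi b.lo)) <|
  sgn3 (Int.add E.ζ (erV b (imax (Int.sub a.hi a.lo) (Int.sub b.hi b.lo))))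
    (dBV E b (imax (imin a.lo b.lo) E.lo)) (dBV E b (imin (imax a.hi b.hi) E.hi)) true true

/-- The state `A` before the saddle and the state `C` of the other combinatorics, at the times
`s₀ - 1` and `s₀ - 2`; vertices. -/
def sdV (L R k : ℕ) (a c : VS) : Bool :=
  bnd (ieq a.w c.w) <|
  bnd (ieq (Int.add a.x a.dx) (Int.add c.x (Int.mul 2 c.dx))) <|
  bnd (ieq (Int.add a.F a.dF) (Int.add c.F (Int.mul 2 c.dF))) <|
  bor (Nat.beq k L) <| bor (Nat.beq k R) <|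
  bnd (Nat.beq a.ty c.ty) <| bnd (Nat.beq a.ea c.ea) <| bnd (Nat.beq a.eb c.eb) <|
  bnd (ieq a.dx c.dx) (ieq a.dF c.dF)

/-- The same for the edges. -/
def sdE (H₃ H₄ k : ℕ) (f g : ES) : Bool :=
  bnd (bor (Nat.beq k H₄) (Nat.beq f.lf g.lf)) (bor (Nat.beq k H₃) (Nat.beq f.rt g.rt))

/-- The conditions at the two tips before the saddle. -/
def sdT (L R H₁ H₂ H₃ H₄ : ℕ) (E : ED) (A : SD) : Bool :=
  bnd (Nat.beq (A.v L).ty 1) <| bnd (Nat.beq (A.v R).ty 2) <|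
  bnd (Nat.beq (A.v L).ea H₁) <| bnd (Nat.beq (A.v L).eb H₃) <|
  bnd (Nat.beq (A.v R).ea H₄) <| bnd (Nat.beq (A.v R).eb H₂) <|
  bnd (ieq (A.v L).dx E.v) <| bnd (ieq (A.v R).dx (Int.neg E.v)) <|
  bnd (ieq (A.v L).dF (Int.add (Int.sub E.z E.ζ) (Int.mul (Int.add E.P₁ E.h) E.v))) <|
  ieq (A.v R).dF (Int.sub (Int.add E.z E.ζ) (Int.mul (Int.add E.P₂ E.h) E.v))

/-- The conditions at the two passes. -/
def sdP (L R H₁ H₂ H₃ H₄ : ℕ) (E : ED) (C : SD) : Bool :=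
  bnd (Nat.beq (C.v L).ty 0) <| bnd (Nat.beq (C.v R).ty 0) <|
  bnd (Nat.beq (C.v L).ea H₁) <| bnd (Nat.beq (C.v L).eb H₄) <|
  bnd (Nat.beq (C.v R).ea H₃) <| bnd (Nat.beq (C.v R).eb H₂) <|
  bnd (ieq (C.v L).w E.r) <| bnd (ieq (C.v R).w E.r) <|
  bnd (ieq (C.v L).x E.x) <| bnd (ieq (C.v R).x E.x) <|
  bnd (ieq (C.v L).dx 0) <| bnd (ieq (C.v R).dx 0) <|
  bnd (ieq (C.v L).dF (Int.sub E.z E.ζ)) <| bnd (ieq (C.v R).dF (Int.add E.z E.ζ)) <|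
  bnd (ieq (Int.add (C.v L).F (Int.mul 2 (C.v L).dF)) E.F) <|
  bnd (ieq (Int.add (C.v R).F (Int.mul 2 (C.v R).dF)) E.F) <|
  bnd (ieq (C.e H₁).p (Int.add E.P₁ E.h)) <| bnd (ieq (C.e H₃).p (Int.sub E.P₁ E.h)) <|
  bnd (ieq (C.e H₂).p (Int.add E.P₂ E.h)) <| bnd (ieq (C.e H₄).p (Int.sub E.P₂ E.h)) <|
  bnd (ieq (C.e H₁).dp 0) <| bnd (ieq (C.e H₂).dp 0) <| bnd (ieq (C.e H₃).dp 0) <|
  ieq (C.e H₄).dp 0

/-- The lengths of the four edges. -/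
def sdL (H₁ H₂ H₃ H₄ : ℕ) (E : ED) (C : SD) : Bool :=
  bnd (ilt (C.e H₁).il (Int.sub E.x E.ρ)) <| bnd (ilt (C.e H₃).il (Int.sub E.x E.ρ)) <|
  bnd (ilt (Int.add E.x E.ρ) (C.e H₂).ir) <| ilt (Int.add E.x E.ρ) (C.e H₄).ir

/-- A saddle at the time `s₀`: `A` is the state with the two tips at the time `s₀ - 1`, `C`, `C'`,
`B` are the states with the two passes at the times `s₀ - 2`, `s₀ + 2`, `s₀ + 1`. -/
def sdOK (m n : ℕ) (L R H₁ H₂ H₃ H₄ : ℕ) (E : ED) (A B C C' : SD) : Bool :=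
  bnd E.ok <| bnd (nlt L (Nat.succ n)) <| bnd (nlt R (Nat.succ n)) <| bnd (nne L R) <|
  bnd (nlt H₁ (Nat.succ m)) <| bnd (nlt H₂ (Nat.succ m)) <| bnd (nlt H₃ (Nat.succ m)) <|
  bnd (nlt H₄ (Nat.succ m)) <| bnd (nne H₁ H₂) <| bnd (nne H₁ H₃) <| bnd (nne H₁ H₄) <|
  bnd (nne H₂ H₃) <| bnd (nne H₂ H₄) <| bnd (nne H₃ H₄) <|
  bnd (mvOK 4 C C') <| bnd (mvOK 3 C B) <| bnd (goOK 4 C C') <|
  bnd (all2I (sdV L R) A.vs C.vs 0) <| bnd (all2I (sdE H₃ H₄) A.es C.es 0) <|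
  bnd (sdT L R H₁ H₂ H₃ H₄ E A) <| bnd (sdP L R H₁ H₂ H₃ H₄ E C) <|
  bnd (sdL H₁ H₂ H₃ H₄ E C) <| bnd (sdL H₁ H₂ H₃ H₄ E C') <|
  bnd (all2I (fun k f g => bor (Nat.beq k H₁) <| bor (Nat.beq k H₂) <| bor (Nat.beq k H₃) <|
    bor (Nat.beq k H₄) (bxE E f g)) C.es C'.es 0) <|
  all2I (fun k a b => bor (Nat.beq k L) <| bor (Nat.beq k R) (bxV E a b)) C.vs C'.vs 0

/-- The maximum at the time `s₀`: `A` is the state at the time `s₀ - 1`. -/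
def dtOK (lt rt pa pb H₁ H₂ H₃ H₄ : ℕ) (E : ED) (A : SD) : Bool :=
  bnd E.ok <| bnd (nlt lt 4) <| bnd (nlt rt 4) <| bnd (nlt pa 4) <| bnd (nlt pb 4) <|
  bnd (nlt H₁ 4) <| bnd (nlt H₂ 4) <| bnd (nlt H₃ 4) <| bnd (nlt H₄ 4) <|
  bnd (nne lt rt) <| bnd (nne lt pa) <| bnd (nne lt pb) <| bnd (nne rt pa) <|
  bnd (nne rt pb) <| bnd (nne pa pb) <|
  bnd (nne H₁ H₂) <| bnd (nne H₁ H₃) <| bnd (nne H₁ H₄) <| bnd (nne H₂ H₃) <|
  bnd (nne H₂ H₄) <| bnd (nne H₃ H₄) <|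
  bnd (allL (fun a => bnd (ieq a.w E.r) <| bnd (ieq (Int.add a.x a.dx) E.x)
    (ieq (Int.add a.F a.dF) E.F)) A.vs) <|
  bnd (Nat.beq (A.v lt).ty 2) <| bnd (Nat.beq (A.v rt).ty 1) <|
  bnd (Nat.beq (A.v pa).ty 0) <| bnd (Nat.beq (A.v pb).ty 0) <|
  bnd (Nat.beq (A.v lt).ea H₁) <| bnd (Nat.beq (A.v lt).eb H₃) <|
  bnd (Nat.beq (A.v rt).ea H₄) <| bnd (Nat.beq (A.v rt).eb H₂) <|
  bnd (Nat.beq (A.v pa).ea H₁) <| bnd (Nat.beq (A.v pa).eb H₄) <|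
  bnd (Nat.beq (A.v pb).ea H₃) <| bnd (Nat.beq (A.v pb).eb H₂) <|
  bnd (ieq (A.v lt).dx E.v) <| bnd (ieq (A.v rt).dx (Int.neg E.v)) <|
  bnd (ieq (A.v pa).dx 0) <| bnd (ieq (A.v pb).dx 0) <|
  bnd (ieq (A.v lt).dF (Int.add (Int.sub E.z E.ζ) (Int.mul (Int.add E.P₁ E.h) E.v))) <|
  bnd (ieq (A.v rt).dF (Int.sub (Int.add E.z E.ζ) (Int.mul (Int.add E.P₂ E.h) E.v))) <|
  bnd (ieq (A.v pa).dF (Int.sub E.z E.ζ)) <| ieq (A.v pb).dF (Int.add E.z E.ζ)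

/-! ### the beginning -/

/-- The state `A` is the beginning of a cylinder over a polygon with one component and `n + 1`
vertices; the state `A'` is the state at the time `2`. -/
def bgOK (n : ℕ) (A A' : SD) : Bool :=
  bnd (goOK 1 A A') <|
  bnd (allL (fun a => bnd (ieq a.dx 0) (ieq a.dF a.F)) A.vs) <|
  bnd (allL (fun a => bnd (ieq a.dx 0) (ieq (Int.mul 2 a.dF) a.F)) A'.vs) <|
  bnd (allI (fun k f => bnd
    (bor (bnd (Nat.beq f.lf k) (Nat.beq f.rt (nif (Nat.beq k n) 0 (Nat.succ k))))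
      (bnd (Nat.beq f.rt k) (Nat.beq f.lf (nif (Nat.beq k n) 0 (Nat.succ k)))))
    (ilt (Int.add (Int.mul 3 (Int.sub f.il f.xl)) (Int.mul 3 (Int.sub f.xr f.ir)))
      (Int.sub f.xr f.xl))) A.es 0) <|
  allI (fun k a =>
    bor (bnd (Nat.beq a.ea (nif (Nat.beq k 0) n (Nat.pred k))) (Nat.beq a.eb k))
      (bnd (Nat.beq a.eb (nif (Nat.beq k 0) n (Nat.pred k))) (Nat.beq a.ea k))) A.vs 0

end

end LCA
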