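import Pool.Agent.LCA.Stmts3

/-!
# FEQ: the folded slice
-/

namespace LCA

open Set Filter
open scoped ContDiff Topology

namespace FEQ

variable {m n m' n' : ℕ}

theorem I1l (c : Comb m n) (q : St n) (e : Fin m) :
    q.2 (c.lf e) = c.pe q e * q.1 (c.lf e) + c.ae q e := by
  unfold Comb.ae; ring

theorem I1r (c : Comb m n) (q : St n) (e : Fin m) (h : q.1 (c.lf e) < q.1 (c.rt e)) :
    q.2 (c.rt e) = c.pe q e * q.1 (c.rt e) + c.ae q e := by
  have hne : q.1 (c.rt e) - q.1 (c.lf e) ≠ 0 := sub_ne_zero.2 h.ne'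
  have h1 : c.pe q e * (q.1 (c.rt e) - q.1 (c.lf e)) = q.2 (c.rt e) - q.2 (c.lf e) := by
    unfold Comb.pe; field_simp
  have h2 : c.ae q e = q.2 (c.lf e) - c.pe q e * q.1 (c.lf e) := rfl
  rw [h2]
  linear_combination -h1

theorem I2l (c : Comb m n) (q v : St n) (e : Fin m) :
    v.2 (c.lf e) = c.dpe q v e * q.1 (c.lf e) + c.pe q e * v.1 (c.lf e) + c.dae q v e := by
  unfold Comb.dae; ring

theorem I2r (c : Comb m n) (q v : St n) (e : Fin m) (h : q.1 (c.lf e) < q.1 (c.rt e)) :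
    v.2 (c.rt e) = c.dpe q v e * q.1 (c.rt e) + c.pe q e * v.1 (c.rt e) + c.dae q v e := by
  have hne : q.1 (c.rt e) - q.1 (c.lf e) ≠ 0 := sub_ne_zero.2 h.ne'
  have h1 : c.dpe q v e * (q.1 (c.rt e) - q.1 (c.lf e)) =
      v.2 (c.rt e) - v.2 (c.lf e) - c.pe q e * (v.1 (c.rt e) - v.1 (c.lf e)) := by
    unfold Comb.dpe; field_simp
  have h2 : c.dae q v e = v.2 (c.lf e) - c.dpe q v e * q.1 (c.lf e) - c.pe q e * v.1 (c.lf e) :=
    rfl
  rw [h2]
  linear_combination -h1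

theorem line (c : Comb m n) (q v : St n) (e : Fin m) (p A dp dA : ℝ)
    (h : q.1 (c.lf e) < q.1 (c.rt e))
    (h1 : q.2 (c.lf e) = p * q.1 (c.lf e) + A) (h2 : q.2 (c.rt e) = p * q.1 (c.rt e) + A)
    (h3 : v.2 (c.lf e) = dp * q.1 (c.lf e) + p * v.1 (c.lf e) + dA)
    (h4 : v.2 (c.rt e) = dp * q.1 (c.rt e) + p * v.1 (c.rt e) + dA) :
    c.pe q e = p ∧ c.ae q e = A ∧ c.dpe q v e = dp ∧ c.dae q v e = dA := by
  have hne : q.1 (c.rt e) - q.1 (c.lf e) ≠ 0 := sub_ne_zero.2 h.ne'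
  have e1 : c.pe q e = p := by
    unfold Comb.pe
    rw [div_eq_iff hne, h1, h2]; ring
  have e2 : c.ae q e = A := by
    unfold Comb.ae
    rw [e1, h1]; ring
  have e3 : c.dpe q v e = dp := by
    unfold Comb.dpe
    rw [div_eq_iff hne, h3, h4, e1]; ring
  refine ⟨e1, e2, e3, ?_⟩
  unfold Comb.dae
  rw [e1, e3, h3]; ring

variable {c : Comb m n} {c' : Comb m' n'} {ιE : Fin m → Fin m'} {ιV : Fin n → Fin n'}
  {i : Fin n} {e : Fin m'} {j : Fin n'}

theorem rt_ea (H : FoldComb c c' ιE ιV i e j) : c.rt (c.ea i) = i := by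
  have := H.valid.oka i
  unfold Comb.OKa at this
  rw [H.tyi] at this
  exact this

theorem lf_eb (H : FoldComb c c' ιE ιV i e j) : c.lf (c.eb i) = i := by
  have := H.valid.okb i
  unfold Comb.OKb at this
  rw [H.tyi] at this
  exact this

theorem rt_i (H : FoldComb c c' ιE ιV i e j) {d : Fin m} (h : c.rt d = i) : c.ea i = d := by
  have := H.valid.rt d
  rw [h, H.tyi] at this
  rcases this with h | h
  · exact h.2
  · exact absurd h.1 (by decide)

theorem lf_i (H : FoldComb c c' ιE ιV i e j) {d : Fin m} (h : c.lf d = i) : c.eb i = d := by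
  have := H.valid.lf d
  rw [h, H.tyi] at this
  rcases this with h | h
  · exact absurd h.1 (by decide)
  · exact h.2

theorem valid' (H : FoldComb c c' ιE ιV i e j) : c'.Valid := by
  refine ⟨?_, ?_, ?_, ?_, ?_⟩
  · intro k'
    rcases H.covV k' with rfl | ⟨k, rfl⟩
    · unfold Comb.OKa
      rw [H.tyj, H.eaj]
      exact H.lfe
    · by_cases hk : k = i
      · subst hk
        unfold Comb.OKa
        rw [H.tyi', H.eai]
        show c'.rt (ιE (c.ea k)) = ιV k
        rw [H.rt, rt_ea H]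
      · have ok := H.valid.oka k
        unfold Comb.OKa at ok ⊢
        rw [H.ty k hk, H.ea k hk]
        cases ht : c.ty k with
        | P =>
          rw [ht] at ok
          show c'.rt (ιE (c.ea k)) = ιV k
          have ok' : c.rt (c.ea k) = k := ok
          rw [H.rt, ok']
        | R =>
          rw [ht] at ok
          show c'.rt (ιE (c.ea k)) = ιV k
          have ok' : c.rt (c.ea k) = k := ok
          rw [H.rt, ok']
        | L =>
          rw [ht] at ok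
          show c'.lf (ιE (c.ea k)) = ιV k
          have ok' : c.lf (c.ea k) = k := ok
          have hne : c.ea k ≠ c.eb i := by
            intro h
            apply hk
            rw [← ok', h, lf_eb H]
          rw [H.lf _ hne, ok']
  · intro k'
    rcases H.covV k' with rfl | ⟨k, rfl⟩
    · unfold Comb.OKb
      rw [H.tyj, H.ebj]
      exact H.lf₀
    · by_cases hk : k = i
      · subst hk
        unfold Comb.OKb
        rw [H.tyi', H.ebi]
        exact H.rte
      · have ok := H.valid.okb k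
        unfold Comb.OKb at ok ⊢
        rw [H.ty k hk, H.eb k hk]
        cases ht : c.ty k with
        | P =>
          rw [ht] at ok
          show c'.lf (ιE (c.eb k)) = ιV k
          have ok' : c.lf (c.eb k) = k := ok
          have hne : c.eb k ≠ c.eb i := by
            intro h
            apply hk
            rw [← ok', h, lf_eb H]
          rw [H.lf _ hne, ok']
        | R =>
          rw [ht] at ok
          show c'.rt (ιE (c.eb k)) = ιV k
          have ok' : c.rt (c.eb k) = k := ok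
          rw [H.rt, ok']
        | L =>
          rw [ht] at ok
          show c'.lf (ιE (c.eb k)) = ιV k
          have ok' : c.lf (c.eb k) = k := ok
          have hne : c.eb k ≠ c.eb i := by
            intro h
            apply hk
            rw [← ok', h, lf_eb H]
          rw [H.lf _ hne, ok']
  · intro k'
    rcases H.covV k' with rfl | ⟨k, rfl⟩
    · rw [H.eaj, H.ebj]
      exact (H.newE _).symm
    · by_cases hk : k = i
      · subst hk
        rw [H.eai, H.ebi]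
        exact H.newE _
      · rw [H.ea k hk, H.eb k hk]
        exact fun h => H.valid.ne k (H.injE h)
  · intro d'
    rcases H.covE d' with rfl | ⟨d, rfl⟩
    · right
      rw [H.rte]
      exact ⟨H.tyi', H.ebi⟩
    · rw [H.rt]
      by_cases hk : c.rt d = i
      · left
        rw [hk, H.tyi', H.eai, rt_i H hk]
        exact ⟨by decide, rfl⟩
      · rw [H.ty _ hk, H.ea _ hk, H.eb _ hk]
        rcases H.valid.rt d with h | h
        · left; exact ⟨h.1, by rw [h.2]⟩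
        · right; exact ⟨h.1, by rw [h.2]⟩
  · intro d'
    rcases H.covE d' with rfl | ⟨d, rfl⟩
    · left
      rw [H.lfe]
      exact ⟨H.tyj, H.eaj⟩
    · by_cases hd : d = c.eb i
      · right
        subst hd
        rw [H.lf₀, H.tyj, H.ebj]
        exact ⟨by decide, rfl⟩
      · rw [H.lf _ hd]
        have hk : c.lf d ≠ i := fun h => hd (lf_i H h).symm
        rw [H.ty _ hk, H.ea _ hk, H.eb _ hk]
        rcases H.valid.lf d with h | h
        · left; exact ⟨h.1, by rw [h.2]⟩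
        · right; exact ⟨h.1, by rw [h.2]⟩

variable {w : Fin n → ℝ} {w' : Fin n' → ℝ} {q v : St n} {q' v' : St n'}

theorem lt (hw : ∀ i, 0 < w i) (S : FoldSt c c' ιV i j w w' q v q' v') (d : Fin m) :
    q.1 (c.lf d) < q.1 (c.rt d) := by
  have h1 := S.len d
  have h2 := hw (c.lf d)
  have h3 := hw (c.rt d)
  linarith

theorem Fi (H : FoldComb c c' ιE ιV i e j) (hw : ∀ i, 0 < w i)
    (S : FoldSt c c' ιV i j w w' q v q' v') :
    q.2 i = c.pe q (c.ea i) * q.1 i + c.ae q (c.ea i) := by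
  have := I1r c q (c.ea i) (lt hw S _)
  rwa [rt_ea H] at this

theorem Fi' (H : FoldComb c c' ιE ιV i e j) (q : St n) :
    q.2 i = c.pe q (c.eb i) * q.1 i + c.ae q (c.eb i) := by
  have := I1l c q (c.eb i)
  rwa [lf_eb H] at this

theorem Vi (H : FoldComb c c' ιE ιV i e j) (hw : ∀ i, 0 < w i)
    (S : FoldSt c c' ιV i j w w' q v q' v') :
    v.2 i = c.dpe q v (c.ea i) * q.1 i + c.pe q (c.ea i) * v.1 i + c.dae q v (c.ea i) := by
  have := I2r c q v (c.ea i) (lt hw S _)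
  rwa [rt_ea H] at this

theorem Vi' (H : FoldComb c c' ιE ιV i e j) (q v : St n) :
    v.2 i = c.dpe q v (c.eb i) * q.1 i + c.pe q (c.eb i) * v.1 i + c.dae q v (c.eb i) := by
  have := I2l c q v (c.eb i)
  rwa [lf_eb H] at this

/-- The data at the right end of an old edge. -/
theorem rt_data (H : FoldComb c c' ιE ιV i e j) (hw : ∀ i, 0 < w i)
    (S : FoldSt c c' ιV i j w w' q v q' v') (d : Fin m) :
    q.1 (c.rt d) ≤ q'.1 (c'.rt (ιE d)) ∧
    q.1 (c.rt d) - 2 * w (c.rt d) ≤ q'.1 (c'.rt (ιE d)) - 2 * w' (c'.rt (ιE d)) ∧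
    q'.2 (c'.rt (ιE d)) = c.pe q d * q'.1 (c'.rt (ιE d)) + c.ae q d ∧
    v'.2 (c'.rt (ιE d)) = c.dpe q v d * q'.1 (c'.rt (ιE d)) + c.pe q d * v'.1 (c'.rt (ιE d))
      + c.dae q v d := by
  rw [H.rt]
  by_cases hk : c.rt d = i
  · have hd := rt_i H hk
    subst hd
    rw [hk]
    have hwi := hw i
    refine ⟨?_, ?_, ?_, ?_⟩
    · rw [S.xi]; linarith
    · rw [S.xi, S.wi]; linarith
    · rw [S.xi, S.Fi, Fi H hw S]; ring
    · rw [S.xi, S.vFi, S.vxi, Vi H hw S]; ring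
  · rw [S.qx _ hk, S.qF _ hk, S.vx _ hk, S.vF _ hk, S.hw _ hk]
    exact ⟨le_refl _, le_refl _, I1r c q d (lt hw S d), I2r c q v d (lt hw S d)⟩

/-- The data at the left end of an old edge. -/
theorem lf_data (H : FoldComb c c' ιE ιV i e j) (hw : ∀ i, 0 < w i)
    (S : FoldSt c c' ιV i j w w' q v q' v') (d : Fin m) :
    q'.1 (c'.lf (ιE d)) ≤ q.1 (c.lf d) ∧
    q'.1 (c'.lf (ιE d)) + 2 * w' (c'.lf (ιE d)) ≤ q.1 (c.lf d) + 2 * w (c.lf d) ∧
    q'.2 (c'.lf (ιE d)) = c.pe q d * q'.1 (c'.lf (ιE d)) + c.ae q d ∧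
    v'.2 (c'.lf (ιE d)) = c.dpe q v d * q'.1 (c'.lf (ιE d)) + c.pe q d * v'.1 (c'.lf (ιE d))
      + c.dae q v d := by
  by_cases hd : d = c.eb i
  · subst hd
    rw [H.lf₀, lf_eb H]
    have hwi := hw i
    refine ⟨?_, ?_, ?_, ?_⟩
    · rw [S.xj]; linarith
    · rw [S.xj, S.wj]; linarith
    · rw [S.xj, S.Fj, Fi' H q]; ring
    · rw [S.xj, S.vFj, S.vxj, Vi' H q v]; ring
  · have hk : c.lf d ≠ i := fun h => hd (lf_i H h).symm
    rw [H.lf _ hd, S.qx _ hk, S.qF _ hk, S.vx _ hk, S.vF _ hk, S.hw _ hk]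
    exact ⟨le_refl _, le_refl _, I1l c q d, I2l c q v d⟩

theorem old (H : FoldComb c c' ιE ιV i e j) (hw : ∀ i, 0 < w i)
    (S : FoldSt c c' ιV i j w w' q v q' v') (d : Fin m) :
    c'.pe q' (ιE d) = c.pe q d ∧ c'.ae q' (ιE d) = c.ae q d ∧
      c'.dpe q' v' (ιE d) = c.dpe q v d ∧ c'.dae q' v' (ιE d) = c.dae q v d := by
  obtain ⟨a1, -, a3, a4⟩ := rt_data H hw S d
  obtain ⟨b1, -, b3, b4⟩ := lf_data H hw S d
  exact line c' q' v' (ιE d) _ _ _ _ (by have := lt hw S d; linarith) b3 a3 b4 a4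

theorem new (H : FoldComb c c' ιE ιV i e j) (hw : ∀ i, 0 < w i)
    (S : FoldSt c c' ιV i j w w' q v q' v') :
    c'.pe q' e = c.pe q (c.ea i) + c.dl q i / 2 ∧
      c'.ae q' e = c.ae q (c.ea i) - c.dl q i / 2 * (q.1 i + w i / 2) ∧
      c'.dpe q' v' e = c.dpe q v (c.ea i) + (c.dpe q v (c.eb i) - c.dpe q v (c.ea i)) / 2 ∧
      c'.dae q' v' e = c.dae q v (c.ea i)
        - (c.dpe q v (c.eb i) - c.dpe q v (c.ea i)) / 2 * (q.1 i + w i / 2)
        - c.dl q i / 2 * v.1 i := by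
  have hwi := hw i
  have f1 := Fi H hw S
  have f3 := Vi H hw S
  apply line c' q' v' e
  · rw [H.lfe, H.rte, S.xi, S.xj]; linarith
  · rw [H.lfe, S.xj, S.Fj, f1]
    unfold Comb.dl
    ring
  · rw [H.rte, S.xi, S.Fi, f1]
    unfold Comb.dl
    ring
  · rw [H.lfe, S.xj, S.vFj, S.vxj, f3]
    unfold Comb.dl
    ring
  · rw [H.rte, S.xi, S.vFi, S.vxi, f3]
    unfold Comb.dl
    ring

theorem old_ept (H : FoldComb c c' ιE ιV i e j) (hw : ∀ i, 0 < w i)
    (S : FoldSt c c' ιV i j w w' q v q' v') (d : Fin m) (x : ℝ) :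
    c'.ept q' v' (ιE d) x = c.ept q v d x := by
  obtain ⟨h1, h2, h3, h4⟩ := old H hw S d
  unfold Comb.ept
  rw [h1, h2, h3, h4]

theorem old_vpt (H : FoldComb c c' ιE ιV i e j) (hw : ∀ i, 0 < w i)
    (S : FoldSt c c' ιV i j w w' q v q' v') {k : Fin n} (hk : k ≠ i) (W X P Θ Y : ℝ) :
    c'.vpt q' v' (ιV k) W X P Θ Y = c.vpt q v k W X P Θ Y := by
  obtain ⟨h1, h2, h3, h4⟩ := old H hw S (c.ea k)
  obtain ⟨g1, g2, g3, g4⟩ := old H hw S (c.eb k)
  unfold Comb.vpt Comb.dl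
  rw [H.ea k hk, H.eb k hk, h1, h2, h3, h4, g1, g3, S.qx k hk, S.vx k hk]

theorem I3 (H : FoldComb c c' ιE ιV i e j) (hw : ∀ i, 0 < w i)
    (S : FoldSt c c' ιV i j w w' q v q' v') :
    c.ae q (c.eb i) = c.ae q (c.ea i) - c.dl q i * q.1 i ∧
    c.dae q v (c.eb i) = c.dae q v (c.ea i)
      - (c.dpe q v (c.eb i) - c.dpe q v (c.ea i)) * q.1 i - c.dl q i * v.1 i := by
  have f1 := Fi H hw S
  have f2 := Fi' H q
  have f3 := Vi H hw S
  have f4 := Vi' H q v
  unfold Comb.dl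
  constructor
  · linear_combination f1 - f2
  · linear_combination f3 - f4

theorem part1 (x : ℝ) :
    c.vpt q v i (w i) x 0 0 0 = c.ept q v (c.ea i) (q.1 i + w i * x) := by
  unfold Comb.vpt Comb.ept
  simp only [Prod.mk.injEq]
  refine ⟨trivial, ?_, ?_, ?_⟩ <;> ring

theorem part5 (H : FoldComb c c' ιE ιV i e j) (hw : ∀ i, 0 < w i)
    (S : FoldSt c c' ιV i j w w' q v q' v') (x : ℝ) :
    c.vpt q v i (w i) x 1 x 0 = c.ept q v (c.eb i) (q.1 i + w i * x) := by
  obtain ⟨h1, h2⟩ := I3 H hw S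
  unfold Comb.vpt Comb.ept
  rw [h1, h2]
  unfold Comb.dl
  simp only [Prod.mk.injEq]
  refine ⟨trivial, ?_, ?_, ?_⟩ <;> ring

theorem part3 (H : FoldComb c c' ιE ιV i e j) (hw : ∀ i, 0 < w i)
    (S : FoldSt c c' ιV i j w w' q v q' v') (x : ℝ) :
    c.vpt q v i (w i) x (1 / 2) ((x - 1 / 2) / 2) 0 = c'.ept q' v' e (q.1 i + w i * x) := by
  obtain ⟨h1, h2, h3, h4⟩ := new H hw S
  unfold Comb.vpt Comb.ept
  rw [h1, h2, h3, h4]
  simp only [Prod.mk.injEq]
  refine ⟨trivial, ?_, ?_, ?_⟩ <;> ring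

theorem part2 (H : FoldComb c c' ιE ιV i e j) (hw : ∀ i, 0 < w i)
    (S : FoldSt c c' ιV i j w w' q v q' v') (sh : Shape) (u : ℝ) :
    c.vpt q v i (w i) (1 / 2 + sh.ξ u / 8) (sh.τ u / 2) (sh.ΘR u / 16) 0
      = c'.vp w' (c'.sp sh) 0 q' v' (ιV i) u := by
  have e1 : c'.vp w' (c'.sp sh) 0 q' v' (ιV i) u
      = c'.vpt q' v' (ιV i) (w i / 8) (sh.ξ u) (sh.τ u) (sh.ΘR u) 0 := by
    unfold Comb.vp Comb.sp
    rw [H.tyi', S.wi]
    rfl
  obtain ⟨h1, h2, h3, h4⟩ := new H hw S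
  obtain ⟨g1, g2, g3, g4⟩ := old H hw S (c.ea i)
  rw [e1]
  unfold Comb.vpt
  have hdl : c'.dl q' (ιV i) = c.dl q i / 2 := by
    have : c'.dl q' (ιV i) = c'.pe q' (c'.eb (ιV i)) - c'.pe q' (c'.ea (ιV i)) := rfl
    rw [this, H.eai, H.ebi, g1, h1]; ring
  rw [hdl, H.eai, H.ebi, g1, g2, g3, g4, h3, S.xi, S.vxi]
  simp only [Prod.mk.injEq]
  refine ⟨?_, ?_, ?_, ?_⟩ <;> ring

theorem part4 (H : FoldComb c c' ιE ιV i e j) (hw : ∀ i, 0 < w i)
    (S : FoldSt c c' ιV i j w w' q v q' v') (sh : Shape) (u x : ℝ)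
    (hx : x = -(1 / 2) - sh.ξ u / 8) :
    c.vpt q v i (w i) x (1 / 2 + sh.τ u / 2) ((x - 1 / 2) / 2 - sh.ΘR u / 16) 0
      = c'.vp w' (c'.sp sh) 0 q' v' j u := by
  have e1 : c'.vp w' (c'.sp sh) 0 q' v' j u
      = c'.vpt q' v' j (w i / 8) (-sh.ξ u) (sh.τ u) (-sh.ΘR u) 0 := by
    unfold Comb.vp Comb.sp
    rw [H.tyj, S.wj]
    rfl
  obtain ⟨h1, h2, h3, h4⟩ := new H hw S
  obtain ⟨g1, g2, g3, g4⟩ := old H hw S (c.eb i)
  rw [e1, hx]
  unfold Comb.vpt
  have hdl : c'.dl q' j = c.dl q i / 2 := by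
    have : c'.dl q' j = c'.pe q' (c'.eb j) - c'.pe q' (c'.ea j) := rfl
    rw [this, H.eaj, H.ebj, g1, h1]
    unfold Comb.dl
    ring
  rw [hdl, H.eaj, H.ebj, g3, h1, h2, h3, h4, S.xj, S.vxj]
  simp only [Prod.mk.injEq]
  refine ⟨?_, ?_, ?_, ?_⟩ <;> ring

theorem rg_old (H : FoldComb c c' ιE ιV i e j) (hw : ∀ i, 0 < w i)
    (S : FoldSt c c' ιV i j w w' q v q' v') (d : Fin m) : c.rg w q d ⊆ c'.rg w' q' (ιE d) := by
  intro x hx
  obtain ⟨-, a2, -, -⟩ := rt_data H hw S d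
  obtain ⟨-, b2, -, -⟩ := lf_data H hw S d
  exact ⟨b2.trans hx.1, hx.2.trans a2⟩

/-- The new range of the edge `ea i`. -/
theorem rg_ea (H : FoldComb c c' ιE ιV i e j)
    (S : FoldSt c c' ιV i j w w' q v q' v') (x : ℝ) : x ∈ c'.rg w' q' (ιE (c.ea i)) ↔
      q.1 (c.lf (c.ea i)) + 2 * w (c.lf (c.ea i)) ≤ x ∧ x ≤ q.1 i + w i / 4 := by
  have hab : c.ea i ≠ c.eb i := H.valid.ne i
  have hk : c.lf (c.ea i) ≠ i := fun h => hab (lf_i H h).symm
  unfold Comb.rg
  rw [H.lf _ hab, H.rt, rt_ea H, S.qx _ hk, S.hw _ hk, S.xi, S.wi, mem_Icc]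
  constructor
  · rintro ⟨h1, h2⟩; exact ⟨h1, by linarith⟩
  · rintro ⟨h1, h2⟩; exact ⟨h1, by linarith⟩

/-- The new range of the edge `eb i`. -/
theorem rg_eb (H : FoldComb c c' ιE ιV i e j)
    (S : FoldSt c c' ιV i j w w' q v q' v') (x : ℝ) : x ∈ c'.rg w' q' (ιE (c.eb i)) ↔
      q.1 i - w i / 4 ≤ x ∧ x ≤ q.1 (c.rt (c.eb i)) - 2 * w (c.rt (c.eb i)) := by
  have hab : c.ea i ≠ c.eb i := H.valid.ne i
  have hk : c.rt (c.eb i) ≠ i := fun h => hab (rt_i H h)
  unfold Comb.rg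
  rw [H.lf₀, H.rt, S.qx _ hk, S.hw _ hk, S.xj, S.wj, mem_Icc]
  constructor
  · rintro ⟨h1, h2⟩; exact ⟨by linarith, h2⟩
  · rintro ⟨h1, h2⟩; exact ⟨by linarith, h2⟩

/-- The range of the new edge. -/
theorem rg_new (H : FoldComb c c' ιE ιV i e j)
    (S : FoldSt c c' ιV i j w w' q v q' v') (x : ℝ) : x ∈ c'.rg w' q' e ↔
      q.1 i - w i / 4 ≤ x ∧ x ≤ q.1 i + w i / 4 := by
  unfold Comb.rg
  rw [H.lfe, H.rte, S.xj, S.wj, S.xi, S.wi, mem_Icc]
  constructor
  · rintro ⟨h1, h2⟩; exact ⟨by linarith, by linarith⟩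
  · rintro ⟨h1, h2⟩; exact ⟨by linarith, by linarith⟩

/-- The range of the other old edges does not change. -/
theorem rg_other (H : FoldComb c c' ιE ιV i e j)
    (S : FoldSt c c' ιV i j w w' q v q' v') {d : Fin m} (h1 : d ≠ c.ea i) (h2 : d ≠ c.eb i) :
    c'.rg w' q' (ιE d) = c.rg w q d := by
  have k1 : c.rt d ≠ i := fun h => h1 (rt_i H h).symm
  have k2 : c.lf d ≠ i := fun h => h2 (lf_i H h).symm
  unfold Comb.rg
  rw [H.lf _ h2, H.rt, S.qx _ k1, S.qx _ k2, S.hw _ k1, S.hw _ k2]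

theorem fold_mem (H : FoldComb c c' ιE ιV i e j) (hw : ∀ i, 0 < w i)
    (S : FoldSt c c' ιV i j w w' q v q' v') (sh : Shape) {x p θ : ℝ} (h : FoldSet sh x p θ) :
    c.vpt q v i (w i) x p θ 0 ∈ c'.slice w' (c'.sp sh) 0 q' v' := by
  have hwi := hw i
  rcases h with ⟨h1, h2, rfl, rfl⟩ | ⟨u, hu, rfl, rfl, rfl⟩ | ⟨h1, h2, rfl, rfl⟩ |
    ⟨u, hu, hx, rfl, rfl⟩ | ⟨h1, h2, rfl, rfl⟩
  · left
    refine ⟨ιE (c.ea i), q.1 i + w i * x, (rg_ea H S _).2 ⟨?_, ?_⟩, ?_⟩
    · have := S.len (c.ea i)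
      rw [rt_ea H] at this
      nlinarith
    · nlinarith
    · rw [part1, old_ept H hw S]
  · right
    exact ⟨ιV i, u, hu, part2 H hw S sh u⟩
  · left
    refine ⟨e, q.1 i + w i * x, (rg_new H S _).2 ⟨?_, ?_⟩, part3 H hw S x⟩
    · nlinarith
    · nlinarith
  · right
    exact ⟨j, u, hu, part4 H hw S sh u x hx⟩
  · left
    refine ⟨ιE (c.eb i), q.1 i + w i * θ, (rg_eb H S _).2 ⟨?_, ?_⟩, ?_⟩
    · nlinarith
    · have := S.len (c.eb i)
      rw [lf_eb H] at this
      nlinarith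
    · rw [part5 H hw S, old_ept H hw S]

end FEQ

theorem t_FEQ (hVLN : Stmt_VLN) : Stmt_FEQ := by
  intro m n m' n' sh c c' ιE ιV i e j w w' q v q' v' π s H hw S hπ hs hY hst
  refine ⟨FEQ.valid' H, ?_⟩
  have hwi := hw i
  have hvp : ∀ u, c.vp w π s q v i u =
      c.vpt q v i (w i) ((π i).X 1 u) ((π i).P 1 u) ((π i).Θ 1 u) 0 := by
    intro u
    obtain ⟨c1, c2, c3⟩ := hπ.const s hs u
    unfold Comb.vp
    rw [c1, c2, c3, hY]
  have hback : ∀ x p θ, FoldSet sh x p θ → c.vpt q v i (w i) x p θ 0 ∈ c.slice w π s q v := by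
    intro x p θ h
    obtain ⟨u, hu, rfl, rfl, rfl⟩ := (hπ.late x p θ).2 h
    right
    exact ⟨i, u, hu, (hvp u).symm⟩
  have hother : ∀ k, k ≠ i → ∀ u, c.vp w π s q v k u = c'.vp w' (c'.sp sh) 0 q' v' (ιV k) u := by
    intro k hk u
    unfold Comb.vp Comb.sp
    rw [hst k hk, H.ty k hk, S.hw k hk, FEQ.old_vpt H hw S hk]
    cases c.ty k <;> rfl
  ext r
  constructor
  · rintro (⟨d, x, hx, rfl⟩ | ⟨k, u, hu, rfl⟩)
    · left
      exact ⟨ιE d, x, FEQ.rg_old H hw S d hx, (FEQ.old_ept H hw S d x).symm⟩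
    · by_cases hk : k = i
      · rw [hk, hvp]
        exact FEQ.fold_mem H hw S sh ((hπ.late _ _ _).1 ⟨u, hu, rfl, rfl, rfl⟩)
      · right
        exact ⟨ιV k, u, hu, hother k hk u⟩
  · rintro (⟨d', x, hx, rfl⟩ | ⟨k', u, hu, rfl⟩)
    · rcases H.covE d' with rfl | ⟨d, rfl⟩
      · rw [FEQ.rg_new H S] at hx
        have hxx : q.1 i + w i * ((x - q.1 i) / w i) = x := by
          field_simp
          ring
        have := FEQ.part3 H hw S ((x - q.1 i) / w i)
        rw [hxx] at this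
        rw [← this]
        apply hback
        right; right; left
        refine ⟨?_, ?_, rfl, rfl⟩
        · rw [le_div_iff₀ hwi]; linarith
        · rw [div_le_iff₀ hwi]; linarith
      · rw [FEQ.old_ept H hw S]
        by_cases h1 : d = c.ea i
        · subst h1
          rw [FEQ.rg_ea H S] at hx
          rcases le_or_gt x (q.1 i - 2 * w i) with hc | hc
          · left
            refine ⟨c.ea i, x, ⟨hx.1, ?_⟩, rfl⟩
            rw [FEQ.rt_ea H]
            exact hc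
          · have hxx : q.1 i + w i * ((x - q.1 i) / w i) = x := by
              field_simp
              ring
            have := FEQ.part1 (c := c) (q := q) (v := v) (w := w) (i := i) ((x - q.1 i) / w i)
            rw [hxx] at this
            rw [← this]
            apply hback
            left
            refine ⟨?_, ?_, rfl, rfl⟩
            · rw [le_div_iff₀ hwi]; linarith
            · rw [div_le_iff₀ hwi]; linarith
        · by_cases h2 : d = c.eb i
          · subst h2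
            rw [FEQ.rg_eb H S] at hx
            rcases le_or_gt (q.1 i + 2 * w i) x with hc | hc
            · left
              refine ⟨c.eb i, x, ⟨?_, hx.2⟩, rfl⟩
              rw [FEQ.lf_eb H]
              exact hc
            · have hxx : q.1 i + w i * ((x - q.1 i) / w i) = x := by
                field_simp
                ring
              have := FEQ.part5 H hw S ((x - q.1 i) / w i)
              rw [hxx] at this
              rw [← this]
              apply hback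
              right; right; right; right
              refine ⟨?_, ?_, rfl, rfl⟩
              · rw [le_div_iff₀ hwi]; linarith
              · rw [div_le_iff₀ hwi]; linarith
          · rw [FEQ.rg_other H S h1 h2] at hx
            left
            exact ⟨d, x, hx, rfl⟩
    · rcases H.covV k' with rfl | ⟨k, rfl⟩
      · rw [← FEQ.part4 H hw S sh u _ rfl]
        apply hback
        right; right; right; left
        exact ⟨u, hu, rfl, rfl, rfl⟩
      · by_cases hk : k = i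
        · subst hk
          rw [← FEQ.part2 H hw S sh u]
          apply hback
          right; left
          exact ⟨u, hu, rfl, rfl, rfl⟩
        · rw [← hother k hk u]
          right
          exact ⟨k, u, hu, rfl⟩

end LCA
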