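import Pool.Agent.LCA.Stmts1

/-!
# LFI: left inverses of exact charts
-/

namespace LCA

open Set Filter
open scoped ContDiff Topology

namespace LFI

/-- The projection to `(s, x, p, z)` as a continuous linear map. -/
noncomputable def P : E5 →L[ℝ] ℝ × ℝ × ℝ × ℝ :=
  (ContinuousLinearMap.fst ℝ ℝ (ℝ × ℝ × ℝ × ℝ)).prod
    (((ContinuousLinearMap.fst ℝ ℝ (ℝ × ℝ × ℝ)).comp
        (ContinuousLinearMap.snd ℝ ℝ (ℝ × ℝ × ℝ × ℝ))).prod
      (((ContinuousLinearMap.fst ℝ ℝ (ℝ × ℝ)).comp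
          ((ContinuousLinearMap.snd ℝ ℝ (ℝ × ℝ × ℝ)).comp
            (ContinuousLinearMap.snd ℝ ℝ (ℝ × ℝ × ℝ × ℝ)))).prod
        ((ContinuousLinearMap.fst ℝ ℝ ℝ).comp
          ((ContinuousLinearMap.snd ℝ ℝ (ℝ × ℝ)).comp
            ((ContinuousLinearMap.snd ℝ ℝ (ℝ × ℝ × ℝ)).comp
              (ContinuousLinearMap.snd ℝ ℝ (ℝ × ℝ × ℝ × ℝ)))))))

theorem P_apply (q : E5) : P q = (q.1, q.2.1, q.2.2.1, q.2.2.2.1) := rfl

end LFI

open LFI in
theorem t_LFI : Stmt_LFI := by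
  intro f a hf
  have hsm : ContDiffAt ℝ ∞ f a := hf.smooth.self_of_nhds
  have hfd : HasFDerivAt f (fderiv ℝ f a) a :=
    (hsm.differentiableAt (by simp)).hasFDerivAt
  set D : ℝ × ℝ →L[ℝ] ℝ × ℝ × ℝ × ℝ := P.comp (fderiv ℝ f a) with hD
  have hker : LinearMap.ker D.toLinearMap = ⊥ := by
    rw [LinearMap.ker_eq_bot']
    intro w hw
    have h0 : P (fderiv ℝ f a w) = 0 := hw
    rw [P_apply] at h0
    have h1 := congrArg Prod.fst h0
    have h2 := congrArg (fun r => r.2.1) h0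
    have h3 := congrArg (fun r => r.2.2.1) h0
    have h4 := congrArg (fun r => r.2.2.2) h0
    exact hf.immersion w h1 h2 h3 h4
  obtain ⟨l₀, hl₀⟩ := D.toLinearMap.exists_leftInverse_of_injective hker
  set l : ℝ × ℝ × ℝ × ℝ →L[ℝ] ℝ × ℝ := LinearMap.toContinuousLinearMap l₀ with hl
  have hlD : l.comp D = ContinuousLinearMap.id ℝ (ℝ × ℝ) := by
    refine ContinuousLinearMap.ext fun w => ?_
    have := LinearMap.congr_fun hl₀ w
    exact this
  set k : ℝ × ℝ → ℝ × ℝ := fun b => l (P (f b)) with hk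
  have hks : ∀ b, ContDiffAt ℝ ∞ f b → ContDiffAt ℝ ∞ k b := fun b hb =>
    (l.contDiff.contDiffAt).comp b ((P.contDiff.contDiffAt).comp b hb)
  have hka : ContDiffAt ℝ ∞ k a := hks a hsm
  have hkd : HasFDerivAt k (ContinuousLinearEquiv.refl ℝ (ℝ × ℝ) : ℝ × ℝ →L[ℝ] ℝ × ℝ) a := by
    have h1 : HasFDerivAt k (l.comp (P.comp (fderiv ℝ f a))) a :=
      (l.hasFDerivAt).comp a ((P.hasFDerivAt).comp a hfd)
    have h2 : l.comp (P.comp (fderiv ℝ f a)) =
        (ContinuousLinearEquiv.refl ℝ (ℝ × ℝ) : ℝ × ℝ →L[ℝ] ℝ × ℝ) := by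
      rw [← hD, hlD]
      rfl
    rwa [h2] at h1
  set E := hka.toOpenPartialHomeomorph k hkd (by simp) with hE
  have hEk : ∀ b, E b = k b := fun b => by rw [hE, ContDiffAt.toOpenPartialHomeomorph_coe]
  have haE : a ∈ E.source := ContDiffAt.mem_toOpenPartialHomeomorph_source hka hkd (by simp)
  have hcont : ContinuousAt (fderiv ℝ k) a :=
    (hka.fderiv_right (m := 0) (by simp)).continuousAt
  have hinv : ∀ᶠ b in 𝓝 a, fderiv ℝ k b ∈
      range ((↑) : ((ℝ × ℝ) ≃L[ℝ] (ℝ × ℝ)) → (ℝ × ℝ →L[ℝ] ℝ × ℝ)) := by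
    apply hcont.eventually_mem
    rw [hkd.fderiv]
    exact ContinuousLinearEquiv.nhds _
  obtain ⟨N, hN, hNo, haN⟩ := eventually_nhds_iff.1 (hf.smooth.and hinv)
  refine ⟨fun v => E.symm (l v), N ∩ E.source, (fun v => l v) ⁻¹' (E '' (N ∩ E.source)),
    hNo.inter E.open_source, ⟨haN, haE⟩,
    (E.isOpen_image_of_subset_source (hNo.inter E.open_source) inter_subset_right).preimage
      l.continuous, ⟨a, ⟨haN, haE⟩, hEk a⟩,
    fun b hb => (hN b hb.1).1.contDiffWithinAt, ?_, fun b hb => ⟨⟨b, hb, hEk b⟩, ?_⟩⟩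
  · rintro v ⟨b, hb, hbv⟩
    have hsymm : E.symm (l v) = b := by
      have h1 : E.symm (E b) = b := E.left_inv hb.2
      rw [← h1]
      exact congrArg E.symm hbv.symm
    obtain ⟨⟨hb1, ⟨e, he⟩⟩, hb2⟩ := And.intro (hN b hb.1) hb.2
    have hkb : ContDiffAt ℝ ∞ k b := hks b hb1
    have hkdb : HasFDerivAt k (e : ℝ × ℝ →L[ℝ] ℝ × ℝ) b := by
      rw [he]
      exact (hkb.differentiableAt (by simp)).hasFDerivAt
    have hEfun : (E : ℝ × ℝ → ℝ × ℝ) = k := funext hEk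
    have hlv : l v ∈ E.target := by
      have h1 : E b ∈ E.target := E.map_source hb.2
      have h2 : E b = l v := hbv
      rwa [h2] at h1
    have h5 : ContDiffAt ℝ ∞ E.symm (l v) := by
      apply E.contDiffAt_symm hlv (f₀' := e)
      · rw [hsymm, hEfun]
        exact hkdb
      · rw [hsymm, hEfun]
        exact hkb
    exact (h5.comp v l.contDiff.contDiffAt).contDiffWithinAt
  · have h1 : E.symm (E b) = b := E.left_inv hb.2
    have h2 : E b = l (P (f b)) := hEk b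
    have h3 : E.symm (l (P (f b))) = b := by rw [← h2, h1]
    exact h3

end LCA
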