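import Pool.Agent.LCA.Stmts5

/-!
# MVR: simple relations between two states
-/

namespace LCA

open Set Filter
open scoped ContDiff Topology

namespace MVR

/-- The combinatorics are equal if the data of all edges and vertices are equal. -/
theorem cb_eq {m n : ℕ} {A B : SD}
    (hE : ∀ i, i < m + 1 → (A.e i).lf = (B.e i).lf ∧ (A.e i).rt = (B.e i).rt)
    (hV : ∀ i, i < n + 1 → (A.v i).ty = (B.v i).ty ∧ (A.v i).ea = (B.v i).ea ∧
      (A.v i).eb = (B.v i).eb) : A.cb m n = B.cb m n := by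
  unfold SD.cb
  rw [Comb.mk.injEq]
  refine ⟨?_, ?_, ?_, ?_, ?_⟩
  · funext e
    rw [(hE e e.2).1]
  · funext e
    rw [(hE e e.2).2]
  · funext i
    rw [(hV i i.2).1]
  · funext i
    rw [(hV i i.2).2.1]
  · funext i
    rw [(hV i i.2).2.2]

/-- The list of the edges. -/
theorem edges (hCBL : Stmt_CBL) {m n : ℕ} {A B : SD} (fA : A.Facts m n) (fB : B.Facts m n)
    (h : all2 smE A.es B.es = true) :
    ∀ i, i < m + 1 → (A.e i).lf = (B.e i).lf ∧ (A.e i).rt = (B.e i).rt := by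
  obtain ⟨hb, ho, hl, he, -, -, -, -, -, h2, -, -⟩ := hCBL
  intro i hi
  have h1 := (h2 ES ES es0 es0 smE A.es B.es).mp h i (by rw [fA.lenE]; exact hi)
    (by rw [fB.lenE]; exact hi)
  unfold smE at h1
  rw [hb] at h1
  exact ⟨Nat.eq_of_beq_eq_true h1.1, Nat.eq_of_beq_eq_true h1.2⟩

/-- The list of the vertices. -/
theorem verts (hCBL : Stmt_CBL) {m n : ℕ} {A B : SD} (fA : A.Facts m n) (fB : B.Facts m n)
    {p : VS → VS → Bool} (h : all2 p A.vs B.vs = true) :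
    ∀ i, i < n + 1 → p (A.v i) (B.v i) = true := by
  obtain ⟨hb, ho, hl, he, -, -, -, -, -, h2, -, -⟩ := hCBL
  intro i hi
  exact (h2 VS VS vs0 vs0 p A.vs B.vs).mp h i (by rw [fA.lenV]; exact hi)
    (by rw [fB.lenV]; exact hi)

end MVR

theorem t_MVR (hCBL : Stmt_CBL) (hCB2 : Stmt_CB2) : Stmt_MVR := by
  intro m n A B fA fB
  have hCBL' := hCBL
  obtain ⟨hb, ho, hl, he, -, -, -, -, -, h2, h2I, -⟩ := hCBL'
  obtain ⟨hnl, hnn, -, hbn, -⟩ := hCB2
  refine ⟨?_, ?_, ?_, ?_⟩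
  · intro T h
    unfold mvOK at h
    rw [hb] at h
    have hE := MVR.edges hCBL fA fB h.2
    have hV : ∀ i, i < n + 1 → (A.v i).ty = (B.v i).ty ∧ (A.v i).ea = (B.v i).ea ∧
        (A.v i).eb = (B.v i).eb ∧ (A.v i).w = (B.v i).w ∧ (A.v i).dx = (B.v i).dx ∧
        (A.v i).dF = (B.v i).dF ∧ (B.v i).x = (A.v i).x + T * (B.v i).dx ∧
        (B.v i).F = (A.v i).F + T * (B.v i).dF := by
      intro i hi
      have h1 := MVR.verts hCBL fA fB h.1 i hi
      unfold mvV at h1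
      rw [hb, hb, hb, hb, hb, hb, hb, he, he, he, he, he] at h1
      obtain ⟨a1, a2, a3, a4, a5, a6, a7, a8⟩ := h1
      exact ⟨Nat.eq_of_beq_eq_true a1, Nat.eq_of_beq_eq_true a2, Nat.eq_of_beq_eq_true a3, a4, a5,
        a6, a7, a8⟩
    refine ⟨MVR.cb_eq hE (fun i hi => ⟨(hV i hi).1, (hV i hi).2.1, (hV i hi).2.2.1⟩), ?_, ?_, ?_⟩
    · funext i
      show ((A.v i).w : ℝ) = ((B.v i).w : ℝ)
      rw [(hV i i.2).2.2.2.1]
    · refine Prod.ext ?_ ?_
      · funext i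
        show ((B.v i).dx : ℝ) = ((A.v i).dx : ℝ)
        rw [(hV i i.2).2.2.2.2.1]
      · funext i
        show ((B.v i).dF : ℝ) = ((A.v i).dF : ℝ)
        rw [(hV i i.2).2.2.2.2.2.1]
    · refine Prod.ext ?_ ?_
      · funext i
        show ((B.v i).x : ℝ) = ((A.v i).x : ℝ) + (T : ℝ) * ((A.v i).dx : ℝ)
        rw [(hV i i.2).2.2.2.2.1]
        exact_mod_cast (hV i i.2).2.2.2.2.2.2.1
      · funext i
        show ((B.v i).F : ℝ) = ((A.v i).F : ℝ) + (T : ℝ) * ((A.v i).dF : ℝ)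
        rw [(hV i i.2).2.2.2.2.2.1]
        exact_mod_cast (hV i i.2).2.2.2.2.2.2.2
  · intro h
    unfold ngOK at h
    rw [hb] at h
    have hE := MVR.edges hCBL fA fB h.2
    have hV : ∀ i, i < n + 1 → (A.v i).ty = (B.v i).ty ∧ (A.v i).ea = (B.v i).ea ∧
        (A.v i).eb = (B.v i).eb ∧ (A.v i).w = (B.v i).w ∧ (A.v i).x = (B.v i).x ∧
        (A.v i).F = (B.v i).F ∧ (B.v i).dx = -(A.v i).dx ∧ (B.v i).dF = -(A.v i).dF := by
      intro i hi
      have h1 := MVR.verts hCBL fA fB h.1 i hi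
      unfold ngV at h1
      rw [hb, hb, hb, hb, hb, hb, hb, he, he, he, he, he] at h1
      obtain ⟨a1, a2, a3, a4, a5, a6, a7, a8⟩ := h1
      exact ⟨Nat.eq_of_beq_eq_true a1, Nat.eq_of_beq_eq_true a2, Nat.eq_of_beq_eq_true a3, a4, a5,
        a6, a7, a8⟩
    refine ⟨MVR.cb_eq hE (fun i hi => ⟨(hV i hi).1, (hV i hi).2.1, (hV i hi).2.2.1⟩), ?_, ?_, ?_⟩
    · funext i
      show ((A.v i).w : ℝ) = ((B.v i).w : ℝ)
      rw [(hV i i.2).2.2.2.1]
    · refine Prod.ext ?_ ?_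
      · funext i
        show ((B.v i).dx : ℝ) = -((A.v i).dx : ℝ)
        exact_mod_cast (hV i i.2).2.2.2.2.2.2.1
      · funext i
        show ((B.v i).dF : ℝ) = -((A.v i).dF : ℝ)
        exact_mod_cast (hV i i.2).2.2.2.2.2.2.2
    · refine Prod.ext ?_ ?_
      · funext i
        show ((B.v i).x : ℝ) = ((A.v i).x : ℝ)
        rw [(hV i i.2).2.2.2.2.1]
      · funext i
        show ((B.v i).F : ℝ) = ((A.v i).F : ℝ)
        rw [(hV i i.2).2.2.2.2.2.1]
  · intro h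
    unfold wdOK at h
    rw [hb] at h
    have hE := MVR.edges hCBL fA fB h.2
    have hV : ∀ i, i < n + 1 → (A.v i).ty = (B.v i).ty ∧ (A.v i).ea = (B.v i).ea ∧
        (A.v i).eb = (B.v i).eb ∧ (A.v i).x = (B.v i).x ∧ (A.v i).F = (B.v i).F ∧
        (A.v i).dx = (B.v i).dx ∧ (A.v i).dF = (B.v i).dF ∧ (B.v i).w ≤ (A.v i).w := by
      intro i hi
      have h1 := MVR.verts hCBL fA fB h.1 i hi
      unfold wdV at h1
      rw [hb, hb, hb, hb, hb, hb, hb, he, he, he, he, hbn] at h1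
      obtain ⟨a1, a2, a3, a4, a5, a6, a7, a8⟩ := h1
      refine ⟨Nat.eq_of_beq_eq_true a1, Nat.eq_of_beq_eq_true a2, Nat.eq_of_beq_eq_true a3, a4, a5,
        a6, a7, ?_⟩
      by_contra hlt
      rw [not_le] at hlt
      rw [(hl _ _).mpr hlt] at a8
      exact Bool.noConfusion a8
    refine ⟨MVR.cb_eq hE (fun i hi => ⟨(hV i hi).1, (hV i hi).2.1, (hV i hi).2.2.1⟩), ?_, ?_, ?_⟩
    · intro i
      show ((B.v i).w : ℝ) ≤ ((A.v i).w : ℝ)
      exact_mod_cast (hV i i.2).2.2.2.2.2.2.2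
    · refine Prod.ext ?_ ?_
      · funext i
        show ((B.v i).dx : ℝ) = ((A.v i).dx : ℝ)
        rw [(hV i i.2).2.2.2.2.2.1]
      · funext i
        show ((B.v i).dF : ℝ) = ((A.v i).dF : ℝ)
        rw [(hV i i.2).2.2.2.2.2.2.1]
    · refine Prod.ext ?_ ?_
      · funext i
        show ((B.v i).x : ℝ) = ((A.v i).x : ℝ)
        rw [(hV i i.2).2.2.2.1]
      · funext i
        show ((B.v i).F : ℝ) = ((A.v i).F : ℝ)
        rw [(hV i i.2).2.2.2.2.1]
  · intro i h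
    unfold swOK at h
    rw [hb, hb] at h
    obtain ⟨hi, hv, hes⟩ := h
    rw [hnl] at hi
    have hi' : i < n + 1 := hi
    have hE := MVR.edges hCBL fA fB hes
    have hV : ∀ k, k < n + 1 → (A.v k).ty = (B.v k).ty ∧ (A.v k).w = (B.v k).w ∧
        (A.v k).x = (B.v k).x ∧ (A.v k).F = (B.v k).F ∧
        (A.v k).dx = (B.v k).dx ∧ (A.v k).dF = (B.v k).dF ∧
        ((k = i ∧ (A.v k).ty ≠ 0 ∧ (A.v k).ea = (B.v k).eb ∧ (A.v k).eb = (B.v k).ea) ∨
          (k ≠ i ∧ (A.v k).ea = (B.v k).ea ∧ (A.v k).eb = (B.v k).eb)) := by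
      intro k hk
      have h1 := (h2I VS VS vs0 vs0 (swV i) A.vs B.vs).mp hv k (by rw [fA.lenV]; exact hk)
        (by rw [fB.lenV]; exact hk)
      unfold swV at h1
      rw [hb, hb, hb, hb, hb, hb, ho, hb, hb, hb, hb, hb, he, he, he, he, he, hnn, hnn] at h1
      obtain ⟨a1, a2, a3, a4, a5, a6, a7⟩ := h1
      refine ⟨Nat.eq_of_beq_eq_true a1, a2, a3, a4, a5, a6, ?_⟩
      rcases a7 with a7 | a7
      · exact Or.inl ⟨Nat.eq_of_beq_eq_true a7.1, a7.2.1, Nat.eq_of_beq_eq_true a7.2.2.1,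
          Nat.eq_of_beq_eq_true a7.2.2.2⟩
      · exact Or.inr ⟨a7.1, Nat.eq_of_beq_eq_true a7.2.1, Nat.eq_of_beq_eq_true a7.2.2⟩
    have hiv : ((Fin.ofNat (n + 1) i : Fin (n + 1)) : ℕ) = i := by
      rw [Fin.val_ofNat]
      exact Nat.mod_eq_of_lt hi'
    have hii : (A.v i).ty ≠ 0 ∧ (A.v i).ea = (B.v i).eb ∧ (A.v i).eb = (B.v i).ea := by
      rcases (hV i hi').2.2.2.2.2.2 with h | h
      · exact h.2
      · exact absurd rfl h.1
    refine ⟨⟨fA.valid, ?_, ?_, ?_, ?_, ?_, ?_, ?_, ?_⟩, ?_, ?_, ?_⟩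
    · show tyOf (A.v ((Fin.ofNat (n + 1) i : Fin (n + 1)) : ℕ)).ty ≠ .P
      rw [hiv]
      rcases fA.ty i hi' with h | h | h
      · exact absurd h hii.1
      · rw [h]
        intro h'
        exact Ty.noConfusion h'
      · rw [h]
        intro h'
        exact Ty.noConfusion h'
    · funext e
      show Fin.ofNat (n + 1) (B.e e).lf = Fin.ofNat (n + 1) (A.e e).lf
      rw [(hE e e.2).1]
    · funext e
      show Fin.ofNat (n + 1) (B.e e).rt = Fin.ofNat (n + 1) (A.e e).rt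
      rw [(hE e e.2).2]
    · funext k
      show tyOf (B.v k).ty = tyOf (A.v k).ty
      rw [(hV k k.2).1]
    · show Fin.ofNat (m + 1) (B.v ((Fin.ofNat (n + 1) i : Fin (n + 1)) : ℕ)).ea =
        Fin.ofNat (m + 1) (A.v ((Fin.ofNat (n + 1) i : Fin (n + 1)) : ℕ)).eb
      rw [hiv, hii.2.2]
    · show Fin.ofNat (m + 1) (B.v ((Fin.ofNat (n + 1) i : Fin (n + 1)) : ℕ)).eb =
        Fin.ofNat (m + 1) (A.v ((Fin.ofNat (n + 1) i : Fin (n + 1)) : ℕ)).ea
      rw [hiv, hii.2.1]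
    · intro j hj
      have hj' : (j : ℕ) ≠ i := by
        intro h
        apply hj
        apply Fin.ext
        rw [hiv]
        exact h
      show Fin.ofNat (m + 1) (B.v j).ea = Fin.ofNat (m + 1) (A.v j).ea
      rcases (hV j j.2).2.2.2.2.2.2 with h | h
      · exact absurd h.1 hj'
      · rw [h.2.1]
    · intro j hj
      have hj' : (j : ℕ) ≠ i := by
        intro h
        apply hj
        apply Fin.ext
        rw [hiv]
        exact h
      show Fin.ofNat (m + 1) (B.v j).eb = Fin.ofNat (m + 1) (A.v j).eb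
      rcases (hV j j.2).2.2.2.2.2.2 with h | h
      · exact absurd h.1 hj'
      · rw [h.2.2]
    · funext k
      show ((A.v k).w : ℝ) = ((B.v k).w : ℝ)
      rw [(hV k k.2).2.1]
    · refine Prod.ext ?_ ?_
      · funext k
        show ((B.v k).dx : ℝ) = ((A.v k).dx : ℝ)
        rw [(hV k k.2).2.2.2.2.1]
      · funext k
        show ((B.v k).dF : ℝ) = ((A.v k).dF : ℝ)
        rw [(hV k k.2).2.2.2.2.2.1]
    · refine Prod.ext ?_ ?_
      · funext k
        show ((B.v k).x : ℝ) = ((A.v k).x : ℝ)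
        rw [(hV k k.2).2.2.1]
      · funext k
        show ((B.v k).F : ℝ) = ((A.v k).F : ℝ)
        rw [(hV k k.2).2.2.2.1]

end LCA
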