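import Pool.Agent.LCA.Stmts2

/-!
# Part A: the surface near a saddle is good
-/

set_option autoImplicit false

namespace LCA

open Set Filter
open scoped ContDiff Topology

namespace SDG

variable {m n : ℕ}

/-! ### generalities -/

lemma hasDerivAt_lin (Q V : St n) (t s : ℝ) : HasDerivAt (lin Q V t) V s := by
  have h : HasDerivAt (lin Q V t) ((1 : ℝ) • V) s :=
    (((hasDerivAt_id s).sub_const t).smul_const V).const_add Q
  rwa [one_smul] at h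

lemma deriv_lin (Q V : St n) (t s : ℝ) : deriv (lin Q V t) s = V :=
  (hasDerivAt_lin Q V t s).deriv

lemma contDiff_lin (Q V : St n) (t : ℝ) : ContDiff ℝ ∞ (lin Q V t) :=
  contDiff_const.add ((contDiff_id.sub contDiff_const).smul contDiff_const)

/-- The property `Good` is local in time. -/
lemma good_congr (J : Set ℝ) (hJ : IsOpen J) (A A' : Set E5) (h : Agree J A A')
    (hA : Good J A) : Good J A' := by
  have hnh : ∀ q : E5, q.1 ∈ J → 𝓝[A'] q = 𝓝[A] q := by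
    intro q hq
    rw [nhdsWithin_eq_iff_eventuallyEq]
    have hopen : {r : E5 | r.1 ∈ J} ∈ 𝓝 q := (hJ.preimage continuous_fst).mem_nhds hq
    filter_upwards [hopen] with r hr
    exact propext (h r hr).symm
  refine ⟨?_, ?_, ?_, ?_⟩
  · intro q hq hqJ
    rw [mem_closure_iff_nhdsWithin_neBot, hnh q hqJ, ← mem_closure_iff_nhdsWithin_neBot] at hq
    exact (h q hqJ).1 (hA.closed q hq hqJ)
  · intro K hKJ hK
    obtain ⟨M, hM⟩ := hA.bounded K hKJ hK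
    exact ⟨M, fun q hq hqK => hM q ((h q (hKJ hqK)).2 hq) hqK⟩
  · intro q hq hqJ
    obtain ⟨f, a, hf, hfa, hmem, hN⟩ := hA.chart q ((h q hqJ).2 hq) hqJ
    refine ⟨f, a, hf, hfa, ?_, ?_⟩
    · have hc : ContinuousAt f a := hf.smooth.self_of_nhds.continuousAt
      have hJa : ∀ᶠ b in 𝓝 a, (f b).1 ∈ J := by
        have h1 : ContinuousAt (fun b => (f b).1) a := continuous_fst.continuousAt.comp hc
        apply h1.eventually_mem
        rw [hfa]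
        exact hJ.mem_nhds hqJ
      filter_upwards [hmem, hJa] with b hb hbJ
      exact (h _ hbJ).1 hb
    · intro N hNa
      rw [hnh q hqJ]
      exact hN N hNa
  · intro q hq q' hq' hqJ h1 h2 h3 h4
    exact hA.inj q ((h q hqJ).2 hq) q' ((h q' (h1 ▸ hqJ)).2 hq') hqJ h1 h2 h3 h4

lemma continuous_pr4 : Continuous pr4 := by
  unfold pr4
  fun_prop

/-- The projection of a closed set with bounded slices is closed. -/
lemma closed_image (J : Set ℝ) (hJ : IsOpen J) (A : Set E5)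
    (hcl : ∀ r ∈ closure A, r.1 ∈ J → r ∈ A)
    (hbd : ∀ K ⊆ J, IsCompact K → ∃ M : ℝ, ∀ r ∈ A, r.1 ∈ K → ‖r.2‖ ≤ M)
    (r : ℝ × ℝ × ℝ × ℝ) (hr : r ∈ closure (pr4 '' A)) (hrJ : r.1 ∈ J) : r ∈ pr4 '' A := by
  obtain ⟨δ, hδ, hball⟩ := Metric.isOpen_iff.1 hJ r.1 hrJ
  have hKJ : Metric.closedBall r.1 (δ / 2) ⊆ J :=
    (Metric.closedBall_subset_ball (by linarith)).trans hball
  have hK : IsCompact (Metric.closedBall r.1 (δ / 2)) := isCompact_closedBall _ _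
  obtain ⟨M, hM⟩ := hbd _ hKJ hK
  have hclosed : IsClosed (A ∩ {q : E5 | q.1 ∈ Metric.closedBall r.1 (δ / 2)}) := by
    apply isClosed_of_closure_subset
    intro q hq
    have h1 : q.1 ∈ Metric.closedBall r.1 (δ / 2) := by
      have h2 : q ∈ closure {q : E5 | q.1 ∈ Metric.closedBall r.1 (δ / 2)} :=
        closure_mono inter_subset_right hq
      have h3 : IsClosed {q : E5 | q.1 ∈ Metric.closedBall r.1 (δ / 2)} :=
        hK.isClosed.preimage continuous_fst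
      rwa [h3.closure_eq] at h2
    exact ⟨hcl q (closure_mono inter_subset_left hq) (hKJ h1), h1⟩
  have hcomp : IsCompact (A ∩ {q : E5 | q.1 ∈ Metric.closedBall r.1 (δ / 2)}) := by
    refine (hK.prod (isCompact_closedBall (0 : ℝ × ℝ × ℝ × ℝ) M)).of_isClosed_subset hclosed ?_
    rintro q ⟨hqA, hqK⟩
    refine ⟨hqK, ?_⟩
    rw [mem_closedBall_zero_iff]
    exact hM q hqA hqK
  have himg := (hcomp.image continuous_pr4).isClosed
  have hmem : r ∈ closure (pr4 '' (A ∩ {q : E5 | q.1 ∈ Metric.closedBall r.1 (δ / 2)})) := by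
    rw [mem_closure_iff_nhds] at hr ⊢
    intro t ht
    have h1 : {r' : ℝ × ℝ × ℝ × ℝ | r'.1 ∈ Metric.ball r.1 (δ / 2)} ∈ 𝓝 r :=
      (Metric.isOpen_ball.preimage continuous_fst).mem_nhds (Metric.mem_ball_self (by linarith))
    obtain ⟨y, ⟨hy1, hy2⟩, q, hq, rfl⟩ := hr _ (inter_mem ht h1)
    exact ⟨pr4 q, hy1, q, ⟨hq, Metric.ball_subset_closedBall hy2⟩, rfl⟩
  rw [himg.closure_eq] at hmem
  exact image_mono inter_subset_left hmem

/-! ### the edges and the passes -/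

lemma fst_add_smul (Q V : St n) (t : ℝ) (i : Fin n) : (Q + t • V).1 i = Q.1 i + t * V.1 i := rfl

lemma snd_add_smul (Q V : St n) (t : ℝ) (i : Fin n) : (Q + t • V).2 i = Q.2 i + t * V.2 i := rfl

/-- The data of an edge with constant slope. -/
lemma edge_const (c : Comb m n) (Q V : St n) (e : Fin m) (t : ℝ)
    (h0 : Q.1 (c.lf e) < Q.1 (c.rt e))
    (ht : (Q + t • V).1 (c.lf e) < (Q + t • V).1 (c.rt e)) (hd : c.dpe Q V e = 0)
    (i : Fin n) (hi : i = c.lf e ∨ i = c.rt e) :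
    c.pe (Q + t • V) e = c.pe Q e ∧ c.dpe (Q + t • V) V e = 0 ∧
      c.dae (Q + t • V) V e = V.2 i - c.pe Q e * V.1 i ∧
      c.ae (Q + t • V) e = Q.2 i + t * V.2 i - c.pe Q e * (Q.1 i + t * V.1 i) := by
  have hd' : V.2 (c.rt e) - V.2 (c.lf e) = c.pe Q e * (V.1 (c.rt e) - V.1 (c.lf e)) := by
    unfold Comb.dpe at hd
    rcases div_eq_zero_iff.1 hd with h | h
    · linarith
    · exfalso; linarith
  have hp : Q.2 (c.rt e) - Q.2 (c.lf e) = c.pe Q e * (Q.1 (c.rt e) - Q.1 (c.lf e)) := by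
    unfold Comb.pe
    rw [div_mul_cancel₀]
    intro h
    linarith
  have hne : (Q + t • V).1 (c.rt e) - (Q + t • V).1 (c.lf e) ≠ 0 := by
    intro h
    linarith
  have h1 : c.pe (Q + t • V) e = c.pe Q e := by
    have : c.pe (Q + t • V) e = ((Q + t • V).2 (c.rt e) - (Q + t • V).2 (c.lf e)) /
      ((Q + t • V).1 (c.rt e) - (Q + t • V).1 (c.lf e)) := rfl
    rw [this, div_eq_iff hne]
    simp only [fst_add_smul, snd_add_smul]
    linear_combination hp + t * hd'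
  have h2 : c.dpe (Q + t • V) V e = 0 := by
    unfold Comb.dpe
    rw [h1, hd', sub_self, zero_div]
  refine ⟨h1, h2, ?_, ?_⟩
  · unfold Comb.dae
    rw [h1, h2]
    rcases hi with rfl | rfl
    · ring
    · linear_combination -hd'
  · unfold Comb.ae
    rw [h1]
    simp only [fst_add_smul, snd_add_smul]
    rcases hi with rfl | rfl
    · ring
    · linear_combination -hp - t * hd'

/-- The points of an edge with constant slope. -/
lemma ept_gen (c : Comb m n) (Q V : St n) (e : Fin m) (t : ℝ)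
    (h0 : Q.1 (c.lf e) < Q.1 (c.rt e))
    (ht : (Q + t • V).1 (c.lf e) < (Q + t • V).1 (c.rt e)) (hd : c.dpe Q V e = 0)
    (i : Fin n) (hi : i = c.lf e ∨ i = c.rt e) (x₀ F₀ z p : ℝ) (hx : Q.1 i = x₀)
    (hF : Q.2 i = F₀) (hvx : V.1 i = 0) (hvF : V.2 i = z) (hp : c.pe Q e = p) (x : ℝ) :
    c.ept (Q + t • V) V e x = (x, p, z, F₀ + p * (x - x₀) + t * z) := by
  obtain ⟨h1, h2, h3, h4⟩ := edge_const c Q V e t h0 ht hd i hi
  unfold Comb.ept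
  rw [h1, h2, h3, h4, hx, hF, hvx, hvF, hp]
  refine Prod.ext rfl (Prod.ext rfl (Prod.ext ?_ ?_))
  · simp
  · simp only
    ring

/-- The points of a pass between two edges with constant slopes. -/
lemma vp_gen (c : Comb m n) (w : Fin n → ℝ) (sh : Shape) (s : ℝ) (Q V : St n) (t : ℝ) (i : Fin n)
    (e e' : Fin m) (hty : c.ty i = .P) (hea : c.ea i = e) (heb : c.eb i = e')
    (h0 : Q.1 (c.lf e) < Q.1 (c.rt e)) (h0' : Q.1 (c.lf e') < Q.1 (c.rt e'))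
    (ht : (Q + t • V).1 (c.lf e) < (Q + t • V).1 (c.rt e))
    (ht' : (Q + t • V).1 (c.lf e') < (Q + t • V).1 (c.rt e'))
    (hd : c.dpe Q V e = 0) (hd' : c.dpe Q V e' = 0)
    (hi : i = c.lf e ∨ i = c.rt e) (hi' : i = c.lf e' ∨ i = c.rt e') (x₀ z p p' r : ℝ)
    (hx : Q.1 i = x₀) (hvx : V.1 i = 0) (hvF : V.2 i = z) (hp : c.pe Q e = p)
    (hp' : c.pe Q e' = p') (hw : w i = r) (u : ℝ) :
    (c.vp w (c.sp sh) s (Q + t • V) V i u).1 = x₀ + r * u ∧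
    (c.vp w (c.sp sh) s (Q + t • V) V i u).2.1 = p + (p' - p) * sh.τ u ∧
    (c.vp w (c.sp sh) s (Q + t • V) V i u).2.2.1 = z := by
  obtain ⟨h1, h2, h3, -⟩ := edge_const c Q V e t h0 ht hd i hi
  obtain ⟨h1', h2', -, -⟩ := edge_const c Q V e' t h0' ht' hd' i hi'
  have hX : (c.sp sh i).X s u = u := by
    simp only [Comb.sp, Shape.st, hty]
  have hP : (c.sp sh i).P s u = sh.τ u := rfl
  have hY : (c.sp sh i).Y s u = 0 := rfl
  unfold Comb.vp Comb.vpt Comb.dl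
  rw [hX, hP, hY, hea, heb, h1, h1', h2, h2', h3, hp, hp', hw, hvx, hvF, fst_add_smul, hx, hvx]
  refine ⟨?_, rfl, ?_⟩
  · simp
  · simp

/-! ### the local surface -/

/-- The ranges of `p` and `z` on the local surface. -/
lemma pt_range (E : Evt) (sh : Shape) (hE : E.Pos) (a : ℝ × ℝ) :
    min E.P₁ E.P₂ - E.g / 2 ≤ (E.pt sh 1 1 a).2.2.1 ∧
    (E.pt sh 1 1 a).2.2.1 ≤ max E.P₁ E.P₂ + E.g / 2 ∧
    |(E.pt sh 1 1 a).2.2.2.1 - E.z₀| ≤ E.ζ := by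
  obtain ⟨u, x⟩ := a
  have hg := hE.g
  have hv := hE.v
  have hz : (E.pt sh 1 1 (u, x)).2.2.2.1 = E.z₀ + E.ζ * (2 * sh.τ u - 1) := rfl
  have hp : (E.pt sh 1 1 (u, x)).2.2.1 = 1 * 1 * (E.ζ * (2 * sh.τ u - 1)) *
      ((2 * sh.τ ((x - E.x₀) / E.r) - 1) / E.v) + E.P₁ +
      (E.P₂ - E.P₁) * sh.τ ((x - E.x₀) / E.r) := rfl
  have hζ : 0 < E.ζ := by
    unfold Evt.ζ
    positivity
  have hτ := sh.τ_mem u
  have hT := sh.τ_mem ((x - E.x₀) / E.r)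
  set T := sh.τ ((x - E.x₀) / E.r) with hTdef
  have hp' : (E.pt sh 1 1 (u, x)).2.2.1 =
      (E.g / 2) * ((2 * sh.τ u - 1) * (2 * T - 1)) + (E.P₁ + (E.P₂ - E.P₁) * T) := by
    rw [hp]
    unfold Evt.ζ
    field_simp
    ring
  have hprod : |(2 * sh.τ u - 1) * (2 * T - 1)| ≤ 1 := by
    rw [abs_mul]
    have h1 : |2 * sh.τ u - 1| ≤ 1 := by rw [abs_le]; constructor <;> linarith
    have h2 : |2 * T - 1| ≤ 1 := by rw [abs_le]; constructor <;> linarith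
    calc |2 * sh.τ u - 1| * |2 * T - 1| ≤ 1 * 1 :=
          mul_le_mul h1 h2 (abs_nonneg _) zero_le_one
      _ = 1 := one_mul 1
  rw [abs_le] at hprod
  have hlo : min E.P₁ E.P₂ ≤ E.P₁ + (E.P₂ - E.P₁) * T := by
    have h1 := min_le_left E.P₁ E.P₂
    have h2 := min_le_right E.P₁ E.P₂
    nlinarith
  have hhi : E.P₁ + (E.P₂ - E.P₁) * T ≤ max E.P₁ E.P₂ := by
    have h1 := le_max_left E.P₁ E.P₂
    have h2 := le_max_right E.P₁ E.P₂
    nlinarith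
  refine ⟨?_, ?_, ?_⟩
  · rw [hp']
    nlinarith
  · rw [hp']
    nlinarith
  · rw [hz, add_sub_cancel_left, abs_mul, abs_of_pos hζ]
    have h1 : |2 * sh.τ u - 1| ≤ 1 := by rw [abs_le]; constructor <;> linarith
    calc E.ζ * |2 * sh.τ u - 1| ≤ E.ζ * 1 := mul_le_mul_of_nonneg_left h1 hζ.le
      _ = E.ζ := mul_one _

/-- The local surface away from the critical point: four lines. -/
lemma pt_line (E : Evt) (sh : Shape) (hE : E.Pos) (σ σ' u x s : ℝ)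
    (hσ : (σ = -1 ∧ u ≤ -1) ∨ (σ = 1 ∧ 1 ≤ u))
    (hσ' : (σ' = -1 ∧ x ≤ E.x₀ - E.r) ∨ (σ' = 1 ∧ E.x₀ + E.r ≤ x))
    (hs : s = E.s₀ + (E.r / E.v) * (σ * u) - σ' * (x - E.x₀) / E.v) :
    E.pt sh 1 1 (u, x) = (s, x, E.P₁ + (E.P₂ - E.P₁) * ((1 + σ') / 2) + σ * σ' * (E.g / 2),
      E.z₀ + σ * E.ζ, E.F₀ + (E.P₁ + (E.P₂ - E.P₁) * ((1 + σ') / 2) + σ * σ' * (E.g / 2)) *
        (x - E.x₀) + (s - E.s₀) * (E.z₀ + σ * E.ζ)) := by
  have hg := hE.g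
  have hv := hE.v
  have hr := hE.r
  have hu1 : sh.τ u = (1 + σ) / 2 ∧ sh.ξ u = -(σ * u) ∧ sh.ΘR u = -((1 + σ) / 2) * u := by
    rcases hσ with ⟨rfl, h⟩ | ⟨rfl, h⟩
    · refine ⟨?_, ?_, ?_⟩
      · rw [sh.τ_low u h]; norm_num
      · rw [sh.ξ_out u (by rw [abs_of_nonpos (by linarith)]; linarith),
          abs_of_nonpos (by linarith)]
        ring
      · rw [sh.ΘR_low u h]; norm_num
    · refine ⟨?_, ?_, ?_⟩
      · rw [sh.τ_high u h]; norm_num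
      · rw [sh.ξ_out u (by rw [abs_of_nonneg (by linarith)]; linarith),
          abs_of_nonneg (by linarith)]
        ring
      · rw [sh.ΘR_high u h]; norm_num
  set U := (x - E.x₀) / E.r with hU
  have hUx : E.r * U = x - E.x₀ := by
    rw [hU]
    field_simp
  have hU1 : sh.τ U = (1 + σ') / 2 ∧ sh.ΘP U = ((1 + σ') / 2) * U := by
    rcases hσ' with ⟨rfl, h⟩ | ⟨rfl, h⟩
    · have hU2 : U ≤ -1 := by
        rw [hU, div_le_iff₀ hr]
        linarith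
      refine ⟨?_, ?_⟩
      · rw [sh.τ_low U hU2]; norm_num
      · rw [sh.ΘP_low U hU2]; norm_num
    · have hU2 : 1 ≤ U := by
        rw [hU, le_div_iff₀ hr]
        linarith
      refine ⟨?_, ?_⟩
      · rw [sh.τ_high U hU2]; norm_num
      · rw [sh.ΘP_high U hU2]; norm_num
  have hPsi : sh.Psi U = σ' * U := by
    unfold Shape.Psi
    rw [hU1.2]
    ring
  have h1 : E.s₀ + 1 * (-(E.r / E.v) * sh.ξ u - 1 * (E.r / E.v) * sh.Psi U) = s := by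
    rw [hu1.2.1, hPsi, hs]
    have : x - E.x₀ = E.r * U := hUx.symm
    rw [this]
    field_simp
    ring
  have hσ2 : σ * σ = 1 := by
    rcases hσ with ⟨rfl, -⟩ | ⟨rfl, -⟩ <;> norm_num
  have hpt : E.pt sh 1 1 (u, x) =
      (E.s₀ + 1 * (-(E.r / E.v) * sh.ξ u - 1 * (E.r / E.v) * sh.Psi U), x,
        1 * 1 * (E.ζ * (2 * sh.τ u - 1)) * ((2 * sh.τ U - 1) / E.v) + E.P₁ +
          (E.P₂ - E.P₁) * sh.τ U, E.z₀ + E.ζ * (2 * sh.τ u - 1),
        E.F₀ - 1 * (E.ζ * E.r / E.v) * (2 * sh.ΘR u - sh.ξ u) + E.P₁ * (x - E.x₀)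
          + (E.P₂ - E.P₁) * E.r * sh.ΘP U +
          E.z₀ * ((E.s₀ + 1 * (-(E.r / E.v) * sh.ξ u - 1 * (E.r / E.v) * sh.Psi U)) - E.s₀)) :=
    rfl
  rw [hpt, h1]
  refine Prod.ext rfl (Prod.ext rfl (Prod.ext ?_ (Prod.ext ?_ ?_)))
  · simp only
    rw [hu1.1, hU1.1]
    unfold Evt.ζ
    field_simp
    ring
  · simp only
    rw [hu1.1]
    ring
  · simp only
    rw [hu1.2.2, hu1.2.1, hU1.2]
    have h2 : (E.ζ * E.r / E.v) * u * σ = E.ζ * (s - E.s₀) + E.ζ * σ' * (x - E.x₀) / E.v := by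
      rw [hs]
      field_simp
      ring
    have h3 : E.ζ / E.v = E.g / 2 := by
      unfold Evt.ζ
      field_simp
    have h4 : E.F₀ - 1 * (E.ζ * E.r / E.v) * (2 * (-((1 + σ) / 2) * u) - -(σ * u)) +
        E.P₁ * (x - E.x₀) + (E.P₂ - E.P₁) * E.r * ((1 + σ') / 2 * U) + E.z₀ * (s - E.s₀) =
        E.F₀ + (E.ζ * E.r / E.v) * u + E.P₁ * (x - E.x₀) +
          (E.P₂ - E.P₁) * ((1 + σ') / 2) * (E.r * U) + E.z₀ * (s - E.s₀) := by
      ring
    rw [h4, hUx]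
    have h5 : (E.ζ * E.r / E.v) * u = σ * ((E.ζ * E.r / E.v) * u * σ) := by
      linear_combination (-(E.ζ * E.r / E.v) * u) * hσ2
    rw [h5, h2]
    have h6 : E.ζ * σ' * (x - E.x₀) / E.v = (E.ζ / E.v) * σ' * (x - E.x₀) := by ring
    rw [h6, h3]
    ring

/-! ### the facts about a saddle -/

section

variable {c c' : Comb m n} {w : Fin n → ℝ} {L R : Fin n} {H₁ H₂ H₃ H₄ : Fin m} {E : Evt}
  {Q V V' : St n} {η : ℝ}

lemma eta_pos (hS : Saddle c c' w L R H₁ H₂ H₃ H₄ E Q V V' η) : 0 < η := by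
  have h1 := hS.small
  have h2 := hS.pos.v
  have h3 := hS.pos.r
  by_contra h
  push Not at h
  nlinarith

lemma mem_Icc_of_mem {s : ℝ} (hs : s ∈ Ioo (E.s₀ - η) (E.s₀ + η)) :
    s - E.s₀ ∈ Icc (-η) η := ⟨by linarith [hs.1], by linarith [hs.2]⟩

lemma lt_of_cert (hS : Saddle c c' w L R H₁ H₂ H₃ H₄ E Q V V' η) (t : ℝ) (ht : t ∈ Icc (-η) η)
    (e : Fin m) : (Q + t • V').1 (c'.lf e) < (Q + t • V').1 (c'.rt e) := by
  have h1 := (hS.cert t ht).len e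
  have h2 := hS.wpos (c'.lf e)
  have h3 := hS.wpos (c'.rt e)
  linarith

lemma lt_zero (hS : Saddle c c' w L R H₁ H₂ H₃ H₄ E Q V V' η) (e : Fin m) :
    Q.1 (c'.lf e) < Q.1 (c'.rt e) := by
  have h := eta_pos hS
  have h1 := lt_of_cert hS 0 ⟨by linarith, by linarith⟩ e
  simp only [fst_add_smul, zero_mul, add_zero] at h1
  exact h1

lemma ends (hS : Saddle c c' w L R H₁ H₂ H₃ H₄ E Q V V' η) :
    c'.rt H₁ = L ∧ c'.lf H₂ = R ∧ c'.rt H₃ = R ∧ c'.lf H₄ = L := by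
  have hC := hS.comb
  have h1 := hC.valid'.oka L
  have h2 := hC.valid'.okb L
  have h3 := hC.valid'.oka R
  have h4 := hC.valid'.okb R
  simp only [Comb.OKa, Comb.OKb, hC.tyL', hC.tyR', hC.aL', hC.bL', hC.aR', hC.bR'] at h1 h2 h3 h4
  exact ⟨h1, h4, h3, h2⟩

/-- `e` is the edge `H_k` with the signs `σ` (of `z - z₀`) and `σ'` (of `x - x₀`). -/
def IsH (H₁ H₂ H₃ H₄ e : Fin m) (σ σ' : ℝ) : Prop :=
  (e = H₁ ∧ σ = -1 ∧ σ' = -1) ∨ (e = H₂ ∧ σ = 1 ∧ σ' = 1) ∨ (e = H₃ ∧ σ = 1 ∧ σ' = -1) ∨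
    (e = H₄ ∧ σ = -1 ∧ σ' = 1)

/-- The slope of the line with the signs `σ`, `σ'`. -/
noncomputable def slp (E : Evt) (σ σ' : ℝ) : ℝ :=
  E.P₁ + (E.P₂ - E.P₁) * ((1 + σ') / 2) + σ * σ' * (E.g / 2)

lemma IsH.signs {e : Fin m} {σ σ' : ℝ} (h : IsH H₁ H₂ H₃ H₄ e σ σ') :
    (σ = -1 ∨ σ = 1) ∧ (σ' = -1 ∨ σ' = 1) := by
  rcases h with ⟨-, h, h'⟩ | ⟨-, h, h'⟩ | ⟨-, h, h'⟩ | ⟨-, h, h'⟩ <;> simp [h, h']

lemma IsH.mem {e : Fin m} {σ σ' : ℝ} (h : IsH H₁ H₂ H₃ H₄ e σ σ') :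
    e = H₁ ∨ e = H₂ ∨ e = H₃ ∨ e = H₄ := by
  rcases h with ⟨h, -⟩ | ⟨h, -⟩ | ⟨h, -⟩ | ⟨h, -⟩ <;> simp [h]

lemma exists_IsH (H₁ H₂ H₃ H₄ : Fin m) (σ σ' : ℝ) (hσ : σ = -1 ∨ σ = 1)
    (hσ' : σ' = -1 ∨ σ' = 1) : ∃ e, IsH H₁ H₂ H₃ H₄ e σ σ' := by
  rcases hσ with h | h <;> rcases hσ' with h' | h'
  · exact ⟨H₁, Or.inl ⟨rfl, h, h'⟩⟩
  · exact ⟨H₄, Or.inr (Or.inr (Or.inr ⟨rfl, h, h'⟩))⟩
  · exact ⟨H₃, Or.inr (Or.inr (Or.inl ⟨rfl, h, h'⟩))⟩
  · exact ⟨H₂, Or.inr (Or.inl ⟨rfl, h, h'⟩)⟩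

lemma exists_signs {e : Fin m} (h : e = H₁ ∨ e = H₂ ∨ e = H₃ ∨ e = H₄) :
    ∃ σ σ', IsH H₁ H₂ H₃ H₄ e σ σ' := by
  rcases h with h | h | h | h
  · exact ⟨-1, -1, Or.inl ⟨h, rfl, rfl⟩⟩
  · exact ⟨1, 1, Or.inr (Or.inl ⟨h, rfl, rfl⟩)⟩
  · exact ⟨1, -1, Or.inr (Or.inr (Or.inl ⟨h, rfl, rfl⟩))⟩
  · exact ⟨-1, 1, Or.inr (Or.inr (Or.inr ⟨h, rfl, rfl⟩))⟩

lemma slp_range (hE : E.Pos) {σ σ' : ℝ} (hσ : σ = -1 ∨ σ = 1) (hσ' : σ' = -1 ∨ σ' = 1) :
    min E.P₁ E.P₂ - E.g / 2 ≤ slp E σ σ' ∧ slp E σ σ' ≤ max E.P₁ E.P₂ + E.g / 2 := by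
  have hg := hE.g
  have h1 := min_le_left E.P₁ E.P₂
  have h2 := min_le_right E.P₁ E.P₂
  have h3 := le_max_left E.P₁ E.P₂
  have h4 := le_max_right E.P₁ E.P₂
  unfold slp
  rcases hσ with rfl | rfl <;> rcases hσ' with rfl | rfl <;> constructor <;> linarith

/-- The points of the edges at the saddle. -/
lemma ept_H (hS : Saddle c c' w L R H₁ H₂ H₃ H₄ E Q V V' η) {e : Fin m} {σ σ' : ℝ}
    (he : IsH H₁ H₂ H₃ H₄ e σ σ') (t : ℝ) (ht : t ∈ Icc (-η) η) (x : ℝ) :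
    c'.ept (Q + t • V') V' e x = (x, slp E σ σ', E.z₀ + σ * E.ζ,
      E.F₀ + slp E σ σ' * (x - E.x₀) + t * (E.z₀ + σ * E.ζ)) := by
  obtain ⟨e1, e2, e3, e4⟩ := ends hS
  rcases he with ⟨rfl, rfl, rfl⟩ | ⟨rfl, rfl, rfl⟩ | ⟨rfl, rfl, rfl⟩ | ⟨rfl, rfl, rfl⟩
  · refine ept_gen c' Q V' e t (lt_zero hS e) (lt_of_cert hS t ht e) hS.d1 L (Or.inr e1.symm)
      _ _ _ _ hS.xL hS.FL hS.xL' ?_ ?_ x
    · rw [hS.FL']; ring
    · rw [hS.p1]; unfold slp; ring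
  · refine ept_gen c' Q V' e t (lt_zero hS e) (lt_of_cert hS t ht e) hS.d2 R (Or.inl e2.symm)
      _ _ _ _ hS.xR hS.FR hS.xR' ?_ ?_ x
    · rw [hS.FR']; ring
    · rw [hS.p2]; unfold slp; ring
  · refine ept_gen c' Q V' e t (lt_zero hS e) (lt_of_cert hS t ht e) hS.d3 R (Or.inr e3.symm)
      _ _ _ _ hS.xR hS.FR hS.xR' ?_ ?_ x
    · rw [hS.FR']; ring
    · rw [hS.p3]; unfold slp; ring
  · refine ept_gen c' Q V' e t (lt_zero hS e) (lt_of_cert hS t ht e) hS.d4 L (Or.inl e4.symm)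
      _ _ _ _ hS.xL hS.FL hS.xL' ?_ ?_ x
    · rw [hS.FL']; ring
    · rw [hS.p4]; unfold slp; ring

/-- The ranges of `x` on the edges at the saddle. -/
lemma rg_H (hS : Saddle c c' w L R H₁ H₂ H₃ H₄ E Q V V' η) {e : Fin m} {σ σ' : ℝ}
    (he : IsH H₁ H₂ H₃ H₄ e σ σ') (t : ℝ) (ht : t ∈ Icc (-η) η) (x : ℝ) :
    (x ∈ c'.rg w (Q + t • V') e → 2 * E.r ≤ σ' * (x - E.x₀)) ∧
    (2 * E.r ≤ σ' * (x - E.x₀) → σ' * (x - E.x₀) ≤ E.v * η + 4 * E.r →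
      x ∈ c'.rg w (Q + t • V') e) := by
  obtain ⟨e1, e2, e3, e4⟩ := ends hS
  have hL : (Q + t • V').1 L = E.x₀ := by
    rw [fst_add_smul, hS.xL, hS.xL']; ring
  have hR : (Q + t • V').1 R = E.x₀ := by
    rw [fst_add_smul, hS.xR, hS.xR']; ring
  unfold Comb.rg
  rcases he with ⟨rfl, rfl, rfl⟩ | ⟨rfl, rfl, rfl⟩ | ⟨rfl, rfl, rfl⟩ | ⟨rfl, rfl, rfl⟩
  · rw [e1, hL, hS.wL]
    have h := hS.len1 t ht
    constructor
    · rintro ⟨h1, h2⟩
      linarith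
    · intro h1 h2
      constructor <;> linarith
  · rw [e2, hR, hS.wR]
    have h := hS.len2 t ht
    constructor
    · rintro ⟨h1, h2⟩
      linarith
    · intro h1 h2
      constructor <;> linarith
  · rw [e3, hR, hS.wR]
    have h := hS.len3 t ht
    constructor
    · rintro ⟨h1, h2⟩
      linarith
    · intro h1 h2
      constructor <;> linarith
  · rw [e4, hL, hS.wL]
    have h := hS.len4 t ht
    constructor
    · rintro ⟨h1, h2⟩
      linarith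
    · intro h1 h2
      constructor <;> linarith

/-- The pieces of the passes `L` and `R`. -/
lemma vp_LR (hS : Saddle c c' w L R H₁ H₂ H₃ H₄ E Q V V' η) (sh : Shape) (i : Fin n)
    (hi : i = L ∨ i = R) (s t : ℝ) (ht : t ∈ Icc (-η) η) (u : ℝ) (hu : |u| ≤ 2) :
    |(c'.vp w (c'.sp sh) s (Q + t • V') V' i u).1 - E.x₀| ≤ 2 * E.r ∧
    min E.P₁ E.P₂ - E.g / 2 ≤ (c'.vp w (c'.sp sh) s (Q + t • V') V' i u).2.1 ∧
    (c'.vp w (c'.sp sh) s (Q + t • V') V' i u).2.1 ≤ max E.P₁ E.P₂ + E.g / 2 ∧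
    |(c'.vp w (c'.sp sh) s (Q + t • V') V' i u).2.2.1 - E.z₀| ≤ E.ζ := by
  obtain ⟨e1, e2, e3, e4⟩ := ends hS
  have hr := hS.pos.r
  have hg := hS.pos.g
  have hv := hS.pos.v
  have hζ : 0 < E.ζ := by
    unfold Evt.ζ
    positivity
  have hτ := sh.τ_mem u
  have h1 := min_le_left E.P₁ E.P₂
  have h2 := min_le_right E.P₁ E.P₂
  have h3 := le_max_left E.P₁ E.P₂
  have h4 := le_max_right E.P₁ E.P₂
  have habs : |E.r * u| ≤ 2 * E.r := by
    rw [abs_mul, abs_of_pos hr]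
    nlinarith
  rcases hi with rfl | rfl
  · obtain ⟨hx, hp, hz⟩ := vp_gen c' w sh s Q V' t i H₁ H₄ hS.comb.tyL' hS.comb.aL' hS.comb.bL'
      (lt_zero hS _) (lt_zero hS _) (lt_of_cert hS t ht _) (lt_of_cert hS t ht _) hS.d1 hS.d4
      (Or.inr e1.symm) (Or.inl e4.symm) E.x₀ _ _ _ E.r hS.xL hS.xL' hS.FL' hS.p1 hS.p4 hS.wL u
    rw [hx, hp, hz]
    refine ⟨?_, ?_, ?_, ?_⟩
    · rw [add_sub_cancel_left]; exact habs
    · nlinarith
    · nlinarith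
    · rw [show E.z₀ - E.ζ - E.z₀ = -E.ζ by ring, abs_neg, abs_of_pos hζ]
  · obtain ⟨hx, hp, hz⟩ := vp_gen c' w sh s Q V' t i H₃ H₂ hS.comb.tyR' hS.comb.aR' hS.comb.bR'
      (lt_zero hS _) (lt_zero hS _) (lt_of_cert hS t ht _) (lt_of_cert hS t ht _) hS.d3 hS.d2
      (Or.inr e3.symm) (Or.inl e2.symm) E.x₀ _ _ _ E.r hS.xR hS.xR' hS.FR' hS.p3 hS.p2 hS.wR u
    rw [hx, hp, hz]
    refine ⟨?_, ?_, ?_, ?_⟩
    · rw [add_sub_cancel_left]; exact habs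
    · nlinarith
    · nlinarith
    · rw [show E.z₀ + E.ζ - E.z₀ = E.ζ by ring, abs_of_pos hζ]

/-- The lines of the edges at the saddle lie in the local surface, away from the critical
point. -/
lemma H_mem_set (hS : Saddle c c' w L R H₁ H₂ H₃ H₄ E Q V V' η) (sh : Shape) {e : Fin m}
    {σ σ' : ℝ} (he : IsH H₁ H₂ H₃ H₄ e σ σ') (s : ℝ) (hs : s ∈ Ioo (E.s₀ - η) (E.s₀ + η))
    (x : ℝ) (hx : E.v * η + 3 / 2 * E.r < σ' * (x - E.x₀)) :
    ((s, c'.ept (Q + (s - E.s₀) • V') V' e x) : E5) ∈ E.set sh 1 1 := by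
  have hr := hS.pos.r
  have hv := hS.pos.v
  have hη := eta_pos hS
  have hvη : 0 < E.v * η := mul_pos hv hη
  obtain ⟨hσ, hσ'⟩ := he.signs
  have hσ2 : σ * σ = 1 := by
    rcases hσ with rfl | rfl <;> norm_num
  have hu0 : 1 ≤ (E.v * (s - E.s₀) + σ' * (x - E.x₀)) / E.r := by
    rw [le_div_iff₀ hr]
    have h1 : -(E.v * η) < E.v * (s - E.s₀) := by
      have := hs.1
      nlinarith
    linarith
  refine ⟨(σ * ((E.v * (s - E.s₀) + σ' * (x - E.x₀)) / E.r), x), ?_⟩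
  rw [pt_line E sh hS.pos σ σ' _ x s ?_ ?_ ?_, ept_H hS he _ (mem_Icc_of_mem hs) x]
  · rfl
  · rcases hσ with rfl | rfl
    · left
      refine ⟨rfl, ?_⟩
      linarith
    · right
      refine ⟨rfl, ?_⟩
      linarith
  · rcases hσ' with rfl | rfl
    · left
      refine ⟨rfl, ?_⟩
      linarith
    · right
      refine ⟨rfl, ?_⟩
      linarith
  · have h1 : σ * (σ * ((E.v * (s - E.s₀) + σ' * (x - E.x₀)) / E.r)) =
        (E.v * (s - E.s₀) + σ' * (x - E.x₀)) / E.r := by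
      rw [← mul_assoc, hσ2, one_mul]
    rw [h1]
    field_simp
    ring

/-- The local surface away from the critical point consists of the lines of the edges. -/
lemma set_mem_H (hS : Saddle c c' w L R H₁ H₂ H₃ H₄ E Q V V' η) (sh : Shape) (q : E5)
    (hq : q ∈ E.set sh 1 1) (hs : q.1 ∈ Ioo (E.s₀ - η) (E.s₀ + η))
    (hx : E.v * η + 3 / 2 * E.r < |q.2.1 - E.x₀|) :
    ∃ e σ σ', IsH H₁ H₂ H₃ H₄ e σ σ' ∧ σ' * (q.2.1 - E.x₀) = |q.2.1 - E.x₀| ∧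
      q.2 = c'.ept (Q + (q.1 - E.s₀) • V') V' e q.2.1 := by
  obtain ⟨⟨u, x⟩, rfl⟩ := hq
  have hr := hS.pos.r
  have hv := hS.pos.v
  have hη := eta_pos hS
  have hvη : 0 < E.v * η := mul_pos hv hη
  have hx1 : (E.pt sh 1 1 (u, x)).2.1 = x := rfl
  rw [hx1] at hx ⊢
  obtain ⟨σ', hσ', hσx⟩ : ∃ σ' : ℝ, (σ' = -1 ∨ σ' = 1) ∧ σ' * (x - E.x₀) = |x - E.x₀| := by
    rcases le_total 0 (x - E.x₀) with h | h
    · exact ⟨1, Or.inr rfl, by rw [one_mul, abs_of_nonneg h]⟩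
    · exact ⟨-1, Or.inl rfl, by rw [abs_of_nonpos h]; ring⟩
  set U := (x - E.x₀) / E.r with hU
  have hUx : E.r * U = x - E.x₀ := by
    rw [hU]
    field_simp
  have hPsi : E.r * sh.Psi U = |x - E.x₀| := by
    unfold Shape.Psi
    rcases hσ' with rfl | rfl
    · have hU2 : U ≤ -1 := by
        rw [hU, div_le_iff₀ hr]
        linarith
      rw [sh.ΘP_low U hU2, ← hσx, ← hUx]
      ring
    · have hU2 : 1 ≤ U := by
        rw [hU, le_div_iff₀ hr]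
        linarith
      rw [sh.ΘP_high U hU2, ← hσx, ← hUx]
      ring
  have hs1 : (E.pt sh 1 1 (u, x)).1 =
      E.s₀ + 1 * (-(E.r / E.v) * sh.ξ u - 1 * (E.r / E.v) * sh.Psi U) := rfl
  have hξ : E.v * ((E.pt sh 1 1 (u, x)).1 - E.s₀) = -(E.r * sh.ξ u) - |x - E.x₀| := by
    rw [hs1, ← hPsi]
    field_simp
    ring
  have hξ2 : E.r * 1 < -(E.r * sh.ξ u) := by
    have h1 : -(E.v * η) < E.v * ((E.pt sh 1 1 (u, x)).1 - E.s₀) := by
      have := hs.1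
      nlinarith
    linarith
  have hξ3 : sh.ξ u < -1 := by
    by_contra hcon
    push Not at hcon
    nlinarith
  have hu : 1 < |u| := by
    by_contra hcon
    push Not at hcon
    have := (abs_le.1 (sh.ξ_in u hcon)).1
    linarith
  have hξu : sh.ξ u = -|u| := sh.ξ_out u hu.le
  obtain ⟨σ, hσ, hσu⟩ : ∃ σ : ℝ, ((σ = -1 ∧ u ≤ -1) ∨ (σ = 1 ∧ 1 ≤ u)) ∧ σ * u = |u| := by
    rcases le_total 0 u with h | h
    · rw [abs_of_nonneg h] at hu ⊢
      exact ⟨1, Or.inr ⟨rfl, hu.le⟩, one_mul u⟩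
    · rw [abs_of_nonpos h] at hu ⊢
      exact ⟨-1, Or.inl ⟨rfl, by linarith⟩, by ring⟩
  have hσ1 : σ = -1 ∨ σ = 1 := by
    rcases hσ with ⟨h, -⟩ | ⟨h, -⟩
    · exact Or.inl h
    · exact Or.inr h
  obtain ⟨e, he⟩ := exists_IsH H₁ H₂ H₃ H₄ σ σ' hσ1 hσ'
  refine ⟨e, σ, σ', he, hσx, ?_⟩
  have hline := pt_line E sh hS.pos σ σ' u x (E.pt sh 1 1 (u, x)).1 hσ ?_ ?_
  · rw [ept_H hS he _ (mem_Icc_of_mem hs) x]
    have h2 := congrArg Prod.snd hline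
    exact h2
  · rcases hσ' with rfl | rfl
    · left
      refine ⟨rfl, ?_⟩
      linarith
    · right
      refine ⟨rfl, ?_⟩
      linarith
  · have h3 : E.v * ((E.pt sh 1 1 (u, x)).1 - E.s₀) = E.r * (σ * u) - σ' * (x - E.x₀) := by
      rw [hξ, hξu, hσu, hσx]
      ring
    have h4 : (E.pt sh 1 1 (u, x)).1 - E.s₀ = (E.r * (σ * u) - σ' * (x - E.x₀)) / E.v := by
      rw [← h3]
      field_simp
    have h5 : (E.pt sh 1 1 (u, x)).1 = E.s₀ + ((E.pt sh 1 1 (u, x)).1 - E.s₀) := by ring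
    rw [h5, h4]
    ring

/-- The part of the surface which is not changed. -/
def Oth (c : Comb m n) (w : Fin n → ℝ) (π : Fin n → Prof) (q : ℝ → St n) (L R : Fin n)
    (H₁ H₂ H₃ H₄ : Fin m) : Set E5 :=
  {r | (∃ e ∈ {e | e ≠ H₁ ∧ e ≠ H₂ ∧ e ≠ H₃ ∧ e ≠ H₄}, ∃ x ∈ c.rg w (q r.1) e,
      r.2 = c.ept (q r.1) (deriv q r.1) e x) ∨
    ∃ i ∈ {i | i ≠ L ∧ i ≠ R}, ∃ u, |u| ≤ 2 ∧ r.2 = c.vp w π r.1 (q r.1) (deriv q r.1) i u}

/-- The other pieces do not meet the box. -/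
lemma oth_box (hBXC : Stmt_BXC) (hPST : Stmt_PST)
    (hS : Saddle c c' w L R H₁ H₂ H₃ H₄ E Q V V' η) (sh : Shape) (r : E5)
    (hrJ : r.1 ∈ Ioo (E.s₀ - η) (E.s₀ + η))
    (hr : r ∈ Oth c' w (c'.sp sh) (lin Q V' E.s₀) L R H₁ H₂ H₃ H₄)
    (hx : |r.2.1 - E.x₀| ≤ E.v * η + 4 * E.r) (hp1 : min E.P₁ E.P₂ - E.g / 2 ≤ r.2.2.1)
    (hp2 : r.2.2.1 ≤ max E.P₁ E.P₂ + E.g / 2) : E.ζ < |r.2.2.2.1 - E.z₀| := by
  have ht := mem_Icc_of_mem hrJ
  have hbd : ∀ i, ProfBd (c'.ty i) r.1 (c'.sp sh i) := fun i =>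
    (hPST sh {r.1} (c'.ty i) (fun _ => 1) (fun _ _ _ => one_ne_zero)).bd r.1 rfl
  obtain ⟨hbe, hbv⟩ := hBXC c' w (c'.sp sh) r.1 E (E.v * η + 4 * E.r) (Q + (r.1 - E.s₀) • V') V'
    hS.comb.valid' hS.wpos hbd (fun e => lt_of_cert hS _ ht e)
  rcases hr with ⟨e, ⟨he1, he2, he3, he4⟩, x, hxrg, h⟩ | ⟨i, ⟨hiL, hiR⟩, u, hu, h⟩
  · rw [deriv_lin] at h
    have h1 := hbe e (hS.boxe _ ht e he1 he2 he3 he4) x hxrg
    have h' : r.2 = c'.ept (Q + (r.1 - E.s₀) • V') V' e x := h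
    rw [h'] at hx hp1 hp2 ⊢
    exact h1 hx hp1 hp2
  · rw [deriv_lin] at h
    have h1 := hbv i (hS.boxv _ ht i hiL hiR) u hu
    have h' : r.2 = c'.vp w (c'.sp sh) r.1 (Q + (r.1 - E.s₀) • V') V' i u := h
    rw [h'] at hx hp1 hp2 ⊢
    exact h1 hx hp1 hp2

/-- The moving polygon `c'` is a phase. -/
lemma isPhase (hCER : Stmt_CER) (hPST : Stmt_PST)
    (hS : Saddle c c' w L R H₁ H₂ H₃ H₄ E Q V V' η) (sh : Shape) :
    IsPhase c' w (Ioo (E.s₀ - η) (E.s₀ + η)) (c'.sp sh) (lin Q V' E.s₀) := by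
  have hprof : ∀ i, ProfOK (Ioo (E.s₀ - η) (E.s₀ + η)) (c'.ty i)
      (fun s => c'.dl (lin Q V' E.s₀ s) i) (c'.sp sh i) := fun i =>
    hPST sh _ (c'.ty i) _ (fun s hs h => (hS.cert _ (mem_Icc_of_mem hs)).tip i h)
  refine ⟨hS.comb.valid', hS.wpos, isOpen_Ioo, ordConnected_Ioo, (contDiff_lin _ _ _).contDiffOn,
    hprof, ?_⟩
  intro s hs
  rw [deriv_lin]
  exact hCER c' w (c'.sp sh) s _ V' hS.comb.valid' hS.wpos (fun i => (hprof i).bd s hs)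
    (hS.cert _ (mem_Icc_of_mem hs))

end

end SDG

open SDG in
/-- The surface near a saddle is good. -/
theorem t_SDG (hRPL : Stmt_RPL) (hBXC : Stmt_BXC) (hECH : Stmt_ECH) (hCER : Stmt_CER)
    (hPHG : Stmt_PHG) (hPST : Stmt_PST) (hPCL : Stmt_PCL) (hPIN : Stmt_PIN)
    (hVLN : Stmt_VLN) : Stmt_SDG := by
  have _ : Stmt_VLN := hVLN
  have _ : Stmt_PIN := @hPIN
  intro m n sh c c' w L R H₁ H₂ H₃ H₄ E Q V V' η hS
  have hr := hS.pos.r
  have hv := hS.pos.v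
  have hg := hS.pos.g
  have hη := eta_pos hS
  have hsmall := hS.small
  have hvη : 0 < E.v * η := mul_pos hv hη
  have hζ : 0 < E.ζ := by
    unfold Evt.ζ
    positivity
  have hph := isPhase hCER hPST hS sh
  obtain ⟨hcl, hbd⟩ := hPCL c' w _ _ _ hph {e | e ≠ H₁ ∧ e ≠ H₂ ∧ e ≠ H₃ ∧ e ≠ H₄}
    {i | i ≠ L ∧ i ≠ R}
  have hGA := (hPHG c' w _ _ _ hph).1
  obtain ⟨-, hNcl, hNch, hNinj, hNbd⟩ := hECH E sh 1 1 hS.pos (by norm_num) (by norm_num)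
  set J := Ioo (E.s₀ - η) (E.s₀ + η) with hJdef
  have hJ : IsOpen J := isOpen_Ioo
  set O : Set E5 := Oth c' w (c'.sp sh) (lin Q V' E.s₀) L R H₁ H₂ H₃ H₄ with hO
  change ∀ r ∈ closure O, r.1 ∈ J → r ∈ O at hcl
  change ∀ K ⊆ J, IsCompact K → ∃ M : ℝ, ∀ r ∈ O, r.1 ∈ K → ‖r.2‖ ≤ M at hbd
  set A : Set E5 := c'.surf w (c'.sp sh) (lin Q V' E.s₀) with hA
  set N : Set E5 := E.set sh 1 1 with hN
  set ρ := E.v * η + 2 * E.r with hρ
  have hbox : ∀ r ∈ O, r.1 ∈ J → |r.2.1 - E.x₀| ≤ E.v * η + 4 * E.r →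
      min E.P₁ E.P₂ - E.g / 2 ≤ r.2.2.1 → r.2.2.1 ≤ max E.P₁ E.P₂ + E.g / 2 →
      E.ζ < |r.2.2.2.1 - E.z₀| := fun r hr hrJ h1 h2 h3 =>
    oth_box hBXC hPST hS sh r hrJ hr h1 h2 h3
  -- points of `A` with the same projection are equal
  have hAinj : ∀ q ∈ A, ∀ q' ∈ A, q.1 ∈ J → pr4 q = pr4 q' → q = q' := by
    intro q hq q' hq' hqJ h
    have h1 : q.1 = q'.1 := congrArg (fun r => r.1) h
    have h2 : q.2.1 = q'.2.1 := congrArg (fun r => r.2.1) h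
    have h3 : q.2.2.1 = q'.2.2.1 := congrArg (fun r => r.2.2.1) h
    have h4 : q.2.2.2.1 = q'.2.2.2.1 := congrArg (fun r => r.2.2.2) h
    exact hGA.inj q hq q' hq' hqJ h1 h2 h3 h4
  have hOA : O ⊆ A := by
    rintro r (⟨e, -, x, hx, h⟩ | ⟨i, -, u, hu, h⟩)
    · exact Or.inl ⟨e, x, hx, h⟩
    · exact Or.inr ⟨i, u, hu, h⟩
  -- the local surface over the tube is in the box
  have hNbox : ∀ q ∈ N, q.1 ∈ J → |q.2.1 - E.x₀| < ρ → pr4 q ∉ pr4 '' O := by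
    rintro q ⟨a, rfl⟩ hqJ hx ⟨q', hq', h⟩
    have h1 : q'.1 = (E.pt sh 1 1 a).1 := congrArg (fun r => r.1) h
    have h2 : q'.2.1 = (E.pt sh 1 1 a).2.1 := congrArg (fun r => r.2.1) h
    have h3 : q'.2.2.1 = (E.pt sh 1 1 a).2.2.1 := congrArg (fun r => r.2.2.1) h
    have h4 : q'.2.2.2.1 = (E.pt sh 1 1 a).2.2.2.1 := congrArg (fun r => r.2.2.2) h
    obtain ⟨p1, p2, p3⟩ := pt_range E sh hS.pos a
    have h5 := hbox q' hq' (h1 ▸ hqJ) (by rw [h2]; linarith) (by rw [h3]; exact p1)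
      (by rw [h3]; exact p2)
    rw [h4] at h5
    linarith
  set B : Set (ℝ × ℝ × ℝ × ℝ) := {r | |r.2.1 - E.x₀| < ρ ∧ r ∉ pr4 '' O} with hB
  set C : Set (ℝ × ℝ × ℝ × ℝ) := {r | r.1 ∈ J ∧ |r.2.1 - E.x₀| ≤ E.v * η + 3 / 2 * E.r ∧
    min E.P₁ E.P₂ - E.g / 2 ≤ r.2.2.1 ∧ r.2.2.1 ≤ max E.P₁ E.P₂ + E.g / 2 ∧
    |r.2.2.2 - E.z₀| ≤ E.ζ} with hC
  have hc1 : Continuous fun r : ℝ × ℝ × ℝ × ℝ => |r.2.1 - E.x₀| := by fun_prop
  have hc2 : Continuous fun r : ℝ × ℝ × ℝ × ℝ => r.2.2.1 := by fun_prop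
  have hc3 : Continuous fun r : ℝ × ℝ × ℝ × ℝ => |r.2.2.2 - E.z₀| := by fun_prop
  have hmain : Good J {q | (pr4 q ∉ B ∧ q ∈ A) ∨ (pr4 q ∈ B ∧ q ∈ N)} := by
    apply hRPL J A N B C hJ hGA hNcl (fun q hq _ => hNch q hq)
    · rintro q ⟨a, rfl⟩ q' ⟨b, rfl⟩ - h
      rw [hNinj a b h]
    · -- `B` is open over `J`
      rintro r ⟨hr1, hr2⟩ hrJ
      have h1 : {r' : ℝ × ℝ × ℝ × ℝ | |r'.2.1 - E.x₀| < ρ} ∈ 𝓝 r :=
        (isOpen_lt hc1 continuous_const).mem_nhds hr1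
      have h2 : (closure (pr4 '' O))ᶜ ∈ 𝓝 r := by
        apply isClosed_closure.isOpen_compl.mem_nhds
        intro hcon
        exact hr2 (closed_image J hJ O hcl hbd r hcon hrJ)
      filter_upwards [h1, h2] with r' hr'1 hr'2
      exact ⟨hr'1, fun hcon => hr'2 (subset_closure hcon)⟩
    · -- `C` is closed over `J`
      intro r hr hrJ
      refine ⟨hrJ, ?_⟩
      have hclosed : IsClosed {r : ℝ × ℝ × ℝ × ℝ | |r.2.1 - E.x₀| ≤ E.v * η + 3 / 2 * E.r ∧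
          min E.P₁ E.P₂ - E.g / 2 ≤ r.2.2.1 ∧ r.2.2.1 ≤ max E.P₁ E.P₂ + E.g / 2 ∧
          |r.2.2.2 - E.z₀| ≤ E.ζ} := by
        simp only [Set.ofPred_and]
        exact (isClosed_le hc1 continuous_const).inter ((isClosed_le continuous_const hc2).inter
          ((isClosed_le hc2 continuous_const).inter (isClosed_le hc3 continuous_const)))
      have h1 : closure C ⊆ {r : ℝ × ℝ × ℝ × ℝ | |r.2.1 - E.x₀| ≤ E.v * η + 3 / 2 * E.r ∧
          min E.P₁ E.P₂ - E.g / 2 ≤ r.2.2.1 ∧ r.2.2.1 ≤ max E.P₁ E.P₂ + E.g / 2 ∧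
          |r.2.2.2 - E.z₀| ≤ E.ζ} := closure_minimal (fun r hr => hr.2) hclosed
      exact h1 hr
    · -- `C ⊆ B`
      rintro r ⟨hrJ, h1, h2, h3, h4⟩
      refine ⟨by linarith, ?_⟩
      rintro ⟨q', hq', rfl⟩
      have h5 := hbox q' hq' hrJ (by
        have : |q'.2.1 - E.x₀| ≤ E.v * η + 3 / 2 * E.r := h1
        linarith) h2 h3
      have h6 : |q'.2.2.2.1 - E.z₀| ≤ E.ζ := h4
      linarith
    · -- boundedness
      intro K hKJ hK
      obtain ⟨M₀, hM₀⟩ := hK.isBounded.exists_norm_le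
      obtain ⟨M', hM'⟩ := hNbd (max M₀ (|E.x₀| + ρ))
      refine ⟨M', ?_⟩
      rintro q hq hqK ⟨hqB, -⟩
      apply hM' q hq
      · exact (hM₀ q.1 hqK).trans (le_max_left _ _)
      · have h1 : |q.2.1| ≤ |E.x₀| + |q.2.1 - E.x₀| := by
          calc |q.2.1| = |E.x₀ + (q.2.1 - E.x₀)| := by ring_nf
            _ ≤ |E.x₀| + |q.2.1 - E.x₀| := abs_add_le _ _
        have h2 : |q.2.1 - E.x₀| < ρ := hqB
        exact le_trans (by linarith) (le_max_right _ _)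
    · -- agreement outside of `C`
      rintro q hqJ ⟨hqB, hqO⟩ hqC
      have hqB' : |q.2.1 - E.x₀| < ρ := hqB
      have ht := mem_Icc_of_mem hqJ
      constructor
      · intro hqA
        rcases hqA with ⟨e, x, hx, h⟩ | ⟨i, u, hu, h⟩
        · by_cases he : e = H₁ ∨ e = H₂ ∨ e = H₃ ∨ e = H₄
          · obtain ⟨σ, σ', hσ⟩ := exists_signs he
            obtain ⟨hs1, hs2⟩ := hσ.signs
            rw [deriv_lin] at h
            have h' : q.2 = c'.ept (Q + (q.1 - E.s₀) • V') V' e x := h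
            have hx2 := (rg_H hS hσ _ ht x).1 hx
            have habs : σ' * (x - E.x₀) = |x - E.x₀| := by
              rcases hs2 with rfl | rfl
              · rw [abs_of_nonpos (by linarith)]; ring
              · rw [abs_of_nonneg (by linarith)]; ring
            have hept := ept_H hS hσ _ ht x
            have hqx : q.2.1 = x := by rw [h', hept]
            have hfar : E.v * η + 3 / 2 * E.r < |q.2.1 - E.x₀| := by
              by_contra hcon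
              push Not at hcon
              apply hqC
              refine ⟨hqJ, hcon, ?_, ?_, ?_⟩
              · change _ ≤ q.2.2.1
                rw [h', hept]
                exact (slp_range hS.pos hs1 hs2).1
              · change q.2.2.1 ≤ _
                rw [h', hept]
                exact (slp_range hS.pos hs1 hs2).2
              · change |q.2.2.2.1 - E.z₀| ≤ E.ζ
                rw [h', hept]
                simp only [add_sub_cancel_left]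
                rw [abs_mul, abs_of_pos hζ]
                rcases hs1 with rfl | rfl <;> simp
            have hmem := H_mem_set hS sh hσ q.1 hqJ x (by rw [habs, ← hqx]; exact hfar)
            have hq : q = (q.1, c'.ept (Q + (q.1 - E.s₀) • V') V' e x) := Prod.ext rfl h'
            rw [hq]
            exact hmem
          · exfalso
            apply hqO
            push Not at he
            exact ⟨q, Or.inl ⟨e, he, x, hx, h⟩, rfl⟩
        · by_cases hi : i = L ∨ i = R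
          · exfalso
            rw [deriv_lin] at h
            have h' : q.2 = c'.vp w (c'.sp sh) q.1 (Q + (q.1 - E.s₀) • V') V' i u := h
            obtain ⟨h1, h2, h3, h4⟩ := vp_LR hS sh i hi q.1 _ ht u hu
            rw [← h'] at h1 h2 h3 h4
            apply hqC
            refine ⟨hqJ, ?_, h2, h3, h4⟩
            change |q.2.1 - E.x₀| ≤ _
            linarith
          · exfalso
            apply hqO
            push Not at hi
            exact ⟨q, Or.inr ⟨i, hi, u, hu, h⟩, rfl⟩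
      · intro hqN
        have hfar : E.v * η + 3 / 2 * E.r < |q.2.1 - E.x₀| := by
          by_contra hcon
          push Not at hcon
          apply hqC
          obtain ⟨a, ha⟩ := hqN
          obtain ⟨p1, p2, p3⟩ := pt_range E sh hS.pos a
          rw [ha] at p1 p2 p3
          exact ⟨hqJ, hcon, p1, p2, p3⟩
        obtain ⟨e, σ, σ', hσ, habs, h⟩ := set_mem_H hS sh q hqN hqJ hfar
        refine Or.inl ⟨e, q.2.1, ?_, ?_⟩
        · apply (rg_H hS hσ _ ht q.2.1).2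
          · rw [habs]; linarith
          · rw [habs]; linarith
        · rw [deriv_lin]
          exact h
  -- the set of the statement
  refine good_congr J hJ _ _ ?_ hmain
  intro q hqJ
  have ht := mem_Icc_of_mem hqJ
  constructor
  · rintro (⟨hqB, hqA⟩ | ⟨hqB, hqN⟩)
    · by_cases hqO : pr4 q ∈ pr4 '' O
      · obtain ⟨q', hq', h⟩ := hqO
        have h1 : q'.1 = q.1 := congrArg (fun r => r.1) h
        have h2 : q' = q := hAinj q' (hOA hq') q hqA (h1 ▸ hqJ) h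
        rw [h2] at hq'
        rcases hq' with ⟨e, ⟨he1, he2, he3, he4⟩, x, hx, h⟩ | ⟨i, ⟨hi1, hi2⟩, u, hu, h⟩
        · exact Or.inl ⟨e, he1, he2, he3, he4, x, hx, h⟩
        · exact Or.inr (Or.inl ⟨i, hi1, hi2, u, hu, h⟩)
      · have hfar : ρ ≤ |q.2.1 - E.x₀| := by
          by_contra hcon
          push Not at hcon
          exact hqB ⟨hcon, hqO⟩
        rcases hqA with ⟨e, x, hx, h⟩ | ⟨i, u, hu, h⟩
        · by_cases he : e = H₁ ∨ e = H₂ ∨ e = H₃ ∨ e = H₄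
          · have hqx : q.2.1 = x := by rw [h]; rfl
            exact Or.inr (Or.inr (Or.inl ⟨e, he, x, hx, hqx ▸ hfar, h⟩))
          · exfalso
            apply hqO
            push Not at he
            exact ⟨q, Or.inl ⟨e, he, x, hx, h⟩, rfl⟩
        · by_cases hi : i = L ∨ i = R
          · exfalso
            rw [deriv_lin] at h
            have h' : q.2 = c'.vp w (c'.sp sh) q.1 (Q + (q.1 - E.s₀) • V') V' i u := h
            obtain ⟨h1, -, -, -⟩ := vp_LR hS sh i hi q.1 _ ht u hu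
            rw [← h'] at h1
            linarith
          · exfalso
            apply hqO
            push Not at hi
            exact ⟨q, Or.inr ⟨i, hi, u, hu, h⟩, rfl⟩
    · exact Or.inr (Or.inr (Or.inr ⟨hqN, hqB.1⟩))
  · rintro (⟨e, he1, he2, he3, he4, x, hx, h⟩ | ⟨i, hi1, hi2, u, hu, h⟩ | ⟨e, he, x, hx, hfar, h⟩ |
      ⟨hqN, hx⟩)
    · refine Or.inl ⟨fun hcon => hcon.2 ⟨q, Or.inl ⟨e, ⟨he1, he2, he3, he4⟩, x, hx, h⟩, rfl⟩,
        Or.inl ⟨e, x, hx, h⟩⟩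
    · refine Or.inl ⟨fun hcon => hcon.2 ⟨q, Or.inr ⟨i, ⟨hi1, hi2⟩, u, hu, h⟩, rfl⟩,
        Or.inr ⟨i, u, hu, h⟩⟩
    · have hqx : q.2.1 = x := by rw [h]; rfl
      refine Or.inl ⟨fun hcon => ?_, Or.inl ⟨e, x, hx, h⟩⟩
      have h1 : |q.2.1 - E.x₀| < ρ := hcon.1
      rw [hqx] at h1
      linarith
    · exact Or.inr ⟨⟨hx, hNbox q hqN hqJ hx⟩, hqN⟩

end LCA
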