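import Pool.Agent.LCA.Chk

/-!
# Part A: linear motions with data at the two ends, and the soundness of the checker
-/

namespace LCA

open Set Filter
open scoped ContDiff Topology

variable {m n m' n' : ℕ}

/-! ### linear motions (real numbers) -/

/-- A linear motion of duration `T` from the positions `Q` to the positions `Q'` with the velocities
`V'`: the edges do not degenerate, every edge moves parallel to itself in one of the two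
directions. -/
structure Comb.Lin (c : Comb m n) (T : ℝ) (Q Q' V' : St n) : Prop where
  pos : 0 < T
  move : Q' = Q + T • V'
  len : ∀ e, Q.1 (c.lf e) < Q.1 (c.rt e)
  len' : ∀ e, Q'.1 (c.lf e) < Q'.1 (c.rt e)
  fl : ∀ e, c.dpe Q' V' e * V'.1 (c.lf e) = 0
  fr : ∀ e, c.dpe Q' V' e * V'.1 (c.rt e) = 0

/-- LNP: the slopes during a linear motion. -/
def Stmt_LNP : Prop :=
  ∀ {m n : ℕ} (c : Comb m n) (T : ℝ) (Q Q' V' : St n), c.Lin T Q Q' V' → ∀ e, ∀ s : ℝ,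
    (Q + s • V').1 (c.lf e) < (Q + s • V').1 (c.rt e) →
    c.pe (Q + s • V') e = c.pe Q' e + (s - T) * c.dpe Q' V' e ∧
    c.dpe (Q + s • V') V' e = c.dpe Q' V' e ∧ c.dae (Q + s • V') V' e = c.dae Q' V' e

/-- Two edges: `V` are the velocities before the beginning of the motion. -/
def Comb.LEE (c : Comb m n) (w : Fin n → ℝ) (Q V Q' V' : St n) (e e' : Fin m) : Prop :=
  (Q.1 (c.rt e) - 2 * w (c.rt e) < Q.1 (c.lf e') + 2 * w (c.lf e') ∧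
    Q'.1 (c.rt e) - 2 * w (c.rt e) < Q'.1 (c.lf e') + 2 * w (c.lf e')) ∨
  (Q.1 (c.rt e') - 2 * w (c.rt e') < Q.1 (c.lf e) + 2 * w (c.lf e) ∧
    Q'.1 (c.rt e') - 2 * w (c.rt e') < Q'.1 (c.lf e) + 2 * w (c.lf e)) ∨
  (c.pe Q e < c.pe Q e' ∧ c.pe Q' e < c.pe Q' e') ∨
  (c.pe Q e' < c.pe Q e ∧ c.pe Q' e' < c.pe Q' e) ∨
  ∃ σ : ℝ, |σ| = 1 ∧
    0 < σ * c.Dee Q' V' e e' (max (min (Q.1 (c.lf e)) (Q'.1 (c.lf e)))
      (min (Q.1 (c.lf e')) (Q'.1 (c.lf e')))) ∧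
    0 < σ * c.Dee Q' V' e e' (min (max (Q.1 (c.rt e)) (Q'.1 (c.rt e)))
      (max (Q.1 (c.rt e')) (Q'.1 (c.rt e')))) ∧
    (c.See w Q e e' ∨ c.Zee Q V e e' σ)

/-- The bound for the rounding error during the motion. -/
noncomputable def Comb.erS (c : Comb m n) (w : Fin n → ℝ) (Q Q' V' : St n) (i : Fin n) : ℝ :=
  w i * (2 * |c.dpe Q' V' (c.ea i)| + 2 * |c.dpe Q' V' (c.eb i) - c.dpe Q' V' (c.ea i)|
    + CY * max |c.dl Q i| |c.dl Q' i|)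

/-- Two vertices. -/
def Comb.LVV (c : Comb m n) (w : Fin n → ℝ) (Q V Q' V' : St n) (i j : Fin n) : Prop :=
  (2 * (w i + w j) < Q.1 j - Q.1 i ∧ 2 * (w i + w j) < Q'.1 j - Q'.1 i) ∨
  (2 * (w i + w j) < Q.1 i - Q.1 j ∧ 2 * (w i + w j) < Q'.1 i - Q'.1 j) ∨
  (c.phi Q i < c.plo Q j ∧ c.phi Q' i < c.plo Q' j) ∨
  (c.phi Q j < c.plo Q i ∧ c.phi Q' j < c.plo Q' i) ∨
  ∃ σ : ℝ, |σ| = 1 ∧
    c.erS w Q Q' V' i + c.erS w Q Q' V' j <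
      σ * Dvv V' i j (max (min (c.plo Q i) (c.plo Q' i)) (min (c.plo Q j) (c.plo Q' j))) ∧
    c.erS w Q Q' V' i + c.erS w Q Q' V' j <
      σ * Dvv V' i j (min (max (c.phi Q i) (c.phi Q' i)) (max (c.phi Q j) (c.phi Q' j))) ∧
    (c.Svv w Q i j ∨ c.Zvv w Q V i j σ)

/-- A vertex and an edge. -/
def Comb.LVE (c : Comb m n) (w : Fin n → ℝ) (Q V Q' V' : St n) (i : Fin n) (e : Fin m) : Prop :=
  (Q.1 i + 2 * w i < Q.1 (c.lf e) + 2 * w (c.lf e) ∧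
    Q'.1 i + 2 * w i < Q'.1 (c.lf e) + 2 * w (c.lf e)) ∨
  (Q.1 (c.rt e) - 2 * w (c.rt e) < Q.1 i - 2 * w i ∧
    Q'.1 (c.rt e) - 2 * w (c.rt e) < Q'.1 i - 2 * w i) ∨
  (c.pe Q e < c.plo Q i ∧ c.pe Q' e < c.plo Q' i) ∨
  (c.phi Q i < c.pe Q e ∧ c.phi Q' i < c.pe Q' e) ∨
  ∃ σ : ℝ, |σ| = 1 ∧
    c.erS w Q Q' V' i + 2 * w i * |c.dpe Q' V' e| <
      σ * ((V'.2 i - c.pe Q e * V'.1 i) - (c.dpe Q' V' e * Q.1 i + c.dae Q' V' e)) ∧
    c.erS w Q Q' V' i + 2 * w i * |c.dpe Q' V' e| <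
      σ * ((V'.2 i - c.pe Q' e * V'.1 i) - (c.dpe Q' V' e * Q'.1 i + c.dae Q' V' e)) ∧
    (c.Sve w Q i e ∨ c.Zve w Q V i e σ)

/-- SEE: two edges during the motion and at the change of the velocities. -/
def Stmt_SEE : Prop :=
  ∀ {m n : ℕ} (c : Comb m n) (w : Fin n → ℝ) (T : ℝ) (Q V Q' V' : St n) (e e' : Fin m),
    (∀ i, 0 < w i) → c.Lin T Q Q' V' → e ≠ e' → c.LEE w Q V Q' V' e e' →
    (∀ s ∈ Icc (0 : ℝ) T, c.See w (Q + s • V') e e' ∨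
      ∃ σ : ℝ, |σ| = 1 ∧ c.Zee (Q + s • V') V' e e' σ) ∧
    ∀ l ∈ Icc (0 : ℝ) 1, c.See w Q e e' ∨
      ∃ σ : ℝ, |σ| = 1 ∧ c.Zee Q ((1 - l) • V + l • V') e e' σ

/-- SVV: two vertices during the motion and at the change of the velocities. -/
def Stmt_SVV : Prop :=
  ∀ {m n : ℕ} (c : Comb m n) (w : Fin n → ℝ) (T : ℝ) (Q V Q' V' : St n) (i j : Fin n),
    (∀ i, 0 < w i) → c.Valid → c.Lin T Q Q' V' → i ≠ j → c.LVV w Q V Q' V' i j →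
    (∀ s ∈ Icc (0 : ℝ) T, c.Svv w (Q + s • V') i j ∨
      ∃ σ : ℝ, |σ| = 1 ∧ c.Zvv w (Q + s • V') V' i j σ) ∧
    ∀ l ∈ Icc (0 : ℝ) 1, c.Svv w Q i j ∨
      ∃ σ : ℝ, |σ| = 1 ∧ c.Zvv w Q ((1 - l) • V + l • V') i j σ

/-- SVE: a vertex and an edge during the motion and at the change of the velocities. -/
def Stmt_SVE : Prop :=
  ∀ {m n : ℕ} (c : Comb m n) (w : Fin n → ℝ) (T : ℝ) (Q V Q' V' : St n) (i : Fin n) (e : Fin m),
    (∀ i, 0 < w i) → c.Valid → c.Lin T Q Q' V' → c.LVE w Q V Q' V' i e →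
    (∀ s ∈ Icc (0 : ℝ) T, c.Sve w (Q + s • V') i e ∨
      ∃ σ : ℝ, |σ| = 1 ∧ c.Zve w (Q + s • V') V' i e σ) ∧
    ∀ l ∈ Icc (0 : ℝ) 1, c.Sve w Q i e ∨
      ∃ σ : ℝ, |σ| = 1 ∧ c.Zve w Q ((1 - l) • V + l • V') i e σ

/-- All conditions for a change of the velocities from `V` to `V'` and a linear motion. -/
structure Comb.Go (c : Comb m n) (w : Fin n → ℝ) (T : ℝ) (Q V Q' V' : St n) : Prop where
  valid : c.Valid
  wpos : ∀ i, 0 < w i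
  lin : c.Lin T Q Q' V'
  len : ∀ e, 2 * (w (c.lf e) + w (c.rt e)) < Q.1 (c.rt e) - Q.1 (c.lf e)
  len' : ∀ e, 2 * (w (c.lf e) + w (c.rt e)) < Q'.1 (c.rt e) - Q'.1 (c.lf e)
  tip : ∀ i, c.ty i ≠ .P → (0 < c.dl Q i ∧ 0 < c.dl Q' i) ∨ (c.dl Q i < 0 ∧ c.dl Q' i < 0)
  ee : ∀ e e', e ≠ e' → c.LEE w Q V Q' V' e e'
  vv : ∀ i j, i ≠ j → c.LVV w Q V Q' V' i j
  ve : ∀ i e, c.ea i ≠ e → c.eb i ≠ e → c.LVE w Q V Q' V' i e

/-- GOC: the certificates during the motion and at the change of the velocities. -/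
def Stmt_GOC : Prop :=
  ∀ {m n : ℕ} (c : Comb m n) (w : Fin n → ℝ) (T : ℝ) (Q V Q' V' : St n), c.Go w T Q V Q' V' →
    (∀ s ∈ Icc (0 : ℝ) T, c.Cert w (Q + s • V') V') ∧
    ∀ l ∈ Icc (0 : ℝ) 1, c.Cert w Q ((1 - l) • V + l • V')

/-! ### soundness of the checker: the basic functions -/

/-- CBL: the basic functions of the checker. -/
def Stmt_CBL : Prop :=
  (∀ a b : Bool, bnd a b = true ↔ a = true ∧ b = true) ∧
  (∀ a b : Bool, bor a b = true ↔ a = true ∨ b = true) ∧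
  (∀ a b : ℤ, ilt a b = true ↔ a < b) ∧ (∀ a b : ℤ, ieq a b = true ↔ a = b) ∧
  (∀ a b : ℤ, imax a b = max a b) ∧ (∀ a b : ℤ, imin a b = min a b) ∧
  (∀ a : ℤ, iabs a = |a|) ∧
  (∀ (α : Type) (d : α) (p : α → Bool) (l : List α), allL p l = true ↔
    ∀ i < len l, p (lkp d l i) = true) ∧
  (∀ (α : Type) (d : α) (p : ℕ → α → Bool) (l : List α), allI p l 0 = true ↔
    ∀ i < len l, p i (lkp d l i) = true) ∧
  (∀ (α β : Type) (d : α) (d' : β) (p : α → β → Bool) (l : List α) (l' : List β),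
    all2 p l l' = true ↔ ∀ i < len l, i < len l' → p (lkp d l i) (lkp d' l' i) = true) ∧
  (∀ (α β : Type) (d : α) (d' : β) (p : ℕ → α → β → Bool) (l : List α) (l' : List β),
    all2I p l l' 0 = true ↔ ∀ i < len l, i < len l' → p i (lkp d l i) (lkp d' l' i) = true) ∧
  (∀ (α β : Type) (d : α) (d' : β) (p : α → β → α → β → Bool) (l : List α) (l' : List β),
    prs2 p l l' = true ↔ ∀ i j, i < j → j < len l → j < len l' →
      p (lkp d l i) (lkp d' l' i) (lkp d l j) (lkp d' l' j) = true)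

/-- The facts given by `stOK`. -/
structure SD.Facts (m n : ℕ) (S : SD) : Prop where
  lenE : len S.es = m + 1
  lenV : len S.vs = n + 1
  lf : ∀ e < m + 1, (S.e e).lf < n + 1
  rt : ∀ e < m + 1, (S.e e).rt < n + 1
  ea : ∀ i < n + 1, (S.v i).ea < m + 1
  eb : ∀ i < n + 1, (S.v i).eb < m + 1
  xl : ∀ e < m + 1, (S.e e).xl = (S.v (S.e e).lf).x
  xr : ∀ e < m + 1, (S.e e).xr = (S.v (S.e e).rt).x
  il : ∀ e < m + 1, (S.e e).il = (S.v (S.e e).lf).x + 2 * (S.v (S.e e).lf).w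
  ir : ∀ e < m + 1, (S.e e).ir = (S.v (S.e e).rt).x - 2 * (S.v (S.e e).rt).w
  il_ir : ∀ e < m + 1, (S.e e).il < (S.e e).ir
  jl : ∀ i < n + 1, (S.v i).jl = (S.v i).x - 2 * (S.v i).w
  jr : ∀ i < n + 1, (S.v i).jr = (S.v i).x + 2 * (S.v i).w
  w : ∀ i < n + 1, 0 < (S.v i).w
  ty : ∀ i < n + 1, (S.v i).ty = 0 ∨ (S.v i).ty = 1 ∨ (S.v i).ty = 2
  tip : ∀ i < n + 1, (S.v i).ty = 0 ∨ (S.v i).lo < (S.v i).hi
  pa : ∀ i < n + 1, (S.v i).pa = (S.e (S.v i).ea).p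
  pb : ∀ i < n + 1, (S.v i).pb = (S.e (S.v i).eb).p
  lo : ∀ i < n + 1, (S.v i).lo = min (S.v i).pa (S.v i).pb
  hi : ∀ i < n + 1, (S.v i).hi = max (S.v i).pa (S.v i).pb
  er : ∀ i < n + 1, (S.v i).er = 2 * |(S.e (S.v i).ea).dp| +
    2 * |(S.e (S.v i).eb).dp - (S.e (S.v i).ea).dp|
  p : ∀ e < m + 1, (S.e e).p * ((S.e e).xr - (S.e e).xl) =
    (S.v (S.e e).rt).F - (S.v (S.e e).lf).F
  dp : ∀ e < m + 1, (S.e e).dp * ((S.e e).xr - (S.e e).xl) =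
    (S.v (S.e e).rt).dF - (S.v (S.e e).lf).dF -
      (S.e e).p * ((S.v (S.e e).rt).dx - (S.v (S.e e).lf).dx)
  da : ∀ e < m + 1, (S.e e).da = (S.v (S.e e).lf).dF - (S.e e).dp * (S.e e).xl -
    (S.e e).p * (S.v (S.e e).lf).dx
  fl : ∀ e < m + 1, (S.e e).dp * (S.v (S.e e).lf).dx = 0
  fr : ∀ e < m + 1, (S.e e).dp * (S.v (S.e e).rt).dx = 0
  valid : (S.cb m n).Valid

/-- STF: the facts given by `stOK`. -/
def Stmt_STF : Prop := ∀ (m n : ℕ) (S : SD), stOK m n S = true → S.Facts m n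

/-- The real numbers which belong to the data. -/
structure SD.Vals (m n : ℕ) (S : SD) : Prop where
  valid : (S.cb m n).Valid
  wpos : ∀ i, 0 < S.W n i
  len : ∀ e, 2 * (S.W n ((S.cb m n).lf e) + S.W n ((S.cb m n).rt e)) <
    (S.Q n).1 ((S.cb m n).rt e) - (S.Q n).1 ((S.cb m n).lf e)
  tip : ∀ i, (S.cb m n).ty i ≠ .P → (S.cb m n).dl (S.Q n) i ≠ 0
  lfv : ∀ e : Fin (m + 1), (((S.cb m n).lf e : Fin (n + 1)) : ℕ) = (S.e e).lf
  rtv : ∀ e : Fin (m + 1), (((S.cb m n).rt e : Fin (n + 1)) : ℕ) = (S.e e).rt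
  eav : ∀ i : Fin (n + 1), (((S.cb m n).ea i : Fin (m + 1)) : ℕ) = (S.v i).ea
  ebv : ∀ i : Fin (n + 1), (((S.cb m n).eb i : Fin (m + 1)) : ℕ) = (S.v i).eb
  xl : ∀ e : Fin (m + 1), (S.Q n).1 ((S.cb m n).lf e) = ((S.e e).xl : ℝ)
  xr : ∀ e : Fin (m + 1), (S.Q n).1 ((S.cb m n).rt e) = ((S.e e).xr : ℝ)
  il : ∀ e : Fin (m + 1), (S.Q n).1 ((S.cb m n).lf e) + 2 * S.W n ((S.cb m n).lf e) =
    ((S.e e).il : ℝ)
  ir : ∀ e : Fin (m + 1), (S.Q n).1 ((S.cb m n).rt e) - 2 * S.W n ((S.cb m n).rt e) =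
    ((S.e e).ir : ℝ)
  jl : ∀ i : Fin (n + 1), (S.Q n).1 i - 2 * S.W n i = ((S.v i).jl : ℝ)
  jr : ∀ i : Fin (n + 1), (S.Q n).1 i + 2 * S.W n i = ((S.v i).jr : ℝ)
  pe : ∀ e : Fin (m + 1), (S.cb m n).pe (S.Q n) e = ((S.e e).p : ℝ)
  dpe : ∀ e : Fin (m + 1), (S.cb m n).dpe (S.Q n) (S.V n) e = ((S.e e).dp : ℝ)
  dae : ∀ e : Fin (m + 1), (S.cb m n).dae (S.Q n) (S.V n) e = ((S.e e).da : ℝ)
  pea : ∀ i : Fin (n + 1), (S.cb m n).pe (S.Q n) ((S.cb m n).ea i) = ((S.v i).pa : ℝ)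
  peb : ∀ i : Fin (n + 1), (S.cb m n).pe (S.Q n) ((S.cb m n).eb i) = ((S.v i).pb : ℝ)
  plo : ∀ i : Fin (n + 1), (S.cb m n).plo (S.Q n) i = ((S.v i).lo : ℝ)
  phi : ∀ i : Fin (n + 1), (S.cb m n).phi (S.Q n) i = ((S.v i).hi : ℝ)
  dl : ∀ i : Fin (n + 1), |(S.cb m n).dl (S.Q n) i| = ((S.v i).hi - (S.v i).lo : ℝ)
  er : ∀ i : Fin (n + 1), 2 * |(S.cb m n).dpe (S.Q n) (S.V n) ((S.cb m n).ea i)| +
    2 * |(S.cb m n).dpe (S.Q n) (S.V n) ((S.cb m n).eb i) -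
      (S.cb m n).dpe (S.Q n) (S.V n) ((S.cb m n).ea i)| = ((S.v i).er : ℝ)
  fl : ∀ e : Fin (m + 1), (S.cb m n).dpe (S.Q n) (S.V n) e * (S.V n).1 ((S.cb m n).lf e) = 0
  fr : ∀ e : Fin (m + 1), (S.cb m n).dpe (S.Q n) (S.V n) e * (S.V n).1 ((S.cb m n).rt e) = 0

/-- SVL: the real numbers which belong to the data. -/
def Stmt_SVL : Prop := ∀ (m n : ℕ) (S : SD), S.Facts m n → S.Vals m n

/-- The state at the beginning and the state at the end of a motion have the same combinatorics and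
widths; the positions at the end. -/
structure SD.Same (m n : ℕ) (T : ℤ) (A B : SD) : Prop where
  pos : (0 : ℝ) < T
  cb : A.cb m n = B.cb m n
  w : A.W n = B.W n
  move : B.Q n = A.Q n + (T : ℝ) • B.V n
  tip : ∀ i, (A.cb m n).ty i ≠ .P →
    (0 < (A.cb m n).dl (A.Q n) i ∧ 0 < (A.cb m n).dl (B.Q n) i) ∨
    ((A.cb m n).dl (A.Q n) i < 0 ∧ (A.cb m n).dl (B.Q n) i < 0)

/-- SAM: the first part of `goOK`. -/
def Stmt_SAM : Prop :=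
  ∀ (m n : ℕ) (T : ℤ) (A B : SD), A.Facts m n → B.Facts m n → A.Vals m n → B.Vals m n →
    goOK T A B = true → SD.Same m n T A B

/-- GEE: two edges. -/
def Stmt_GEE : Prop :=
  ∀ (m n : ℕ) (A B : SD), A.Vals m n → B.Vals m n → A.cb m n = B.cb m n → A.W n = B.W n →
    ∀ e e' : Fin (m + 1), chEE (A.e e) (B.e e) (A.e e') (B.e e') = true →
      (A.cb m n).LEE (A.W n) (A.Q n) (A.V n) (B.Q n) (B.V n) e e' ∧
      (A.cb m n).LEE (A.W n) (A.Q n) (A.V n) (B.Q n) (B.V n) e' e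

/-- GVV: two vertices. -/
def Stmt_GVV : Prop :=
  ∀ (m n : ℕ) (A B : SD), A.Vals m n → B.Vals m n → A.cb m n = B.cb m n → A.W n = B.W n →
    ∀ i j : Fin (n + 1), chVV (A.v i) (B.v i) (A.v j) (B.v j) = true →
      (A.cb m n).LVV (A.W n) (A.Q n) (A.V n) (B.Q n) (B.V n) i j ∧
      (A.cb m n).LVV (A.W n) (A.Q n) (A.V n) (B.Q n) (B.V n) j i

/-- GVE: a vertex and an edge. -/
def Stmt_GVE : Prop :=
  ∀ (m n : ℕ) (A B : SD), A.Vals m n → B.Vals m n → A.cb m n = B.cb m n → A.W n = B.W n →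
    ∀ (i : Fin (n + 1)) (e : Fin (m + 1)), (A.cb m n).ea i ≠ e → (A.cb m n).eb i ≠ e →
      chVE (A.v i) (B.v i) e (A.e e) (B.e e) = true →
      (A.cb m n).LVE (A.W n) (A.Q n) (A.V n) (B.Q n) (B.V n) i e

/-- GOK: the conditions of a motion. -/
def Stmt_GOK : Prop :=
  ∀ (m n : ℕ) (T : ℤ) (A B : SD), stOK m n A = true → stOK m n B = true → goOK T A B = true →
    (A.cb m n).Go (A.W n) T (A.Q n) (A.V n) (B.Q n) (B.V n) ∧ A.cb m n = B.cb m n ∧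
      A.W n = B.W n

/-- STG: a change of the velocities and a motion. -/
def Stmt_STG : Prop :=
  ∀ (K : Set LC.R3) (sh : Shape) (m n : ℕ) (T t : ℤ) (A B : SD), stOK m n A = true →
    stOK m n B = true → goOK T A B = true → AtD K sh m n A t → AtD K sh m n B (t + T)

end LCA
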