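import Pool.Agent.LCA.Chk2

/-!
# Part A: soundness of the checker for the other operations
-/

namespace LCA

open Set Filter
open scoped ContDiff Topology

variable {m n m' n' : ℕ}

/-! ### basic functions -/

/-- CB2: the basic functions. -/
def Stmt_CB2 : Prop :=
  (∀ i j : ℕ, nlt i j = true ↔ i < j) ∧ (∀ i j : ℕ, nne i j = true ↔ i ≠ j) ∧
  (∀ (b : Bool) (i j : ℕ), nif b i j = if b = true then i else j) ∧
  (∀ b : Bool, bnt b = true ↔ b = false) ∧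
  ∀ (a b : ℕ) (ι κ : List ℕ) (e : ℕ), embB a b ι κ e = true →
    e < b + 1 ∧ Function.Injective (ixf a b ι) ∧ (∀ d, ixf a b ι d ≠ Fin.ofNat (b + 1) e) ∧
    (∀ d', d' = Fin.ofNat (b + 1) e ∨ ∃ d, ixf a b ι d = d') ∧
    ∀ d : Fin (a + 1), ((ixf a b ι d : Fin (b + 1)) : ℕ) = lkp 0 ι d

/-- MVR: simple relations between two states. -/
def Stmt_MVR : Prop :=
  ∀ (m n : ℕ) (A B : SD), A.Facts m n → B.Facts m n →
    (∀ T : ℤ, mvOK T A B = true → A.cb m n = B.cb m n ∧ A.W n = B.W n ∧ B.V n = A.V n ∧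
      B.Q n = A.Q n + (T : ℝ) • A.V n) ∧
    (ngOK A B = true → A.cb m n = B.cb m n ∧ A.W n = B.W n ∧ B.V n = -A.V n ∧ B.Q n = A.Q n) ∧
    (wdOK A B = true → A.cb m n = B.cb m n ∧ (∀ i, B.W n i ≤ A.W n i) ∧ B.V n = A.V n ∧
      B.Q n = A.Q n) ∧
    ∀ i : ℕ, swOK n i A B = true → SwpComb (A.cb m n) (B.cb m n) (Fin.ofNat (n + 1) i) ∧
      A.W n = B.W n ∧ B.V n = A.V n ∧ B.Q n = A.Q n

/-! ### exchange of the edges of a tip, widths -/

/-- STW: exchange of the edges of a tip. -/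
def Stmt_STW : Prop :=
  ∀ (K : Set LC.R3) (sh : Shape) (m n : ℕ) (t : ℤ) (i : ℕ) (A B : SD), stOK m n A = true →
    stOK m n B = true → swOK n i A B = true → AtD K sh m n A t → AtD K sh m n B t

/-- STV: change of the widths. `A`, `A'` are the states with the larger widths at the times `t`,
`t + 1`. -/
def Stmt_STV : Prop :=
  ∀ (K : Set LC.R3) (sh : Shape) (m n : ℕ) (t : ℤ) (A A' : SD), stOK m n A = true →
    stOK m n A' = true → goOK 1 A A' = true → mvOK 1 A A' = true →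
    (∀ B : SD, stOK m n B = true → wdOK A' B = true → AtD K sh m n A t →
      AtD K sh m n B (t + 1)) ∧
    ∀ B : SD, stOK m n B = true → wdOK A B = true → AtD K sh m n B t → AtD K sh m n A' (t + 1)

/-! ### trivial vertices -/

/-- INR: insertion of a trivial vertex at the time `t`. -/
def Stmt_INR : Prop :=
  ∀ {m n m' n' : ℕ} (K : Set LC.R3) (sh : Shape) (c : Comb m n) (c' : Comb m' n')
    (ιE : Fin m → Fin m') (ιV : Fin n → Fin n') (e₀ : Fin m) (e : Fin m') (j : Fin n')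
    (w : Fin n → ℝ) (w' : Fin n' → ℝ) (q v : St n) (q' v' : St n') (t : ℝ),
    InsComb c c' ιE ιV e₀ e j → (∀ i, 0 < w i) → InsSt c c' ιV e₀ j w w' q v q' v' →
    q.1 (c.lf e₀) + 2 * w (c.lf e₀) < q'.1 j - 2 * w' j →
    q'.1 j + 2 * w' j < q.1 (c.rt e₀) - 2 * w (c.rt e₀) →
    c.dpe q v e₀ * v.1 (c.lf e₀) = 0 → c.dpe q v e₀ * v.1 (c.rt e₀) = 0 →
    c.dpe q v e₀ * v'.1 j = 0 →
    (At K sh c w q v t ↔ At K sh c' w' q' v' t)

/-- INC: the conditions of the checker for a trivial vertex. -/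
def Stmt_INC : Prop :=
  ∀ (m n m' n' : ℕ) (ιE κE ιV κV : List ℕ) (e₀ e j : ℕ) (A B : SD), A.Facts m n →
    B.Facts m' n' → A.Vals m n → B.Vals m' n' →
    inOK m n m' n' ιE κE ιV κV e₀ e j A B = true →
    InsComb (A.cb m n) (B.cb m' n') (ixf m m' ιE) (ixf n n' ιV) (Fin.ofNat (m + 1) e₀)
      (Fin.ofNat (m' + 1) e) (Fin.ofNat (n' + 1) j) ∧
    InsSt (A.cb m n) (B.cb m' n') (ixf n n' ιV) (Fin.ofNat (m + 1) e₀) (Fin.ofNat (n' + 1) j)
      (A.W n) (B.W n') (A.Q n) (A.V n) (B.Q n') (B.V n') ∧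
    (A.Q n).1 ((A.cb m n).lf (Fin.ofNat (m + 1) e₀)) +
        2 * A.W n ((A.cb m n).lf (Fin.ofNat (m + 1) e₀)) <
      (B.Q n').1 (Fin.ofNat (n' + 1) j) - 2 * B.W n' (Fin.ofNat (n' + 1) j) ∧
    (B.Q n').1 (Fin.ofNat (n' + 1) j) + 2 * B.W n' (Fin.ofNat (n' + 1) j) <
      (A.Q n).1 ((A.cb m n).rt (Fin.ofNat (m + 1) e₀)) -
        2 * A.W n ((A.cb m n).rt (Fin.ofNat (m + 1) e₀)) ∧
    (A.cb m n).dpe (A.Q n) (A.V n) (Fin.ofNat (m + 1) e₀) *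
      (B.V n').1 (Fin.ofNat (n' + 1) j) = 0

/-- STI: insertion and removal of a trivial vertex. -/
def Stmt_STI : Prop :=
  ∀ (K : Set LC.R3) (sh : Shape) (m n m' n' : ℕ) (t : ℤ) (ιE κE ιV κV : List ℕ) (e₀ e j : ℕ)
    (A B : SD), stOK m n A = true → stOK m' n' B = true →
    inOK m n m' n' ιE κE ιV κV e₀ e j A B = true →
    (AtD K sh m n A t ↔ AtD K sh m' n' B t)

/-! ### folds -/

/-- FDR: if the relation of a fold holds at one time, then it holds at all times. -/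
def Stmt_FDR : Prop :=
  ∀ {m n m' n' : ℕ} (c : Comb m n) (c' : Comb m' n') (ιE : Fin m → Fin m')
    (ιV : Fin n → Fin n') (i : Fin n) (e : Fin m') (j : Fin n') (w : Fin n → ℝ)
    (w' : Fin n' → ℝ) (q v : St n) (q' v' : St n') (s : ℝ),
    FoldComb c c' ιE ιV i e j → FoldSt c c' ιV i j w w' q v q' v' →
    (∀ d, c.dpe q v d * v.1 (c.lf d) = 0) → (∀ d, c.dpe q v d * v.1 (c.rt d) = 0) →
    (∀ i, 0 < w i) →
    (∀ d, 2 * (w (c.lf d) + w (c.rt d)) < (q + s • v).1 (c.rt d) - (q + s • v).1 (c.lf d)) →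
    FoldSt c c' ιV i j w w' (q + s • v) v (q' + s • v') v'

/-- FDC: the conditions of the checker for a fold. -/
def Stmt_FDC : Prop :=
  ∀ (m n m' n' : ℕ) (ιE κE ιV κV : List ℕ) (i e j : ℕ) (A B : SD), A.Facts m n →
    B.Facts m' n' → A.Vals m n → B.Vals m' n' →
    fdOK m n m' n' ιE κE ιV κV i e j A B = true →
    i < n + 1 ∧
    FoldComb (A.cb m n) (B.cb m' n') (ixf m m' ιE) (ixf n n' ιV) (Fin.ofNat (n + 1) i)
      (Fin.ofNat (m' + 1) e) (Fin.ofNat (n' + 1) j) ∧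
    FoldSt (A.cb m n) (B.cb m' n') (ixf n n' ιV) (Fin.ofNat (n + 1) i) (Fin.ofNat (n' + 1) j)
      (A.W n) (B.W n') (A.Q n) (A.V n) (B.Q n') (B.V n')

/-- STD: folds. `A`, `A'` are the states without the fold at the times `t`, `t + 1`. -/
def Stmt_STD : Prop :=
  ∀ (K : Set LC.R3) (sh : Shape) (m n m' n' : ℕ) (t : ℤ) (ιE κE ιV κV : List ℕ) (i e j : ℕ)
    (A A' : SD), stOK m n A = true → stOK m n A' = true → goOK 1 A A' = true →
    mvOK 1 A A' = true → fdS i A A' = true →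
    (∀ B : SD, stOK m' n' B = true → fdOK m n m' n' ιE κE ιV κV i e j A' B = true →
      AtD K sh m n A t → AtD K sh m' n' B (t + 1)) ∧
    ∀ B : SD, stOK m' n' B = true → fdOK m n m' n' ιE κE ιV κV i e j A B = true →
      AtD K sh m' n' B t → AtD K sh m n A' (t + 1)

/-! ### saddles and the maximum -/

/-- The edge does not meet the box: conditions at the two ends of the time interval. -/
def Comb.LBE (c : Comb m n) (w : Fin n → ℝ) (E : Evt) (ρ : ℝ) (Q Q' V' : St n) (e : Fin m) :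
    Prop :=
  (Q.1 (c.rt e) - 2 * w (c.rt e) < E.x₀ - ρ ∧ Q'.1 (c.rt e) - 2 * w (c.rt e) < E.x₀ - ρ) ∨
  (E.x₀ + ρ < Q.1 (c.lf e) + 2 * w (c.lf e) ∧ E.x₀ + ρ < Q'.1 (c.lf e) + 2 * w (c.lf e)) ∨
  (c.pe Q e < min E.P₁ E.P₂ - E.g / 2 ∧ c.pe Q' e < min E.P₁ E.P₂ - E.g / 2) ∨
  (max E.P₁ E.P₂ + E.g / 2 < c.pe Q e ∧ max E.P₁ E.P₂ + E.g / 2 < c.pe Q' e) ∨
  E.ζ + |c.dpe Q' V' e| * ρ < |c.dpe Q' V' e * E.x₀ + c.dae Q' V' e - E.z₀|

/-- The vertical does not meet the box: conditions at the two ends of the time interval. -/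
def Comb.LBV (c : Comb m n) (w : Fin n → ℝ) (E : Evt) (ρ : ℝ) (Q Q' V' : St n) (i : Fin n) :
    Prop :=
  (Q.1 i + 2 * w i < E.x₀ - ρ ∧ Q'.1 i + 2 * w i < E.x₀ - ρ) ∨
  (E.x₀ + ρ < Q.1 i - 2 * w i ∧ E.x₀ + ρ < Q'.1 i - 2 * w i) ∨
  (c.phi Q i < min E.P₁ E.P₂ - E.g / 2 ∧ c.phi Q' i < min E.P₁ E.P₂ - E.g / 2) ∨
  (max E.P₁ E.P₂ + E.g / 2 < c.plo Q i ∧ max E.P₁ E.P₂ + E.g / 2 < c.plo Q' i) ∨
  ∃ σ : ℝ, |σ| = 1 ∧
    E.ζ + c.erS w Q Q' V' i < σ * (V'.2 i -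
      max (min (c.plo Q i) (c.plo Q' i)) (min E.P₁ E.P₂ - E.g / 2) * V'.1 i - E.z₀) ∧
    E.ζ + c.erS w Q Q' V' i < σ * (V'.2 i -
      min (max (c.phi Q i) (c.phi Q' i)) (max E.P₁ E.P₂ + E.g / 2) * V'.1 i - E.z₀)

/-- BXL: the box during a linear motion. -/
def Stmt_BXL : Prop :=
  ∀ {m n : ℕ} (c : Comb m n) (w : Fin n → ℝ) (T : ℝ) (E : Evt) (ρ : ℝ) (Q Q' V' : St n),
    (∀ i, 0 < w i) → c.Valid → c.Lin T Q Q' V' → E.Pos →
    (∀ e, c.LBE w E ρ Q Q' V' e → ∀ s ∈ Icc (0 : ℝ) T, c.BoxE w E ρ (Q + s • V') V' e) ∧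
    ∀ i, c.LBV w E ρ Q Q' V' i → ∀ s ∈ Icc (0 : ℝ) T, c.BoxV w E ρ (Q + s • V') V' i

/-- BXI: the conditions of the checker for the box. -/
def Stmt_BXI : Prop :=
  ∀ (m n : ℕ) (E : ED) (s₀ : ℝ) (A B : SD), A.Vals m n → B.Vals m n → A.cb m n = B.cb m n →
    A.W n = B.W n →
    (∀ e : Fin (m + 1), bxE E (A.e e) (B.e e) = true →
      (A.cb m n).LBE (A.W n) (E.ev s₀) E.ρ (A.Q n) (B.Q n) (B.V n) e) ∧
    ∀ i : Fin (n + 1), bxV E (A.v i) (B.v i) = true →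
      (A.cb m n).LBV (A.W n) (E.ev s₀) E.ρ (A.Q n) (B.Q n) (B.V n) i

/-- SDC: the combinatorics of a checked saddle. -/
def Stmt_SDC : Prop :=
  ∀ (m n L R H₁ H₂ H₃ H₄ : ℕ) (E : ED) (A B C C' : SD), A.Facts m n → C.Facts m n →
    sdOK m n L R H₁ H₂ H₃ H₄ E A B C C' = true →
    SadComb (A.cb m n) (C.cb m n) (Fin.ofNat (n + 1) L) (Fin.ofNat (n + 1) R)
      (Fin.ofNat (m + 1) H₁) (Fin.ofNat (m + 1) H₂) (Fin.ofNat (m + 1) H₃)
      (Fin.ofNat (m + 1) H₄)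

/-- SDR: a checked saddle. -/
def Stmt_SDR : Prop :=
  ∀ (m n L R H₁ H₂ H₃ H₄ : ℕ) (E : ED) (A B C C' : SD) (s₀ : ℝ), stOK m n A = true →
    stOK m n B = true → stOK m n C = true → stOK m n C' = true →
    sdOK m n L R H₁ H₂ H₃ H₄ E A B C C' = true →
    Saddle (A.cb m n) (C.cb m n) (A.W n) (Fin.ofNat (n + 1) L) (Fin.ofNat (n + 1) R)
      (Fin.ofNat (m + 1) H₁) (Fin.ofNat (m + 1) H₂) (Fin.ofNat (m + 1) H₃)
      (Fin.ofNat (m + 1) H₄) (E.ev s₀) (A.Q n + A.V n) (A.V n) (C.V n) 2 ∧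
    (8 * E.r / E.v : ℝ) < 1 ∧ B.cb m n = C.cb m n ∧ B.W n = A.W n ∧ B.V n = C.V n ∧
    B.Q n = A.Q n + A.V n + C.V n

/-- STS: a saddle, two tips become two passes. -/
def Stmt_STS : Prop :=
  ∀ (K : Set LC.R3) (sh : Shape) (m n : ℕ) (t : ℤ) (L R H₁ H₂ H₃ H₄ : ℕ) (E : ED)
    (A B C C' : SD), stOK m n A = true → stOK m n B = true → stOK m n C = true →
    stOK m n C' = true → sdOK m n L R H₁ H₂ H₃ H₄ E A B C C' = true → 2 ≤ t →
    AtD K sh m n A t → AtD K sh m n B (t + 2)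

/-- STM: a saddle, two passes become two tips; `A'`, `B'` are `A`, `B` with reversed velocities. -/
def Stmt_STM : Prop :=
  ∀ (K : Set LC.R3) (sh : Shape) (m n : ℕ) (t : ℤ) (L R H₁ H₂ H₃ H₄ : ℕ) (E : ED)
    (A B C C' A' B' : SD), stOK m n A = true → stOK m n B = true → stOK m n C = true →
    stOK m n C' = true → stOK m n A' = true → stOK m n B' = true →
    sdOK m n L R H₁ H₂ H₃ H₄ E A B C C' = true → ngOK A A' = true → ngOK B B' = true → 2 ≤ t →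
    AtD K sh m n B' t → AtD K sh m n A' (t + 2)

/-- STX: the maximum. -/
def Stmt_STX : Prop :=
  ∀ (K : Set LC.R3) (sh : Shape) (t : ℤ) (lt rt pa pb H₁ H₂ H₃ H₄ : ℕ) (E : ED) (A : SD),
    stOK 3 3 A = true → dtOK lt rt pa pb H₁ H₂ H₃ H₄ E A = true →
    AtD K sh 3 3 A t → Capped K

/-! ### the beginning -/

/-- STB: the beginning. -/
def Stmt_STB : Prop :=
  ∀ (sh : Shape) (n : ℕ) (A A' : SD), stOK n n A = true → stOK n n A' = true →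
    bgOK n A A' = true → ∃ Λ : LC.LegKnot,
      Λ.carrier = (A.cb n n).knot sh (A.W n) (A.Q n) ∧ AtD Λ.carrier sh n n A 1

end LCA
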